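import Pool.Agent.H28.D2.Geo
import Pool.Agent.H4.D2.Shr

/-!
# The geometric data with a better precision of the first coordinate

`hdt2`: as `hdt`, the first coordinate (position and velocity) to `q₀` digits, the other ones to
`q` digits. `Gb.hopP2`, `Gb.hopN2`.
-/

set_option autoImplicit false

namespace Pool.D2F2

open Finset Real MvPolynomial
open Pool.Agent.H49.Ent Pool.Agent.H32.Dense Pool.STK Pool.KA Pool.KSAT Pool.K2S Pool.PB Pool.GEN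
open Pool.S6C Pool.LA91 Pool.CHT Pool.CHX
open Pool.OWN68 (opl tw uw mid dirv natDegree_opl opl_jet uw_abs)
open Pool.D2R (dd hs co nrm dd_sub)
open Pool.D2F (cv CvC eta dvn nc grd cv_grd cv_nc cv_eq cv_congr eta_dvn dvn_none FrOK cv_sub)
open Pool.D2Z (cvc_grd en en_succ en_zero en_nonneg en_mono en_eq)
open Pool.D2H (uw_eq eval_small der_small')
open Pool.D2S (Pr Sg NtB yk en_rec)
open Pool.F5 (NatH)

variable {m J : ℕ}

/-- The digits of the coordinates. -/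
def qv (q₀ q l : ℕ) : ℕ := if l = 0 then q₀ else q

theorem qv_zero (q₀ q : ℕ) : qv q₀ q 0 = q₀ := if_pos rfl

theorem qv_pos {q₀ q l : ℕ} (h : l ≠ 0) : qv q₀ q l = q := if_neg h

theorem le_qv {q₀ q : ℕ} (h : q ≤ q₀) (l : ℕ) : q ≤ qv q₀ q l := by
  unfold qv
  split_ifs
  · exact h
  · exact le_rfl

section up

variable {F : Fam m J} {κ : Type} {r D : ℕ}

/-- The same data with other precisions. -/
noncomputable def Dat.prc (d : Dat F κ r D) (SV SE : ℕ → ℝ) : Dat F κ r D where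
  fc := d.fc
  P := d.P
  gp := d.gp
  SV := SV
  SE := SE
  SG := d.SG
  P1 := d.P1
  gD := d.gD

variable {d : Dat F κ r D} {A : F.Ω → Prop} {W : ℕ} {σ : ℝ} {K Q : ℕ} {γ : Type} {Y : F.Ω → γ}
  {SV SE : ℕ → ℝ}

/-- The geometric data of a record at better precisions. -/
theorem HopP.prc (H : HopP d A W σ K Y) (h1 : ∀ l < r, d.SV l ≤ SV l) (h2 : ∀ l < r, SV l ≤ SE l)
    (hp : ∀ ω ω', A ω → A ω' → Y ω = Y ω' → ∀ l < r, SV l * |d.v W l ω - d.v W l ω'| ≤ K)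
    (hv : ∀ ω ω', A ω → A ω' → Y ω = Y ω' → ∀ l < r, SE l * |d.e W l ω - d.e W l ω'| ≤ K) :
    HopP (d.prc SV SE) A W σ K Y where
  hW := H.hW
  SV0 := fun l hl => lt_of_lt_of_le (H.SV0 l hl) (h1 l hl)
  SG0 := H.SG0
  SVE := h2
  σ0 := H.σ0
  σG := fun l hl => (H.σG l hl).trans (mul_le_mul_of_nonneg_left (h1 l hl) (H.SG0 l hl).le)
  TZ := H.TZ
  pos := hp
  vel := hv
  grd := H.grd
  hei := H.hei

/-- The geometric data of the hop at better precisions. -/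
theorem HopN.prc (H : HopN d A W Q σ K Y) (h1 : ∀ l < r, d.SV l ≤ SV l)
    (h2 : ∀ l < r, SV l ≤ SE l)
    (hp : ∀ ω ω', A ω → A ω' → Y ω = Y ω' → ∀ l < r, SV l * |d.v W l ω - d.v W l ω'| ≤ K)
    (hv : ∀ ω ω', A ω → A ω' → Y ω = Y ω' → ∀ l < r, SE l * |d.e W l ω - d.e W l ω'| ≤ K) :
    HopN (d.prc SV SE) A W Q σ K Y where
  toHopP := H.toHopP.prc h1 h2 hp hv
  nco := fun ω hω l hl j hj => (H.nco ω hω l hl j hj).trans
    (mul_le_mul_of_nonneg_left (h1 l hl) (by positivity))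
  nvl := H.nvl

end up

/-- The data of the context, with two precisions. -/
noncomputable def hdt2 (F : Fam m J) (c : ℕ → Fin m) (g : ℕ → ℕ) (W n r D q₀ q sg : ℕ)
    (ψH : LnT F → ℕ → Option (Fin m) → ℝ) (Ht : LnT F → MvPolynomial (Option (Fin m)) ℝ)
    (hD : ∀ s, (Ht s).totalDegree ≤ D) : Dat F (ℕ → Option (Fin m) → ℝ) r D :=
  (hdt F c g W n r D q sg ψH Ht hD).prc (fun l => 2 ^ (g l + qv q₀ q l))
    (fun l => 2 ^ (g l + qv q₀ q l))

/-- **The record of a ball**, with two precisions. -/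
structure Fb2 {F : Fam m J} {r D : ℕ} (d : Dat F (ℕ → Option (Fin m) → ℝ) r D)
    (G : PtT F → ℕ → MvPolynomial (Option (Fin m)) ℝ) (g ga : ℕ → ℕ) (W a q₀ q K₀ : ℕ)
    (B : F.Ω → Prop) {γ : Type} (Y : F.Ω → γ) : Prop where
  key : ∀ ω ω', B ω → B ω' → Y ω = Y ω' → F.T ω = F.T ω' ∧ F.Z ω = F.Z ω' ∧
    d.fc (slam F W ω) = d.fc (slam F W ω') ∧ ∀ l ≤ r, G (ptr F J ω) l = G (ptr F J ω') l
  pos : ∀ ω ω', B ω → B ω' → Y ω = Y ω' → ∀ l < r,
    2 ^ (g l + qv q₀ q l) * |d.v W l ω - d.v W l ω'| ≤ K₀ ∨ g l + qv q₀ q l ≤ ga l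
  vel : ∀ ω ω', B ω → B ω' → Y ω = Y ω' → ∀ l < r,
    2 ^ (g l + qv q₀ q l) * |d.e W l ω - d.e W l ω'| ≤ K₀ ∨ (l ≠ 0 ∧ g l + q + a ≤ ga l + W)
  grd : ∀ ω ω', B ω → B ω' → Y ω = Y ω' → ∀ l < r, ∀ j, 1 ≤ j → j ≤ D →
    d.SG l * |(d.gp l (slam F W ω)).coeff j - (d.gp l (slam F W ω')).coeff j| ≤ K₀

section

variable {F : Fam m J} {c : ℕ → Fin m} {g ga : ℕ → ℕ} {W n a k r D sg M q₀ q : ℕ}
    {ψH : LnT F → ℕ → Option (Fin m) → ℝ} {Ht : LnT F → MvPolynomial (Option (Fin m)) ℝ}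
    {G : PtT F → ℕ → MvPolynomial (Option (Fin m)) ℝ} {B : F.Ω → Prop}
    {hD : ∀ s, (Ht s).totalDegree ≤ D}

/-- The record with one precision. -/
theorem Fb2.fb (hq : q ≤ q₀) {K₀ : ℕ} {γ : Type} {Y : F.Ω → γ}
    (H : Fb2 (hdt2 F c g W n r D q₀ q sg ψH Ht hD) G g ga W a q₀ q K₀ B Y) :
    Fb (hdt F c g W n r D q sg ψH Ht hD) G g ga W a q K₀ B Y where
  key := H.key
  pos := fun ω ω' hω hω' e l hl => by
    rcases H.pos ω ω' hω hω' e l hl with h | h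
    · left
      refine le_trans (mul_le_mul_of_nonneg_right ?_ (abs_nonneg _)) h
      exact pow_le_pow_right₀ (by norm_num) (Nat.add_le_add_left (le_qv hq l) _)
    · right
      exact (Nat.add_le_add_left (le_qv hq l) _).trans h
  vel := fun ω ω' hω hω' e l hl => by
    rcases H.vel ω ω' hω hω' e l hl with h | h
    · left
      refine le_trans (mul_le_mul_of_nonneg_right ?_ (abs_nonneg _)) h
      exact pow_le_pow_right₀ (by norm_num) (Nat.add_le_add_left (le_qv hq l) _)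
    · exact Or.inr h.2
  grd := H.grd

/-- The first coordinate of two samples of one ball. -/
theorem Gb.zero (H : Gb F c g ga W n a k r D sg M ψH Ht G B) (hr : 0 < r) {ω ω' : F.Ω}
    (hω : B ω) (hω' : B ω') (hT : F.T ω = F.T ω')
    (hψ : ψH (slam F W ω) = ψH (slam F W ω'))
    (hG : ∀ l ≤ r, G (ptr F J ω) l = G (ptr F J ω') l) :
    |(hdt F c g W n r D q sg ψH Ht hD).v W 0 ω - (hdt F c g W n r D q sg ψH Ht hD).v W 0 ω'| ≤
      2 / 2 ^ ga 0 := by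
  have hp := H.pr hω hω' hT hG
  have h0 : (bt F ω' - bt F ω) none = 0 := by
    rw [Pi.sub_apply, hp.t0, sub_self]
  have e1 : cv (ψH (slam F W ω) 0) (bt F ω' - bt F ω) = 0 := by
    have h1 := cv_congr (H.cvH (slam F W ω) 0) (W := bt F ω' - bt F ω) (W' := 0)
      (by rw [h0]; rfl) (fun l hl => absurd hl (by omega))
    rw [h1]
    unfold cv
    simp
  rw [abs_sub_comm, hdt_dv H.hW 0 hψ, if_pos hr, e1, sub_zero, Pi.sub_apply]
  have h2 := hp.px 0 (Nat.zero_le r)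
  have h3 := hp.px' 0 (Nat.zero_le r)
  have e2 : eval (bt F ω') (G (ptr F J ω) 0) = eval (bt F ω) (G (ptr F J ω) 0) := by
    exact H.depG _ 0 _ _ hp.t0 fun l hl => absurd hl (by omega)
  rw [e2] at h3
  have e3 : bt F ω' (some (c 0)) - bt F ω (some (c 0)) =
      (bt F ω' (some (c 0)) - eval (bt F ω) (G (ptr F J ω) 0)) -
      (bt F ω (some (c 0)) - eval (bt F ω) (G (ptr F J ω) 0)) := by ring
  rw [e3]
  refine (abs_sub _ _).trans ((add_le_add h3 h2).trans (le_of_eq ?_))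
  ring

/-- The positions at the two precisions. -/
theorem Gb.pos2 (H : Gb F c g ga W n a k r D sg M ψH Ht G B) {K₀ K : ℕ} {γ : Type} {Y : F.Ω → γ}
    (HF : Fb2 (hdt2 F c g W n r D q₀ q sg ψH Ht hD) G g ga W a q₀ q K₀ B Y) (h2 : 2 ≤ K)
    (hK : K₀ ≤ K)
    (hp : ∀ ω ω', B ω → B ω' → Y ω = Y ω' → ∀ l < r,
      (2 : ℝ) ^ (g l + q) * |(hdt F c g W n r D q sg ψH Ht hD).v W l ω -
        (hdt F c g W n r D q sg ψH Ht hD).v W l ω'| ≤ K)
    (hv : ∀ ω ω', B ω → B ω' → Y ω = Y ω' → ∀ l < r,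
      (2 : ℝ) ^ (g l + q) * |(hdt F c g W n r D q sg ψH Ht hD).e W l ω -
        (hdt F c g W n r D q sg ψH Ht hD).e W l ω'| ≤ K) :
    (∀ ω ω', B ω → B ω' → Y ω = Y ω' → ∀ l < r,
      (2 : ℝ) ^ (g l + qv q₀ q l) * |(hdt F c g W n r D q sg ψH Ht hD).v W l ω -
        (hdt F c g W n r D q sg ψH Ht hD).v W l ω'| ≤ K) ∧
    ∀ ω ω', B ω → B ω' → Y ω = Y ω' → ∀ l < r,
      (2 : ℝ) ^ (g l + qv q₀ q l) * |(hdt F c g W n r D q sg ψH Ht hD).e W l ω -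
        (hdt F c g W n r D q sg ψH Ht hD).e W l ω'| ≤ K := by
  have hKR : (K₀ : ℝ) ≤ K := by exact_mod_cast hK
  have h2R : (2 : ℝ) ≤ K := by exact_mod_cast h2
  refine ⟨fun ω ω' hω hω' e l hl => ?_, fun ω ω' hω hω' e l hl => ?_⟩
  · rcases Nat.eq_zero_or_pos l with rfl | h
    · rcases HF.pos ω ω' hω hω' e 0 hl with h3 | h3
      · exact h3.trans hKR
      · obtain ⟨hT, -, hψ, hG⟩ := HF.key ω ω' hω hω' e
        have h4 := H.zero (q := q) (hD := hD) hl hω hω' hT hψ hG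
        refine (mul_le_mul_of_nonneg_left h4 (by positivity)).trans ?_
        rw [mul_div_assoc', div_le_iff₀ (by positivity)]
        have h5 : (2 : ℝ) ^ (g 0 + qv q₀ q 0) ≤ 2 ^ ga 0 := pow_le_pow_right₀ (by norm_num) h3
        have h6 : (0 : ℝ) < 2 ^ ga 0 := by positivity
        nlinarith
    · rw [qv_pos h.ne']
      exact hp ω ω' hω hω' e l hl
  · rcases Nat.eq_zero_or_pos l with rfl | h
    · rcases HF.vel ω ω' hω hω' e 0 hl with h3 | h3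
      · exact h3.trans hKR
      · exact absurd rfl h3.1
    · rw [qv_pos h.ne']
      exact hv ω ω' hω hω' e l hl

/-- The constant. -/
theorem two_le_K {r k K₀ D : ℕ} :
    2 ≤ ((2 * r + 2) * 2 ^ k) ^ (2 * r + 7) * (K₀ + 1) * (D + 1) ^ 2 ∧
    K₀ ≤ ((2 * r + 2) * 2 ^ k) ^ (2 * r + 7) * (K₀ + 1) * (D + 1) ^ 2 := by
  have h1 : 2 ≤ (2 * r + 2) * 2 ^ k := by
    have : 1 ≤ 2 ^ k := Nat.one_le_two_pow
    nlinarith
  have h2 : (2 * r + 2) * 2 ^ k ≤ ((2 * r + 2) * 2 ^ k) ^ (2 * r + 7) :=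
    Nat.le_self_pow (by omega) _
  have h3 : 1 ≤ (D + 1) ^ 2 := Nat.one_le_pow _ _ (by omega)
  obtain ⟨X, hX⟩ : ∃ X, X = ((2 * r + 2) * 2 ^ k) ^ (2 * r + 7) := ⟨_, rfl⟩
  rw [← hX] at h2 ⊢
  constructor
  · calc 2 ≤ X := h1.trans h2
      _ ≤ X * (K₀ + 1) := Nat.le_mul_of_pos_right _ (by omega)
      _ ≤ _ := Nat.le_mul_of_pos_right _ (by omega)
  · calc K₀ ≤ 1 * (K₀ + 1) := by omega
      _ ≤ X * (K₀ + 1) := Nat.mul_le_mul_right _ (by omega)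
      _ ≤ _ := Nat.le_mul_of_pos_right _ (by omega)

/-- **The geometric data of a record, two precisions.** -/
theorem Gb.hopP2 (H : Gb F c g ga W n a k r D sg M ψH Ht G B) (hq : q ≤ q₀) {K₀ : ℕ} {γ : Type}
    {Y : F.Ω → γ}
    (HF : Fb2 (hdt2 F c g W n r D q₀ q sg ψH Ht hD) G g ga W a q₀ q K₀ B Y)
    (hga : g r + sg + q ≤ ga r) :
    HopP (hdt2 F c g W n r D q₀ q sg ψH Ht hD) B W (2 ^ (g r + q + sg))
      (((2 * r + 2) * 2 ^ k) ^ (2 * r + 7) * (K₀ + 1) * (D + 1) ^ 2) Y := by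
  have h1 := H.hopP (HF.fb hq) hga
  obtain ⟨h2, h3⟩ := H.pos2 HF (two_le_K (r := r) (k := k) (K₀ := K₀) (D := D)).1
    (two_le_K (r := r) (k := k) (K₀ := K₀) (D := D)).2 h1.pos h1.vel
  exact h1.prc (fun l _ => pow_le_pow_right₀ (by norm_num)
    (Nat.add_le_add_left (le_qv hq l) _)) (fun l _ => le_rfl) h2 h3

/-- **The geometric data of the hop, two precisions.** -/
theorem Gb.hopN2 (H : Gb F c g ga W n a k r D sg M ψH Ht G B) (hq : q ≤ q₀) {K₀ : ℕ} {γ : Type}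
    {Y : F.Ω → γ}
    (HF : Fb2 (hdt2 F c g W n r D q₀ q sg ψH Ht hD) G g ga W a q₀ q K₀ B Y)
    (hga : g r + sg + q ≤ ga r) (hgv : g r + q + a ≤ ga r + W)
    (siz : ∀ ω, B ω → ∀ l < r, ∀ j, 1 ≤ j →
      |((hdt2 F c g W n r D q₀ q sg ψH Ht hD).gp l (slam F W ω)).coeff j| ≤
        2 ^ k * (2 ^ g l / 2 ^ g r)) :
    HopN (hdt2 F c g W n r D q₀ q sg ψH Ht hD) B W sg (2 ^ (g r + q + sg))
      (((2 * r + 2) * 2 ^ k) ^ (2 * r + 7) * (K₀ + 1) * (D + 1) ^ 2) Y := by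
  have h1 := H.hopN (HF.fb hq) hga hgv siz
  obtain ⟨h2, h3⟩ := H.pos2 HF (two_le_K (r := r) (k := k) (K₀ := K₀) (D := D)).1
    (two_le_K (r := r) (k := k) (K₀ := K₀) (D := D)).2 h1.pos h1.vel
  exact h1.prc (fun l _ => pow_le_pow_right₀ (by norm_num)
    (Nat.add_le_add_left (le_qv hq l) _)) (fun l _ => le_rfl) h2 h3

end

end Pool.D2F2
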