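import Mathlib.Tactic

/-!
# The own height over a reference line: the quadratic identity

`hgt`: the height of a line over the affine form along a reference line. `quad_near`: a polynomial
with small value and small velocity at one time and with small coefficients of order at least three
is its coefficient of order two times the square of the relative time. `hgt_pair`: two lines with
the same data at one time.
-/

set_option autoImplicit false

namespace Pool.D2H

open Finset

/-- The value minus the Taylor polynomial of order one. -/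
theorem eval_taylor {D : ℕ} {f : Polynomial ℝ} (hf : f.natDegree ≤ D) (u u₀ : ℝ) :
    f.eval u - f.eval u₀ - f.derivative.eval u₀ * (u - u₀) =
      ∑ j ∈ range (D + 1), f.coeff j * (u ^ j - u₀ ^ j - j * u₀ ^ (j - 1) * (u - u₀)) := by
  have hlt : f.natDegree < D + 1 := by omega
  have h1 := Polynomial.eval_eq_sum_range' hlt u
  have h2 := Polynomial.eval_eq_sum_range' hlt u₀
  have h3 : f.derivative.eval u₀ = ∑ j ∈ range (D + 1), f.coeff j * (j * u₀ ^ (j - 1)) := by
    conv_lhs => rw [f.as_sum_range' (D + 1) hlt]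
    rw [Polynomial.derivative_sum, Polynomial.eval_finsetSum]
    refine Finset.sum_congr rfl fun j _ => ?_
    rw [Polynomial.derivative_monomial, Polynomial.eval_monomial]
    ring
  rw [h1, h2, h3, Finset.sum_mul, ← Finset.sum_sub_distrib, ← Finset.sum_sub_distrib]
  refine Finset.sum_congr rfl fun j _ => ?_
  ring

/-- **A polynomial with small value and small velocity at one time.** -/
theorem quad_near (D : ℕ) : ∃ C : ℝ, 1 ≤ C ∧ ∀ (f : Polynomial ℝ) (u u₀ k₀ k₃ : ℝ),
    f.natDegree ≤ D → |u| ≤ 1 → |u₀| ≤ 1 → |f.eval u₀| ≤ k₀ → |f.derivative.eval u₀| ≤ k₀ →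
    (∀ j, 3 ≤ j → |f.coeff j| ≤ k₃) →
    |f.eval u - f.coeff 2 * (u - u₀) ^ 2| ≤ 3 * k₀ + C * k₃ := by
  refine ⟨(D + 1) * (2 * D + 2), ?_, ?_⟩
  · have : (0 : ℝ) ≤ D := Nat.cast_nonneg D
    nlinarith
  intro f u u₀ k₀ k₃ hf hu hu₀ h0 h1 h3
  have hk0 : 0 ≤ k₀ := (abs_nonneg _).trans h0
  have hk3 : 0 ≤ k₃ := (abs_nonneg _).trans (h3 3 le_rfl)
  have e1 := eval_taylor hf u u₀
  have hD0 : (0 : ℝ) ≤ D := Nat.cast_nonneg D
  have e2 : |(f.eval u - f.eval u₀ - f.derivative.eval u₀ * (u - u₀)) -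
      f.coeff 2 * (u - u₀) ^ 2| ≤ (D + 1) * (2 * D + 2) * k₃ := by
    have e3 : (f.eval u - f.eval u₀ - f.derivative.eval u₀ * (u - u₀)) -
        f.coeff 2 * (u - u₀) ^ 2 = ∑ j ∈ range (D + 1), if 3 ≤ j then
          f.coeff j * (u ^ j - u₀ ^ j - j * u₀ ^ (j - 1) * (u - u₀)) else 0 := by
      rw [e1]
      have e4 : f.coeff 2 * (u - u₀) ^ 2 = ∑ j ∈ range (D + 1),
          if j = 2 then f.coeff j * (u - u₀) ^ 2 else 0 := by
        rw [Finset.sum_ite_eq']
        by_cases h2 : 2 ∈ range (D + 1)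
        · rw [if_pos h2]
        · rw [if_neg h2]
          rw [Finset.mem_range, not_lt] at h2
          rw [Polynomial.coeff_eq_zero_of_natDegree_lt (by omega), zero_mul]
      rw [e4, ← Finset.sum_sub_distrib]
      refine Finset.sum_congr rfl fun j _ => ?_
      by_cases hj : 3 ≤ j
      · rw [if_pos hj, if_neg (by omega), sub_zero]
      · rw [if_neg hj]
        have : j = 0 ∨ j = 1 ∨ j = 2 := by omega
        rcases this with rfl | rfl | rfl
        · simp
        · simp
        · simp only [if_true]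
          push_cast
          ring
    rw [e3]
    refine (Finset.abs_sum_le_sum_abs _ _).trans ?_
    have e5 : ∀ j ∈ range (D + 1), |if 3 ≤ j then
        f.coeff j * (u ^ j - u₀ ^ j - j * u₀ ^ (j - 1) * (u - u₀)) else 0| ≤
          (2 * D + 2) * k₃ := by
      intro j hj
      rw [Finset.mem_range] at hj
      by_cases hj3 : 3 ≤ j
      · rw [if_pos hj3, abs_mul]
        have g1 : |u ^ j| ≤ 1 := by
          rw [abs_pow]
          exact pow_le_one₀ (abs_nonneg _) hu
        have g2 : |u₀ ^ j| ≤ 1 := by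
          rw [abs_pow]
          exact pow_le_one₀ (abs_nonneg _) hu₀
        have g3 : |u₀ ^ (j - 1)| ≤ 1 := by
          rw [abs_pow]
          exact pow_le_one₀ (abs_nonneg _) hu₀
        have g4 : |u - u₀| ≤ 2 := by
          rw [abs_le] at hu hu₀ ⊢
          constructor <;> linarith [hu.1, hu.2, hu₀.1, hu₀.2]
        have hjD : (j : ℝ) ≤ D := by exact_mod_cast (by omega : j ≤ D)
        have g5 : |(j : ℝ) * u₀ ^ (j - 1) * (u - u₀)| ≤ D * 1 * 2 := by
          rw [abs_mul, abs_mul, abs_of_nonneg (Nat.cast_nonneg j)]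
          exact mul_le_mul (mul_le_mul hjD g3 (abs_nonneg _) hD0) g4 (abs_nonneg _)
            (by positivity)
        have g6 : |u ^ j - u₀ ^ j - j * u₀ ^ (j - 1) * (u - u₀)| ≤ 2 * D + 2 := by
          rw [abs_le] at g1 g2 g5 ⊢
          constructor <;> linarith [g1.1, g1.2, g2.1, g2.2, g5.1, g5.2]
        calc |f.coeff j| * |u ^ j - u₀ ^ j - j * u₀ ^ (j - 1) * (u - u₀)|
            ≤ k₃ * (2 * D + 2) := mul_le_mul (h3 j hj3) g6 (abs_nonneg _) hk3
          _ = (2 * D + 2) * k₃ := by ring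
      · rw [if_neg hj3, abs_zero]
        positivity
    refine (Finset.sum_le_sum e5).trans (le_of_eq ?_)
    rw [Finset.sum_const, Finset.card_range, nsmul_eq_mul]
    push_cast
    ring
  have g4 : |u - u₀| ≤ 2 := by
    rw [abs_le] at hu hu₀ ⊢
    constructor <;> linarith [hu.1, hu.2, hu₀.1, hu₀.2]
  have e6 : |f.derivative.eval u₀ * (u - u₀)| ≤ k₀ * 2 := by
    rw [abs_mul]
    exact mul_le_mul h1 g4 (abs_nonneg _) hk0
  rw [abs_le] at h0 e2 e6 ⊢
  constructor <;> linarith [h0.1, h0.2, e2.1, e2.2, e6.1, e6.2]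

/-- The coefficients of a product with a polynomial of degree one. -/
theorem coeff_mul_lin (g : Polynomial ℝ) {δ : Polynomial ℝ} (hδ : δ.natDegree ≤ 1) (j : ℕ) :
    (g * δ).coeff (j + 1) = g.coeff (j + 1) * δ.coeff 0 + g.coeff j * δ.coeff 1 := by
  obtain ⟨a, b, rfl⟩ : ∃ a b, δ = Polynomial.C a + Polynomial.C b * Polynomial.X := by
    refine ⟨δ.coeff 0, δ.coeff 1, ?_⟩
    rw [add_comm]
    exact Polynomial.eq_X_add_C_of_natDegree_le_one hδ
  rw [mul_add, Polynomial.coeff_add, Polynomial.coeff_mul_C]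
  have e : g * (Polynomial.C b * Polynomial.X) = (g * Polynomial.C b) * Polynomial.X := by ring
  rw [e, Polynomial.coeff_mul_X, Polynomial.coeff_mul_C]
  simp

/-- **The height of a line over the affine form along a reference line.** -/
noncomputable def hgt (r : ℕ) (N NR : Polynomial ℝ) (V VR g : ℕ → Polynomial ℝ) : Polynomial ℝ :=
  (N - NR) - ∑ l ∈ range r, g l * (V l - VR l)

/-- The number of a line: `hgt` has the coefficient of order two `- (num - num of the reference)`. -/
noncomputable def num (r : ℕ) (V g : ℕ → Polynomial ℝ) : ℝ :=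
  ∑ l ∈ range r, ((g l).coeff 2 * (V l).coeff 0 + (g l).coeff 1 * (V l).coeff 1)

theorem hgt_sub (r : ℕ) (N N' NR : Polynomial ℝ) (V V' VR g : ℕ → Polynomial ℝ) :
    hgt r N' NR V' VR g - hgt r N NR V VR g =
      (N' - N) - ∑ l ∈ range r, g l * (V' l - V l) := by
  unfold hgt
  have e : ∑ l ∈ range r, g l * (V' l - V l) = ∑ l ∈ range r, g l * (V' l - VR l) -
      ∑ l ∈ range r, g l * (V l - VR l) := by
    rw [← Finset.sum_sub_distrib]
    refine Finset.sum_congr rfl fun l _ => ?_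
    ring
  rw [e]
  ring

theorem natDegree_hgt {r D : ℕ} {N NR : Polynomial ℝ} {V VR g : ℕ → Polynomial ℝ}
    (hN : N.natDegree ≤ 1) (hNR : NR.natDegree ≤ 1) (hV : ∀ l, (V l).natDegree ≤ 1)
    (hVR : ∀ l, (VR l).natDegree ≤ 1) (hg : ∀ l, (g l).natDegree ≤ D) :
    (hgt r N NR V VR g).natDegree ≤ D + 1 := by
  unfold hgt
  refine (Polynomial.natDegree_sub_le _ _).trans (max_le ?_ ?_)
  · exact ((Polynomial.natDegree_sub_le _ _).trans (max_le hN hNR)).trans (by omega)
  · refine Polynomial.natDegree_sum_le_of_forall_le _ _ fun l _ => ?_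
    refine Polynomial.natDegree_mul_le.trans (Nat.add_le_add (hg l) ?_)
    exact (Polynomial.natDegree_sub_le _ _).trans (max_le (hV l) (hVR l))

/-- The coefficients of order at least two. -/
theorem hgt_coeff {r : ℕ} {N NR : Polynomial ℝ} {V VR g : ℕ → Polynomial ℝ}
    (hN : N.natDegree ≤ 1) (hNR : NR.natDegree ≤ 1) (hV : ∀ l, (V l).natDegree ≤ 1)
    (hVR : ∀ l, (VR l).natDegree ≤ 1) (j : ℕ) :
    (hgt r N NR V VR g).coeff (j + 2) = - ∑ l ∈ range r,
      ((g l).coeff (j + 2) * ((V l).coeff 0 - (VR l).coeff 0) +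
        (g l).coeff (j + 1) * ((V l).coeff 1 - (VR l).coeff 1)) := by
  unfold hgt
  rw [Polynomial.coeff_sub, Polynomial.coeff_sub,
    Polynomial.coeff_eq_zero_of_natDegree_lt (p := N) (by omega),
    Polynomial.coeff_eq_zero_of_natDegree_lt (p := NR) (by omega), sub_zero, zero_sub,
    Polynomial.finsetSum_coeff]
  congr 1
  refine Finset.sum_congr rfl fun l _ => ?_
  have h1 : (V l - VR l).natDegree ≤ 1 :=
    (Polynomial.natDegree_sub_le _ _).trans (max_le (hV l) (hVR l))
  have := coeff_mul_lin (g l) h1 (j + 1)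
  rw [Polynomial.coeff_sub, Polynomial.coeff_sub] at this
  exact this

/-- The coefficient of order two. -/
theorem hgt_two {r : ℕ} {N NR : Polynomial ℝ} {V VR g : ℕ → Polynomial ℝ}
    (hN : N.natDegree ≤ 1) (hNR : NR.natDegree ≤ 1) (hV : ∀ l, (V l).natDegree ≤ 1)
    (hVR : ∀ l, (VR l).natDegree ≤ 1) :
    (hgt r N NR V VR g).coeff 2 = - (num r V g - num r VR g) := by
  have := hgt_coeff (r := r) (g := g) hN hNR hV hVR 0
  rw [this]
  unfold num
  congr 1
  rw [← Finset.sum_sub_distrib]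
  refine Finset.sum_congr rfl fun l _ => ?_
  norm_num
  ring

/-- **The pair identity.** Two lines whose heights and velocities over the reference are the same
at one time: the difference of the heights is the difference of the numbers times the square of the
relative time. -/
theorem hgt_pair (D : ℕ) : ∃ C : ℝ, 1 ≤ C ∧ ∀ {r : ℕ} {N N' NR : Polynomial ℝ}
    {V V' VR g : ℕ → Polynomial ℝ} {k₀ k₃ u u₀ : ℝ}, N.natDegree ≤ 1 → N'.natDegree ≤ 1 →
    NR.natDegree ≤ 1 → (∀ l, (V l).natDegree ≤ 1) → (∀ l, (V' l).natDegree ≤ 1) →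
    (∀ l, (VR l).natDegree ≤ 1) → (∀ l, (g l).natDegree ≤ D) → |u| ≤ 1 → |u₀| ≤ 1 →
    |(hgt r N' NR V' VR g).eval u₀ - (hgt r N NR V VR g).eval u₀| ≤ k₀ →
    |(hgt r N' NR V' VR g).derivative.eval u₀ - (hgt r N NR V VR g).derivative.eval u₀| ≤ k₀ →
    (∀ l < r, ∀ j, 2 ≤ j → |(g l).coeff (j + 1)| * |(V' l).coeff 0 - (V l).coeff 0| ≤ k₃ ∧
      |(g l).coeff j| * |(V' l).coeff 1 - (V l).coeff 1| ≤ k₃) →
    |((hgt r N' NR V' VR g).eval u - (hgt r N NR V VR g).eval u) -
      (-(num r V' g) - -(num r V g)) * (u - u₀) ^ 2| ≤ 3 * k₀ + C * (r * k₃) := by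
  obtain ⟨C, hC, h⟩ := quad_near (D + 1)
  refine ⟨2 * C, by linarith, ?_⟩
  intro r N N' NR V V' VR g k₀ k₃ u u₀ hN hN' hNR hV hV' hVR hg hu hu₀ h0 h1 h3
  obtain ⟨f, hf⟩ : ∃ f, f = hgt r N' NR V' VR g - hgt r N NR V VR g := ⟨_, rfl⟩
  have hfd : f.natDegree ≤ D + 1 := by
    rw [hf]
    exact (Polynomial.natDegree_sub_le _ _).trans
      (max_le (natDegree_hgt hN' hNR hV' hVR hg) (natDegree_hgt hN hNR hV hVR hg))
  have hf' : f = hgt r N' N V' V g := by
    rw [hf, hgt_sub]
    rfl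
  have hcf : f.coeff 2 = (-(num r V' g) - -(num r V g)) := by
    rw [hf', hgt_two hN' hN hV' hV]
    ring
  have h2 := h f u u₀ k₀ (r * (2 * k₃)) hfd hu hu₀ (by rw [hf, Polynomial.eval_sub]; exact h0)
    (by rw [hf, Polynomial.derivative_sub, Polynomial.eval_sub]; exact h1) (fun j hj => by
      obtain ⟨i, rfl⟩ : ∃ i, j = i + 2 := ⟨j - 2, by omega⟩
      rw [hf', hgt_coeff hN' hN hV' hV, abs_neg]
      refine (Finset.abs_sum_le_sum_abs _ _).trans ?_
      have : ∀ l ∈ range r, |(g l).coeff (i + 2) * ((V' l).coeff 0 - (V l).coeff 0) +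
          (g l).coeff (i + 1) * ((V' l).coeff 1 - (V l).coeff 1)| ≤ 2 * k₃ := by
        intro l hl
        obtain ⟨a1, -⟩ := h3 l (Finset.mem_range.1 hl) (i + 1) (by omega)
        obtain ⟨-, a2⟩ := h3 l (Finset.mem_range.1 hl) (i + 1) (by omega)
        refine (abs_add_le _ _).trans ?_
        rw [abs_mul, abs_mul]
        linarith
      refine (Finset.sum_le_sum this).trans (le_of_eq ?_)
      rw [Finset.sum_const, Finset.card_range, nsmul_eq_mul])
  rw [hcf, hf, Polynomial.eval_sub] at h2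
  refine h2.trans (le_of_eq ?_)
  ring

end Pool.D2H
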