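import Pool.Agent.H68.OWN.Pl
import Pool.Agent.H28.D2.Idn

/-!
# The context of a line and its own height over the reference line of the context

`vp`: the own path of a coordinate in the window `w`. `cx`: the context: the window, the own paths
of the coordinates `c l`, `l < r` (values and velocities to given precisions) and the coefficients
of the gradients `gp l` along the line. `rfo`: a reference sample for each value of the context.
`hL`: the own height of `κ` over the affine form along the reference line. `nb`: the number of a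
line over the gradients of its reference line.
-/

set_option autoImplicit false

namespace Pool.D2H

open Finset Real MvPolynomial
open Pool.Agent.H49.Ent Pool.Agent.H32.Dense Pool.STK Pool.KA Pool.KSAT Pool.K2S Pool.PB Pool.GEN
open Pool.OWN68 (opl tw uw CH_pair CH_pis natDegree_opl opl_jet uw_abs tw_abs floor_sub_le
  of_floor_div)

variable {m J : ℕ}

/-- The own path of a coordinate in the window. -/
noncomputable def vp (F : Fam m J) (w : ℕ) (k : Fin m) (s : LnT F) : Polynomial ℝ :=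
  opl F w (X (some k)) s

theorem natDegree_vp (F : Fam m J) (w : ℕ) (k : Fin m) (s : LnT F) :
    (vp F w k s).natDegree ≤ 1 :=
  natDegree_opl F w ((totalDegree_X _).le) s

/-- The position at the time of the sample. -/
theorem vp_eval (F : Fam m J) {w : ℕ} (hw : w ≤ J) (k : Fin m) (ω : F.Ω) :
    (vp F w k (slam F w ω)).eval (uw F w ω) = F.x ω k := by
  have h := opl_jet F hw (X (some k)) ω 0
  rw [Function.iterate_zero, id, pow_zero, one_mul] at h
  unfold vp
  rw [h]
  unfold Pool.LA91.jet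
  rw [Function.iterate_zero, id, Pool.LA91.eval_alp, eval_X]
  change bt F ω (some k) + 0 * bd F ω (some k) = _
  rw [zero_mul, add_zero]
  rfl

/-- The velocity. -/
theorem vp_one (F : Fam m J) {w : ℕ} (k : Fin m) (ω : F.Ω) :
    (vp F w k (slam F w ω)).coeff 1 = 1 / 2 ^ (w + 1) * F.d ω k := by
  have h : vp F w k (slam F w ω) =
      Polynomial.C (Pool.OWN68.mid F w (slam F w ω) (some k)) +
      Polynomial.C (1 / 2 ^ (w + 1) * F.d ω k) * Polynomial.X := by
    refine Polynomial.funext fun u => ?_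
    unfold vp opl
    rw [Polynomial.eval_comp, Pool.LA91.eval_alp, eval_X]
    simp only [Polynomial.eval_mul, Polynomial.eval_add, Polynomial.eval_C, Polynomial.eval_X]
    change _ + (1 / 2 ^ (w + 1) * u) * F.d ω k = _
    ring
  rw [h, Polynomial.coeff_add, Polynomial.coeff_C_mul, Polynomial.coeff_X_one]
  simp

/-- A polynomial of degree one. -/
theorem eval_lin {p : Polynomial ℝ} (hp : p.natDegree ≤ 1) (u : ℝ) :
    p.eval u = p.coeff 0 + p.coeff 1 * u := by
  rw [Polynomial.eval_eq_sum_range' (show p.natDegree < 2 by omega), Finset.sum_range_succ,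
    Finset.sum_range_one, pow_zero, mul_one, pow_one]

/-- Subadditivity for a finite family with a common bound. -/
theorem CH_pi_le {Ω ι S T : Type} [Fintype Ω] [Fintype ι] {p : Ω → ℝ} (hp0 : ∀ ω, 0 ≤ p ω)
    (X : Ω → ι → S) (W : Ω → T) {B : ℝ} (h : ∀ i, CH p (fun ω => X ω i) W ≤ B) :
    CH p X W ≤ Fintype.card ι * B := by
  have h1 : ∑ i, CH p (fun ω => X ω i) W ≤ ∑ _i : ι, B := Finset.sum_le_sum fun i _ => h i
  rw [Finset.sum_const, Finset.card_univ, nsmul_eq_mul] at h1
  exact (CH_pis hp0 X W).trans h1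

section ctx

variable (F : Fam m J) (w r D : ℕ) (c : ℕ → Fin m) (gp : ℕ → LnT F → Polynomial ℝ)
  (SV SE SG : ℕ → ℝ)

/-- The type of the contexts. -/
abbrev Cx (F : Fam m J) (r D : ℕ) : Type :=
  (F.ζ × ℕ) × ((Fin r → ℤ) × ((Fin r → ℤ) × (Fin r → Fin (D + 1) → ℤ)))

/-- **The context of a line.** -/
noncomputable def cx (s : LnT F) : Cx F r D :=
  (s.2, ((fun l => ⌊SV l * (vp F w (c l) s).coeff 0⌋), ((fun l => ⌊SE l * (vp F w (c l) s).coeff 1⌋),
    fun l j => ⌊SG l * (gp l s).coeff j⌋)))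

/-- **A reference sample** for a value of the context. -/
noncomputable def rfo (A : F.Ω → Prop) (y : Cx F r D) : Option F.Ω :=
  open Classical in
  if h : ∃ ω, A ω ∧ cx F w r D c gp SV SE SG (slam F w ω) = y then some h.choose else none

variable {F w r D c gp SV SE SG}

theorem rfo_spec {A : F.Ω → Prop} {ω : F.Ω} (hω : A ω) :
    ∃ ω₀, rfo F w r D c gp SV SE SG A (cx F w r D c gp SV SE SG (slam F w ω)) = some ω₀ ∧ A ω₀ ∧
      cx F w r D c gp SV SE SG (slam F w ω₀) = cx F w r D c gp SV SE SG (slam F w ω) := by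
  classical
  have h : ∃ ω', A ω' ∧ cx F w r D c gp SV SE SG (slam F w ω') =
      cx F w r D c gp SV SE SG (slam F w ω) := ⟨ω, hω, rfl⟩
  refine ⟨h.choose, ?_, h.choose_spec.1, h.choose_spec.2⟩
  unfold rfo
  rw [dif_pos h]

variable (F w r D c gp SV SE SG)

/-- The own height over a given reference sample. -/
noncomputable def hR (ω₀ : F.Ω) (s : LnT F) : Polynomial ℝ :=
  hgt r (vp F w (c r) s) (vp F w (c r) (slam F w ω₀)) (fun l => vp F w (c l) s)
    (fun l => vp F w (c l) (slam F w ω₀)) (fun l => gp l (slam F w ω₀))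

/-- **The own height over the reference line of the context.** -/
noncomputable def hL (A : F.Ω → Prop) (s : LnT F) : Polynomial ℝ :=
  (rfo F w r D c gp SV SE SG A (cx F w r D c gp SV SE SG s)).elim 0
    fun ω₀ => hR F w r c gp ω₀ s

/-- **The number of a line** over the gradients of the reference line. -/
noncomputable def nb (A : F.Ω → Prop) (s : LnT F) : ℝ :=
  (rfo F w r D c gp SV SE SG A (cx F w r D c gp SV SE SG s)).elim 0
    fun ω₀ => num r (fun l => vp F w (c l) s) (fun l => gp l (slam F w ω₀))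

variable {F w r D c gp SV SE SG}

theorem natDegree_hR (hg : ∀ l s, (gp l s).natDegree ≤ D) (ω₀ : F.Ω) (s : LnT F) :
    (hR F w r c gp ω₀ s).natDegree ≤ D + 1 :=
  natDegree_hgt (natDegree_vp F w _ _) (natDegree_vp F w _ _) (fun _ => natDegree_vp F w _ _)
    (fun _ => natDegree_vp F w _ _) fun l => hg l _

theorem natDegree_hL (hg : ∀ l s, (gp l s).natDegree ≤ D) (A : F.Ω → Prop) (s : LnT F) :
    (hL F w r D c gp SV SE SG A s).natDegree ≤ D + 1 := by
  unfold hL
  cases rfo F w r D c gp SV SE SG A (cx F w r D c gp SV SE SG s) with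
  | none => simp
  | some ω₀ => exact natDegree_hR hg ω₀ s

/-- **Few values of the context on the fibres** of a function. -/
theorem cx_few {γ : Type} {p : F.Ω → ℝ} (hp : IsLaw p) (Y : F.Ω → γ) {K : ℕ}
    (hZ : ∀ ω ω', 0 < p ω → 0 < p ω' → Y ω = Y ω' →
      (slam F w ω).2 = (slam F w ω').2)
    (h0 : ∀ ω ω', 0 < p ω → 0 < p ω' → Y ω = Y ω' → ∀ l < r,
      |SV l * (vp F w (c l) (slam F w ω)).coeff 0 -
        SV l * (vp F w (c l) (slam F w ω')).coeff 0| ≤ K)
    (h1 : ∀ ω ω', 0 < p ω → 0 < p ω' → Y ω = Y ω' → ∀ l < r,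
      |SE l * (vp F w (c l) (slam F w ω)).coeff 1 -
        SE l * (vp F w (c l) (slam F w ω')).coeff 1| ≤ K)
    (h2 : ∀ ω ω', 0 < p ω → 0 < p ω' → Y ω = Y ω' → ∀ l < r, ∀ j ≤ D,
      |SG l * (gp l (slam F w ω)).coeff j - SG l * (gp l (slam F w ω')).coeff j| ≤ K) :
    CH p (fun ω => cx F w r D c gp SV SE SG (slam F w ω)) Y ≤
      (r * (D + 3)) * Real.log (2 * (K + 1) + 1) := by
  have hn := hp.nonneg
  -- the pieces
  have e0 : CH p (fun ω => (slam F w ω).2) Y = 0 :=
    CH_eq_zero hn fun ω ω' hω hω' e => hZ ω ω' hω hω' e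
  have hcast : 2 * ((K + 1 : ℕ) : ℝ) + 1 = 2 * (K + 1) + 1 := by push_cast; ring
  have s0 : CH p (fun ω (l : Fin r) => ⌊SV l * (vp F w (c l) (slam F w ω)).coeff 0⌋) Y ≤
      r * Real.log (2 * (K + 1) + 1) := by
    have := CH_pi_le hn (fun ω (l : Fin r) => ⌊SV l * (vp F w (c l) (slam F w ω)).coeff 0⌋) Y
      (B := Real.log (2 * (K + 1) + 1)) fun l => by
        rw [← hcast]
        exact CH_pair hp _ Y fun ω ω' hω hω' e => floor_sub_le (h0 ω ω' hω hω' e l l.2)
    rwa [Fintype.card_fin] at this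
  have s1 : CH p (fun ω (l : Fin r) => ⌊SE l * (vp F w (c l) (slam F w ω)).coeff 1⌋) Y ≤
      r * Real.log (2 * (K + 1) + 1) := by
    have := CH_pi_le hn (fun ω (l : Fin r) => ⌊SE l * (vp F w (c l) (slam F w ω)).coeff 1⌋) Y
      (B := Real.log (2 * (K + 1) + 1)) fun l => by
        rw [← hcast]
        exact CH_pair hp _ Y fun ω ω' hω hω' e => floor_sub_le (h1 ω ω' hω hω' e l l.2)
    rwa [Fintype.card_fin] at this
  have s2 : CH p (fun ω (l : Fin r) (j : Fin (D + 1)) =>
      ⌊SG l * (gp l (slam F w ω)).coeff j⌋) Y ≤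
      r * (((D + 1 : ℕ) : ℝ) * Real.log (2 * (K + 1) + 1)) := by
    have := CH_pi_le hn (fun ω (l : Fin r) (j : Fin (D + 1)) =>
      ⌊SG l * (gp l (slam F w ω)).coeff j⌋) Y
      (B := ((D + 1 : ℕ) : ℝ) * Real.log (2 * (K + 1) + 1)) fun l => by
        have := CH_pi_le hn (fun ω (j : Fin (D + 1)) =>
          ⌊SG l * (gp l (slam F w ω)).coeff j⌋) Y
          (B := Real.log (2 * (K + 1) + 1)) fun j => by
            rw [← hcast]
            exact CH_pair hp _ Y fun ω ω' hω hω' e =>
              floor_sub_le (h2 ω ω' hω hω' e l l.2 j (by omega))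
        rwa [Fintype.card_fin] at this
    rwa [Fintype.card_fin] at this
  have t1 := CH_subadd hn (fun ω => (slam F w ω).2) (fun ω =>
    ((fun (l : Fin r) => ⌊SV l * (vp F w (c l) (slam F w ω)).coeff 0⌋),
      ((fun (l : Fin r) => ⌊SE l * (vp F w (c l) (slam F w ω)).coeff 1⌋),
        fun (l : Fin r) (j : Fin (D + 1)) => ⌊SG l * (gp l (slam F w ω)).coeff j⌋))) Y
  have t2 := CH_subadd hn
    (fun ω (l : Fin r) => ⌊SV l * (vp F w (c l) (slam F w ω)).coeff 0⌋) (fun ω =>
      ((fun (l : Fin r) => ⌊SE l * (vp F w (c l) (slam F w ω)).coeff 1⌋),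
        fun (l : Fin r) (j : Fin (D + 1)) => ⌊SG l * (gp l (slam F w ω)).coeff j⌋)) Y
  have t3 := CH_subadd hn
    (fun ω (l : Fin r) => ⌊SE l * (vp F w (c l) (slam F w ω)).coeff 1⌋)
    (fun ω (l : Fin r) (j : Fin (D + 1)) => ⌊SG l * (gp l (slam F w ω)).coeff j⌋) Y
  push_cast at s2
  unfold cx
  linarith [t1, t2, t3]

end ctx

end Pool.D2H
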