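import Pool.Agent.H28.D2.Hop
import Pool.Agent.H53.JM.Nf

/-!
# The rows of the own height over the reference line are not full

`Vdg`: the digits of the coordinates `c l` behind `v l`. `rows_one`: the entropy of the own height
over the reference line, given the context and the time, from the rows of the target given all the
digits of the other coordinates and from the fullness of `Vdg` given a record `G₂`.
-/

set_option autoImplicit false

namespace Pool.D2H

open Finset Real MvPolynomial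
open Pool.Agent.H49.Ent Pool.Agent.H32.Dense Pool.STK Pool.KA Pool.KSAT Pool.K2S Pool.PB Pool.GEN
open Pool.S6C Pool.LA91
open Pool.OWN68 (opl tw uw CH_pair CH_pis natDegree_opl opl_jet uw_abs tw_abs floor_sub_le
  of_floor_div nf_swap CH_le_Hu)
open Pool.GEN.N83 (oth)

variable {m J : ℕ}

/-- **The digits behind `v l`** of the coordinates `c l`, `l < r`. -/
noncomputable def Vdg (F : Fam m J) (c : ℕ → Fin m) (r : ℕ) (v : ℕ → ℕ) (ω : F.Ω) (l : Fin r) : ℤ :=
  F.X J ω (c l) % 2 ^ (J - v l)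

/-- The number of the values of the digits. -/
theorem H_Vdg (F : Fam m J) (c : ℕ → Fin m) (r : ℕ) (v : ℕ → ℕ) {p : F.Ω → ℝ} (hp : IsLaw p) :
    H p (Vdg F c r v) ≤ ∑ l ∈ range r, ((J - v l : ℕ) : ℝ) * Real.log 2 := by
  have h0 := hp.nonneg
  have e : H p (Vdg F c r v) = CH p (Vdg F c r v) (fun _ => ()) := by
    have h1 : H p (fun _ : F.Ω => ()) = 0 := by
      unfold H law
      simp [hp.sum_one]
    unfold CH
    rw [h1, sub_zero]
    exact H_congr h0 (fun ω ω' _ _ h => (Prod.ext_iff.mp h).1) (fun ω ω' _ _ h => Prod.ext h rfl)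
  rw [e]
  refine (CH_pis h0 _ _).trans ?_
  rw [← Fin.sum_univ_eq_sum_range (fun l => ((J - v l : ℕ) : ℝ) * Real.log 2)]
  refine Finset.sum_le_sum fun l _ => ?_
  have h1 := CH_le_card h0 hp.sum_one (fun ω => Vdg F c r v ω l) (fun _ => ())
    (fun _ => Finset.Ico (0 : ℤ) (2 ^ (J - v l))) (fun ω _ => by
      rw [Finset.mem_Ico]
      unfold Vdg
      exact ⟨Int.emod_nonneg _ (by positivity), Int.emod_lt_of_pos _ (by positivity)⟩)
  refine h1.trans (le_of_eq ?_)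
  rw [Ex_const hp.sum_one, Int.card_Ico, sub_zero]
  have e2 : ((2 : ℤ) ^ (J - v l)).toNat = 2 ^ (J - v l) := by
    have : (2 : ℤ) ^ (J - v l) = ((2 ^ (J - v l) : ℕ) : ℤ) := by push_cast; rfl
    rw [this, Int.toNat_natCast]
  rw [e2]
  push_cast
  rw [Real.log_pow]

/-- Smaller events. -/
theorem HopP.mono {F : Fam m J} {A B : F.Ω → Prop} {W r D : ℕ} {c : ℕ → Fin m}
    {gp : ℕ → LnT F → Polynomial ℝ} {SV SE SG : ℕ → ℝ} {σ : ℝ} {K : ℕ} {γ : Type} {Y : F.Ω → γ}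
    (H : HopP F A W r D c gp SV SE SG σ K Y) (hB : Sub B A) :
    HopP F B W r D c gp SV SE SG σ K Y where
  deg := H.deg
  hW := H.hW
  SV0 := H.SV0
  SG0 := H.SG0
  SVE := H.SVE
  σ0 := H.σ0
  σG := H.σG
  TZ := fun ω ω' h h' => H.TZ ω ω' (hB ω h) (hB ω' h')
  pos := fun ω ω' h h' => H.pos ω ω' (hB ω h) (hB ω' h')
  vel := fun ω ω' h h' => H.vel ω ω' (hB ω h) (hB ω' h')
  grd := fun ω ω' h h' => H.grd ω ω' (hB ω h) (hB ω' h')
  hei := fun ω ω' h h' => H.hei ω ω' (hB ω h) (hB ω' h')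

section

variable {F : Fam m J} {A : F.Ω → Prop} {W r D : ℕ} {c : ℕ → Fin m}
  {gp : ℕ → LnT F → Polynomial ℝ} {SV SE SG : ℕ → ℝ} {σ : ℝ} {K : ℕ} {γ : Type} {Y : F.Ω → γ}

/-- The own height over the reference line of a sample. -/
theorem hL_ref {ω : F.Ω} (hω : A ω) : ∃ ω₀, A ω₀ ∧
    cx F W r D c gp SV SE SG (slam F W ω₀) = cx F W r D c gp SV SE SG (slam F W ω) ∧
    ∀ s, cx F W r D c gp SV SE SG s = cx F W r D c gp SV SE SG (slam F W ω) →
      hL F W r D c gp SV SE SG A s = hR F W r c gp ω₀ s := by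
  obtain ⟨ω₀, g1, g2, g3⟩ := rfo_spec (F := F) (w := W) (r := r) (D := D) (c := c) (gp := gp)
    (SV := SV) (SE := SE) (SG := SG) (A := A) hω
  refine ⟨ω₀, g2, g3, fun s hs => ?_⟩
  unfold hL
  rw [hs, g1]
  rfl

/-- Two samples with the same context and time: the change of the own height is the change of the
target, up to the change of the other coordinates. -/
theorem hL_dif (hdeg : ∀ l s, (gp l s).natDegree ≤ D) (hW : W ≤ J) (hσ : 0 ≤ σ)
    (hlip : ∀ ω, A ω → ∀ l < r, ∀ j ≤ D, σ * |(gp l (slam F W ω)).coeff j| ≤ K * 2 ^ J)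
    {ω ω' : F.Ω} (hω : A ω) (hT : F.T ω = F.T ω')
    (e : cx F W r D c gp SV SE SG (slam F W ω) = cx F W r D c gp SV SE SG (slam F W ω'))
    (hx : ∀ l < r, |F.x ω' (c l) - F.x ω (c l)| ≤ 1 / 2 ^ J) :
    |σ * (hL F W r D c gp SV SE SG A (slam F W ω')).eval (uw F W ω') -
      σ * (hL F W r D c gp SV SE SG A (slam F W ω)).eval (uw F W ω) -
      σ * (F.x ω' (c r) - F.x ω (c r))| ≤ r * ((D + 1) * K) := by
  obtain ⟨ω₀, g1, g2, g3⟩ := hL_ref (F := F) (W := W) (r := r) (D := D) (c := c) (gp := gp)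
    (SV := SV) (SE := SE) (SG := SG) (A := A) hω
  rw [g3 _ rfl, g3 _ e.symm, ← uw_eq hT]
  have h1 := hR_eval (r := r) (c := c) (gp := gp) hW ω₀ hT
  have h2 : σ * (hR F W r c gp ω₀ (slam F W ω')).eval (uw F W ω) -
      σ * (hR F W r c gp ω₀ (slam F W ω)).eval (uw F W ω) - σ * (F.x ω' (c r) - F.x ω (c r)) =
      -(σ * ∑ l ∈ range r, (gp l (slam F W ω₀)).eval (uw F W ω) *
        (F.x ω' (c l) - F.x ω (c l))) := by
    have h3 : σ * ((hR F W r c gp ω₀ (slam F W ω')).eval (uw F W ω) -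
      (hR F W r c gp ω₀ (slam F W ω)).eval (uw F W ω)) = _ := congrArg (fun x => σ * x) h1
    linarith
  rw [h2, abs_neg, abs_mul, abs_of_nonneg hσ]
  refine (mul_le_mul_of_nonneg_left (Finset.abs_sum_le_sum_abs _ _) hσ).trans ?_
  rw [Finset.mul_sum]
  refine (Finset.sum_le_sum (g := fun _ => (D + 1) * (K : ℝ)) fun l hl => ?_).trans (le_of_eq ?_)
  · have hl' := Finset.mem_range.1 hl
    have h4 : σ * |(gp l (slam F W ω₀)).eval (uw F W ω)| ≤ (D + 1) * (K * 2 ^ J) := by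
      have h5 : (Polynomial.C σ * gp l (slam F W ω₀)).natDegree ≤ D :=
        (Polynomial.natDegree_C_mul_le _ _).trans (hdeg l _)
      have h6 := eval_small h5 (uw_abs F W ω) (B := K * 2 ^ J) fun j hj => by
        rw [Polynomial.coeff_C_mul, abs_mul, abs_of_nonneg hσ]
        exact hlip ω₀ g1 l hl' j hj
      rwa [Polynomial.eval_mul, Polynomial.eval_C, abs_mul, abs_of_nonneg hσ] at h6
    rw [abs_mul, ← mul_assoc]
    have h7 : (0 : ℝ) < 2 ^ J := by positivity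
    calc σ * |(gp l (slam F W ω₀)).eval (uw F W ω)| * |F.x ω' (c l) - F.x ω (c l)|
        ≤ ((D + 1) * (K * 2 ^ J)) * (1 / 2 ^ J) :=
          mul_le_mul h4 (hx l hl') (abs_nonneg _) (by positivity)
      _ = (D + 1) * K := by field_simp
  · rw [Finset.sum_const, Finset.card_range, nsmul_eq_mul]

/-- One coordinate given its digits behind `v l` and the context. -/
theorem CH_oth_one (hW : W ≤ J) {v : ℕ → ℕ} (hv : ∀ l < r, v l ≤ J)
    (hSV : ∀ l < r, SV l = 2 ^ v l) (hSVE : ∀ l < r, SV l ≤ SE l)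
    {p : F.Ω → ℝ} (hp : IsLaw p) {γ : Type}
    (Z : F.Ω → γ) (hZ : ∀ ω ω', 0 < p ω → 0 < p ω' → Z ω = Z ω' → F.T ω = F.T ω' ∧
      cx F W r D c gp SV SE SG (slam F W ω) = cx F W r D c gp SV SE SG (slam F W ω') ∧
      Vdg F c r v ω = Vdg F c r v ω') {l : ℕ} (hl : l < r) :
    CH p (fun ω => F.X J ω (c l)) Z ≤ Real.log 7 := by
  have h0 := hp.nonneg
  classical
  obtain ⟨rep, hrep⟩ : ∃ rep : γ → ℤ, ∀ ω, 0 < p ω → ∃ ω', 0 < p ω' ∧ Z ω' = Z ω ∧
      rep (Z ω) = F.X J ω' (c l) := by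
    refine ⟨fun z => if h : ∃ ω', 0 < p ω' ∧ Z ω' = z then F.X J h.choose (c l) else 0,
      fun ω hω => ?_⟩
    have h : ∃ ω', 0 < p ω' ∧ Z ω' = Z ω := ⟨ω, hω, rfl⟩
    refine ⟨h.choose, h.choose_spec.1, h.choose_spec.2, ?_⟩
    simp only [dif_pos h]
  have h2 := CH_le_card h0 hp.sum_one (fun ω => F.X J ω (c l)) Z
    (fun z => (Finset.Icc (-3 : ℤ) 3).image fun k => rep z + 2 ^ (J - v l) * k)
    (fun ω hω => by
      obtain ⟨ω', g1, g2, g3⟩ := hrep ω hω
      obtain ⟨hT, e2, e3⟩ := hZ ω ω' hω g1 g2.symm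
      rw [Finset.mem_image, g3]
      have e4 : F.X J ω (c l) % 2 ^ (J - v l) = F.X J ω' (c l) % 2 ^ (J - v l) :=
        congrFun e3 ⟨l, hl⟩
      obtain ⟨k, hk⟩ : ∃ k, F.X J ω (c l) - F.X J ω' (c l) = 2 ^ (J - v l) * k :=
        Int.ModEq.dvd (show F.X J ω' (c l) ≡ F.X J ω (c l) [ZMOD 2 ^ (J - v l)] from e4.symm)
      refine ⟨k, ?_, by linarith⟩
      have hS0 : 0 < SV l := by
        rw [hSV l hl]
        positivity
      have hE0 : 0 < SE l := lt_of_lt_of_le hS0 (hSVE l hl)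
      unfold cx at e2
      simp only [Prod.mk.injEq] at e2
      obtain ⟨-, f1, f2, -⟩ := e2
      have f3 := of_floor_mul hS0 (congrFun f1 ⟨l, hl⟩)
      have f4 := of_floor_mul hE0 (congrFun f2 ⟨l, hl⟩)
      dsimp only at f3 f4
      have f5 : |F.x ω (c l) - F.x ω' (c l)| ≤ 2 * (1 / SV l) := by
        have b1 := vp_zero (F := F) hW (c l) ω
        have b2 := vp_zero (F := F) hW (c l) ω'
        rw [← uw_eq hT] at b2
        have b3 : F.x ω (c l) - F.x ω' (c l) =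
            ((vp F W (c l) (slam F W ω)).coeff 0 - (vp F W (c l) (slam F W ω')).coeff 0) +
            ((vp F W (c l) (slam F W ω)).coeff 1 - (vp F W (c l) (slam F W ω')).coeff 1) *
              uw F W ω := by
          linarith
        rw [b3]
        refine (abs_add_le _ _).trans ?_
        rw [abs_mul]
        have b4 : |(vp F W (c l) (slam F W ω)).coeff 1 -
            (vp F W (c l) (slam F W ω')).coeff 1| * |uw F W ω| ≤ 1 / SV l := by
          calc _ ≤ (1 / SE l) * 1 := mul_le_mul f4 (uw_abs F W ω) (abs_nonneg _)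
                (by positivity)
            _ = 1 / SE l := mul_one _
            _ ≤ 1 / SV l := one_div_le_one_div_of_le hS0 (hSVE l hl)
        linarith
      have f6 : |((F.X J ω (c l) - F.X J ω' (c l) : ℤ) : ℝ)| ≤ 2 ^ (J - v l) * 2 + 1 := by
        have c1 := Int.floor_le ((2 : ℝ) ^ J * F.x ω (c l))
        have c2 := Int.lt_floor_add_one ((2 : ℝ) ^ J * F.x ω (c l))
        have c3 := Int.floor_le ((2 : ℝ) ^ J * F.x ω' (c l))
        have c4 := Int.lt_floor_add_one ((2 : ℝ) ^ J * F.x ω' (c l))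
        have c5 : F.X J ω (c l) = ⌊(2 : ℝ) ^ J * F.x ω (c l)⌋ := rfl
        have c6 : F.X J ω' (c l) = ⌊(2 : ℝ) ^ J * F.x ω' (c l)⌋ := rfl
        have c7 : |(2 : ℝ) ^ J * F.x ω (c l) - 2 ^ J * F.x ω' (c l)| ≤
            2 ^ (J - v l) * 2 := by
          rw [← mul_sub, abs_mul, abs_of_pos (by positivity : (0 : ℝ) < 2 ^ J)]
          refine (mul_le_mul_of_nonneg_left f5 (by positivity)).trans (le_of_eq ?_)
          rw [hSV l hl]
          have : (2 : ℝ) ^ J = 2 ^ (J - v l) * 2 ^ v l := by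
            rw [← pow_add]
            congr 1
            have := hv l hl
            omega
          rw [this]
          field_simp
        rw [c5, c6]
        push_cast
        rw [abs_le] at c7 ⊢
        constructor <;> linarith [c7.1, c7.2]
      rw [hk] at f6
      push_cast at f6
      have h2p : (1 : ℝ) ≤ 2 ^ (J - v l) := one_le_pow₀ (by norm_num)
      rw [abs_mul, abs_of_pos (by positivity : (0 : ℝ) < 2 ^ (J - v l))] at f6
      have f7 : |(k : ℝ)| < 4 := by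
        by_contra hcon
        rw [not_lt] at hcon
        nlinarith
      rw [Finset.mem_Icc]
      rw [abs_lt] at f7
      have f8 : -(4 : ℤ) < k := by exact_mod_cast f7.1
      have f9 : k < 4 := by exact_mod_cast f7.2
      omega)
  refine h2.trans ?_
  have h3 : ∀ z, Real.log (((Finset.Icc (-3 : ℤ) 3).image
      fun k => rep z + 2 ^ (J - v l) * k).card : ℝ) ≤ Real.log 7 := by
    intro z
    have h4 := Finset.card_image_le (s := Finset.Icc (-3 : ℤ) 3)
      (f := fun k => rep z + 2 ^ (J - v l) * k)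
    have h5 : (Finset.Icc (-3 : ℤ) 3).card = 7 := by
      rw [Int.card_Icc]
      rfl
    rw [h5] at h4
    have h6 : 0 < ((Finset.Icc (-3 : ℤ) 3).image fun k => rep z + 2 ^ (J - v l) * k).card :=
      Finset.card_pos.2 (Finset.Nonempty.image ⟨0, by simp⟩ _)
    exact Real.log_le_log (by exact_mod_cast h6) (by exact_mod_cast h4)
  have h7 := Ex_mono h0 (f := fun ω => Real.log (((Finset.Icc (-3 : ℤ) 3).image
      fun k => rep (Z ω) + 2 ^ (J - v l) * k).card : ℝ)) (g := fun _ => Real.log 7)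
      fun ω _ => h3 (Z ω)
  rwa [Ex_const hp.sum_one] at h7

/-- The digits and the context determine the exact position of the other coordinates up to few
values. -/
theorem CH_oth (hW : W ≤ J) {v : ℕ → ℕ} (hv : ∀ l < r, v l ≤ J)
    (hSV : ∀ l < r, SV l = 2 ^ v l) (hSVE : ∀ l < r, SV l ≤ SE l)
    (hc : ∀ j, j ≠ c r → ∃ l < r, c l = j) {p : F.Ω → ℝ} (hp : IsLaw p) {γ : Type}
    (Z : F.Ω → γ) (hZ : ∀ ω ω', 0 < p ω → 0 < p ω' → Z ω = Z ω' → F.W ω = F.W ω' ∧
      cx F W r D c gp SV SE SG (slam F W ω) = cx F W r D c gp SV SE SG (slam F W ω') ∧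
      Vdg F c r v ω = Vdg F c r v ω') :
    CH p (fun ω => oth (c r) J F (ptr F J ω)) Z ≤ r * Real.log 7 := by
  have h0 := hp.nonneg
  have h1 : CH p (fun ω => oth (c r) J F (ptr F J ω)) Z ≤
      CH p (fun ω (l : Fin r) => F.X J ω (c l)) Z := by
    refine CH_mono_left h0 fun ω ω' hω hω' e => ?_
    obtain ⟨e1, e2⟩ := Prod.ext_iff.1 e
    obtain ⟨g1, -, -⟩ := hZ ω ω' hω hω' e2
    unfold oth ptr
    refine Prod.ext (_root_.funext fun j => ?_) g1
    change Function.update (F.X J ω) (c r) 0 j = Function.update (F.X J ω') (c r) 0 j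
    by_cases hj : j = c r
    · rw [hj, Function.update_self, Function.update_self]
    · rw [Function.update_of_ne hj, Function.update_of_ne hj]
      obtain ⟨l, hl, rfl⟩ := hc j hj
      exact congrFun e1 ⟨l, hl⟩
  refine h1.trans ((CH_pis h0 _ _).trans ?_)
  refine (Finset.sum_le_sum (g := fun _ => Real.log 7) fun l _ => ?_).trans (le_of_eq ?_)
  · exact CH_oth_one hW hv hSV hSVE hp Z (fun ω ω' hω hω' e => by
      obtain ⟨g1, g2, g3⟩ := hZ ω ω' hω hω' e
      exact ⟨(Prod.ext_iff.1 g1).1, g2, g3⟩) l.2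
  · rw [Finset.sum_const, Finset.card_univ, Fintype.card_fin, nsmul_eq_mul]

/-- The height and its coarse digits are few bits given the record. -/
theorem HopP.few {B : F.Ω → Prop} (hBA : Sub B A) (hB : 0 < Pe F.p B) {x : ℝ} (hx : 0 ≤ x)
    {γ' : Type} {G : F.Ω → γ'} (HG : HopP F B W r D c gp SV SE SG σ K G) :
    CH (Pool.Agent.H49.Ent.cond F.p B True)
      (fun ω => (⌊σ * (hL F W r D c gp SV SE SG A (slam F W ω)).eval (uw F W ω)⌋,
        (⌊σ * (hL F W r D c gp SV SE SG A (slam F W ω)).eval (uw F W ω) / 2 ^ x⌋,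
          (cx F W r D c gp SV SE SG (slam F W ω), F.W ω)))) G ≤
      (r * (D + 3)) * Real.log (2 * ((2 * K : ℕ) + 1) + 1) +
        2 * Real.log (2 * (K * (1 + r * (D + 1) ^ 2) + 1 : ℕ) + 1) := by
  have hp := isLaw_cond F.isLaw hB
  have h0 := hp.nonneg
  have hBp : ∀ ω, 0 < Pool.Agent.H49.Ent.cond F.p B True ω → B ω := fun ω hω => of_cond_pos hω
  have hctx := HG.ctx hB
  have hσ := HG.σ0
  -- the pairs
  have key : ∀ ω ω', B ω → B ω' → G ω = G ω' →
      cx F W r D c gp SV SE SG (slam F W ω) = cx F W r D c gp SV SE SG (slam F W ω') →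
      |σ * (hL F W r D c gp SV SE SG A (slam F W ω)).eval (uw F W ω) -
        σ * (hL F W r D c gp SV SE SG A (slam F W ω')).eval (uw F W ω')| ≤
        ((K * (1 + r * (D + 1) ^ 2) : ℕ) : ℝ) := by
    intro ω ω' hω hω' hG e
    obtain ⟨ω₀, g1, g2, g3⟩ := hL_ref (F := F) (W := W) (r := r) (D := D) (c := c) (gp := gp)
      (SV := SV) (SE := SE) (SG := SG) (A := A) (hBA ω hω)
    have hT := (HG.TZ ω ω' hω hω' hG).1
    have h1 := HG.pair hω hω' hG g2
    rw [g3 _ rfl, g3 _ e.symm, ← uw_eq hT, ← mul_sub, abs_mul, abs_of_nonneg hσ, abs_sub_comm]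
    refine h1.trans (le_of_eq ?_)
    push_cast
    ring
  have hx1 : (1 : ℝ) ≤ 2 ^ x := Real.one_le_rpow (by norm_num) hx
  have f1 : ∀ ω ω', 0 < Pool.Agent.H49.Ent.cond F.p B True ω →
      0 < Pool.Agent.H49.Ent.cond F.p B True ω' →
      (cx F W r D c gp SV SE SG (slam F W ω), G ω) =
        (cx F W r D c gp SV SE SG (slam F W ω'), G ω') →
      |⌊σ * (hL F W r D c gp SV SE SG A (slam F W ω)).eval (uw F W ω)⌋ -
        ⌊σ * (hL F W r D c gp SV SE SG A (slam F W ω')).eval (uw F W ω')⌋| ≤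
        ((K * (1 + r * (D + 1) ^ 2) + 1 : ℕ) : ℤ) := by
    intro ω ω' hω hω' e
    have h1 := key ω ω' (hBp ω hω) (hBp ω' hω') (Prod.ext_iff.1 e).2 (Prod.ext_iff.1 e).1
    have h2 := floor_sub_le h1
    push_cast at h2 ⊢
    exact h2
  have f2 : ∀ ω ω', 0 < Pool.Agent.H49.Ent.cond F.p B True ω →
      0 < Pool.Agent.H49.Ent.cond F.p B True ω' →
      (cx F W r D c gp SV SE SG (slam F W ω), G ω) =
        (cx F W r D c gp SV SE SG (slam F W ω'), G ω') →
      |⌊σ * (hL F W r D c gp SV SE SG A (slam F W ω)).eval (uw F W ω) / 2 ^ x⌋ -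
        ⌊σ * (hL F W r D c gp SV SE SG A (slam F W ω')).eval (uw F W ω') / 2 ^ x⌋| ≤
        ((K * (1 + r * (D + 1) ^ 2) + 1 : ℕ) : ℤ) := by
    intro ω ω' hω hω' e
    have h1 := key ω ω' (hBp ω hω) (hBp ω' hω') (Prod.ext_iff.1 e).2 (Prod.ext_iff.1 e).1
    have h3 : |σ * (hL F W r D c gp SV SE SG A (slam F W ω)).eval (uw F W ω) / 2 ^ x -
        σ * (hL F W r D c gp SV SE SG A (slam F W ω')).eval (uw F W ω') / 2 ^ x| ≤
        ((K * (1 + r * (D + 1) ^ 2) : ℕ) : ℝ) := by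
      rw [← sub_div, abs_div, abs_of_pos (by linarith : (0 : ℝ) < 2 ^ x)]
      exact (div_le_self (abs_nonneg _) hx1).trans h1
    have h2 := floor_sub_le h3
    push_cast at h2 ⊢
    exact h2
  have g1 := CH_pair hp _ _ f1
  have g2 := CH_pair hp _ _ f2
  have s1 := CH_step h0 (fun ω => (⌊σ * (hL F W r D c gp SV SE SG A (slam F W ω)).eval
      (uw F W ω)⌋, (⌊σ * (hL F W r D c gp SV SE SG A (slam F W ω)).eval (uw F W ω) / 2 ^ x⌋,
          (cx F W r D c gp SV SE SG (slam F W ω), F.W ω))))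
    (fun ω => cx F W r D c gp SV SE SG (slam F W ω)) G
  have s2 := CH_chain h0 (fun ω => ⌊σ * (hL F W r D c gp SV SE SG A (slam F W ω)).eval
      (uw F W ω)⌋) (fun ω => (⌊σ * (hL F W r D c gp SV SE SG A (slam F W ω)).eval
      (uw F W ω) / 2 ^ x⌋, (cx F W r D c gp SV SE SG (slam F W ω), F.W ω)))
    (fun ω => (cx F W r D c gp SV SE SG (slam F W ω), G ω))
  have s3 : CH (Pool.Agent.H49.Ent.cond F.p B True)
      (fun ω => ⌊σ * (hL F W r D c gp SV SE SG A (slam F W ω)).eval (uw F W ω)⌋)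
      (fun ω => ((⌊σ * (hL F W r D c gp SV SE SG A (slam F W ω)).eval
      (uw F W ω) / 2 ^ x⌋, (cx F W r D c gp SV SE SG (slam F W ω), F.W ω)),
      (cx F W r D c gp SV SE SG (slam F W ω), G ω))) ≤
      CH (Pool.Agent.H49.Ent.cond F.p B True)
      (fun ω => ⌊σ * (hL F W r D c gp SV SE SG A (slam F W ω)).eval (uw F W ω)⌋)
      (fun ω => (cx F W r D c gp SV SE SG (slam F W ω), G ω)) :=
    CH_mono_cond h0 fun ω ω' _ _ e => (Prod.ext_iff.1 e).2
  have s4 : CH (Pool.Agent.H49.Ent.cond F.p B True)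
      (fun ω => (⌊σ * (hL F W r D c gp SV SE SG A (slam F W ω)).eval
      (uw F W ω) / 2 ^ x⌋, (cx F W r D c gp SV SE SG (slam F W ω), F.W ω)))
      (fun ω => (cx F W r D c gp SV SE SG (slam F W ω), G ω)) ≤
      CH (Pool.Agent.H49.Ent.cond F.p B True)
      (fun ω => ⌊σ * (hL F W r D c gp SV SE SG A (slam F W ω)).eval (uw F W ω) / 2 ^ x⌋)
      (fun ω => (cx F W r D c gp SV SE SG (slam F W ω), G ω)) := by
    refine CH_mono_left h0 fun ω ω' hω hω' e => ?_
    obtain ⟨e1, e2⟩ := Prod.ext_iff.1 e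
    obtain ⟨e3, e4⟩ := Prod.ext_iff.1 e2
    obtain ⟨e5, e6⟩ := HG.TZ ω ω' (hBp ω hω) (hBp ω' hω') e4
    exact Prod.ext e1 (Prod.ext e3 (Prod.ext e5 e6))
  linarith

/-- **The rows of the own height** from the rows of the target and from the fullness of the digits
of the other coordinates given a record. -/
theorem rows_one {B : F.Ω → Prop} (hdeg : ∀ l s, (gp l s).natDegree ≤ D) (hW : W ≤ J)
    (hBA : Sub B A) (hB : 0 < Pe F.p B) {v : ℕ → ℕ} (hv : ∀ l < r, v l ≤ J)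
    (hSV : ∀ l < r, SV l = 2 ^ v l) (hcr : ∀ l < r, c l ≠ c r)
    (hc : ∀ j, j ≠ c r → ∃ l < r, c l = j) {K₁ : ℕ}
    (hlip : ∀ ω, A ω → ∀ l < r, ∀ j ≤ D, σ * |(gp l (slam F W ω)).coeff j| ≤ K₁ * 2 ^ J)
    {n₁ n₂ : ℕ} (hσ : σ = 2 ^ n₂) {x : ℝ} (hx : 0 ≤ x) (hn : (n₁ : ℝ) + x ≤ n₂)
    {γ' : Type} {G : F.Ω → γ'} (HG : HopP F B W r D c gp SV SE SG σ K G) :
    CH (Pool.Agent.H49.Ent.cond F.p B True)
      (fun ω => ⌊σ * (hL F W r D c gp SV SE SG A (slam F W ω)).eval (uw F W ω)⌋)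
      (fun ω => (⌊σ * (hL F W r D c gp SV SE SG A (slam F W ω)).eval (uw F W ω) / 2 ^ x⌋,
        (cx F W r D c gp SV SE SG (slam F W ω), F.W ω))) ≤
    CH (Pool.Agent.H49.Ent.cond F.p B True) (fun ω => F.X n₂ ω (c r))
      (fun ω => (F.X n₁ ω (c r), oth (c r) J F (ptr F J ω))) +
    (∑ l ∈ range r, ((J - v l : ℕ) : ℝ) * Real.log 2 -
      CH (Pool.Agent.H49.Ent.cond F.p B True) (Vdg F c r v) G) +
    (r * Real.log 7 + 2 * Real.log (2 * (r * ((D + 1) * K₁) + 2 : ℕ) + 1) +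
      ((r * (D + 3)) * Real.log (2 * ((2 * K : ℕ) + 1) + 1) +
        2 * Real.log (2 * (K * (1 + r * (D + 1) ^ 2) + 1 : ℕ) + 1))) := by
  have hp := isLaw_cond F.isLaw hB
  have h0 := hp.nonneg
  have hBp : ∀ ω, 0 < Pool.Agent.H49.Ent.cond F.p B True ω → B ω := fun ω hω => of_cond_pos hω
  have hσ0 : 0 ≤ σ := by
    rw [hσ]
    positivity
  have hx1 : (1 : ℝ) ≤ 2 ^ x := Real.one_le_rpow (by norm_num) hx
  have hfew := HopP.few hBA hB hx HG
  -- the pairs
  have key : ∀ ω ω', B ω → B ω' → oth (c r) J F (ptr F J ω) = oth (c r) J F (ptr F J ω') →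
      cx F W r D c gp SV SE SG (slam F W ω) = cx F W r D c gp SV SE SG (slam F W ω') →
      |σ * (hL F W r D c gp SV SE SG A (slam F W ω')).eval (uw F W ω') -
        σ * (hL F W r D c gp SV SE SG A (slam F W ω)).eval (uw F W ω) -
        σ * (F.x ω' (c r) - F.x ω (c r))| ≤ r * ((D + 1) * K₁) := by
    intro ω ω' hω hω' hO e
    have hO1 := (Prod.ext_iff.1 hO).1
    have hT : F.T ω = F.T ω' := (Prod.ext_iff.1 (Prod.ext_iff.1 hO).2).1
    refine hL_dif hdeg hW hσ0 hlip (hBA ω hω) hT e fun l hl => ?_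
    have h1 : Function.update (F.X J ω) (c r) 0 (c l) = Function.update (F.X J ω') (c r) 0 (c l) :=
      congrFun hO1 (c l)
    rw [Function.update_of_ne (hcr l hl), Function.update_of_ne (hcr l hl)] at h1
    rw [abs_sub_comm]
    exact of_floor_mul (by positivity : (0 : ℝ) < 2 ^ J) h1
  have f1 : ∀ ω ω', 0 < Pool.Agent.H49.Ent.cond F.p B True ω →
      0 < Pool.Agent.H49.Ent.cond F.p B True ω' →
      (oth (c r) J F (ptr F J ω), (Vdg F c r v ω,
        (⌊σ * (hL F W r D c gp SV SE SG A (slam F W ω)).eval (uw F W ω) / 2 ^ x⌋,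
        (cx F W r D c gp SV SE SG (slam F W ω), F.W ω)))) =
      (oth (c r) J F (ptr F J ω'), (Vdg F c r v ω',
        (⌊σ * (hL F W r D c gp SV SE SG A (slam F W ω')).eval (uw F W ω') / 2 ^ x⌋,
        (cx F W r D c gp SV SE SG (slam F W ω'), F.W ω')))) →
      |F.X n₁ ω (c r) - F.X n₁ ω' (c r)| ≤ ((r * ((D + 1) * K₁) + 2 : ℕ) : ℤ) := by
    intro ω ω' hω hω' e
    simp only [Prod.mk.injEq] at e
    obtain ⟨e1, -, e2, e3, -⟩ := e
    have h1 := key ω ω' (hBp ω hω) (hBp ω' hω') e1 e3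
    have h2 := of_floor_div (by linarith : (0 : ℝ) < 2 ^ x) e2
    have h3 : |(2 : ℝ) ^ n₁ * F.x ω (c r) - 2 ^ n₁ * F.x ω' (c r)| ≤
        ((r * ((D + 1) * K₁) + 1 : ℕ) : ℝ) := by
      rw [← mul_sub, abs_mul, abs_of_pos (by positivity : (0 : ℝ) < 2 ^ n₁)]
      have h4 : σ * |F.x ω (c r) - F.x ω' (c r)| ≤ 2 ^ x + r * ((D + 1) * K₁) := by
        have h5 : σ * |F.x ω (c r) - F.x ω' (c r)| = |σ * (F.x ω' (c r) - F.x ω (c r))| := by
          rw [abs_mul, abs_of_nonneg hσ0, abs_sub_comm]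
        rw [h5]
        rw [abs_le] at h1 h2 ⊢
        constructor <;> linarith [h1.1, h1.2, h2.1, h2.2]
      have h6 : (2 : ℝ) ^ n₁ * 2 ^ x ≤ σ := by
        rw [hσ, ← Real.rpow_natCast 2 n₁, ← Real.rpow_natCast 2 n₂, ← Real.rpow_add (by norm_num)]
        exact Real.rpow_le_rpow_of_exponent_le (by norm_num) hn
      have h7 : (0 : ℝ) ≤ r * ((D + 1) * K₁) := by positivity
      have h8 : (2 : ℝ) ^ x * (2 ^ n₁ * |F.x ω (c r) - F.x ω' (c r)|) ≤
          2 ^ x * (r * ((D + 1) * K₁) + 1) := by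
        have h9 : (2 : ℝ) ^ x * (2 ^ n₁ * |F.x ω (c r) - F.x ω' (c r)|) ≤
            σ * |F.x ω (c r) - F.x ω' (c r)| := by
          rw [← mul_assoc, mul_comm ((2 : ℝ) ^ x)]
          exact mul_le_mul_of_nonneg_right h6 (abs_nonneg _)
        have h10 : (r : ℝ) * ((D + 1) * K₁) ≤ 2 ^ x * (r * ((D + 1) * K₁)) :=
          le_mul_of_one_le_left h7 hx1
        linarith
      have h11 := le_of_mul_le_mul_left h8 (by linarith)
      push_cast
      exact h11
    have h4 := floor_sub_le h3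
    push_cast at h4 ⊢
    have e4 : F.X n₁ ω (c r) = ⌊(2 : ℝ) ^ n₁ * F.x ω (c r)⌋ := rfl
    have e5 : F.X n₁ ω' (c r) = ⌊(2 : ℝ) ^ n₁ * F.x ω' (c r)⌋ := rfl
    rw [e4, e5]
    linarith
  have f2 : ∀ ω ω', 0 < Pool.Agent.H49.Ent.cond F.p B True ω →
      0 < Pool.Agent.H49.Ent.cond F.p B True ω' →
      (F.X n₂ ω (c r), (F.X n₁ ω (c r), (oth (c r) J F (ptr F J ω), (Vdg F c r v ω,
        (⌊σ * (hL F W r D c gp SV SE SG A (slam F W ω)).eval (uw F W ω) / 2 ^ x⌋,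
        (cx F W r D c gp SV SE SG (slam F W ω), F.W ω)))))) =
      (F.X n₂ ω' (c r), (F.X n₁ ω' (c r), (oth (c r) J F (ptr F J ω'), (Vdg F c r v ω',
        (⌊σ * (hL F W r D c gp SV SE SG A (slam F W ω')).eval (uw F W ω') / 2 ^ x⌋,
        (cx F W r D c gp SV SE SG (slam F W ω'), F.W ω')))))) →
      |⌊σ * (hL F W r D c gp SV SE SG A (slam F W ω)).eval (uw F W ω)⌋ -
        ⌊σ * (hL F W r D c gp SV SE SG A (slam F W ω')).eval (uw F W ω')⌋| ≤
        ((r * ((D + 1) * K₁) + 2 : ℕ) : ℤ) := by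
    intro ω ω' hω hω' e
    simp only [Prod.mk.injEq] at e
    obtain ⟨e0, -, e1, -, -, e3, -⟩ := e
    have h1 := key ω ω' (hBp ω hω) (hBp ω' hω') e1 e3
    have h2 : |F.x ω (c r) - F.x ω' (c r)| ≤ 1 / 2 ^ n₂ :=
      of_floor_mul (by positivity : (0 : ℝ) < 2 ^ n₂) e0
    have h3 : |σ * (hL F W r D c gp SV SE SG A (slam F W ω)).eval (uw F W ω) -
        σ * (hL F W r D c gp SV SE SG A (slam F W ω')).eval (uw F W ω')| ≤
        ((r * ((D + 1) * K₁) + 1 : ℕ) : ℝ) := by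
      have h5 : |σ * (F.x ω' (c r) - F.x ω (c r))| ≤ 1 := by
        rw [abs_mul, abs_of_nonneg hσ0, abs_sub_comm]
        calc σ * |F.x ω (c r) - F.x ω' (c r)| ≤ σ * (1 / 2 ^ n₂) :=
              mul_le_mul_of_nonneg_left h2 hσ0
          _ = 1 := by
            rw [hσ]
            field_simp
      push_cast
      rw [abs_le] at h1 h5 ⊢
      constructor <;> linarith [h1.1, h1.2, h5.1, h5.2]
    have h4 := floor_sub_le h3
    push_cast at h4 ⊢
    linarith
  have g1 := CH_pair hp _ _ f1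
  have g2 := CH_pair hp _ _ f2
  have hVd : CH (Pool.Agent.H49.Ent.cond F.p B True) (Vdg F c r v)
      (fun ω => (⌊σ * (hL F W r D c gp SV SE SG A (slam F W ω)).eval (uw F W ω) / 2 ^ x⌋,
        (cx F W r D c gp SV SE SG (slam F W ω), F.W ω))) ≤
      ∑ l ∈ range r, ((J - v l : ℕ) : ℝ) * Real.log 2 := (CH_le_Hu hp _ _).trans (H_Vdg F c r v hp)
  have s1 := nf_swap h0
    (fun ω => ⌊σ * (hL F W r D c gp SV SE SG A (slam F W ω)).eval (uw F W ω)⌋) (Vdg F c r v)
    (fun ω => (⌊σ * (hL F W r D c gp SV SE SG A (slam F W ω)).eval (uw F W ω) / 2 ^ x⌋,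
        (cx F W r D c gp SV SE SG (slam F W ω), F.W ω))) G hVd
  have s2 := CH_step h0
    (fun ω => ⌊σ * (hL F W r D c gp SV SE SG A (slam F W ω)).eval (uw F W ω)⌋)
    (fun ω => oth (c r) J F (ptr F J ω))
    (fun ω => (Vdg F c r v ω,
      (⌊σ * (hL F W r D c gp SV SE SG A (slam F W ω)).eval (uw F W ω) / 2 ^ x⌋,
        (cx F W r D c gp SV SE SG (slam F W ω), F.W ω))))
  have s3 := CH_step h0
    (fun ω => ⌊σ * (hL F W r D c gp SV SE SG A (slam F W ω)).eval (uw F W ω)⌋)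
    (fun ω => F.X n₁ ω (c r))
    (fun ω => (oth (c r) J F (ptr F J ω), (Vdg F c r v ω,
      (⌊σ * (hL F W r D c gp SV SE SG A (slam F W ω)).eval (uw F W ω) / 2 ^ x⌋,
        (cx F W r D c gp SV SE SG (slam F W ω), F.W ω)))))
  have s4 := CH_step h0
    (fun ω => ⌊σ * (hL F W r D c gp SV SE SG A (slam F W ω)).eval (uw F W ω)⌋)
    (fun ω => F.X n₂ ω (c r))
    (fun ω => (F.X n₁ ω (c r), (oth (c r) J F (ptr F J ω), (Vdg F c r v ω,
      (⌊σ * (hL F W r D c gp SV SE SG A (slam F W ω)).eval (uw F W ω) / 2 ^ x⌋,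
        (cx F W r D c gp SV SE SG (slam F W ω), F.W ω))))))
  have s5 : CH (Pool.Agent.H49.Ent.cond F.p B True) (fun ω => F.X n₂ ω (c r))
      (fun ω => (F.X n₁ ω (c r), (oth (c r) J F (ptr F J ω), (Vdg F c r v ω,
      (⌊σ * (hL F W r D c gp SV SE SG A (slam F W ω)).eval (uw F W ω) / 2 ^ x⌋,
        (cx F W r D c gp SV SE SG (slam F W ω), F.W ω)))))) ≤
      CH (Pool.Agent.H49.Ent.cond F.p B True) (fun ω => F.X n₂ ω (c r))
      (fun ω => (F.X n₁ ω (c r), oth (c r) J F (ptr F J ω))) :=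
    CH_mono_cond h0 fun ω ω' _ _ e => by
      simp only [Prod.mk.injEq] at e
      exact Prod.ext e.1 e.2.1
  have s6 := CH_oth (F := F) (gp := gp) (D := D) (SG := SG) hW hv hSV HG.SVE hc hp
    (fun ω => (Vdg F c r v ω,
      (⌊σ * (hL F W r D c gp SV SE SG A (slam F W ω)).eval (uw F W ω) / 2 ^ x⌋,
        (cx F W r D c gp SV SE SG (slam F W ω), F.W ω)))) fun ω ω' _ _ e => by
      simp only [Prod.mk.injEq] at e
      exact ⟨e.2.2.2, e.2.2.1, e.1⟩
  linarith

end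

end Pool.D2H
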