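import Pool.Agent.H28.D2.FrH
import Pool.Agent.H28.D2.Row

/-!
# The rows of the own height over the reference line, in a frame

`FrD`: the own paths of the context are the coordinates `c l` in a frame. `rows_one`: the entropy of
the own height over the reference line, given the context and the time, from the rows of the target
given all the digits of the other coordinates and from the fullness of the digits `Vdg` given a
record.
-/

set_option autoImplicit false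

namespace Pool.D2F2

open Finset Real MvPolynomial
open Pool.Agent.H49.Ent Pool.Agent.H32.Dense Pool.STK Pool.KA Pool.KSAT Pool.K2S Pool.PB Pool.GEN
open Pool.S6C Pool.LA91
open Pool.OWN68 (opl tw uw CH_pair CH_pis natDegree_opl opl_jet uw_abs tw_abs floor_sub_le
  of_floor_div nf_swap CH_le_Hu)
open Pool.GEN.N83 (oth)
open Pool.D2H (of_floor_mul eval_small uw_eq CH_step Vdg H_Vdg)

variable {m J : ℕ}

/-- An integer with a given residue. -/
theorem CH_mod {Ω T : Type} [Fintype Ω] {p : Ω → ℝ} (hp : IsLaw p) (X : Ω → ℤ) (Z : Ω → T)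
    {n : ℤ} {B : ℕ} (h : ∀ ω ω', 0 < p ω → 0 < p ω' → Z ω = Z ω' → X ω % n = X ω' % n ∧
      |X ω / n - X ω' / n| ≤ (B : ℤ)) : CH p X Z ≤ Real.log (2 * B + 1) := by
  refine le_trans ?_ (CH_pair hp (fun ω => X ω / n) Z fun ω ω' a b e => (h ω ω' a b e).2)
  refine CH_mono_left hp.nonneg fun ω ω' a b e => ?_
  obtain ⟨e1, e2⟩ := Prod.ext_iff.1 e
  dsimp only at e1 e2
  have h1 := (h ω ω' a b e2).1
  rw [← Int.emod_add_mul_ediv (X ω) n, ← Int.emod_add_mul_ediv (X ω') n, h1, e1]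

/-- **The own paths are coordinates in a frame.** -/
structure FrD {F : Fam m J} {κ : Type} {r D : ℕ} (d : Dat F κ r D) (A : F.Ω → Prop) (W : ℕ)
    (c : ℕ → Fin m) (E₀ : ℕ) : Prop where
  frm : ∀ ω ω', A ω → A ω' → F.T ω = F.T ω' → d.fc (slam F W ω) = d.fc (slam F W ω') →
    ∀ l ≤ r, ∃ φ : ℕ → ℝ, (∀ j < l, |φ j| ≤ E₀) ∧
      d.v W l ω' - d.v W l ω = (F.x ω' (c l) - F.x ω (c l)) -
        ∑ j ∈ range l, φ j * (F.x ω' (c j) - F.x ω (c j))

theorem FrD.sub {F : Fam m J} {κ : Type} {r D : ℕ} {d : Dat F κ r D} {A B : F.Ω → Prop} {W : ℕ}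
    {c : ℕ → Fin m} {E₀ : ℕ} (H : FrD d A W c E₀) (hB : Sub B A) : FrD d B W c E₀ :=
  ⟨fun ω ω' h h' => H.frm ω ω' (hB ω h) (hB ω' h')⟩

/-- Smaller events. -/
theorem HopP.mono {F : Fam m J} {κ : Type} {r D : ℕ} {d : Dat F κ r D} {A B : F.Ω → Prop} {W : ℕ}
    {σ : ℝ} {K : ℕ} {γ : Type} {Y : F.Ω → γ} (H : HopP d A W σ K Y) (hB : Sub B A) :
    HopP d B W σ K Y where
  hW := H.hW
  SV0 := H.SV0
  SG0 := H.SG0
  SVE := H.SVE
  σ0 := H.σ0
  σG := H.σG
  TZ := fun ω ω' h h' => H.TZ ω ω' (hB ω h) (hB ω' h')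
  pos := fun ω ω' h h' => H.pos ω ω' (hB ω h) (hB ω' h')
  vel := fun ω ω' h h' => H.vel ω ω' (hB ω h) (hB ω' h')
  grd := fun ω ω' h h' => H.grd ω ω' (hB ω h) (hB ω' h')
  hei := fun ω ω' h h' => H.hei ω ω' (hB ω h) (hB ω' h')

section

variable {F : Fam m J} {κ : Type} {r D : ℕ} {d : Dat F κ r D} {A : F.Ω → Prop} {W : ℕ}
  {c : ℕ → Fin m} {E₀ : ℕ} {σ : ℝ} {K : ℕ} {γ : Type} {Y : F.Ω → γ}

/-- The own height over the reference line of a sample. -/
theorem Dat.hL_ref (d : Dat F κ r D) {ω : F.Ω} (hω : A ω) : ∃ ω₀, A ω₀ ∧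
    d.cx (slam F W ω₀) = d.cx (slam F W ω) ∧
    ∀ s, d.cx s = d.cx (slam F W ω) → d.hL W A s = d.hR W ω₀ s := by
  obtain ⟨ω₀, g1, g2, g3⟩ := d.rfo_spec (W := W) (A := A) hω
  refine ⟨ω₀, g2, g3, fun s hs => ?_⟩
  unfold Dat.hL
  rw [hs, g1]
  rfl

/-- A small sum. -/
theorem sum_small {n : ℕ} {f g : ℕ → ℝ} {a b : ℝ} (hf : ∀ j < n, |f j| ≤ a)
    (hg : ∀ j < n, |g j| ≤ b) (ha : 0 ≤ a) : |∑ j ∈ range n, f j * g j| ≤ n * (a * b) := by
  refine (Finset.abs_sum_le_sum_abs _ _).trans ?_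
  refine (Finset.sum_le_sum (g := fun _ => a * b) fun j hj => ?_).trans (le_of_eq ?_)
  · have hj' := Finset.mem_range.1 hj
    rw [abs_mul]
    exact mul_le_mul (hf j hj') (hg j hj') (abs_nonneg _) ha
  · rw [Finset.sum_const, Finset.card_range, nsmul_eq_mul]

/-- Two samples with the same context and time: the change of the own height is the change of the
target, up to the change of the other coordinates. -/
theorem hL_dif (hF : FrD d A W c E₀) (hσ : 0 ≤ σ) (hσJ : σ ≤ 2 ^ J) {K₁ : ℕ}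
    (hlip : ∀ ω, A ω → ∀ l < r, ∀ j ≤ D, σ * |(d.gp l (slam F W ω)).coeff j| ≤ K₁ * 2 ^ J)
    {ω ω' : F.Ω} (hω : A ω) (hω' : A ω') (hT : F.T ω = F.T ω')
    (e : d.cx (slam F W ω) = d.cx (slam F W ω'))
    (hx : ∀ l < r, |F.x ω' (c l) - F.x ω (c l)| ≤ 1 / 2 ^ J) :
    |σ * (d.hL W A (slam F W ω')).eval (uw F W ω') - σ * (d.hL W A (slam F W ω)).eval (uw F W ω) -
      σ * (F.x ω' (c r) - F.x ω (c r))| ≤
      ((r * E₀ + r * ((D + 1) * K₁ * (1 + r * E₀)) : ℕ) : ℝ) := by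
  obtain ⟨ω₀, g1, g2, g3⟩ := d.hL_ref (W := W) (A := A) hω
  have hfc : d.fc (slam F W ω) = d.fc (slam F W ω') := by
    unfold Dat.cx at e
    exact (Prod.ext_iff.1 (Prod.ext_iff.1 e).1).2
  rw [g3 _ rfl, g3 _ e.symm, ← uw_eq hT]
  have h1 := d.hR_eval (W := W) ω₀ hT
  have hJ0 : (0 : ℝ) < 2 ^ J := by positivity
  have hE0 : (0 : ℝ) ≤ E₀ := Nat.cast_nonneg _
  have hK1 : (0 : ℝ) ≤ K₁ := Nat.cast_nonneg _
  have hr0 : (0 : ℝ) ≤ r := Nat.cast_nonneg _
  have hD0 : (0 : ℝ) ≤ D := Nat.cast_nonneg _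
  -- the positions in the frame
  have h2 : ∀ l < r, |d.v W l ω' - d.v W l ω| ≤ (1 + r * E₀) * (1 / 2 ^ J) := by
    intro l hl
    obtain ⟨φ, p1, p2⟩ := hF.frm ω ω' hω hω' hT hfc l hl.le
    rw [p2]
    refine (abs_sub _ _).trans ?_
    have p3 := sum_small (n := l) (f := φ) (g := fun j => F.x ω' (c j) - F.x ω (c j)) p1
      (fun j hj => hx j (hj.trans hl)) hE0
    have p4 := hx l hl
    have p5 : (l : ℝ) * (E₀ * (1 / 2 ^ J)) ≤ r * (E₀ * (1 / 2 ^ J)) :=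
      mul_le_mul_of_nonneg_right (by exact_mod_cast hl.le) (by positivity)
    have p6 : (1 + (r : ℝ) * E₀) * (1 / 2 ^ J) = 1 / 2 ^ J + r * (E₀ * (1 / 2 ^ J)) := by ring
    rw [p6]
    linarith
  obtain ⟨φ, p1, p2⟩ := hF.frm ω ω' hω hω' hT hfc r le_rfl
  have p3 := sum_small (n := r) (f := φ) (g := fun j => F.x ω' (c j) - F.x ω (c j)) p1 hx hE0
  have e2 : σ * (d.hR W ω₀ (slam F W ω')).eval (uw F W ω) -
      σ * (d.hR W ω₀ (slam F W ω)).eval (uw F W ω) - σ * (F.x ω' (c r) - F.x ω (c r)) =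
      -(σ * ∑ j ∈ range r, φ j * (F.x ω' (c j) - F.x ω (c j))) -
      σ * ∑ l ∈ range r, (d.gp l (slam F W ω₀)).eval (uw F W ω) * (d.v W l ω' - d.v W l ω) := by
    have h3 : σ * ((d.hR W ω₀ (slam F W ω')).eval (uw F W ω) -
      (d.hR W ω₀ (slam F W ω)).eval (uw F W ω)) = _ := congrArg (fun x => σ * x) h1
    rw [p2] at h3
    linarith
  rw [e2]
  refine (abs_sub _ _).trans ?_
  rw [abs_neg, abs_mul, abs_mul, abs_of_nonneg hσ]
  have q1 : σ * |∑ j ∈ range r, φ j * (F.x ω' (c j) - F.x ω (c j))| ≤ r * E₀ := by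
    refine (mul_le_mul hσJ p3 (abs_nonneg _) hJ0.le).trans (le_of_eq ?_)
    field_simp
  have q2 : σ * |∑ l ∈ range r, (d.gp l (slam F W ω₀)).eval (uw F W ω) *
      (d.v W l ω' - d.v W l ω)| ≤ r * ((D + 1) * K₁ * (1 + r * E₀)) := by
    have q3 : ∀ l < r, |σ * (d.gp l (slam F W ω₀)).eval (uw F W ω)| ≤ (D + 1) * (K₁ * 2 ^ J) := by
      intro l hl
      have h5 : (Polynomial.C σ * d.gp l (slam F W ω₀)).natDegree ≤ D :=
        (Polynomial.natDegree_C_mul_le _ _).trans (d.gD l _)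
      have h6 := eval_small h5 (uw_abs F W ω) (B := K₁ * 2 ^ J) fun j hj => by
        rw [Polynomial.coeff_C_mul, abs_mul, abs_of_nonneg hσ]
        exact hlip ω₀ g1 l hl j hj
      rwa [Polynomial.eval_mul, Polynomial.eval_C] at h6
    have q4 := sum_small (n := r) (f := fun l => σ * (d.gp l (slam F W ω₀)).eval (uw F W ω))
      (g := fun l => d.v W l ω' - d.v W l ω) q3 h2 (by positivity)
    have q5 : ∑ l ∈ range r, (σ * (d.gp l (slam F W ω₀)).eval (uw F W ω)) *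
        (d.v W l ω' - d.v W l ω) = σ * ∑ l ∈ range r, (d.gp l (slam F W ω₀)).eval (uw F W ω) *
        (d.v W l ω' - d.v W l ω) := by
      rw [Finset.mul_sum]
      exact Finset.sum_congr rfl fun l _ => mul_assoc _ _ _
    rw [q5, abs_mul, abs_of_nonneg hσ] at q4
    refine q4.trans (le_of_eq ?_)
    field_simp
  push_cast
  linarith

/-- The digits and the context determine the exact position of the other coordinates up to few
values. -/
theorem CH_oth (hF : FrD d A W c E₀) {v : ℕ → ℕ} (hv : ∀ l < r, v l ≤ J)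
    (hSV : ∀ l < r, d.SV l = 2 ^ v l) (hSVE : ∀ l < r, d.SV l ≤ d.SE l)
    (hc : ∀ j, j ≠ c r → ∃ l < r, c l = j) {p : F.Ω → ℝ} (hp : IsLaw p)
    (hpA : ∀ ω, 0 < p ω → A ω) {γ : Type}
    (Z : F.Ω → γ) (hZ : ∀ ω ω', 0 < p ω → 0 < p ω' → Z ω = Z ω' → F.W ω = F.W ω' ∧
      d.cx (slam F W ω) = d.cx (slam F W ω') ∧ Vdg F c r v ω = Vdg F c r v ω') :
    CH p (fun ω => oth (c r) J F (ptr F J ω)) Z ≤
      r * Real.log (2 * (3 + r * E₀ : ℕ) + 1) := by
  have h0 := hp.nonneg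
  have hE0 : (0 : ℝ) ≤ E₀ := Nat.cast_nonneg _
  have hJ0 : (0 : ℝ) < 2 ^ J := by positivity
  have hcast : (((3 + r * E₀ : ℕ)) : ℝ) = 3 + r * E₀ := by push_cast; ring
  -- one step
  have step : ∀ l < r, CH p (fun ω => F.X J ω (c l))
      (fun ω => ((fun j : Fin l => F.X J ω (c j)), Z ω)) ≤
      Real.log (2 * (3 + r * E₀ : ℕ) + 1) := by
    intro l hl
    refine CH_mod (n := 2 ^ (J - v l)) hp _ _ fun ω ω' hω hω' e => ?_
    obtain ⟨e0, ez⟩ := Prod.ext_iff.1 e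
    dsimp only at e0 ez
    obtain ⟨eW, e2, e3⟩ := hZ ω ω' hω hω' ez
    have hT : F.T ω = F.T ω' := (Prod.ext_iff.1 eW).1
    have e4 : F.X J ω (c l) % 2 ^ (J - v l) = F.X J ω' (c l) % 2 ^ (J - v l) :=
      congrFun e3 ⟨l, hl⟩
    refine ⟨e4, ?_⟩
    have hfc : d.fc (slam F W ω') = d.fc (slam F W ω) := by
      have := e2.symm
      unfold Dat.cx at this
      exact (Prod.ext_iff.1 (Prod.ext_iff.1 this).1).2
    have hS0 : 0 < d.SV l := by
      rw [hSV l hl]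
      positivity
    have hE0' : 0 < d.SE l := lt_of_lt_of_le hS0 (hSVE l hl)
    unfold Dat.cx at e2
    simp only [Prod.mk.injEq] at e2
    obtain ⟨-, f1, f2, -⟩ := e2
    have f3 := of_floor_mul hS0 (congrFun f1 ⟨l, hl⟩)
    have f4 := of_floor_mul hE0' (congrFun f2 ⟨l, hl⟩)
    dsimp only at f3 f4
    have f5 : |d.v W l ω - d.v W l ω'| ≤ 2 * (1 / d.SV l) := by
      have b1 := d.zero (W := W) l ω
      have b2 := d.zero (W := W) l ω'
      rw [← uw_eq hT] at b2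
      have b3 : d.v W l ω - d.v W l ω' =
          ((d.P l (slam F W ω)).coeff 0 - (d.P l (slam F W ω')).coeff 0) +
          ((d.P l (slam F W ω)).coeff 1 - (d.P l (slam F W ω')).coeff 1) * uw F W ω := by
        rw [b1, b2]
        unfold Dat.e
        ring
      rw [b3]
      refine (abs_add_le _ _).trans ?_
      rw [abs_mul]
      have b4 : |(d.P l (slam F W ω)).coeff 1 - (d.P l (slam F W ω')).coeff 1| * |uw F W ω| ≤
          1 / d.SV l := by
        calc _ ≤ (1 / d.SE l) * 1 := mul_le_mul f4 (uw_abs F W ω) (abs_nonneg _) (by positivity)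
          _ = 1 / d.SE l := mul_one _
          _ ≤ 1 / d.SV l := one_div_le_one_div_of_le hS0 (hSVE l hl)
      linarith
    -- the coordinate
    have f6 : |F.x ω (c l) - F.x ω' (c l)| ≤ 2 * (1 / d.SV l) + l * (E₀ * (1 / 2 ^ J)) := by
      obtain ⟨φ, p1, p2⟩ := hF.frm ω' ω (hpA ω' hω') (hpA ω hω) hT.symm hfc l hl.le
      have p3 := sum_small (n := l) (f := φ) (g := fun j => F.x ω (c j) - F.x ω' (c j)) p1
        (fun j hj => of_floor_mul hJ0 (congrFun e0 ⟨j, hj⟩)) hE0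
      have p4 : F.x ω (c l) - F.x ω' (c l) = (d.v W l ω - d.v W l ω') +
          ∑ j ∈ range l, φ j * (F.x ω (c j) - F.x ω' (c j)) := by linarith
      rw [p4]
      exact (abs_add_le _ _).trans (add_le_add f5 p3)
    have h2p : (1 : ℝ) ≤ 2 ^ (J - v l) := one_le_pow₀ (by norm_num)
    have f7 : |((F.X J ω (c l) - F.X J ω' (c l) : ℤ) : ℝ)| ≤ 2 ^ (J - v l) * (3 + r * E₀) := by
      have c1 := Int.floor_le ((2 : ℝ) ^ J * F.x ω (c l))
      have c2 := Int.lt_floor_add_one ((2 : ℝ) ^ J * F.x ω (c l))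
      have c3 := Int.floor_le ((2 : ℝ) ^ J * F.x ω' (c l))
      have c4 := Int.lt_floor_add_one ((2 : ℝ) ^ J * F.x ω' (c l))
      have c5 : F.X J ω (c l) = ⌊(2 : ℝ) ^ J * F.x ω (c l)⌋ := rfl
      have c6 : F.X J ω' (c l) = ⌊(2 : ℝ) ^ J * F.x ω' (c l)⌋ := rfl
      have c7 : |(2 : ℝ) ^ J * F.x ω (c l) - 2 ^ J * F.x ω' (c l)| ≤
          2 ^ (J - v l) * 2 + l * E₀ := by
        rw [← mul_sub, abs_mul, abs_of_pos hJ0]
        refine (mul_le_mul_of_nonneg_left f6 hJ0.le).trans (le_of_eq ?_)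
        rw [hSV l hl]
        have h8 : (2 : ℝ) ^ J = 2 ^ (J - v l) * 2 ^ v l := by
          rw [← pow_add]
          congr 1
          have := hv l hl
          omega
        have h9 : (2 : ℝ) ^ J * (l * (E₀ * (1 / 2 ^ J))) = l * E₀ := by
          field_simp
        rw [mul_add, h9, h8]
        congr 1
        field_simp
      have c8 : (l : ℝ) * E₀ + 1 ≤ 2 ^ (J - v l) * (r * E₀ + 1) := by
        have h10 : (l : ℝ) * E₀ ≤ r * E₀ :=
          mul_le_mul_of_nonneg_right (by exact_mod_cast hl.le) hE0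
        have h11 : (r : ℝ) * E₀ + 1 ≤ 2 ^ (J - v l) * (r * E₀ + 1) :=
          le_mul_of_one_le_left (by positivity) h2p
        linarith
      rw [c5, c6]
      push_cast
      rw [abs_le] at c7 ⊢
      constructor <;> nlinarith [c7.1, c7.2]
    -- the quotient
    have f8 : F.X J ω (c l) - F.X J ω' (c l) =
        2 ^ (J - v l) * (F.X J ω (c l) / 2 ^ (J - v l) - F.X J ω' (c l) / 2 ^ (J - v l)) := by
      have a1 := Int.emod_add_mul_ediv (F.X J ω (c l)) (2 ^ (J - v l))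
      have a2 := Int.emod_add_mul_ediv (F.X J ω' (c l)) (2 ^ (J - v l))
      linarith
    rw [f8] at f7
    push_cast at f7
    rw [abs_mul, abs_of_pos (by positivity : (0 : ℝ) < 2 ^ (J - v l))] at f7
    have f9 := le_of_mul_le_mul_left f7 (by positivity)
    rw [← hcast] at f9
    exact_mod_cast f9
  -- all coordinates
  have key : ∀ n ≤ r, CH p (fun ω (l : Fin n) => F.X J ω (c l)) Z ≤
      n * Real.log (2 * (3 + r * E₀ : ℕ) + 1) := by
    intro n
    induction n with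
    | zero =>
      intro _
      rw [CH_eq_zero h0 (fun ω ω' _ _ _ => _root_.funext fun l => l.elim0)]
      simp
    | succ n ih =>
      intro hn
      have h1 := ih (by omega)
      have h2 := step n (by omega)
      have h3 := CH_chain h0 (fun ω => F.X J ω (c n)) (fun ω (l : Fin n) => F.X J ω (c l)) Z
      have h4 : CH p (fun ω (l : Fin (n + 1)) => F.X J ω (c l)) Z ≤
          CH p (fun ω => (F.X J ω (c n), fun l : Fin n => F.X J ω (c l))) Z := by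
        refine CH_mono_left h0 fun ω ω' _ _ e => _root_.funext fun l => ?_
        simp only [Prod.mk.injEq] at e
        rcases Nat.lt_succ_iff_lt_or_eq.1 l.2 with h5 | h5
        · exact congrFun e.1.2 ⟨l, h5⟩
        · rw [h5]
          exact e.1.1
      have h5 : ((n + 1 : ℕ) : ℝ) * Real.log (2 * (3 + r * E₀ : ℕ) + 1) =
          n * Real.log (2 * (3 + r * E₀ : ℕ) + 1) + Real.log (2 * (3 + r * E₀ : ℕ) + 1) := by
        rw [Nat.cast_succ, add_mul, one_mul]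
      rw [h5]
      linarith
  refine le_trans ?_ (key r le_rfl)
  refine CH_mono_left h0 fun ω ω' hω hω' e => ?_
  obtain ⟨e1, e2⟩ := Prod.ext_iff.1 e
  obtain ⟨g1, -, -⟩ := hZ ω ω' hω hω' e2
  unfold oth ptr
  refine Prod.ext (_root_.funext fun j => ?_) g1
  change Function.update (F.X J ω) (c r) 0 j = Function.update (F.X J ω') (c r) 0 j
  by_cases hj : j = c r
  · rw [hj, Function.update_self, Function.update_self]
  · rw [Function.update_of_ne hj, Function.update_of_ne hj]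
    obtain ⟨l, hl, rfl⟩ := hc j hj
    exact congrFun e1 ⟨l, hl⟩

/-- The height and its coarse digits are few bits given the record. -/
theorem HopP.few {B : F.Ω → Prop} (hBA : Sub B A) (hB : 0 < Pe F.p B) {x : ℝ} (hx : 0 ≤ x)
    {γ' : Type} {G : F.Ω → γ'} (HG : HopP d B W σ K G) :
    CH (Pool.Agent.H49.Ent.cond F.p B True)
      (fun ω => (⌊σ * (d.hL W A (slam F W ω)).eval (uw F W ω)⌋,
        (⌊σ * (d.hL W A (slam F W ω)).eval (uw F W ω) / 2 ^ x⌋,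
          (d.cx (slam F W ω), F.W ω)))) G ≤
      (r * (D + 3)) * Real.log (2 * ((2 * K : ℕ) + 1) + 1) +
        2 * Real.log (2 * (K * (1 + r * (D + 1) ^ 2) + 1 : ℕ) + 1) := by
  have hp := isLaw_cond F.isLaw hB
  have h0 := hp.nonneg
  have hBp : ∀ ω, 0 < Pool.Agent.H49.Ent.cond F.p B True ω → B ω := fun ω hω => of_cond_pos hω
  have hctx := HG.ctx hB
  have hσ := HG.σ0
  -- the pairs
  have key : ∀ ω ω', B ω → B ω' → G ω = G ω' → d.cx (slam F W ω) = d.cx (slam F W ω') →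
      |σ * (d.hL W A (slam F W ω)).eval (uw F W ω) -
        σ * (d.hL W A (slam F W ω')).eval (uw F W ω')| ≤
        ((K * (1 + r * (D + 1) ^ 2) : ℕ) : ℝ) := by
    intro ω ω' hω hω' hG e
    obtain ⟨ω₀, g1, g2, g3⟩ := d.hL_ref (W := W) (A := A) (hBA ω hω)
    have hT := (HG.TZ ω ω' hω hω' hG).1
    have h1 := HG.pair hω hω' hG g2
    rw [g3 _ rfl, g3 _ e.symm, ← uw_eq hT, ← mul_sub, abs_mul, abs_of_nonneg hσ, abs_sub_comm]
    refine h1.trans (le_of_eq ?_)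
    push_cast
    ring
  have hx1 : (1 : ℝ) ≤ 2 ^ x := Real.one_le_rpow (by norm_num) hx
  have f1 : ∀ ω ω', 0 < Pool.Agent.H49.Ent.cond F.p B True ω →
      0 < Pool.Agent.H49.Ent.cond F.p B True ω' →
      (d.cx (slam F W ω), G ω) = (d.cx (slam F W ω'), G ω') →
      |⌊σ * (d.hL W A (slam F W ω)).eval (uw F W ω)⌋ -
        ⌊σ * (d.hL W A (slam F W ω')).eval (uw F W ω')⌋| ≤
        ((K * (1 + r * (D + 1) ^ 2) + 1 : ℕ) : ℤ) := by
    intro ω ω' hω hω' e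
    have h1 := key ω ω' (hBp ω hω) (hBp ω' hω') (Prod.ext_iff.1 e).2 (Prod.ext_iff.1 e).1
    have h2 := floor_sub_le h1
    push_cast at h2 ⊢
    exact h2
  have f2 : ∀ ω ω', 0 < Pool.Agent.H49.Ent.cond F.p B True ω →
      0 < Pool.Agent.H49.Ent.cond F.p B True ω' →
      (d.cx (slam F W ω), G ω) = (d.cx (slam F W ω'), G ω') →
      |⌊σ * (d.hL W A (slam F W ω)).eval (uw F W ω) / 2 ^ x⌋ -
        ⌊σ * (d.hL W A (slam F W ω')).eval (uw F W ω') / 2 ^ x⌋| ≤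
        ((K * (1 + r * (D + 1) ^ 2) + 1 : ℕ) : ℤ) := by
    intro ω ω' hω hω' e
    have h1 := key ω ω' (hBp ω hω) (hBp ω' hω') (Prod.ext_iff.1 e).2 (Prod.ext_iff.1 e).1
    have h3 : |σ * (d.hL W A (slam F W ω)).eval (uw F W ω) / 2 ^ x -
        σ * (d.hL W A (slam F W ω')).eval (uw F W ω') / 2 ^ x| ≤
        ((K * (1 + r * (D + 1) ^ 2) : ℕ) : ℝ) := by
      rw [← sub_div, abs_div, abs_of_pos (by linarith : (0 : ℝ) < 2 ^ x)]
      exact (div_le_self (abs_nonneg _) hx1).trans h1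
    have h2 := floor_sub_le h3
    push_cast at h2 ⊢
    exact h2
  have g1 := CH_pair hp _ _ f1
  have g2 := CH_pair hp _ _ f2
  have s1 := CH_step h0 (fun ω => (⌊σ * (d.hL W A (slam F W ω)).eval
      (uw F W ω)⌋, (⌊σ * (d.hL W A (slam F W ω)).eval (uw F W ω) / 2 ^ x⌋,
          (d.cx (slam F W ω), F.W ω)))) (fun ω => d.cx (slam F W ω)) G
  have s2 := CH_chain h0 (fun ω => ⌊σ * (d.hL W A (slam F W ω)).eval
      (uw F W ω)⌋) (fun ω => (⌊σ * (d.hL W A (slam F W ω)).eval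
      (uw F W ω) / 2 ^ x⌋, (d.cx (slam F W ω), F.W ω)))
    (fun ω => (d.cx (slam F W ω), G ω))
  have s3 : CH (Pool.Agent.H49.Ent.cond F.p B True)
      (fun ω => ⌊σ * (d.hL W A (slam F W ω)).eval (uw F W ω)⌋)
      (fun ω => ((⌊σ * (d.hL W A (slam F W ω)).eval
      (uw F W ω) / 2 ^ x⌋, (d.cx (slam F W ω), F.W ω)), (d.cx (slam F W ω), G ω))) ≤
      CH (Pool.Agent.H49.Ent.cond F.p B True)
      (fun ω => ⌊σ * (d.hL W A (slam F W ω)).eval (uw F W ω)⌋)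
      (fun ω => (d.cx (slam F W ω), G ω)) :=
    CH_mono_cond h0 fun ω ω' _ _ e => (Prod.ext_iff.1 e).2
  have s4 : CH (Pool.Agent.H49.Ent.cond F.p B True)
      (fun ω => (⌊σ * (d.hL W A (slam F W ω)).eval
      (uw F W ω) / 2 ^ x⌋, (d.cx (slam F W ω), F.W ω)))
      (fun ω => (d.cx (slam F W ω), G ω)) ≤
      CH (Pool.Agent.H49.Ent.cond F.p B True)
      (fun ω => ⌊σ * (d.hL W A (slam F W ω)).eval (uw F W ω) / 2 ^ x⌋)
      (fun ω => (d.cx (slam F W ω), G ω)) := by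
    refine CH_mono_left h0 fun ω ω' hω hω' e => ?_
    obtain ⟨e1, e2⟩ := Prod.ext_iff.1 e
    obtain ⟨e3, e4⟩ := Prod.ext_iff.1 e2
    obtain ⟨e5, e6, -⟩ := HG.TZ ω ω' (hBp ω hω) (hBp ω' hω') e4
    exact Prod.ext e1 (Prod.ext e3 (Prod.ext e5 e6))
  linarith

/-- **The rows of the own height** from the rows of the target and from the fullness of the digits
of the other coordinates given a record. -/
theorem rows_one {B : F.Ω → Prop} (hF : FrD d A W c E₀) (hBA : Sub B A) (hB : 0 < Pe F.p B)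
    {v : ℕ → ℕ} (hv : ∀ l < r, v l ≤ J) (hSV : ∀ l < r, d.SV l = 2 ^ v l)
    (hcr : ∀ l < r, c l ≠ c r) (hc : ∀ j, j ≠ c r → ∃ l < r, c l = j) {K₁ : ℕ}
    (hlip : ∀ ω, A ω → ∀ l < r, ∀ j ≤ D, σ * |(d.gp l (slam F W ω)).coeff j| ≤ K₁ * 2 ^ J)
    {n₁ n₂ : ℕ} (hσ : σ = 2 ^ n₂) (hn2 : n₂ ≤ J) {x : ℝ} (hx : 0 ≤ x) (hn : (n₁ : ℝ) + x ≤ n₂)
    {γ' : Type} {G : F.Ω → γ'} (HG : HopP d B W σ K G) :
    CH (Pool.Agent.H49.Ent.cond F.p B True)
      (fun ω => ⌊σ * (d.hL W A (slam F W ω)).eval (uw F W ω)⌋)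
      (fun ω => (⌊σ * (d.hL W A (slam F W ω)).eval (uw F W ω) / 2 ^ x⌋,
        (d.cx (slam F W ω), F.W ω))) ≤
    CH (Pool.Agent.H49.Ent.cond F.p B True) (fun ω => F.X n₂ ω (c r))
      (fun ω => (F.X n₁ ω (c r), oth (c r) J F (ptr F J ω))) +
    (∑ l ∈ range r, ((J - v l : ℕ) : ℝ) * Real.log 2 -
      CH (Pool.Agent.H49.Ent.cond F.p B True) (Vdg F c r v) G) +
    (r * Real.log (2 * (3 + r * E₀ : ℕ) + 1) +
      2 * Real.log (2 * (r * E₀ + r * ((D + 1) * K₁ * (1 + r * E₀)) + 2 : ℕ) + 1) +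
      ((r * (D + 3)) * Real.log (2 * ((2 * K : ℕ) + 1) + 1) +
        2 * Real.log (2 * (K * (1 + r * (D + 1) ^ 2) + 1 : ℕ) + 1))) := by
  have hp := isLaw_cond F.isLaw hB
  have h0 := hp.nonneg
  have hBp : ∀ ω, 0 < Pool.Agent.H49.Ent.cond F.p B True ω → B ω := fun ω hω => of_cond_pos hω
  have hσ0 : 0 ≤ σ := by
    rw [hσ]
    positivity
  have hσJ : σ ≤ 2 ^ J := by
    rw [hσ]
    exact pow_le_pow_right₀ (by norm_num) hn2
  have hx1 : (1 : ℝ) ≤ 2 ^ x := Real.one_le_rpow (by norm_num) hx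
  have hfew := HopP.few hBA hB hx HG
  obtain ⟨M, hM⟩ : ∃ M : ℕ, M = r * E₀ + r * ((D + 1) * K₁ * (1 + r * E₀)) := ⟨_, rfl⟩
  rw [← hM]
  -- the pairs
  have key : ∀ ω ω', B ω → B ω' → oth (c r) J F (ptr F J ω) = oth (c r) J F (ptr F J ω') →
      d.cx (slam F W ω) = d.cx (slam F W ω') →
      |σ * (d.hL W A (slam F W ω')).eval (uw F W ω') -
        σ * (d.hL W A (slam F W ω)).eval (uw F W ω) -
        σ * (F.x ω' (c r) - F.x ω (c r))| ≤ M := by
    intro ω ω' hω hω' hO e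
    have hO1 := (Prod.ext_iff.1 hO).1
    have hT : F.T ω = F.T ω' := (Prod.ext_iff.1 (Prod.ext_iff.1 hO).2).1
    rw [hM]
    refine hL_dif hF hσ0 hσJ hlip (hBA ω hω) (hBA ω' hω') hT e fun l hl => ?_
    have h1 : Function.update (F.X J ω) (c r) 0 (c l) = Function.update (F.X J ω') (c r) 0 (c l) :=
      congrFun hO1 (c l)
    rw [Function.update_of_ne (hcr l hl), Function.update_of_ne (hcr l hl)] at h1
    rw [abs_sub_comm]
    exact of_floor_mul (by positivity : (0 : ℝ) < 2 ^ J) h1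
  have hM0 : (0 : ℝ) ≤ M := Nat.cast_nonneg _
  have f1 : ∀ ω ω', 0 < Pool.Agent.H49.Ent.cond F.p B True ω →
      0 < Pool.Agent.H49.Ent.cond F.p B True ω' →
      (oth (c r) J F (ptr F J ω), (Vdg F c r v ω,
        (⌊σ * (d.hL W A (slam F W ω)).eval (uw F W ω) / 2 ^ x⌋,
        (d.cx (slam F W ω), F.W ω)))) =
      (oth (c r) J F (ptr F J ω'), (Vdg F c r v ω',
        (⌊σ * (d.hL W A (slam F W ω')).eval (uw F W ω') / 2 ^ x⌋,
        (d.cx (slam F W ω'), F.W ω')))) →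
      |F.X n₁ ω (c r) - F.X n₁ ω' (c r)| ≤ ((M + 2 : ℕ) : ℤ) := by
    intro ω ω' hω hω' e
    simp only [Prod.mk.injEq] at e
    obtain ⟨e1, -, e2, e3, -⟩ := e
    have h1 := key ω ω' (hBp ω hω) (hBp ω' hω') e1 e3
    have h2 := of_floor_div (by linarith : (0 : ℝ) < 2 ^ x) e2
    have h3 : |(2 : ℝ) ^ n₁ * F.x ω (c r) - 2 ^ n₁ * F.x ω' (c r)| ≤ ((M + 1 : ℕ) : ℝ) := by
      rw [← mul_sub, abs_mul, abs_of_pos (by positivity : (0 : ℝ) < 2 ^ n₁)]
      have h4 : σ * |F.x ω (c r) - F.x ω' (c r)| ≤ 2 ^ x + M := by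
        have h5 : σ * |F.x ω (c r) - F.x ω' (c r)| = |σ * (F.x ω' (c r) - F.x ω (c r))| := by
          rw [abs_mul, abs_of_nonneg hσ0, abs_sub_comm]
        rw [h5]
        rw [abs_le] at h1 h2 ⊢
        constructor <;> linarith [h1.1, h1.2, h2.1, h2.2]
      have h6 : (2 : ℝ) ^ n₁ * 2 ^ x ≤ σ := by
        rw [hσ, ← Real.rpow_natCast 2 n₁, ← Real.rpow_natCast 2 n₂, ← Real.rpow_add (by norm_num)]
        exact Real.rpow_le_rpow_of_exponent_le (by norm_num) hn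
      have h8 : (2 : ℝ) ^ x * (2 ^ n₁ * |F.x ω (c r) - F.x ω' (c r)|) ≤ 2 ^ x * (M + 1) := by
        have h9 : (2 : ℝ) ^ x * (2 ^ n₁ * |F.x ω (c r) - F.x ω' (c r)|) ≤
            σ * |F.x ω (c r) - F.x ω' (c r)| := by
          rw [← mul_assoc, mul_comm ((2 : ℝ) ^ x)]
          exact mul_le_mul_of_nonneg_right h6 (abs_nonneg _)
        have h10 : (M : ℝ) ≤ 2 ^ x * M := le_mul_of_one_le_left hM0 hx1
        linarith
      have h11 := le_of_mul_le_mul_left h8 (by linarith)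
      push_cast
      exact h11
    have h4 := floor_sub_le h3
    push_cast at h4 ⊢
    have e4 : F.X n₁ ω (c r) = ⌊(2 : ℝ) ^ n₁ * F.x ω (c r)⌋ := rfl
    have e5 : F.X n₁ ω' (c r) = ⌊(2 : ℝ) ^ n₁ * F.x ω' (c r)⌋ := rfl
    rw [e4, e5]
    linarith
  have f2 : ∀ ω ω', 0 < Pool.Agent.H49.Ent.cond F.p B True ω →
      0 < Pool.Agent.H49.Ent.cond F.p B True ω' →
      (F.X n₂ ω (c r), (F.X n₁ ω (c r), (oth (c r) J F (ptr F J ω), (Vdg F c r v ω,
        (⌊σ * (d.hL W A (slam F W ω)).eval (uw F W ω) / 2 ^ x⌋,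
        (d.cx (slam F W ω), F.W ω)))))) =
      (F.X n₂ ω' (c r), (F.X n₁ ω' (c r), (oth (c r) J F (ptr F J ω'), (Vdg F c r v ω',
        (⌊σ * (d.hL W A (slam F W ω')).eval (uw F W ω') / 2 ^ x⌋,
        (d.cx (slam F W ω'), F.W ω')))))) →
      |⌊σ * (d.hL W A (slam F W ω)).eval (uw F W ω)⌋ -
        ⌊σ * (d.hL W A (slam F W ω')).eval (uw F W ω')⌋| ≤ ((M + 2 : ℕ) : ℤ) := by
    intro ω ω' hω hω' e
    simp only [Prod.mk.injEq] at e
    obtain ⟨e0, -, e1, -, -, e3, -⟩ := e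
    have h1 := key ω ω' (hBp ω hω) (hBp ω' hω') e1 e3
    have h2 : |F.x ω (c r) - F.x ω' (c r)| ≤ 1 / 2 ^ n₂ :=
      of_floor_mul (by positivity : (0 : ℝ) < 2 ^ n₂) e0
    have h3 : |σ * (d.hL W A (slam F W ω)).eval (uw F W ω) -
        σ * (d.hL W A (slam F W ω')).eval (uw F W ω')| ≤ ((M + 1 : ℕ) : ℝ) := by
      have h5 : |σ * (F.x ω' (c r) - F.x ω (c r))| ≤ 1 := by
        rw [abs_mul, abs_of_nonneg hσ0, abs_sub_comm]
        calc σ * |F.x ω (c r) - F.x ω' (c r)| ≤ σ * (1 / 2 ^ n₂) :=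
              mul_le_mul_of_nonneg_left h2 hσ0
          _ = 1 := by
            rw [hσ]
            field_simp
      push_cast
      rw [abs_le] at h1 h5 ⊢
      constructor <;> linarith [h1.1, h1.2, h5.1, h5.2]
    have h4 := floor_sub_le h3
    push_cast at h4 ⊢
    linarith
  have g1 := CH_pair hp _ _ f1
  have g2 := CH_pair hp _ _ f2
  have hVd : CH (Pool.Agent.H49.Ent.cond F.p B True) (Vdg F c r v)
      (fun ω => (⌊σ * (d.hL W A (slam F W ω)).eval (uw F W ω) / 2 ^ x⌋,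
        (d.cx (slam F W ω), F.W ω))) ≤
      ∑ l ∈ range r, ((J - v l : ℕ) : ℝ) * Real.log 2 := (CH_le_Hu hp _ _).trans (H_Vdg F c r v hp)
  have s1 := nf_swap h0
    (fun ω => ⌊σ * (d.hL W A (slam F W ω)).eval (uw F W ω)⌋) (Vdg F c r v)
    (fun ω => (⌊σ * (d.hL W A (slam F W ω)).eval (uw F W ω) / 2 ^ x⌋,
        (d.cx (slam F W ω), F.W ω))) G hVd
  have s2 := CH_step h0
    (fun ω => ⌊σ * (d.hL W A (slam F W ω)).eval (uw F W ω)⌋)
    (fun ω => oth (c r) J F (ptr F J ω))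
    (fun ω => (Vdg F c r v ω,
      (⌊σ * (d.hL W A (slam F W ω)).eval (uw F W ω) / 2 ^ x⌋, (d.cx (slam F W ω), F.W ω))))
  have s3 := CH_step h0
    (fun ω => ⌊σ * (d.hL W A (slam F W ω)).eval (uw F W ω)⌋)
    (fun ω => F.X n₁ ω (c r))
    (fun ω => (oth (c r) J F (ptr F J ω), (Vdg F c r v ω,
      (⌊σ * (d.hL W A (slam F W ω)).eval (uw F W ω) / 2 ^ x⌋, (d.cx (slam F W ω), F.W ω)))))
  have s4 := CH_step h0
    (fun ω => ⌊σ * (d.hL W A (slam F W ω)).eval (uw F W ω)⌋)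
    (fun ω => F.X n₂ ω (c r))
    (fun ω => (F.X n₁ ω (c r), (oth (c r) J F (ptr F J ω), (Vdg F c r v ω,
      (⌊σ * (d.hL W A (slam F W ω)).eval (uw F W ω) / 2 ^ x⌋,
        (d.cx (slam F W ω), F.W ω))))))
  have s5 : CH (Pool.Agent.H49.Ent.cond F.p B True) (fun ω => F.X n₂ ω (c r))
      (fun ω => (F.X n₁ ω (c r), (oth (c r) J F (ptr F J ω), (Vdg F c r v ω,
      (⌊σ * (d.hL W A (slam F W ω)).eval (uw F W ω) / 2 ^ x⌋,
        (d.cx (slam F W ω), F.W ω)))))) ≤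
      CH (Pool.Agent.H49.Ent.cond F.p B True) (fun ω => F.X n₂ ω (c r))
      (fun ω => (F.X n₁ ω (c r), oth (c r) J F (ptr F J ω))) :=
    CH_mono_cond h0 fun ω ω' _ _ e => by
      simp only [Prod.mk.injEq] at e
      exact Prod.ext e.1 e.2.1
  have s6 := CH_oth (hF.sub hBA) hv hSV HG.SVE hc hp hBp
    (fun ω => (Vdg F c r v ω,
      (⌊σ * (d.hL W A (slam F W ω)).eval (uw F W ω) / 2 ^ x⌋,
        (d.cx (slam F W ω), F.W ω)))) fun ω ω' _ _ e => by
      simp only [Prod.mk.injEq] at e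
      exact ⟨e.2.2.2, e.2.2.1, e.1⟩
  linarith

end

end Pool.D2F2
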