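import Pool.Agent.H2.UST.Ev
import Pool.Agent.H45.RPL.Hyp
import Pool.Agent.H28.D2.FrR

/-!
# Few bits and free variables on large sub-events
-/

set_option autoImplicit false

namespace Pool.D2F2

open Finset Real
open Pool.Agent.H49.Ent Pool.Agent.H32.Dense Pool.STK Pool.KA Pool.KSAT Pool.K2S Pool.PB
open Pool.UST (dl dl_event)

variable {m J : ℕ}

section

variable {F : Fam m J} {A B : F.Ω → Prop}

/-- The law on a sub-event. -/
theorem cond_sub (hA : 0 < Pe F.p A) (hB : Sub B A) :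
    Pool.Agent.H49.Ent.cond (Pool.Agent.H49.Ent.cond F.p A True) B True =
      Pool.Agent.H49.Ent.cond F.p B True := by
  rw [Pool.RPL.cond_and_ev F.p hA.ne']
  have : (fun ω => A ω ∧ B ω) = B := by
    funext ω
    exact propext ⟨fun h => h.2, fun h => ⟨hB ω h, h⟩⟩
  rw [this]

/-- The probability of a sub-event. -/
theorem Pe_sub (hB : Sub B A) :
    Pe (Pool.Agent.H49.Ent.cond F.p A True) B = Pe F.p B / Pe F.p A := by
  rw [Pe_cond B]
  have : (fun ω => A ω ∧ B ω) = B := by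
    funext ω
    exact propext ⟨fun h => h.2, fun h => ⟨hB ω h, h⟩⟩
  rw [this]

/-- **Few bits on a large sub-event.** -/
theorem few_ev (hA : 0 < Pe F.p A) (hB : Sub B A) {c₀ : ℝ} (hc : 0 < c₀)
    (hcB : c₀ * Pe F.p A ≤ Pe F.p B) {S T : Type} (X : F.Ω → S) (Z : F.Ω → T) {η : ℝ}
    (h : CH (Pool.Agent.H49.Ent.cond F.p A True) X Z ≤ η) :
    CH (Pool.Agent.H49.Ent.cond F.p B True) X Z ≤ η / c₀ := by
  have hcl := isLaw_cond F.isLaw hA
  have h1 := Pool.RPL.CH_ev_le hcl.nonneg X Z B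
  rw [cond_sub hA hB, Pe_sub hB] at h1
  have hBp : 0 < Pe F.p B := lt_of_lt_of_le (mul_pos hc hA) hcB
  have h2 : 0 ≤ CH (Pool.Agent.H49.Ent.cond F.p B True) X Z :=
    CH_nonneg (isLaw_cond F.isLaw hBp).nonneg _ _
  rw [le_div_iff₀ hc, mul_comm]
  have h3 : c₀ ≤ Pe F.p B / Pe F.p A := by
    rw [le_div_iff₀ hA]
    exact hcB
  exact (mul_le_mul_of_nonneg_right h3 h2).trans (h1.trans h)

/-- **Free variables on a large sub-event.** -/
theorem free_ev (hA : 0 < Pe F.p A) (hB : Sub B A) {c₀ : ℝ} (hc : 0 < c₀)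
    (hcB : c₀ * Pe F.p A ≤ Pe F.p B) {S T T' : Type} (e : F.Ω → S) (z : F.Ω → T)
    (z' : F.Ω → T') {η η' : ℝ}
    (h : CH (Pool.Agent.H49.Ent.cond F.p A True) e z ≤
      CH (Pool.Agent.H49.Ent.cond F.p A True) e z' + η)
    (hz : CH (Pool.Agent.H49.Ent.cond F.p A True) z z' ≤ η') :
    CH (Pool.Agent.H49.Ent.cond F.p B True) e z ≤
      CH (Pool.Agent.H49.Ent.cond F.p B True) e z' + (η + η' + Real.log 2) / c₀ := by
  have hcl := isLaw_cond F.isLaw hA
  have hBp : 0 < Pe F.p B := lt_of_lt_of_le (mul_pos hc hA) hcB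
  have hclB := isLaw_cond F.isLaw hBp
  have h1 := dl_event hcl B e z' z
  rw [cond_sub hA hB, Pe_sub hB] at h1
  have h2 : dl (Pool.Agent.H49.Ent.cond F.p A True) e z' z ≤ η + η' := by
    unfold dl
    have h3 := CH_le_add hcl.nonneg e z z'
    have h4 : CH (Pool.Agent.H49.Ent.cond F.p A True) e (fun ω => (z ω, z' ω)) =
        CH (Pool.Agent.H49.Ent.cond F.p A True) e (fun ω => (z' ω, z ω)) := by
      refine CH_congr hcl.nonneg (fun _ _ _ _ h => (Prod.ext_iff.mp h).1)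
        (fun _ _ _ _ h => (Prod.ext_iff.mp h).1) ?_ ?_ <;>
      · intro ω ω' _ _ hh
        simp only [Prod.mk.injEq] at hh ⊢
        exact ⟨hh.2, hh.1⟩
    linarith
  have h3 : c₀ ≤ Pe F.p B / Pe F.p A := by
    rw [le_div_iff₀ hA]
    exact hcB
  have h0 : 0 ≤ dl (Pool.Agent.H49.Ent.cond F.p B True) e z' z := by
    unfold dl
    have h5 : CH (Pool.Agent.H49.Ent.cond F.p B True) e (fun ω => (z' ω, z ω)) ≤
        CH (Pool.Agent.H49.Ent.cond F.p B True) e z :=
      CH_mono_cond hclB.nonneg fun ω ω' _ _ hh => (Prod.ext_iff.mp hh).2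
    linarith
  have h6 : c₀ * dl (Pool.Agent.H49.Ent.cond F.p B True) e z' z ≤ η + η' + Real.log 2 :=
    (mul_le_mul_of_nonneg_right h3 h0).trans (h1.trans (by linarith))
  have h7 : dl (Pool.Agent.H49.Ent.cond F.p B True) e z' z ≤ (η + η' + Real.log 2) / c₀ := by
    rw [le_div_iff₀ hc, mul_comm]
    exact h6
  unfold dl at h7
  have h8 : CH (Pool.Agent.H49.Ent.cond F.p B True) e (fun ω => (z' ω, z ω)) ≤
      CH (Pool.Agent.H49.Ent.cond F.p B True) e z' :=
    CH_mono_cond hclB.nonneg fun ω ω' _ _ hh => (Prod.ext_iff.mp hh).1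
  linarith

end

end Pool.D2F2
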