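import Pool.Agent.H28.D2.Hop

/-!
# The context of a line in a frame

`Dat`: the data of the context: the own paths `P l` (of degree one) in a frame which is a function
of the code `fc`, the gradients `gp l` of the label of the target along the line, the precisions.
`cx`: the context. `rfo`: a reference sample for each value of the context. `hL`: the own height of
the target over the affine form along the reference line. `nb`: the number of a line over the
gradients of its reference line.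
-/

set_option autoImplicit false

namespace Pool.D2F2

open Finset Real MvPolynomial
open Pool.Agent.H49.Ent Pool.Agent.H32.Dense Pool.STK Pool.KA Pool.KSAT Pool.K2S Pool.PB Pool.GEN
open Pool.OWN68 (opl tw uw CH_pair CH_pis natDegree_opl opl_jet uw_abs tw_abs floor_sub_le
  of_floor_div)
open Pool.D2H (eval_lin CH_pi_le hgt num natDegree_hgt)

variable {m J : ℕ}

/-- **The data of the context.** -/
structure Dat (F : Fam m J) (κ : Type) (r D : ℕ) where
  fc : LnT F → κ
  P : ℕ → LnT F → Polynomial ℝ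
  gp : ℕ → LnT F → Polynomial ℝ
  SV : ℕ → ℝ
  SE : ℕ → ℝ
  SG : ℕ → ℝ
  P1 : ∀ l s, (P l s).natDegree ≤ 1
  gD : ∀ l s, (gp l s).natDegree ≤ D

/-- The type of the contexts. -/
abbrev CxT (F : Fam m J) (κ : Type) (r D : ℕ) : Type :=
  ((F.ζ × ℕ) × κ) × ((Fin r → ℤ) × ((Fin r → ℤ) × (Fin r → Fin (D + 1) → ℤ)))

section ctx

variable {F : Fam m J} {κ : Type} {r D : ℕ} (d : Dat F κ r D)

/-- The position in the frame. -/
noncomputable def Dat.v (W l : ℕ) (ω : F.Ω) : ℝ := (d.P l (slam F W ω)).eval (uw F W ω)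

/-- The velocity in the frame. -/
noncomputable def Dat.e (W l : ℕ) (ω : F.Ω) : ℝ := (d.P l (slam F W ω)).coeff 1

/-- **The context of a line.** -/
noncomputable def Dat.cx (s : LnT F) : CxT F κ r D :=
  ((s.2, d.fc s), ((fun l => ⌊d.SV l * (d.P l s).coeff 0⌋), ((fun l => ⌊d.SE l * (d.P l s).coeff 1⌋),
    fun l j => ⌊d.SG l * (d.gp l s).coeff j⌋)))

/-- **A reference sample** for a value of the context. -/
noncomputable def Dat.rfo (W : ℕ) (A : F.Ω → Prop) (y : CxT F κ r D) : Option F.Ω :=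
  open Classical in
  if h : ∃ ω, A ω ∧ d.cx (slam F W ω) = y then some h.choose else none

variable {W : ℕ}

theorem Dat.rfo_spec {A : F.Ω → Prop} {ω : F.Ω} (hω : A ω) :
    ∃ ω₀, d.rfo W A (d.cx (slam F W ω)) = some ω₀ ∧ A ω₀ ∧
      d.cx (slam F W ω₀) = d.cx (slam F W ω) := by
  classical
  have h : ∃ ω', A ω' ∧ d.cx (slam F W ω') = d.cx (slam F W ω) := ⟨ω, hω, rfl⟩
  refine ⟨h.choose, ?_, h.choose_spec.1, h.choose_spec.2⟩
  unfold Dat.rfo
  rw [dif_pos h]

variable (W)

/-- The own height over a given reference sample. -/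
noncomputable def Dat.hR (ω₀ : F.Ω) (s : LnT F) : Polynomial ℝ :=
  hgt r (d.P r s) (d.P r (slam F W ω₀)) (fun l => d.P l s)
    (fun l => d.P l (slam F W ω₀)) (fun l => d.gp l (slam F W ω₀))

/-- **The own height over the reference line of the context.** -/
noncomputable def Dat.hL (A : F.Ω → Prop) (s : LnT F) : Polynomial ℝ :=
  (d.rfo W A (d.cx s)).elim 0 fun ω₀ => d.hR W ω₀ s

/-- **The number of a line** over the gradients of the reference line. -/
noncomputable def Dat.nb (A : F.Ω → Prop) (s : LnT F) : ℝ :=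
  (d.rfo W A (d.cx s)).elim 0 fun ω₀ => num r (fun l => d.P l s) (fun l => d.gp l (slam F W ω₀))

variable {W}

theorem Dat.natDegree_hR (ω₀ : F.Ω) (s : LnT F) : (d.hR W ω₀ s).natDegree ≤ D + 1 :=
  natDegree_hgt (d.P1 _ _) (d.P1 _ _) (fun _ => d.P1 _ _) (fun _ => d.P1 _ _) fun _ => d.gD _ _

theorem Dat.natDegree_hL (A : F.Ω → Prop) (s : LnT F) : (d.hL W A s).natDegree ≤ D + 1 := by
  unfold Dat.hL
  cases d.rfo W A (d.cx s) with
  | none => simp
  | some ω₀ => exact d.natDegree_hR ω₀ s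

/-- **Few values of the context on the fibres** of a function. -/
theorem Dat.cx_few {γ : Type} {p : F.Ω → ℝ} (hp : IsLaw p) (Y : F.Ω → γ) {K : ℕ}
    (hZ : ∀ ω ω', 0 < p ω → 0 < p ω' → Y ω = Y ω' →
      ((slam F W ω).2, d.fc (slam F W ω)) = ((slam F W ω').2, d.fc (slam F W ω')))
    (h0 : ∀ ω ω', 0 < p ω → 0 < p ω' → Y ω = Y ω' → ∀ l < r,
      |d.SV l * (d.P l (slam F W ω)).coeff 0 -
        d.SV l * (d.P l (slam F W ω')).coeff 0| ≤ K)
    (h1 : ∀ ω ω', 0 < p ω → 0 < p ω' → Y ω = Y ω' → ∀ l < r,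
      |d.SE l * (d.P l (slam F W ω)).coeff 1 -
        d.SE l * (d.P l (slam F W ω')).coeff 1| ≤ K)
    (h2 : ∀ ω ω', 0 < p ω → 0 < p ω' → Y ω = Y ω' → ∀ l < r, ∀ j ≤ D,
      |d.SG l * (d.gp l (slam F W ω)).coeff j - d.SG l * (d.gp l (slam F W ω')).coeff j| ≤ K) :
    CH p (fun ω => d.cx (slam F W ω)) Y ≤
      (r * (D + 3)) * Real.log (2 * (K + 1) + 1) := by
  have hn := hp.nonneg
  -- the pieces
  have e0 : CH p (fun ω => ((slam F W ω).2, d.fc (slam F W ω))) Y = 0 :=
    CH_eq_zero hn fun ω ω' hω hω' e => hZ ω ω' hω hω' e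
  have hcast : 2 * ((K + 1 : ℕ) : ℝ) + 1 = 2 * (K + 1) + 1 := by push_cast; ring
  have s0 : CH p (fun ω (l : Fin r) => ⌊d.SV l * (d.P l (slam F W ω)).coeff 0⌋) Y ≤
      r * Real.log (2 * (K + 1) + 1) := by
    have := CH_pi_le hn (fun ω (l : Fin r) => ⌊d.SV l * (d.P l (slam F W ω)).coeff 0⌋) Y
      (B := Real.log (2 * (K + 1) + 1)) fun l => by
        rw [← hcast]
        exact CH_pair hp _ Y fun ω ω' hω hω' e => floor_sub_le (h0 ω ω' hω hω' e l l.2)
    rwa [Fintype.card_fin] at this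
  have s1 : CH p (fun ω (l : Fin r) => ⌊d.SE l * (d.P l (slam F W ω)).coeff 1⌋) Y ≤
      r * Real.log (2 * (K + 1) + 1) := by
    have := CH_pi_le hn (fun ω (l : Fin r) => ⌊d.SE l * (d.P l (slam F W ω)).coeff 1⌋) Y
      (B := Real.log (2 * (K + 1) + 1)) fun l => by
        rw [← hcast]
        exact CH_pair hp _ Y fun ω ω' hω hω' e => floor_sub_le (h1 ω ω' hω hω' e l l.2)
    rwa [Fintype.card_fin] at this
  have s2 : CH p (fun ω (l : Fin r) (j : Fin (D + 1)) =>
      ⌊d.SG l * (d.gp l (slam F W ω)).coeff j⌋) Y ≤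
      r * (((D + 1 : ℕ) : ℝ) * Real.log (2 * (K + 1) + 1)) := by
    have := CH_pi_le hn (fun ω (l : Fin r) (j : Fin (D + 1)) =>
      ⌊d.SG l * (d.gp l (slam F W ω)).coeff j⌋) Y
      (B := ((D + 1 : ℕ) : ℝ) * Real.log (2 * (K + 1) + 1)) fun l => by
        have := CH_pi_le hn (fun ω (j : Fin (D + 1)) =>
          ⌊d.SG l * (d.gp l (slam F W ω)).coeff j⌋) Y
          (B := Real.log (2 * (K + 1) + 1)) fun j => by
            rw [← hcast]
            exact CH_pair hp _ Y fun ω ω' hω hω' e =>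
              floor_sub_le (h2 ω ω' hω hω' e l l.2 j (by omega))
        rwa [Fintype.card_fin] at this
    rwa [Fintype.card_fin] at this
  have t1 := CH_subadd hn (fun ω => ((slam F W ω).2, d.fc (slam F W ω))) (fun ω =>
    ((fun (l : Fin r) => ⌊d.SV l * (d.P l (slam F W ω)).coeff 0⌋),
      ((fun (l : Fin r) => ⌊d.SE l * (d.P l (slam F W ω)).coeff 1⌋),
        fun (l : Fin r) (j : Fin (D + 1)) => ⌊d.SG l * (d.gp l (slam F W ω)).coeff j⌋))) Y
  have t2 := CH_subadd hn
    (fun ω (l : Fin r) => ⌊d.SV l * (d.P l (slam F W ω)).coeff 0⌋) (fun ω =>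
      ((fun (l : Fin r) => ⌊d.SE l * (d.P l (slam F W ω)).coeff 1⌋),
        fun (l : Fin r) (j : Fin (D + 1)) => ⌊d.SG l * (d.gp l (slam F W ω)).coeff j⌋)) Y
  have t3 := CH_subadd hn
    (fun ω (l : Fin r) => ⌊d.SE l * (d.P l (slam F W ω)).coeff 1⌋)
    (fun ω (l : Fin r) (j : Fin (D + 1)) => ⌊d.SG l * (d.gp l (slam F W ω)).coeff j⌋) Y
  push_cast at s2
  unfold Dat.cx
  linarith [t1, t2, t3]

end ctx

end Pool.D2F2
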