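import Pool.Agent.H28.D2.Fr

/-!
# The hop over the reference line of the context, in a frame: one law

`HopP`, `HopG`: the geometric data. `HopG.mk1`: from sizes. `hop_law`: if the rows of the own height
over the reference line are not full then the number of the line is few bits given `Y`.
-/

set_option autoImplicit false

namespace Pool.D2F2

open Finset Real MvPolynomial
open Pool.Agent.H49.Ent Pool.Agent.H32.Dense Pool.STK Pool.KA Pool.KSAT Pool.K2S Pool.PB Pool.GEN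
open Pool.S6C Pool.LA91
open Pool.OWN68 (opl tw uw CH_pair CH_pis natDegree_opl opl_jet uw_abs tw_abs floor_sub_le
  of_floor_div pj path_law)
open Pool.D2H (of_floor_mul eval_small der_small' uw_eq CH_step hgt num hgt_sub hgt_coeff hgt_two
  eval_lin CH_pi_le)

variable {m J : ℕ}

/-- **The geometric data of a record**: on the fibres of `Y` the own paths and the gradients of the
context are known, and the heights over the affine form along the own line are the same. -/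
structure HopP {F : Fam m J} {κ : Type} {r D : ℕ} (d : Dat F κ r D) (A : F.Ω → Prop) (W : ℕ)
    (σ : ℝ) (K : ℕ) {γ : Type} (Y : F.Ω → γ) : Prop where
  hW : W ≤ J
  SV0 : ∀ l < r, 0 < d.SV l
  SG0 : ∀ l < r, 0 < d.SG l
  SVE : ∀ l < r, d.SV l ≤ d.SE l
  σ0 : 0 ≤ σ
  σG : ∀ l < r, σ ≤ d.SG l * d.SV l
  TZ : ∀ ω ω', A ω → A ω' → Y ω = Y ω' → F.T ω = F.T ω' ∧ F.Z ω = F.Z ω' ∧
    d.fc (slam F W ω) = d.fc (slam F W ω')
  pos : ∀ ω ω', A ω → A ω' → Y ω = Y ω' → ∀ l < r, d.SV l * |d.v W l ω - d.v W l ω'| ≤ K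
  vel : ∀ ω ω', A ω → A ω' → Y ω = Y ω' → ∀ l < r, d.SE l * |d.e W l ω - d.e W l ω'| ≤ K
  grd : ∀ ω ω', A ω → A ω' → Y ω = Y ω' → ∀ l < r, ∀ j ≤ D,
    d.SG l * |(d.gp l (slam F W ω)).coeff j - (d.gp l (slam F W ω')).coeff j| ≤ K
  hei : ∀ ω ω', A ω → A ω' → Y ω = Y ω' →
    σ * |(d.v W r ω' - d.v W r ω) - ∑ l ∈ range r,
      (d.gp l (slam F W ω)).eval (uw F W ω) * (d.v W l ω' - d.v W l ω)| ≤ K

/-- **The geometric data of the hop**: also the velocities of the heights are the same; the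
coefficients of order at least three of the own heights are small; the numbers are known up to
`2 ^ Q`. -/
structure HopG {F : Fam m J} {κ : Type} {r D : ℕ} (d : Dat F κ r D) (A : F.Ω → Prop) (W Q : ℕ)
    (σ : ℝ) (K : ℕ) {γ : Type} (Y : F.Ω → γ) : Prop extends HopP d A W σ K Y where
  big : ∀ ω, A ω → ∀ l < r, ∀ j, 2 ≤ j → σ * |(d.gp l (slam F W ω)).coeff (j + 1)| ≤ K * d.SV l ∧
    σ * |(d.gp l (slam F W ω)).coeff j| ≤ K * d.SE l
  nat : ∀ ω₀ ω ω', A ω₀ → A ω → A ω' → Y ω = Y ω' → d.cx (slam F W ω₀) = d.cx (slam F W ω) →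
    d.cx (slam F W ω) = d.cx (slam F W ω') →
    σ * |num r (fun l => d.P l (slam F W ω')) (fun l => d.gp l (slam F W ω₀)) -
      num r (fun l => d.P l (slam F W ω)) (fun l => d.gp l (slam F W ω₀))| ≤ K * 2 ^ Q
  hvl : ∀ ω ω', A ω → A ω' → Y ω = Y ω' →
    σ * |(d.e W r ω' - d.e W r ω) - ∑ l ∈ range r,
      ((d.gp l (slam F W ω)).derivative.eval (uw F W ω) * (d.v W l ω' - d.v W l ω) +
        (d.gp l (slam F W ω)).eval (uw F W ω) * (d.e W l ω' - d.e W l ω))| ≤ K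

section pair

variable {F : Fam m J} {κ : Type} {r D : ℕ} (d : Dat F κ r D) {W : ℕ}

/-- The values of the own paths at the common time. -/
theorem Dat.val' (l : ℕ) {ω ω' : F.Ω} (hT : F.T ω = F.T ω') :
    (d.P l (slam F W ω')).eval (uw F W ω) = d.v W l ω' := by
  rw [uw_eq (W := W) hT]
  rfl

/-- The constant coefficients. -/
theorem Dat.zero (l : ℕ) (ω : F.Ω) :
    (d.P l (slam F W ω)).coeff 0 = d.v W l ω - d.e W l ω * uw F W ω := by
  unfold Dat.v Dat.e
  rw [eval_lin (d.P1 l _)]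
  ring

/-- The difference of two own heights at the common time. -/
theorem Dat.hR_eval (ω₀ : F.Ω) {ω ω' : F.Ω} (hT : F.T ω = F.T ω') :
    (d.hR W ω₀ (slam F W ω')).eval (uw F W ω) - (d.hR W ω₀ (slam F W ω)).eval (uw F W ω) =
      (d.v W r ω' - d.v W r ω) - ∑ l ∈ range r,
        (d.gp l (slam F W ω₀)).eval (uw F W ω) * (d.v W l ω' - d.v W l ω) := by
  have e := congrArg (Polynomial.eval (uw F W ω)) (hgt_sub r (d.P r (slam F W ω))
    (d.P r (slam F W ω')) (d.P r (slam F W ω₀))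
    (fun l => d.P l (slam F W ω)) (fun l => d.P l (slam F W ω'))
    (fun l => d.P l (slam F W ω₀)) (fun l => d.gp l (slam F W ω₀)))
  rw [Polynomial.eval_sub, Polynomial.eval_sub, Polynomial.eval_sub,
    Polynomial.eval_finsetSum] at e
  have h1 : ∀ l, (d.P l (slam F W ω)).eval (uw F W ω) = d.v W l ω := fun l => rfl
  have h2 : ∀ l, (d.P l (slam F W ω')).eval (uw F W ω) = d.v W l ω' := fun l => d.val' l hT
  unfold Dat.hR
  rw [e, h1, h2]
  congr 1
  refine Finset.sum_congr rfl fun l _ => ?_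
  rw [Polynomial.eval_mul, Polynomial.eval_sub, h1, h2]

/-- The difference of the velocities of two own heights at the common time. -/
theorem Dat.hR_der (ω₀ : F.Ω) {ω ω' : F.Ω} (hT : F.T ω = F.T ω') :
    (d.hR W ω₀ (slam F W ω')).derivative.eval (uw F W ω) -
      (d.hR W ω₀ (slam F W ω)).derivative.eval (uw F W ω) =
      (d.e W r ω' - d.e W r ω) - ∑ l ∈ range r,
        ((d.gp l (slam F W ω₀)).derivative.eval (uw F W ω) * (d.v W l ω' - d.v W l ω) +
        (d.gp l (slam F W ω₀)).eval (uw F W ω) * (d.e W l ω' - d.e W l ω)) := by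
  have e := congrArg (fun P => (Polynomial.derivative P).eval (uw F W ω)) (hgt_sub r
    (d.P r (slam F W ω)) (d.P r (slam F W ω')) (d.P r (slam F W ω₀))
    (fun l => d.P l (slam F W ω)) (fun l => d.P l (slam F W ω'))
    (fun l => d.P l (slam F W ω₀)) (fun l => d.gp l (slam F W ω₀)))
  simp only [Polynomial.derivative_sub, Polynomial.eval_sub, Polynomial.derivative_sum,
    Polynomial.eval_finsetSum, Polynomial.derivative_mul, Polynomial.eval_add,
    Polynomial.eval_mul] at e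
  have h1 : ∀ l, (d.P l (slam F W ω)).eval (uw F W ω) = d.v W l ω := fun l => rfl
  have h2 : ∀ l, (d.P l (slam F W ω')).eval (uw F W ω) = d.v W l ω' := fun l => d.val' l hT
  have h3 : ∀ (l : ℕ) (ν : F.Ω), (d.P l (slam F W ν)).derivative.eval (uw F W ω) =
      d.e W l ν := fun l ν => by
    unfold Dat.e
    obtain ⟨a, b, hab⟩ : ∃ a b, d.P l (slam F W ν) =
        Polynomial.C b * Polynomial.X + Polynomial.C a := by
      exact ⟨_, _, Polynomial.eq_X_add_C_of_natDegree_le_one (d.P1 _ _)⟩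
    rw [hab]
    simp
  simp only [h1, h2, h3] at e
  unfold Dat.hR
  rw [e]

end pair

section law

variable {F : Fam m J} {κ : Type} {r D : ℕ} {d : Dat F κ r D} {A : F.Ω → Prop} {W Q : ℕ}
  {σ : ℝ} {K : ℕ} {γ : Type} {Y : F.Ω → γ}

/-- The same context: near coefficients. -/
theorem cx_near (H : HopP d A W σ K Y) {s s' : LnT F}
    (e : d.cx s = d.cx s') {l : ℕ} (hl : l < r) :
    |(d.P l s).coeff 0 - (d.P l s').coeff 0| ≤ 1 / d.SV l ∧
    |(d.P l s).coeff 1 - (d.P l s').coeff 1| ≤ 1 / d.SE l ∧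
    ∀ j ≤ D, |(d.gp l s).coeff j - (d.gp l s').coeff j| ≤ 1 / d.SG l := by
  unfold Dat.cx at e
  simp only [Prod.mk.injEq] at e
  obtain ⟨-, e1, e2, e3⟩ := e
  have h0 := H.SV0 l hl
  have h1 : 0 < d.SE l := lt_of_lt_of_le h0 (H.SVE l hl)
  refine ⟨of_floor_mul h0 (congrFun e1 ⟨l, hl⟩), of_floor_mul h1 (congrFun e2 ⟨l, hl⟩),
    fun j hj => of_floor_mul (H.SG0 l hl) (congrFun (congrFun e3 ⟨l, hl⟩) ⟨j, by omega⟩)⟩

/-- The values of near gradients. -/
theorem gp_near (H : HopP d A W σ K Y) {s s' : LnT F}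
    (e : d.cx s = d.cx s') {l : ℕ} (hl : l < r) {u : ℝ}
    (hu : |u| ≤ 1) : |(d.gp l s).eval u - (d.gp l s').eval u| ≤ (D + 1) * (1 / d.SG l) ∧
      |(d.gp l s).derivative.eval u - (d.gp l s').derivative.eval u| ≤
        (D + 1) * (D * (1 / d.SG l)) := by
  have h1 : ((d.gp l s) - (d.gp l s')).natDegree ≤ D :=
    (Polynomial.natDegree_sub_le _ _).trans (max_le (d.gD l s) (d.gD l s'))
  have h2 : ∀ j ≤ D, |((d.gp l s) - (d.gp l s')).coeff j| ≤ 1 / d.SG l := fun j hj => by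
    rw [Polynomial.coeff_sub]
    exact (cx_near H e hl).2.2 j hj
  refine ⟨?_, ?_⟩
  · rw [← Polynomial.eval_sub]
    exact eval_small h1 hu h2
  · rw [← Polynomial.eval_sub, ← Polynomial.derivative_sub]
    exact der_small' h1 hu h2

/-- **Two samples of one fibre with the same context** have the same height over the reference
line. -/
theorem HopP.pair (H : HopP d A W σ K Y) {ω₀ ω ω' : F.Ω}
    (hω : A ω) (hω' : A ω') (hY : Y ω = Y ω')
    (e₀ : d.cx (slam F W ω₀) = d.cx (slam F W ω)) :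
    σ * |(d.hR W ω₀ (slam F W ω')).eval (uw F W ω) -
      (d.hR W ω₀ (slam F W ω)).eval (uw F W ω)| ≤ K * (1 + r * (D + 1) ^ 2) := by
  have hT := (H.TZ ω ω' hω hω' hY).1
  have hu := uw_abs F W ω
  have hσ := H.σ0
  have hK0 : (0 : ℝ) ≤ K := Nat.cast_nonneg K
  have hD0 : (0 : ℝ) ≤ D := Nat.cast_nonneg D
  -- the products
  have hprod : ∀ l < r, ∀ (g t B : ℝ), 0 ≤ B → |g| ≤ B * (1 / d.SG l) → d.SV l * |t| ≤ K →
      σ * |g * t| ≤ B * K := by
    intro l hl g t B hB hg hd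
    have h1 := H.SV0 l hl
    have h2 := H.SG0 l hl
    have h3 : |t| ≤ K / d.SV l := by
      rw [le_div_iff₀ h1]
      linarith
    rw [abs_mul]
    calc σ * (|g| * |t|) ≤ (d.SG l * d.SV l) * ((B * (1 / d.SG l)) * (K / d.SV l)) :=
          mul_le_mul (H.σG l hl) (mul_le_mul hg h3 (abs_nonneg _) (by positivity))
            (by positivity) (by positivity)
      _ = B * K := by field_simp
  rw [d.hR_eval ω₀ hT]
  have h1 := H.hei ω ω' hω hω' hY
  have e1 : (d.v W r ω' - d.v W r ω) - ∑ l ∈ range r,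
      (d.gp l (slam F W ω₀)).eval (uw F W ω) * (d.v W l ω' - d.v W l ω) =
      ((d.v W r ω' - d.v W r ω) - ∑ l ∈ range r,
      (d.gp l (slam F W ω)).eval (uw F W ω) * (d.v W l ω' - d.v W l ω)) -
      ∑ l ∈ range r, ((d.gp l (slam F W ω₀)).eval (uw F W ω) -
        (d.gp l (slam F W ω)).eval (uw F W ω)) * (d.v W l ω' - d.v W l ω) := by
    simp only [sub_mul, Finset.sum_sub_distrib]
    ring
  rw [e1]
  have h2 : σ * |∑ l ∈ range r, ((d.gp l (slam F W ω₀)).eval (uw F W ω) -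
      (d.gp l (slam F W ω)).eval (uw F W ω)) * (d.v W l ω' - d.v W l ω)| ≤
      r * ((D + 1) * K) := by
    refine (mul_le_mul_of_nonneg_left (Finset.abs_sum_le_sum_abs _ _) hσ).trans ?_
    rw [Finset.mul_sum]
    refine (Finset.sum_le_sum (g := fun _ => (D + 1) * (K : ℝ)) fun l hl => ?_).trans
      (le_of_eq ?_)
    · have hl' := Finset.mem_range.1 hl
      refine hprod l hl' _ _ (D + 1) (by positivity) (gp_near H e₀ hl' hu).1 ?_
      rw [abs_sub_comm]
      exact H.pos ω ω' hω hω' hY l hl'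
    · rw [Finset.sum_const, Finset.card_range, nsmul_eq_mul]
  refine (mul_le_mul_of_nonneg_left (abs_sub _ _) hσ).trans ?_
  rw [mul_add]
  have h3 : (r : ℝ) * ((D + 1) * K) ≤ r * (K * (D + 1) ^ 2) := by
    refine mul_le_mul_of_nonneg_left ?_ (Nat.cast_nonneg r)
    have : 0 ≤ (K : ℝ) * (D + 1) * D := by positivity
    linarith
  have h4 : (K : ℝ) * (1 + r * (D + 1) ^ 2) = K + r * (K * (D + 1) ^ 2) := by ring
  rw [h4]
  linarith

/-- The same for the velocities. -/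
theorem HopG.pair (H : HopG d A W Q σ K Y) {ω₀ ω ω' : F.Ω}
    (hω : A ω) (hω' : A ω') (hY : Y ω = Y ω')
    (e₀ : d.cx (slam F W ω₀) = d.cx (slam F W ω)) :
    σ * |(d.hR W ω₀ (slam F W ω')).eval (uw F W ω) -
      (d.hR W ω₀ (slam F W ω)).eval (uw F W ω)| ≤ K * (1 + r * (D + 1) ^ 2) ∧
    σ * |(d.hR W ω₀ (slam F W ω')).derivative.eval (uw F W ω) -
      (d.hR W ω₀ (slam F W ω)).derivative.eval (uw F W ω)| ≤
        K * (1 + r * (D + 1) ^ 2) := by
  refine ⟨H.toHopP.pair hω hω' hY e₀, ?_⟩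
  have hT := (H.TZ ω ω' hω hω' hY).1
  have hu := uw_abs F W ω
  have hσ := H.σ0
  have hK0 : (0 : ℝ) ≤ K := Nat.cast_nonneg K
  have hD0 : (0 : ℝ) ≤ D := Nat.cast_nonneg D
  -- the products
  have hprod : ∀ l < r, ∀ (g t B : ℝ), 0 ≤ B → |g| ≤ B * (1 / d.SG l) → d.SV l * |t| ≤ K →
      σ * |g * t| ≤ B * K := by
    intro l hl g t B hB hg hd
    have h1 := H.SV0 l hl
    have h2 := H.SG0 l hl
    have h3 : |t| ≤ K / d.SV l := by
      rw [le_div_iff₀ h1]
      linarith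
    rw [abs_mul]
    calc σ * (|g| * |t|) ≤ (d.SG l * d.SV l) * ((B * (1 / d.SG l)) * (K / d.SV l)) :=
          mul_le_mul (H.σG l hl) (mul_le_mul hg h3 (abs_nonneg _) (by positivity))
            (by positivity) (by positivity)
      _ = B * K := by field_simp
  rw [d.hR_der ω₀ hT]
  have h1 := H.hvl ω ω' hω hω' hY
  have e1 : (d.e W r ω' - d.e W r ω) - ∑ l ∈ range r,
      ((d.gp l (slam F W ω₀)).derivative.eval (uw F W ω) * (d.v W l ω' - d.v W l ω) +
      (d.gp l (slam F W ω₀)).eval (uw F W ω) *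
        (d.e W l ω' - d.e W l ω)) =
      ((d.e W r ω' - d.e W r ω) - ∑ l ∈ range r,
      ((d.gp l (slam F W ω)).derivative.eval (uw F W ω) * (d.v W l ω' - d.v W l ω) +
      (d.gp l (slam F W ω)).eval (uw F W ω) *
        (d.e W l ω' - d.e W l ω))) -
      ∑ l ∈ range r, (((d.gp l (slam F W ω₀)).derivative.eval (uw F W ω) -
        (d.gp l (slam F W ω)).derivative.eval (uw F W ω)) * (d.v W l ω' - d.v W l ω) +
        ((d.gp l (slam F W ω₀)).eval (uw F W ω) - (d.gp l (slam F W ω)).eval (uw F W ω)) *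
        (d.e W l ω' - d.e W l ω)) := by
    simp only [sub_mul, Finset.sum_sub_distrib, Finset.sum_add_distrib]
    ring
  rw [e1]
  have h2 : σ * |∑ l ∈ range r, (((d.gp l (slam F W ω₀)).derivative.eval (uw F W ω) -
        (d.gp l (slam F W ω)).derivative.eval (uw F W ω)) * (d.v W l ω' - d.v W l ω) +
        ((d.gp l (slam F W ω₀)).eval (uw F W ω) - (d.gp l (slam F W ω)).eval (uw F W ω)) *
        (d.e W l ω' - d.e W l ω))| ≤
      r * (((D + 1) * D) * K + (D + 1) * K) := by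
    refine (mul_le_mul_of_nonneg_left (Finset.abs_sum_le_sum_abs _ _) hσ).trans ?_
    rw [Finset.mul_sum]
    refine (Finset.sum_le_sum (g := fun _ => ((D + 1) * D) * (K : ℝ) + (D + 1) * K)
      fun l hl => ?_).trans (le_of_eq ?_)
    · have hl' := Finset.mem_range.1 hl
      refine (mul_le_mul_of_nonneg_left (abs_add_le _ _) hσ).trans ?_
      rw [mul_add]
      refine add_le_add ?_ ?_
      · refine hprod l hl' _ _ ((D + 1) * D) (by positivity) ?_ ?_
        · have := (gp_near H.toHopP e₀ hl' hu).2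
          rwa [mul_assoc]
        · rw [abs_sub_comm]
          exact H.pos ω ω' hω hω' hY l hl'
      · refine hprod l hl' _ _ (D + 1) (by positivity) (gp_near H.toHopP e₀ hl' hu).1 ?_
        have h5 := H.vel ω ω' hω hω' hY l hl'
        refine le_trans ?_ h5
        rw [abs_sub_comm (d.e W l ω')]
        exact mul_le_mul_of_nonneg_right (H.SVE l hl') (abs_nonneg _)
    · rw [Finset.sum_const, Finset.card_range, nsmul_eq_mul]
  refine (mul_le_mul_of_nonneg_left (abs_sub _ _) hσ).trans ?_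
  rw [mul_add]
  have h4 : (K : ℝ) * (1 + r * (D + 1) ^ 2) = K + r * (((D + 1) * D) * K + (D + 1) * K) := by
    ring
  rw [h4]
  linarith

/-- The coefficients of the difference of two own heights of the same context. -/
theorem HopG.coef (H : HopG d A W Q σ K Y) {ω₀ : F.Ω} (h₀ : A ω₀)
    {s s' : LnT F}
    (e : d.cx s = d.cx s') (j : ℕ) (hj : 3 ≤ j) :
    σ * |(d.hR W ω₀ s').coeff j - (d.hR W ω₀ s).coeff j| ≤ r * (2 * K) := by
  have hσ := H.σ0
  have hK0 : (0 : ℝ) ≤ K := Nat.cast_nonneg K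
  obtain ⟨i, rfl⟩ : ∃ i, j = i + 2 := ⟨j - 2, by omega⟩
  have e1 : (d.hR W ω₀ s').coeff (i + 2) - (d.hR W ω₀ s).coeff (i + 2) =
      (hgt r (d.P r s') (d.P r s) (fun l => d.P l s')
        (fun l => d.P l s) (fun l => d.gp l (slam F W ω₀))).coeff (i + 2) := by
    have := hgt_sub r (d.P r s) (d.P r s') (d.P r (slam F W ω₀))
      (fun l => d.P l s) (fun l => d.P l s')
      (fun l => d.P l (slam F W ω₀)) (fun l => d.gp l (slam F W ω₀))
    unfold Dat.hR
    rw [← Polynomial.coeff_sub, this]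
    rfl
  rw [e1, hgt_coeff (d.P1 _ _) (d.P1 _ _)
    (fun _ => d.P1 _ _) (fun _ => d.P1 _ _), abs_neg]
  refine (mul_le_mul_of_nonneg_left (Finset.abs_sum_le_sum_abs _ _) hσ).trans ?_
  rw [Finset.mul_sum]
  refine (Finset.sum_le_sum (g := fun _ => 2 * (K : ℝ)) fun l hl => ?_).trans (le_of_eq ?_)
  · have hl' := Finset.mem_range.1 hl
    obtain ⟨a1, a2, -⟩ := cx_near H.toHopP e hl'
    have b1 := (H.big ω₀ h₀ l hl' (i + 1) (by omega)).1
    have b2 := (H.big ω₀ h₀ l hl' (i + 1) (by omega)).2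
    have h1 := H.SV0 l hl'
    have h2 : 0 < d.SE l := lt_of_lt_of_le h1 (H.SVE l hl')
    refine (mul_le_mul_of_nonneg_left (abs_add_le _ _) hσ).trans ?_
    rw [mul_add]
    have c1 : σ * |(d.gp l (slam F W ω₀)).coeff (i + 2) *
        ((d.P l s').coeff 0 - (d.P l s).coeff 0)| ≤ K := by
      rw [abs_mul, ← mul_assoc, abs_sub_comm]
      calc σ * |(d.gp l (slam F W ω₀)).coeff (i + 2)| *
          |(d.P l s).coeff 0 - (d.P l s').coeff 0|
          ≤ (K * d.SV l) * (1 / d.SV l) := mul_le_mul b1 a1 (abs_nonneg _) (by positivity)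
        _ = K := by field_simp
    have c2 : σ * |(d.gp l (slam F W ω₀)).coeff (i + 1) *
        ((d.P l s').coeff 1 - (d.P l s).coeff 1)| ≤ K := by
      rw [abs_mul, ← mul_assoc, abs_sub_comm]
      calc σ * |(d.gp l (slam F W ω₀)).coeff (i + 1)| *
          |(d.P l s).coeff 1 - (d.P l s').coeff 1|
          ≤ (K * d.SE l) * (1 / d.SE l) := mul_le_mul b2 a2 (abs_nonneg _) (by positivity)
        _ = K := by field_simp
    linarith
  · rw [Finset.sum_const, Finset.card_range, nsmul_eq_mul]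

/-- The coefficient of order two of the difference. -/
theorem hR_two (d : Dat F κ r D) (W : ℕ) (ω₀ : F.Ω) (s s' : LnT F) :
    (d.hR W ω₀ s').coeff 2 - (d.hR W ω₀ s).coeff 2 =
      -(num r (fun l => d.P l s') (fun l => d.gp l (slam F W ω₀)) -
        num r (fun l => d.P l s) (fun l => d.gp l (slam F W ω₀))) := by
  unfold Dat.hR
  rw [hgt_two (d.P1 _ _) (d.P1 _ _)
    (fun _ => d.P1 _ _) (fun _ => d.P1 _ _),
    hgt_two (d.P1 _ _) (d.P1 _ _)
    (fun _ => d.P1 _ _) (fun _ => d.P1 _ _)]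
  ring

/-- The context is few bits given `Y`. -/
theorem HopP.ctx (H : HopP d A W σ K Y) (hA : 0 < Pe F.p A) :
    CH (Pool.Agent.H49.Ent.cond F.p A True)
      (fun ω => d.cx (slam F W ω)) Y ≤
      (r * (D + 3)) * Real.log (2 * ((2 * K : ℕ) + 1) + 1) := by
  have hp := isLaw_cond F.isLaw hA
  have hA' : ∀ ω, 0 < Pool.Agent.H49.Ent.cond F.p A True ω → A ω := fun ω hω => of_cond_pos hω
  have hK0 : (0 : ℝ) ≤ K := Nat.cast_nonneg K
  have hK2 : (K : ℝ) ≤ ((2 * K : ℕ) : ℝ) := by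
    push_cast
    linarith
  have hv : ∀ ω ω', A ω → A ω' → Y ω = Y ω' → ∀ l < r,
      d.SE l * |(d.P l (slam F W ω)).coeff 1 - (d.P l (slam F W ω')).coeff 1| ≤ K := by
    intro ω ω' hω hω' e l hl
    exact H.vel ω ω' hω hω' e l hl
  refine d.cx_few hp Y (fun ω ω' hω hω' e => ?_) (fun ω ω' hω hω' e l hl => ?_)
    (fun ω ω' hω hω' e l hl => ?_) (fun ω ω' hω hω' e l hl j hj => ?_)
  · obtain ⟨e1, e2, e3⟩ := H.TZ ω ω' (hA' ω hω) (hA' ω' hω') e
    refine Prod.ext ?_ e3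
    unfold slam Fam.T1
    simp only [e1, e2]
  · have hT := (H.TZ ω ω' (hA' ω hω) (hA' ω' hω') e).1
    have h1 := H.SV0 l hl
    have h2 := H.pos ω ω' (hA' ω hω) (hA' ω' hω') e l hl
    have h3 := hv ω ω' (hA' ω hω) (hA' ω' hω') e l hl
    have hu := uw_abs F W ω
    rw [← mul_sub, abs_mul, abs_of_pos h1, d.zero, d.zero l ω', ← uw_eq hT]
    have e1 : d.v W l ω - d.e W l ω * uw F W ω - (d.v W l ω' - d.e W l ω' * uw F W ω) =
        (d.v W l ω - d.v W l ω') - (d.e W l ω - d.e W l ω') * uw F W ω := by ring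
    rw [e1]
    refine (mul_le_mul_of_nonneg_left (abs_sub _ _) h1.le).trans ?_
    rw [mul_add, abs_mul]
    have h4 : d.SV l * (|d.e W l ω - d.e W l ω'| * |uw F W ω|) ≤ K := by
      refine le_trans ?_ h3
      refine mul_le_mul (H.SVE l hl) ?_ (by positivity) (h1.le.trans (H.SVE l hl))
      exact mul_le_of_le_one_right (abs_nonneg _) hu
    push_cast
    linarith
  · have h1 : 0 < d.SE l := lt_of_lt_of_le (H.SV0 l hl) (H.SVE l hl)
    rw [← mul_sub, abs_mul, abs_of_pos h1]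
    exact (hv ω ω' (hA' ω hω) (hA' ω' hω') e l hl).trans hK2
  · rw [← mul_sub, abs_mul, abs_of_pos (H.SG0 l hl)]
    exact (H.grd ω ω' (hA' ω hω) (hA' ω' hω') e l hl j hj).trans hK2

/-- **The hop over the reference line: one law.** -/
theorem hop_law {h : ℝ} (hh : 0 < h) (hh1 : h ≤ 1) {ε : ℝ} (hε : 0 < ε) :
    ∃ δ : ℝ, 0 < δ ∧ ∃ c₀ : ℝ, 0 < c₀ ∧ ∃ N₀ : ℕ, 0 < N₀ ∧ ∀ (r D : ℕ), 1 ≤ D →
    ∃ C : ℕ, ∀ {w q : ℝ} (_ : 0 ≤ w) (_ : 0 < q) (_ : w + q ≤ 1),
    ∃ J₀ : ℕ, ∀ J ≥ J₀, ∀ {m : ℕ} (F : Fam m J) (A : F.Ω → Prop) (_ : 0 < Pe F.p A)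
      {κ : Type} (d : Dat F κ r D) {σ : ℝ} {K : ℕ} {γ : Type} {Y : F.Ω → γ},
    HopG d A ⌊w * J⌋₊ ⌊q * J⌋₊ σ K Y →
    C * Real.log (C * (K + 1)) ≤ δ * q * J →
    (J : ℝ) * Real.log 2 - δ * q * J ≤
      CH (Pool.Agent.H49.Ent.cond F.p A True) F.T (fun ω => (F.l ω, F.Z ω)) →
    (∀ B : F.Ω → Prop, Sub B A → c₀ * Pe F.p A ≤ Pe F.p B → ∀ i ≤ N₀,
      CH (Pool.Agent.H49.Ent.cond F.p B True)
        (fun ω => ⌊σ * (d.hL ⌊w * J⌋₊ A (slam F ⌊w * J⌋₊ ω)).eval
          (uw F ⌊w * J⌋₊ ω)⌋)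
        (fun ω => (⌊σ * (d.hL ⌊w * J⌋₊ A (slam F ⌊w * J⌋₊ ω)).eval
          (uw F ⌊w * J⌋₊ ω) / 2 ^ ((q - q * i / N₀) * J)⌋,
          (d.cx (slam F ⌊w * J⌋₊ ω), F.W ω))) ≤
        ((1 - h) * (q - q * i / N₀) * Real.log 2 + δ * q) * J) →
    CH (Pool.Agent.H49.Ent.cond F.p A True)
      (fun ω => (d.cx (slam F ⌊w * J⌋₊ ω),
        ⌊σ * d.nb ⌊w * J⌋₊ A (slam F ⌊w * J⌋₊ ω)⌋)) Y ≤ ε * q * J := by
  obtain ⟨δ, hδ, c₀, hc₀, N₀, hN₀, Hp⟩ := path_law (k := 2) (Or.inr rfl) hh hh1 (half_pos hε)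
  refine ⟨δ, hδ, c₀, hc₀, N₀, hN₀, ?_⟩
  intro r D hD
  obtain ⟨C₁, hC₁, Hder⟩ := Pool.OWN68.der_small (D + 1)
  obtain ⟨C₂, hC₂⟩ : ∃ C₂ : ℝ, C₂ = (1 + r * (D + 1) ^ 2) + C₁ * (r * 2 + 1) + 2 :=
    ⟨_, rfl⟩
  have hr0 : (0 : ℝ) ≤ r := Nat.cast_nonneg r
  have hD0 : (0 : ℝ) ≤ D := Nat.cast_nonneg D
  have hC20 : 2 ≤ C₂ := by
    rw [hC₂]
    have : 0 ≤ (r : ℝ) * (D + 1) ^ 2 := by positivity
    have : 0 ≤ C₁ * ((r : ℝ) * 2 + 1) := by positivity
    linarith
  obtain ⟨C, hC⟩ := exists_nat_ge (max ((D + 3) * ((r : ℝ) * (D + 3) + 1)) (5 * C₂ + 5))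
  have hCa : ((D : ℝ) + 3) * ((r : ℝ) * (D + 3) + 1) ≤ C := (le_max_left _ _).trans hC
  have hCb : 5 * C₂ + 5 ≤ C := (le_max_right _ _).trans hC
  refine ⟨C, ?_⟩
  intro w q hw hq hwq
  obtain ⟨J₀, HJ⟩ := Hp (D + 1) (by omega) hw hq hwq
  obtain ⟨J₁, hJ₁⟩ := exists_nat_ge (Real.log 5 / (ε / 2 * q))
  refine ⟨max J₀ J₁, ?_⟩
  intro J hJ m F A hA κ d σ K γ Y H hK hT hrow
  have hJ0 : J₀ ≤ J := (le_max_left _ _).trans hJ
  have hJ1 : (J₁ : ℝ) ≤ J := by exact_mod_cast (le_max_right _ _).trans hJ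
  have hJr : (0 : ℝ) ≤ J := Nat.cast_nonneg J
  have hK0 : (0 : ℝ) ≤ K := Nat.cast_nonneg K
  have hσ := H.σ0
  obtain ⟨W, hW⟩ : ∃ W : ℕ, W = ⌊w * J⌋₊ := ⟨_, rfl⟩
  obtain ⟨Q, hQ⟩ : ∃ Q : ℕ, Q = ⌊q * J⌋₊ := ⟨_, rfl⟩
  rw [← hW, ← hQ] at H
  rw [← hW] at hrow ⊢
  obtain ⟨p, hp⟩ : ∃ p : F.Ω → ℝ, p = Pool.Agent.H49.Ent.cond F.p A True := ⟨_, rfl⟩
  have hpl : IsLaw p := by
    rw [hp]
    exact isLaw_cond F.isLaw hA
  have h0 := hpl.nonneg
  have hpA : ∀ ω, 0 < p ω → A ω := fun ω hω => by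
    rw [hp] at hω
    exact of_cond_pos hω
  have hctx := H.ctx hA
  rw [← hp] at hctx hT ⊢
  -- one number
  obtain ⟨lg, hlg⟩ : ∃ lg : ℝ, lg = Real.log (C * (K + 1)) := ⟨_, rfl⟩
  have hC0 : (0 : ℝ) ≤ C := Nat.cast_nonneg C
  have hC1 : (1 : ℝ) ≤ C := by linarith
  have hlg0 : 0 ≤ lg := by
    rw [hlg]
    refine Real.log_nonneg ?_
    nlinarith
  have hlg1 : Real.log (2 * ((2 * K : ℕ) + 1) + 1) ≤ lg := by
    rw [hlg]
    refine Real.log_le_log (by positivity) ?_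
    push_cast
    nlinarith
  obtain ⟨K₂, hK₂⟩ : ∃ K₂ : ℕ, K₂ = ⌈C₂ * K⌉₊ := ⟨_, rfl⟩
  have hK2a : C₂ * K ≤ K₂ := by
    rw [hK₂]
    exact Nat.le_ceil _
  have hK2b : (K₂ : ℝ) ≤ C₂ * K + 1 := by
    rw [hK₂]
    exact (Nat.ceil_lt_add_one (by positivity)).le
  have hlg2 : Real.log (2 * ((K₂ + 1 : ℕ) : ℝ) + 1) ≤ lg := by
    rw [hlg]
    refine Real.log_le_log (by positivity) ?_
    push_cast
    nlinarith
  obtain ⟨cs, hcs⟩ : ∃ cs : F.Ω → CxT F κ r D, cs = fun ω => d.cx (slam F W ω) :=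
    ⟨_, rfl⟩
  obtain ⟨R, hRe⟩ : ∃ R : LnT F → Polynomial ℝ, R = fun s => Polynomial.C σ *
      d.hL W A s := ⟨_, rfl⟩
  have hRdeg : ∀ x, (R x).natDegree ≤ D + 1 := fun x => by
    rw [hRe]
    exact (Polynomial.natDegree_C_mul_le _ _).trans (d.natDegree_hL A x)
  have hc1 : CH p cs Y ≤ (r * (D + 3)) * lg := by
    rw [hcs]
    refine hctx.trans (mul_le_mul_of_nonneg_left hlg1 (by positivity))
  -- the pairs
  have hpair : ∀ ω ω', A ω → A ω' → Y ω = Y ω' → cs ω = cs ω' → ∃ f : Polynomial ℝ,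
      f = R (slam F W ω') - R (slam F W ω) ∧ f.natDegree ≤ D + 1 ∧
      |f.eval (uw F W ω)| ≤ K * (1 + r * (D + 1) ^ 2) ∧
      |f.derivative.eval (uw F W ω)| ≤ K * (1 + r * (D + 1) ^ 2) ∧
      (∀ j, 3 ≤ j → |f.coeff j| ≤ r * (2 * K)) ∧ |f.coeff 2| ≤ K * 2 ^ Q := by
    intro ω ω' hω hω' hY e
    obtain ⟨ω₀, g1, g2, g3⟩ := d.rfo_spec (W := W) hω
    rw [hcs] at e
    dsimp only at e
    have e1 : R (slam F W ω) = Polynomial.C σ * d.hR W ω₀ (slam F W ω) := by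
      rw [hRe]
      dsimp only
      unfold Dat.hL
      rw [g1]
      rfl
    have e2 : R (slam F W ω') = Polynomial.C σ * d.hR W ω₀ (slam F W ω') := by
      rw [hRe]
      dsimp only
      unfold Dat.hL
      rw [← e, g1]
      rfl
    refine ⟨_, rfl, (Polynomial.natDegree_sub_le _ _).trans (max_le (hRdeg _) (hRdeg _)), ?_⟩
    obtain ⟨p1, p2⟩ := H.pair hω hω' hY g3
    have p3 := H.coef g2 e
    have p4 := H.nat ω₀ ω ω' g2 hω hω' hY g3 e
    rw [e1, e2, ← mul_sub]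
    refine ⟨?_, ?_, fun j hj => ?_, ?_⟩
    · rw [Polynomial.eval_mul, Polynomial.eval_C, Polynomial.eval_sub, abs_mul, abs_of_nonneg hσ]
      exact p1
    · rw [Polynomial.derivative_C_mul, Polynomial.eval_mul, Polynomial.eval_C,
        Polynomial.derivative_sub, Polynomial.eval_sub, abs_mul, abs_of_nonneg hσ]
      exact p2
    · rw [Polynomial.coeff_C_mul, Polynomial.coeff_sub, abs_mul, abs_of_nonneg hσ]
      exact p3 j hj
    · rw [Polynomial.coeff_C_mul, Polynomial.coeff_sub, abs_mul, abs_of_nonneg hσ, hR_two,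
        abs_neg]
      exact p4
  have hCr : (1 + (r : ℝ) * (D + 1) ^ 2) ≤ C₂ := by
    rw [hC₂]
    have : 0 ≤ C₁ * ((r : ℝ) * 2 + 1) := by positivity
    linarith
  have hCd : C₁ * ((r : ℝ) * 2 + 1) ≤ C₂ := by
    rw [hC₂]
    have : 0 ≤ (r : ℝ) * (D + 1) ^ 2 := by positivity
    linarith
  have hKK : ∀ x : ℝ, x ≤ C₂ * K → x ≤ K₂ := fun x hx => hx.trans hK2a
  -- the jets
  have hjet : ∀ j, j ≠ 2 → CH p (fun ω => ⌊pj F R W j ω⌋) Y ≤ (r * (D + 3) + 1) * lg := by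
    intro j hj
    have s1 := CH_step h0 (fun ω => ⌊pj F R W j ω⌋) cs Y
    have s2 : CH p (fun ω => ⌊pj F R W j ω⌋) (fun ω => (cs ω, Y ω)) ≤ lg := by
      refine le_trans (CH_pair hpl _ _ (D := K₂ + 1) fun ω ω' hω hω' e => ?_) hlg2
      obtain ⟨e1, e2⟩ := Prod.ext_iff.mp e
      dsimp only at e1 e2
      obtain ⟨f, f0, f1, f2, f3, f4, f5⟩ := hpair ω ω' (hpA ω hω) (hpA ω' hω') e2 e1
      refine floor_sub_le ?_
      have hT' := uw_eq (W := W) (H.TZ ω ω' (hpA ω hω) (hpA ω' hω') e2).1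
      have e3 : pj F R W j ω - pj F R W j ω' =
          -((Polynomial.derivative^[j] f).eval (uw F W ω)) := by
        unfold pj
        rw [f0, ← hT', Polynomial.iterate_derivative_sub, Polynomial.eval_sub]
        ring
      rw [e3, abs_neg]
      by_cases hj3 : 3 ≤ j
      · refine (Hder f j _ _ f1 (uw_abs F W ω) fun i hi => f4 i (hj3.trans hi)).trans ?_
        refine hKK _ ?_
        calc C₁ * (r * (2 * K)) = (C₁ * (r * 2)) * K := by ring
          _ ≤ (C₁ * (r * 2 + 1)) * K := by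
              refine mul_le_mul_of_nonneg_right ?_ hK0
              exact mul_le_mul_of_nonneg_left (by linarith) (by linarith)
          _ ≤ C₂ * K := mul_le_mul_of_nonneg_right hCd hK0
      · have : j = 0 ∨ j = 1 := by omega
        rcases this with rfl | rfl
        · rw [Function.iterate_zero, id]
          refine f2.trans (hKK _ ?_)
          rw [mul_comm]
          exact mul_le_mul_of_nonneg_right hCr hK0
        · rw [Function.iterate_one]
          refine f3.trans (hKK _ ?_)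
          rw [mul_comm]
          exact mul_le_mul_of_nonneg_right hCr hK0
    nlinarith [s1, s2, hc1]
  have hjk : CH p (fun ω => ⌊pj F R W 2 ω / 2 ^ Q⌋) Y ≤ (r * (D + 3) + 1) * lg := by
    have s1 := CH_step h0 (fun ω => ⌊pj F R W 2 ω / 2 ^ Q⌋) cs Y
    have s2 : CH p (fun ω => ⌊pj F R W 2 ω / 2 ^ Q⌋) (fun ω => (cs ω, Y ω)) ≤ lg := by
      refine le_trans (CH_pair hpl _ _ (D := K₂ + 1) fun ω ω' hω hω' e => ?_) hlg2
      obtain ⟨e1, e2⟩ := Prod.ext_iff.mp e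
      dsimp only at e1 e2
      obtain ⟨f, f0, f1, f2, f3, f4, f5⟩ := hpair ω ω' (hpA ω hω) (hpA ω' hω') e2 e1
      refine floor_sub_le ?_
      have hT' := uw_eq (W := W) (H.TZ ω ω' (hpA ω hω) (hpA ω' hω') e2).1
      have e3 : pj F R W 2 ω / 2 ^ Q - pj F R W 2 ω' / 2 ^ Q =
          -((Polynomial.derivative^[2] f).eval (uw F W ω)) / 2 ^ Q := by
        unfold pj
        rw [f0, ← hT', Polynomial.iterate_derivative_sub, Polynomial.eval_sub]
        ring
      have h2Q : (0 : ℝ) < 2 ^ Q := by positivity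
      rw [e3, abs_div, abs_neg, abs_of_pos h2Q, div_le_iff₀ h2Q]
      have f6 : ∀ i, 2 ≤ i → |f.coeff i| ≤ (r * 2 + 1) * (K * 2 ^ Q) := by
        intro i hi
        have h4 : (K : ℝ) ≤ K * 2 ^ Q :=
          le_mul_of_one_le_right hK0 (one_le_pow₀ (by norm_num))
        rcases hi.lt_or_eq with h3 | h3
        · refine (f4 i h3).trans ?_
          have h5 : (r : ℝ) * (2 * K) ≤ (r * 2) * (K * 2 ^ Q) := by
            rw [← mul_assoc]
            exact mul_le_mul_of_nonneg_left h4 (by positivity)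
          linarith
        · rw [← h3]
          have h5 : 0 ≤ ((r : ℝ) * 2) * (K * 2 ^ Q) := by positivity
          linarith
      refine (Hder f 2 _ _ f1 (uw_abs F W ω) f6).trans ?_
      have h5 : C₁ * ((r * 2 + 1) * (K * 2 ^ Q)) = ((C₁ * (r * 2 + 1)) * K) * 2 ^ Q := by ring
      rw [h5]
      exact mul_le_mul_of_nonneg_right
        (hKK _ (mul_le_mul_of_nonneg_right hCd hK0)) h2Q.le
    nlinarith [s1, s2, hc1]
  -- the errors
  have hCl : (D + 3) * ((r * (D + 3) + 1) * lg) ≤ δ * q * J := by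
    refine le_trans ?_ hK
    rw [← hlg, ← mul_assoc]
    exact mul_le_mul_of_nonneg_right hCa hlg0
  have hrl : 0 ≤ ((r : ℝ) * (D + 3) + 1) * lg := by positivity
  rcases Nat.eq_zero_or_pos J with hJz | hJpos
  · -- no digits
    have hz : C * lg ≤ 0 := by
      rw [hlg]
      refine hK.trans (le_of_eq ?_)
      rw [hJz]
      simp
    exfalso
    have h5 : 0 < lg := by
      rw [hlg]
      refine Real.log_pos ?_
      nlinarith
    nlinarith
  have hJp : (0 : ℝ) < J := by exact_mod_cast hJpos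
  obtain ⟨er, her⟩ : ∃ er : ℕ → ℝ, er = fun _ => ((r * (D + 3) + 1) * lg) / J := ⟨_, rfl⟩
  have her1 : ∀ j, er j * J = (r * (D + 3) + 1) * lg := fun j => by
    rw [her]
    field_simp
  have hsum : ∑ j ∈ range (D + 1 + 1), er j ≤ δ * q := by
    rw [her, Finset.sum_const, Finset.card_range, nsmul_eq_mul, ← mul_div_assoc,
      div_le_iff₀ hJp]
    refine le_trans ?_ hCl
    refine mul_le_mul_of_nonneg_right ?_ hrl
    push_cast
    linarith
  have hfin := HJ J hJ0 F A hA R (fun s => d.cx s) Y er hRdeg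
    (by rw [← hp]; exact hT) (fun ω ω' hω hω' e => ⟨(H.TZ ω ω' hω hω' e).1, (H.TZ ω ω' hω hω' e).2.1⟩)
    (by
      rw [← hp, ← hW]
      have := hc1
      rw [hcs] at this
      refine this.trans (le_trans ?_ hCl)
      nlinarith [hlg0, mul_nonneg (mul_nonneg hr0 hD0) hlg0, mul_nonneg hr0 hlg0,
        mul_nonneg hD0 hlg0, mul_nonneg (mul_nonneg hD0 (mul_nonneg hr0 hD0)) hlg0]) hsum
    (fun j _ hj2 => by
      rw [← hp, ← hW, her1]
      exact hjet j hj2)
    (by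
      rw [← hp, ← hW, ← hQ, her1]
      exact hjk)
    (fun B hB hBc i hi => by
      have h1 := hrow B hB hBc i hi
      have e : ∀ ω, pj F R W 0 ω = σ * (d.hL W A (slam F W ω)).eval
          (uw F W ω) := fun ω => by
        unfold pj
        rw [hRe, Function.iterate_zero, id]
        dsimp only
        rw [Polynomial.eval_mul, Polynomial.eval_C]
      rw [← hW]
      simp only [e]
      exact h1)
  rw [← hp, ← hW] at hfin
  -- the number from the coefficient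
  obtain ⟨Xf, hXf⟩ : ∃ Xf : F.Ω → CxT F κ r D × (Fin (D + 1 + 1) → ℤ), Xf = fun ω =>
      (d.cx (slam F W ω), fun j : Fin (D + 1 + 1) =>
        ⌊(R (slam F W ω)).coeff j⌋) := ⟨_, rfl⟩
  rw [← hXf] at hfin
  have s1 := CH_step h0 (fun ω => (d.cx (slam F W ω),
        ⌊σ * d.nb W A (slam F W ω)⌋)) Xf Y
  have s2 : CH p (fun ω => (d.cx (slam F W ω),
        ⌊σ * d.nb W A (slam F W ω)⌋)) (fun ω => (Xf ω, Y ω)) ≤
      Real.log 5 := by
    have t1 : CH p (fun ω => (d.cx (slam F W ω),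
        ⌊σ * d.nb W A (slam F W ω)⌋)) (fun ω => (Xf ω, Y ω)) ≤
        CH p (fun ω => ⌊σ * d.nb W A (slam F W ω)⌋)
          (fun ω => (Xf ω, Y ω)) := by
      refine CH_mono_left h0 fun ω ω' _ _ e => ?_
      simp only [Prod.mk.injEq] at e ⊢
      refine ⟨?_, e.1⟩
      have := e.2.1
      rw [hXf] at this
      exact (Prod.ext_iff.mp this).1
    refine t1.trans ?_
    have e5 : (5 : ℝ) = 2 * ((2 : ℕ) : ℝ) + 1 := by norm_num
    rw [e5]
    refine CH_pair hpl _ _ fun ω ω' hω hω' e => ?_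
    have e1 : Xf ω = Xf ω' := (Prod.ext_iff.mp e).1
    rw [hXf] at e1
    simp only [Prod.mk.injEq] at e1
    obtain ⟨e2, e3⟩ := e1
    have e4 := congrFun e3 ⟨2, by omega⟩
    dsimp only at e4
    obtain ⟨ω₀, g1, g2, g3⟩ := d.rfo_spec (W := W) (hpA ω hω)
    have k1 : ∀ ν : F.Ω, d.cx (slam F W ν) =
        d.cx (slam F W ω) → (R (slam F W ν)).coeff 2 =
        -(σ * d.nb W A (slam F W ν)) + σ * num r
          (fun l => d.P l (slam F W ω₀)) (fun l => d.gp l (slam F W ω₀)) := by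
      intro ν hν
      rw [hRe]
      dsimp only
      rw [Polynomial.coeff_C_mul]
      unfold Dat.hL Dat.nb
      rw [hν, g1]
      change σ * (d.hR W ω₀ (slam F W ν)).coeff 2 = -(σ * num r
        (fun l => d.P l (slam F W ν)) (fun l => d.gp l (slam F W ω₀))) + _
      unfold Dat.hR
      rw [hgt_two (d.P1 _ _) (d.P1 _ _)
        (fun _ => d.P1 _ _) (fun _ => d.P1 _ _)]
      ring
    have k2 := k1 ω rfl
    have k3 := k1 ω' e2.symm
    rw [k2, k3] at e4
    have k4 := of_floor_mul (t := 1) (a := -(σ * d.nb W A (slam F W ω)) +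
      σ * num r (fun l => d.P l (slam F W ω₀)) (fun l => d.gp l (slam F W ω₀)))
      (b := -(σ * d.nb W A (slam F W ω')) +
      σ * num r (fun l => d.P l (slam F W ω₀)) (fun l => d.gp l (slam F W ω₀)))
      one_pos (by rw [one_mul, one_mul]; exact e4)
    refine floor_sub_le (D := 1) ?_
    rw [abs_le] at k4 ⊢
    push_cast
    constructor <;> linarith [k4.1, k4.2]
  have hl5 : Real.log 5 ≤ ε / 2 * q * J := by
    have h1 : Real.log 5 / (ε / 2 * q) ≤ J := hJ₁.trans hJ1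
    rw [div_le_iff₀ (by positivity)] at h1
    linarith
  linarith [s1, s2, hfin, hl5]

end law

end Pool.D2F2
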