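import Pool.Agent.H28.D2.FrR

/-!
# The hop with the rows: one law

`HopG.mk1`: the geometric data from sizes. `hop_rows`: the hop, where the rows are given by the
rows of the target and by the fullness of the digits of the other coordinates given a record.
-/

set_option autoImplicit false

namespace Pool.D2F2

open Finset Real MvPolynomial
open Pool.Agent.H49.Ent Pool.Agent.H32.Dense Pool.STK Pool.KA Pool.KSAT Pool.K2S Pool.PB Pool.GEN
open Pool.S6C Pool.LA91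
open Pool.OWN68 (opl tw uw CH_pair CH_pis natDegree_opl opl_jet uw_abs tw_abs floor_sub_le
  of_floor_div nf_swap CH_le_Hu)
open Pool.GEN.N83 (oth)
open Pool.D2H (of_floor_mul eval_small uw_eq CH_step Vdg H_Vdg num)

variable {m J : ℕ}

/-- Larger constants. -/
theorem HopP.wk {F : Fam m J} {κ : Type} {r D : ℕ} {d : Dat F κ r D} {A : F.Ω → Prop} {W : ℕ}
    {σ : ℝ} {K K' : ℕ} {γ : Type} {Y : F.Ω → γ} (H : HopP d A W σ K Y) (hK : K ≤ K') :
    HopP d A W σ K' Y := by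
  have hKR : (K : ℝ) ≤ K' := by exact_mod_cast hK
  exact
    { hW := H.hW
      SV0 := H.SV0
      SG0 := H.SG0
      SVE := H.SVE
      σ0 := H.σ0
      σG := H.σG
      TZ := H.TZ
      pos := fun ω ω' h h' e l hl => (H.pos ω ω' h h' e l hl).trans hKR
      vel := fun ω ω' h h' e l hl => (H.vel ω ω' h h' e l hl).trans hKR
      grd := fun ω ω' h h' e l hl j hj => (H.grd ω ω' h h' e l hl j hj).trans hKR
      hei := fun ω ω' h h' e => (H.hei ω ω' h h' e).trans hKR }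

/-- **The geometric data of the hop from the sizes of the gradients.** -/
theorem HopG.mk1 {F : Fam m J} {κ : Type} {r D : ℕ} {d : Dat F κ r D} {A : F.Ω → Prop} {W Q : ℕ}
    {σ : ℝ} {K : ℕ} {γ : Type} {Y : F.Ω → γ} (H : HopP d A W σ K Y) (hK : 1 ≤ K)
    (s1 : ∀ ω, A ω → ∀ l < r, σ * |(d.gp l (slam F W ω)).coeff 1| ≤ K * 2 ^ Q * d.SE l)
    (s2 : ∀ ω, A ω → ∀ l < r, σ * |(d.gp l (slam F W ω)).coeff 2| ≤ K * 2 ^ Q * d.SV l)
    (s3 : ∀ ω, A ω → ∀ l < r, ∀ j, 2 ≤ j → σ * |(d.gp l (slam F W ω)).coeff (j + 1)| ≤ K * d.SV l ∧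
      σ * |(d.gp l (slam F W ω)).coeff j| ≤ K * d.SE l)
    (hvl : ∀ ω ω', A ω → A ω' → Y ω = Y ω' →
      σ * |(d.e W r ω' - d.e W r ω) - ∑ l ∈ range r,
        ((d.gp l (slam F W ω)).derivative.eval (uw F W ω) * (d.v W l ω' - d.v W l ω) +
          (d.gp l (slam F W ω)).eval (uw F W ω) * (d.e W l ω' - d.e W l ω))| ≤ K) :
    HopG d A W Q σ ((3 * r + 1) * K ^ 2) Y := by
  have hKK : K ≤ (3 * r + 1) * K ^ 2 := by
    have h1 : K ≤ K ^ 2 := by nlinarith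
    have h2 : K ^ 2 ≤ (3 * r + 1) * K ^ 2 := Nat.le_mul_of_pos_left _ (by omega)
    omega
  have hKR : (K : ℝ) ≤ (((3 * r + 1) * K ^ 2 : ℕ) : ℝ) := by exact_mod_cast hKK
  have hK0 : (0 : ℝ) ≤ K := Nat.cast_nonneg K
  refine { H.wk hKK with big := ?_, nat := ?_, hvl := ?_ }
  · intro ω hω l hl j hj
    obtain ⟨h1, h2⟩ := s3 ω hω l hl j hj
    have h3 := H.SV0 l hl
    have h4 : 0 < d.SE l := lt_of_lt_of_le h3 (H.SVE l hl)
    exact ⟨h1.trans (mul_le_mul_of_nonneg_right hKR h3.le),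
      h2.trans (mul_le_mul_of_nonneg_right hKR h4.le)⟩
  · intro ω₀ ω ω' h₀ hω hω' hY e₀ e
    have hT := (H.TZ ω ω' hω hω' hY).1
    have hu := uw_abs F W ω
    have e1 : num r (fun l => d.P l (slam F W ω')) (fun l => d.gp l (slam F W ω₀)) -
        num r (fun l => d.P l (slam F W ω)) (fun l => d.gp l (slam F W ω₀)) =
        ∑ l ∈ range r, ((d.gp l (slam F W ω₀)).coeff 2 *
          ((d.P l (slam F W ω')).coeff 0 - (d.P l (slam F W ω)).coeff 0) +
          (d.gp l (slam F W ω₀)).coeff 1 *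
          ((d.P l (slam F W ω')).coeff 1 - (d.P l (slam F W ω)).coeff 1)) := by
      unfold num
      rw [← Finset.sum_sub_distrib]
      exact Finset.sum_congr rfl fun l _ => by ring
    rw [e1]
    have hσ := H.σ0
    refine (mul_le_mul_of_nonneg_left (Finset.abs_sum_le_sum_abs _ _) hσ).trans ?_
    rw [Finset.mul_sum]
    refine (Finset.sum_le_sum (g := fun _ => 3 * ((K : ℝ) ^ 2 * 2 ^ Q)) fun l hl => ?_).trans ?_
    · have hl' := Finset.mem_range.1 hl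
      have p1 := H.pos ω ω' hω hω' hY l hl'
      have p2 := H.vel ω ω' hω hω' hY l hl'
      have q1 := s1 ω₀ h₀ l hl'
      have q2 := s2 ω₀ h₀ l hl'
      have h3 := H.SV0 l hl'
      have h4 : 0 < d.SE l := lt_of_lt_of_le h3 (H.SVE l hl')
      have a1 : |(d.P l (slam F W ω')).coeff 1 - (d.P l (slam F W ω)).coeff 1| ≤ K / d.SE l := by
        rw [le_div_iff₀ h4, abs_sub_comm, mul_comm]
        exact p2
      have a2 : |(d.P l (slam F W ω')).coeff 0 - (d.P l (slam F W ω)).coeff 0| ≤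
          2 * (K / d.SV l) := by
        rw [d.zero, d.zero l ω, ← uw_eq hT]
        have b1 : d.v W l ω' - d.e W l ω' * uw F W ω - (d.v W l ω - d.e W l ω * uw F W ω) =
            (d.v W l ω' - d.v W l ω) - (d.e W l ω' - d.e W l ω) * uw F W ω := by ring
        rw [b1]
        refine (abs_sub _ _).trans ?_
        rw [abs_mul]
        have b2 : |d.v W l ω' - d.v W l ω| ≤ K / d.SV l := by
          rw [le_div_iff₀ h3, abs_sub_comm, mul_comm]
          exact p1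
        have b3 : |d.e W l ω' - d.e W l ω| * |uw F W ω| ≤ K / d.SV l := by
          have b4 : |d.e W l ω' - d.e W l ω| ≤ K / d.SE l := a1
          calc _ ≤ (K / d.SE l) * 1 := mul_le_mul b4 hu (abs_nonneg _) (by positivity)
            _ = K / d.SE l := mul_one _
            _ ≤ K / d.SV l := div_le_div_of_nonneg_left hK0 h3 (H.SVE l hl')
        linarith
      refine (mul_le_mul_of_nonneg_left (abs_add_le _ _) hσ).trans ?_
      rw [mul_add, abs_mul, abs_mul, ← mul_assoc, ← mul_assoc]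
      have c1 : σ * |(d.gp l (slam F W ω₀)).coeff 2| *
          |(d.P l (slam F W ω')).coeff 0 - (d.P l (slam F W ω)).coeff 0| ≤
          2 * ((K : ℝ) ^ 2 * 2 ^ Q) := by
        calc _ ≤ (K * 2 ^ Q * d.SV l) * (2 * (K / d.SV l)) :=
              mul_le_mul q2 a2 (abs_nonneg _) (by positivity)
          _ = 2 * ((K : ℝ) ^ 2 * 2 ^ Q) := by field_simp
      have c2 : σ * |(d.gp l (slam F W ω₀)).coeff 1| *
          |(d.P l (slam F W ω')).coeff 1 - (d.P l (slam F W ω)).coeff 1| ≤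
          (K : ℝ) ^ 2 * 2 ^ Q := by
        calc _ ≤ (K * 2 ^ Q * d.SE l) * (K / d.SE l) :=
              mul_le_mul q1 a1 (abs_nonneg _) (by positivity)
          _ = (K : ℝ) ^ 2 * 2 ^ Q := by field_simp
      linarith
    · rw [Finset.sum_const, Finset.card_range, nsmul_eq_mul]
      push_cast
      have : (0 : ℝ) ≤ (K : ℝ) ^ 2 * 2 ^ Q := by positivity
      nlinarith
  · intro ω ω' hω hω' hY
    exact (hvl ω ω' hω hω' hY).trans hKR

/-- **The hop with the rows: one law.** -/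
theorem hop_rows {h : ℝ} (hh : 0 < h) (hh1 : h ≤ 1) {ε : ℝ} (hε : 0 < ε) :
    ∃ δ : ℝ, 0 < δ ∧ ∃ c₀ : ℝ, 0 < c₀ ∧ ∀ (r D : ℕ), 1 ≤ D →
    ∃ C : ℕ, ∀ {w q : ℝ} (_ : 0 ≤ w) (_ : 0 < q) (_ : w + q ≤ 1),
    ∃ J₀ : ℕ, ∀ J ≥ J₀, ∀ {m : ℕ} (F : Fam m J) (A : F.Ω → Prop) (_ : 0 < Pe F.p A)
      {κ : Type} (d : Dat F κ r D) {c : ℕ → Fin m} {v : ℕ → ℕ} {n₂ E₀ K K₁ : ℕ} {γ : Type}
      {Y : F.Ω → γ},
    HopG d A ⌊w * J⌋₊ ⌊q * J⌋₊ (2 ^ n₂) K Y → FrD d A ⌊w * J⌋₊ c E₀ →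
    (∀ l < r, v l ≤ J) → (∀ l < r, d.SV l = 2 ^ v l) → (∀ l < r, c l ≠ c r) →
    (∀ j, j ≠ c r → ∃ l < r, c l = j) →
    (∀ ω, A ω → ∀ l < r, ∀ j ≤ D,
      (2 : ℝ) ^ n₂ * |(d.gp l (slam F ⌊w * J⌋₊ ω)).coeff j| ≤ K₁ * 2 ^ J) →
    n₂ ≤ J → q * J ≤ n₂ → C * Real.log (C * ((K + 1) * (E₀ + 1) * (K₁ + 1))) ≤ δ * q * J →
    (J : ℝ) * Real.log 2 - δ * q * J ≤
      CH (Pool.Agent.H49.Ent.cond F.p A True) F.T (fun ω => (F.l ω, F.Z ω)) →
    (∀ B : F.Ω → Prop, Sub B A → c₀ * Pe F.p A ≤ Pe F.p B →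
      (∀ n₁ ≤ n₂, (n₂ : ℝ) - n₁ ≤ q * J + 1 →
        CH (Pool.Agent.H49.Ent.cond F.p B True) (fun ω => F.X n₂ ω (c r))
          (fun ω => (F.X n₁ ω (c r), oth (c r) J F (ptr F J ω))) ≤
          (1 - h) * ((n₂ : ℝ) - n₁) * Real.log 2 + δ * q * J) ∧
      ∃ (γ' : Type) (G : F.Ω → γ'), HopP d B ⌊w * J⌋₊ (2 ^ n₂) K G ∧
        ∑ l ∈ range r, ((J - v l : ℕ) : ℝ) * Real.log 2 - δ * q * J ≤
          CH (Pool.Agent.H49.Ent.cond F.p B True) (Vdg F c r v) G) →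
    CH (Pool.Agent.H49.Ent.cond F.p A True)
      (fun ω => (d.cx (slam F ⌊w * J⌋₊ ω), ⌊(2 : ℝ) ^ n₂ * d.nb ⌊w * J⌋₊ A (slam F ⌊w * J⌋₊ ω)⌋))
      Y ≤ ε * q * J := by
  obtain ⟨δ, hδ, c₀, hc₀, N₀, hN₀, Hp⟩ := hop_law hh hh1 hε
  refine ⟨min δ (δ / 5), lt_min hδ (by linarith), c₀, hc₀, ?_⟩
  have hδ5 : min δ (δ / 5) ≤ δ / 5 := min_le_right _ _
  have hδ1 : min δ (δ / 5) ≤ δ := min_le_left _ _
  intro r D hD
  obtain ⟨C₁, HC₁⟩ := Hp r D hD
  have hr0 : (0 : ℝ) ≤ r := Nat.cast_nonneg r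
  have hD0 : (0 : ℝ) ≤ D := Nat.cast_nonneg D
  -- the constant
  have hC₁0 : (0 : ℝ) ≤ C₁ := Nat.cast_nonneg _
  obtain ⟨C, hC⟩ := exists_nat_ge (max ((C₁ : ℝ) + (r + 4 + r * (D + 3))) (max (4 * (3 + (r : ℝ)))
    (max (2 * (r : ℝ) + 2 * r * (D + 1) * (r + 1) + 5) (2 * (1 + (r : ℝ) * (D + 1) ^ 2) + 3))))
  have hCa : (C₁ : ℝ) + (r + 4 + r * (D + 3)) ≤ C := (le_max_left _ _).trans hC
  have hCb : 4 * (3 + (r : ℝ)) ≤ C :=
    ((le_max_left _ _).trans (le_max_right _ _)).trans hC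
  have hCc : 2 * (r : ℝ) + 2 * r * (D + 1) * (r + 1) + 5 ≤ C :=
    ((le_max_left _ _).trans ((le_max_right _ _).trans (le_max_right _ _))).trans hC
  have hCd : 2 * (1 + (r : ℝ) * (D + 1) ^ 2) + 3 ≤ C :=
    ((le_max_right _ _).trans ((le_max_right _ _).trans (le_max_right _ _))).trans hC
  refine ⟨C, ?_⟩
  intro w q hw hq hwq
  obtain ⟨J₀, HJ⟩ := HC₁ hw hq hwq
  obtain ⟨J₁, hJ₁⟩ := exists_nat_ge (Real.log 2 / (δ / 5 * q))
  refine ⟨max J₀ J₁, ?_⟩
  intro J hJ m F A hA κ d c v n₂ E₀ K K₁ γ Y H hF hv hSV hcr hc hlip hn2 hqn hlog hT hrow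
  have hJ0 : J₀ ≤ J := (le_max_left _ _).trans hJ
  have hJ1 : (J₁ : ℝ) ≤ J := by exact_mod_cast (le_max_right _ _).trans hJ
  have hJr : (0 : ℝ) ≤ J := Nat.cast_nonneg J
  have hl2 : 0 < Real.log 2 := Real.log_pos (by norm_num)
  have hqJ : 0 ≤ q * J := mul_nonneg hq.le hJr
  have hJ2 : Real.log 2 ≤ δ / 5 * q * J := by
    have h1 : Real.log 2 / (δ / 5 * q) ≤ J := hJ₁.trans hJ1
    rw [div_le_iff₀ (by positivity)] at h1
    linarith
  have hK0 : (0 : ℝ) ≤ K := Nat.cast_nonneg K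
  have hE0 : (0 : ℝ) ≤ E₀ := Nat.cast_nonneg E₀
  have hK1 : (0 : ℝ) ≤ K₁ := Nat.cast_nonneg K₁
  obtain ⟨X, hX⟩ : ∃ X : ℝ, X = ((K : ℝ) + 1) * (E₀ + 1) * (K₁ + 1) := ⟨_, rfl⟩
  have hX1 : 1 ≤ X := by
    rw [hX]
    have h1 : 1 ≤ ((K : ℝ) + 1) * (E₀ + 1) := by nlinarith
    nlinarith
  have hXK : (K : ℝ) + 1 ≤ X := by
    rw [hX]
    have h1 : (K : ℝ) + 1 ≤ (K + 1) * (E₀ + 1) := le_mul_of_one_le_right (by linarith) (by linarith)
    exact h1.trans (le_mul_of_one_le_right (by positivity) (by linarith))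
  have hXE : (E₀ : ℝ) + 1 ≤ X := by
    rw [hX]
    have h1 : (E₀ : ℝ) + 1 ≤ (K + 1) * (E₀ + 1) := le_mul_of_one_le_left (by linarith) (by linarith)
    exact h1.trans (le_mul_of_one_le_right (by positivity) (by linarith))
  have hXEK : ((E₀ : ℝ) + 1) * (K₁ + 1) ≤ X := by
    rw [hX]
    exact mul_le_mul_of_nonneg_right (le_mul_of_one_le_left (by linarith) (by linarith))
      (by linarith)
  rw [← hX] at hlog
  obtain ⟨lg, hlg⟩ : ∃ lg : ℝ, lg = Real.log (C * X) := ⟨_, rfl⟩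
  have hC1 : (1 : ℝ) ≤ C := by linarith
  have hlg0 : 0 ≤ lg := by
    rw [hlg]
    exact Real.log_nonneg (by nlinarith)
  rw [← hlg] at hlog
  -- the logarithms
  have l1 : Real.log (2 * (3 + r * E₀ : ℕ) + 1) ≤ lg := by
    rw [hlg]
    refine Real.log_le_log (by positivity) ?_
    push_cast
    have a1 : 2 * (3 + (r : ℝ) * E₀) + 1 ≤ (4 * (3 + r)) * X := by
      have : (r : ℝ) * E₀ ≤ r * X := mul_le_mul_of_nonneg_left (by linarith) hr0
      nlinarith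
    exact a1.trans (mul_le_mul_of_nonneg_right hCb (by linarith))
  have l2 : Real.log (2 * (r * E₀ + r * ((D + 1) * K₁ * (1 + r * E₀)) + 2 : ℕ) + 1) ≤ lg := by
    rw [hlg]
    refine Real.log_le_log (by positivity) ?_
    push_cast
    have a0 : (1 : ℝ) + r * E₀ ≤ (r + 1) * (E₀ + 1) := by nlinarith [mul_nonneg hr0 hE0]
    have a1 : (K₁ : ℝ) * (1 + r * E₀) ≤ (r + 1) * X := by
      calc (K₁ : ℝ) * (1 + r * E₀) ≤ (K₁ + 1) * ((r + 1) * (E₀ + 1)) :=
            mul_le_mul (by linarith) a0 (by positivity) (by positivity)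
        _ = (r + 1) * ((E₀ + 1) * (K₁ + 1)) := by ring
        _ ≤ (r + 1) * X := mul_le_mul_of_nonneg_left hXEK (by linarith)
    have a2 : (r : ℝ) * ((D + 1) * K₁ * (1 + r * E₀)) ≤ r * ((D + 1) * ((r + 1) * X)) := by
      refine mul_le_mul_of_nonneg_left ?_ hr0
      rw [mul_assoc]
      exact mul_le_mul_of_nonneg_left a1 (by linarith)
    have a3 : (r : ℝ) * E₀ ≤ r * X := mul_le_mul_of_nonneg_left (by linarith) hr0
    have a4 : 2 * ((r : ℝ) * E₀ + r * ((D + 1) * K₁ * (1 + r * E₀)) + 2) + 1 ≤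
        (2 * r + 2 * r * (D + 1) * (r + 1) + 5) * X := by nlinarith
    exact a4.trans (mul_le_mul_of_nonneg_right hCc (by linarith))
  have l3 : Real.log (2 * ((2 * K : ℕ) + 1) + 1) ≤ lg := by
    rw [hlg]
    refine Real.log_le_log (by positivity) ?_
    push_cast
    have a1 : 2 * (2 * (K : ℝ) + 1) + 1 ≤ 4 * X := by linarith
    exact a1.trans (mul_le_mul_of_nonneg_right (by linarith) (by linarith))
  have l4 : Real.log (2 * (K * (1 + r * (D + 1) ^ 2) + 1 : ℕ) + 1) ≤ lg := by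
    rw [hlg]
    refine Real.log_le_log (by positivity) ?_
    push_cast
    have a0 : (K : ℝ) * (1 + r * (D + 1) ^ 2) ≤ X * (1 + r * (D + 1) ^ 2) :=
      mul_le_mul_of_nonneg_right (by linarith) (by positivity)
    have a1 : 2 * ((K : ℝ) * (1 + r * (D + 1) ^ 2) + 1) + 1 ≤
        (2 * (1 + r * (D + 1) ^ 2) + 3) * X := by linarith
    exact a1.trans (mul_le_mul_of_nonneg_right hCd (by linarith))
  have hqJ0 : δ / 5 * q * J = δ / 5 * (q * J) := by ring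
  have hm : min δ (δ / 5) * q * J ≤ δ / 5 * q * J := by
    rw [mul_assoc, mul_assoc]
    exact mul_le_mul_of_nonneg_right hδ5 hqJ
  have hCl : (C : ℝ) * lg ≤ δ / 5 * q * J := hlog.trans hm
  have hCr : ((r : ℝ) + 4 + r * (D + 3)) ≤ C := by linarith
  refine HJ J hJ0 F A hA d H ?_ ?_ ?_
  · -- the logarithm of the constant
    have a1 : (C₁ : ℝ) ≤ C := by
      have : (0 : ℝ) ≤ (r : ℝ) + 4 + r * (D + 3) := by positivity
      linarith
    rcases Nat.eq_zero_or_pos C₁ with hz | hz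
    · rw [hz]
      push_cast
      rw [zero_mul]
      positivity
    · have hz' : (1 : ℝ) ≤ C₁ := by exact_mod_cast hz
      have a2 : Real.log (C₁ * (K + 1)) ≤ lg := by
        rw [hlg]
        exact Real.log_le_log (by positivity) (mul_le_mul a1 hXK (by positivity) (by positivity))
      calc (C₁ : ℝ) * Real.log (C₁ * (K + 1)) ≤ C₁ * lg :=
            mul_le_mul_of_nonneg_left a2 (by positivity)
        _ ≤ C * lg := mul_le_mul_of_nonneg_right a1 hlg0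
        _ ≤ δ / 5 * q * J := hCl
        _ ≤ δ * q * J := by nlinarith
  · refine le_trans ?_ hT
    have : min δ (δ / 5) * q * J ≤ δ * q * J := by
      rw [mul_assoc, mul_assoc]
      exact mul_le_mul_of_nonneg_right hδ1 hqJ
    linarith
  · intro B hBA hBc i hi
    obtain ⟨hr1, γ', G, HG, hfull⟩ := hrow B hBA hBc
    have hB : 0 < Pe F.p B := lt_of_lt_of_le (mul_pos hc₀ hA) hBc
    obtain ⟨x, hx⟩ : ∃ x : ℝ, x = (q - q * i / N₀) * J := ⟨_, rfl⟩
    have hN0 : (0 : ℝ) < N₀ := by exact_mod_cast hN₀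
    have hi' : (i : ℝ) ≤ N₀ := by exact_mod_cast hi
    have hi0 : (0 : ℝ) ≤ i := Nat.cast_nonneg i
    have hx0 : 0 ≤ q - q * i / N₀ := by
      have : q * i / N₀ ≤ q := by
        rw [div_le_iff₀ hN0]
        exact mul_le_mul_of_nonneg_left hi' hq.le
      linarith
    have hx1 : q - q * i / N₀ ≤ q := by
      have : 0 ≤ q * i / N₀ := by positivity
      linarith
    have hxJ0 : 0 ≤ x := by
      rw [hx]
      exact mul_nonneg hx0 hJr
    have hxJ : x ≤ q * J := by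
      rw [hx]
      exact mul_le_mul_of_nonneg_right hx1 hJr
    obtain ⟨n₁, hn₁⟩ : ∃ n₁ : ℕ, n₁ = ⌊(n₂ : ℝ) - x⌋₊ := ⟨_, rfl⟩
    have hnx : 0 ≤ (n₂ : ℝ) - x := by linarith
    have hn1 : (n₁ : ℝ) + x ≤ n₂ := by
      have := Nat.floor_le hnx
      rw [← hn₁] at this
      linarith
    have hn2' : (n₂ : ℝ) < n₁ + x + 1 := by
      have := Nat.lt_floor_add_one ((n₂ : ℝ) - x)
      rw [← hn₁] at this
      linarith
    have hn12 : n₁ ≤ n₂ := by
      have : (n₁ : ℝ) ≤ n₂ := by linarith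
      exact_mod_cast this
    have s1 := rows_one (W := ⌊w * J⌋₊) hF hBA hB hv hSV hcr hc hlip rfl hn2 hxJ0 hn1 HG
    have s2 := hr1 n₁ hn12 (by linarith)
    rw [← hx]
    refine s1.trans ?_
    have hr4 : (1 - h) * ((n₂ : ℝ) - n₁) * Real.log 2 ≤
        (1 - h) * (q - q * i / N₀) * Real.log 2 * J + Real.log 2 := by
      have a1 : (1 - h) * ((n₂ : ℝ) - n₁) ≤ (1 - h) * (x + 1) :=
        mul_le_mul_of_nonneg_left (by linarith) (by linarith)
      have a2 : (1 - h) * (x + 1) * Real.log 2 ≤ (1 - h) * x * Real.log 2 + Real.log 2 := by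
        nlinarith
      have a3 := mul_le_mul_of_nonneg_right a1 hl2.le
      have a4 : (1 - h) * x * Real.log 2 = (1 - h) * (q - q * i / N₀) * Real.log 2 * J := by
        rw [hx]
        ring
      linarith
    have m1 : (r : ℝ) * Real.log (2 * (3 + r * E₀ : ℕ) + 1) ≤ r * lg :=
      mul_le_mul_of_nonneg_left l1 hr0
    have m3 : ((r : ℝ) * (D + 3)) * Real.log (2 * ((2 * K : ℕ) + 1) + 1) ≤ (r * (D + 3)) * lg :=
      mul_le_mul_of_nonneg_left l3 (by positivity)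
    have m5 : ((r : ℝ) + 4 + r * (D + 3)) * lg ≤ C * lg := mul_le_mul_of_nonneg_right hCr hlg0
    have m6 : ((1 - h) * (q - q * i / N₀) * Real.log 2 + δ * q) * J =
        (1 - h) * (q - q * i / N₀) * Real.log 2 * J + 5 * (δ / 5 * q * J) := by ring
    rw [m6]
    linarith

end Pool.D2F2
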