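import Pool.Agent.H28.D2.FrH
import Pool.Agent.H18.D2.Aj

/-!
# The hop from natural sizes

`HopN`: the geometric data where the velocities of the heights and the gradients are only natural.
`hop_nat`: the law on all jets (`Pool.AJ18.all_jets`) gives the number of the line.
-/

set_option autoImplicit false

namespace Pool.D2F2

open Finset Real MvPolynomial
open Pool.Agent.H49.Ent Pool.Agent.H32.Dense Pool.STK Pool.KA Pool.KSAT Pool.K2S Pool.PB Pool.GEN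
open Pool.S6C Pool.LA91
open Pool.OWN68 (opl tw uw CH_pair CH_pis natDegree_opl opl_jet uw_abs tw_abs floor_sub_le
  of_floor_div pj path_law)
open Pool.D2H (of_floor_mul eval_small der_small' uw_eq CH_step hgt num hgt_sub hgt_coeff hgt_two
  eval_lin CH_pi_le)

variable {m J : ℕ}

/-- **The geometric data, natural sizes.** -/
structure HopN {F : Fam m J} {κ : Type} {r D : ℕ} (d : Dat F κ r D) (A : F.Ω → Prop) (W Q : ℕ)
    (σ : ℝ) (K : ℕ) {γ : Type} (Y : F.Ω → γ) : Prop extends HopP d A W σ K Y where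
  nco : ∀ ω, A ω → ∀ l < r, ∀ j, 1 ≤ j →
    σ * |(d.gp l (slam F W ω)).coeff j| ≤ K * 2 ^ Q * d.SV l
  nvl : ∀ ω ω', A ω → A ω' → Y ω = Y ω' →
    σ * |(d.e W r ω' - d.e W r ω) - ∑ l ∈ range r,
      ((d.gp l (slam F W ω)).derivative.eval (uw F W ω) * (d.v W l ω' - d.v W l ω) +
        (d.gp l (slam F W ω)).eval (uw F W ω) * (d.e W l ω' - d.e W l ω))| ≤ K * 2 ^ Q

section law

variable {F : Fam m J} {κ : Type} {r D : ℕ} {d : Dat F κ r D} {A : F.Ω → Prop} {W Q : ℕ}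
  {σ : ℝ} {K : ℕ} {γ : Type} {Y : F.Ω → γ}

/-- The derivative of the difference at the common time. -/
theorem HopN.pair (H : HopN d A W Q σ K Y) {ω₀ ω ω' : F.Ω}
    (hω : A ω) (hω' : A ω') (hY : Y ω = Y ω')
    (e₀ : d.cx (slam F W ω₀) = d.cx (slam F W ω)) :
    σ * |(d.hR W ω₀ (slam F W ω')).derivative.eval (uw F W ω) -
      (d.hR W ω₀ (slam F W ω)).derivative.eval (uw F W ω)| ≤
        (1 + r * (D + 1) ^ 2) * (K * 2 ^ Q) := by
  have hT := (H.TZ ω ω' hω hω' hY).1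
  have hu := uw_abs F W ω
  have hσ := H.σ0
  have hK0 : (0 : ℝ) ≤ K := Nat.cast_nonneg K
  have hD0 : (0 : ℝ) ≤ D := Nat.cast_nonneg D
  have h2Q : (1 : ℝ) ≤ 2 ^ Q := one_le_pow₀ (by norm_num)
  -- the products
  have hprod : ∀ l < r, ∀ (g t B : ℝ), 0 ≤ B → |g| ≤ B * (1 / d.SG l) → d.SV l * |t| ≤ K →
      σ * |g * t| ≤ B * K := by
    intro l hl g t B hB hg hd
    have h1 := H.SV0 l hl
    have h2 := H.SG0 l hl
    have h3 : |t| ≤ K / d.SV l := by
      rw [le_div_iff₀ h1]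
      linarith
    rw [abs_mul]
    calc σ * (|g| * |t|) ≤ (d.SG l * d.SV l) * ((B * (1 / d.SG l)) * (K / d.SV l)) :=
          mul_le_mul (H.σG l hl) (mul_le_mul hg h3 (abs_nonneg _) (by positivity))
            (by positivity) (by positivity)
      _ = B * K := by field_simp
  rw [d.hR_der ω₀ hT]
  have h1 := H.nvl ω ω' hω hω' hY
  have e1 : (d.e W r ω' - d.e W r ω) - ∑ l ∈ range r,
      ((d.gp l (slam F W ω₀)).derivative.eval (uw F W ω) * (d.v W l ω' - d.v W l ω) +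
      (d.gp l (slam F W ω₀)).eval (uw F W ω) *
        (d.e W l ω' - d.e W l ω)) =
      ((d.e W r ω' - d.e W r ω) - ∑ l ∈ range r,
      ((d.gp l (slam F W ω)).derivative.eval (uw F W ω) * (d.v W l ω' - d.v W l ω) +
      (d.gp l (slam F W ω)).eval (uw F W ω) *
        (d.e W l ω' - d.e W l ω))) -
      ∑ l ∈ range r, (((d.gp l (slam F W ω₀)).derivative.eval (uw F W ω) -
        (d.gp l (slam F W ω)).derivative.eval (uw F W ω)) * (d.v W l ω' - d.v W l ω) +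
        ((d.gp l (slam F W ω₀)).eval (uw F W ω) - (d.gp l (slam F W ω)).eval (uw F W ω)) *
        (d.e W l ω' - d.e W l ω)) := by
    simp only [sub_mul, Finset.sum_sub_distrib, Finset.sum_add_distrib]
    ring
  rw [e1]
  have h2 : σ * |∑ l ∈ range r, (((d.gp l (slam F W ω₀)).derivative.eval (uw F W ω) -
        (d.gp l (slam F W ω)).derivative.eval (uw F W ω)) * (d.v W l ω' - d.v W l ω) +
        ((d.gp l (slam F W ω₀)).eval (uw F W ω) - (d.gp l (slam F W ω)).eval (uw F W ω)) *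
        (d.e W l ω' - d.e W l ω))| ≤
      r * (((D + 1) * D) * K + (D + 1) * K) := by
    refine (mul_le_mul_of_nonneg_left (Finset.abs_sum_le_sum_abs _ _) hσ).trans ?_
    rw [Finset.mul_sum]
    refine (Finset.sum_le_sum (g := fun _ => ((D + 1) * D) * (K : ℝ) + (D + 1) * K)
      fun l hl => ?_).trans (le_of_eq ?_)
    · have hl' := Finset.mem_range.1 hl
      refine (mul_le_mul_of_nonneg_left (abs_add_le _ _) hσ).trans ?_
      rw [mul_add]
      refine add_le_add ?_ ?_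
      · refine hprod l hl' _ _ ((D + 1) * D) (by positivity) ?_ ?_
        · have := (gp_near H.toHopP e₀ hl' hu).2
          rwa [mul_assoc]
        · rw [abs_sub_comm]
          exact H.pos ω ω' hω hω' hY l hl'
      · refine hprod l hl' _ _ (D + 1) (by positivity) (gp_near H.toHopP e₀ hl' hu).1 ?_
        have h5 := H.vel ω ω' hω hω' hY l hl'
        refine le_trans ?_ h5
        rw [abs_sub_comm (d.e W l ω')]
        exact mul_le_mul_of_nonneg_right (H.SVE l hl') (abs_nonneg _)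
    · rw [Finset.sum_const, Finset.card_range, nsmul_eq_mul]
  refine (mul_le_mul_of_nonneg_left (abs_sub _ _) hσ).trans ?_
  rw [mul_add]
  have h4 : (1 + r * (D + 1) ^ 2) * ((K : ℝ) * 2 ^ Q) =
      K * 2 ^ Q + (r * (((D + 1) * D) * K + (D + 1) * K)) * 2 ^ Q := by
    ring
  have h5 : r * (((D + 1) * D) * (K : ℝ) + (D + 1) * K) ≤
      (r * (((D + 1) * D) * K + (D + 1) * K)) * 2 ^ Q :=
    le_mul_of_one_le_right (by positivity) h2Q
  rw [h4]
  linarith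

/-- The coefficients of the difference of two own heights of the same context. -/
theorem HopN.coef (H : HopN d A W Q σ K Y) {ω₀ : F.Ω} (h₀ : A ω₀)
    {s s' : LnT F}
    (e : d.cx s = d.cx s') (j : ℕ) (hj : 2 ≤ j) :
    σ * |(d.hR W ω₀ s').coeff j - (d.hR W ω₀ s).coeff j| ≤ (r * 2) * (K * 2 ^ Q) := by
  have hσ := H.σ0
  have hK0 : (0 : ℝ) ≤ K := Nat.cast_nonneg K
  obtain ⟨i, rfl⟩ : ∃ i, j = i + 2 := ⟨j - 2, by omega⟩
  have e1 : (d.hR W ω₀ s').coeff (i + 2) - (d.hR W ω₀ s).coeff (i + 2) =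
      (hgt r (d.P r s') (d.P r s) (fun l => d.P l s')
        (fun l => d.P l s) (fun l => d.gp l (slam F W ω₀))).coeff (i + 2) := by
    have := hgt_sub r (d.P r s) (d.P r s') (d.P r (slam F W ω₀))
      (fun l => d.P l s) (fun l => d.P l s')
      (fun l => d.P l (slam F W ω₀)) (fun l => d.gp l (slam F W ω₀))
    unfold Dat.hR
    rw [← Polynomial.coeff_sub, this]
    rfl
  rw [e1, hgt_coeff (d.P1 _ _) (d.P1 _ _)
    (fun _ => d.P1 _ _) (fun _ => d.P1 _ _), abs_neg]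
  refine (mul_le_mul_of_nonneg_left (Finset.abs_sum_le_sum_abs _ _) hσ).trans ?_
  rw [Finset.mul_sum]
  refine (Finset.sum_le_sum (g := fun _ => 2 * ((K : ℝ) * 2 ^ Q)) fun l hl => ?_).trans
    (le_of_eq ?_)
  · have hl' := Finset.mem_range.1 hl
    obtain ⟨a1, a2, -⟩ := cx_near H.toHopP e hl'
    have b1 := H.nco ω₀ h₀ l hl' (i + 2) (by omega)
    have b2 := H.nco ω₀ h₀ l hl' (i + 1) (by omega)
    have h1 := H.SV0 l hl'
    have h2 : 0 < d.SE l := lt_of_lt_of_le h1 (H.SVE l hl')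
    have b3 : σ * |(d.gp l (slam F W ω₀)).coeff (i + 1)| ≤ K * 2 ^ Q * d.SE l :=
      b2.trans (mul_le_mul_of_nonneg_left (H.SVE l hl') (by positivity))
    refine (mul_le_mul_of_nonneg_left (abs_add_le _ _) hσ).trans ?_
    rw [mul_add]
    have c1 : σ * |(d.gp l (slam F W ω₀)).coeff (i + 2) *
        ((d.P l s').coeff 0 - (d.P l s).coeff 0)| ≤ K * 2 ^ Q := by
      rw [abs_mul, ← mul_assoc, abs_sub_comm]
      calc σ * |(d.gp l (slam F W ω₀)).coeff (i + 2)| *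
          |(d.P l s).coeff 0 - (d.P l s').coeff 0|
          ≤ (K * 2 ^ Q * d.SV l) * (1 / d.SV l) :=
            mul_le_mul b1 a1 (abs_nonneg _) (by positivity)
        _ = K * 2 ^ Q := by field_simp
    have c2 : σ * |(d.gp l (slam F W ω₀)).coeff (i + 1) *
        ((d.P l s').coeff 1 - (d.P l s).coeff 1)| ≤ K * 2 ^ Q := by
      rw [abs_mul, ← mul_assoc, abs_sub_comm]
      calc σ * |(d.gp l (slam F W ω₀)).coeff (i + 1)| *
          |(d.P l s).coeff 1 - (d.P l s').coeff 1|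
          ≤ (K * 2 ^ Q * d.SE l) * (1 / d.SE l) :=
            mul_le_mul b3 a2 (abs_nonneg _) (by positivity)
        _ = K * 2 ^ Q := by field_simp
    linarith
  · rw [Finset.sum_const, Finset.card_range, nsmul_eq_mul]
    ring

end law

/-- **The hop over the reference line from natural sizes: one law.** -/
theorem hop_nat (D : ℕ) (hD : 1 ≤ D) {h : ℝ} (hh : 0 < h) (hh1 : h ≤ 1) {ε : ℝ} (hε : 0 < ε) :
    ∃ δ : ℝ, 0 < δ ∧ ∃ c₀ : ℝ, 0 < c₀ ∧ ∃ N₀ : ℕ, 0 < N₀ ∧ ∀ (r : ℕ),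
    ∃ C : ℕ, ∀ {w μ : ℝ} (_ : 0 ≤ w) (_ : 0 < μ) (_ : w + μ ≤ 1),
    ∃ J₀ : ℕ, ∀ J ≥ J₀, ∀ {m : ℕ} (F : Fam m J) (A : F.Ω → Prop) (_ : 0 < Pe F.p A)
      {κ : Type} (d : Dat F κ r D) {Q : ℕ} {σ : ℝ} {K : ℕ} {γ : Type} {Y : F.Ω → γ},
    HopN d A ⌊w * J⌋₊ Q σ K Y → (Q : ℝ) ≤ μ * J →
    C * Real.log (C * (K + 1)) ≤ δ * μ * J →
    (J : ℝ) * Real.log 2 - δ * μ * J ≤
      CH (Pool.Agent.H49.Ent.cond F.p A True) F.T (fun ω => (F.l ω, F.Z ω)) →
    Pool.AJ18.NFg F A (fun s => Polynomial.C σ * d.hL ⌊w * J⌋₊ A s) (fun s => d.cx s) ⌊w * J⌋₊ μ h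
      (δ * μ) c₀ N₀ →
    CH (Pool.Agent.H49.Ent.cond F.p A True)
      (fun ω => (d.cx (slam F ⌊w * J⌋₊ ω),
        ⌊σ * d.nb ⌊w * J⌋₊ A (slam F ⌊w * J⌋₊ ω)⌋)) Y ≤ ε * μ * J := by
  obtain ⟨δ₁, hδ₁, c₀, hc₀, N₀, hN₀, Hp⟩ := Pool.AJ18.all_jets (D + 1) (by omega) hh hh1
    (ε := ε / 8) (by positivity)
  obtain ⟨δ, hδ⟩ : ∃ δ : ℝ, δ = min δ₁ (ε / 8) := ⟨_, rfl⟩
  have hδ0 : 0 < δ := by
    rw [hδ]
    exact lt_min hδ₁ (by positivity)
  have hδa : δ ≤ δ₁ := by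
    rw [hδ]
    exact min_le_left _ _
  have hδb : δ ≤ ε / 8 := by
    rw [hδ]
    exact min_le_right _ _
  refine ⟨δ, hδ0, c₀, hc₀, N₀, hN₀, ?_⟩
  intro r
  obtain ⟨C₁, hC₁, Hder⟩ := Pool.OWN68.der_small (D + 1)
  obtain ⟨C₂, hC₂⟩ : ∃ C₂ : ℝ, C₂ = (1 + r * (D + 1) ^ 2) + C₁ * (r * 2 + 1) + 2 :=
    ⟨_, rfl⟩
  have hr0 : (0 : ℝ) ≤ r := Nat.cast_nonneg r
  have hD0 : (0 : ℝ) ≤ D := Nat.cast_nonneg D
  have hC10 : 0 ≤ C₁ * ((r : ℝ) * 2 + 1) := by positivity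
  have hC11 : 0 ≤ (r : ℝ) * (D + 1) ^ 2 := by positivity
  have hC20 : 2 ≤ C₂ := by
    rw [hC₂]
    linarith
  obtain ⟨C, hC⟩ := exists_nat_ge (max ((r : ℝ) * (D + 3) + 1) (5 * C₂ + 5))
  have hCa : (r : ℝ) * (D + 3) + 1 ≤ C := (le_max_left _ _).trans hC
  have hCb : 5 * C₂ + 5 ≤ C := (le_max_right _ _).trans hC
  refine ⟨C, ?_⟩
  intro w μ hw hμ hwμ
  obtain ⟨J₀, HJ⟩ := Hp hw hμ hwμ
  obtain ⟨J₁, hJ₁⟩ := exists_nat_ge (Real.log 7 / (ε / 8 * μ))
  refine ⟨max J₀ J₁, ?_⟩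
  intro J hJ m F A hA κ d Q σ K γ Y H hQμ hK hT hrow
  have hJ0 : J₀ ≤ J := (le_max_left _ _).trans hJ
  have hJ1 : (J₁ : ℝ) ≤ J := by exact_mod_cast (le_max_right _ _).trans hJ
  have hJr : (0 : ℝ) ≤ J := Nat.cast_nonneg J
  have hK0 : (0 : ℝ) ≤ K := Nat.cast_nonneg K
  have hσ := H.σ0
  obtain ⟨W, hW⟩ : ∃ W : ℕ, W = ⌊w * J⌋₊ := ⟨_, rfl⟩
  rw [← hW] at H hrow ⊢
  have hHJ := HJ J hJ0 F A hA
  rw [← hW] at hHJ
  obtain ⟨p, hp⟩ : ∃ p : F.Ω → ℝ, p = Pool.Agent.H49.Ent.cond F.p A True := ⟨_, rfl⟩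
  have hpl : IsLaw p := by
    rw [hp]
    exact isLaw_cond F.isLaw hA
  have h0 := hpl.nonneg
  have hpA : ∀ ω, 0 < p ω → A ω := fun ω hω => by
    rw [hp] at hω
    exact of_cond_pos hω
  have hctx := H.ctx hA
  rw [← hp] at hctx
  -- one number
  obtain ⟨lg, hlg⟩ : ∃ lg : ℝ, lg = Real.log (C * (K + 1)) := ⟨_, rfl⟩
  have hC0 : (0 : ℝ) ≤ C := Nat.cast_nonneg C
  have hC1 : (1 : ℝ) ≤ C := by linarith
  have hlg0 : 0 ≤ lg := by
    rw [hlg]
    refine Real.log_nonneg ?_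
    nlinarith
  have hlg1 : Real.log (2 * ((2 * K : ℕ) + 1) + 1) ≤ lg := by
    rw [hlg]
    refine Real.log_le_log (by positivity) ?_
    push_cast
    nlinarith
  obtain ⟨K₂, hK₂⟩ : ∃ K₂ : ℕ, K₂ = ⌈C₂ * K⌉₊ := ⟨_, rfl⟩
  have hK2a : C₂ * K ≤ K₂ := by
    rw [hK₂]
    exact Nat.le_ceil _
  have hK2b : (K₂ : ℝ) ≤ C₂ * K + 1 := by
    rw [hK₂]
    exact (Nat.ceil_lt_add_one (by positivity)).le
  have hlg2 : Real.log (2 * ((K₂ + 1 : ℕ) : ℝ) + 1) ≤ lg := by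
    rw [hlg]
    refine Real.log_le_log (by positivity) ?_
    push_cast
    nlinarith
  obtain ⟨cs, hcs⟩ : ∃ cs : F.Ω → CxT F κ r D, cs = fun ω => d.cx (slam F W ω) :=
    ⟨_, rfl⟩
  obtain ⟨R, hRe⟩ : ∃ R : LnT F → Polynomial ℝ, R = fun s => Polynomial.C σ *
      d.hL W A s := ⟨_, rfl⟩
  rw [← hRe] at hrow
  have hRdeg : ∀ x, (R x).natDegree ≤ D + 1 := fun x => by
    rw [hRe]
    exact (Polynomial.natDegree_C_mul_le _ _).trans (d.natDegree_hL A x)
  have hc1 : CH p cs Y ≤ (r * (D + 3)) * lg := by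
    rw [hcs]
    refine hctx.trans (mul_le_mul_of_nonneg_left hlg1 (by positivity))
  have h2Q : (0 : ℝ) < 2 ^ Q := by positivity
  -- the pairs
  have hpair : ∀ ω ω', A ω → A ω' → Y ω = Y ω' → cs ω = cs ω' → ∃ f : Polynomial ℝ,
      f = R (slam F W ω') - R (slam F W ω) ∧ f.natDegree ≤ D + 1 ∧
      |f.eval (uw F W ω)| ≤ K * (1 + r * (D + 1) ^ 2) ∧
      |f.derivative.eval (uw F W ω)| ≤ (1 + r * (D + 1) ^ 2) * (K * 2 ^ Q) ∧
      ∀ j, 2 ≤ j → |f.coeff j| ≤ (r * 2) * (K * 2 ^ Q) := by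
    intro ω ω' hω hω' hY e
    obtain ⟨ω₀, g1, g2, g3⟩ := d.rfo_spec (W := W) hω
    rw [hcs] at e
    dsimp only at e
    have e1 : R (slam F W ω) = Polynomial.C σ * d.hR W ω₀ (slam F W ω) := by
      rw [hRe]
      dsimp only
      unfold Dat.hL
      rw [g1]
      rfl
    have e2 : R (slam F W ω') = Polynomial.C σ * d.hR W ω₀ (slam F W ω') := by
      rw [hRe]
      dsimp only
      unfold Dat.hL
      rw [← e, g1]
      rfl
    refine ⟨_, rfl, (Polynomial.natDegree_sub_le _ _).trans (max_le (hRdeg _) (hRdeg _)), ?_⟩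
    have p1 := H.toHopP.pair hω hω' hY g3
    have p2 := H.pair hω hω' hY g3
    have p3 := H.coef g2 e
    rw [e1, e2, ← mul_sub]
    refine ⟨?_, ?_, fun j hj => ?_⟩
    · rw [Polynomial.eval_mul, Polynomial.eval_C, Polynomial.eval_sub, abs_mul, abs_of_nonneg hσ]
      exact p1
    · rw [Polynomial.derivative_C_mul, Polynomial.eval_mul, Polynomial.eval_C,
        Polynomial.derivative_sub, Polynomial.eval_sub, abs_mul, abs_of_nonneg hσ]
      exact p2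
    · rw [Polynomial.coeff_C_mul, Polynomial.coeff_sub, abs_mul, abs_of_nonneg hσ]
      exact p3 j hj
  have hCr : (1 + (r : ℝ) * (D + 1) ^ 2) ≤ C₂ := by
    rw [hC₂]
    linarith
  have hCd : C₁ * ((r : ℝ) * 2 + 1) ≤ C₂ := by
    rw [hC₂]
    linarith
  -- the height
  have hjet0 : CH p (fun ω => ⌊pj F R W 0 ω⌋) Y ≤ (r * (D + 3) + 1) * lg := by
    have s1 := CH_step h0 (fun ω => ⌊pj F R W 0 ω⌋) cs Y
    have s2 : CH p (fun ω => ⌊pj F R W 0 ω⌋) (fun ω => (cs ω, Y ω)) ≤ lg := by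
      refine le_trans (CH_pair hpl _ _ (D := K₂ + 1) fun ω ω' hω hω' e => ?_) hlg2
      obtain ⟨e1, e2⟩ := Prod.ext_iff.mp e
      dsimp only at e1 e2
      obtain ⟨f, f0, f1, f2, f3, f4⟩ := hpair ω ω' (hpA ω hω) (hpA ω' hω') e2 e1
      refine floor_sub_le ?_
      have hT' := uw_eq (W := W) (H.TZ ω ω' (hpA ω hω) (hpA ω' hω') e2).1
      have e3 : pj F R W 0 ω - pj F R W 0 ω' = -(f.eval (uw F W ω)) := by
        unfold pj
        rw [f0, ← hT', Function.iterate_zero, id, id, Polynomial.eval_sub]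
        ring
      rw [e3, abs_neg]
      refine f2.trans (le_trans ?_ hK2a)
      rw [mul_comm]
      exact mul_le_mul_of_nonneg_right hCr hK0
    nlinarith [s1, s2, hc1]
  -- the jets
  have hpow : (2 : ℝ) ^ Q ≤ 2 ^ (μ * J) := by
    rw [← Real.rpow_natCast 2 Q]
    exact Real.rpow_le_rpow_of_exponent_le (by norm_num) hQμ
  have hpow0 : (0 : ℝ) < 2 ^ (μ * J) := by positivity
  have hjet : ∀ j ≤ D + 1, j ≠ 0 → CH p (fun ω => ⌊pj F R W j ω / 2 ^ (μ * J)⌋) Y ≤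
      (r * (D + 3) + 1) * lg := by
    intro j hjD hj
    have s1 := CH_step h0 (fun ω => ⌊pj F R W j ω / 2 ^ (μ * J)⌋) cs Y
    have s2 : CH p (fun ω => ⌊pj F R W j ω / 2 ^ (μ * J)⌋) (fun ω => (cs ω, Y ω)) ≤ lg := by
      refine le_trans (CH_pair hpl _ _ (D := K₂ + 1) fun ω ω' hω hω' e => ?_) hlg2
      obtain ⟨e1, e2⟩ := Prod.ext_iff.mp e
      dsimp only at e1 e2
      obtain ⟨f, f0, f1, f2, f3, f4⟩ := hpair ω ω' (hpA ω hω) (hpA ω' hω') e2 e1
      refine floor_sub_le ?_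
      have hT' := uw_eq (W := W) (H.TZ ω ω' (hpA ω hω) (hpA ω' hω') e2).1
      have e3 : pj F R W j ω / 2 ^ (μ * J) - pj F R W j ω' / 2 ^ (μ * J) =
          -((Polynomial.derivative^[j] f).eval (uw F W ω)) / 2 ^ (μ * J) := by
        unfold pj
        rw [f0, ← hT', Polynomial.iterate_derivative_sub, Polynomial.eval_sub]
        ring
      have hb : |(Polynomial.derivative^[j] f).eval (uw F W ω)| ≤ (C₂ * K) * 2 ^ Q := by
        rcases Nat.lt_or_ge j 2 with h1 | h1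
        · obtain rfl : j = 1 := by omega
          rw [Function.iterate_one]
          refine f3.trans ?_
          rw [← mul_assoc]
          exact mul_le_mul_of_nonneg_right (mul_le_mul_of_nonneg_right hCr hK0) h2Q.le
        · refine (Hder f j _ _ f1 (uw_abs F W ω) fun i hi => f4 i (h1.trans hi)).trans ?_
          have h5 : C₁ * ((r : ℝ) * 2 * (K * 2 ^ Q)) = ((C₁ * (r * 2)) * K) * 2 ^ Q := by ring
          rw [h5]
          refine mul_le_mul_of_nonneg_right (mul_le_mul_of_nonneg_right ?_ hK0) h2Q.le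
          refine le_trans ?_ hCd
          exact mul_le_mul_of_nonneg_left (by linarith) (by linarith)
      rw [e3, abs_div, abs_neg, abs_of_pos hpow0, div_le_iff₀ hpow0]
      refine hb.trans (mul_le_mul hK2a hpow h2Q.le (Nat.cast_nonneg _))
    nlinarith [s1, s2, hc1]
  -- the errors
  have hCl : (r * (D + 3) + 1) * lg ≤ δ * μ * J := by
    refine le_trans ?_ hK
    rw [← hlg]
    exact mul_le_mul_of_nonneg_right hCa hlg0
  have hAj : Pool.AJ18.AjH F A R (fun s => d.cx s) Y (D + 1) W μ δ := by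
    refine ⟨hRdeg, hT, fun ω ω' hω hω' e =>
      ⟨(H.TZ ω ω' hω hω' e).1, (H.TZ ω ω' hω hω' e).2.1⟩, ?_, ?_, ?_⟩
    · rw [← hp]
      have := hc1
      rw [hcs] at this
      refine this.trans (le_trans ?_ hCl)
      exact mul_le_mul_of_nonneg_right (by linarith) hlg0
    · rw [← hp]
      exact hjet0.trans hCl
    · intro j hj hj0
      rw [← hp]
      exact (hjet j hj hj0).trans hCl
  have hfin := hHJ R (fun s => d.cx s) Y (hAj.mono hμ.le hδa) (by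
    intro B hB hBc i j hij hj
    refine (hrow B hB hBc i j hij hj).trans (mul_le_mul_of_nonneg_right ?_ hJr)
    have := mul_le_mul_of_nonneg_right hδa hμ.le
    linarith)
  rw [← hp] at hfin ⊢
  -- the number from the coefficient
  obtain ⟨x, hx⟩ : ∃ x : ℝ, x = ε / 8 * μ * J := ⟨_, rfl⟩
  have hx0 : 0 ≤ x := by
    rw [hx]
    positivity
  have hx1 : (1 : ℝ) ≤ 2 ^ x := Real.one_le_rpow (by norm_num) hx0
  rw [← hx] at hfin
  obtain ⟨Xf, hXf⟩ : ∃ Xf : F.Ω → (Fin (D + 1 + 1) → ℤ) × (Fin (D + 1 + 1) → ℤ),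
      Xf = fun ω => (fun j : Fin (D + 1 + 1) => ⌊pj F R W j ω / 2 ^ x⌋,
        fun j : Fin (D + 1 + 1) => ⌊(R (slam F W ω)).coeff j / 2 ^ x⌋) := ⟨_, rfl⟩
  rw [← hXf] at hfin
  have s1 := CH_step h0 (fun ω => (d.cx (slam F W ω),
        ⌊σ * d.nb W A (slam F W ω)⌋)) (fun ω => (cs ω, Xf ω)) Y
  have s0 := CH_subadd h0 cs Xf Y
  obtain ⟨M, hM⟩ : ∃ M : ℕ, M = ⌈(2 : ℝ) ^ x⌉₊ := ⟨_, rfl⟩
  have hM1 : (2 : ℝ) ^ x ≤ M := by
    rw [hM]
    exact Nat.le_ceil _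
  have hM2 : (M : ℝ) ≤ 2 ^ x + 1 := by
    rw [hM]
    exact (Nat.ceil_lt_add_one (by positivity)).le
  have s2 : CH p (fun ω => (d.cx (slam F W ω),
        ⌊σ * d.nb W A (slam F W ω)⌋)) (fun ω => ((cs ω, Xf ω), Y ω)) ≤
      Real.log (2 * ((M + 1 : ℕ) : ℝ) + 1) := by
    have t1 : CH p (fun ω => (d.cx (slam F W ω),
        ⌊σ * d.nb W A (slam F W ω)⌋)) (fun ω => ((cs ω, Xf ω), Y ω)) ≤
        CH p (fun ω => ⌊σ * d.nb W A (slam F W ω)⌋)
          (fun ω => ((cs ω, Xf ω), Y ω)) := by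
      refine CH_mono_left h0 fun ω ω' _ _ e => ?_
      simp only [Prod.mk.injEq] at e ⊢
      refine ⟨?_, e.1⟩
      have := e.2.1.1
      rwa [hcs] at this
    refine t1.trans ?_
    refine CH_pair hpl _ _ fun ω ω' hω hω' e => ?_
    simp only [Prod.mk.injEq] at e
    obtain ⟨⟨e2, e3⟩, -⟩ := e
    rw [hcs] at e2
    dsimp only at e2
    rw [hXf] at e3
    simp only [Prod.mk.injEq] at e3
    have e4 := congrFun e3.2 ⟨2, by omega⟩
    dsimp only at e4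
    obtain ⟨ω₀, g1, g2, g3⟩ := d.rfo_spec (W := W) (hpA ω hω)
    have k1 : ∀ ν : F.Ω, d.cx (slam F W ν) =
        d.cx (slam F W ω) → (R (slam F W ν)).coeff 2 =
        -(σ * d.nb W A (slam F W ν)) + σ * num r
          (fun l => d.P l (slam F W ω₀)) (fun l => d.gp l (slam F W ω₀)) := by
      intro ν hν
      rw [hRe]
      dsimp only
      rw [Polynomial.coeff_C_mul]
      unfold Dat.hL Dat.nb
      rw [hν, g1]
      change σ * (d.hR W ω₀ (slam F W ν)).coeff 2 = -(σ * num r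
        (fun l => d.P l (slam F W ν)) (fun l => d.gp l (slam F W ω₀))) + _
      unfold Dat.hR
      rw [hgt_two (d.P1 _ _) (d.P1 _ _)
        (fun _ => d.P1 _ _) (fun _ => d.P1 _ _)]
      ring
    have k2 := k1 ω rfl
    have k3 := k1 ω' e2.symm
    rw [k2, k3] at e4
    have k4 := of_floor_div (by linarith : (0 : ℝ) < 2 ^ x) e4
    refine floor_sub_le (D := M) ?_
    rw [abs_le] at k4 ⊢
    constructor <;> linarith [k4.1, k4.2]
  have hl7 : Real.log (2 * ((M + 1 : ℕ) : ℝ) + 1) ≤ x * Real.log 2 + Real.log 7 := by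
    rw [← Real.log_rpow (by norm_num), ← Real.log_mul (by positivity) (by norm_num)]
    refine Real.log_le_log (by positivity) ?_
    push_cast
    linarith
  have hl2 : Real.log 2 ≤ 1 := by
    have := Real.log_le_sub_one_of_pos (show (0 : ℝ) < 2 by norm_num)
    linarith
  have hl3 : Real.log 7 ≤ x := by
    have h1 : Real.log 7 / (ε / 8 * μ) ≤ J := hJ₁.trans hJ1
    rw [div_le_iff₀ (by positivity)] at h1
    rw [hx]
    linarith
  have hl4 : x * Real.log 2 ≤ x := mul_le_of_le_one_right hx0 hl2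
  have hl5 : CH p cs Y ≤ x := by
    refine hc1.trans (le_trans ?_ (hCl.trans ?_))
    · exact mul_le_mul_of_nonneg_right (by linarith) hlg0
    · rw [hx]
      exact mul_le_mul_of_nonneg_right (mul_le_mul_of_nonneg_right hδb hμ.le) hJr
  have hl6 : ε * μ * J = 8 * x := by
    rw [hx]
    ring
  rw [hl6]
  linarith [s0, s1, s2, hfin]

end Pool.D2F2
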