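import Pool.Agent.H28.D2.FrJ
import Pool.Agent.H18.D2.Aj

/-!
# The rows of the own height on all sub-blocks

`rows_sub`: as `rows_one`, for the digits between two levels. `nfg_of`: the rows at the levels of a
grid in the form of the law on all jets.
-/

set_option autoImplicit false

namespace Pool.D2F2

open Finset Real MvPolynomial
open Pool.Agent.H49.Ent Pool.Agent.H32.Dense Pool.STK Pool.KA Pool.KSAT Pool.K2S Pool.PB Pool.GEN
open Pool.S6C Pool.LA91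
open Pool.OWN68 (opl tw uw CH_pair CH_pis natDegree_opl opl_jet uw_abs tw_abs floor_sub_le
  of_floor_div nf_swap CH_le_Hu pj)
open Pool.GEN.N83 (oth)
open Pool.D2H (of_floor_mul eval_small uw_eq CH_step Vdg H_Vdg num)

variable {m J : ℕ}

section

variable {F : Fam m J} {κ : Type} {r D : ℕ} {d : Dat F κ r D} {A : F.Ω → Prop} {W : ℕ}
  {c : ℕ → Fin m} {E₀ : ℕ} {σ : ℝ} {K : ℕ} {γ : Type} {Y : F.Ω → γ}

/-- Coarse digits of the height are few bits given the record. -/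
theorem HopP.few2 {B : F.Ω → Prop} (hBA : Sub B A) (hB : 0 < Pe F.p B) {x y : ℝ} (hx : 0 ≤ x)
    (hy : 0 ≤ y) {γ' : Type} {G : F.Ω → γ'} (HG : HopP d B W σ K G) :
    CH (Pool.Agent.H49.Ent.cond F.p B True)
      (fun ω => (⌊σ * (d.hL W A (slam F W ω)).eval (uw F W ω) / 2 ^ y⌋,
        (⌊σ * (d.hL W A (slam F W ω)).eval (uw F W ω) / 2 ^ x⌋,
          (d.cx (slam F W ω), F.W ω)))) G ≤
      (r * (D + 3)) * Real.log (2 * ((2 * K : ℕ) + 1) + 1) +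
        2 * Real.log (2 * (K * (1 + r * (D + 1) ^ 2) + 1 : ℕ) + 1) := by
  have hp := isLaw_cond F.isLaw hB
  have h0 := hp.nonneg
  have hBp : ∀ ω, 0 < Pool.Agent.H49.Ent.cond F.p B True ω → B ω := fun ω hω => of_cond_pos hω
  have hctx := HG.ctx hB
  have hσ := HG.σ0
  -- the pairs
  have key : ∀ ω ω', B ω → B ω' → G ω = G ω' → d.cx (slam F W ω) = d.cx (slam F W ω') →
      |σ * (d.hL W A (slam F W ω)).eval (uw F W ω) -
        σ * (d.hL W A (slam F W ω')).eval (uw F W ω')| ≤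
        ((K * (1 + r * (D + 1) ^ 2) : ℕ) : ℝ) := by
    intro ω ω' hω hω' hG e
    obtain ⟨ω₀, g1, g2, g3⟩ := d.hL_ref (W := W) (A := A) (hBA ω hω)
    have hT := (HG.TZ ω ω' hω hω' hG).1
    have h1 := HG.pair hω hω' hG g2
    rw [g3 _ rfl, g3 _ e.symm, ← uw_eq hT, ← mul_sub, abs_mul, abs_of_nonneg hσ, abs_sub_comm]
    refine h1.trans (le_of_eq ?_)
    push_cast
    ring
  have f2 : ∀ z : ℝ, 0 ≤ z → ∀ ω ω', 0 < Pool.Agent.H49.Ent.cond F.p B True ω →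
      0 < Pool.Agent.H49.Ent.cond F.p B True ω' →
      (d.cx (slam F W ω), G ω) = (d.cx (slam F W ω'), G ω') →
      |⌊σ * (d.hL W A (slam F W ω)).eval (uw F W ω) / 2 ^ z⌋ -
        ⌊σ * (d.hL W A (slam F W ω')).eval (uw F W ω') / 2 ^ z⌋| ≤
        ((K * (1 + r * (D + 1) ^ 2) + 1 : ℕ) : ℤ) := by
    intro z hz ω ω' hω hω' e
    have hx1 : (1 : ℝ) ≤ 2 ^ z := Real.one_le_rpow (by norm_num) hz
    have h1 := key ω ω' (hBp ω hω) (hBp ω' hω') (Prod.ext_iff.1 e).2 (Prod.ext_iff.1 e).1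
    have h3 : |σ * (d.hL W A (slam F W ω)).eval (uw F W ω) / 2 ^ z -
        σ * (d.hL W A (slam F W ω')).eval (uw F W ω') / 2 ^ z| ≤
        ((K * (1 + r * (D + 1) ^ 2) : ℕ) : ℝ) := by
      rw [← sub_div, abs_div, abs_of_pos (by linarith : (0 : ℝ) < 2 ^ z)]
      exact (div_le_self (abs_nonneg _) hx1).trans h1
    have h2 := floor_sub_le h3
    push_cast at h2 ⊢
    exact h2
  have g1 := CH_pair hp _ _ (f2 y hy)
  have g2 := CH_pair hp _ _ (f2 x hx)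
  have s1 := CH_step h0 (fun ω => (⌊σ * (d.hL W A (slam F W ω)).eval
      (uw F W ω) / 2 ^ y⌋, (⌊σ * (d.hL W A (slam F W ω)).eval (uw F W ω) / 2 ^ x⌋,
          (d.cx (slam F W ω), F.W ω)))) (fun ω => d.cx (slam F W ω)) G
  have s2 := CH_chain h0 (fun ω => ⌊σ * (d.hL W A (slam F W ω)).eval
      (uw F W ω) / 2 ^ y⌋) (fun ω => (⌊σ * (d.hL W A (slam F W ω)).eval
      (uw F W ω) / 2 ^ x⌋, (d.cx (slam F W ω), F.W ω)))
    (fun ω => (d.cx (slam F W ω), G ω))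
  have s3 : CH (Pool.Agent.H49.Ent.cond F.p B True)
      (fun ω => ⌊σ * (d.hL W A (slam F W ω)).eval (uw F W ω) / 2 ^ y⌋)
      (fun ω => ((⌊σ * (d.hL W A (slam F W ω)).eval
      (uw F W ω) / 2 ^ x⌋, (d.cx (slam F W ω), F.W ω)), (d.cx (slam F W ω), G ω))) ≤
      CH (Pool.Agent.H49.Ent.cond F.p B True)
      (fun ω => ⌊σ * (d.hL W A (slam F W ω)).eval (uw F W ω) / 2 ^ y⌋)
      (fun ω => (d.cx (slam F W ω), G ω)) :=
    CH_mono_cond h0 fun ω ω' _ _ e => (Prod.ext_iff.1 e).2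
  have s4 : CH (Pool.Agent.H49.Ent.cond F.p B True)
      (fun ω => (⌊σ * (d.hL W A (slam F W ω)).eval
      (uw F W ω) / 2 ^ x⌋, (d.cx (slam F W ω), F.W ω)))
      (fun ω => (d.cx (slam F W ω), G ω)) ≤
      CH (Pool.Agent.H49.Ent.cond F.p B True)
      (fun ω => ⌊σ * (d.hL W A (slam F W ω)).eval (uw F W ω) / 2 ^ x⌋)
      (fun ω => (d.cx (slam F W ω), G ω)) := by
    refine CH_mono_left h0 fun ω ω' hω hω' e => ?_
    obtain ⟨e1, e2⟩ := Prod.ext_iff.1 e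
    obtain ⟨e3, e4⟩ := Prod.ext_iff.1 e2
    obtain ⟨e5, e6, -⟩ := HG.TZ ω ω' (hBp ω hω) (hBp ω' hω') e4
    exact Prod.ext e1 (Prod.ext e3 (Prod.ext e5 e6))
  linarith

/-- **The rows of the own height between two levels** from the rows of the target and from the
fullness of the digits of the other coordinates given a record. -/
theorem rows_sub {B : F.Ω → Prop} (hF : FrD d A W c E₀) (hBA : Sub B A) (hB : 0 < Pe F.p B)
    {v : ℕ → ℕ} (hv : ∀ l < r, v l ≤ J) (hSV : ∀ l < r, d.SV l = 2 ^ v l)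
    (hcr : ∀ l < r, c l ≠ c r) (hc : ∀ j, j ≠ c r → ∃ l < r, c l = j) {K₁ : ℕ}
    (hlip : ∀ ω, A ω → ∀ l < r, ∀ j ≤ D, σ * |(d.gp l (slam F W ω)).coeff j| ≤ K₁ * 2 ^ J)
    {n₁ n₂ n₃ : ℕ} (hσ : σ = 2 ^ n₂) (hn2 : n₂ ≤ J) {x y : ℝ} (hx : 0 ≤ x)
    (hn : (n₁ : ℝ) + x ≤ n₂) (hy : 0 ≤ y) (hny : (n₂ : ℝ) ≤ n₃ + y)
    {γ' : Type} {G : F.Ω → γ'} (HG : HopP d B W σ K G) :
    CH (Pool.Agent.H49.Ent.cond F.p B True)
      (fun ω => ⌊σ * (d.hL W A (slam F W ω)).eval (uw F W ω) / 2 ^ y⌋)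
      (fun ω => (⌊σ * (d.hL W A (slam F W ω)).eval (uw F W ω) / 2 ^ x⌋,
        (d.cx (slam F W ω), F.W ω))) ≤
    CH (Pool.Agent.H49.Ent.cond F.p B True) (fun ω => F.X n₃ ω (c r))
      (fun ω => (F.X n₁ ω (c r), oth (c r) J F (ptr F J ω))) +
    (∑ l ∈ range r, ((J - v l : ℕ) : ℝ) * Real.log 2 -
      CH (Pool.Agent.H49.Ent.cond F.p B True) (Vdg F c r v) G) +
    (r * Real.log (2 * (3 + r * E₀ : ℕ) + 1) +
      2 * Real.log (2 * (r * E₀ + r * ((D + 1) * K₁ * (1 + r * E₀)) + 2 : ℕ) + 1) +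
      ((r * (D + 3)) * Real.log (2 * ((2 * K : ℕ) + 1) + 1) +
        2 * Real.log (2 * (K * (1 + r * (D + 1) ^ 2) + 1 : ℕ) + 1))) := by
  have hp := isLaw_cond F.isLaw hB
  have h0 := hp.nonneg
  have hBp : ∀ ω, 0 < Pool.Agent.H49.Ent.cond F.p B True ω → B ω := fun ω hω => of_cond_pos hω
  have hσ0 : 0 ≤ σ := by
    rw [hσ]
    positivity
  have hσJ : σ ≤ 2 ^ J := by
    rw [hσ]
    exact pow_le_pow_right₀ (by norm_num) hn2
  have hx1 : (1 : ℝ) ≤ 2 ^ x := Real.one_le_rpow (by norm_num) hx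
  have hy1 : (1 : ℝ) ≤ 2 ^ y := Real.one_le_rpow (by norm_num) hy
  have hfew := HopP.few2 hBA hB hx hy HG
  obtain ⟨M, hM⟩ : ∃ M : ℕ, M = r * E₀ + r * ((D + 1) * K₁ * (1 + r * E₀)) := ⟨_, rfl⟩
  rw [← hM]
  -- the pairs
  have key : ∀ ω ω', B ω → B ω' → oth (c r) J F (ptr F J ω) = oth (c r) J F (ptr F J ω') →
      d.cx (slam F W ω) = d.cx (slam F W ω') →
      |σ * (d.hL W A (slam F W ω')).eval (uw F W ω') -
        σ * (d.hL W A (slam F W ω)).eval (uw F W ω) -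
        σ * (F.x ω' (c r) - F.x ω (c r))| ≤ M := by
    intro ω ω' hω hω' hO e
    have hO1 := (Prod.ext_iff.1 hO).1
    have hT : F.T ω = F.T ω' := (Prod.ext_iff.1 (Prod.ext_iff.1 hO).2).1
    rw [hM]
    refine hL_dif hF hσ0 hσJ hlip (hBA ω hω) (hBA ω' hω') hT e fun l hl => ?_
    have h1 : Function.update (F.X J ω) (c r) 0 (c l) = Function.update (F.X J ω') (c r) 0 (c l) :=
      congrFun hO1 (c l)
    rw [Function.update_of_ne (hcr l hl), Function.update_of_ne (hcr l hl)] at h1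
    rw [abs_sub_comm]
    exact of_floor_mul (by positivity : (0 : ℝ) < 2 ^ J) h1
  have hM0 : (0 : ℝ) ≤ M := Nat.cast_nonneg _
  have f1 : ∀ ω ω', 0 < Pool.Agent.H49.Ent.cond F.p B True ω →
      0 < Pool.Agent.H49.Ent.cond F.p B True ω' →
      (oth (c r) J F (ptr F J ω), (Vdg F c r v ω,
        (⌊σ * (d.hL W A (slam F W ω)).eval (uw F W ω) / 2 ^ x⌋,
        (d.cx (slam F W ω), F.W ω)))) =
      (oth (c r) J F (ptr F J ω'), (Vdg F c r v ω',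
        (⌊σ * (d.hL W A (slam F W ω')).eval (uw F W ω') / 2 ^ x⌋,
        (d.cx (slam F W ω'), F.W ω')))) →
      |F.X n₁ ω (c r) - F.X n₁ ω' (c r)| ≤ ((M + 2 : ℕ) : ℤ) := by
    intro ω ω' hω hω' e
    simp only [Prod.mk.injEq] at e
    obtain ⟨e1, -, e2, e3, -⟩ := e
    have h1 := key ω ω' (hBp ω hω) (hBp ω' hω') e1 e3
    have h2 := of_floor_div (by linarith : (0 : ℝ) < 2 ^ x) e2
    have h3 : |(2 : ℝ) ^ n₁ * F.x ω (c r) - 2 ^ n₁ * F.x ω' (c r)| ≤ ((M + 1 : ℕ) : ℝ) := by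
      rw [← mul_sub, abs_mul, abs_of_pos (by positivity : (0 : ℝ) < 2 ^ n₁)]
      have h4 : σ * |F.x ω (c r) - F.x ω' (c r)| ≤ 2 ^ x + M := by
        have h5 : σ * |F.x ω (c r) - F.x ω' (c r)| = |σ * (F.x ω' (c r) - F.x ω (c r))| := by
          rw [abs_mul, abs_of_nonneg hσ0, abs_sub_comm]
        rw [h5]
        rw [abs_le] at h1 h2 ⊢
        constructor <;> linarith [h1.1, h1.2, h2.1, h2.2]
      have h6 : (2 : ℝ) ^ n₁ * 2 ^ x ≤ σ := by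
        rw [hσ, ← Real.rpow_natCast 2 n₁, ← Real.rpow_natCast 2 n₂, ← Real.rpow_add (by norm_num)]
        exact Real.rpow_le_rpow_of_exponent_le (by norm_num) hn
      have h8 : (2 : ℝ) ^ x * (2 ^ n₁ * |F.x ω (c r) - F.x ω' (c r)|) ≤ 2 ^ x * (M + 1) := by
        have h9 : (2 : ℝ) ^ x * (2 ^ n₁ * |F.x ω (c r) - F.x ω' (c r)|) ≤
            σ * |F.x ω (c r) - F.x ω' (c r)| := by
          rw [← mul_assoc, mul_comm ((2 : ℝ) ^ x)]
          exact mul_le_mul_of_nonneg_right h6 (abs_nonneg _)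
        have h10 : (M : ℝ) ≤ 2 ^ x * M := le_mul_of_one_le_left hM0 hx1
        linarith
      have h11 := le_of_mul_le_mul_left h8 (by linarith)
      push_cast
      exact h11
    have h4 := floor_sub_le h3
    push_cast at h4 ⊢
    have e4 : F.X n₁ ω (c r) = ⌊(2 : ℝ) ^ n₁ * F.x ω (c r)⌋ := rfl
    have e5 : F.X n₁ ω' (c r) = ⌊(2 : ℝ) ^ n₁ * F.x ω' (c r)⌋ := rfl
    rw [e4, e5]
    linarith
  have f2 : ∀ ω ω', 0 < Pool.Agent.H49.Ent.cond F.p B True ω →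
      0 < Pool.Agent.H49.Ent.cond F.p B True ω' →
      (F.X n₃ ω (c r), (F.X n₁ ω (c r), (oth (c r) J F (ptr F J ω), (Vdg F c r v ω,
        (⌊σ * (d.hL W A (slam F W ω)).eval (uw F W ω) / 2 ^ x⌋,
        (d.cx (slam F W ω), F.W ω)))))) =
      (F.X n₃ ω' (c r), (F.X n₁ ω' (c r), (oth (c r) J F (ptr F J ω'), (Vdg F c r v ω',
        (⌊σ * (d.hL W A (slam F W ω')).eval (uw F W ω') / 2 ^ x⌋,
        (d.cx (slam F W ω'), F.W ω')))))) →
      |⌊σ * (d.hL W A (slam F W ω)).eval (uw F W ω) / 2 ^ y⌋ -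
        ⌊σ * (d.hL W A (slam F W ω')).eval (uw F W ω') / 2 ^ y⌋| ≤ ((M + 2 : ℕ) : ℤ) := by
    intro ω ω' hω hω' e
    simp only [Prod.mk.injEq] at e
    obtain ⟨e0, -, e1, -, -, e3, -⟩ := e
    have h1 := key ω ω' (hBp ω hω) (hBp ω' hω') e1 e3
    have h2 : |F.x ω (c r) - F.x ω' (c r)| ≤ 1 / 2 ^ n₃ :=
      of_floor_mul (by positivity : (0 : ℝ) < 2 ^ n₃) e0
    have h3 : |σ * (d.hL W A (slam F W ω)).eval (uw F W ω) / 2 ^ y -
        σ * (d.hL W A (slam F W ω')).eval (uw F W ω') / 2 ^ y| ≤ ((M + 1 : ℕ) : ℝ) := by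
      have h5 : |σ * (F.x ω' (c r) - F.x ω (c r))| ≤ 2 ^ y := by
        rw [abs_mul, abs_of_nonneg hσ0, abs_sub_comm]
        calc σ * |F.x ω (c r) - F.x ω' (c r)| ≤ σ * (1 / 2 ^ n₃) :=
              mul_le_mul_of_nonneg_left h2 hσ0
          _ ≤ 2 ^ y := by
            rw [hσ, mul_one_div, div_le_iff₀ (by positivity), ← Real.rpow_natCast 2 n₂,
              ← Real.rpow_natCast 2 n₃, ← Real.rpow_add (by norm_num)]
            exact Real.rpow_le_rpow_of_exponent_le (by norm_num) (by linarith)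
      rw [← sub_div, abs_div, abs_of_pos (by linarith : (0 : ℝ) < 2 ^ y),
        div_le_iff₀ (by linarith)]
      push_cast
      have h6 : (M : ℝ) ≤ M * 2 ^ y := le_mul_of_one_le_right hM0 hy1
      rw [abs_le] at h1 h5 ⊢
      constructor <;> nlinarith [h1.1, h1.2, h5.1, h5.2]
    have h4 := floor_sub_le h3
    push_cast at h4 ⊢
    linarith
  have g1 := CH_pair hp _ _ f1
  have g2 := CH_pair hp _ _ f2
  have hVd : CH (Pool.Agent.H49.Ent.cond F.p B True) (Vdg F c r v)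
      (fun ω => (⌊σ * (d.hL W A (slam F W ω)).eval (uw F W ω) / 2 ^ x⌋,
        (d.cx (slam F W ω), F.W ω))) ≤
      ∑ l ∈ range r, ((J - v l : ℕ) : ℝ) * Real.log 2 := (CH_le_Hu hp _ _).trans (H_Vdg F c r v hp)
  have s1 := nf_swap h0
    (fun ω => ⌊σ * (d.hL W A (slam F W ω)).eval (uw F W ω) / 2 ^ y⌋) (Vdg F c r v)
    (fun ω => (⌊σ * (d.hL W A (slam F W ω)).eval (uw F W ω) / 2 ^ x⌋,
        (d.cx (slam F W ω), F.W ω))) G hVd
  have s2 := CH_step h0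
    (fun ω => ⌊σ * (d.hL W A (slam F W ω)).eval (uw F W ω) / 2 ^ y⌋)
    (fun ω => oth (c r) J F (ptr F J ω))
    (fun ω => (Vdg F c r v ω,
      (⌊σ * (d.hL W A (slam F W ω)).eval (uw F W ω) / 2 ^ x⌋, (d.cx (slam F W ω), F.W ω))))
  have s3 := CH_step h0
    (fun ω => ⌊σ * (d.hL W A (slam F W ω)).eval (uw F W ω) / 2 ^ y⌋)
    (fun ω => F.X n₁ ω (c r))
    (fun ω => (oth (c r) J F (ptr F J ω), (Vdg F c r v ω,
      (⌊σ * (d.hL W A (slam F W ω)).eval (uw F W ω) / 2 ^ x⌋, (d.cx (slam F W ω), F.W ω)))))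
  have s4 := CH_step h0
    (fun ω => ⌊σ * (d.hL W A (slam F W ω)).eval (uw F W ω) / 2 ^ y⌋)
    (fun ω => F.X n₃ ω (c r))
    (fun ω => (F.X n₁ ω (c r), (oth (c r) J F (ptr F J ω), (Vdg F c r v ω,
      (⌊σ * (d.hL W A (slam F W ω)).eval (uw F W ω) / 2 ^ x⌋,
        (d.cx (slam F W ω), F.W ω))))))
  have s5 : CH (Pool.Agent.H49.Ent.cond F.p B True) (fun ω => F.X n₃ ω (c r))
      (fun ω => (F.X n₁ ω (c r), (oth (c r) J F (ptr F J ω), (Vdg F c r v ω,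
      (⌊σ * (d.hL W A (slam F W ω)).eval (uw F W ω) / 2 ^ x⌋,
        (d.cx (slam F W ω), F.W ω)))))) ≤
      CH (Pool.Agent.H49.Ent.cond F.p B True) (fun ω => F.X n₃ ω (c r))
      (fun ω => (F.X n₁ ω (c r), oth (c r) J F (ptr F J ω))) :=
    CH_mono_cond h0 fun ω ω' _ _ e => by
      simp only [Prod.mk.injEq] at e
      exact Prod.ext e.1 e.2.1
  have s6 := CH_oth (hF.sub hBA) hv hSV HG.SVE hc hp hBp
    (fun ω => (Vdg F c r v ω,
      (⌊σ * (d.hL W A (slam F W ω)).eval (uw F W ω) / 2 ^ x⌋,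
        (d.cx (slam F W ω), F.W ω)))) fun ω ω' _ _ e => by
      simp only [Prod.mk.injEq] at e
      exact ⟨e.2.2.2, e.2.2.1, e.1⟩
  linarith

/-- **The rows at the levels of a grid**, in the form of the law on all jets. -/
theorem nfg_of (hA : 0 < Pe F.p A) (hF : FrD d A W c E₀)
    {v : ℕ → ℕ} (hv : ∀ l < r, v l ≤ J) (hSV : ∀ l < r, d.SV l = 2 ^ v l)
    (hcr : ∀ l < r, c l ≠ c r) (hc : ∀ j, j ≠ c r → ∃ l < r, c l = j) {K₁ : ℕ} {n₂ : ℕ}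
    (hlip : ∀ ω, A ω → ∀ l < r, ∀ j ≤ D,
      (2 : ℝ) ^ n₂ * |(d.gp l (slam F W ω)).coeff j| ≤ K₁ * 2 ^ J)
    (hn2 : n₂ ≤ J) {q h c₀ e e' : ℝ} {N₀ : ℕ} (hq : 0 ≤ q) (hqn : q * J ≤ n₂) (hh1 : h ≤ 1)
    (hh : 0 ≤ h) (hc₀ : 0 < c₀) (hN₀ : 0 < N₀)
    (he : 2 * (e * J) + 2 * Real.log 2 +
      (r * Real.log (2 * (3 + r * E₀ : ℕ) + 1) +
      2 * Real.log (2 * (r * E₀ + r * ((D + 1) * K₁ * (1 + r * E₀)) + 2 : ℕ) + 1) +
      ((r * (D + 3)) * Real.log (2 * ((2 * K : ℕ) + 1) + 1) +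
        2 * Real.log (2 * (K * (1 + r * (D + 1) ^ 2) + 1 : ℕ) + 1))) ≤ e' * J)
    (hrow : ∀ B : F.Ω → Prop, Sub B A → c₀ * Pe F.p A ≤ Pe F.p B →
      (∀ n₁ n₃ : ℕ, n₁ ≤ n₃ → n₃ ≤ n₂ → (n₂ : ℝ) - n₁ ≤ q * J + 1 →
        CH (Pool.Agent.H49.Ent.cond F.p B True) (fun ω => F.X n₃ ω (c r))
          (fun ω => (F.X n₁ ω (c r), oth (c r) J F (ptr F J ω))) ≤
          (1 - h) * ((n₃ : ℝ) - n₁) * Real.log 2 + e * J) ∧
      ∃ (γ' : Type) (G : F.Ω → γ'), HopP d B W (2 ^ n₂) K G ∧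
        ∑ l ∈ range r, ((J - v l : ℕ) : ℝ) * Real.log 2 - e * J ≤
          CH (Pool.Agent.H49.Ent.cond F.p B True) (Vdg F c r v) G) :
    Pool.AJ18.NFg F A (fun s => Polynomial.C ((2 : ℝ) ^ n₂) * d.hL W A s) (fun s => d.cx s) W q h
      e' c₀ N₀ := by
  intro B hBA hBc i j hij hj
  obtain ⟨hr1, γ', G, HG, hfull⟩ := hrow B hBA hBc
  have hJr : (0 : ℝ) ≤ J := Nat.cast_nonneg J
  have hl2 : 0 < Real.log 2 := Real.log_pos (by norm_num)
  have hB : 0 < Pe F.p B := lt_of_lt_of_le (mul_pos hc₀ hA) hBc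
  have hN0 : (0 : ℝ) < N₀ := by exact_mod_cast hN₀
  have hi0 : (0 : ℝ) ≤ i := Nat.cast_nonneg i
  have hij' : (i : ℝ) ≤ j := by exact_mod_cast hij
  have hj' : (j : ℝ) ≤ N₀ := by exact_mod_cast hj
  obtain ⟨y, hy⟩ : ∃ y : ℝ, y = (q * i / N₀) * J := ⟨_, rfl⟩
  obtain ⟨x, hx⟩ : ∃ x : ℝ, x = (q * j / N₀) * J := ⟨_, rfl⟩
  have hy0 : 0 ≤ y := by
    rw [hy]
    positivity
  have hyx : y ≤ x := by
    rw [hy, hx]
    gcongr
  have hxq : x ≤ q * J := by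
    rw [hx]
    refine mul_le_mul_of_nonneg_right ?_ hJr
    rw [div_le_iff₀ hN0]
    exact mul_le_mul_of_nonneg_left hj' hq
  rw [← hy, ← hx]
  obtain ⟨n₁, hn₁⟩ : ∃ n₁ : ℕ, n₁ = ⌊(n₂ : ℝ) - x⌋₊ := ⟨_, rfl⟩
  obtain ⟨n₃, hn₃⟩ : ∃ n₃ : ℕ, n₃ = ⌈(n₂ : ℝ) - y⌉₊ := ⟨_, rfl⟩
  have hnx : 0 ≤ (n₂ : ℝ) - x := by linarith
  have hny : 0 ≤ (n₂ : ℝ) - y := by linarith
  have a1 : (n₁ : ℝ) + x ≤ n₂ := by
    have := Nat.floor_le hnx
    rw [← hn₁] at this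
    linarith
  have a2 : (n₂ : ℝ) < n₁ + x + 1 := by
    have := Nat.lt_floor_add_one ((n₂ : ℝ) - x)
    rw [← hn₁] at this
    linarith
  have a3 : (n₂ : ℝ) ≤ n₃ + y := by
    have := Nat.le_ceil ((n₂ : ℝ) - y)
    rw [← hn₃] at this
    linarith
  have a4 : (n₃ : ℝ) + y < n₂ + 1 := by
    have := Nat.ceil_lt_add_one hny
    rw [← hn₃] at this
    linarith
  have a5 : n₁ ≤ n₃ := by
    have : (n₁ : ℝ) ≤ n₃ := by linarith
    exact_mod_cast this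
  have a6 : n₃ ≤ n₂ := by
    rw [hn₃]
    exact Nat.ceil_le.2 (by linarith)
  have s1 := rows_sub (W := W) hF hBA hB hv hSV hcr hc hlip rfl hn2 (hy0.trans hyx) a1 hy0 a3 HG
  have s2 := hr1 n₁ n₃ a5 a6 (by linarith)
  have e1 : ∀ ω, pj F (fun s => Polynomial.C ((2 : ℝ) ^ n₂) * d.hL W A s) W 0 ω =
      (2 : ℝ) ^ n₂ * (d.hL W A (slam F W ω)).eval (uw F W ω) := fun ω => by
    unfold pj
    rw [Function.iterate_zero, id]
    dsimp only
    rw [Polynomial.eval_mul, Polynomial.eval_C]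
  simp only [e1]
  refine s1.trans ?_
  have b1 : (1 - h) * ((n₃ : ℝ) - n₁) * Real.log 2 ≤
      (1 - h) * (q * j / N₀ - q * i / N₀) * Real.log 2 * J + 2 * Real.log 2 := by
    have c1 : (1 - h) * ((n₃ : ℝ) - n₁) ≤ (1 - h) * (x - y + 2) :=
      mul_le_mul_of_nonneg_left (by linarith) (by linarith)
    have c2 : (1 - h) * (x - y + 2) ≤ (1 - h) * (x - y) + 2 := by nlinarith
    have c3 := mul_le_mul_of_nonneg_right (c1.trans c2) hl2.le
    have c4 : (1 - h) * (x - y) = (1 - h) * (q * j / N₀ - q * i / N₀) * J := by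
      rw [hx, hy]
      ring
    rw [add_mul, c4] at c3
    linarith
  have e2 : ((1 - h) * (q * j / N₀ - q * i / N₀) * Real.log 2 + e') * J =
      (1 - h) * (q * j / N₀ - q * i / N₀) * Real.log 2 * J + e' * J := by ring
  rw [e2]
  linarith

end

end Pool.D2F2
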