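import Pool.Agent.H28.D2.Frh
import Pool.Agent.H91.FR.FrA

/-!
# The own velocity of the hop is free of the later records, from `FreeAt`

`FreeAt.frj`: `FrJ` from `FreeAt`. `free_eC_at`: a cell of the own velocity is free of the later
record, from `FreeAt` and the chain.
-/

set_option autoImplicit false

namespace Pool.D2F2

open Finset Real MvPolynomial
open Pool.Agent.H49.Ent Pool.Agent.H32.Dense Pool.STK Pool.KA Pool.KSAT Pool.K2S Pool.PB Pool.GEN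
open Pool.S6C Pool.LA91 Pool.CHT Pool.CHX Pool.M3F Pool.RCD
open Pool.D2F (cv CvC)

variable {m : ℕ} {S : PCl m} {c : ℕ → Fin m} {sn : ℕ → ℝ → ℝ} {G : Set ℝ} {g : ℝ} {C : ℕ}
  {σ : ℚ} {κ : ℝ} {k : ℕ}

/-- **`FrJ` from `FreeAt`** for one coordinate. -/
theorem frj_of_free
    (hpos : ∀ (τ : ℝ) (J : ℕ) (F : Fam m J) (A : F.Ω → Prop), S.St τ J F A → 0 < Pe F.p A)
    (h : FreeAt S (fun J F => ptr F J) (fun _ F => F.W) c 1 sn G g C σ κ k) {P₀ : ℚ}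
    (hP1 : sn 0 g - g ≤ P₀) (hP2 : (P₀ : ℝ) ≤ sn 0 g - g + C * (1 / 2) ^ k) {b w w' : ℝ}
    (hb : b ∈ G) (hb1 : g - C * (1 / 2) ^ k ≤ b) (hbw : b + lagG C 1 k ≤ w) (hww : w ≤ w')
    (hw' : w' ≤ g + lstG C 1 k) :
    FrJ S (c 0) b (sn 0 b - (σ : ℝ) / 20 * (1 / 2) ^ k) P₀ w w' (κ * (1 / 2) ^ k) := by
  obtain ⟨k₂, hk₂, e₀, he₀, H⟩ := h (fun _ => P₀) b w w' ⟨fun i => by
      have : ((i : Fin 1) : ℕ) = 0 := by omega
      rw [this]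
      exact hP1, fun i => by
      have : ((i : Fin 1) : ℕ) = 0 := by omega
      rw [this]
      exact hP2, fun l i hli => absurd hli (by omega)⟩ hb hb1 hbw hww hw'
  refine ⟨k₂, hk₂, e₀, he₀, fun K => Bas.mono 0 ((H K).and (pos_bas hpos)) ?_⟩
  rintro J - F A ⟨H, hA⟩ V z V' z' mz mz' u hu
  obtain ⟨f, hf⟩ : ∃ f : F.Ω → Fin 1 → ℤ, f = fun ω _ => u ω := ⟨_, rfl⟩
  have hfP : (qG m c 1 (fun i x => sn i x - (σ : ℝ) / 20 * (1 / 2) ^ k) b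
      (fun _ => ((P₀ : ℚ) : ℝ))).P K e₀ J F A f := by
    intro i
    have hi : i = 0 := Subsingleton.elim _ _
    subst hi
    rw [hf]
    simpa using hu
  have key := H V z V' z' mz mz' f hfP
  have h0 := (isLaw_cond F.isLaw hA).nonneg
  have e1 : ∀ (T : Type) (y : F.Ω → T), CH (Pool.Agent.H49.Ent.cond F.p A True) f y =
      CH (Pool.Agent.H49.Ent.cond F.p A True) u y := fun T y =>
    CH_congr h0 (fun ω ω' _ _ e => by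
        rw [hf] at e
        exact congrFun (Prod.ext_iff.1 e).1 0)
      (fun ω ω' _ _ e => by
        rw [hf]
        funext i
        exact (Prod.ext_iff.1 e).1)
      (fun _ _ _ _ e => e) (fun _ _ _ _ e => e)
  rw [e1, e1] at key
  exact key

/-- The label of the first coordinate exists. -/
theorem att_of_ch {d : ℕ} (hW : ChG S c d sn G) (hd : 0 < d) {b : ℝ} (hb : b ∈ G) {p : ℝ}
    (hp : p ≤ sn 0 b) : ∃ rd : ℝ, 0 ≤ rd ∧ Att S ∅ (c 0) b p rd := by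
  obtain ⟨u₁, rd, hrd, hch⟩ := hW.ch b hb
  exact ⟨rd 0, hrd 0 hd, att_mono hp (hch.att 0 le_rfl hd)⟩

/-- **A cell of the own velocity is free of the later record**, from `FreeAt`. -/
theorem free_eC_at
    (hpos : ∀ (τ : ℝ) (J : ℕ) (F : Fam m J) (A : F.Ω → Prop), S.St τ J F A → 0 < Pe F.p A)
    {r : ℕ} (hr : 0 < r) (hW : ChG S c 1 sn G) (hσ : 0 ≤ σ)
    (hF : FreeAt S (fun J F => ptr F J) (fun _ F => F.W) c 1 sn G g C σ κ k) {P₀ : ℚ}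
    (hP1 : sn 0 g - g ≤ P₀) (hP2 : (P₀ : ℝ) ≤ sn 0 g - g + C * (1 / 2) ^ k) {b w w' : ℝ}
    (hb : b ∈ G) (hb1 : g - C * (1 / 2) ^ k ≤ b) (hbw : b + lagG C 1 k ≤ w) (hww : w ≤ w')
    (hw' : w' ≤ g + lstG C 1 k) (hw1 : w' ≤ 1) {v : ℝ} (hvw : v ≤ w) {c₁ : ℝ} (hc₁ : 0 < c₁)
    {h : ℝ} (hh : 0 < h) :
    ∃ k₂ : ℝ, 0 < k₂ ∧ Bas S (fun J F A =>
      ∀ B : F.Ω → Prop, Sub B A → c₁ * Pe F.p A ≤ Pe F.p B →
      ∀ (V : Type) (z : F.Ω → V) (V' : Type) (z' : F.Ω → V'),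
      Mx (fun (J : ℕ) (F : Fam m J) => ptr F J) (vg w) k₂ F B z →
      Mx (fun (J : ℕ) (F : Fam m J) => ptr F J) (vg w') k₂ F B z' →
      ∀ (ψ : PtT F → ℕ → Option (Fin m) → ℝ) (ψH : LnT F → ℕ → Option (Fin m) → ℝ),
      (∀ ω, B ω → ψ (ptr F J ω) = ψH (slam F ⌊v * J⌋₊ ω)) → (∀ s, CvC c 0 (ψH s 0)) →
      ∀ (n D q₀ q sg Q s : ℕ) (g' : ℕ → ℕ) (Ht : LnT F → MvPolynomial (Option (Fin m)) ℝ)
        (hD : ∀ s, (Ht s).totalDegree ≤ D),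
      (Q : ℝ) ≤ (P₀ : ℝ) * J + (⌊v * J⌋₊ + 1 : ℕ) + s → (P₀ : ℝ) * J + (⌊v * J⌋₊ + 1 : ℕ) ≤ Q + s →
      (s : ℝ) ≤ h * J →
      CH (Pool.Agent.H49.Ent.cond F.p B True) (fun ω => ⌊(2 : ℝ) ^ Q *
          (hdt2 F c g' ⌊v * J⌋₊ n r D q₀ q sg ψH Ht hD).e ⌊v * J⌋₊ 0 ω⌋)
          (fun ω => (z ω, F.W ω)) ≤
        CH (Pool.Agent.H49.Ent.cond F.p B True) (fun ω => ⌊(2 : ℝ) ^ Q *
          (hdt2 F c g' ⌊v * J⌋₊ n r D q₀ q sg ψH Ht hD).e ⌊v * J⌋₊ 0 ω⌋)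
          (fun ω => (z' ω, F.W ω)) + (κ * (1 / 2) ^ k + 4 * h) * J) := by
  have hσ' : (0 : ℝ) ≤ σ := by exact_mod_cast hσ
  obtain ⟨rd, hrd, hatt⟩ := att_of_ch (p := sn 0 b - (σ : ℝ) / 20 * (1 / 2) ^ k) hW one_pos hb
    (by
      have : 0 ≤ (σ : ℝ) / 20 * (1 / 2) ^ k := by positivity
      linarith)
  have hlag : 0 ≤ lagG C 1 k := by
    unfold lagG
    positivity
  exact free_eC hpos hr hrd hatt (frj_of_free hpos hF hP1 hP2 hb hb1 hbw hww hw') (by linarith) hvw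
    hww hw1 hc₁ hh

end Pool.D2F2
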