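import Pool.Agent.H90.D2.Hid
import Pool.Agent.H28.D2.Frj

/-!
# The own data are free of the later record, on the grid

`cG_card`: the number of the cells of the coefficients. `gP_mono`. `scl_ex`: a dyadic scale.
`fre_grid`: for one of the blocks the own data (the cell of the velocity and the cells of the
coefficients) are free of the record of the next window.
-/

set_option autoImplicit false

namespace Pool.D2N

open Finset Real MvPolynomial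
open Pool.Agent.H49.Ent Pool.Agent.H32.Dense Pool.STK Pool.KA Pool.KSAT Pool.K2S Pool.PB Pool.S6C
open Pool.GEN Pool.CHT Pool.CHX Pool.LA91
open Pool.LBT (ThrOf)
open Pool.ALL (RateOf)
open Pool.D2F Pool.D2Z Pool.D2F2
open Pool.D2R (dd hs co co_slam ROutB ROut1)
open Pool.PKG (RecG Kg kgL)
open Pool.M3F (ExvY)
open Pool.OWN68 (CH_pair floor_sub_le)

/-- The factor of the digits. -/
theorem deg_pow' {D x : ℕ} (h : 2 * D ≤ x) : ((D : ℝ) + 1) * 2 ^ D ≤ 2 ^ x := by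
  have h1 : ((D : ℝ) + 1) ≤ 2 ^ D := by
    have : D + 1 ≤ 2 ^ D := Nat.lt_two_pow_self
    exact_mod_cast this
  calc ((D : ℝ) + 1) * 2 ^ D ≤ 2 ^ D * 2 ^ D := mul_le_mul_of_nonneg_right h1 (by positivity)
    _ = 2 ^ (2 * D) := by rw [two_mul, pow_add]
    _ ≤ 2 ^ x := pow_le_pow_right₀ (by norm_num) h

/-- **The number of the cells of the coefficients.** -/
theorem cG_card {m J : ℕ} {F : Fam m J} {c : ℕ → Fin m} {g : ℕ → ℕ} {w n D q₀ q sg K : ℕ}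
    {ψH : LnT F → ℕ → Option (Fin m) → ℝ} {Ht : LnT F → MvPolynomial (Option (Fin m)) ℝ}
    {hD : ∀ s, (Ht s).totalDegree ≤ D} {B : F.Ω → Prop} {p : F.Ω → ℝ} (hp : IsLaw p)
    (hB : ∀ ω, 0 < p ω → B ω)
    (hs : ∀ ω, B ω → ∀ l < 3, ∀ j, 1 ≤ j → |(gq F c g w n ψH Ht (slam F w ω) l).coeff j| ≤
      2 ^ K * (2 ^ g l / 2 ^ g 3)) {T : Type} (Z : F.Ω → T) :
    CH p (cG (hdt2 F c g w n 3 D q₀ q sg ψH Ht hD) w) Z ≤
      3 * (D * (((K + sg + 3 : ℕ) : ℝ) * Real.log 2)) := by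
  have hn := hp.nonneg
  have key : ∀ (l : Fin 3) (j : Fin D), CH p (fun ω =>
      cG (hdt2 F c g w n 3 D q₀ q sg ψH Ht hD) w ω l j) Z ≤
      ((K + sg + 3 : ℕ) : ℝ) * Real.log 2 := by
    intro l j
    have h1 : ∀ ω, 0 < p ω → |2 ^ (g 3 + sg) / 2 ^ g l *
        (gq F c g w n ψH Ht (slam F w ω) l).coeff (j + 1)| ≤ 2 ^ (K + sg) := by
      intro ω hω
      have h2 := hs ω (hB ω hω) l l.2 (j + 1) (by omega)
      rw [abs_mul, abs_of_pos (show (0 : ℝ) < 2 ^ (g 3 + sg) / 2 ^ g l by positivity)]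
      refine (mul_le_mul_of_nonneg_left h2 (by positivity)).trans (le_of_eq ?_)
      rw [pow_add, pow_add]
      field_simp
    have h3 := CH_pair (D := 2 ^ (K + sg + 1) + 1) hp (fun ω =>
      cG (hdt2 F c g w n 3 D q₀ q sg ψH Ht hD) w ω l j) Z fun ω ω' hω hω' _ => by
        refine floor_sub_le (D := 2 ^ (K + sg + 1)) ?_
        have a1 := abs_le.1 (h1 ω hω)
        have a2 := abs_le.1 (h1 ω' hω')
        have a3 : ((2 ^ (K + sg + 1) : ℕ) : ℝ) = 2 * 2 ^ (K + sg) := by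
          push_cast
          rw [pow_succ]
          ring
        rw [a3]
        refine abs_le.2 ⟨?_, ?_⟩
        · change -(2 * 2 ^ (K + sg)) ≤ 2 ^ (g 3 + sg) / 2 ^ g l *
            (gq F c g w n ψH Ht (slam F w ω) l).coeff (j + 1) - 2 ^ (g 3 + sg) / 2 ^ g l *
            (gq F c g w n ψH Ht (slam F w ω') l).coeff (j + 1)
          linarith
        · change 2 ^ (g 3 + sg) / 2 ^ g l *
            (gq F c g w n ψH Ht (slam F w ω) l).coeff (j + 1) - 2 ^ (g 3 + sg) / 2 ^ g l *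
            (gq F c g w n ψH Ht (slam F w ω') l).coeff (j + 1) ≤ 2 * 2 ^ (K + sg)
          linarith
    refine h3.trans ?_
    rw [← Real.log_pow]
    refine Real.log_le_log (by positivity) ?_
    have h4 : 1 ≤ 2 ^ (K + sg) := Nat.one_le_two_pow
    have h5 : 2 * (2 ^ (K + sg + 1) + 1) + 1 ≤ 2 ^ (K + sg + 3) := by
      have e1 : 2 ^ (K + sg + 1) = 2 * 2 ^ (K + sg) := by rw [pow_succ]; ring
      have e2 : 2 ^ (K + sg + 3) = 8 * 2 ^ (K + sg) := by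
        rw [pow_add]
        norm_num
        ring
      rw [e1, e2]
      omega
    exact_mod_cast h5
  have k1 := CH_pi_le hn Z 3 (fun (l : Fin 3) ω =>
    cG (hdt2 F c g w n 3 D q₀ q sg ψH Ht hD) w ω l)
    (c := D * (((K + sg + 3 : ℕ) : ℝ) * Real.log 2)) fun l =>
      CH_pi_le hn Z D (fun (j : Fin D) ω =>
        cG (hdt2 F c g w n 3 D q₀ q sg ψH Ht hD) w ω l j) fun j => key l j
  exact_mod_cast k1

/-- The grid points are monotone in the offset. -/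
theorem gP_mono {u : ℝ} (hu : 0 ≤ u) {n₁ : ℕ} {r r' : ℝ} (h : r ≤ r') :
    gP u n₁ r ≤ gP u n₁ r' := by
  unfold gP
  refine Nat.floor_le_floor (mul_le_mul_of_nonneg_right ?_ (Nat.cast_nonneg _))
  have := mul_le_mul_of_nonneg_right h hu
  linarith

/-- **A dyadic scale** near `q / 40`. -/
theorem scl_ex {q : ℝ} (hq : 0 < q) (hq1 : q ≤ 1) (k₀ : ℕ) (hqk : q ≤ (1 / 2) ^ k₀) :
    ∃ k : ℕ, k₀ ≤ k ∧ q / 80 ≤ (1 / 2 : ℝ) ^ k ∧ (1 / 2 : ℝ) ^ k ≤ q / 40 := by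
  obtain ⟨k', h1, h2⟩ := exists_nat_pow_near (x := 40 / q) (y := 2) (by
    rw [le_div_iff₀ hq]
    linarith) (by norm_num)
  have e1 : (1 / 2 : ℝ) ^ (k' + 1) = 1 / 2 ^ (k' + 1) := by rw [one_div_pow]
  have h3 : (1 / 2 : ℝ) ^ (k' + 1) ≤ q / 40 := by
    rw [e1, div_le_div_iff₀ (by positivity) (by norm_num)]
    rw [div_lt_iff₀ hq] at h2
    linarith
  have h4 : q / 80 ≤ (1 / 2 : ℝ) ^ (k' + 1) := by
    rw [e1, pow_succ, div_le_div_iff₀ (by norm_num) (by positivity)]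
    rw [le_div_iff₀ hq] at h1
    linarith
  refine ⟨k' + 1, ?_, h4, h3⟩
  by_contra hlt
  have h5 : (1 / 2 : ℝ) ^ k₀ ≤ (1 / 2) ^ (k' + 1) :=
    pow_le_pow_of_le_one (by norm_num) (by norm_num) (by omega)
  linarith

/-- **The base coefficients are natural** on the grid. -/
theorem siz_grid {κ t q : ℝ} (hκ : 1 < κ) {J nd D x e₀ : ℕ} {m : ℕ} {F : Fam m J}
    {c : ℕ → Fin m} {Sl : ℕ → ℝ} {L : ℕ → ℝ → ℝ → ℝ} {u : ℝ} (hD2 : 2 ≤ D)
    (s0 : Sl 0 = 1) (s1 : Sl 1 = κ) (s2 : Sl 2 = κ) (s3 : Sl 3 = κ + 1)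
    (hq : 0 < q) (ht : 0 < t) (ht1 : t + q ≤ 1) (hnd : 0 < nd) (hc : Set.InjOn c (Set.Iio 4))
    {B : F.Ω → Prop} {g : ℕ → ℕ → ℕ} {ψ : ℕ → PtT F → ℕ → Option (Fin m) → ℝ}
    {ψH : ℕ → LnT F → ℕ → Option (Fin m) → ℝ} {Sv : PtT F → ℕ → Option (Fin m) → ℝ}
    {Gc : ℕ → PtT F → ℕ → MvPolynomial (Option (Fin m)) ℝ}
    {H : ℕ → LnT F → ℕ → MvPolynomial (Option (Fin m)) ℝ}
    {Ht : LnT F → MvPolynomial (Option (Fin m)) ℝ} (hD : ∀ s, (Ht s).totalDegree ≤ D)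
    (hX1 : 2 * D ≤ x) (hX2 : 16 * (κ + 1) ≤ x) (hρ : κ * (q * J / nd + 1) ≤ x)
    (hy : 2000 * (x : ℝ) ≤ (κ - 1) * (q * J)) (hy' : 2000 * (x : ℝ) ≤ q * J)
    (hlev : ∀ k ≤ nd, ∀ l ≤ 3, 16 * |(g k l : ℝ) - (L l t t + Sl l * (k / nd * q)) * J| ≤ x)
    (hroom : ∀ k ≤ nd, ∀ l ≤ 3, e₀ + g k l + 5 ≤ J)
    (hop : HopD F c D nd x e₀ (wG t q nd J) B g ψ ψH Sv Gc H Ht)
    (hco : Co0 F c 0 x (wG t q nd J (gP u nd 0) - wG t q nd J 0) (wG t q nd J (gP u nd 0))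
      (g (gP u nd 0)) (ψH (gP u nd 0)) Ht B) :
    ∀ ω, B ω → ∀ l < 3, ∀ j, 1 ≤ j →
      |(gq F c (g (gP u nd 0)) (wG t q nd J (gP u nd 0))
        (wG t q nd J (gP u nd 0) - wG t q nd J 0) (ψH (gP u nd 0)) Ht
        (slam F (wG t q nd J (gP u nd 0)) ω) l).coeff j| ≤
        2 ^ (150 * x) * (2 ^ (g (gP u nd 0) l) / 2 ^ (g (gP u nd 0) 3)) := by
  have hJ : (0 : ℝ) ≤ J := Nat.cast_nonneg J
  have hqJ : 0 ≤ q * J := mul_nonneg hq.le hJ
  have hndR : (0 : ℝ) < nd := by exact_mod_cast hnd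
  have hx1 : 1 ≤ x := by omega
  have hkw : gP u nd 0 ≤ nd := gP_le1 (by linarith)
  have hpos1 : ∀ k : ℕ, (0 : ℝ) ≤ (k : ℝ) / nd * q := fun k => by positivity
  have hvk : ∀ k ≤ nd, |(wG t q nd J k : ℝ) - (t + k / nd * q) * J| ≤ 1 := by
    intro k hk
    unfold wG
    have b0 : 0 ≤ (t + k / nd * q) * J := mul_nonneg (by linarith [hpos1 k]) hJ
    have b1 := Nat.floor_le b0
    have b2 := Nat.lt_floor_add_one ((t + k / nd * q) * J)
    exact abs_le.2 ⟨by linarith, by linarith⟩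
  obtain ⟨Λ, hΛ⟩ : ∃ Λ : ℕ → ℝ, Λ = fun l => L l t t * J - Sl l * t * J := ⟨_, rfl⟩
  have hS : ∀ l ≤ 3, 0 ≤ Sl l ∧ Sl l ≤ κ + 1 := by
    intro l hl
    interval_cases l
    · rw [s0]; constructor <;> linarith
    · rw [s1]; constructor <;> linarith
    · rw [s2]; constructor <;> linarith
    · rw [s3]; constructor <;> linarith
  have hlv : ∀ k ≤ nd, LvH Sl (x / 16 + (κ + 1)) Λ (wG t q nd J k) (g k) := by
    intro k hk l hl
    have b1 := hlev k hk l hl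
    have b2 := hvk k hk
    have b3 : (g k l : ℝ) - (Λ l + Sl l * wG t q nd J k) =
        ((g k l : ℝ) - (L l t t + Sl l * (k / nd * q)) * J) -
          Sl l * ((wG t q nd J k : ℝ) - (t + k / nd * q) * J) := by
      rw [hΛ]
      ring
    rw [b3]
    refine (abs_sub _ _).trans (add_le_add (by linarith) ?_)
    rw [abs_mul, abs_of_nonneg (hS l hl).1]
    calc Sl l * |(wG t q nd J k : ℝ) - (t + k / nd * q) * J| ≤ (κ + 1) * 1 :=
          mul_le_mul (hS l hl).2 b2 (abs_nonneg _) (by linarith)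
      _ = κ + 1 := mul_one _
  have hρ0 : 0 ≤ q * J / nd := by positivity
  have hρκ : q * J / nd + 1 ≤ κ * (q * J / nd + 1) :=
    le_mul_of_one_le_left (by linarith) hκ.le
  have w0 := abs_le.1 (gP_win (u := 0) (r := 0) (n₁ := nd) (v := wG t q nd J (gP u nd 0)) le_rfl
    le_rfl hnd hq.le hJ (by
      have e1 : gP 0 nd 0 = gP u nd 0 := by
        unfold gP
        rw [zero_mul, zero_mul]
      rw [e1]
      exact hvk _ hkw))
  rw [zero_mul, add_zero] at w0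
  have hv0 := abs_le.1 (hvk 0 (Nat.zero_le _))
  have hvn := abs_le.1 (hvk nd le_rfl)
  rw [div_self hndR.ne'] at hvn
  push_cast at hv0
  rw [zero_div] at hv0
  have hκ1 : (κ - 1) * (q * J / 2) ≤ (κ - 1) * ((wG t q nd J nd : ℝ) - wG t q nd J (gP u nd 0)) :=
    mul_le_mul_of_nonneg_left (by linarith) (by linarith)
  have hx1R : (1 : ℝ) ≤ x := by exact_mod_cast hx1
  obtain ⟨Mg, hN⟩ := hpn_of (s := 0) (b := wG t q nd J nd) (gb := g nd) s0 s1 s2 s3 hκ.le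
    (show (0 : ℝ) ≤ x / 16 + (κ + 1) by positivity) hx1 (by linarith) (hlv 0 (Nat.zero_le _))
    (hlv _ hkw) (hlv nd le_rfl) (hlv nd le_rfl) (by
      have : (wG t q nd J (gP u nd 0) : ℝ) ≤ wG t q nd J nd := by linarith
      exact_mod_cast this) (by
      push_cast
      linarith) (by
      push_cast
      linarith) (by
      push_cast
      linarith) (by
      push_cast
      linarith)
  obtain ⟨v₀, v', e', p', gT, U, T, TH, hdp⟩ := hop.dp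
  have hc3 : Set.InjOn c (Set.Iio 3) := hc.mono fun j hj => by
    have : j < 3 := hj
    exact Set.mem_Iio.2 (by omega)
  have hvJ : wG t q nd J (gP u nd 0) ≤ J := by
    have b2 : (t + gP u nd 0 / nd * q) * J ≤ J := by
      have b4 : (gP u nd 0 : ℝ) / nd ≤ 1 := by
        rw [div_le_one hndR]
        exact_mod_cast hkw
      have b5 := mul_le_mul_of_nonneg_right b4 hq.le
      have b3 : t + gP u nd 0 / nd * q ≤ 1 := by linarith
      have := mul_le_mul_of_nonneg_right b3 hJ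
      linarith
    unfold wG
    have b0 : 0 ≤ (t + gP u nd 0 / nd * q) * J := mul_nonneg (by linarith [hpos1 (gP u nd 0)]) hJ
    have b4 := Nat.floor_le b0
    have : ((⌊(t + gP u nd 0 / nd * q) * J⌋₊ : ℕ) : ℝ) ≤ J := by linarith
    exact_mod_cast this
  exact siz_of hN hc3 hvJ hD2 (deg_pow' hX1) (hop.wn 0 (Nat.zero_le _)).bl.wf
    (hop.wn _ hkw).bl.wf (hop.wn nd le_rfl).bl.wf hdp le_rfl le_rfl le_rfl le_rfl hop.hQ hD
    hop.hM hco fun j hj => by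
      have := hroom _ hkw j (by omega)
      omega

/-- **The pigeonhole over the blocks**, for the records. -/
theorem fre_pig {m J : ℕ} {F : Fam m J} {c : ℕ → Fin m} {κ u t q : ℝ} {nd D x n q₁ : ℕ}
    {g : ℕ → ℕ → ℕ} {ψH : ℕ → LnT F → ℕ → Option (Fin m) → ℝ}
    {Ht : LnT F → MvPolynomial (Option (Fin m)) ℝ} {hD : ∀ s, (Ht s).totalDegree ≤ D}
    {B : F.Ω → Prop} (hB : 0 < Pe F.p B) (hn : 0 < n) {Vz : ℕ → Type} {z : ∀ k, PtT F → Vz k}
    {zH : ∀ k, LnT F → Vz k} {win : ℕ → ℕ} (hz : ∀ k ≤ n, Rcd F B (win k) (z k) (zH k))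
    (hw : ∀ k < n, win k ≤ win (k + 1)) (hJ : ∀ k ≤ n, win k ≤ J) {y BG η : ℝ}
    (hE : CH (cond F.p B True)
        (fun ω => eC (dG F c κ u t q nd D x 0 g ψH Ht hD) (wG t q nd J (gP u nd 0))
          (g (gP u nd 0) 0 + q₁) ω) (fun ω => (z 0 (ptr F J ω), F.W ω)) ≤
      CH (cond F.p B True)
        (fun ω => eC (dG F c κ u t q nd D x 0 g ψH Ht hD) (wG t q nd J (gP u nd 0))
          (g (gP u nd 0) 0 + q₁) ω) (fun ω => (z n (ptr F J ω), F.W ω)) + y)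
    (hG : ∀ (T : Type) (Z : F.Ω → T), CH (cond F.p B True)
        (fun ω => cG (dG F c κ u t q nd D x 0 g ψH Ht hD) (wG t q nd J (gP u nd 0)) ω) Z ≤ BG)
    (hη : y + BG / n ≤ η * J) :
    ∃ i < n, FreB F c κ u t q nd D x i g ψH Ht hD q₁ η B (z i) (z (i + 1)) := by
  have hcl := isLaw_cond F.isLaw hB
  have hqA : ∀ ω, 0 < Pool.Agent.H49.Ent.cond F.p B True ω → B ω := fun ω hω =>
    of_eq_true ((cond_pos_iff F.isLaw.nonneg B True ω).1 hω).2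
  have hst : ∀ a < n, Det (Pool.Agent.H49.Ent.cond F.p B True)
      (fun ω => (z (a + 1) (ptr F J ω), F.W ω)) (fun ω => (z a (ptr F J ω), F.W ω)) := by
    intro a ha ω ω' hω hω' e
    have e1 := Prod.ext_iff.1 e
    exact Prod.ext ((hz (a + 1) (by omega)).det' (hw a ha) (hJ _ (by omega))
      (hz a (by omega)).cls (hqA _ hω) (hqA _ hω') e1.1) e1.2
  have hst' : ∀ a b, (a = b ∨ (b = a + 1 ∧ a < n)) →
      Det (Pool.Agent.H49.Ent.cond F.p B True)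
      (fun ω => (z b (ptr F J ω), F.W ω)) (fun ω => (z a (ptr F J ω), F.W ω)) := by
    rintro a b (rfl | ⟨rfl, ha⟩)
    · exact fun _ _ _ _ k => k
    · exact hst a ha
  have cst : ∀ {S : Type} (f : F.Ω → S) (a b : ℕ), a = b →
      CH (Pool.Agent.H49.Ent.cond F.p B True) f (fun ω => (z a (ptr F J ω), F.W ω)) =
      CH (Pool.Agent.H49.Ent.cond F.p B True) f (fun ω => (z b (ptr F J ω), F.W ω)) := by
    rintro S f a b rfl
    rfl
  obtain ⟨i, hi, h⟩ := free_pig hcl.nonneg (x := y) (BG := BG)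
    (E := fun ω => eC (dG F c κ u t q nd D x 0 g ψH Ht hD) (wG t q nd J (gP u nd 0))
      (g (gP u nd 0) 0 + q₁) ω)
    (G := fun ω => cG (dG F c κ u t q nd D x 0 g ψH Ht hD) (wG t q nd J (gP u nd 0)) ω) hn
    (fun k ω => (z (min ((k + 1) / 2) n) (ptr F J ω), F.W ω))
    (fun k => hst' _ _ (by omega)) (by
      rw [cst _ (min ((0 + 1) / 2) n) 0 (by omega),
        cst _ (min ((2 * n - 1 + 1) / 2) n) n (by omega)]
      exact hE) (hG _ _)
  refine ⟨i, hi, ?_⟩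
  rw [cst _ (min ((2 * i + 1) / 2) n) i (by omega),
    cst _ (min ((2 * i + 1 + 1) / 2) n) (i + 1) (by omega)] at h
  exact h.trans (add_le_add le_rfl hη)

/-- **The chart window**: among the windows `t - (3 + j / 2) q`, `j < 9`. -/
theorem cht_ex {t q r x₀ : ℝ} (hq : 0 < q) (h1 : q / 80 ≤ r) (h2 : r ≤ q / 40)
    (hx2 : x₀ ≤ t - q) :
    ∃ j : ℕ, j < 9 ∧ x₀ - 240 * r ≤ t - (3 + (j : ℝ) / 2) * q ∧
      t - (3 + (j : ℝ) / 2) * q + 260 * r ≤ t := by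
  have e1 : 0 ≤ 2 * (260 * r / q - 3) := by
    have : 3 ≤ 260 * r / q := by
      rw [le_div_iff₀ hq]
      linarith
    linarith
  have e2 : 2 * (260 * r / q - 3) ≤ 7 := by
    have : 260 * r / q ≤ 13 / 2 := by
      rw [div_le_iff₀ hq]
      linarith
    linarith
  have e3 := Nat.le_ceil (2 * (260 * r / q - 3))
  have e4 := Nat.ceil_lt_add_one e1
  have e5 : 260 * r / q * q = 260 * r := by field_simp
  obtain ⟨j, hj⟩ : ∃ j : ℕ, j = ⌈2 * (260 * r / q - 3)⌉₊ := ⟨_, rfl⟩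
  rw [← hj] at e3 e4
  refine ⟨j, ?_, ?_, ?_⟩
  · have : (j : ℝ) < (9 : ℕ) := by
      push_cast
      linarith
    exact_mod_cast this
  · have h3 : (j : ℝ) * q ≤ (2 * (260 * r / q - 3) + 1) * q :=
      mul_le_mul_of_nonneg_right e4.le hq.le
    have h4 : (2 * (260 * r / q - 3) + 1) * q = 2 * (260 * r / q * q) - 5 * q := by ring
    rw [h4, e5] at h3
    linarith
  · have h3 : 2 * (260 * r / q - 3) * q ≤ (j : ℝ) * q := mul_le_mul_of_nonneg_right e3 hq.le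
    have h4 : 2 * (260 * r / q - 3) * q = 2 * (260 * r / q * q) - 6 * q := by ring
    rw [h4, e5] at h3
    linarith

/-- **The own data are free of the later record for one block.** -/
theorem fre_grid {κ : ℝ} (hκ : 1 < κ) {D : ℕ} (hD2 : 2 ≤ D) {η : ℝ} (hη : 0 < η) :
    ∃ n : ℕ, 0 < n ∧ ∀ {u₀ : ℝ}, 0 < u₀ → ∃ κf : ℚ, 0 < κf ∧ ∃ y₀ : ℝ, 0 < y₀ ∧ ∃ X₀ : ℕ,
    ∀ {y A' K' ε : ℝ} {nd : ℕ}, 0 < y → y ≤ y₀ → A' ≤ K' → 2 * κ + 8 ≤ K' → 0 ≤ ε → ε ≤ y →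
    0 < nd → ∀ (k₀ : ℕ) {al h : ℝ} {S : PCl 4} {g₀ : ℝ → ℝ}
      {P : List (Fin 4) × Fin 4 → ℝ → ℝ → ℝ} {θ : ℝ}
      {P₂ : ℕ → List (Fin 4) × Fin 4 → ℝ → ℝ → ℝ} {θ₂ Eb e₂ : ℕ → ℝ} {c : ℕ → Fin 4}
      {Pt : ℝ → ℝ → ℝ} {r : ℝ → ℝ} {L T : ℕ → ℝ → ℝ → ℝ} {Sl : ℕ → ℝ} {G : Set ℝ} {gg : ℝ},
    Sl 0 = 1 → Sl 1 = κ → Sl 2 = κ → Sl 3 = κ + 1 →
    ∃ q₂ : ℝ, 0 < q₂ ∧ ∀ {K₀ : ℝ} {S₀ N : ℕ} {A V : ℕ → ℝ} {S₂ N' : ℕ} {V' : ℕ → ℝ} {q t : ℝ},
    q < q₂ →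
    RecG S al g₀ P θ P₂ θ₂ Eb e₂ c Pt r h K₀ gg L T Sl (kgL [.one, .thin, .thin]) G S₀ N A V S₂ N'
      V' K' ε q t →
    RcL (P₂ 3) (θ₂ 3) c L Sl κ t q A' (Eb 3) (e₂ 3) ε nd →
    ∀ {x₀ : ℝ}, x₀ ∈ G → t - 2 * q ≤ x₀ → x₀ ≤ t - q →
    FaQ (1, 240, 1, κf) k₀ S P θ c Pt r L T (kgL [.one, .thin, .thin]) G x₀ →
    (∀ j : ℕ, j < 9 → t - (3 + (j : ℝ) / 2) * q ∈ G) → (∀ k ≤ nd, t + k / nd * q ∈ G) →
    ∀ {u : ℝ}, u₀ ≤ u → oO κ n * u ≤ 1 / 2 → ∀ {c₁ : ℝ}, 0 < c₁ →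
    Bas S (fun J F A₁ => ∀ B : F.Ω → Prop, Sub B A₁ → c₁ * Pe F.p A₁ ≤ Pe F.p B →
      ∀ (x e₀ : ℕ) (g : ℕ → ℕ → ℕ) (ψ : ℕ → PtT F → ℕ → Option (Fin 4) → ℝ)
        (ψH : ℕ → LnT F → ℕ → Option (Fin 4) → ℝ) (Sv : PtT F → ℕ → Option (Fin 4) → ℝ)
        (Gc : ℕ → PtT F → ℕ → MvPolynomial (Option (Fin 4)) ℝ)
        (H : ℕ → LnT F → ℕ → MvPolynomial (Option (Fin 4)) ℝ)
        (Ht : LnT F → MvPolynomial (Option (Fin 4)) ℝ) (hD : ∀ s, (Ht s).totalDegree ≤ D),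
      X₀ ≤ x → (x : ℝ) ≤ y * q * J → κ * (q * J / nd + 1) ≤ x →
      (e₀ : ℝ) ≤ (Eb 3 + 2 * y * q) * J →
      (∀ k ≤ nd, ∀ l ≤ 3, 16 * |(g k l : ℝ) - (L l t t + Sl l * (k / nd * q)) * J| ≤ x) →
      HopD F c D nd x e₀ (wG t q nd J) B g ψ ψH Sv Gc H Ht →
      Co0 F c 0 x (wG t q nd J (gP u nd 0) - wG t q nd J 0) (wG t q nd J (gP u nd 0))
        (g (gP u nd 0)) (ψH (gP u nd 0)) Ht B →
      ∃ q₁ : ℕ, q * J / 2 ≤ q₁ ∧ (q₁ : ℝ) ≤ 2 * q * J ∧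
      ∀ (Vz : ℕ → Type) (z : ∀ k, PtT F → Vz k) (zH : ∀ k, LnT F → Vz k),
      (∀ k ≤ n, Rcd F B (wG t q nd J (gP u nd (oO κ k))) (z k) (zH k)) →
      ∃ i < n, FreB F c κ u t q nd D x i g ψH Ht hD q₁ (η * u * q) B (z i) (z (i + 1))) := by
  obtain ⟨n, hn⟩ : ∃ n : ℕ, n = ⌈12 * (D : ℝ) / η⌉₊ + 1 := ⟨_, rfl⟩
  have hn0 : 0 < n := by omega
  have hnR : (0 : ℝ) < n := by exact_mod_cast hn0
  have hDn : 12 * (D : ℝ) ≤ η * n := by
    have h1 := Nat.le_ceil (12 * (D : ℝ) / η)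
    rw [div_le_iff₀ hη] at h1
    rw [hn]
    push_cast
    linarith
  refine ⟨n, hn0, fun {u₀} hu₀ => ?_⟩
  obtain ⟨κf, hκf0, hκf1⟩ := exists_rat_btwn (show (0 : ℝ) < 10 * η * u₀ by positivity)
  have hκf : 0 < κf := by exact_mod_cast hκf0
  refine ⟨κf, hκf, ?_⟩
  obtain ⟨y₀, hy₀⟩ : ∃ y₀ : ℝ, y₀ = min (min (η * u₀) u₀) (min (κ - 1) 1) / 4000 := ⟨_, rfl⟩
  have hy₀0 : 0 < y₀ := by
    rw [hy₀]
    have : 0 < min (min (η * u₀) u₀) (min (κ - 1) 1) :=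
      lt_min (lt_min (by positivity) hu₀) (lt_min (by linarith) one_pos)
    positivity
  have hy1 : 4000 * y₀ ≤ η * u₀ := by
    rw [hy₀]
    have := (min_le_left (min (η * u₀) u₀) (min (κ - 1) 1)).trans (min_le_left _ _)
    linarith
  have hy2 : 4000 * y₀ ≤ u₀ := by
    rw [hy₀]
    have := (min_le_left (min (η * u₀) u₀) (min (κ - 1) 1)).trans (min_le_right _ _)
    linarith
  have hy3 : 4000 * y₀ ≤ κ - 1 := by
    rw [hy₀]
    have := (min_le_right (min (η * u₀) u₀) (min (κ - 1) 1)).trans (min_le_left _ _)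
    linarith
  have hy4 : 4000 * y₀ ≤ 1 := by
    rw [hy₀]
    have := (min_le_right (min (η * u₀) u₀) (min (κ - 1) 1)).trans (min_le_right _ _)
    linarith
  refine ⟨y₀, hy₀0, 2 * D + ⌈16 * (κ + 1)⌉₊ + 64, ?_⟩
  intro y A' K' ε nd hy hyy hAK hK8 hε hεy hnd k₀ al h S g₀ P θ P₂ θ₂ Eb e₂ c Pt r L T Sl G gg
    s0 s1 s2 s3
  refine ⟨min 1 ((1 / 2) ^ k₀), lt_min one_pos (by positivity), ?_⟩
  intro K₀ S₀ N A V S₂ N' V' q t hq2 R RL x₀ hx₀ hxl hxu FA hGj hG u hu hun c₁ hc₁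
  have hq := R.q0
  have hq1 : q < 1 := hq2.trans_le (min_le_left _ _)
  obtain ⟨k, hkk, hr1, hr2⟩ := scl_ex hq hq1.le k₀ (hq2.trans_le (min_le_right _ _)).le
  obtain ⟨ρ, hρ⟩ : ∃ ρ : ℝ, ρ = (1 / 2 : ℝ) ^ k := ⟨_, rfl⟩
  have hndR : (0 : ℝ) < nd := by exact_mod_cast hnd
  have hu0 : 0 < u := hu₀.trans_le hu
  have ht0 : 0 < t := by linarith [RL.qt]
  have htq : t + 2 * q < 1 := by
    have h1 := RL.At
    have h2 := mul_le_mul_of_nonneg_right RL.A3 hq.le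
    linarith
  have hεq : ε * q ≤ y * q := mul_le_mul_of_nonneg_right hεy hq.le
  have hεq0 : 0 ≤ ε * q := by positivity
  have hyq0 : 0 < y * q := by positivity
  have hyq1 : 4000 * (y * q) ≤ q := by
    have := mul_le_mul_of_nonneg_right (show 4000 * y ≤ 1 by linarith) hq.le
    linarith
  have hW3 := R.tg 3 (by norm_num) (by norm_num)
  -- the chart window
  obtain ⟨j, hj9, hb1, hb2⟩ := cht_ex (t := t) (x₀ := x₀) hq hr1 hr2 hxu
  -- the digits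
  have hK' : |x₀ - t| ≤ K' * q := by
    have := mul_le_mul_of_nonneg_right hK8 hq.le
    rw [abs_le]
    constructor <;> nlinarith
  have hl0 := abs_le.1 (R.l0 x₀ hK')
  obtain ⟨P₀, hP1, hP2⟩ := exists_rat_btwn (show (3 / 4 * q : ℝ) < q by linarith)
  -- the windows
  have hkw : gP u nd 0 ≤ nd := gP_le1 (by linarith)
  have hoO2 : (2 : ℝ) ≤ oO κ 0 := oO_ge hκ 0
  have hgk : ∀ k ≤ n, gP u nd (oO κ k) ≤ nd := fun k hk => gP_le1 (by
    have h1 := mul_le_mul_of_nonneg_right (oO_mono hκ hk) hu0.le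
    linarith)
  have hwk : ∀ a b : ℕ, a ≤ b → t + (a : ℝ) / nd * q ≤ t + (b : ℝ) / nd * q := fun a b hab => by
    have h1 : (a : ℝ) ≤ b := by exact_mod_cast hab
    have h2 := mul_le_mul_of_nonneg_right (div_le_div_of_nonneg_right h1 hndR.le) hq.le
    linarith
  have hfr : ∀ k ≤ nd, (k : ℝ) / nd * q ≤ q := fun k hk => by
    have h1 : (k : ℝ) / nd ≤ 1 := by
      rw [div_le_one hndR]
      exact_mod_cast hk
    have := mul_le_mul_of_nonneg_right h1 hq.le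
    linarith
  have hfr0 : ∀ k : ℕ, 0 ≤ (k : ℝ) / nd * q := fun k => by positivity
  have hgm := fun {a b : ℝ} (hab : a ≤ b) => gP_mono (n₁ := nd) hu0.le hab
  have hfree := FA.free (by norm_num) (fun l hl => by
      have : l = 0 := by
        have : l < 1 := hl
        omega
      rw [this]
      rfl) one_pos le_rfl hκf k hkk
  obtain ⟨k₂, hk₂, hE⟩ := free_eC_at (S := S) (c := c) (sn := fun l w => L l w w) (G := G)
    (g := x₀) (C := 240) (σ := 1) (κ := κf) (k := k) R.pos (r := 3) (by norm_num)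
    (FA.ch 1 (by norm_num)) zero_le_one hfree (P₀ := P₀) (by
      linarith) (by
      push_cast
      linarith) (b := t - (3 + (j : ℝ) / 2) * q)
    (w := t + (gP u nd (oO κ 0) : ℕ) / nd * q) (w' := t + (gP u nd (oO κ n) : ℕ) / nd * q)
    (hGj j hj9) (by
      push_cast
      linarith) (by
      unfold lagG
      push_cast
      linarith [hfr0 (gP u nd (oO κ 0))]) (hwk _ _ (hgm (oO_mono hκ (Nat.zero_le _)))) (by
      unfold lstG
      push_cast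
      linarith [hfr _ (hgk n le_rfl)]) (by linarith [hfr _ (hgk n le_rfl)])
    (v := t + (gP u nd 0 : ℕ) / nd * q) (hwk _ _ (hgm (by linarith))) hc₁
    (h := η * u * q / 16) (by positivity)
  have hpos : Bas S (fun _ F A => 0 < Pe F.p A) := ⟨1, one_pos, 0, fun J _ F A h => R.pos _ _ _ _ h⟩
  refine Bas.mono 0 (hE.and hpos) ?_
  rintro J - F A ⟨hE, hA0⟩ B hBA hcB x e₀ g ψ ψH Sv Gc H Ht hD hX₀ hx hmesh he₀ hlv HD hco
  have hJ0 : (0 : ℝ) ≤ J := Nat.cast_nonneg J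
  have hB0 : 0 < Pe F.p B := (mul_pos hc₁ hA0).trans_le hcB
  have hx1 : (1 : ℝ) ≤ x := by
    have : 1 ≤ x := by omega
    exact_mod_cast this
  have hX1 : 2 * D ≤ x := by omega
  have hX2 : 16 * (κ + 1) ≤ x := by
    have h1 := Nat.le_ceil (16 * (κ + 1))
    have h2 : ⌈16 * (κ + 1)⌉₊ ≤ x := by omega
    have h3 : (⌈16 * (κ + 1)⌉₊ : ℝ) ≤ x := by exact_mod_cast h2
    linarith
  have hqJ0 : 0 ≤ q * J := by positivity
  have hxy : (x : ℝ) ≤ y * (q * J) := by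
    rw [← mul_assoc]
    exact hx
  have hyq' : 4000 * (y * (q * J)) ≤ q * J := by
    have := mul_le_mul_of_nonneg_right (show 4000 * y ≤ 1 by linarith) hqJ0
    linarith
  have hyu : 4000 * (x : ℝ) ≤ u * (q * J) := by
    have := mul_le_mul_of_nonneg_right (show 4000 * y ≤ u by linarith) hqJ0
    linarith
  have hyη : 4000 * (x : ℝ) ≤ η * u * (q * J) := by
    have h0 : 4000 * y ≤ η * u := by
      have := mul_le_mul_of_nonneg_left hu hη.le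
      linarith
    have := mul_le_mul_of_nonneg_right h0 hqJ0
    linarith
  have hyκ : 4000 * (x : ℝ) ≤ (κ - 1) * (q * J) := by
    have := mul_le_mul_of_nonneg_right (show 4000 * y ≤ κ - 1 by linarith) hqJ0
    linarith
  have hεJ : |L 0 t t * J - t * J| ≤ y * (q * J) := by
    have h1 := R.l0 t (by
      rw [sub_self, abs_zero]
      have : 0 ≤ K' := by linarith
      positivity)
    rw [← sub_mul, abs_mul, abs_of_nonneg hJ0]
    have h2 := mul_le_mul_of_nonneg_right (h1.trans hεq) hJ0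
    linarith
  have hSl : ∀ l ≤ 3, 0 ≤ Sl l ∧ Sl l ≤ κ + 1 := fun l hl => by
    interval_cases l
    · rw [s0]; constructor <;> linarith
    · rw [s1]; constructor <;> linarith
    · rw [s2]; constructor <;> linarith
    · rw [s3]; constructor <;> linarith
  have hroom : ∀ k ≤ nd, ∀ l ≤ 3, e₀ + g k l + 5 ≤ J := by
    intro k hk l hl
    have h1 := hlv k hk l hl
    have h1' : |(g k l : ℝ) - (L l t t + Sl l * (k / nd * q)) * J| ≤ x / 16 := by linarith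
    have h1'' := (abs_le.1 h1').2
    have h2 := hW3.room l hl t (by
      rw [sub_self, abs_zero]
      have : 0 ≤ K' := by linarith
      positivity)
    have h3 : Sl l * (k / nd * q) ≤ (κ + 1) * q :=
      mul_le_mul (hSl l hl).2 (hfr k hk) (hfr0 k) (by linarith)
    have h5 := mul_le_mul_of_nonneg_right hK8 hq.le
    have h6 : (Eb 3 + 2 * y * q + (L l t t + Sl l * (k / nd * q)) + q) * J ≤ 1 * J := by
      refine mul_le_mul_of_nonneg_right ?_ hJ0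
      have : 0 < κ * q := by positivity
      linarith
    have h7 : ((e₀ + g k l + 5 : ℕ) : ℝ) ≤ (J : ℕ) := by
      push_cast
      linarith
    exact_mod_cast h7
  have siz := siz_grid (u := u) hκ hD2 s0 s1 s2 s3 hq ht0 (by linarith) hnd R.inj hD hX1 hX2 hmesh
    (by linarith) (by linarith) hlv hroom HD hco
  -- the number of digits
  have hP0 : 0 ≤ (P₀ : ℝ) * J := mul_nonneg (by linarith) hJ0
  have f1 := Nat.floor_le hP0
  have f2 := Nat.lt_floor_add_one ((P₀ : ℝ) * J)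
  have v0 : 0 ≤ (t + (gP u nd 0 : ℕ) / nd * q) * J := mul_nonneg (by linarith [hfr0 (gP u nd 0)]) hJ0
  have f3 := Nat.floor_le v0
  have f4 := Nat.lt_floor_add_one ((t + (gP u nd 0 : ℕ) / nd * q) * J)
  have f5 : |(g (gP u nd 0) 0 : ℝ) - (t + (gP u nd 0 : ℕ) / nd * q) * J| ≤
      x / 16 + y * (q * J) := by
    have h1 := hlv _ hkw 0 (by norm_num)
    rw [s0, one_mul] at h1
    have h2 : (g (gP u nd 0) 0 : ℝ) - (t + (gP u nd 0 : ℕ) / nd * q) * J =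
        ((g (gP u nd 0) 0 : ℝ) - (L 0 t t + (gP u nd 0 : ℕ) / nd * q) * J) +
          (L 0 t t * J - t * J) := by ring
    rw [h2]
    exact (abs_add_le _ _).trans (add_le_add (by linarith) hεJ)
  have f6 := abs_le.1 f5
  have p1 : 3 / 4 * (q * J) ≤ P₀ * J := by
    have := mul_le_mul_of_nonneg_right hP1.le hJ0
    linarith
  have p2 : P₀ * J ≤ q * J := mul_le_mul_of_nonneg_right hP2.le hJ0
  have hgN : g (gP u nd 0) 0 ≤ ⌊(P₀ : ℝ) * J⌋₊ + ⌊(t + (gP u nd 0 : ℕ) / nd * q) * J⌋₊ + 1 := by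
    have : ((g (gP u nd 0) 0 : ℕ) : ℝ) ≤
        ((⌊(P₀ : ℝ) * J⌋₊ + ⌊(t + (gP u nd 0 : ℕ) / nd * q) * J⌋₊ + 1 : ℕ) : ℝ) := by
      push_cast
      linarith
    exact_mod_cast this
  obtain ⟨q₁, hq₁⟩ : ∃ q₁ : ℕ, g (gP u nd 0) 0 + q₁ =
      ⌊(P₀ : ℝ) * J⌋₊ + ⌊(t + (gP u nd 0 : ℕ) / nd * q) * J⌋₊ + 1 :=
    ⟨_, Nat.add_sub_cancel' hgN⟩
  have hq₁R : (g (gP u nd 0) 0 : ℝ) + q₁ =
      ⌊(P₀ : ℝ) * J⌋₊ + ⌊(t + (gP u nd 0 : ℕ) / nd * q) * J⌋₊ + 1 := by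
    exact_mod_cast hq₁
  refine ⟨q₁, by linarith, by linarith, fun Vz z zH hz => ?_⟩
  have hkJ : ∀ k ≤ n, wG t q nd J (gP u nd (oO κ k)) ≤ J := fun k hk => by
    have h5 : ⌊(t + (gP u nd (oO κ k) : ℕ) / nd * q) * J⌋₊ ≤ ⌊(J : ℝ)⌋₊ := Nat.floor_le_floor
      (mul_le_of_le_one_left (Nat.cast_nonneg J) (by linarith [hfr _ (hgk k hk)]))
    rwa [Nat.floor_natCast] at h5
  have hlaw := isLaw_cond F.isLaw hB0
  have hqA : ∀ ω, 0 < Pool.Agent.H49.Ent.cond F.p B True ω → B ω := fun ω hω =>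
    of_eq_true ((cond_pos_iff F.isLaw.nonneg B True ω).1 hω).2
  refine fre_pig hB0 hn0 hz (fun k hk => Nat.floor_le_floor (mul_le_mul_of_nonneg_right
      (hwk _ _ (hgm (oO_mono hκ (Nat.le_succ k)))) hJ0)) hkJ
    (hE B hBA hcB _ _ _ _ ((hz 0 (Nat.zero_le _)).mx hB0 hk₂.le) ((hz n le_rfl).mx hB0 hk₂.le)
      (ψ (gP u nd 0)) (ψH (gP u nd 0)) (HD.wn _ hkw).bl.wf.fr.cls
      (fun s => (HD.wn _ hkw).bl.wf.fr.depH s 0) (wG t q nd J (gP u nd 0) - wG t q nd J 0) D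
      (nQ₀ κ x 0 (u * q * J)) (nQ κ x 0 (u * q * J)) ⌊u * q * J⌋₊ (g (gP u nd 0) 0 + q₁) 1
      (g (gP u nd 0)) Ht hD ?_ ?_ ?_)
    (fun T Z => cG_card hlaw hqA siz Z) ?_
  · rw [hq₁]
    push_cast
    linarith
  · rw [hq₁]
    push_cast
    linarith
  · push_cast
    linarith
  · have hl2 : Real.log 2 ≤ 1 := by
      have := Real.log_two_lt_d9
      linarith
    have hsg : (⌊u * q * J⌋₊ : ℝ) ≤ u * (q * J) := by
      rw [← mul_assoc]
      exact Nat.floor_le (by positivity)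
    have huq : 0 ≤ u * (q * J) := by positivity
    have m1 : (κf : ℝ) * (1 / 2) ^ k ≤ η * u * q / 4 := by
      have h1 : (κf : ℝ) * (1 / 2) ^ k ≤ (10 * η * u₀) * (q / 40) :=
        mul_le_mul hκf1.le hr2 (by positivity) (by positivity)
      have h2 : η * q / 4 * u₀ ≤ η * q / 4 * u := mul_le_mul_of_nonneg_left hu (by positivity)
      linarith
    have m2 := mul_le_mul_of_nonneg_right m1 hJ0
    have m3 : ((150 * x + ⌊u * q * J⌋₊ + 3 : ℕ) : ℝ) * Real.log 2 ≤ 2 * (u * (q * J)) := by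
      push_cast
      calc (150 * (x : ℝ) + ⌊u * q * J⌋₊ + 3) * Real.log 2 ≤
            (150 * (x : ℝ) + ⌊u * q * J⌋₊ + 3) * 1 := mul_le_mul_of_nonneg_left hl2 (by positivity)
        _ ≤ 2 * (u * (q * J)) := by linarith
    have m4 : 3 * ((D : ℝ) * (((150 * x + ⌊u * q * J⌋₊ + 3 : ℕ) : ℝ) * Real.log 2)) / n ≤
        η * (u * (q * J)) / 2 := by
      rw [div_le_iff₀ hnR]
      have h1 := mul_le_mul_of_nonneg_left m3 (Nat.cast_nonneg D : (0 : ℝ) ≤ D)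
      have h2 := mul_le_mul_of_nonneg_right hDn huq
      linarith
    linarith

end Pool.D2N
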