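import Pool.Agent.H28.D2.P8b
import Pool.Agent.H91.LA.Own

/-!
# The own velocity of the hop is free of the later records

`FrJ`: the statement of `FreeAt` for one coordinate. `vel_cell`, `vel_code`: a cell of the velocity
and the code over a chart are few bits given each other, the chart, the frame and the time.
`free_e0`: a cell of the velocity is free of the later record. `free_eC`: for the data `hdt2`.
-/

set_option autoImplicit false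

namespace Pool.D2F2

open Finset Real MvPolynomial
open Pool.Agent.H49.Ent Pool.Agent.H32.Dense Pool.STK Pool.KA Pool.KSAT Pool.K2S Pool.PB Pool.GEN
open Pool.S6C Pool.LA91 Pool.CHT Pool.CHX Pool.M3F Pool.RCD
open Pool.GRD (LbP)
open Pool.OWN68 (floor_sub_le CH_pair)
open Pool.D2F (cv CvC)

variable {m : ℕ}

/-- A label of smaller precision. -/
theorem att_mono {S : PCl m} {I : Finset (Fin m)} {k : Fin m} {w p p' r : ℝ} (hp : p' ≤ p)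
    (h : Att S I k w p r) : Att S I k w p' r := by
  intro e he
  obtain ⟨K, hK⟩ := h e he
  refine ⟨K, Bas.mono 0 hK ?_⟩
  rintro J - F A ⟨V, z, z', G, h⟩
  exact ⟨V, z, z', G, h.mono (Finset.Subset.refl _) le_rfl le_rfl le_rfl
    (Nat.floor_le_floor (mul_le_mul_of_nonneg_right (by linarith) (Nat.cast_nonneg J)))⟩

/-- **Free of the later records**, for the velocity of one coordinate over the charts of the
window `b` (precision `p`, `N` digits), records at `w` and `w'`. -/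
def FrJ (S : PCl m) (k : Fin m) (b p N w w' δ : ℝ) : Prop :=
  ∃ k₂ : ℝ, 0 < k₂ ∧ ∃ e₀ : ℝ, 0 < e₀ ∧ ∀ K : ℕ, Bas S (fun J F A =>
    ∀ (V : Type) (z : F.Ω → V) (V' : Type) (z' : F.Ω → V'),
    Mx (fun (J : ℕ) (F : Fam m J) => ptr F J) (vg w) k₂ F A z →
    Mx (fun (J : ℕ) (F : Fam m J) => ptr F J) (vg w') k₂ F A z' →
    ∀ u, (qJet m ∅ k 1 b p N).P K e₀ J F A u →
    CH (Pool.Agent.H49.Ent.cond F.p A True) u (fun ω => (z ω, F.W ω)) ≤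
      CH (Pool.Agent.H49.Ent.cond F.p A True) u (fun ω => (z' ω, F.W ω)) + δ * J)

/-- The velocity over a closed function of the time. -/
theorem ojet_time {J : ℕ} {F : Fam m J} {k : Fin m} {G : MvPolynomial (Option (Fin m)) ℝ}
    (hG : ∀ b b' : Option (Fin m) → ℝ, b none = b' none →
      (∀ i ∈ (∅ : Finset (Fin m)), b (some i) = b' (some i)) → eval b G = eval b' G)
    {ω ω' : F.Ω} (hT : F.T ω = F.T ω') :
    ojet F k 1 G ω - ojet F k 1 G ω' = bd F ω (some k) - bd F ω' (some k) := by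
  unfold ojet
  have e0 : bt F ω none = bt F ω' none := by
    have e1 : ∀ ν : F.Ω, bt F ν none = F.t ν := fun _ => rfl
    rw [e1, e1]
    unfold Fam.t
    rw [hT]
  have e2 : jet 1 G (bt F ω) (bd F ω) = jet 1 G (bt F ω') (bd F ω') :=
    jet_congr hG 1 e0 (fun i hi => absurd hi (Finset.notMem_empty i)) rfl
      (fun i hi => absurd hi (Finset.notMem_empty i))
  have e3 : ∀ b v : Option (Fin m) → ℝ, jet 1 (X (some k)) b v = v (some k) := by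
    intro b v
    unfold jet
    rw [aeval_X]
    unfold Pool.LA91.lp
    simp
  rw [jet_sub, jet_sub, e2, e3, e3]
  ring

theorem cast_s (s : ℕ) : (2 * ((2 ^ s + 1 : ℕ) : ℝ) + 1) ≤ 2 ^ (s + 3) := by
  have h : (1 : ℝ) ≤ 2 ^ s := one_le_pow₀ (by norm_num)
  rw [pow_add]
  push_cast
  linarith

theorem log_s (s : ℕ) : Real.log (2 * ((2 ^ s + 1 : ℕ) : ℝ) + 1) ≤ (s + 3) * Real.log 2 := by
  refine (Real.log_le_log (by positivity) (cast_s s)).trans (le_of_eq ?_)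
  rw [Real.log_pow]
  push_cast
  ring

section cell

variable {J : ℕ} {F : Fam m J} {A : F.Ω → Prop} {k : Fin m}
    {V U Fr : Type} {v : F.Ω → U} {fr : F.Ω → Fr} {G : U → MvPolynomial (Option (Fin m)) ℝ}
    {N : ℝ} {u : F.Ω → ℤ} {W Q s : ℕ} {e₀ : F.Ω → ℝ}

/-- **A cell of the velocity** is few bits given the velocity over a chart, the chart, the frame
and the time. -/
theorem vel_cell (hA : 0 < Pe F.p A)
    (hG : ∀ v, ∀ b b' : Option (Fin m) → ℝ, b none = b' none →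
      (∀ i ∈ (∅ : Finset (Fin m)), b (some i) = b' (some i)) → eval b (G v) = eval b' (G v))
    (hu : ∀ ω, A ω → u ω = ⌊(2 : ℝ) ^ N * ojet F k 1 (G (v ω)) ω⌋)
    (he : ∀ ω ω', A ω → A ω' → fr ω = fr ω' → e₀ ω' - e₀ ω =
      1 / 2 ^ (W + 1) * (bd F ω' (some k) - bd F ω (some k)))
    (hQ : (Q : ℝ) ≤ N + (W + 1 : ℕ) + s) :
    CH (Pool.Agent.H49.Ent.cond F.p A True) (fun ω => ⌊(2 : ℝ) ^ Q * e₀ ω⌋)
      (fun ω => (u ω, ((v ω, fr ω), F.W ω))) ≤ (s + 3) * Real.log 2 := by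
  refine le_trans ?_ (log_s s)
  refine CH_pair (isLaw_cond F.isLaw hA) _ _ fun ω ω' hω hω' e => floor_sub_le ?_
  have a1 := of_cond_pos hω
  have a2 := of_cond_pos hω'
  simp only [Prod.mk.injEq] at e
  obtain ⟨eu, ⟨ev, ez⟩, eW⟩ := e
  have eT : F.T ω = F.T ω' := (Prod.ext_iff.mp eW).1
  rw [hu ω a1, hu ω' a2, ← ev] at eu
  have h1 := Int.abs_sub_lt_one_of_floor_eq_floor eu
  rw [← mul_sub, ojet_time (hG _) eT, abs_mul, abs_of_pos (by positivity)] at h1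
  have h2 := he ω' ω a2 a1 ez.symm
  rw [← mul_sub, h2, abs_mul, abs_mul, abs_of_pos (by positivity), abs_of_pos (by positivity)]
  have h3 : (2 : ℝ) ^ Q * (1 / 2 ^ (W + 1)) ≤ 2 ^ N * 2 ^ s := by
    rw [mul_one_div, div_le_iff₀ (by positivity), ← Real.rpow_natCast 2 Q,
      ← Real.rpow_natCast 2 (W + 1), ← Real.rpow_natCast 2 s, ← Real.rpow_add (by norm_num),
      ← Real.rpow_add (by norm_num)]
    exact Real.rpow_le_rpow_of_exponent_le (by norm_num) (by linarith)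
  calc (2 : ℝ) ^ Q * (1 / 2 ^ (W + 1) * |bd F ω (some k) - bd F ω' (some k)|) =
        2 ^ Q * (1 / 2 ^ (W + 1)) * |bd F ω (some k) - bd F ω' (some k)| := by ring
    _ ≤ 2 ^ N * 2 ^ s * |bd F ω (some k) - bd F ω' (some k)| :=
        mul_le_mul_of_nonneg_right h3 (abs_nonneg _)
    _ = 2 ^ s * (2 ^ N * |bd F ω (some k) - bd F ω' (some k)|) := by ring
    _ ≤ 2 ^ s * 1 := mul_le_mul_of_nonneg_left h1.le (by positivity)
    _ = ((2 ^ s : ℕ) : ℝ) := by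
        push_cast
        ring

/-- **The code over a chart** is few bits given a cell of the velocity, the chart, the frame and
the time. -/
theorem vel_code (hA : 0 < Pe F.p A)
    (hG : ∀ v, ∀ b b' : Option (Fin m) → ℝ, b none = b' none →
      (∀ i ∈ (∅ : Finset (Fin m)), b (some i) = b' (some i)) → eval b (G v) = eval b' (G v))
    (hu : ∀ ω, A ω → u ω = ⌊(2 : ℝ) ^ N * ojet F k 1 (G (v ω)) ω⌋)
    (he : ∀ ω ω', A ω → A ω' → fr ω = fr ω' → e₀ ω' - e₀ ω =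
      1 / 2 ^ (W + 1) * (bd F ω' (some k) - bd F ω (some k)))
    (hQ : N + (W + 1 : ℕ) ≤ Q + s) :
    CH (Pool.Agent.H49.Ent.cond F.p A True) u
      (fun ω => (⌊(2 : ℝ) ^ Q * e₀ ω⌋, ((v ω, fr ω), F.W ω))) ≤ (s + 3) * Real.log 2 := by
  refine le_trans ?_ (log_s s)
  refine CH_pair (isLaw_cond F.isLaw hA) _ _ fun ω ω' hω hω' e => ?_
  have a1 := of_cond_pos hω
  have a2 := of_cond_pos hω'
  simp only [Prod.mk.injEq] at e
  obtain ⟨eu, ⟨ev, ez⟩, eW⟩ := e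
  have eT : F.T ω = F.T ω' := (Prod.ext_iff.mp eW).1
  rw [hu ω a1, hu ω' a2, ← ev]
  refine floor_sub_le ?_
  have h1 := Int.abs_sub_lt_one_of_floor_eq_floor eu
  have h2 := he ω' ω a2 a1 ez.symm
  rw [← mul_sub, h2, abs_mul, abs_mul, abs_of_pos (by positivity), abs_of_pos (by positivity)]
    at h1
  rw [← mul_sub, ojet_time (hG _) eT, abs_mul, abs_of_pos (by positivity)]
  have h3 : (2 : ℝ) ^ N ≤ 2 ^ s * (2 ^ Q * (1 / 2 ^ (W + 1))) := by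
    rw [mul_one_div, ← mul_div_assoc, le_div_iff₀ (by positivity), ← Real.rpow_natCast 2 Q,
      ← Real.rpow_natCast 2 (W + 1), ← Real.rpow_natCast 2 s, ← Real.rpow_add (by norm_num),
      ← Real.rpow_add (by norm_num)]
    exact Real.rpow_le_rpow_of_exponent_le (by norm_num) (by linarith)
  calc (2 : ℝ) ^ N * |bd F ω (some k) - bd F ω' (some k)| ≤
        2 ^ s * (2 ^ Q * (1 / 2 ^ (W + 1))) * |bd F ω (some k) - bd F ω' (some k)| :=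
        mul_le_mul_of_nonneg_right h3 (abs_nonneg _)
    _ = 2 ^ s * (2 ^ Q * (1 / 2 ^ (W + 1) * |bd F ω (some k) - bd F ω' (some k)|)) := by ring
    _ ≤ 2 ^ s * 1 := mul_le_mul_of_nonneg_left h1.le (by positivity)
    _ = ((2 ^ s : ℕ) : ℝ) := by
        push_cast
        ring

end cell

/-- Given a record, up to the closed functions. -/
theorem ch_via {Ω T U Z Y W : Type} [Fintype Ω] {p : Ω → ℝ} (h0 : ∀ ω, 0 ≤ p ω) (E : Ω → T)
    (u : Ω → U) (y : Ω → Y) (z : Ω → Z) (w : Ω → W) {a b : ℝ}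
    (h1 : CH p E (fun ω => (u ω, (y ω, w ω))) ≤ a) (h2 : CH p y z ≤ b) :
    CH p E (fun ω => (u ω, (z ω, w ω))) ≤ a + b := by
  have k1 := CH_le_add h0 E y (fun ω => (u ω, (z ω, w ω)))
  have k2 : CH p y (fun ω => (u ω, (z ω, w ω))) ≤ CH p y z :=
    CH_mono_cond h0 fun ω ω' _ _ hh => by
      simp only [Prod.mk.injEq] at hh
      exact hh.2.1
  have k3 : CH p E (fun ω => (y ω, (u ω, (z ω, w ω)))) ≤
      CH p E (fun ω => (u ω, (y ω, w ω))) :=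
    CH_mono_cond h0 fun ω ω' _ _ hh => by
      simp only [Prod.mk.injEq] at hh ⊢
      exact ⟨hh.2.1, hh.1, hh.2.2.2⟩
  linarith

/-- **A cell of the velocity is free of the later record.** -/
theorem free_e0 {S : PCl m}
    (hpos : ∀ (τ : ℝ) (J : ℕ) (F : Fam m J) (A : F.Ω → Prop), S.St τ J F A → 0 < Pe F.p A)
    {k : Fin m} {b p N w w' δ rd : ℝ} (hrd : 0 ≤ rd) (hatt : Att S ∅ k b p rd)
    (hF : FrJ S k b p N w w' δ) {v : ℝ} (hbw : b ≤ w) (hvw : v ≤ w) (hww : w ≤ w')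
    (hw' : w' ≤ 1) {c₁ : ℝ}
    (hc₁ : 0 < c₁) {h : ℝ} (hh : 0 < h) : ∃ k₂ : ℝ, 0 < k₂ ∧ Bas S (fun J F A =>
      ∀ B : F.Ω → Prop, Sub B A → c₁ * Pe F.p A ≤ Pe F.p B →
      ∀ (V : Type) (z : F.Ω → V) (V' : Type) (z' : F.Ω → V'),
      Mx (fun (J : ℕ) (F : Fam m J) => ptr F J) (vg w) k₂ F B z →
      Mx (fun (J : ℕ) (F : Fam m J) => ptr F J) (vg w') k₂ F B z' →
      ∀ (Fr : Type) (fr : F.Ω → Fr), Cl2 (ptr F J) (slam F ⌊v * J⌋₊) B fr →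
      ∀ (e₀ : F.Ω → ℝ) (Q s : ℕ),
      (∀ ω ω', B ω → B ω' → fr ω = fr ω' → e₀ ω' - e₀ ω =
        1 / 2 ^ (⌊v * J⌋₊ + 1) * (bd F ω' (some k) - bd F ω (some k))) →
      (Q : ℝ) ≤ N * J + (⌊v * J⌋₊ + 1 : ℕ) + s → N * J + (⌊v * J⌋₊ + 1 : ℕ) ≤ Q + s →
      (s : ℝ) ≤ h * J →
      CH (Pool.Agent.H49.Ent.cond F.p B True) (fun ω => ⌊(2 : ℝ) ^ Q * e₀ ω⌋)
          (fun ω => (z ω, F.W ω)) ≤
        CH (Pool.Agent.H49.Ent.cond F.p B True) (fun ω => ⌊(2 : ℝ) ^ Q * e₀ ω⌋)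
          (fun ω => (z' ω, F.W ω)) + (δ + 4 * h) * J) := by
  obtain ⟨k₂, hk₂, e₀, he₀, H⟩ := hF
  obtain ⟨K, M, hE⟩ := exs_jet (j := 1) (N := N) hrd hatt e₀ he₀
  obtain ⟨k₃, hk₃⟩ : ∃ k₃ : ℝ, k₃ = min k₂ (h / 4) := ⟨_, rfl⟩
  have hk30 : 0 < k₃ := by
    rw [hk₃]
    exact lt_min hk₂ (by linarith)
  have hk32 : k₃ ≤ k₂ := by rw [hk₃]; exact min_le_left _ _
  have hk3h : k₃ ≤ h / 4 := by rw [hk₃]; exact min_le_right _ _
  have hl2 : 0 < Real.log 2 := Real.log_pos (by norm_num)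
  have hl1 : Real.log 2 ≤ 1 := by
    have := Real.log_two_lt_d9
    linarith
  obtain ⟨J₁, hJ₁⟩ := exists_nat_ge (6 / h)
  refine ⟨k₃, hk30, Bas.mono J₁ (((Pool.LBK.Bas.ev (H K) hc₁).and hE).and
    (pos_bas hpos)) ?_⟩
  rintro J hJ F A ⟨⟨HB, u, hu, -⟩, hA⟩ B hBA hBc V z V' z' mz mz' Fr fr hfr e₁ Q s he hQ1 hQ2 hs'
  have hJ0 : (0 : ℝ) ≤ J := Nat.cast_nonneg J
  have hJ1 : (J₁ : ℝ) ≤ J := by exact_mod_cast hJ
  have h6 : 6 ≤ h * J := by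
    have h1 := hJ₁.trans hJ1
    rw [div_le_iff₀ hh] at h1
    linarith
  have hB : 0 < Pe F.p B := lt_of_lt_of_le (mul_pos hc₁ hA) hBc
  have hp := isLaw_cond F.isLaw hB
  have h0 := hp.nonneg
  have huB := (qJet m ∅ k 1 b p N).sub hBA hu
  have key := HB B hBA hBc V z V' z'
    ⟨mz.1, fun V z hz => (mz.2 V z hz).trans (mul_le_mul_of_nonneg_right hk32 hJ0)⟩
    ⟨mz'.1, fun V z hz => (mz'.2 V z hz).trans (mul_le_mul_of_nonneg_right hk32 hJ0)⟩ u huB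
  obtain ⟨-, U, x, xH, G, hl, hu'⟩ := huB
  have hup : ∀ {y : ℝ}, b ≤ y → v ≤ y → y ≤ 1 →
      Cl2 (ptr F J) (vg y J F) B (fun ω => (x (ptr F J ω), fr ω)) := by
    intro y hy hvy hy1
    obtain ⟨⟨φ, hφ⟩, χ, hχ⟩ := hfr
    obtain ⟨φ₁, hφ₁⟩ := vg_mono (m := m) hy hy1 J F
    obtain ⟨φ₂, hφ₂⟩ := vg_mono (m := m) hvy hy1 J F
    refine ⟨⟨fun y => (x y, φ y), fun ω hω => ?_⟩, fun y => (xH (φ₁ y), χ (φ₂ y)),
      fun ω hω => ?_⟩
    · show (x (ptr F J ω), fr ω) = _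
      rw [hφ ω hω]
    · show (x (ptr F J ω), fr ω) = (xH (φ₁ (vg y J F ω)), χ (φ₂ (vg y J F ω)))
      rw [← hφ₁ ω, ← hφ₂ ω, hχ ω hω, hl.cls ω hω]
      rfl
  have c1 := mz.2 _ _ (hup hbw hvw (hww.trans hw'))
  have c2 := mz'.2 _ _ (hup (hbw.trans hww) (hvw.trans hww) hw')
  have hu2 : ∀ ω, B ω → u ω = ⌊(2 : ℝ) ^ (N * J) * ojet F k 1 (G (x (ptr F J ω))) ω⌋ := by
    intro ω hω
    rw [hu' ω hω, hl.cls ω hω]
  have v1 := vel_cell (v := fun ω => x (ptr F J ω)) (fr := fr) (e₀ := e₁) (W := ⌊v * J⌋₊)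
    (Q := Q) (s := s) hB hl.dep hu2 he hQ1
  have v2 := vel_code (v := fun ω => x (ptr F J ω)) (fr := fr) (e₀ := e₁) (W := ⌊v * J⌋₊)
    (Q := Q) (s := s) hB hl.dep hu2 he hQ2
  have d1 := ch_via h0 _ _ _ _ _ v1 c1
  have d2 := ch_via h0 _ _ _ _ _ v2 c2
  have g1 := CH_le_add h0 (fun ω => ⌊(2 : ℝ) ^ Q * e₁ ω⌋) u (fun ω => (z ω, F.W ω))
  have g2 := CH_le_add h0 u (fun ω => ⌊(2 : ℝ) ^ Q * e₁ ω⌋) (fun ω => (z' ω, F.W ω))
  have q1 : k₃ * J ≤ h / 4 * J := mul_le_mul_of_nonneg_right hk3h hJ0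
  have q2 : ((s : ℝ) + 3) * Real.log 2 ≤ s + 3 := by
    have : (0 : ℝ) ≤ s + 3 := by positivity
    nlinarith
  linarith

/-- The velocity of the first coordinate in a closed frame. -/
theorem hdt2_e0 {J : ℕ} {F : Fam m J} {c : ℕ → Fin m} {g : ℕ → ℕ} {W n r D q₀ q sg : ℕ}
    {ψH : LnT F → ℕ → Option (Fin m) → ℝ} {Ht : LnT F → MvPolynomial (Option (Fin m)) ℝ}
    {hD : ∀ s, (Ht s).totalDegree ≤ D} (hr : 0 < r) (hW : W ≤ J)
    (hcv : ∀ s, CvC c 0 (ψH s 0)) {ω ω' : F.Ω}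
    (hψ : ψH (slam F W ω) = ψH (slam F W ω')) :
    (hdt2 F c g W n r D q₀ q sg ψH Ht hD).e W 0 ω' -
        (hdt2 F c g W n r D q₀ q sg ψH Ht hD).e W 0 ω =
      1 / 2 ^ (W + 1) * (bd F ω' (some (c 0)) - bd F ω (some (c 0))) := by
  have h1 : (hdt2 F c g W n r D q₀ q sg ψH Ht hD).e W 0 ω' -
      (hdt2 F c g W n r D q₀ q sg ψH Ht hD).e W 0 ω = _ :=
    hdt_de (g := g) (q := q) (sg := sg) (n := n) (hD := hD) hW 0 hψ
  rw [h1, if_pos hr]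
  have h2 : cv (ψH (slam F W ω) 0) (bd F ω' - bd F ω) = 0 := by
    unfold cv
    refine Finset.sum_eq_zero fun o _ => ?_
    cases o with
    | none =>
      have : (bd F ω' - bd F ω) none = 0 := by
        rw [Pi.sub_apply]
        simp [bd]
      rw [this, mul_zero]
    | some i => rw [hcv _ i (fun j hj => absurd hj (Nat.not_lt_zero j)), zero_mul]
  rw [h2, Pi.sub_apply, sub_zero]

/-- **A cell of the own velocity is free of the later record**, for the data of the hop. -/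
theorem free_eC {S : PCl m}
    (hpos : ∀ (τ : ℝ) (J : ℕ) (F : Fam m J) (A : F.Ω → Prop), S.St τ J F A → 0 < Pe F.p A)
    {c : ℕ → Fin m} {r : ℕ} (hr : 0 < r) {b p N w w' δ rd : ℝ} (hrd : 0 ≤ rd)
    (hatt : Att S ∅ (c 0) b p rd) (hF : FrJ S (c 0) b p N w w' δ) {v : ℝ} (hbw : b ≤ w)
    (hvw : v ≤ w) (hww : w ≤ w') (hw' : w' ≤ 1) {c₁ : ℝ} (hc₁ : 0 < c₁) {h : ℝ} (hh : 0 < h) :
    ∃ k₂ : ℝ, 0 < k₂ ∧ Bas S (fun J F A =>
      ∀ B : F.Ω → Prop, Sub B A → c₁ * Pe F.p A ≤ Pe F.p B →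
      ∀ (V : Type) (z : F.Ω → V) (V' : Type) (z' : F.Ω → V'),
      Mx (fun (J : ℕ) (F : Fam m J) => ptr F J) (vg w) k₂ F B z →
      Mx (fun (J : ℕ) (F : Fam m J) => ptr F J) (vg w') k₂ F B z' →
      ∀ (ψ : PtT F → ℕ → Option (Fin m) → ℝ) (ψH : LnT F → ℕ → Option (Fin m) → ℝ),
      (∀ ω, B ω → ψ (ptr F J ω) = ψH (slam F ⌊v * J⌋₊ ω)) → (∀ s, CvC c 0 (ψH s 0)) →
      ∀ (n D q₀ q sg Q s : ℕ) (g : ℕ → ℕ) (Ht : LnT F → MvPolynomial (Option (Fin m)) ℝ)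
        (hD : ∀ s, (Ht s).totalDegree ≤ D),
      (Q : ℝ) ≤ N * J + (⌊v * J⌋₊ + 1 : ℕ) + s → N * J + (⌊v * J⌋₊ + 1 : ℕ) ≤ Q + s →
      (s : ℝ) ≤ h * J →
      CH (Pool.Agent.H49.Ent.cond F.p B True) (fun ω => ⌊(2 : ℝ) ^ Q *
          (hdt2 F c g ⌊v * J⌋₊ n r D q₀ q sg ψH Ht hD).e ⌊v * J⌋₊ 0 ω⌋)
          (fun ω => (z ω, F.W ω)) ≤
        CH (Pool.Agent.H49.Ent.cond F.p B True) (fun ω => ⌊(2 : ℝ) ^ Q *
          (hdt2 F c g ⌊v * J⌋₊ n r D q₀ q sg ψH Ht hD).e ⌊v * J⌋₊ 0 ω⌋)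
          (fun ω => (z' ω, F.W ω)) + (δ + 4 * h) * J) := by
  obtain ⟨k₂, hk₂, H⟩ := free_e0 hpos hrd hatt hF hbw hvw hww hw' hc₁ hh
  refine ⟨k₂, hk₂, Bas.mono 0 H ?_⟩
  rintro J - F A H B hBA hBc V z V' z' mz mz' ψ ψH hψ hcv n D q₀ q sg Q s g Ht hD h1 h2 h3
  have hbJ : ⌊v * J⌋₊ ≤ J := floor_le ((hvw.trans hww).trans hw') J
  refine H B hBA hBc V z V' z' mz mz' _ (fun ω => ψH (slam F ⌊v * J⌋₊ ω))
    ⟨⟨ψ, fun ω hω => (hψ ω hω).symm⟩, ψH, fun _ _ => rfl⟩ _ Q s (fun ω ω' _ _ e => ?_) h1 h2 h3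
  exact hdt2_e0 hr hbJ hcv e

end Pool.D2F2
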