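import Pool.Agent.H28.D2.P8a

/-!
# The number of the hop, the windows

`P8L`: the levels, `P8G`: the windows. `P8G.recO`, `P8G.recA`: the geometric data of the records at
the windows `o`, `a`. `P8G.vfd`: the near digits are full given the record at `o`. `P8G.few`: the
number given the own data.
-/

set_option autoImplicit false

namespace Pool.D2F2

open Finset Real MvPolynomial
open Pool.Agent.H49.Ent Pool.Agent.H32.Dense Pool.STK Pool.KA Pool.KSAT Pool.K2S Pool.PB Pool.GEN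
open Pool.S6C Pool.LA91 Pool.CHT Pool.CHX Pool.M3F
open Pool.ALL (RateOf)
open Pool.ISO (Clsd)
open Pool.D2R (dd hs co co_slam)
open Pool.D2F (cv CvC)
open Pool.D2Z (en)
open Pool.D2N (rfv rfv_spec)
open Pool.X31 (nw few_floor)

/-- **The levels of the number**: base window `W` (levels `g`), windows `o`, `a`, `b` (levels `go`,
`ga`, `gb`) and the window of stage 1 (levels `gd`). `q`: the digits of `V1`, `q₀`: the digits of the
first coordinate, `sg`: the digits of the coefficients, `Q`: the last digit of the blocks. -/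
structure P8L (r W o a b J q₀ q sg Q : ℕ) (g go ga gb gd : ℕ → ℕ) : Prop where
  qq : q ≤ q₀
  Q1 : q₀ ≤ Q
  Q2 : q + sg ≤ Q
  o1 : ∀ l < r, l ≠ 0 → g l + q ≤ go l
  o2 : g r + sg + q ≤ go r
  a1 : ∀ l < r, g l + qv q₀ q l ≤ ga l
  a2 : ∀ l < r, l ≠ 0 → g l + q + a ≤ ga l + W
  a3 : g r + sg + q ≤ ga r
  a4 : g r + q + a ≤ ga r + W
  b1 : ∀ l < r, g l + Q ≤ gb l
  b2 : ∀ l < r, l ≠ 0 → g l + q + b ≤ gb l + W
  d1 : ∀ l < r, gd l ≤ g l + (q + sg)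
  d2 : g r + (q + sg) ≤ gd r
  J1 : ∀ l < r, g l + Q ≤ J
  J2 : g r + (q + sg) ≤ J
  Wa : W ≤ a
  aJ : a ≤ J

/-- The last digits of the blocks. -/
def uu (g : ℕ → ℕ) (q₀ q sg l : ℕ) : ℕ := max (g l + qv q₀ q l) (g l + (q + sg))

/-- The weights of the frame. -/
def wts (r : ℕ) (g : ℕ → ℕ) (q₀ q sg l : ℕ) : ℕ :=
  if l < r then uu g q₀ q sg l else g r + (q + sg)

/-- **The windows of the number** on an event: the balls of the windows `o`, `a`, `b` with the label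
`Ht`, the ball of stage 1 at the window `a₂`, the frame `ψH` of the window `W`. -/
structure P8G {m J : ℕ} (F : Fam m J) (c : ℕ → Fin m) (r D W n o a b a₂ k q₀ q sg Mo Ma Mb E₀ : ℕ)
    (g go ga gb gd : ℕ → ℕ) (ψH : LnT F → ℕ → Option (Fin m) → ℝ)
    (zψ : PtT F → ℕ → Option (Fin m) → ℝ)
    (Ht : LnT F → MvPolynomial (Option (Fin m)) ℝ) (hD : ∀ s, (Ht s).totalDegree ≤ D)
    (Go Ga G₁ G₂ : PtT F → ℕ → MvPolynomial (Option (Fin m)) ℝ)
    (H₂ : LnT F → ℕ → MvPolynomial (Option (Fin m)) ℝ) (A : F.Ω → Prop) : Prop where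
  ho : Gb F c g go W n o k r D sg Mo ψH Ht Go A
  ha : Gb F c g ga W n a k r D sg Ma ψH Ht Ga A
  hb : Gb F c g gb W n b k r D sg Mb ψH Ht G₁ A
  hd : Gd F c g gd W a₂ k r ψH G₂ A
  cl : Clsd F (r + 1) a₂ A G₂ H₂
  zψ : ∀ ω, A ω → zψ (ptr F J ω) = ψH (slam F W ω)
  row : ∀ ω, A ω → ∀ V : Option (Fin m) → ℝ, V none = 0 →
    |cv (ψH (slam F W ω) r) V - dd (Ga (ptr F J ω) r) (bt F ω) V| ≤
      2 ^ k / 2 ^ g r * en c g W (ψH (slam F W ω)) r V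
  siz : ∀ ω, A ω → ∀ l < r, ∀ j, 1 ≤ j →
    |((hdt2 F c g W n r D q₀ q sg ψH Ht hD).gp l (slam F W ω)).coeff j| ≤
      2 ^ k * (2 ^ g l / 2 ^ g r)
  lip : ∀ ω, A ω → ∀ l ≤ r, ∀ j < l,
    2 ^ wts r g q₀ q sg l * |ψH (slam F W ω) l (some (c j))| ≤ E₀ * 2 ^ J

/-- **The own data of the line**: the cell of the velocity of the first coordinate and the cells of
the coefficients of the label. -/
noncomputable def er {m J : ℕ} {F : Fam m J} {κ : Type} {r D : ℕ} (d : Dat F κ r D) (W : ℕ)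
    (ω : F.Ω) : ℤ × (Fin r → Fin D → ℤ) := (cV d W ω, cG d W ω)

section lev

variable {r W o a b J q₀ q sg Q : ℕ} {g go ga gb gd : ℕ → ℕ}

theorem P8L.uuQ (L : P8L r W o a b J q₀ q sg Q g go ga gb gd) (l : ℕ) :
    uu g q₀ q sg l ≤ g l + Q := by
  have h1 := L.qq
  have h2 := L.Q1
  have h3 := L.Q2
  unfold uu qv
  refine max_le ?_ (by omega)
  split_ifs <;> omega

theorem P8L.uuJ (L : P8L r W o a b J q₀ q sg Q g go ga gb gd) {l : ℕ} (hl : l < r) :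
    uu g q₀ q sg l ≤ J := (L.uuQ l).trans (L.J1 l hl)

theorem le_uu (l : ℕ) : g l + qv q₀ q l ≤ uu g q₀ q sg l := le_max_left _ _

theorem le_uu' (l : ℕ) : g l + (q + sg) ≤ uu g q₀ q sg l := le_max_right _ _

end lev

variable {m J : ℕ}

section fin

variable {F : Fam m J} {c : ℕ → Fin m} {r D W n o a b a₂ k q₀ q sg Mo Ma Mb E₀ Q : ℕ}
    {g go ga gb gd : ℕ → ℕ} {ψH : LnT F → ℕ → Option (Fin m) → ℝ}
    {zψ : PtT F → ℕ → Option (Fin m) → ℝ}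
    {Ht : LnT F → MvPolynomial (Option (Fin m)) ℝ} {hD : ∀ s, (Ht s).totalDegree ≤ D}
    {Go Ga G₁ G₂ : PtT F → ℕ → MvPolynomial (Option (Fin m)) ℝ}
    {H₂ : LnT F → ℕ → MvPolynomial (Option (Fin m)) ℝ} {A B : F.Ω → Prop}

/-- The frame bound of the data. -/
theorem P8G.frw (H : P8G F c r D W n o a b a₂ k q₀ q sg Mo Ma Mb E₀ g go ga gb gd ψH zψ
    Ht hD Go Ga G₁ G₂ H₂ A) :
    FrW (hdt2 F c g W n r D q₀ q sg ψH Ht hD) A W c (wts r g q₀ q sg) E₀ := by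
  refine ⟨fun ω ω' hω hω' hT hfc l hl => ?_⟩
  change ψH (slam F W ω) = ψH (slam F W ω') at hfc
  have ht : (bt F ω' - bt F ω) none = 0 := by
    have e0 : ∀ ν : F.Ω, bt F ν none = F.t ν := fun _ => rfl
    rw [Pi.sub_apply, e0, e0]
    unfold Fam.t
    rw [hT, sub_self]
  have e1 : (hdt2 F c g W n r D q₀ q sg ψH Ht hD).v W l ω' -
      (hdt2 F c g W n r D q₀ q sg ψH Ht hD).v W l ω = _ :=
    hdt_dv (g := g) (q := q) (sg := sg) (n := n) (hD := hD) H.ho.hW l hfc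
  rw [e1]
  rcases Nat.lt_or_eq_of_le hl with h | h
  · refine ⟨fun j => ψH (slam F W ω) l (some (c j)), fun j hj => H.lip ω hω l hl j hj, ?_⟩
    rw [if_pos h, Pool.D2F.cv_eq (H.ho.inj.mono (Set.Iio_subset_Iio hl)) (H.ho.cvH _ l), ht,
      mul_zero, zero_add]
    rfl
  · subst h
    refine ⟨fun _ => 0, fun j hj => ?_, ?_⟩
    · rw [abs_zero, mul_zero]
      positivity
    · rw [if_neg (lt_irrefl _), sub_zero]
      simp only [zero_mul, Finset.sum_const_zero, sub_zero]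
      rfl

/-- **The record of the window `o`.** -/
theorem P8G.recO (H : P8G F c r D W n o a b a₂ k q₀ q sg Mo Ma Mb E₀ g go ga gb gd ψH zψ
    Ht hD Go Ga G₁ G₂ H₂ A) (L : P8L r W o a b J q₀ q sg Q g go ga gb gd) {Vo : Type}
    {zo : F.Ω → Vo} (ko : KeyZ F W r ψH Go A zo) :
    HopP (hdt2 F c g W n r D q₀ q sg ψH Ht hD) A W (2 ^ (g r + q + sg))
      (((2 * r + 2) * 2 ^ k) ^ (2 * r + 7) * (1 + 1) * (D + 1) ^ 2)
      (fun ω => (cG (hdt2 F c g W n r D q₀ q sg ψH Ht hD) W ω, (zo ω, (F.W ω,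
        (cP (hdt2 F c g W n r D q₀ q sg ψH Ht hD) W ω,
          cE (hdt2 F c g W n r D q₀ q sg ψH Ht hD) W ω))))) := by
  obtain ⟨d, hd⟩ : ∃ d : Dat F (ℕ → Option (Fin m) → ℝ) r D,
    d = hdt2 F c g W n r D q₀ q sg ψH Ht hD := ⟨_, rfl⟩
  have hSV : ∀ l, d.SV l = 2 ^ (g l + qv q₀ q l) := fun l => by rw [hd]; rfl
  have hSE : ∀ l, d.SE l = 2 ^ (g l + qv q₀ q l) := fun l => by rw [hd]; rfl
  have hSG : ∀ l, d.SG l = 2 ^ (g r + sg) / 2 ^ g l := fun l => by rw [hd]; rfl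
  refine H.ho.hopP2 (hD := hD) L.qq (K₀ := 1) ?_ L.o2
  rw [← hd]
  refine ⟨fun ω ω' hω hω' e => ?_, fun ω ω' hω hω' e l hl => Or.inl ?_,
    fun ω ω' hω hω' e l hl => Or.inl ?_, fun ω ω' hω hω' e l hl j hj hjD => ?_⟩
  · simp only [Prod.mk.injEq] at e
    obtain ⟨-, e1, e2, -, -⟩ := e
    obtain ⟨k1, k2⟩ := ko ω ω' hω hω' e1
    refine ⟨(Prod.ext_iff.1 e2).1, (Prod.ext_iff.1 e2).2, ?_, k2⟩
    rw [hd]
    exact k1
  · simp only [Prod.mk.injEq] at e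
    obtain ⟨-, -, -, e3, -⟩ := e
    have h1 := fl_one (by rw [hSV]; positivity) (congrFun e3 ⟨l, hl⟩)
    rw [hSV] at h1
    rw [Nat.cast_one]
    exact h1
  · simp only [Prod.mk.injEq] at e
    obtain ⟨-, -, -, -, e4⟩ := e
    have h1 := fl_one (by rw [hSE]; positivity) (congrFun e4 ⟨l, hl⟩)
    rw [hSE] at h1
    rw [Nat.cast_one]
    exact h1
  · simp only [Prod.mk.injEq] at e
    obtain ⟨e0, -⟩ := e
    obtain ⟨i, rfl⟩ : ∃ i, j = i + 1 := ⟨j - 1, by omega⟩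
    have h1 := fl_one (by rw [hSG]; positivity) (congrFun (congrFun e0 ⟨l, hl⟩) ⟨i, by omega⟩)
    rw [Nat.cast_one]
    exact h1

/-- **The record of the window `a`**, with the own data. -/
theorem P8G.recA (H : P8G F c r D W n o a b a₂ k q₀ q sg Mo Ma Mb E₀ g go ga gb gd ψH zψ
    Ht hD Go Ga G₁ G₂ H₂ A) (L : P8L r W o a b J q₀ q sg Q g go ga gb gd) {Va : Type}
    {za : F.Ω → Va} (ka : KeyZ F W r ψH Ga A za) :
    HopN (hdt2 F c g W n r D q₀ q sg ψH Ht hD) A W sg (2 ^ (g r + q + sg))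
      (((2 * r + 2) * 2 ^ k) ^ (2 * r + 7) * (1 + 1) * (D + 1) ^ 2)
      (fun ω => (za ω, (er (hdt2 F c g W n r D q₀ q sg ψH Ht hD) W ω, F.W ω))) := by
  obtain ⟨d, hd⟩ : ∃ d : Dat F (ℕ → Option (Fin m) → ℝ) r D,
    d = hdt2 F c g W n r D q₀ q sg ψH Ht hD := ⟨_, rfl⟩
  have hSE : ∀ l, d.SE l = 2 ^ (g l + qv q₀ q l) := fun l => by rw [hd]; rfl
  have hSG : ∀ l, d.SG l = 2 ^ (g r + sg) / 2 ^ g l := fun l => by rw [hd]; rfl
  refine H.ha.hopN2 (hD := hD) L.qq (K₀ := 1) ?_ L.a3 L.a4 H.siz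
  rw [← hd]
  refine ⟨fun ω ω' hω hω' e => ?_, fun ω ω' hω hω' e l hl => Or.inr (L.a1 l hl),
    fun ω ω' hω hω' e l hl => ?_, fun ω ω' hω hω' e l hl j hj hjD => ?_⟩
  · simp only [Prod.mk.injEq] at e
    obtain ⟨e1, -, e2⟩ := e
    obtain ⟨k1, k2⟩ := ka ω ω' hω hω' e1
    refine ⟨(Prod.ext_iff.1 e2).1, (Prod.ext_iff.1 e2).2, ?_, k2⟩
    rw [hd]
    exact k1
  · rcases Nat.eq_zero_or_pos l with h | h
    · subst h
      left
      simp only [Prod.mk.injEq, er] at e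
      have h1 := fl_one (by rw [hSE]; positivity) e.2.1.1
      rw [hSE] at h1
      rw [Nat.cast_one]
      exact h1
    · right
      exact ⟨h.ne', L.a2 l hl h.ne'⟩
  · simp only [Prod.mk.injEq, er] at e
    obtain ⟨i, rfl⟩ : ∃ i, j = i + 1 := ⟨j - 1, by omega⟩
    have h1 := fl_one (by rw [hSG]; positivity)
      (congrFun (congrFun e.2.1.2 ⟨l, hl⟩) ⟨i, by omega⟩)
    rw [Nat.cast_one]
    exact h1

theorem Vfd_hds2 (u v : ℕ → ℕ) : Vfd (hds2 F c g W n r D q₀ q sg ψH Ht hD) W u v =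
    Vfd (hdt2 F c g W n r D q₀ q sg ψH Ht hD) W u v := by
  refine _root_.funext fun ω => _root_.funext fun l => ?_
  unfold Vfd Vfu hds2
  rw [Dat.shr_v _ _ l.2]

theorem nw_hds2 (PR : ℕ → Polynomial ℝ) (ω : F.Ω) :
    nw (hds2 F c g W n r D q₀ q sg ψH Ht hD) W PR ω =
    nw (hdt2 F c g W n r D q₀ q sg ψH Ht hD) W PR ω := by
  unfold nw hds2
  refine Finset.sum_congr rfl fun l hl => ?_
  rw [Dat.shr_cof _ _ l _ (by norm_num : 1 ≤ 2), Dat.shr_cof _ _ l _ (by norm_num : 1 ≤ 1),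
    Dat.shr_P _ _ (Finset.mem_range.1 hl)]

/-- **The near digits are full given the record of the window `o`**, on a large event. -/
theorem P8G.vfd (H : P8G F c r D W n o a b a₂ k q₀ q sg Mo Ma Mb E₀ g go ga gb gd ψH zψ
    Ht hD Go Ga G₁ G₂ H₂ A) (L : P8L r W o a b J q₀ q sg Q g go ga gb gd) (hr0 : 0 < r)
    (hA : 0 < Pe F.p A) (hBA : Sub B A) {c₀ : ℝ} (hc₀ : 0 < c₀)
    (hBc : c₀ * Pe F.p A ≤ Pe F.p B)
    {Vo Va Vb : Type} {zo : F.Ω → Vo} {za : F.Ω → Va} {zb : F.Ω → Vb}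
    (ko : KeyZ F W r ψH Go A zo) (ka : KeyZ F W r ψH Ga A za) (kb : KeyZ F W r ψH G₁ A zb)
    {η : ℝ} (hη : 0 ≤ η)
    (hoa : CH (Pool.Agent.H49.Ent.cond F.p A True) zo za ≤ η)
    (hob : CH (Pool.Agent.H49.Ent.cond F.p A True) zo zb ≤ η)
    (hab : CH (Pool.Agent.H49.Ent.cond F.p A True) za zb ≤ η)
    (hfa : CH (Pool.Agent.H49.Ent.cond F.p A True)
        (er (hdt2 F c g W n r D q₀ q sg ψH Ht hD) W) (fun ω => (za ω, F.W ω)) ≤
      CH (Pool.Agent.H49.Ent.cond F.p A True)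
        (er (hdt2 F c g W n r D q₀ q sg ψH Ht hD) W) (fun ω => (zb ω, F.W ω)) + η)
    (hfo : CH (Pool.Agent.H49.Ent.cond F.p A True)
        (er (hdt2 F c g W n r D q₀ q sg ψH Ht hD) W) (fun ω => (zo ω, F.W ω)) ≤
      CH (Pool.Agent.H49.Ent.cond F.p A True)
        (er (hdt2 F c g W n r D q₀ q sg ψH Ht hD) W) (fun ω => (zb ω, F.W ω)) + η)
    (hex : ((J - (g 0 + q₀) : ℕ) : ℝ) * Real.log 2 - η ≤
      CH (Pool.Agent.H49.Ent.cond F.p B True) (fun ω => F.X J ω (c 0))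
        (fun ω => (za ω, F.W ω)))
    (hnv : ∑ l ∈ Finset.Ico 1 r, ((uu g q₀ q sg l - (g l + qv q₀ q l) : ℕ) : ℝ) *
        Real.log 2 - η ≤
      CH (Pool.Agent.H49.Ent.cond F.p B True)
        (fun ω (l : Fin (r - 1)) => Nfd (hdt2 F c g W n r D q₀ q sg ψH Ht hD) W (uu g q₀ q sg)
          (fun l => g l + qv q₀ q l) (1 + l) ω)
        (fun ω => (zo ω, (F.W ω, (F.X J ω (c 0),
          cE (hdt2 F c g W n r D q₀ q sg ψH Ht hD) W ω))))) :
    ∑ l ∈ range r, ((uu g q₀ q sg l - (g l + qv q₀ q l) : ℕ) : ℝ) * Real.log 2 -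
      (18 * (η + (2 * η + Real.log 2) / c₀) + 22 * (r * (Real.log (2 * (2 + r * E₀ : ℕ) + 1) +
        Real.log (2 * (Yk r k 1 + 1 : ℕ) + 1)))) ≤
      CH (Pool.Agent.H49.Ent.cond F.p B True)
        (Vfd (hds2 F c g W n r D q₀ q sg ψH Ht hD) W (uu g q₀ q sg)
          (fun l => g l + qv q₀ q l))
        (fun ω => (cG (hdt2 F c g W n r D q₀ q sg ψH Ht hD) W ω, (zo ω, (F.W ω,
          (cP (hdt2 F c g W n r D q₀ q sg ψH Ht hD) W ω,
            cE (hdt2 F c g W n r D q₀ q sg ψH Ht hD) W ω))))) := by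
  have hB : 0 < Pe F.p B := lt_of_lt_of_le (mul_pos hc₀ hA) hBc
  have hl2 : 0 < Real.log 2 := Real.log_pos (by norm_num)
  have hη1 : 0 ≤ (2 * η + Real.log 2) / c₀ := by positivity
  have hη2 : η / c₀ ≤ (2 * η + Real.log 2) / c₀ :=
    div_le_div_of_nonneg_right (by linarith) hc₀.le
  have hη3 : (η + η + Real.log 2) / c₀ ≤ (2 * η + Real.log 2) / c₀ :=
    div_le_div_of_nonneg_right (by linarith) hc₀.le
  obtain ⟨η₁, hη₁⟩ : ∃ η₁ : ℝ, η₁ = η + (2 * η + Real.log 2) / c₀ := ⟨_, rfl⟩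
  have b1 : CH (Pool.Agent.H49.Ent.cond F.p B True) zo za ≤ η₁ := by
    have := few_ev hA hBA hc₀ hBc zo za hoa
    linarith
  have b2 : CH (Pool.Agent.H49.Ent.cond F.p B True) zo zb ≤ η₁ := by
    have := few_ev hA hBA hc₀ hBc zo zb hob
    linarith
  have b3 : CH (Pool.Agent.H49.Ent.cond F.p B True) za zb ≤ η₁ := by
    have := few_ev hA hBA hc₀ hBc za zb hab
    linarith
  have cW : ∀ {T T' : Type} (z : F.Ω → T) (z' : F.Ω → T'),
      CH (Pool.Agent.H49.Ent.cond F.p A True) z z' ≤ η →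
      CH (Pool.Agent.H49.Ent.cond F.p A True) (fun ω => (z ω, F.W ω))
        (fun ω => (z' ω, F.W ω)) ≤ η := by
    intro T T' z z' h
    have h0 := (isLaw_cond F.isLaw hA).nonneg
    have a1 := CH_subadd h0 z F.W (fun ω => (z' ω, F.W ω))
    have a2 : CH (Pool.Agent.H49.Ent.cond F.p A True) z (fun ω => (z' ω, F.W ω)) ≤
        CH (Pool.Agent.H49.Ent.cond F.p A True) z z' :=
      CH_mono_cond h0 fun ω ω' _ _ e => (Prod.ext_iff.1 e).1
    have a3 := CH_det h0 F.W (fun ω => (z' ω, F.W ω)) fun ω ω' _ _ e => (Prod.ext_iff.1 e).2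
    linarith
  have b4 := free_ev hA hBA hc₀ hBc (er (hdt2 F c g W n r D q₀ q sg ψH Ht hD) W)
    (fun ω => (za ω, F.W ω)) (fun ω => (zb ω, F.W ω)) hfa (cW za zb hab)
  have b5 := free_ev hA hBA hc₀ hBc (er (hdt2 F c g W n r D q₀ q sg ψH Ht hD) W)
    (fun ω => (zo ω, F.W ω)) (fun ω => (zb ω, F.W ω)) hfo (cW zo zb hob)
  rw [Vfd_hds2, ← hη₁]
  refine vfd_rec hr0 L.qq H.ho H.ha H.hb H.frw hBA hB (u := uu g q₀ q sg)
    (v := fun l => g l + qv q₀ q l) (fun _ _ => rfl) (fun l _ => le_uu l) (L.uuJ hr0)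
    (le_of_eq ?_) (fun l _ => L.uuQ l) L.o1 L.a1 L.a2 L.b1 L.b2 ko ka kb (by linarith) b1 b2 b3
    ?_ ?_ ?_ ?_
  · unfold wts
    rw [if_pos hr0]
  · refine b4.trans (add_le_add le_rfl ?_)
    linarith
  · refine b5.trans (add_le_add le_rfl ?_)
    linarith
  · refine le_trans ?_ hex
    show ((J - (g 0 + qv q₀ q 0) : ℕ) : ℝ) * Real.log 2 - η₁ ≤ _
    rw [qv_zero]
    linarith
  · linarith

/-- **The number given the own data.** -/
theorem P8G.few (H : P8G F c r D W n o a b a₂ k q₀ q sg Mo Ma Mb E₀ g go ga gb gd ψH zψ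
    Ht hD Go Ga G₁ G₂ H₂ A) (L : P8L r W o a b J q₀ q sg Q g go ga gb gd) (hD2 : 2 ≤ D)
    (hA : 0 < Pe F.p A) {Va : Type} {za : F.Ω → Va} {zaH : LnT F → Va}
    (ka : KeyZ F W r ψH Ga A za) (hza : ∀ ω, A ω → za ω = zaH (slam F a ω))
    (hzT : ∀ ω ω', A ω → A ω' → za ω = za ω' → F.Z ω = F.Z ω' ∧ F.T1 a ω = F.T1 a ω')
    {e1 e3 : ℝ} {K : ℕ}
    (hK : 2 * (((2 * ((2 * r + 2) * 2 ^ k) ^ (2 * r + 5) * (1 + 2) : ℕ) : ℝ) +
      2 * r * ((2 * ((2 * r + 2) * 2 ^ k) ^ (2 * r + 5) * (1 + 2) : ℕ) : ℝ)) + 1 ≤ K)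
    (few : CH (Pool.Agent.H49.Ent.cond F.p A True)
      (fun ω => ((hds2 F c g W n r D q₀ q sg ψH Ht hD).cx (slam F W ω),
        ⌊(2 : ℝ) ^ (g r + q + sg) *
          (hds2 F c g W n r D q₀ q sg ψH Ht hD).nb W A (slam F W ω)⌋))
      (fun ω => (za ω, (er (hdt2 F c g W n r D q₀ q sg ψH Ht hD) W ω, F.W ω))) ≤ e1)
    (tm : (J : ℝ) * Real.log 2 - e3 ≤
      CH (Pool.Agent.H49.Ent.cond F.p A True) F.T (fun ω => (F.l ω, F.Z ω))) :
    CH (Pool.Agent.H49.Ent.cond F.p A True) (fun ω => ⌊(2 : ℝ) ^ (g r + q + sg) *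
        nw (hdt2 F c g W n r D q₀ q sg ψH Ht hD) W
          (rfv (Pool.Agent.H49.Ent.cond F.p A True) za
            (er (hdt2 F c g W n r D q₀ q sg ψH Ht hD) W)
            (fun ω l => (hdt2 F c g W n r D q₀ q sg ψH Ht hD).P l (slam F W ω))
            (za ω) (er (hdt2 F c g W n r D q₀ q sg ψH Ht hD) W ω)) ω⌋)
        (fun ω => (er (hdt2 F c g W n r D q₀ q sg ψH Ht hD) W ω, za ω)) ≤
      e1 + e1 + Real.log (2 * K + 1) + e3 := by
  have hp := isLaw_cond F.isLaw hA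
  have h0 := hp.nonneg
  have hpA : ∀ ω, 0 < Pool.Agent.H49.Ent.cond F.p A True ω → A ω := fun ω hω => of_cond_pos hω
  obtain ⟨d, hd⟩ : ∃ d : Dat F (ℕ → Option (Fin m) → ℝ) r D,
    d = hdt2 F c g W n r D q₀ q sg ψH Ht hD := ⟨_, rfl⟩
  obtain ⟨K₁, hK₁⟩ : ∃ K₁ : ℝ,
    K₁ = ((2 * ((2 * r + 2) * 2 ^ k) ^ (2 * r + 5) * (1 + 2) : ℕ) : ℝ) := ⟨_, rfl⟩
  have hSE : ∀ l, d.SE l = 2 ^ (g l + qv q₀ q l) := fun l => by rw [hd]; rfl
  have hSG : ∀ l, d.SG l = 2 ^ (g r + sg) / 2 ^ g l := fun l => by rw [hd]; rfl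
  have haJ := L.aJ
  have hWa := L.Wa
  have hone : (1 : ℝ) ≤ K₁ := by
    rw [hK₁]
    have h1 : 1 ≤ ((2 * r + 2) * 2 ^ k) ^ (2 * r + 5) := Nat.one_le_pow _ _ (by positivity)
    have h2 : 1 ≤ 2 * ((2 * r + 2) * 2 ^ k) ^ (2 * r + 5) * (1 + 2) := by omega
    exact_mod_cast h2
  rw [← hd] at few ⊢
  have e0 : ∀ (PR : ℕ → Polynomial ℝ) (ω : F.Ω), nw d W PR ω =
      nw (hds2 F c g W n r D q₀ q sg ψH Ht hD) W PR ω := fun PR ω => by
    rw [nw_hds2, hd]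
  simp only [e0]
  have f1 : CH (Pool.Agent.H49.Ent.cond F.p A True)
      (fun ω => ⌊(2 : ℝ) ^ (g r + q + sg) *
        (hds2 F c g W n r D q₀ q sg ψH Ht hD).nb W A (slam F W ω)⌋)
      (fun ω => (za ω, (er d W ω, F.W ω))) ≤ e1 :=
    le_trans (CH_mono_left h0 fun ω ω' _ _ e => (Prod.ext_iff.1 (Prod.ext_iff.1 e).1).2) few
  have f2 : CH (Pool.Agent.H49.Ent.cond F.p A True)
      (fun ω => (hds2 F c g W n r D q₀ q sg ψH Ht hD).cx (slam F W ω))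
      (fun ω => (za ω, (er d W ω, F.W ω))) ≤ e1 :=
    le_trans (CH_mono_left h0 fun ω ω' _ _ e => (Prod.ext_iff.1 (Prod.ext_iff.1 e).1).1) few
  refine few_floor (d := hds2 F c g W n r D q₀ q sg ψH Ht hD) (W := W) hp hpA za (er d W) F.W
    (fun y x => rfv (Pool.Agent.H49.Ent.cond F.p A True) za (er d W)
      (fun ω l => d.P l (slam F W ω)) y x) (K1 := K₁) (l := ((J - a : ℕ) : ℝ) * Real.log 2)
    hD2 (fun l _ => ?_) hone (fun ω hω l hl j hj => ?_) (by rw [hK₁]; exact hK) f1 f2 ?_ ?_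
  · show (0 : ℝ) < 2 ^ (g r + sg) / 2 ^ g l
    positivity
  · obtain ⟨ω₀, h1, h2, h3, h4⟩ := rfv_spec (z := za) (e := er d W) hω (R := ℕ → Polynomial ℝ)
    rw [h4]
    have hA0 := hpA ω₀ h1
    have hA1 := hpA ω hω
    obtain ⟨k1, k2⟩ := ka ω ω₀ hA1 hA0 h2.symm
    obtain ⟨-, k3⟩ := hzT ω ω₀ hA1 hA0 h2.symm
    have k4 : cV d W ω = cV d W ω₀ := (Prod.ext_iff.1 h3).1.symm
    have k5 := fl_one (by rw [hSE]; positivity) k4
    rw [hSE] at k5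
    have k6 : (2 : ℝ) ^ (g 0 + q) * |(hdt F c g W n r D q sg ψH Ht hD).e W 0 ω -
        (hdt F c g W n r D q sg ψH Ht hD).e W 0 ω₀| ≤ (1 : ℕ) := by
      rw [Nat.cast_one]
      rw [hd] at k5
      exact le_trans (mul_le_mul_of_nonneg_right (pow_le_pow_right₀ (by norm_num)
        (Nat.add_le_add_left (le_qv L.qq 0) _)) (abs_nonneg _)) k5
    have k7 := H.ha.lines (q := q) (hD := hD) hWa haJ hA1 hA0 k3 k1 k2 k6
      (fun l hl => (Nat.add_le_add_left (le_qv L.qq l) _).trans (L.a1 l hl)) L.a2 l hl j hj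
    have k8 : (hds2 F c g W n r D q₀ q sg ψH Ht hD).P l (slam F W ω) =
        (hdt F c g W n r D q sg ψH Ht hD).P l (slam F W ω) := by
      unfold hds2
      rw [Dat.shr_P _ _ hl]
      rfl
    have k9 : d.P l (slam F W ω₀) = (hdt F c g W n r D q sg ψH Ht hD).P l (slam F W ω₀) := by
      rw [hd]
      rfl
    rw [k8]
    show 2 ^ (g r + q + sg) * |((hdt F c g W n r D q sg ψH Ht hD).P l (slam F W ω) -
      d.P l (slam F W ω₀)).coeff j| ≤ K₁ * (2 ^ (g r + sg) / 2 ^ g l)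
    rw [k9]
    rw [← hK₁] at k7
    have k10 := mul_le_mul_of_nonneg_right k7
      (by positivity : (0 : ℝ) ≤ 2 ^ (g r + sg) / 2 ^ g l)
    refine le_trans (le_of_eq ?_) k10
    simp only [pow_add]
    field_simp
  · refine full_W hp haJ tm (fun ω => (slam F W ω, (za ω, er d W ω))) fun ω ω' hω hω' e => ?_
    have h1 : slam F W ω = slam F W ω' := by
      rw [← co_slam F hWa haJ, ← co_slam F hWa haJ, e]
    have h2 : za ω = za ω' := by
      rw [hza ω (hpA ω hω), hza ω' (hpA ω' hω'), e]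
    have h3 : er d W ω = er d W ω' := by
      unfold er cV cG Dat.e
      rw [h1]
    show (slam F W ω, (za ω, er d W ω)) = (slam F W ω', (za ω', er d W ω'))
    rw [h1, h2, h3]
  · exact up_W hp (fun ω => (za ω, er d W ω)) fun ω ω' hω hω' e =>
      hzT ω ω' (hpA ω hω) (hpA ω' hω') (Prod.ext_iff.1 e).1

end fin

end Pool.D2F2
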