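import Pool.Agent.H28.D2.Gbw
import Pool.Agent.H28.D2.P8b
import Pool.Agent.H90.D2.Hgb
import Pool.Agent.H90.D2.Rea
import Pool.Agent.H23.D2.Nba

/-!
# The windows of the number from balls near one system of covectors

`Cw`: a chain window: the ball of the window `a`, natural, near the covectors `Sv`. `gb_sv`: the
structure `Gb`; the label is compared with the covectors at one deep window (`Dpw`). `p8g_of`: the
structure `P8G` of the class theorem.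
-/

set_option autoImplicit false

namespace Pool.D2F2

open Finset Real MvPolynomial
open Pool.Agent.H49.Ent Pool.Agent.H32.Dense Pool.STK Pool.KA Pool.KSAT Pool.K2S Pool.PB Pool.GEN
open Pool.S6C Pool.LA91 Pool.CHT Pool.CHX
open Pool.D2R (dd hs co nrm dd_sub nrm_nonneg ptw ptw_rt ROut1 ROutB co_slam)
open Pool.D2F (cv CvC eta grd cv_grd FrOK)
open Pool.D2Z (en en_succ en_zero en_nonneg en_mono en_eq Nc en_le cv_subl pow1)
open Pool.D2N (WFr Dpw gq)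
open Pool.F5 (NatH)
open Pool.ISO (Clsd)

variable {m J : ℕ}

/-- **A chain window**: the ball of the window `a`, natural, near the covectors `Sv`. -/
structure Cw (F : Fam m J) (c : ℕ → Fin m) (D W a e X : ℕ) (g ga : ℕ → ℕ) (B : F.Ω → Prop)
    (G : PtT F → ℕ → MvPolynomial (Option (Fin m)) ℝ)
    (H : LnT F → ℕ → MvPolynomial (Option (Fin m)) ℝ)
    (Sv : PtT F → ℕ → Option (Fin m) → ℝ) : Prop where
  Wa : W ≤ a
  aJ : a ≤ J
  nr : ∀ ω, B ω → Nc c ga a 4 (2 ^ X) (Sv (ptr F J ω)) (fun l => grd (G (ptr F J ω) l) (bt F ω))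
  ch : ChOK F c 4 (fun _ => D) a a e ga B G H
  cl : Clsd F 4 a B G H
  vel : ROutB F c 3 a X ga B G H
  nat : ∀ l ≤ 3, NatH F c a ga B G X l
  l0 : ∀ l ≤ 3, a + g l ≤ ga l + W + X
  l1 : ∀ l ≤ 3, ∀ j < l, ga j + g l ≤ ga l + g j + X

/-- Natural units of a deeper window, without the time. -/
theorem en_shift {c : ℕ → Fin m} {g ga : ℕ → ℕ} {W a M : ℕ} {χ : ℕ → Option (Fin m) → ℝ} {l : ℕ}
    (h : ∀ j < l, ga j ≤ g j + M) {V : Option (Fin m) → ℝ} (h0 : V none = 0) :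
    en c ga a χ l V ≤ 2 ^ M * en c g W χ l V := by
  rw [en_eq, en_eq, h0, abs_zero, mul_zero, mul_zero, zero_add, zero_add, Finset.mul_sum]
  refine Finset.sum_le_sum fun j hj => ?_
  rw [← mul_assoc, ← pow_add]
  refine mul_le_mul_of_nonneg_right (pow_le_pow_right₀ (by norm_num) ?_) (abs_nonneg _)
  have := h j (Finset.mem_range.1 hj)
  omega

section

variable {F : Fam m J} {c : ℕ → Fin m} {D W a a' w₀ v v' e e₁ e' X K sg M M' p : ℕ}
    {g ga g' gT : ℕ → ℕ} {U : ℝ} {B : F.Ω → Prop}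
    {ψ : PtT F → ℕ → Option (Fin m) → ℝ} {ψH : LnT F → ℕ → Option (Fin m) → ℝ}
    {Sv : PtT F → ℕ → Option (Fin m) → ℝ}
    {G G' T' : PtT F → ℕ → MvPolynomial (Option (Fin m)) ℝ}
    {H H' TH' : LnT F → ℕ → MvPolynomial (Option (Fin m)) ℝ}
    {Ht : LnT F → MvPolynomial (Option (Fin m)) ℝ}

/-- **The frame and the gradients of the chain window.** -/
theorem Cw.frm (H₁ : Cw F c D W a e X g ga B G H Sv) (hfr : WFr F c 4 W X e' g B ψ ψH Sv)
    (hK : 7 * (X + 1) ≤ K) :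
    ∀ ω, B ω → ∀ l ≤ 3, ∀ V : Option (Fin m) → ℝ,
      |cv (ψH (slam F W ω) l) V - dd (G (ptr F J ω) l) (bt F ω) V| ≤
        2 ^ K / 2 ^ g l * en c g W (ψH (slam F W ω)) l V :=
  frmr_of (r := 3) hfr.fr hfr.nr H₁.nr H₁.l0 H₁.l1 (by omega)

/-- **The structure `Gb`** at a chain window. -/
theorem gb_sv (hc : Set.InjOn c (Set.Iio 3)) (hw₀ : w₀ ≤ W)
    (hfr : WFr F c 4 W X e' g B ψ ψH Sv) (H₁ : Cw F c D W a e X g ga B G H Sv)
    (hpH : ∀ s, DepC c 3 (Ht s))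
    (hdp : Dpw F c D w₀ a' v v' e₁ X p g' gT U B G' H' T' TH' Ht Sv)
    (lM : ∀ j < 3, ga j ≤ g j + M) (lv : g 3 + sg + M ≤ ga 3)
    (lM' : ∀ j < 3, g' j ≤ g j + M') (lv' : g 3 + sg + M' ≤ g' 3)
    (hK : 13 * (X + 1) ≤ K) :
    Gb F c g ga W (W - w₀) a K 3 D sg M ψH Ht G B := by
  have hWJ : W ≤ J := H₁.Wa.trans H₁.aJ
  refine ⟨hc, hWJ, H₁.ch.depG, hpH, hfr.fr.depH, fun ω hω l hl => H₁.ch.pos ω hω l (by omega),
    fun l hl => (H₁.nat l hl).sub (fun _ h => h) (by omega), fun ω hω l hl => ?_,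
    fun ω hω l hl V => H₁.frm hfr (by omega) ω hω l hl.le V, fun ω hω V h0 => ?_, lv, lM⟩
  · refine (H₁.vel.vel ω ω hω hω rfl l hl).trans (div_le_div_of_nonneg_right ?_ (by positivity))
    rw [pow_add]
    exact mul_le_mul_of_nonneg_right (pow_le_pow_right₀ (by norm_num) (by omega)) (by positivity)
  · have e1 : co (W - w₀) (slam F W ω) = slam F w₀ ω := co_slam F hw₀ hWJ ω
    rw [e1]
    obtain ⟨E, hE⟩ : ∃ E : ℝ, E = en c g W (ψH (slam F W ω)) 3 V := ⟨_, rfl⟩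
    have hE0 : 0 ≤ E := by
      rw [hE]
      exact en_nonneg _ _ _ _ _ _
    have hS : en c g W (Sv (ptr F J ω)) 3 V ≤ 2 ^ ((X + 1) * 4) * E := by
      have h1 := (hfr.nr ω hω).en_le (by positivity) (show 3 ≤ 4 by norm_num) V
      rw [hfr.fr.cls ω hω, ← hE] at h1
      exact h1.trans (mul_le_mul_of_nonneg_right (pow1 X 4) hE0)
    have hS0 := en_nonneg c g W (Sv (ptr F J ω)) 3 V
    have h1 := hdp.ddn hω V
    have h2 := H₁.nr ω hω 3 (by norm_num) V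
    rw [cv_subl, cv_grd] at h2
    have h3 := en_shift (c := c) (a := a') (W := W) (χ := Sv (ptr F J ω)) lM' h0
    have h4 := en_shift (c := c) (a := a) (W := W) (χ := Sv (ptr F J ω)) lM h0
    rw [← hE]
    -- a deep term
    have key : ∀ n y z : ℕ, g 3 + sg + y ≤ z → ∀ e : ℝ, e ≤ 2 ^ y * en c g W (Sv (ptr F J ω)) 3 V →
        2 ^ n / 2 ^ z * e ≤ 2 ^ (n + (X + 1) * 4) / 2 ^ (g 3 + sg) * E := by
      intro n y z hyz e he
      have b1 : e ≤ 2 ^ y * (2 ^ ((X + 1) * 4) * E) :=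
        he.trans (mul_le_mul_of_nonneg_left hS (by positivity))
      refine (mul_le_mul_of_nonneg_left b1 (by positivity)).trans ?_
      have b2 : (2 : ℝ) ^ (g 3 + sg) * 2 ^ y ≤ 2 ^ z := by
        rw [← pow_add]
        exact pow_le_pow_right₀ (by norm_num) hyz
      have b3 : 2 ^ n / 2 ^ z * (2 ^ y * (2 ^ ((X + 1) * 4) * E)) =
          2 ^ (n + (X + 1) * 4) / 2 ^ (g 3 + sg) * E * ((2 ^ (g 3 + sg) * 2 ^ y) / 2 ^ z) := by
        rw [pow_add 2 n]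
        field_simp
      rw [b3]
      refine mul_le_of_le_one_right (by positivity) ?_
      rw [div_le_one (by positivity)]
      exact b2
    have k1 := key (9 * X + 8) M' (g' 3) lv' _ h3
    have k2 := key X M (ga 3) lv _ h4
    have e2 : dd (Ht (slam F w₀ ω) - G (ptr F J ω) 3) (bt F ω) V =
        (dd (Ht (slam F w₀ ω)) (bt F ω) V - cv (Sv (ptr F J ω) 3) V) -
        (dd (G (ptr F J ω) 3) (bt F ω) V - cv (Sv (ptr F J ω) 3) V) := by
      rw [dd_sub]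
      ring
    rw [e2]
    refine (abs_sub _ _).trans ((add_le_add (h1.trans k1) (h2.trans k2)).trans ?_)
    have hd : (0 : ℝ) ≤ E / 2 ^ (g 3 + sg) := by positivity
    have c1 : (2 : ℝ) ^ (9 * X + 8 + (X + 1) * 4) + 2 ^ (X + (X + 1) * 4) ≤ 2 ^ K := by
      have c2 : (2 : ℝ) ^ (X + (X + 1) * 4) ≤ 2 ^ (9 * X + 8 + (X + 1) * 4) :=
        pow_le_pow_right₀ (by norm_num) (by omega)
      have c3 : (2 : ℝ) * 2 ^ (9 * X + 8 + (X + 1) * 4) ≤ 2 ^ K := by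
        rw [← pow_succ']
        exact pow_le_pow_right₀ (by norm_num) (by omega)
      linarith
    have c4 := mul_le_mul_of_nonneg_right c1 hd
    refine le_trans (le_of_eq ?_) (c4.trans (le_of_eq ?_)) <;> ring

/-- **The deep ball of stage 1** at a chain window. -/
theorem Cw.gd (hc : Set.InjOn c (Set.Iio 3)) (H₁ : Cw F c D W a e X g ga B G H Sv)
    (hfr : WFr F c 4 W X e' g B ψ ψH Sv) (hK : 7 * (X + 1) ≤ K) :
    Gd F c g ga W a K 3 ψH G B :=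
  ⟨hc, H₁.ch.depG, fun ω hω l hl => H₁.ch.pos ω hω l (by omega),
    fun l hl => (H₁.nat l hl).sub (fun _ h => h) (by omega),
    fun ω hω l hl V _ => H₁.frm hfr hK ω hω l hl V⟩

/-- The frame in weights. -/
theorem lip_of {e : ℕ} {Q q₀ q : ℕ} (hfr : FrOK F c 4 W X e g B ψ ψH)
    (hq : q ≤ q₀) (h1 : q₀ ≤ Q) (h2 : q + sg ≤ Q) (J1 : ∀ l < 3, g l + Q ≤ J)
    (J2 : g 3 + (q + sg) ≤ J) :
    ∀ ω, B ω → ∀ l ≤ 3, ∀ j < l,
      2 ^ wts 3 g q₀ q sg l * |ψH (slam F W ω) l (some (c j))| ≤ ((2 ^ e : ℕ) : ℝ) * 2 ^ J := by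
  intro ω hω l hl j hj
  have a1 := hfr.lip ω hω l (by omega) j hj
  rw [hfr.cls ω hω] at a1
  refine (mul_le_mul_of_nonneg_left a1 (by positivity)).trans ?_
  push_cast
  rw [← pow_add, ← pow_add]
  refine pow_le_pow_right₀ (by norm_num) ?_
  have a2 : wts 3 g q₀ q sg l + nlp g j l ≤ J := by
    have a3 : g l ≤ (Finset.Icc j l).sup g :=
      Finset.le_sup (f := g) (Finset.mem_Icc.2 ⟨hj.le, le_rfl⟩)
    unfold nlp
    rcases Nat.lt_or_eq_of_le hl with h | h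
    · have a4 : wts 3 g q₀ q sg l ≤ g l + Q := by
        unfold wts
        rw [if_pos h]
        unfold uu qv
        refine max_le ?_ (by omega)
        split_ifs <;> omega
      have a5 : (Finset.Icc j l).sup g ≤ J - Q := Finset.sup_le fun i hi => by
        have := (Finset.mem_Icc.1 hi).2
        have := J1 i (by omega)
        omega
      have := J1 l h
      omega
    · have a4 : wts 3 g q₀ q sg l = g 3 + (q + sg) := by
        unfold wts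
        rw [h, if_neg (lt_irrefl 3)]
      have a5 : (Finset.Icc j l).sup g ≤ J - (q + sg) := Finset.sup_le fun i hi => by
        have b1 := (Finset.mem_Icc.1 hi).2
        rcases Nat.lt_or_ge i 3 with h3 | h3
        · have := J1 i h3
          omega
        · have : i = 3 := by omega
          rw [this]
          omega
      rw [h] at a3 a4 a5 ⊢
      omega
  omega

end

/-- **The structure `P8G`**, base window `W` = window of the label. -/
theorem p8g_of {F : Fam m J} {c : ℕ → Fin m}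
    {D W o a b a₂ a' v v' e e₁ e' X K q₀ q sg Q Mo Ma Mb M' p : ℕ} {g go ga gb gd g' gT : ℕ → ℕ}
    {U : ℝ} {B : F.Ω → Prop} {ψ : PtT F → ℕ → Option (Fin m) → ℝ}
    {ψH : LnT F → ℕ → Option (Fin m) → ℝ} {Sv : PtT F → ℕ → Option (Fin m) → ℝ}
    {Go Ga G₁ G₂ G' T' : PtT F → ℕ → MvPolynomial (Option (Fin m)) ℝ}
    {Ho Ha H₁ H₂ H' TH' : LnT F → ℕ → MvPolynomial (Option (Fin m)) ℝ}
    {Ht : LnT F → MvPolynomial (Option (Fin m)) ℝ} {hD : ∀ s, (Ht s).totalDegree ≤ D}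
    (hc : Set.InjOn c (Set.Iio 3)) (hfr : WFr F c 4 W X e' g B ψ ψH Sv)
    (ho : Cw F c D W o e X g go B Go Ho Sv) (ha : Cw F c D W a e X g ga B Ga Ha Sv)
    (hb : Cw F c D W b e X g gb B G₁ H₁ Sv) (hd : Cw F c D W a₂ e X g gd B G₂ H₂ Sv)
    (hpH : ∀ s, DepC c 3 (Ht s))
    (hdp : Dpw F c D W a' v v' e₁ X p g' gT U B G' H' T' TH' Ht Sv)
    (hsz : ∀ ω, B ω → ∀ i < 3, ∀ j, |(gq F c g W 0 ψH Ht (slam F W ω) i).coeff (j + 1)| ≤
      2 ^ X / 2 ^ g 3 * 2 ^ g i)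
    (Mo1 : ∀ j < 3, go j ≤ g j + Mo) (Mo2 : g 3 + sg + Mo ≤ go 3)
    (Ma1 : ∀ j < 3, ga j ≤ g j + Ma) (Ma2 : g 3 + sg + Ma ≤ ga 3)
    (Mb1 : ∀ j < 3, gb j ≤ g j + Mb) (Mb2 : g 3 + sg + Mb ≤ gb 3)
    (Md1 : ∀ j < 3, g' j ≤ g j + M') (Md2 : g 3 + sg + M' ≤ g' 3)
    (hq : q ≤ q₀) (Q1 : q₀ ≤ Q) (Q2 : q + sg ≤ Q) (J1 : ∀ l < 3, g l + Q ≤ J)
    (J2 : g 3 + (q + sg) ≤ J) (hK : 13 * (X + 1) ≤ K) :
    P8G F c 3 D W 0 o a b a₂ K q₀ q sg Mo Ma Mb (2 ^ e') g go ga gb gd ψH ψ Ht hD Go Ga G₁ G₂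
      H₂ B := by
  have e0 : W - W = 0 := Nat.sub_self W
  have h1 := gb_sv hc le_rfl hfr ho hpH hdp Mo1 Mo2 Md1 Md2 hK
  have h2 := gb_sv hc le_rfl hfr ha hpH hdp Ma1 Ma2 Md1 Md2 hK
  have h3 := gb_sv hc le_rfl hfr hb hpH hdp Mb1 Mb2 Md1 Md2 hK
  rw [e0] at h1 h2 h3
  refine ⟨h1, h2, h3, hd.gd hc hfr (by omega), hd.cl, hfr.fr.cls,
    fun ω hω V _ => ha.frm hfr (by omega) ω hω 3 le_rfl V, fun ω hω l hl j hj => ?_,
    lip_of hfr.fr hq Q1 Q2 J1 J2⟩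
  obtain ⟨i, rfl⟩ : ∃ i, j = i + 1 := ⟨j - 1, by omega⟩
  have h4 := hsz ω hω l hl i
  refine (show |((hdt2 F c g W 0 3 D q₀ q sg ψH Ht hD).gp l (slam F W ω)).coeff (i + 1)| ≤ _ from
    h4).trans ?_
  have h5 : (2 : ℝ) ^ X / 2 ^ g 3 * 2 ^ g l = 2 ^ X * (2 ^ g l / 2 ^ g 3) := by ring
  rw [h5]
  exact mul_le_mul_of_nonneg_right (pow_le_pow_right₀ (by norm_num) (by omega)) (by positivity)

end Pool.D2F2
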