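import Pool.Agent.H28.D2.Geo
import Pool.Agent.H60.D2.Crw

/-!
# The ball of a deeper window in the frame

`frm_of`: a frame near a system which is natural at the deeper window is near the gradients of the
charts of the deeper window. `win_of`: the closed label against the ball chart. `gb_of`: the
structure `Gb`.
-/

set_option autoImplicit false

namespace Pool.D2F2

open Finset Real MvPolynomial
open Pool.Agent.H49.Ent Pool.Agent.H32.Dense Pool.STK Pool.KA Pool.KSAT Pool.K2S Pool.PB Pool.GEN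
open Pool.S6C Pool.LA91 Pool.CHT Pool.CHX
open Pool.PB.Trl (rt rt_mem)
open Pool.D2R (dd hs co nrm dd_sub nrm_nonneg ptw ptw_rt ROut1 co_slam)
open Pool.D2F (cv CvC eta grd cv_grd FrOK)
open Pool.D2Z (en en_succ en_zero en_nonneg en_mono en_eq Nc en_le cv_subl pow1)
open Pool.F5 (NatH)

variable {m J : ℕ}

/-- Natural units of a deeper window. -/
theorem en_lev {c : ℕ → Fin m} {g ga : ℕ → ℕ} {W a X : ℕ} {χ : ℕ → Option (Fin m) → ℝ} {l : ℕ}
    (h0 : a + g l ≤ ga l + W + X) (h1 : ∀ j < l, ga j + g l ≤ ga l + g j + X)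
    (V : Option (Fin m) → ℝ) :
    1 / 2 ^ ga l * en c ga a χ l V ≤ 2 ^ X / 2 ^ g l * en c g W χ l V := by
  have key : ∀ x y : ℕ, x + g l ≤ ga l + y + X → ∀ z : ℝ, 0 ≤ z →
      1 / 2 ^ ga l * (2 ^ x * z) ≤ 2 ^ X / 2 ^ g l * (2 ^ y * z) := by
    intro x y hxy z hz
    have h2 : (2 : ℝ) ^ x * 2 ^ g l ≤ 2 ^ ga l * 2 ^ y * 2 ^ X := by
      rw [← pow_add, ← pow_add, ← pow_add]
      exact pow_le_pow_right₀ (by norm_num) hxy
    have h3 : (1 : ℝ) / 2 ^ ga l * (2 ^ x * z) = (2 ^ x * 2 ^ g l) * z / (2 ^ ga l * 2 ^ g l) := by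
      field_simp
    have h4 : (2 : ℝ) ^ X / 2 ^ g l * (2 ^ y * z) =
        (2 ^ ga l * 2 ^ y * 2 ^ X) * z / (2 ^ ga l * 2 ^ g l) := by
      field_simp
    rw [h3, h4]
    exact div_le_div_of_nonneg_right (mul_le_mul_of_nonneg_right h2 hz) (by positivity)
  rw [en_eq, en_eq, mul_add, mul_add, Finset.mul_sum, Finset.mul_sum]
  refine add_le_add (key a W h0 _ (abs_nonneg _)) (Finset.sum_le_sum fun j hj => ?_)
  exact key (ga j) (g j) (h1 j (Finset.mem_range.1 hj)) _ (abs_nonneg _)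

/-- **The frame and the gradients of the deeper charts.** -/
theorem frm_of {c : ℕ → Fin m} {g ga : ℕ → ℕ} {W a X r : ℕ} {ψ S Gr : ℕ → Option (Fin m) → ℝ}
    (h1 : Nc c g W r (2 ^ X) ψ S) (h2 : Nc c ga a r (2 ^ X) S Gr)
    (l0 : ∀ l < r, a + g l ≤ ga l + W + X) (l1 : ∀ l < r, ∀ j < l, ga j + g l ≤ ga l + g j + X)
    {l : ℕ} (hl : l < r) (V : Option (Fin m) → ℝ) :
    |cv (ψ l) V - cv (Gr l) V| ≤ 2 ^ ((X + 1) * (r + 3)) / 2 ^ g l * en c g W ψ l V := by
  have a1 := h1 l hl V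
  have a2 := h2 l hl V
  rw [cv_subl] at a1 a2
  have e1 : cv (ψ l) V - cv (Gr l) V = -((cv (S l) V - cv (ψ l) V) + (cv (Gr l) V - cv (S l) V)) := by
    ring
  rw [e1, abs_neg]
  refine (abs_add_le _ _).trans ?_
  have a3 : 2 ^ X / 2 ^ ga l * en c ga a S l V ≤
      2 ^ X * (2 ^ X / 2 ^ g l * (2 ^ ((X + 1) * r) * en c g W ψ l V)) := by
    have b1 := en_lev (c := c) (χ := S) (l0 l hl) (l1 l hl) V
    have b2 : en c g W S l V ≤ 2 ^ ((X + 1) * r) * en c g W ψ l V := by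
      refine (h1.en_le (by positivity) hl.le V).trans
        (mul_le_mul_of_nonneg_right (pow1 X r) (en_nonneg _ _ _ _ _ _))
    have b3 : 2 ^ X / 2 ^ g l * en c g W S l V ≤
        2 ^ X / 2 ^ g l * (2 ^ ((X + 1) * r) * en c g W ψ l V) :=
      mul_le_mul_of_nonneg_left b2 (by positivity)
    have b4 := mul_le_mul_of_nonneg_left (b1.trans b3) (by positivity : (0 : ℝ) ≤ 2 ^ X)
    refine le_trans (le_of_eq ?_) b4
    ring
  obtain ⟨E, hE⟩ : ∃ E : ℝ, E = en c g W ψ l V / 2 ^ g l := ⟨_, rfl⟩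
  have hE0 : 0 ≤ E := by
    rw [hE]
    exact div_nonneg (en_nonneg _ _ _ _ _ _) (by positivity)
  have c1 : 2 ^ X / 2 ^ g l * en c g W ψ l V = 2 ^ X * E := by
    rw [hE]
    ring
  have c2 : 2 ^ X * (2 ^ X / 2 ^ g l * (2 ^ ((X + 1) * r) * en c g W ψ l V)) =
      2 ^ (X + X + (X + 1) * r) * E := by
    rw [hE, pow_add, pow_add]
    ring
  have c3 : 2 ^ ((X + 1) * (r + 3)) / 2 ^ g l * en c g W ψ l V =
      2 ^ ((X + 1) * (r + 3)) * E := by
    rw [hE]
    ring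
  rw [c1] at a1
  rw [c2] at a3
  rw [c3]
  have c4 : (2 : ℝ) ^ X ≤ 2 ^ (X + X + (X + 1) * r) :=
    pow_le_pow_right₀ (by norm_num) (by nlinarith)
  have c5 : (2 : ℝ) * 2 ^ (X + X + (X + 1) * r) ≤ 2 ^ ((X + 1) * (r + 3)) := by
    rw [← pow_succ']
    exact pow_le_pow_right₀ (by norm_num) (by nlinarith)
  have c6 := mul_le_mul_of_nonneg_right c4 hE0
  have c7 := mul_le_mul_of_nonneg_right c5 hE0
  linarith

/-- **The closed label and the ball chart.** -/
theorem win_of {c : ℕ → Fin m} {g ga gT : ℕ → ℕ} {W a α r sg M M' p k : ℕ} {U : ℝ}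
    {ψ : ℕ → Option (Fin m) → ℝ} {x : Option (Fin m) → ℝ}
    {G T Hn : ℕ → MvPolynomial (Option (Fin m)) ℝ} {R : MvPolynomial (Option (Fin m)) ℝ}
    (hU : U ≤ 2 ^ k) (hT : ∀ l < r, T l = Hn l)
    (hfr : ∀ l < r, ∀ V : Option (Fin m) → ℝ,
      |cv (ψ l) V - dd (G l) x V| ≤ 2 ^ k / 2 ^ g l * en c g W ψ l V)
    (hwin : ∀ V : Option (Fin m) → ℝ, |dd (R - Hn r) x V| ≤ U / 2 ^ p * nrm c T gT α r x V)
    (hdif : ∀ l ≤ r, ∀ V : Option (Fin m) → ℝ,
      |dd (Hn l - G l) x V| ≤ U / 2 ^ ga l * nrm c G ga a l x V)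
    (lM : ∀ j < r, ga j ≤ g j + M) (lv : g r + sg + M ≤ ga r) (lT : ∀ j < r, gT j ≤ g j + M')
    (lT' : ∀ j < r, gT j + M ≤ ga j + M') (lp : g r + sg + M' ≤ p)
    {V : Option (Fin m) → ℝ} (h0 : V none = 0) :
    |dd (R - G r) x V| ≤ 2 ^ (3 * k + 2 * r + 3) / 2 ^ (g r + sg) * en c g W ψ r V := by
  obtain ⟨E, hE⟩ : ∃ E : ℝ, E = en c g W ψ r V := ⟨_, rfl⟩
  have hE0 : 0 ≤ E := by
    rw [hE]
    exact en_nonneg _ _ _ _ _ _
  have hk1 : (1 : ℝ) ≤ 2 ^ k := one_le_pow₀ (by norm_num)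
  have hr2 : (r : ℝ) ≤ 2 ^ r := by exact_mod_cast (Nat.lt_two_pow_self (n := r)).le
  have hr0 : (0 : ℝ) ≤ r := Nat.cast_nonneg r
  -- the component
  have hcmp : ∀ j < r, |V (some (c j)) - dd (G j) x V| ≤ 2 ^ (k + 1) / 2 ^ g j * E := by
    intro j hj
    have b1 := hfr j hj V
    have b2 : en c g W ψ j V ≤ E := by
      rw [hE]
      exact en_mono c g W ψ hj.le V
    have b3 : 2 ^ g j * |V (some (c j)) - cv (ψ j) V| ≤ E := by
      have := en_mono c g W ψ (show j + 1 ≤ r by omega) V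
      rw [en_succ, ← hE] at this
      have := en_nonneg c g W ψ j V
      linarith
    have b4 : |V (some (c j)) - cv (ψ j) V| ≤ E / 2 ^ g j := by
      rw [le_div_iff₀ (by positivity), mul_comm]
      exact b3
    have e1 : V (some (c j)) - dd (G j) x V = (V (some (c j)) - cv (ψ j) V) +
        (cv (ψ j) V - dd (G j) x V) := by ring
    rw [e1]
    refine (abs_add_le _ _).trans ?_
    have b5 : 2 ^ k / 2 ^ g j * en c g W ψ j V ≤ 2 ^ k / 2 ^ g j * E :=
      mul_le_mul_of_nonneg_left b2 (by positivity)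
    have b6 : 2 ^ (k + 1) / 2 ^ g j * E = 2 ^ k / 2 ^ g j * E + 2 ^ k / 2 ^ g j * E := by
      rw [pow_succ]
      ring
    have b7 : E / 2 ^ g j ≤ 2 ^ k / 2 ^ g j * E := by
      rw [div_mul_eq_mul_div]
      exact div_le_div_of_nonneg_right (le_mul_of_one_le_left hE0 hk1) (by positivity)
    rw [b6]
    linarith
  -- the norm of the ball
  have hng : ∀ l ≤ r, nrm c G ga a l x V ≤ 2 ^ (r + k + 1) * 2 ^ M * E := by
    intro l hl
    unfold nrm
    rw [h0, abs_zero, mul_zero, zero_add]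
    refine (Finset.sum_le_sum (g := fun _ => 2 ^ (k + 1) * 2 ^ M * E) fun j hj => ?_).trans ?_
    · have hj' := Finset.mem_range.1 hj
      have b1 := hcmp j (by omega)
      have b2 : (2 : ℝ) ^ ga j ≤ 2 ^ g j * 2 ^ M := by
        rw [← pow_add]
        exact pow_le_pow_right₀ (by norm_num) (lM j (by omega))
      calc 2 ^ ga j * |V (some (c j)) - dd (G j) x V| ≤
          (2 ^ g j * 2 ^ M) * (2 ^ (k + 1) / 2 ^ g j * E) :=
            mul_le_mul b2 b1 (abs_nonneg _) (by positivity)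
        _ = 2 ^ (k + 1) * 2 ^ M * E := by field_simp
    · rw [Finset.sum_const, Finset.card_range, nsmul_eq_mul]
      have b3 : (l : ℝ) ≤ 2 ^ r := le_trans (by exact_mod_cast hl) hr2
      have b4 : (2 : ℝ) ^ (r + k + 1) * 2 ^ M * E = 2 ^ r * (2 ^ (k + 1) * 2 ^ M * E) := by
        rw [add_assoc, pow_add]
        ring
      rw [b4]
      exact mul_le_mul_of_nonneg_right b3 (by positivity)
  -- the norm of the thin chain
  have hnt : nrm c T gT α r x V ≤ 2 ^ (2 * r + 2 * k + 2) * 2 ^ M' * E := by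
    unfold nrm
    rw [h0, abs_zero, mul_zero, zero_add]
    refine (Finset.sum_le_sum (g := fun _ => 2 ^ (r + 2 * k + 2) * 2 ^ M' * E)
      fun j hj => ?_).trans ?_
    · have hj' := Finset.mem_range.1 hj
      have b1 := hcmp j hj'
      have b2 := hdif j hj'.le V
      have b3 := hng j hj'.le
      have e1 : V (some (c j)) - dd (T j) x V = (V (some (c j)) - dd (G j) x V) -
          dd (Hn j - G j) x V := by
        rw [dd_sub, hT j hj']
        ring
      rw [e1]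
      have b4 : (2 : ℝ) ^ gT j ≤ 2 ^ g j * 2 ^ M' := by
        rw [← pow_add]
        exact pow_le_pow_right₀ (by norm_num) (lT j hj')
      have b5 : (2 : ℝ) ^ gT j * 2 ^ M ≤ 2 ^ ga j * 2 ^ M' := by
        rw [← pow_add, ← pow_add]
        exact pow_le_pow_right₀ (by norm_num) (lT' j hj')
      have b6 : (2 : ℝ) ^ gT j * |V (some (c j)) - dd (G j) x V| ≤ 2 ^ (k + 1) * 2 ^ M' * E := by
        calc _ ≤ (2 ^ g j * 2 ^ M') * (2 ^ (k + 1) / 2 ^ g j * E) :=
              mul_le_mul b4 b1 (abs_nonneg _) (by positivity)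
          _ = 2 ^ (k + 1) * 2 ^ M' * E := by field_simp
      have b7 : (2 : ℝ) ^ gT j * |dd (Hn j - G j) x V| ≤ 2 ^ (r + 2 * k + 1) * 2 ^ M' * E := by
        have d1 : |dd (Hn j - G j) x V| ≤ 2 ^ k / 2 ^ ga j * (2 ^ (r + k + 1) * 2 ^ M * E) := by
          refine b2.trans (mul_le_mul (div_le_div_of_nonneg_right hU (by positivity)) b3
            (nrm_nonneg _ _ _ _ _ _ _) (by positivity))
        calc _ ≤ 2 ^ gT j * (2 ^ k / 2 ^ ga j * (2 ^ (r + k + 1) * 2 ^ M * E)) :=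
              mul_le_mul_of_nonneg_left d1 (by positivity)
          _ = (2 ^ gT j * 2 ^ M) * (2 ^ k * 2 ^ (r + k + 1) / 2 ^ ga j * E) := by ring
          _ ≤ (2 ^ ga j * 2 ^ M') * (2 ^ k * 2 ^ (r + k + 1) / 2 ^ ga j * E) :=
              mul_le_mul_of_nonneg_right b5 (by positivity)
          _ = 2 ^ (r + 2 * k + 1) * 2 ^ M' * E := by
              have : r + 2 * k + 1 = k + (r + k + 1) := by omega
              rw [this, pow_add 2 k]
              field_simp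
      refine (mul_le_mul_of_nonneg_left (abs_sub _ _) (by positivity)).trans ?_
      rw [mul_add]
      have b8 : (2 : ℝ) ^ (k + 1) * 2 ^ M' * E ≤ 2 ^ (r + 2 * k + 1) * 2 ^ M' * E :=
        mul_le_mul_of_nonneg_right (mul_le_mul_of_nonneg_right
          (pow_le_pow_right₀ (by norm_num) (by omega)) (by positivity)) hE0
      have b9 : (2 : ℝ) ^ (r + 2 * k + 2) * 2 ^ M' * E = 2 ^ (r + 2 * k + 1) * 2 ^ M' * E +
          2 ^ (r + 2 * k + 1) * 2 ^ M' * E := by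
        have : r + 2 * k + 2 = (r + 2 * k + 1) + 1 := by omega
        rw [this, pow_succ]
        ring
      rw [b9]
      linarith
    · rw [Finset.sum_const, Finset.card_range, nsmul_eq_mul]
      have b4 : (2 : ℝ) ^ (2 * r + 2 * k + 2) * 2 ^ M' * E =
          2 ^ r * (2 ^ (r + 2 * k + 2) * 2 ^ M' * E) := by
        have : 2 * r + 2 * k + 2 = r + (r + 2 * k + 2) := by omega
        rw [this, pow_add]
        ring
      rw [b4]
      exact mul_le_mul_of_nonneg_right hr2 (by positivity)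
  -- the two parts
  have k1 : |dd (R - Hn r) x V| ≤ 2 ^ (3 * k + 2 * r + 2) / 2 ^ (g r + sg) * E := by
    refine (hwin V).trans ((mul_le_mul (div_le_div_of_nonneg_right hU (by positivity)) hnt
      (nrm_nonneg _ _ _ _ _ _ _) (by positivity)).trans ?_)
    have b1 : (2 : ℝ) ^ (g r + sg) * 2 ^ M' ≤ 2 ^ p := by
      rw [← pow_add]
      exact pow_le_pow_right₀ (by norm_num) lp
    have b2 : 2 ^ k / 2 ^ p * (2 ^ (2 * r + 2 * k + 2) * 2 ^ M' * E) =
        2 ^ (3 * k + 2 * r + 2) / 2 ^ (g r + sg) * E *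
          ((2 ^ (g r + sg) * 2 ^ M') / 2 ^ p) := by
      have : 3 * k + 2 * r + 2 = k + (2 * r + 2 * k + 2) := by omega
      rw [this, pow_add 2 k]
      field_simp
    rw [b2]
    refine mul_le_of_le_one_right (by positivity) ?_
    rw [div_le_one (by positivity)]
    exact b1
  have k2 : |dd (Hn r - G r) x V| ≤ 2 ^ (3 * k + 2 * r + 2) / 2 ^ (g r + sg) * E := by
    refine (hdif r le_rfl V).trans ((mul_le_mul (div_le_div_of_nonneg_right hU (by positivity))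
      (hng r le_rfl) (nrm_nonneg _ _ _ _ _ _ _) (by positivity)).trans ?_)
    have b1 : (2 : ℝ) ^ (g r + sg) * 2 ^ M ≤ 2 ^ ga r := by
      rw [← pow_add]
      exact pow_le_pow_right₀ (by norm_num) lv
    have b2 : 2 ^ k / 2 ^ ga r * (2 ^ (r + k + 1) * 2 ^ M * E) =
        2 ^ (k + (r + k + 1)) / 2 ^ (g r + sg) * E *
          ((2 ^ (g r + sg) * 2 ^ M) / 2 ^ ga r) := by
      rw [pow_add 2 k]
      field_simp
    rw [b2]
    refine (mul_le_of_le_one_right (by positivity) ?_).trans ?_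
    · rw [div_le_one (by positivity)]
      exact b1
    · exact mul_le_mul_of_nonneg_right (div_le_div_of_nonneg_right
        (pow_le_pow_right₀ (by norm_num) (by omega)) (by positivity)) hE0
  have e1 : dd (R - G r) x V = dd (R - Hn r) x V + dd (Hn r - G r) x V := by
    rw [dd_sub, dd_sub, dd_sub]
    ring
  rw [e1, ← hE]
  refine (abs_add_le _ _).trans ((add_le_add k1 k2).trans (le_of_eq ?_))
  have : 3 * k + 2 * r + 3 = (3 * k + 2 * r + 2) + 1 := by omega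
  rw [this, pow_succ]
  ring

/-- **The structure `Gb`** from the charts of the windows. -/
theorem gb_of {F : Fam m J} {c : ℕ → Fin m} {g ga gT : ℕ → ℕ}
    {w₀ W a v r D e e' sg M M' p k₁ k X K : ℕ} {U : ℝ} {B : F.Ω → Prop}
    {ψ : PtT F → ℕ → Option (Fin m) → ℝ} {ψH : LnT F → ℕ → Option (Fin m) → ℝ}
    {S : PtT F → ℕ → Option (Fin m) → ℝ}
    {G : PtT F → ℕ → MvPolynomial (Option (Fin m)) ℝ}
    {H : LnT F → ℕ → MvPolynomial (Option (Fin m)) ℝ}
    {T : PtT F → ℕ → MvPolynomial (Option (Fin m)) ℝ}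
    {TH : LnT F → ℕ → MvPolynomial (Option (Fin m)) ℝ}
    {Ht : LnT F → MvPolynomial (Option (Fin m)) ℝ}
    (hc : Set.InjOn c (Set.Iio r)) (hw₀ : w₀ ≤ W) (hW : W ≤ a) (ha : a ≤ J)
    (hfr : FrOK F c r W k₁ e' g B ψ ψH)
    (hS1 : ∀ ω, B ω → Nc c g W r (2 ^ X) (ψ (ptr F J ω)) (S (ptr F J ω)))
    (hS2 : ∀ ω, B ω → Nc c ga a r (2 ^ X) (S (ptr F J ω))
      (fun l => grd (G (ptr F J ω) l) (bt F ω)))
    (hch : ChOK F c (r + 1) (fun _ => D) a a e ga B G H) (hpH : ∀ s, DepC c r (Ht s))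
    (hro : ROut1 F c r w₀ a v ga gT p U B G H T TH Ht)
    (hU : U ≤ 2 ^ ((X + 1) * (r + 3)))
    (hrg : ∀ l < r, ∀ s, TH s l = Hno (c l) (fun s => H s l) s)
    (hnat : ∀ l ≤ r, NatH F c a ga B G k l)
    (l0 : ∀ l < r, a + g l ≤ ga l + W + X) (l1 : ∀ l < r, ∀ j < l, ga j + g l ≤ ga l + g j + X)
    (lM : ∀ j < r, ga j ≤ g j + M) (lv : g r + sg + M ≤ ga r) (lT : ∀ j < r, gT j ≤ g j + M')
    (lT' : ∀ j < r, gT j + M ≤ ga j + M') (lp : g r + sg + M' ≤ p)
    (hK1 : k ≤ K) (hK2 : 3 * ((X + 1) * (r + 3)) + 2 * r + 3 ≤ K) :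
    Gb F c g ga W (W - w₀) a K r D sg M ψH Ht G B := by
  have hbt : ∀ ω, ptw F a ω (rt F a ω) = bt F ω := fun ω => ptw_rt F ha ω
  have hf : ∀ ω, B ω → ∀ l < r, ∀ V : Option (Fin m) → ℝ,
      |cv (ψH (slam F W ω) l) V - dd (G (ptr F J ω) l) (bt F ω) V| ≤
        2 ^ ((X + 1) * (r + 3)) / 2 ^ g l * en c g W (ψH (slam F W ω)) l V := by
    intro ω hω l hl V
    have h1 := frm_of (hS1 ω hω) (hS2 ω hω) l0 l1 hl V
    rw [cv_grd, hfr.cls ω hω] at h1
    exact h1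
  have hpw : ∀ {x y z : ℝ} {n n' : ℕ}, 0 ≤ y → 0 < z → n ≤ n' → x ≤ 2 ^ n / z * y →
      x ≤ 2 ^ n' / z * y := by
    intro x y z n n' hy hz hn hx
    exact hx.trans (mul_le_mul_of_nonneg_right (div_le_div_of_nonneg_right
      (pow_le_pow_right₀ (by norm_num) hn) hz.le) hy)
  refine ⟨hc, hW.trans ha, hch.depG, hpH, hfr.depH, fun ω hω l hl => hch.pos ω hω l (by omega),
    fun l hl => (hnat l hl).sub (fun _ h => h) hK1, fun ω hω l hl => ?_, fun ω hω l hl V => ?_,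
    fun ω hω V h0 => ?_, lv, lM⟩
  · refine (hro.vel ω ω hω hω rfl l hl).trans (div_le_div_of_nonneg_right ?_ (by positivity))
    rw [pow_add]
    exact mul_le_mul_of_nonneg_right (hU.trans (pow_le_pow_right₀ (by norm_num) (by omega)))
      (by positivity)
  · exact hpw (en_nonneg _ _ _ _ _ _) (by positivity) (by omega) (hf ω hω l hl V)
  · refine hpw (en_nonneg _ _ _ _ _ _) (by positivity) hK2 ?_
    have e1 : co (W - w₀) (slam F W ω) = slam F w₀ ω := co_slam F hw₀ (hW.trans ha) ω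
    rw [e1]
    refine win_of (c := c) (g := g) (ga := ga) (gT := gT) (W := W) (a := a) (α := a + v)
      (k := (X + 1) * (r + 3)) (M := M) (M' := M') (p := p) (U := U) (ψ := ψH (slam F W ω))
      (x := bt F ω) (G := G (ptr F J ω)) (T := TH (slam F a ω))
      (Hn := fun l => Hno (c l) (fun s => H s l) (slam F a ω)) (R := Ht (slam F w₀ ω))
      hU (fun l hl => hrg l hl _) (hf ω hω) (fun V => ?_) (fun l hl V => ?_) lM lv lT lT' lp h0
    · have h2 := hro.win ω hω (rt F a ω) (rt_mem F a ω) V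
      rwa [hbt] at h2
    · exact (hro.dif ω hω l hl).1 V

/-- **The row of the target in the frame.** -/
theorem frmr_of {F : Fam m J} {c : ℕ → Fin m} {g ga : ℕ → ℕ} {W a r e' k₁ X K : ℕ}
    {B : F.Ω → Prop} {ψ : PtT F → ℕ → Option (Fin m) → ℝ}
    {ψH : LnT F → ℕ → Option (Fin m) → ℝ} {S : PtT F → ℕ → Option (Fin m) → ℝ}
    {G : PtT F → ℕ → MvPolynomial (Option (Fin m)) ℝ}
    (hfr : FrOK F c (r + 1) W k₁ e' g B ψ ψH)
    (hS1 : ∀ ω, B ω → Nc c g W (r + 1) (2 ^ X) (ψ (ptr F J ω)) (S (ptr F J ω)))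
    (hS2 : ∀ ω, B ω → Nc c ga a (r + 1) (2 ^ X) (S (ptr F J ω))
      (fun l => grd (G (ptr F J ω) l) (bt F ω)))
    (l0 : ∀ l ≤ r, a + g l ≤ ga l + W + X) (l1 : ∀ l ≤ r, ∀ j < l, ga j + g l ≤ ga l + g j + X)
    (hK : (X + 1) * (r + 4) ≤ K) :
    ∀ ω, B ω → ∀ l ≤ r, ∀ V : Option (Fin m) → ℝ,
      |cv (ψH (slam F W ω) l) V - dd (G (ptr F J ω) l) (bt F ω) V| ≤
        2 ^ K / 2 ^ g l * en c g W (ψH (slam F W ω)) l V := by
  intro ω hω l hl V
  have h1 := frm_of (hS1 ω hω) (hS2 ω hω) (fun l hl => l0 l (by omega))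
    (fun l hl => l1 l (by omega)) (show l < r + 1 by omega) V
  rw [cv_grd, hfr.cls ω hω] at h1
  refine h1.trans ?_
  refine mul_le_mul_of_nonneg_right (div_le_div_of_nonneg_right
    (pow_le_pow_right₀ (by norm_num) ?_) (by positivity)) (en_nonneg _ _ _ _ _ _)
  exact hK

end Pool.D2F2
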