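import Pool.Agent.H28.D2.Seg
import Pool.Agent.H60.D2.Frz

/-!
# Two points of one ball, in a frame

Two points of one natural box, with the same time; a frame near the gradients of the charts at the
first point. `Pr.pos`: the difference of the points, `Pr.vel`: the difference of two directions,
`Pr.hei`, `Pr.hvl`: the last coordinate, `Pr.grd`: the gradient in the frame directions.
-/

set_option autoImplicit false

namespace Pool.D2S

open Finset Real MvPolynomial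
open Pool.Agent.H49.Ent Pool.Agent.H32.Dense Pool.STK Pool.KA Pool.KSAT Pool.K2S Pool.PB Pool.S6C
open Pool.GEN Pool.CHT Pool.CHX Pool.D2R
open Pool.D2F (cv CvC eta cv_sub)
open Pool.D2Z (en en_succ en_zero en_nonneg en_mono)

variable {m : ℕ}

/-- **Two points of one ball, in a frame.** -/
structure Pr (c : ℕ → Fin m) (g ga : ℕ → ℕ) (W a k r : ℕ)
    (G : ℕ → MvPolynomial (Option (Fin m)) ℝ) (t : ℝ) (ψ : ℕ → Option (Fin m) → ℝ)
    (x x' : Option (Fin m) → ℝ) : Prop where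
  sg : Sg c ga a k r G t x x'
  t0 : x' none = x none
  px : ∀ l ≤ r, |x (some (c l)) - eval x (G l)| ≤ 1 / 2 ^ ga l
  px' : ∀ l ≤ r, |x' (some (c l)) - eval x' (G l)| ≤ 1 / 2 ^ ga l
  frm : ∀ l < r, ∀ V : Option (Fin m) → ℝ,
    |cv (ψ l) V - dd (G l) x V| ≤ 2 ^ k / 2 ^ g l * en c g W ψ l V

section

variable {c : ℕ → Fin m} {g ga : ℕ → ℕ} {W a k r : ℕ}
  {G : ℕ → MvPolynomial (Option (Fin m)) ℝ} {t : ℝ} {ψ : ℕ → Option (Fin m) → ℝ}
  {x x' : Option (Fin m) → ℝ} {Y : ℝ}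

/-- The constants. -/
theorem yk (hY : (2 * r + 2) * 2 ^ k ≤ Y) : 2 ≤ Y ∧ (2 : ℝ) ^ k ≤ Y ∧ (r : ℝ) ≤ Y ∧
    (r : ℝ) * 2 ≤ Y ∧ 1 + (2 : ℝ) ^ k ≤ Y ∧ 1 + 2 ^ k * ((r : ℝ) * 2) ≤ Y ∧
    1 + (r : ℝ) * 2 ^ k ≤ Y := by
  have h1 : (1 : ℝ) ≤ 2 ^ k := one_le_pow₀ (by norm_num)
  have hr : (0 : ℝ) ≤ r := Nat.cast_nonneg r
  refine ⟨?_, ?_, ?_, ?_, ?_, ?_, ?_⟩ <;> nlinarith [mul_nonneg hr (by linarith : (0 : ℝ) ≤ 2 ^ k)]

/-- The distance is natural. -/
theorem Pr.dst (H : Pr c g ga W a k r G t ψ x x') : D2S.dst c ga a G r x x' ≤ r * 2 := by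
  have h := dst_le (c := c) (g := ga) (a := a) (G := G) (r := r) (x := x) (x' := x') (U := 1) H.t0
    (fun l hl => H.px l hl.le) (fun l hl => H.px' l hl.le)
  rwa [mul_one] at h

/-- Transport. -/
theorem Pr.tr (H : Pr c g ga W a k r G t ψ x x') (hY : (2 * r + 2) * 2 ^ k ≤ Y) {l : ℕ}
    (hl : l ≤ r) (V : Option (Fin m) → ℝ) :
    |dd (G l) x' V - dd (G l) x V| ≤ Y ^ (r + 2) / 2 ^ ga l * nrm c G ga a l x V ∧
    |dd (G l) x' V - dd (G l) x V| ≤ Y ^ (r + 2) / 2 ^ ga l * nrm c G ga a l x' V := by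
  obtain ⟨y2, yk1, yr, yr2, yk2, yk3, -⟩ := yk hY
  have hd := H.dst
  have hd0 := dst_nonneg c ga a G r x x'
  have hk0 : (0 : ℝ) < 2 ^ k := by positivity
  have hg : (0 : ℝ) < 2 ^ ga l := by positivity
  have h1 : 1 + 2 ^ k * D2S.dst c ga a G r x x' ≤ Y := by
    have := mul_le_mul_of_nonneg_left hd hk0.le
    linarith
  have h10 : 0 ≤ 1 + 2 ^ k * D2S.dst c ga a G r x x' := by positivity
  have h2 : (1 + 2 ^ k * D2S.dst c ga a G r x x') ^ l ≤ Y ^ r :=
    (pow_le_pow_left₀ h10 h1 l).trans (pow_le_pow_right₀ (by linarith) hl)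
  have key : ∀ n : ℝ, 0 ≤ n → 2 ^ k / 2 ^ ga l * D2S.dst c ga a G r x x' *
      ((1 + 2 ^ k * D2S.dst c ga a G r x x') ^ l * n) ≤ Y ^ (r + 2) / 2 ^ ga l * n := by
    intro n hn
    have e1 : Y ^ (r + 2) / 2 ^ ga l * n = Y / 2 ^ ga l * Y * (Y ^ r * n) := by
      rw [pow_add]
      ring
    rw [e1]
    have h3 : (2 : ℝ) ^ k / 2 ^ ga l ≤ Y / 2 ^ ga l := div_le_div_of_nonneg_right yk1 hg.le
    refine mul_le_mul (mul_le_mul h3 (hd.trans yr2) hd0 (by positivity))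
      (mul_le_mul_of_nonneg_right h2 hn) (by positivity) (by positivity)
  refine ⟨(H.sg.main.1 l hl V).trans (key _ (nrm_nonneg _ _ _ _ _ _ _)), ?_⟩
  have h4 := H.sg.symm.main.1 l hl V
  rw [← dst_comm, abs_sub_comm] at h4
  exact h4.trans (key _ (nrm_nonneg _ _ _ _ _ _ _))

/-- **The chart between the two points.** -/
theorem Pr.lin (H : Pr c g ga W a k r G t ψ x x') (hY : (2 * r + 2) * 2 ^ k ≤ Y) {l : ℕ}
    (hl : l ≤ r) : |(x' - x) (some (c l)) - dd (G l) x (x' - x)| ≤ Y ^ (r + 4) / 2 ^ ga l := by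
  obtain ⟨y2, yk1, yr, yr2, yk2, yk3, -⟩ := yk hY
  have hd := H.dst
  have hd0 := dst_nonneg c ga a G r x x'
  have hk0 : (0 : ℝ) < 2 ^ k := by positivity
  have hg : (0 : ℝ) < 2 ^ ga l := by positivity
  have h1 : 1 + 2 ^ k * D2S.dst c ga a G r x x' ≤ Y := by
    have := mul_le_mul_of_nonneg_left hd hk0.le
    linarith
  have h10 : 0 ≤ 1 + 2 ^ k * D2S.dst c ga a G r x x' := by positivity
  have h2 : (1 + 2 ^ k * D2S.dst c ga a G r x x') ^ l ≤ Y ^ r :=
    (pow_le_pow_left₀ h10 h1 l).trans (pow_le_pow_right₀ (by linarith) hl)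
  have h3 := H.sg.main.2.2 l hl
  have h4 : 2 ^ k / 2 ^ ga l * D2S.dst c ga a G r x x' *
      ((1 + 2 ^ k * D2S.dst c ga a G r x x') ^ l * D2S.dst c ga a G r x x') ≤
      Y ^ (r + 3) / 2 ^ ga l := by
    have e1 : Y ^ (r + 3) / 2 ^ ga l = Y / 2 ^ ga l * Y * (Y ^ r * Y) := by
      rw [pow_add]
      ring
    rw [e1]
    have h5 : (2 : ℝ) ^ k / 2 ^ ga l ≤ Y / 2 ^ ga l := div_le_div_of_nonneg_right yk1 hg.le
    have h6 := hd.trans yr2
    refine mul_le_mul (mul_le_mul h5 h6 hd0 (by positivity)) (mul_le_mul h2 h6 hd0 (by positivity))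
      (by positivity) (by positivity)
  have h5 := H.px l hl
  have h6 := H.px' l hl
  have e2 : (x' - x) (some (c l)) - dd (G l) x (x' - x) =
      (eval x' (G l) - eval x (G l) - dd (G l) x (x' - x)) + ((x' (some (c l)) - eval x' (G l)) -
        (x (some (c l)) - eval x (G l))) := by
    rw [Pi.sub_apply]
    ring
  rw [e2]
  refine (abs_add_le _ _).trans ?_
  have h7 := (abs_sub (x' (some (c l)) - eval x' (G l)) (x (some (c l)) - eval x (G l))).trans
    (add_le_add h6 h5)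
  have h8 : Y ^ (r + 3) / 2 ^ ga l + (1 / 2 ^ ga l + 1 / 2 ^ ga l) ≤ Y ^ (r + 4) / 2 ^ ga l := by
    rw [← add_div, ← add_div]
    refine div_le_div_of_nonneg_right ?_ hg.le
    have h9 : (1 : ℝ) ≤ Y ^ (r + 2) := one_le_pow₀ (by linarith)
    have e3 : Y ^ (r + 4) = Y * Y ^ (r + 3) := by ring
    have e4 : Y ^ (r + 3) = Y * Y ^ (r + 2) := by ring
    have h10 : 2 ≤ Y ^ (r + 3) := by
      rw [e4]
      nlinarith
    rw [e3]
    nlinarith
  linarith

/-- The recursion. -/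
theorem en_rec (hY : (2 * r + 2) * 2 ^ k ≤ Y)
    (hfr : ∀ l < r, ∀ V : Option (Fin m) → ℝ,
      |cv (ψ l) V - dd (G l) x V| ≤ 2 ^ k / 2 ^ g l * en c g W ψ l V)
    {V : Option (Fin m) → ℝ} (h0 : V none = 0) {M : ℝ} (hM : 0 ≤ M)
    (h : ∀ l < r, 2 ^ g l * |V (some (c l)) - cv (ψ l) V| ≤ M ∨
      2 ^ g l * |V (some (c l)) - dd (G l) x V| ≤ M) {l : ℕ} (hl : l ≤ r) :
    en c g W ψ l V ≤ Y ^ (r + 1) * M := by
  obtain ⟨y2, yk1, yr, yr2, yk2, yk3, -⟩ := yk hY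
  have hk0 : (0 : ℝ) < 2 ^ k := by positivity
  have key : ∀ l ≤ r, en c g W ψ l V ≤ l * (Y ^ l * M) := by
    intro l
    induction l with
    | zero =>
      intro _
      rw [en_zero, h0]
      simp
    | succ l ih =>
      intro hl
      have i1 := ih (by omega)
      have h1 : 2 ^ g l * |V (some (c l)) - cv (ψ l) V| ≤ M + 2 ^ k * en c g W ψ l V := by
        rcases h l (by omega) with h2 | h2
        · have := mul_nonneg hk0.le (en_nonneg c g W ψ l V)
          linarith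
        · have h3 := hfr l (by omega) V
          have hg : (0 : ℝ) < 2 ^ g l := by positivity
          have e1 : V (some (c l)) - cv (ψ l) V = (V (some (c l)) - dd (G l) x V) -
              (cv (ψ l) V - dd (G l) x V) := by ring
          rw [e1]
          have h4 := mul_le_mul_of_nonneg_left ((abs_sub (V (some (c l)) - dd (G l) x V)
            (cv (ψ l) V - dd (G l) x V)).trans (add_le_add le_rfl h3)) hg.le
          have e2 : 2 ^ g l * (|V (some (c l)) - dd (G l) x V| +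
              2 ^ k / 2 ^ g l * en c g W ψ l V) =
              2 ^ g l * |V (some (c l)) - dd (G l) x V| + 2 ^ k * en c g W ψ l V := by
            field_simp
          rw [e2] at h4
          linarith
      rw [en_succ]
      have hy : (1 : ℝ) ≤ Y ^ (l + 1) := one_le_pow₀ (by linarith)
      have h5 : M ≤ Y ^ (l + 1) * M := le_mul_of_one_le_left hM hy
      have h6 : (1 + 2 ^ k) * en c g W ψ l V ≤ Y * (l * (Y ^ l * M)) :=
        mul_le_mul yk2 i1 (en_nonneg _ _ _ _ _ _) (by linarith)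
      have e3 : Y * (l * (Y ^ l * M)) = l * (Y ^ (l + 1) * M) := by ring
      push_cast
      linarith
  have hy : (0 : ℝ) ≤ Y ^ r * M := by
    have : 0 ≤ Y := by linarith
    positivity
  have hlr : (l : ℝ) ≤ Y := (by exact_mod_cast hl : (l : ℝ) ≤ r).trans yr
  have h7 : Y ^ l * M ≤ Y ^ r * M :=
    mul_le_mul_of_nonneg_right (pow_le_pow_right₀ (by linarith) hl) hM
  calc en c g W ψ l V ≤ l * (Y ^ l * M) := key l hl
    _ ≤ Y * (Y ^ r * M) := mul_le_mul hlr h7 (by positivity) (by linarith)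
    _ = Y ^ (r + 1) * M := by ring

/-- **The positions.** -/
theorem Pr.pos (H : Pr c g ga W a k r G t ψ x x') (hY : (2 * r + 2) * 2 ^ k ≤ Y) {q : ℕ}
    (hq : ∀ l < r, g l + q ≤ ga l) {l : ℕ} (hl : l ≤ r) :
    en c g W ψ l (x' - x) ≤ Y ^ (2 * r + 5) / 2 ^ q := by
  obtain ⟨y2, -, -, -, -, -, -⟩ := yk hY
  have h0 : (x' - x) none = 0 := by
    rw [Pi.sub_apply, H.t0, sub_self]
  have hY0 : 0 ≤ Y := by linarith
  have h1 := en_rec (M := Y ^ (r + 4) / 2 ^ q) hY H.frm h0 (by positivity) (fun l hl => Or.inr ?_)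
    hl
  · refine h1.trans (le_of_eq ?_)
    rw [← mul_div_assoc, ← pow_add]
    congr 2
    ring
  · have h2 := H.lin hY hl.le
    have hg : (0 : ℝ) < 2 ^ g l := by positivity
    refine (mul_le_mul_of_nonneg_left h2 hg.le).trans ?_
    rw [mul_div_assoc', div_le_div_iff₀ (by positivity) (by positivity)]
    have h3 : (2 : ℝ) ^ g l * 2 ^ q ≤ 2 ^ ga l := by
      rw [← pow_add]
      exact pow_le_pow_right₀ (by norm_num) (hq l hl)
    have h4 : (0 : ℝ) ≤ Y ^ (r + 4) := by positivity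
    nlinarith

/-- The norm of a direction. -/
theorem nrm_dir {V : Option (Fin m) → ℝ} (hV : V none = 1)
    (h : ∀ l ≤ r, |V (some (c l)) - dd (G l) x V| ≤ 2 ^ (k + a) / 2 ^ ga l) {l : ℕ} (hl : l ≤ r) :
    nrm c G ga a l x V ≤ 2 ^ a * (1 + r * 2 ^ k) := by
  unfold nrm
  rw [hV, abs_one, mul_one, mul_add, mul_one]
  refine add_le_add le_rfl ?_
  refine (Finset.sum_le_sum (g := fun _ => (2 : ℝ) ^ a * 2 ^ k) fun j hj => ?_).trans ?_
  · have hj' := Finset.mem_range.1 hj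
    have h1 := h j (by omega)
    have hg : (0 : ℝ) < 2 ^ ga j := by positivity
    refine (mul_le_mul_of_nonneg_left h1 hg.le).trans (le_of_eq ?_)
    rw [pow_add]
    field_simp
  · rw [Finset.sum_const, Finset.card_range, nsmul_eq_mul]
    have h2 : (l : ℝ) ≤ r := by exact_mod_cast hl
    have h3 : (0 : ℝ) ≤ 2 ^ a * 2 ^ k := by positivity
    nlinarith

/-- **The difference of two directions.** -/
theorem Pr.dir (H : Pr c g ga W a k r G t ψ x x') (hY : (2 * r + 2) * 2 ^ k ≤ Y)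
    {V V' : Option (Fin m) → ℝ} (h0' : V' none = 1)
    (h : ∀ l ≤ r, |V (some (c l)) - dd (G l) x V| ≤ 2 ^ (k + a) / 2 ^ ga l)
    (h' : ∀ l ≤ r, |V' (some (c l)) - dd (G l) x' V'| ≤ 2 ^ (k + a) / 2 ^ ga l) {l : ℕ}
    (hl : l ≤ r) : |(V' - V) (some (c l)) - dd (G l) x (V' - V)| ≤
      Y ^ (r + 4) * (2 ^ a / 2 ^ ga l) := by
  obtain ⟨y2, yk1, yr, yr2, yk2, yk3, yk4⟩ := yk hY
  have hY0 : 0 ≤ Y := by linarith
  have hg : (0 : ℝ) < 2 ^ ga l := by positivity
  have h1 := (H.tr hY hl V').2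
  have h2 := nrm_dir h0' h' hl
  have h3 : |dd (G l) x' V' - dd (G l) x V'| ≤ Y ^ (r + 3) * (2 ^ a / 2 ^ ga l) := by
    refine h1.trans ((mul_le_mul_of_nonneg_left h2 (by positivity)).trans ?_)
    have e1 : Y ^ (r + 3) * (2 ^ a / 2 ^ ga l) = Y ^ (r + 2) / 2 ^ ga l * (2 ^ a * Y) := by
      rw [pow_succ Y (r + 2)]
      ring
    rw [e1]
    exact mul_le_mul_of_nonneg_left (mul_le_mul_of_nonneg_left yk4 (by positivity)) (by positivity)
  have h4 := h l hl
  have h5 := h' l hl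
  have e2 : (V' - V) (some (c l)) - dd (G l) x (V' - V) =
      (V' (some (c l)) - dd (G l) x' V') - (V (some (c l)) - dd (G l) x V) +
      (dd (G l) x' V' - dd (G l) x V') := by
    have : dd (G l) x (V' - V) = dd (G l) x V' - dd (G l) x V := by
      unfold dd
      rw [← Finset.sum_sub_distrib]
      exact Finset.sum_congr rfl fun o _ => by rw [Pi.sub_apply]; ring
    rw [this, Pi.sub_apply]
    ring
  rw [e2]
  refine (abs_add_le _ _).trans ?_
  have h6 := (abs_sub (V' (some (c l)) - dd (G l) x' V') (V (some (c l)) - dd (G l) x V)).trans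
    (add_le_add h5 h4)
  have e3 : (2 : ℝ) ^ (k + a) / 2 ^ ga l = 2 ^ k * (2 ^ a / 2 ^ ga l) := by
    rw [pow_add]
    ring
  rw [e3] at h6
  obtain ⟨z, hz⟩ : ∃ z : ℝ, z = 2 ^ a / 2 ^ ga l := ⟨_, rfl⟩
  rw [← hz] at h3 h6 ⊢
  have hz0 : 0 ≤ z := by
    rw [hz]
    positivity
  have h7 : 2 * 2 ^ k + Y ^ (r + 3) ≤ Y ^ (r + 4) := by
    have e4 : Y ^ (r + 4) = Y * Y ^ (r + 3) := by ring
    have e5 : Y ^ (r + 3) = Y * Y * Y ^ (r + 1) := by ring
    have h8 : (1 : ℝ) ≤ Y ^ (r + 1) := one_le_pow₀ (by linarith)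
    have h9 : Y * Y ≤ Y ^ (r + 3) := by
      rw [e5]
      exact le_mul_of_one_le_right (by positivity) h8
    have h10 : 2 * 2 ^ k ≤ Y * Y := mul_le_mul y2 yk1 (by positivity) hY0
    rw [e4]
    nlinarith
  have h11 := mul_le_mul_of_nonneg_right h7 hz0
  nlinarith

/-- **The velocities.** -/
theorem Pr.vel (H : Pr c g ga W a k r G t ψ x x') (hY : (2 * r + 2) * 2 ^ k ≤ Y)
    {V V' : Option (Fin m) → ℝ} (h0 : V none = 1) (h0' : V' none = 1)
    (h : ∀ l ≤ r, |V (some (c l)) - dd (G l) x V| ≤ 2 ^ (k + a) / 2 ^ ga l)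
    (h' : ∀ l ≤ r, |V' (some (c l)) - dd (G l) x' V'| ≤ 2 ^ (k + a) / 2 ^ ga l) {q : ℕ} {K : ℝ}
    (hK : 0 ≤ K) (hq : ∀ l < r, 2 ^ g l * |(V' - V) (some (c l)) - cv (ψ l) (V' - V)| ≤
        K * (2 ^ W / 2 ^ q) ∨ g l + q + a ≤ ga l + W) {l : ℕ} (hl : l ≤ r) :
    en c g W ψ l (V' - V) ≤ Y ^ (2 * r + 5) * ((K + 1) * (2 ^ W / 2 ^ q)) := by
  obtain ⟨y2, -, -, -, -, -, -⟩ := yk hY
  have hY0 : 0 ≤ Y := by linarith
  have e0 : (V' - V) none = 0 := by
    rw [Pi.sub_apply, h0, h0', sub_self]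
  have h1 := en_rec (M := Y ^ (r + 4) * ((K + 1) * (2 ^ W / 2 ^ q))) hY H.frm e0 (by positivity)
    (fun l hl => ?_) hl
  · refine h1.trans (le_of_eq ?_)
    rw [← mul_assoc, ← pow_add]
    congr 2
    ring
  · have hz : (0 : ℝ) ≤ 2 ^ W / 2 ^ q := by positivity
    have hy : (1 : ℝ) ≤ Y ^ (r + 4) := one_le_pow₀ (by linarith)
    rcases hq l hl with h2 | h2
    · left
      refine h2.trans ?_
      have h3 : K * (2 ^ W / 2 ^ q) ≤ (K + 1) * (2 ^ W / 2 ^ q) :=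
        mul_le_mul_of_nonneg_right (by linarith) hz
      exact h3.trans (le_mul_of_one_le_left (by positivity) hy)
    · right
      have h3 := H.dir hY h0' h h' hl.le
      have hg : (0 : ℝ) < 2 ^ g l := by positivity
      refine (mul_le_mul_of_nonneg_left h3 hg.le).trans ?_
      have h4 : (2 : ℝ) ^ g l * (2 ^ a / 2 ^ ga l) ≤ 2 ^ W / 2 ^ q := by
        rw [mul_div_assoc', div_le_div_iff₀ (by positivity) (by positivity), ← pow_add,
          ← pow_add, ← pow_add]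
        exact pow_le_pow_right₀ (by norm_num) (by omega)
      have h5 : (2 : ℝ) ^ W / 2 ^ q ≤ (K + 1) * (2 ^ W / 2 ^ q) :=
        le_mul_of_one_le_left hz (by linarith)
      calc 2 ^ g l * (Y ^ (r + 4) * (2 ^ a / 2 ^ ga l)) =
          Y ^ (r + 4) * (2 ^ g l * (2 ^ a / 2 ^ ga l)) := by ring
        _ ≤ Y ^ (r + 4) * ((K + 1) * (2 ^ W / 2 ^ q)) :=
          mul_le_mul_of_nonneg_left (h4.trans h5) (by positivity)

/-- **The heights.** -/
theorem Pr.hei (H : Pr c g ga W a k r G t ψ x x') (hY : (2 * r + 2) * 2 ^ k ≤ Y)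
    {R : MvPolynomial (Option (Fin m)) ℝ} {s q : ℕ} (hga : g r + s + q ≤ ga r)
    (hw : ∀ V : Option (Fin m) → ℝ, V none = 0 →
      |dd (R - G r) x V| ≤ 2 ^ k / 2 ^ (g r + s) * en c g W ψ r V) {K : ℝ}
    (hK : en c g W ψ r (x' - x) ≤ K / 2 ^ q) :
    |(x' - x) (some (c r)) - dd R x (x' - x)| ≤ (Y ^ (r + 4) + Y * K) / 2 ^ (g r + s + q) := by
  obtain ⟨y2, yk1, yr, yr2, yk2, yk3, yk4⟩ := yk hY
  have hY0 : 0 ≤ Y := by linarith
  have h0 : (x' - x) none = 0 := by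
    rw [Pi.sub_apply, H.t0, sub_self]
  have h1 := H.lin hY (le_refl r)
  have h2 := hw (x' - x) h0
  have e1 : (x' - x) (some (c r)) - dd R x (x' - x) =
      ((x' - x) (some (c r)) - dd (G r) x (x' - x)) - dd (R - G r) x (x' - x) := by
    rw [dd_sub]
    ring
  rw [e1]
  refine (abs_sub _ _).trans ?_
  have h3 : Y ^ (r + 4) / 2 ^ ga r ≤ Y ^ (r + 4) / 2 ^ (g r + s + q) :=
    div_le_div_of_nonneg_left (by positivity) (by positivity)
      (pow_le_pow_right₀ (by norm_num) hga)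
  have h4 : 2 ^ k / 2 ^ (g r + s) * en c g W ψ r (x' - x) ≤ Y * K / 2 ^ (g r + s + q) := by
    have e2 : Y * K / 2 ^ (g r + s + q) = Y / 2 ^ (g r + s) * (K / 2 ^ q) := by
      rw [pow_add]
      field_simp
    rw [e2]
    refine mul_le_mul (div_le_div_of_nonneg_right yk1 (by positivity)) hK (en_nonneg _ _ _ _ _ _)
      (by positivity)
  rw [add_div]
  linarith

/-- **The velocities of the heights.** -/
theorem Pr.hvl (H : Pr c g ga W a k r G t ψ x x') (hY : (2 * r + 2) * 2 ^ k ≤ Y)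
    {V V' : Option (Fin m) → ℝ} (h0 : V none = 1) (h0' : V' none = 1)
    (h : ∀ l ≤ r, |V (some (c l)) - dd (G l) x V| ≤ 2 ^ (k + a) / 2 ^ ga l)
    (h' : ∀ l ≤ r, |V' (some (c l)) - dd (G l) x' V'| ≤ 2 ^ (k + a) / 2 ^ ga l)
    {R : MvPolynomial (Option (Fin m)) ℝ} {s q : ℕ} (hga : g r + q + a ≤ ga r + W)
    (hw : ∀ V : Option (Fin m) → ℝ, V none = 0 →
      |dd (R - G r) x V| ≤ 2 ^ k / 2 ^ (g r + s) * en c g W ψ r V) {K : ℝ}
    (hK : en c g W ψ r (V' - V) ≤ K * (2 ^ W / 2 ^ q)) :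
    |(V' - V) (some (c r)) - dd R x (V' - V)| ≤
      (Y ^ (r + 4) + Y * K) * (2 ^ W / 2 ^ (g r + q)) := by
  obtain ⟨y2, yk1, yr, yr2, yk2, yk3, yk4⟩ := yk hY
  have hY0 : 0 ≤ Y := by linarith
  have e0 : (V' - V) none = 0 := by
    rw [Pi.sub_apply, h0, h0', sub_self]
  have h1 := H.dir hY h0' h h' (le_refl r)
  have h2 := hw (V' - V) e0
  have e1 : (V' - V) (some (c r)) - dd R x (V' - V) =
      ((V' - V) (some (c r)) - dd (G r) x (V' - V)) - dd (R - G r) x (V' - V) := by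
    rw [dd_sub]
    ring
  rw [e1]
  refine (abs_sub _ _).trans ?_
  have h3 : Y ^ (r + 4) * (2 ^ a / 2 ^ ga r) ≤ Y ^ (r + 4) * (2 ^ W / 2 ^ (g r + q)) := by
    refine mul_le_mul_of_nonneg_left ?_ (by positivity)
    rw [div_le_div_iff₀ (by positivity) (by positivity), ← pow_add, ← pow_add]
    exact pow_le_pow_right₀ (by norm_num) (by omega)
  have h4 : 2 ^ k / 2 ^ (g r + s) * en c g W ψ r (V' - V) ≤
      Y * K * (2 ^ W / 2 ^ (g r + q)) := by
    have e2 : Y * K * (2 ^ W / 2 ^ (g r + q)) = Y / 2 ^ g r * (K * (2 ^ W / 2 ^ q)) := by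
      rw [pow_add]
      field_simp
    rw [e2]
    have h5 : (2 : ℝ) ^ k / 2 ^ (g r + s) ≤ Y / 2 ^ g r := by
      refine (div_le_div_of_nonneg_left (by positivity) (by positivity)
        (pow_le_pow_right₀ (by norm_num) (Nat.le_add_right (g r) s))).trans ?_
      exact div_le_div_of_nonneg_right yk1 (by positivity)
    exact mul_le_mul h5 hK (en_nonneg _ _ _ _ _ _) (by positivity)
  rw [add_mul]
  linarith

/-- **The gradients** in a frame direction. -/
theorem Pr.grd (H : Pr c g ga W a k r G t ψ x x') (hY : (2 * r + 2) * 2 ^ k ≤ Y)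
    {R R' : MvPolynomial (Option (Fin m)) ℝ} {s M : ℕ} (hga : g r + s + M ≤ ga r)
    (hM : ∀ j < r, ga j ≤ g j + M)
    (hw : ∀ V : Option (Fin m) → ℝ, V none = 0 →
      |dd (R - G r) x V| ≤ 2 ^ k / 2 ^ (g r + s) * en c g W ψ r V)
    (hw' : ∀ V : Option (Fin m) → ℝ, V none = 0 →
      |dd (R' - G r) x' V| ≤ 2 ^ k / 2 ^ (g r + s) * en c g W ψ r V)
    {V : Option (Fin m) → ℝ} (h0 : V none = 0) :
    |dd R' x' V - dd R x V| ≤ Y ^ (r + 4) / 2 ^ (g r + s) * en c g W ψ r V := by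
  obtain ⟨y2, yk1, yr, yr2, yk2, yk3, yk4⟩ := yk hY
  have hY0 : 0 ≤ Y := by linarith
  have hk0 : (0 : ℝ) < 2 ^ k := by positivity
  obtain ⟨E, hE⟩ : ∃ E : ℝ, E = en c g W ψ r V := ⟨_, rfl⟩
  have hE0 : 0 ≤ E := by
    rw [hE]
    exact en_nonneg _ _ _ _ _ _
  have h1 := hw V h0
  have h2 := hw' V h0
  rw [← hE] at h1 h2 ⊢
  -- the natural norm in the ball
  have h3 : nrm c G ga a r x V ≤ 2 ^ M * (Y * E) := by
    unfold nrm
    rw [h0, abs_zero, mul_zero, zero_add]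
    have h4 : ∀ j ∈ range r, 2 ^ ga j * |V (some (c j)) - dd (G j) x V| ≤
        2 ^ M * (2 ^ g j * |V (some (c j)) - cv (ψ j) V| + 2 ^ k * E) := by
      intro j hj
      have hj' := Finset.mem_range.1 hj
      have h5 := H.frm j hj' V
      have h6 : en c g W ψ j V ≤ E := by
        rw [hE]
        exact en_mono c g W ψ hj'.le V
      have h7 : |V (some (c j)) - dd (G j) x V| ≤ |V (some (c j)) - cv (ψ j) V| +
          2 ^ k / 2 ^ g j * E := by
        have e1 : V (some (c j)) - dd (G j) x V = (V (some (c j)) - cv (ψ j) V) +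
            (cv (ψ j) V - dd (G j) x V) := by ring
        rw [e1]
        refine (abs_add_le _ _).trans (add_le_add le_rfl (h5.trans ?_))
        exact mul_le_mul_of_nonneg_left h6 (by positivity)
      have h8 : (2 : ℝ) ^ ga j ≤ 2 ^ M * 2 ^ g j := by
        rw [← pow_add]
        exact pow_le_pow_right₀ (by norm_num) (by have := hM j hj'; omega)
      calc 2 ^ ga j * |V (some (c j)) - dd (G j) x V| ≤
          (2 ^ M * 2 ^ g j) * (|V (some (c j)) - cv (ψ j) V| + 2 ^ k / 2 ^ g j * E) :=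
            mul_le_mul h8 h7 (abs_nonneg _) (by positivity)
        _ = 2 ^ M * (2 ^ g j * |V (some (c j)) - cv (ψ j) V| + 2 ^ k * E) := by
            field_simp
    refine (Finset.sum_le_sum h4).trans ?_
    rw [← Finset.mul_sum, Finset.sum_add_distrib, Finset.sum_const, Finset.card_range,
      nsmul_eq_mul]
    refine mul_le_mul_of_nonneg_left ?_ (by positivity)
    have h9 : ∑ j ∈ range r, 2 ^ g j * |V (some (c j)) - cv (ψ j) V| ≤ E := by
      rw [hE, Pool.D2Z.en_eq]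
      exact le_add_of_nonneg_left (by positivity)
    nlinarith
  have h4 := (H.tr hY (le_refl r) V).1
  have h5 : |dd (G r) x' V - dd (G r) x V| ≤ Y ^ (r + 3) / 2 ^ (g r + s) * E := by
    refine h4.trans ((mul_le_mul_of_nonneg_left h3 (by positivity)).trans ?_)
    have e1 : Y ^ (r + 2) / 2 ^ ga r * (2 ^ M * (Y * E)) =
        Y ^ (r + 3) * (2 ^ M / 2 ^ ga r) * E := by
      rw [pow_succ Y (r + 2)]
      ring
    rw [e1]
    refine mul_le_mul_of_nonneg_right ?_ hE0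
    rw [div_eq_mul_one_div (Y ^ (r + 3))]
    refine mul_le_mul_of_nonneg_left ?_ (by positivity)
    rw [div_le_div_iff₀ (by positivity) (by positivity), ← pow_add, one_mul]
    exact pow_le_pow_right₀ (by norm_num) (by omega)
  have e2 : dd R' x' V - dd R x V = dd (R' - G r) x' V - dd (R - G r) x V +
      (dd (G r) x' V - dd (G r) x V) := by
    rw [dd_sub, dd_sub]
    ring
  rw [e2]
  refine (abs_add_le _ _).trans ?_
  have h6 := (abs_sub (dd (R' - G r) x' V) (dd (R - G r) x V)).trans (add_le_add h2 h1)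
  obtain ⟨z, hz⟩ : ∃ z : ℝ, z = E / 2 ^ (g r + s) := ⟨_, rfl⟩
  have hz0 : 0 ≤ z := by
    rw [hz]
    positivity
  have e3 : ∀ y : ℝ, y / 2 ^ (g r + s) * E = y * z := fun y => by
    rw [hz]
    ring
  rw [e3] at h6
  rw [e3] at h5 ⊢
  have h7 : 2 * 2 ^ k + Y ^ (r + 3) ≤ Y ^ (r + 4) := by
    have e4 : Y ^ (r + 4) = Y * Y ^ (r + 3) := by ring
    have e5 : Y ^ (r + 3) = Y * Y * Y ^ (r + 1) := by ring
    have h8 : (1 : ℝ) ≤ Y ^ (r + 1) := one_le_pow₀ (by linarith)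
    have h9 : Y * Y ≤ Y ^ (r + 3) := by
      rw [e5]
      exact le_mul_of_one_le_right (by positivity) h8
    have h10 : 2 * 2 ^ k ≤ Y * Y := mul_le_mul y2 yk1 (by positivity) hY0
    rw [e4]
    nlinarith
  have h11 := mul_le_mul_of_nonneg_right h7 hz0
  nlinarith

end

end Pool.D2S
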