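import Pool.Agent.H28.D2.Inst
import Pool.Agent.H28.D2.Pr
import Pool.Agent.H28.D2.FrN
import Pool.Agent.H64.F5.NatH

/-!
# The geometric data of the hop from a ball with natural charts

`Gb`: a ball with natural charts, a frame of the window `W`, a label of the target closed on a
longer window. `Fb`: what is the same on the fibres of a record. `Gb.hopP`, `Gb.hopN`: the
geometric data `HopP`, `HopN` of the own paths in the frame.
-/

set_option autoImplicit false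

namespace Pool.D2F2

open Finset Real MvPolynomial
open Pool.Agent.H49.Ent Pool.Agent.H32.Dense Pool.STK Pool.KA Pool.KSAT Pool.K2S Pool.PB Pool.GEN
open Pool.S6C Pool.LA91 Pool.CHT Pool.CHX
open Pool.OWN68 (opl tw uw mid dirv natDegree_opl opl_jet uw_abs)
open Pool.D2R (dd hs co nrm dd_sub)
open Pool.D2F (cv CvC eta dvn nc grd cv_grd cv_nc cv_eq cv_congr eta_dvn dvn_none FrOK cv_sub)
open Pool.D2Z (cvc_grd en en_succ en_zero en_nonneg en_mono en_eq)
open Pool.D2H (uw_eq eval_small der_small')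
open Pool.D2S (Pr Sg NtB yk en_rec)
open Pool.F5 (NatH)

variable {m J : ℕ}

/-- **The positions**, some of them known from elsewhere. -/
theorem pos' {c : ℕ → Fin m} {g ga : ℕ → ℕ} {W a k r : ℕ}
    {G : ℕ → MvPolynomial (Option (Fin m)) ℝ} {t : ℝ} {ψ : ℕ → Option (Fin m) → ℝ}
    {x x' : Option (Fin m) → ℝ} {Y : ℝ} (H : Pr c g ga W a k r G t ψ x x')
    (hY : (2 * r + 2) * 2 ^ k ≤ Y) {q : ℕ} {K : ℝ} (hK : 0 ≤ K)
    (hq : ∀ l < r, 2 ^ g l * |(x' - x) (some (c l)) - cv (ψ l) (x' - x)| ≤ K / 2 ^ q ∨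
      g l + q ≤ ga l) {l : ℕ} (hl : l ≤ r) :
    en c g W ψ l (x' - x) ≤ Y ^ (2 * r + 5) * ((K + 1) / 2 ^ q) := by
  obtain ⟨y2, -, -, -, -, -, -⟩ := yk hY
  have hY0 : 0 ≤ Y := by linarith
  have e0 : (x' - x) none = 0 := by
    rw [Pi.sub_apply, H.t0, sub_self]
  have h1 := en_rec (M := Y ^ (r + 4) * ((K + 1) / 2 ^ q)) hY H.frm e0 (by positivity)
    (fun l hl => ?_) hl
  · refine h1.trans (le_of_eq ?_)
    rw [← mul_assoc, ← pow_add]
    congr 2
    ring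
  · have hy : (1 : ℝ) ≤ Y ^ (r + 4) := one_le_pow₀ (by linarith)
    rcases hq l hl with h2 | h2
    · left
      refine h2.trans ?_
      have h3 : K / 2 ^ q ≤ (K + 1) / 2 ^ q :=
        div_le_div_of_nonneg_right (by linarith) (by positivity)
      exact h3.trans (le_mul_of_one_le_left (by positivity) hy)
    · right
      have h3 := H.lin hY hl.le
      have hg : (0 : ℝ) < 2 ^ g l := by positivity
      refine (mul_le_mul_of_nonneg_left h3 hg.le).trans ?_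
      have h4 : (2 : ℝ) ^ g l * (1 / 2 ^ ga l) ≤ 1 / 2 ^ q := by
        rw [mul_one_div, div_le_div_iff₀ (by positivity) (by positivity), one_mul, ← pow_add]
        exact pow_le_pow_right₀ (by norm_num) h2
      have h5 : (1 : ℝ) / 2 ^ q ≤ (K + 1) / 2 ^ q :=
        div_le_div_of_nonneg_right (by linarith) (by positivity)
      calc 2 ^ g l * (Y ^ (r + 4) / 2 ^ ga l) = Y ^ (r + 4) * (2 ^ g l * (1 / 2 ^ ga l)) := by ring
        _ ≤ Y ^ (r + 4) * ((K + 1) / 2 ^ q) :=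
          mul_le_mul_of_nonneg_left (h4.trans h5) (by positivity)

/-- The derivative from the coefficients of positive order. -/
theorem der_small1 {D : ℕ} {p : Polynomial ℝ} (hp : p.natDegree ≤ D) {u B : ℝ} (hu : |u| ≤ 1)
    (hB0 : 0 ≤ B) (hB : ∀ j, 1 ≤ j → |p.coeff j| ≤ B) :
    |p.derivative.eval u| ≤ (D + 1) * (D * B) := by
  have h1 : (p - Polynomial.C (p.coeff 0)).derivative = p.derivative := by
    rw [Polynomial.derivative_sub, Polynomial.derivative_C, sub_zero]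
  rw [← h1]
  refine der_small' ?_ hu fun j _ => ?_
  · exact (Polynomial.natDegree_sub_le _ _).trans (max_le hp (by
      rw [Polynomial.natDegree_C]
      exact Nat.zero_le _))
  · rw [Polynomial.coeff_sub, Polynomial.coeff_C]
    by_cases h : j = 0
    · rw [if_pos h, h, sub_self, abs_zero]
      exact hB0
    · rw [if_neg h, sub_zero]
      exact hB j (by omega)

/-- The constant coefficient from the value and the others. -/
theorem cof_zero {D : ℕ} {p : Polynomial ℝ} (hp : p.natDegree ≤ D) {u B V : ℝ} (hu : |u| ≤ 1)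
    (hV : |p.eval u| ≤ V) (hB : ∀ j, 1 ≤ j → j ≤ D → |p.coeff j| ≤ B) :
    |p.coeff 0| ≤ V + D * B := by
  have h1 : p.eval u = ∑ j ∈ range (D + 1), p.coeff j * u ^ j :=
    Polynomial.eval_eq_sum_range' (show p.natDegree < D + 1 by omega) u
  rw [Finset.sum_range_succ'] at h1
  have h2 : p.coeff 0 = p.eval u - ∑ j ∈ range D, p.coeff (j + 1) * u ^ (j + 1) := by
    rw [h1]
    simp
  rw [h2]
  refine (abs_sub _ _).trans (add_le_add hV ?_)
  refine (Finset.abs_sum_le_sum_abs _ _).trans ?_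
  refine (Finset.sum_le_sum (g := fun _ => B) fun j hj => ?_).trans (le_of_eq ?_)
  · have hj' := Finset.mem_range.1 hj
    have h3 := hB (j + 1) (by omega) (by omega)
    rw [abs_mul, abs_pow]
    exact (mul_le_of_le_one_right (abs_nonneg _) (pow_le_one₀ (abs_nonneg _) hu)).trans h3
  · rw [Finset.sum_const, Finset.card_range, nsmul_eq_mul]

/-- **A ball with natural charts**, a frame of the window `W`, a label of the target closed on a
longer window. -/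
structure Gb (F : Fam m J) (c : ℕ → Fin m) (g ga : ℕ → ℕ) (W n a k r D sg M : ℕ)
    (ψH : LnT F → ℕ → Option (Fin m) → ℝ) (Ht : LnT F → MvPolynomial (Option (Fin m)) ℝ)
    (G : PtT F → ℕ → MvPolynomial (Option (Fin m)) ℝ) (B : F.Ω → Prop) : Prop where
  inj : Set.InjOn c (Set.Iio r)
  hW : W ≤ J
  depG : ∀ y l, DepC c l (G y l)
  depH : ∀ s, DepC c r (Ht s)
  cvH : ∀ s l, CvC c l (ψH s l)
  pos : ∀ ω, B ω → ∀ l ≤ r, |F.x ω (c l) - eval (bt F ω) (G (ptr F J ω) l)| ≤ 1 / 2 ^ ga l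
  nat : ∀ l ≤ r, NatH F c a ga B G k l
  vel : ∀ ω, B ω → ∀ l ≤ r, |bd F ω (some (c l)) - dd (G (ptr F J ω) l) (bt F ω) (bd F ω)| ≤
    2 ^ (k + a) / 2 ^ ga l
  frm : ∀ ω, B ω → ∀ l < r, ∀ V : Option (Fin m) → ℝ,
    |cv (ψH (slam F W ω) l) V - dd (G (ptr F J ω) l) (bt F ω) V| ≤
      2 ^ k / 2 ^ g l * en c g W (ψH (slam F W ω)) l V
  win : ∀ ω, B ω → ∀ V : Option (Fin m) → ℝ, V none = 0 →
    |dd (Ht (co n (slam F W ω)) - G (ptr F J ω) r) (bt F ω) V| ≤
      2 ^ k / 2 ^ (g r + sg) * en c g W (ψH (slam F W ω)) r V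
  lv : g r + sg + M ≤ ga r
  lM : ∀ j < r, ga j ≤ g j + M

/-- **The record of a ball**: what is the same on the fibres. -/
structure Fb {F : Fam m J} {r D : ℕ} (d : Dat F (ℕ → Option (Fin m) → ℝ) r D)
    (G : PtT F → ℕ → MvPolynomial (Option (Fin m)) ℝ) (g ga : ℕ → ℕ) (W a q K₀ : ℕ)
    (B : F.Ω → Prop) {γ : Type} (Y : F.Ω → γ) : Prop where
  key : ∀ ω ω', B ω → B ω' → Y ω = Y ω' → F.T ω = F.T ω' ∧ F.Z ω = F.Z ω' ∧
    d.fc (slam F W ω) = d.fc (slam F W ω') ∧ ∀ l ≤ r, G (ptr F J ω) l = G (ptr F J ω') l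
  pos : ∀ ω ω', B ω → B ω' → Y ω = Y ω' → ∀ l < r,
    d.SV l * |d.v W l ω - d.v W l ω'| ≤ K₀ ∨ g l + q ≤ ga l
  vel : ∀ ω ω', B ω → B ω' → Y ω = Y ω' → ∀ l < r,
    d.SE l * |d.e W l ω - d.e W l ω'| ≤ K₀ ∨ g l + q + a ≤ ga l + W
  grd : ∀ ω ω', B ω → B ω' → Y ω = Y ω' → ∀ l < r, ∀ j, 1 ≤ j → j ≤ D →
    d.SG l * |(d.gp l (slam F W ω)).coeff j - (d.gp l (slam F W ω')).coeff j| ≤ K₀

section

variable {F : Fam m J} {c : ℕ → Fin m} {g ga : ℕ → ℕ} {W n a k r D sg M : ℕ}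
    {ψH : LnT F → ℕ → Option (Fin m) → ℝ} {Ht : LnT F → MvPolynomial (Option (Fin m)) ℝ}
    {G : PtT F → ℕ → MvPolynomial (Option (Fin m)) ℝ} {B : F.Ω → Prop}

/-- The two points of the fibre. -/
theorem Gb.pr (H : Gb F c g ga W n a k r D sg M ψH Ht G B) {ω ω' : F.Ω} (hω : B ω)
    (hω' : B ω') (hT : F.T ω = F.T ω') (hG : ∀ l ≤ r, G (ptr F J ω) l = G (ptr F J ω') l) :
    Pr c g ga W a k r (G (ptr F J ω)) (F.t ω) (ψH (slam F W ω)) (bt F ω) (bt F ω') := by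
  have ht : F.t ω' = F.t ω := by
    unfold Fam.t
    rw [hT]
  have e1 : ∀ (ν : F.Ω) (l : ℕ), bt F ν (some (c l)) = F.x ν (c l) := fun _ _ => rfl
  have e0 : ∀ ν : F.Ω, bt F ν none = F.t ν := fun _ => rfl
  have hx : ∀ l ≤ r, |bt F ω (some (c l)) - eval (bt F ω) (G (ptr F J ω) l)| ≤ 1 / 2 ^ ga l :=
    fun l hl => H.pos ω hω l hl
  have hx' : ∀ l ≤ r, |bt F ω' (some (c l)) - eval (bt F ω') (G (ptr F J ω) l)| ≤
      1 / 2 ^ ga l := fun l hl => by
    rw [hG l hl]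
    exact H.pos ω' hω' l hl
  refine ⟨⟨H.inj, H.depG _, fun l hl => ?_, ⟨?_, fun l hl => hx l hl.le⟩,
    ⟨?_, fun l hl => hx' l hl.le⟩⟩, ?_, hx, hx', H.frm ω hω⟩
  · exact H.nat l hl ω hω
  · rw [e0, sub_self, abs_zero]
    positivity
  · rw [e0, ht, sub_self, abs_zero]
    positivity
  · rw [e0, e0, ht]

/-- The data of the context. -/
noncomputable def hdt (F : Fam m J) (c : ℕ → Fin m) (g : ℕ → ℕ) (W n r D q sg : ℕ)
    (ψH : LnT F → ℕ → Option (Fin m) → ℝ) (Ht : LnT F → MvPolynomial (Option (Fin m)) ℝ)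
    (hD : ∀ s, (Ht s).totalDegree ≤ D) : Dat F (ℕ → Option (Fin m) → ℝ) r D :=
  fdat F c g W n r D ψH Ht hD (fun l => 2 ^ (g l + q)) (fun l => 2 ^ (g l + q))
    (fun l => 2 ^ (g r + sg) / 2 ^ g l)

variable {q : ℕ} {hD : ∀ s, (Ht s).totalDegree ≤ D}

theorem hdt_dv (hW : W ≤ J) (l : ℕ) {ω ω' : F.Ω}
    (hψ : ψH (slam F W ω) = ψH (slam F W ω')) :
    (hdt F c g W n r D q sg ψH Ht hD).v W l ω' - (hdt F c g W n r D q sg ψH Ht hD).v W l ω =
      (bt F ω' - bt F ω) (some (c l)) -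
        if l < r then cv (ψH (slam F W ω) l) (bt F ω' - bt F ω) else 0 := by
  have h1 : (hdt F c g W n r D q sg ψH Ht hD).v W l ω' = _ := fdat_v hW l ω'
  have h2 : (hdt F c g W n r D q sg ψH Ht hD).v W l ω = _ := fdat_v hW l ω
  rw [h1, h2, ← hψ, Pi.sub_apply]
  split_ifs
  · rw [cv_sub]
    ring
  · ring

theorem hdt_de (hW : W ≤ J) (l : ℕ) {ω ω' : F.Ω}
    (hψ : ψH (slam F W ω) = ψH (slam F W ω')) :
    (hdt F c g W n r D q sg ψH Ht hD).e W l ω' - (hdt F c g W n r D q sg ψH Ht hD).e W l ω =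
      1 / 2 ^ (W + 1) * ((bd F ω' - bd F ω) (some (c l)) -
        if l < r then cv (ψH (slam F W ω) l) (bd F ω' - bd F ω) else 0) := by
  have h1 : (hdt F c g W n r D q sg ψH Ht hD).e W l ω' = _ := fdat_e hW l ω'
  have h2 : (hdt F c g W n r D q sg ψH Ht hD).e W l ω = _ := fdat_e hW l ω
  rw [h1, h2, ← hψ, Pi.sub_apply]
  split_ifs
  · rw [cv_sub]
    ring
  · ring

/-- The natural size of a frame vector. -/
theorem en_fv (hc : Set.InjOn c (Set.Iio r)) {ψ : ℕ → Option (Fin m) → ℝ}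
    (hψ : ∀ l, CvC c l (ψ l)) {l : ℕ} (hl : l < r) : en c g W ψ r (fv c g W r ψ l) = 2 ^ g l := by
  rw [en_eq, fv_none, abs_zero, mul_zero, zero_add]
  have h1 : ∀ j ∈ range r, (2 : ℝ) ^ g j * |fv c g W r ψ l (some (c j)) -
      cv (ψ j) (fv c g W r ψ l)| = if j = l then 2 ^ g l else 0 := by
    intro j hj
    rw [fv_comp hc g W hψ l (Finset.mem_range.1 hj)]
    split_ifs with h
    · rw [h, abs_one, mul_one]
    · rw [abs_zero, mul_zero]
  rw [Finset.sum_congr rfl h1, Finset.sum_ite_eq' (range r) l, if_pos (Finset.mem_range.2 hl)]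

/-- The facts about two samples of one fibre. -/
theorem Gb.two (H : Gb F c g ga W n a k r D sg M ψH Ht G B) {K₀ : ℕ} {γ : Type} {Y : F.Ω → γ}
    (HF : Fb (hdt F c g W n r D q sg ψH Ht hD) G g ga W a q K₀ B Y) {Yr : ℝ}
    (hY : (2 * r + 2) * 2 ^ k ≤ Yr) {ω ω' : F.Ω} (hω : B ω) (hω' : B ω') (e : Y ω = Y ω') :
    (∀ l ≤ r, en c g W (ψH (slam F W ω)) l (bt F ω' - bt F ω) ≤
      Yr ^ (2 * r + 5) * ((K₀ + 1) / 2 ^ q)) ∧
    (∀ l ≤ r, en c g W (ψH (slam F W ω)) l (bd F ω' - bd F ω) ≤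
      Yr ^ (2 * r + 5) * ((2 * K₀ + 1) * (2 ^ W / 2 ^ q))) ∧
    ∀ l < r, (2 : ℝ) ^ (g r + sg) / 2 ^ g l *
      |((hdt F c g W n r D q sg ψH Ht hD).gp l (slam F W ω)).eval (uw F W ω) -
        ((hdt F c g W n r D q sg ψH Ht hD).gp l (slam F W ω')).eval (uw F W ω)| ≤
        Yr ^ (r + 4) := by
  obtain ⟨hT, -, hψ, hG⟩ := HF.key ω ω' hω hω' e
  change ψH (slam F W ω) = ψH (slam F W ω') at hψ
  have hp := H.pr hω hω' hT hG
  refine ⟨fun l hl => ?_, fun l hl => ?_, fun l hl => ?_⟩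
  · refine pos' hp hY (Nat.cast_nonneg K₀) (fun j hj => ?_) hl
    rcases HF.pos ω ω' hω hω' e j hj with h1 | h1
    · left
      rw [abs_sub_comm, hdt_dv H.hW j hψ, if_pos hj] at h1
      change (2 : ℝ) ^ (g j + q) * _ ≤ _ at h1
      rw [le_div_iff₀ (by positivity)]
      rw [pow_add] at h1
      linarith
    · exact Or.inr h1
  · have h2 : ∀ ν : F.Ω, bd F ν none = 1 := fun _ => rfl
    refine Pr.vel hp hY (h2 ω) (h2 ω') (H.vel ω hω) (fun l hl => ?_) (K := 2 * K₀) (by positivity)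
      (fun j hj => ?_) hl
    · rw [hG l hl]
      exact H.vel ω' hω' l hl
    · rcases HF.vel ω ω' hω hω' e j hj with h1 | h1
      · left
        rw [abs_sub_comm, hdt_de H.hW j hψ, if_pos hj, abs_mul,
          abs_of_pos (by positivity : (0 : ℝ) < 1 / 2 ^ (W + 1))] at h1
        change (2 : ℝ) ^ (g j + q) * _ ≤ _ at h1
        obtain ⟨z, hz⟩ : ∃ z : ℝ, z = |(bd F ω' - bd F ω) (some (c j)) -
          cv (ψH (slam F W ω) j) (bd F ω' - bd F ω)| := ⟨_, rfl⟩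
        rw [← hz] at h1 ⊢
        have h3 : (2 : ℝ) ^ (g j + q) * (1 / 2 ^ (W + 1) * z) =
            (2 ^ g j * z) * (2 ^ q / 2 ^ (W + 1)) := by
          rw [pow_add]
          ring
        rw [h3] at h1
        have h4 : (2 : ℝ) ^ g j * z = (2 ^ g j * z) * (2 ^ q / 2 ^ (W + 1)) *
            (2 ^ (W + 1) / 2 ^ q) := by
          field_simp
        rw [h4]
        refine (mul_le_mul_of_nonneg_right h1 (by positivity)).trans (le_of_eq ?_)
        rw [pow_succ]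
        ring
      · exact Or.inr h1
  · have hu : uw F W ω = uw F W ω' := uw_eq hT
    have e1 : ((hdt F c g W n r D q sg ψH Ht hD).gp l (slam F W ω)).eval (uw F W ω) =
        dd (Ht (co n (slam F W ω))) (bt F ω) (fv c g W r (ψH (slam F W ω)) l) :=
      fdat_g H.hW l ω
    have e2 : ((hdt F c g W n r D q sg ψH Ht hD).gp l (slam F W ω')).eval (uw F W ω) =
        dd (Ht (co n (slam F W ω'))) (bt F ω') (fv c g W r (ψH (slam F W ω)) l) := by
      rw [hu, hψ]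
      exact fdat_g H.hW l ω'
    rw [e1, e2, abs_sub_comm]
    have h5 := Pr.grd hp hY H.lv H.lM (H.win ω hω) (R' := Ht (co n (slam F W ω')))
      (fun V hV => by
        rw [hψ, hG r le_rfl]
        exact H.win ω' hω' V hV) (fv_none c g W r (ψH (slam F W ω)) l)
    rw [en_fv H.inj (H.cvH _) hl] at h5
    refine (mul_le_mul_of_nonneg_left h5 (by positivity)).trans (le_of_eq ?_)
    field_simp

/-- **The geometric data of a record.** -/
theorem Gb.hopP (H : Gb F c g ga W n a k r D sg M ψH Ht G B) {K₀ : ℕ} {γ : Type} {Y : F.Ω → γ}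
    (HF : Fb (hdt F c g W n r D q sg ψH Ht hD) G g ga W a q K₀ B Y)
    (hga : g r + sg + q ≤ ga r) :
    HopP (hdt F c g W n r D q sg ψH Ht hD) B W (2 ^ (g r + q + sg))
      (((2 * r + 2) * 2 ^ k) ^ (2 * r + 7) * (K₀ + 1) * (D + 1) ^ 2) Y := by
  obtain ⟨Yr, hYr⟩ : ∃ Yr : ℝ, Yr = (2 * r + 2) * 2 ^ k := ⟨_, rfl⟩
  have hY : (2 * r + 2) * 2 ^ k ≤ Yr := hYr.ge
  obtain ⟨y2, yk1, yr, yr2, yk2, yk3, yk4⟩ := yk hY
  have hY0 : 0 ≤ Yr := by linarith
  have hK0 : (0 : ℝ) ≤ K₀ := Nat.cast_nonneg _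
  have hD0 : (0 : ℝ) ≤ D := Nat.cast_nonneg _
  have hcast : ((((2 * r + 2) * 2 ^ k) ^ (2 * r + 7) * (K₀ + 1) * (D + 1) ^ 2 : ℕ) : ℝ) =
      Yr ^ (2 * r + 7) * (K₀ + 1) * (D + 1) ^ 2 := by
    rw [hYr]
    push_cast
    ring
  -- the bounds
  have hp1 : (1 : ℝ) ≤ Yr ^ (r + 3) := one_le_pow₀ (by linarith)
  have hp2 : Yr ^ (r + 4) ≤ Yr ^ (2 * r + 7) := pow_le_pow_right₀ (by linarith) (by omega)
  have hp3 : Yr ^ (2 * r + 5) ≤ Yr ^ (2 * r + 7) := pow_le_pow_right₀ (by linarith) (by omega)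
  have hp6 : Yr ^ (2 * r + 6) ≤ Yr ^ (2 * r + 7) := pow_le_pow_right₀ (by linarith) (by omega)
  have hp4 : (1 : ℝ) ≤ Yr ^ (2 * r + 7) := one_le_pow₀ (by linarith)
  have hD1 : (1 : ℝ) ≤ (D + 1) ^ 2 := one_le_pow₀ (by linarith)
  have hbig : ∀ x : ℝ, x ≤ Yr ^ (2 * r + 7) * (K₀ + 1) →
      x ≤ Yr ^ (2 * r + 7) * (K₀ + 1) * (D + 1) ^ 2 := fun x hx =>
    hx.trans (le_mul_of_one_le_right (by positivity) hD1)
  refine { hW := H.hW
           SV0 := fun l _ => ?_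
           SG0 := fun l _ => ?_
           SVE := fun l _ => le_refl _
           σ0 := by positivity
           σG := fun l hl => ?_
           TZ := fun ω ω' hω hω' e => ⟨(HF.key ω ω' hω hω' e).1, (HF.key ω ω' hω hω' e).2.1,
             (HF.key ω ω' hω hω' e).2.2.1⟩
           pos := fun ω ω' hω hω' e l hl => ?_
           vel := fun ω ω' hω hω' e l hl => ?_
           grd := fun ω ω' hω hω' e l hl j hj => ?_
           hei := fun ω ω' hω hω' e => ?_ }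
  · show (0 : ℝ) < 2 ^ (g l + q)
    positivity
  · show (0 : ℝ) < 2 ^ (g r + sg) / 2 ^ g l
    positivity
  · show (2 : ℝ) ^ (g r + q + sg) ≤ 2 ^ (g r + sg) / 2 ^ g l * 2 ^ (g l + q)
    refine le_of_eq ?_
    simp only [pow_add]
    field_simp
  · obtain ⟨h1, -, -⟩ := H.two HF hY hω hω' e
    have hψ : ψH (slam F W ω) = ψH (slam F W ω') := (HF.key ω ω' hω hω' e).2.2.1
    rw [abs_sub_comm, hdt_dv H.hW l hψ, if_pos hl, hcast]
    show (2 : ℝ) ^ (g l + q) * _ ≤ _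
    have h2 := h1 (l + 1) (by omega)
    rw [en_succ] at h2
    have h3 := en_nonneg c g W (ψH (slam F W ω)) l (bt F ω' - bt F ω)
    have h4 : 2 ^ g l * |(bt F ω' - bt F ω) (some (c l)) -
        cv (ψH (slam F W ω) l) (bt F ω' - bt F ω)| ≤ Yr ^ (2 * r + 5) * ((K₀ + 1) / 2 ^ q) := by
      linarith
    refine hbig _ ?_
    rw [pow_add, mul_comm ((2 : ℝ) ^ g l), mul_assoc]
    refine (mul_le_mul_of_nonneg_left h4 (by positivity)).trans ?_
    have h5 : (2 : ℝ) ^ q * (Yr ^ (2 * r + 5) * ((K₀ + 1) / 2 ^ q)) =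
        Yr ^ (2 * r + 5) * (K₀ + 1) := by
      field_simp
    rw [h5]
    exact mul_le_mul_of_nonneg_right hp3 (by positivity)
  · obtain ⟨-, h1, -⟩ := H.two HF hY hω hω' e
    have hψ : ψH (slam F W ω) = ψH (slam F W ω') := (HF.key ω ω' hω hω' e).2.2.1
    rw [abs_sub_comm, hdt_de H.hW l hψ, if_pos hl, hcast, abs_mul,
      abs_of_pos (by positivity : (0 : ℝ) < 1 / 2 ^ (W + 1))]
    show (2 : ℝ) ^ (g l + q) * _ ≤ _
    have h2 := h1 (l + 1) (by omega)
    rw [en_succ] at h2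
    have h3 := en_nonneg c g W (ψH (slam F W ω)) l (bd F ω' - bd F ω)
    have h4 : 2 ^ g l * |(bd F ω' - bd F ω) (some (c l)) -
        cv (ψH (slam F W ω) l) (bd F ω' - bd F ω)| ≤
        Yr ^ (2 * r + 5) * ((2 * K₀ + 1) * (2 ^ W / 2 ^ q)) := by
      linarith
    refine hbig _ ?_
    have h6 : ∀ z : ℝ, (2 : ℝ) ^ (g l + q) * (1 / 2 ^ (W + 1) * z) =
        (2 ^ q / 2 ^ (W + 1)) * (2 ^ g l * z) := fun z => by
      rw [pow_add]
      ring
    rw [h6]
    refine (mul_le_mul_of_nonneg_left h4 (by positivity)).trans ?_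
    have h5 : (2 : ℝ) ^ q / 2 ^ (W + 1) * (Yr ^ (2 * r + 5) * ((2 * K₀ + 1) * (2 ^ W / 2 ^ q))) =
        Yr ^ (2 * r + 5) * ((2 * K₀ + 1) / 2) := by
      rw [pow_succ]
      field_simp
    rw [h5]
    exact mul_le_mul hp3 (by linarith) (by positivity) (by positivity)
  · rw [hcast]
    rcases Nat.eq_zero_or_pos j with rfl | hj0
    · obtain ⟨-, -, h1⟩ := H.two HF hY hω hω' e
      have hSG : (0 : ℝ) < (hdt F c g W n r D q sg ψH Ht hD).SG l := by
        show (0 : ℝ) < 2 ^ (g r + sg) / 2 ^ g l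
        positivity
      have h2 := h1 l hl
      change (hdt F c g W n r D q sg ψH Ht hD).SG l * _ ≤ _ at h2
      rw [← Polynomial.eval_sub, mul_comm, ← le_div_iff₀ hSG] at h2
      have h3 := cof_zero (D := D) ((Polynomial.natDegree_sub_le _ _).trans (max_le
        ((hdt F c g W n r D q sg ψH Ht hD).gD l _) ((hdt F c g W n r D q sg ψH Ht hD).gD l _)))
        (uw_abs F W ω) h2 (B := K₀ / (hdt F c g W n r D q sg ψH Ht hD).SG l) fun i hi hiD => by
          rw [Polynomial.coeff_sub, le_div_iff₀ hSG, mul_comm]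
          exact HF.grd ω ω' hω hω' e l hl i hi hiD
      rw [Polynomial.coeff_sub] at h3
      refine (mul_le_mul_of_nonneg_left h3 hSG.le).trans ?_
      have h4 : (hdt F c g W n r D q sg ψH Ht hD).SG l *
          (Yr ^ (r + 4) / (hdt F c g W n r D q sg ψH Ht hD).SG l +
            D * (K₀ / (hdt F c g W n r D q sg ψH Ht hD).SG l)) = Yr ^ (r + 4) + D * K₀ := by
        field_simp
      rw [h4]
      have h5 : (D : ℝ) * K₀ ≤ Yr ^ (2 * r + 7) * (K₀ * D) := by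
        rw [mul_comm (D : ℝ)]
        exact le_mul_of_one_le_left (by positivity) hp4
      have h6 : Yr ^ (2 * r + 7) * (K₀ + 1) * (D + 1) ^ 2 = Yr ^ (2 * r + 7) +
          Yr ^ (2 * r + 7) * (K₀ * D) + Yr ^ (2 * r + 7) * (K₀ + K₀ * D + K₀ * D ^ 2 +
            2 * D + D ^ 2) := by ring
      have h7 : 0 ≤ Yr ^ (2 * r + 7) * (K₀ + K₀ * D + K₀ * D ^ 2 + 2 * D + D ^ 2) := by positivity
      rw [h6]
      linarith
    · refine (HF.grd ω ω' hω hω' e l hl j hj0 hj).trans (hbig _ ?_)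
      have h5 : (K₀ : ℝ) ≤ Yr ^ (2 * r + 7) * K₀ := le_mul_of_one_le_left (by positivity) hp4
      rw [mul_add, mul_one]
      linarith
  · obtain ⟨h1, -, -⟩ := H.two HF hY hω hω' e
    obtain ⟨hT, -, hψ, hG⟩ := HF.key ω ω' hω hω' e
    change ψH (slam F W ω) = ψH (slam F W ω') at hψ
    have hp := H.pr hω hω' hT hG
    have h0 : (bt F ω' - bt F ω) none = 0 := by
      rw [Pi.sub_apply, hp.t0, sub_self]
    have e1 : ∀ l, ((hdt F c g W n r D q sg ψH Ht hD).gp l (slam F W ω)).eval (uw F W ω) =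
        dd (Ht (co n (slam F W ω))) (bt F ω) (fv c g W r (ψH (slam F W ω)) l) :=
      fun l => fdat_g H.hW l ω
    have e2 : ((hdt F c g W n r D q sg ψH Ht hD).v W r ω' -
        (hdt F c g W n r D q sg ψH Ht hD).v W r ω) - ∑ l ∈ range r,
        ((hdt F c g W n r D q sg ψH Ht hD).gp l (slam F W ω)).eval (uw F W ω) *
          ((hdt F c g W n r D q sg ψH Ht hD).v W l ω' -
            (hdt F c g W n r D q sg ψH Ht hD).v W l ω) =
        (bt F ω' - bt F ω) (some (c r)) -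
          dd (Ht (co n (slam F W ω))) (bt F ω) (bt F ω' - bt F ω) := by
      rw [hdt_dv H.hW r hψ, if_neg (lt_irrefl r), sub_zero,
        dd_fv H.inj g W (H.cvH (slam F W ω)) (H.depH _) (bt F ω) h0]
      congr 1
      refine Finset.sum_congr rfl fun l hl => ?_
      rw [e1, hdt_dv H.hW l hψ, if_pos (Finset.mem_range.1 hl)]
    rw [e2, hcast]
    have h3 := Pr.hei hp hY (s := sg) (q := q) hga (H.win ω hω)
      (K := Yr ^ (2 * r + 5) * (K₀ + 1)) (by
        rw [mul_div_assoc]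
        exact h1 r le_rfl)
    refine (mul_le_mul_of_nonneg_left h3 (by positivity)).trans (hbig _ ?_)
    have h4 : (2 : ℝ) ^ (g r + q + sg) * ((Yr ^ (r + 4) + Yr * (Yr ^ (2 * r + 5) * (K₀ + 1))) /
        2 ^ (g r + sg + q)) = Yr ^ (r + 4) + Yr ^ (2 * r + 6) * (K₀ + 1) := by
      have h5 : g r + sg + q = g r + q + sg := by omega
      have h6 : Yr ^ (2 * r + 6) = Yr * Yr ^ (2 * r + 5) := by ring
      rw [h5, h6]
      field_simp
    rw [h4]
    have h7 : Yr ^ (2 * r + 7) = Yr * Yr ^ (2 * r + 6) := by ring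
    have h8 : Yr ^ (r + 4) ≤ Yr ^ (2 * r + 6) := pow_le_pow_right₀ (by linarith) (by omega)
    have h9 : 2 * (Yr ^ (2 * r + 6) * (K₀ + 1)) ≤ Yr * (Yr ^ (2 * r + 6) * (K₀ + 1)) :=
      mul_le_mul_of_nonneg_right y2 (by positivity)
    have h10 : Yr ^ (2 * r + 6) ≤ Yr ^ (2 * r + 6) * (K₀ + 1) :=
      le_mul_of_one_le_right (by positivity) (by linarith)
    rw [h7, mul_assoc]
    linarith

/-- **The geometric data of the hop.** -/
theorem Gb.hopN (H : Gb F c g ga W n a k r D sg M ψH Ht G B) {K₀ : ℕ} {γ : Type} {Y : F.Ω → γ}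
    (HF : Fb (hdt F c g W n r D q sg ψH Ht hD) G g ga W a q K₀ B Y)
    (hga : g r + sg + q ≤ ga r) (hgv : g r + q + a ≤ ga r + W)
    (siz : ∀ ω, B ω → ∀ l < r, ∀ j, 1 ≤ j →
      |((hdt F c g W n r D q sg ψH Ht hD).gp l (slam F W ω)).coeff j| ≤
        2 ^ k * (2 ^ g l / 2 ^ g r)) :
    HopN (hdt F c g W n r D q sg ψH Ht hD) B W sg (2 ^ (g r + q + sg))
      (((2 * r + 2) * 2 ^ k) ^ (2 * r + 7) * (K₀ + 1) * (D + 1) ^ 2) Y := by
  obtain ⟨Yr, hYr⟩ : ∃ Yr : ℝ, Yr = (2 * r + 2) * 2 ^ k := ⟨_, rfl⟩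
  have hY : (2 * r + 2) * 2 ^ k ≤ Yr := hYr.ge
  obtain ⟨y2, yk1, yr, yr2, yk2, yk3, yk4⟩ := yk hY
  have hY0 : 0 ≤ Yr := by linarith
  have hK0 : (0 : ℝ) ≤ K₀ := Nat.cast_nonneg _
  have hD0 : (0 : ℝ) ≤ D := Nat.cast_nonneg _
  have hcast : ((((2 * r + 2) * 2 ^ k) ^ (2 * r + 7) * (K₀ + 1) * (D + 1) ^ 2 : ℕ) : ℝ) =
      Yr ^ (2 * r + 7) * (K₀ + 1) * (D + 1) ^ 2 := by
    rw [hYr]
    push_cast
    ring
  have hp4 : (1 : ℝ) ≤ Yr ^ (2 * r + 7) := one_le_pow₀ (by linarith)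
  refine { H.hopP HF hga with nco := ?_, nvl := ?_ }
  · intro ω hω l hl j hj
    have h1 := siz ω hω l hl j hj
    rw [hcast]
    show (2 : ℝ) ^ (g r + q + sg) * _ ≤ _ * 2 ^ sg * 2 ^ (g l + q)
    refine (mul_le_mul_of_nonneg_left h1 (by positivity)).trans ?_
    have h2 : (2 : ℝ) ^ (g r + q + sg) * (2 ^ k * (2 ^ g l / 2 ^ g r)) =
        2 ^ k * 2 ^ sg * 2 ^ (g l + q) := by
      simp only [pow_add]
      field_simp
    rw [h2]
    refine mul_le_mul_of_nonneg_right (mul_le_mul_of_nonneg_right ?_ (by positivity))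
      (by positivity)
    have h3 : Yr ≤ Yr ^ (2 * r + 7) := le_self_pow₀ (by linarith) (by omega)
    have h4 : (1 : ℝ) ≤ (K₀ + 1) * (D + 1) ^ 2 := by
      have : (1 : ℝ) ≤ (D + 1) ^ 2 := one_le_pow₀ (by linarith)
      nlinarith
    rw [mul_assoc]
    exact yk1.trans (h3.trans (le_mul_of_one_le_right (by positivity) h4))
  · intro ω ω' hω hω' e
    obtain ⟨h1, h1', -⟩ := H.two HF hY hω hω' e
    obtain ⟨hT, -, hψ, hG⟩ := HF.key ω ω' hω hω' e
    change ψH (slam F W ω) = ψH (slam F W ω') at hψ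
    have hp := H.pr hω hω' hT hG
    have hb1 : ∀ ν : F.Ω, bd F ν none = 1 := fun _ => rfl
    have h0 : (bd F ω' - bd F ω) none = 0 := by
      rw [Pi.sub_apply, hb1, hb1, sub_self]
    have e1 : ∀ l, ((hdt F c g W n r D q sg ψH Ht hD).gp l (slam F W ω)).eval (uw F W ω) =
        dd (Ht (co n (slam F W ω))) (bt F ω) (fv c g W r (ψH (slam F W ω)) l) :=
      fun l => fdat_g H.hW l ω
    obtain ⟨d, hd⟩ : ∃ d : Dat F (ℕ → Option (Fin m) → ℝ) r D,
        d = hdt F c g W n r D q sg ψH Ht hD := ⟨_, rfl⟩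
    have e2 : (d.e W r ω' - d.e W r ω) - ∑ l ∈ range r,
        ((d.gp l (slam F W ω)).derivative.eval (uw F W ω) * (d.v W l ω' - d.v W l ω) +
          (d.gp l (slam F W ω)).eval (uw F W ω) * (d.e W l ω' - d.e W l ω)) =
        1 / 2 ^ (W + 1) * ((bd F ω' - bd F ω) (some (c r)) -
          dd (Ht (co n (slam F W ω))) (bt F ω) (bd F ω' - bd F ω)) -
        ∑ l ∈ range r, (d.gp l (slam F W ω)).derivative.eval (uw F W ω) *
          (d.v W l ω' - d.v W l ω) := by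
      rw [hd, hdt_de H.hW r hψ, if_neg (lt_irrefl r), sub_zero,
        dd_fv H.inj g W (H.cvH (slam F W ω)) (H.depH _) (bt F ω) h0, Finset.sum_add_distrib]
      have e3 : ∑ l ∈ range r, ((hdt F c g W n r D q sg ψH Ht hD).gp l (slam F W ω)).eval
          (uw F W ω) * ((hdt F c g W n r D q sg ψH Ht hD).e W l ω' -
            (hdt F c g W n r D q sg ψH Ht hD).e W l ω) = 1 / 2 ^ (W + 1) * ∑ l ∈ range r,
          dd (Ht (co n (slam F W ω))) (bt F ω) (fv c g W r (ψH (slam F W ω)) l) *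
            ((bd F ω' - bd F ω) (some (c l)) - cv (ψH (slam F W ω) l) (bd F ω' - bd F ω)) := by
        rw [Finset.mul_sum]
        refine Finset.sum_congr rfl fun l hl => ?_
        rw [e1, hdt_de H.hW l hψ, if_pos (Finset.mem_range.1 hl)]
        ring
      rw [e3]
      ring
    rw [← hd] at siz ⊢
    rw [e2, hcast]
    have h3 := Pr.hvl hp hY (hb1 ω) (hb1 ω') (H.vel ω hω) (fun l hl => by
        rw [hG l hl]
        exact H.vel ω' hω' l hl) hgv (H.win ω hω)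
      (K := Yr ^ (2 * r + 5) * (2 * K₀ + 1)) (by
        rw [mul_assoc]
        exact h1' r le_rfl)
    have hσ0 : (0 : ℝ) ≤ 2 ^ (g r + q + sg) := by positivity
    refine (mul_le_mul_of_nonneg_left (abs_sub _ _) hσ0).trans ?_
    rw [mul_add]
    -- the first part
    have h4 : (2 : ℝ) ^ (g r + q + sg) * |1 / 2 ^ (W + 1) * ((bd F ω' - bd F ω) (some (c r)) -
        dd (Ht (co n (slam F W ω))) (bt F ω) (bd F ω' - bd F ω))| ≤
        Yr ^ (2 * r + 7) * (K₀ + 1) * 2 ^ sg := by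
      rw [abs_mul, abs_of_pos (by positivity : (0 : ℝ) < 1 / 2 ^ (W + 1))]
      refine (mul_le_mul_of_nonneg_left (mul_le_mul_of_nonneg_left h3 (by positivity))
        hσ0).trans ?_
      have h5 : (2 : ℝ) ^ (g r + q + sg) * (1 / 2 ^ (W + 1) *
          ((Yr ^ (r + 4) + Yr * (Yr ^ (2 * r + 5) * (2 * K₀ + 1))) *
            (2 ^ W / 2 ^ (g r + q)))) =
          (Yr ^ (r + 4) + Yr ^ (2 * r + 6) * (2 * K₀ + 1)) / 2 * 2 ^ sg := by
        have h6 : Yr ^ (2 * r + 6) = Yr * Yr ^ (2 * r + 5) := by ring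
        rw [h6, pow_succ, pow_add 2 (g r + q) sg]
        field_simp
      rw [h5]
      refine mul_le_mul_of_nonneg_right ?_ (by positivity)
      have h7 : Yr ^ (2 * r + 7) = Yr * Yr ^ (2 * r + 6) := by ring
      have h8 : Yr ^ (r + 4) ≤ Yr ^ (2 * r + 6) := pow_le_pow_right₀ (by linarith) (by omega)
      have h9 : 2 * (Yr ^ (2 * r + 6) * (K₀ + 1)) ≤ Yr * (Yr ^ (2 * r + 6) * (K₀ + 1)) :=
        mul_le_mul_of_nonneg_right y2 (by positivity)
      have h10 : 0 ≤ Yr ^ (2 * r + 6) * (K₀ + 1) := by positivity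
      rw [h7, mul_assoc]
      have h11 : Yr ^ (2 * r + 6) * (2 * K₀ + 1) = 2 * (Yr ^ (2 * r + 6) * (K₀ + 1)) -
          Yr ^ (2 * r + 6) := by ring
      rw [h11]
      linarith
    -- the second part
    have h5 : (2 : ℝ) ^ (g r + q + sg) * |∑ l ∈ range r,
        (d.gp l (slam F W ω)).derivative.eval (uw F W ω) * (d.v W l ω' - d.v W l ω)| ≤
        Yr ^ (2 * r + 7) * (K₀ + 1) * ((D + 1) * D) * 2 ^ sg := by
      refine (mul_le_mul_of_nonneg_left (Finset.abs_sum_le_sum_abs _ _) hσ0).trans ?_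
      rw [Finset.mul_sum]
      refine (Finset.sum_le_sum (g := fun _ => 2 ^ k * (Yr ^ (2 * r + 5) * (K₀ + 1)) *
        ((D + 1) * D) * 2 ^ sg) fun l hl => ?_).trans ?_
      · have hl' := Finset.mem_range.1 hl
        have c1 := der_small1 (d.gD l (slam F W ω)) (uw_abs F W ω)
          (B := 2 ^ k * (2 ^ g l / 2 ^ g r)) (by positivity) (siz ω hω l hl')
        have c2 := h1 (l + 1) (by omega)
        rw [en_succ] at c2
        have c3 := en_nonneg c g W (ψH (slam F W ω)) l (bt F ω' - bt F ω)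
        have c4 : |d.v W l ω' - d.v W l ω| ≤ Yr ^ (2 * r + 5) * ((K₀ + 1) / 2 ^ q) / 2 ^ g l := by
          rw [hd, hdt_dv H.hW l hψ, if_pos hl', le_div_iff₀ (by positivity), mul_comm]
          linarith
        rw [abs_mul]
        refine (mul_le_mul_of_nonneg_left (mul_le_mul c1 c4 (abs_nonneg _) (by positivity))
          hσ0).trans (le_of_eq ?_)
        rw [pow_add 2 (g r + q) sg, pow_add 2 (g r) q]
        field_simp
      · rw [Finset.sum_const, Finset.card_range, nsmul_eq_mul]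
        have c5 : (r : ℝ) * 2 ^ k ≤ Yr := by linarith
        have c6 : Yr ^ (2 * r + 7) = Yr * Yr * Yr ^ (2 * r + 5) := by ring
        have c7 : (r : ℝ) * 2 ^ k ≤ Yr * Yr := c5.trans (by nlinarith)
        have c8 : (r : ℝ) * (2 ^ k * (Yr ^ (2 * r + 5) * (K₀ + 1)) * ((D + 1) * D) * 2 ^ sg) =
            (r * 2 ^ k) * (Yr ^ (2 * r + 5) * (K₀ + 1) * ((D + 1) * D) * 2 ^ sg) := by ring
        have c9 : Yr ^ (2 * r + 7) * (K₀ + 1) * ((D + 1) * D) * 2 ^ sg =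
            (Yr * Yr) * (Yr ^ (2 * r + 5) * (K₀ + 1) * ((D + 1) * D) * 2 ^ sg) := by
          rw [c6]
          ring
        rw [c8, c9]
        exact mul_le_mul_of_nonneg_right c7 (by positivity)
    have h6 : Yr ^ (2 * r + 7) * (K₀ + 1) * (D + 1) ^ 2 * 2 ^ sg =
        Yr ^ (2 * r + 7) * (K₀ + 1) * 2 ^ sg +
        Yr ^ (2 * r + 7) * (K₀ + 1) * ((D + 1) * D) * 2 ^ sg +
        Yr ^ (2 * r + 7) * (K₀ + 1) * D * 2 ^ sg := by ring
    have h7 : 0 ≤ Yr ^ (2 * r + 7) * (K₀ + 1) * D * 2 ^ sg := by positivity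
    rw [h6]
    linarith

end

end Pool.D2F2
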