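import Pool.Agent.H90.D2.Hhh
import Pool.Agent.H31.D2.P8y3

/-!
# The numbers of the hop cell

`LvH`: the levels of a window are linear. `HbR`: the real inequalities between the windows and the
digits of one block. `HbR.hbm`, `HbR.hbn2`: the natural numbers of the block.
-/

set_option autoImplicit false

namespace Pool.D2F2

open Finset Real MvPolynomial
open Pool.D2N (HpN BsN BkN HbN HbM HbN2)
open Pool.KPO (P8M)

/-- **The levels of the window `v`**: linear, with the slopes `Sl`, up to `x₀`. -/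
def LvH (Sl : ℕ → ℝ) (x₀ : ℝ) (Λ : ℕ → ℝ) (v : ℕ) (g : ℕ → ℕ) : Prop :=
  ∀ l ≤ 3, |(g l : ℝ) - (Λ l + Sl l * v)| ≤ x₀

/-- **The real inequalities of one block.** Offsets from the base window: `L` back to the label
window, `O`, `A`, `B` of the windows of the block, `D` of the window of stage 1, `E` of the deep
window. `y`: the margin. -/
structure HbR (κ y L O A B D E s sg q q₀ q₁ Q : ℝ) : Prop where
  L1 : sg + y ≤ L
  O1 : sg + y ≤ O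
  O2 : q + y ≤ κ * O
  O3 : q + sg + y ≤ (κ + 1) * O
  OA : O ≤ A
  q0 : q ≤ q₀
  qA : q + y ≤ (κ - 1) * A
  qs : s + y + (κ - 1) * A ≤ q + sg
  ss : s + y ≤ sg
  q1 : q + sg ≤ q₁
  q01 : q₀ ≤ q₁
  D0 : 0 ≤ D
  D1 : κ * D + y ≤ q + sg
  D2 : q + sg + y ≤ (κ + 1) * D
  B1 : A + s + y ≤ B
  B2 : s + y ≤ (κ - 1) * (B - A)
  QB : Q + y ≤ B
  Q1 : q₀ ≤ Q
  Q2 : q + sg ≤ Q
  E1 : s + y ≤ (κ - 1) * (E - A)
  E2 : A + s + y ≤ E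
  s0 : 0 ≤ s
  k1 : 1 < κ

/-- The levels at the four places. -/
theorem LvH.all {Sl : ℕ → ℝ} {κ x₀ : ℝ} {Λ : ℕ → ℝ} {v : ℕ} {g : ℕ → ℕ} (h0 : Sl 0 = 1)
    (h1 : Sl 1 = κ) (h2 : Sl 2 = κ) (h3 : Sl 3 = κ + 1) (h : LvH Sl x₀ Λ v g) :
    (((g 0 : ℝ) ≤ Λ 0 + v + x₀ ∧ Λ 0 + v ≤ g 0 + x₀) ∧
      ((g 1 : ℝ) ≤ Λ 1 + κ * v + x₀ ∧ Λ 1 + κ * v ≤ g 1 + x₀)) ∧
      (((g 2 : ℝ) ≤ Λ 2 + κ * v + x₀ ∧ Λ 2 + κ * v ≤ g 2 + x₀) ∧
      ((g 3 : ℝ) ≤ Λ 3 + (κ + 1) * v + x₀ ∧ Λ 3 + (κ + 1) * v ≤ g 3 + x₀)) := by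
  have e0 := abs_le.1 (h 0 (by norm_num))
  have e1 := abs_le.1 (h 1 (by norm_num))
  have e2 := abs_le.1 (h 2 (by norm_num))
  have e3 := abs_le.1 (h 3 (by norm_num))
  rw [h0] at e0
  rw [h1] at e1
  rw [h2] at e2
  rw [h3] at e3
  refine ⟨⟨⟨?_, ?_⟩, ?_, ?_⟩, ⟨?_, ?_⟩, ?_, ?_⟩ <;> linarith [e0.1, e0.2, e1.1, e1.2, e2.1, e2.2,
    e3.1, e3.2]

section two

variable {Sl : ℕ → ℝ} {κ x₀ : ℝ} {Λ : ℕ → ℝ} {v w x : ℕ} {g g' : ℕ → ℕ}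

/-- The levels grow at least as the window. -/
theorem lv_up (h0 : Sl 0 = 1) (h1 : Sl 1 = κ) (h2 : Sl 2 = κ) (h3 : Sl 3 = κ + 1) (hκ : 1 ≤ κ)
    (hx : 4 * x₀ ≤ x) (h : LvH Sl x₀ Λ v g) (h' : LvH Sl x₀ Λ w g') (hvw : v ≤ w) :
    ∀ l ≤ 3, w + g l ≤ g' l + v + x := by
  have hA := h.all h0 h1 h2 h3
  have hB := h'.all h0 h1 h2 h3
  have hvw' : (v : ℝ) ≤ w := by exact_mod_cast hvw
  have hm : 0 ≤ (κ - 1) * ((w : ℝ) - v) := mul_nonneg (by linarith) (by linarith)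
  obtain ⟨⟨⟨a1, a2⟩, a3, a4⟩, ⟨a5, a6⟩, a7, a8⟩ := hA
  obtain ⟨⟨⟨b1, b2⟩, b3, b4⟩, ⟨b5, b6⟩, b7, b8⟩ := hB
  intro l hl
  have : ((w + g l : ℕ) : ℝ) ≤ ((g' l + v + x : ℕ) : ℝ) := by
    push_cast
    interval_cases l <;> nlinarith
  exact_mod_cast this

/-- The growth of the levels is monotone in the place. -/
theorem lv_upj (h0 : Sl 0 = 1) (h1 : Sl 1 = κ) (h2 : Sl 2 = κ) (h3 : Sl 3 = κ + 1) (hκ : 1 ≤ κ)
    (hx : 4 * x₀ ≤ x) (h : LvH Sl x₀ Λ v g) (h' : LvH Sl x₀ Λ w g') (hvw : v ≤ w) :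
    ∀ l ≤ 3, ∀ j < l, g' j + g l ≤ g' l + g j + x := by
  have hA := h.all h0 h1 h2 h3
  have hB := h'.all h0 h1 h2 h3
  have hvw' : (v : ℝ) ≤ w := by exact_mod_cast hvw
  have hm : 0 ≤ (κ - 1) * ((w : ℝ) - v) := mul_nonneg (by linarith) (by linarith)
  obtain ⟨⟨⟨a1, a2⟩, a3, a4⟩, ⟨a5, a6⟩, a7, a8⟩ := hA
  obtain ⟨⟨⟨b1, b2⟩, b3, b4⟩, ⟨b5, b6⟩, b7, b8⟩ := hB
  intro l hl j hj
  have : ((g' j + g l : ℕ) : ℝ) ≤ ((g' l + g j + x : ℕ) : ℝ) := by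
    push_cast
    interval_cases l <;> interval_cases j <;> nlinarith
  exact_mod_cast this

/-- The growth of the levels of the first three places. -/
theorem lv_mx (h0 : Sl 0 = 1) (h1 : Sl 1 = κ) (h2 : Sl 2 = κ) (h3 : Sl 3 = κ + 1) (hκ : 1 ≤ κ)
    (hx₀ : 0 ≤ x₀) (h : LvH Sl x₀ Λ v g) (h' : LvH Sl x₀ Λ w g') {S : ℕ}
    (hS : (S : ℝ) + 4 * x₀ + 1 ≤ w - v) :
    ∃ M : ℕ, (∀ j < 3, g' j ≤ g j + M) ∧ g 3 + S + M ≤ g' 3 := by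
  have hA := h.all h0 h1 h2 h3
  have hB := h'.all h0 h1 h2 h3
  have hS0 : (0 : ℝ) ≤ S := Nat.cast_nonneg S
  have hvw' : (v : ℝ) ≤ w := by linarith
  have hm : 0 ≤ (κ - 1) * ((w : ℝ) - v) := mul_nonneg (by linarith) (by linarith)
  obtain ⟨⟨⟨a1, a2⟩, a3, a4⟩, ⟨a5, a6⟩, a7, a8⟩ := hA
  obtain ⟨⟨⟨b1, b2⟩, b3, b4⟩, ⟨b5, b6⟩, b7, b8⟩ := hB
  have c1 := Nat.le_ceil (κ * ((w : ℝ) - v) + 2 * x₀)
  have c2 := (Nat.ceil_lt_add_one (a := κ * ((w : ℝ) - v) + 2 * x₀) (by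
    have : 0 ≤ κ * ((w : ℝ) - v) := mul_nonneg (by linarith) (by linarith)
    linarith)).le
  refine ⟨⌈κ * ((w : ℝ) - v) + 2 * x₀⌉₊, fun j hj => ?_, ?_⟩
  · have : ((g' j : ℕ) : ℝ) ≤ ((g j + ⌈κ * ((w : ℝ) - v) + 2 * x₀⌉₊ : ℕ) : ℝ) := by
      push_cast
      interval_cases j <;> nlinarith
    exact_mod_cast this
  · have : ((g 3 + S + ⌈κ * ((w : ℝ) - v) + 2 * x₀⌉₊ : ℕ) : ℝ) ≤ ((g' 3 : ℕ) : ℝ) := by
      push_cast
      nlinarith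
    exact_mod_cast this

end two

section one

variable {Sl : ℕ → ℝ} {κ x₀ y : ℝ} {Λ : ℕ → ℝ} {J x e₀ s sg q q₀ q₁ Q w₀ w o W b a₂ a' : ℕ}
    {g₁ g₂ go g gb gd g' : ℕ → ℕ}

/-- **The numbers of the windows of a block.** -/
theorem hpn_of (h0 : Sl 0 = 1) (h1 : Sl 1 = κ) (h2 : Sl 2 = κ) (h3 : Sl 3 = κ + 1) (hκ : 1 ≤ κ)
    (hx₀ : 0 ≤ x₀) (hx1 : 1 ≤ x) (hx : 8 * x₀ ≤ x) (L₁ : LvH Sl x₀ Λ w₀ g₁)
    (LW : LvH Sl x₀ Λ W g) (Lb : LvH Sl x₀ Λ b gb) (L' : LvH Sl x₀ Λ a' g') (Wb : W ≤ b)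
    (hL : (s : ℝ) + 301 * x ≤ (W : ℝ) - w₀) (hb : (s : ℝ) + 301 * x ≤ (κ - 1) * ((b : ℝ) - W))
    (hE : (s : ℝ) + 301 * x ≤ (κ - 1) * ((a' : ℝ) - W))
    (hE' : (s : ℝ) + 301 * x + 1 ≤ (a' : ℝ) - W) : ∃ Mg, HpN x s Mg w₀ W b a' g₁ g gb g' := by
  have hs0 : (0 : ℝ) ≤ s := Nat.cast_nonneg s
  have hx0 : (0 : ℝ) ≤ x := Nat.cast_nonneg x
  have wW : w₀ ≤ W := by
    have : (w₀ : ℝ) ≤ W := by linarith
    exact_mod_cast this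
  obtain ⟨Mg, m1, m2⟩ := lv_mx (S := s + 300 * x) h0 h1 h2 h3 hκ hx₀ LW L' (by
    push_cast
    linarith)
  have up := lv_up h0 h1 h2 h3 hκ (x := x) (by linarith) L₁ LW wW
  have upj := lv_upj h0 h1 h2 h3 hκ (x := x) (by linarith) L₁ LW wW
  have dn := lv_up h0 h1 h2 h3 hκ (x := x) (by linarith) LW Lb Wb
  have dnj := lv_upj h0 h1 h2 h3 hκ (x := x) (by linarith) LW Lb Wb
  obtain ⟨⟨⟨a1, a2⟩, a3, a4⟩, ⟨a5, a6⟩, a7, a8⟩ := L₁.all h0 h1 h2 h3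
  obtain ⟨⟨⟨b1, b2⟩, b3, b4⟩, ⟨b5, b6⟩, b7, b8⟩ := LW.all h0 h1 h2 h3
  obtain ⟨⟨⟨c1, c2⟩, c3, c4⟩, ⟨c5, c6⟩, c7, c8⟩ := Lb.all h0 h1 h2 h3
  obtain ⟨⟨⟨d1, d2⟩, d3, d4⟩, ⟨d5, d6⟩, d7, d8⟩ := L'.all h0 h1 h2 h3
  refine ⟨Mg, ⟨hx1, wW, fun l hl => up l (by omega), fun l hl => upj l (by omega),
    fun l hl => dn l (by omega), fun l hl => dnj l (by omega), ?_, ?_, ?_, m1, by omega, ?_, ?_,
    ?_⟩⟩
  · intro i hi hi2
    have : ((g i + b + (s + 300 * x) : ℕ) : ℝ) ≤ ((W + gb i : ℕ) : ℝ) := by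
      push_cast
      interval_cases i <;> linarith
    exact_mod_cast this
  · have : ((g 3 + a' + g' 0 + (s + 300 * x) : ℕ) : ℝ) ≤ ((W + g' 3 + g 0 : ℕ) : ℝ) := by
      push_cast
      linarith
    exact_mod_cast this
  · intro i hi hi2
    have : ((g 3 + a' + g' i + gb 0 + (s + 300 * x) : ℕ) : ℝ) ≤
        ((W + g' 3 + gb i + g 0 : ℕ) : ℝ) := by
      push_cast
      interval_cases i <;> linarith
    exact_mod_cast this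
  · have : ((a' + g 3 + (s + 300 * x) : ℕ) : ℝ) ≤ ((g' 3 + W : ℕ) : ℝ) := by
      push_cast
      linarith
    exact_mod_cast this
  · intro i hi hi2
    have : ((g 3 + g₁ i : ℕ) : ℝ) ≤ ((g₁ 3 + g i + (W - w₀) + x : ℕ) : ℝ) := by
      push_cast [Nat.cast_sub wW]
      interval_cases i <;> linarith
    exact_mod_cast this
  · intro i hi hi2
    have : ((g 3 + g₁ i + (s + 300 * x) : ℕ) : ℝ) ≤ ((g₁ 3 + g i + 2 * (W - w₀) : ℕ) : ℝ) := by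
      push_cast [Nat.cast_sub wW]
      interval_cases i <;> linarith
    exact_mod_cast this

/-- **The numbers of the base window.** -/
theorem bsn_of (h0 : Sl 0 = 1) (h1 : Sl 1 = κ) (h2 : Sl 2 = κ) (h3 : Sl 3 = κ + 1) (hκ : 1 ≤ κ)
    (hx1 : 1 ≤ x) (hx : 8 * x₀ ≤ x) (L₁ : LvH Sl x₀ Λ w₀ g₁) (L₂ : LvH Sl x₀ Λ w g₂)
    (hL : (sg : ℝ) ≤ (w : ℝ) - w₀) (qq : q + sg ≤ q₁) : BsN x sg q q₁ w₀ w g₁ g₂ := by
  have hs0 : (0 : ℝ) ≤ sg := Nat.cast_nonneg sg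
  have hx0 : (0 : ℝ) ≤ x := Nat.cast_nonneg x
  have wW : w₀ ≤ w := by
    have : (w₀ : ℝ) ≤ w := by linarith
    exact_mod_cast this
  have up := lv_up h0 h1 h2 h3 hκ (x := x) (by linarith) L₁ L₂ wW
  have upj := lv_upj h0 h1 h2 h3 hκ (x := x) (by linarith) L₁ L₂ wW
  obtain ⟨⟨⟨a1, a2⟩, a3, a4⟩, ⟨a5, a6⟩, a7, a8⟩ := L₁.all h0 h1 h2 h3
  obtain ⟨⟨⟨b1, b2⟩, b3, b4⟩, ⟨b5, b6⟩, b7, b8⟩ := L₂.all h0 h1 h2 h3
  refine ⟨hx1, wW, fun l hl => up l (by omega), fun l hl => upj l (by omega), ?_, qq⟩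
  intro i hi hi2
  have : ((g₂ 3 + g₁ i + sg : ℕ) : ℝ) ≤ ((g₁ 3 + g₂ i + 2 * (w - w₀) + x : ℕ) : ℝ) := by
    push_cast [Nat.cast_sub wW]
    interval_cases i <;> linarith
  exact_mod_cast this

/-- **The numbers between the base window and the block**, without `la`. -/
theorem bkn_of (h0 : Sl 0 = 1) (h1 : Sl 1 = κ) (h2 : Sl 2 = κ) (h3 : Sl 3 = κ + 1) (hκ : 1 ≤ κ)
    (hx1 : 1 ≤ x) (hx : 8 * x₀ ≤ x) (L₂ : LvH Sl x₀ Λ w g₂)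
    (LW : LvH Sl x₀ Λ W g) (wW : w ≤ W) (q0 : q ≤ q₀) (q01 : q₀ ≤ q₁) (ss : s ≤ sg)
    (sq : s + 1 ≤ q₁) (qs : (s : ℝ) + x + 2 + (κ - 1) * ((W : ℝ) - w) ≤ q + sg)
    (qA : (q : ℝ) + x ≤ (κ - 1) * ((W : ℝ) - w)) (qA0 : (q : ℝ) + x ≤ (W : ℝ) - w) :
    BkN x s sg q q₀ q₁ w W g₂ g := by
  have hs0 : (0 : ℝ) ≤ s := Nat.cast_nonneg s
  have hx0 : (0 : ℝ) ≤ x := Nat.cast_nonneg x
  have hss : (s : ℝ) ≤ sg := by exact_mod_cast ss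
  have hsq : (s : ℝ) + 1 ≤ q₁ := by exact_mod_cast sq
  have hwW : (w : ℝ) ≤ W := by exact_mod_cast wW
  have up := lv_up h0 h1 h2 h3 hκ (x := x) (by linarith) L₂ LW wW
  have upj := lv_upj h0 h1 h2 h3 hκ (x := x) (by linarith) L₂ LW wW
  obtain ⟨⟨⟨a1, a2⟩, a3, a4⟩, ⟨a5, a6⟩, a7, a8⟩ := L₂.all h0 h1 h2 h3
  obtain ⟨⟨⟨b1, b2⟩, b3, b4⟩, ⟨b5, b6⟩, b7, b8⟩ := LW.all h0 h1 h2 h3
  refine ⟨hx1, wW, q0, q01, fun l hl => up l (by omega), fun l hl => upj l (by omega), ?_, ?_, ?_,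
    ?_, ?_⟩
  · intro i hi hi2
    have : ((g 3 + g₂ i + s : ℕ) : ℝ) ≤ ((g₂ 3 + g i + sg + (W - w) + x : ℕ) : ℝ) := by
      push_cast [Nat.cast_sub wW]
      interval_cases i <;> linarith
    exact_mod_cast this
  · have : ((g 0 + w + 1 + s : ℕ) : ℝ) ≤ ((W + g₂ 0 + q₁ + x : ℕ) : ℝ) := by
      push_cast
      linarith
    exact_mod_cast this
  · have : ((s + g 3 + 2 : ℕ) : ℝ) ≤ ((g₂ 3 + q + sg + 2 * (W - w) : ℕ) : ℝ) := by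
      push_cast [Nat.cast_sub wW]
      linarith
    exact_mod_cast this
  · intro i hi
    have : ((g₂ i + q : ℕ) : ℝ) ≤ ((g i : ℕ) : ℝ) := by
      push_cast
      interval_cases i <;> linarith
    exact_mod_cast this
  · intro i hi hi2
    have : ((g₂ i + q + W : ℕ) : ℝ) ≤ ((g i + w : ℕ) : ℝ) := by
      push_cast
      interval_cases i
      · exact absurd rfl hi2
      · linarith
      · linarith
    exact_mod_cast this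

/-- **The numbers of the number.** -/
theorem p8m_of (h0 : Sl 0 = 1) (h1 : Sl 1 = κ) (h2 : Sl 2 = κ) (h3 : Sl 3 = κ + 1) (hκ : 1 ≤ κ)
    (hx : 8 * x₀ ≤ x) (L₂ : LvH Sl x₀ Λ w g₂) (Lo : LvH Sl x₀ Λ o go)
    (LW : LvH Sl x₀ Λ W g) (Lb : LvH Sl x₀ Λ b gb) (Ld : LvH Sl x₀ Λ a₂ gd)
    (R : HbR κ x ((w : ℝ) - w₀) ((o : ℝ) - w) ((W : ℝ) - w) ((b : ℝ) - w) ((a₂ : ℝ) - w)
      ((a' : ℝ) - w) s sg q q₀ q₁ Q) (hroom : ∀ l ≤ 3, e₀ + gb l + (sg + x + 5) ≤ J)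
    (hWJ : W ≤ J) : P8M 3 w o W b J q₀ q sg Q g₂ go g gb gd := by
  have hx0 : (0 : ℝ) ≤ x := Nat.cast_nonneg x
  have hsg : (0 : ℝ) ≤ sg := Nat.cast_nonneg sg
  have hq : (0 : ℝ) ≤ q := Nat.cast_nonneg q
  have hO1 := R.O1
  have hO2 := R.O2
  have hO3 := R.O3
  have hOA := R.OA
  have hqA := R.qA
  have hs0 := R.s0
  have hQB := R.QB
  have hB1 := R.B1
  have hD0 := R.D0
  have hD1 := R.D1
  have hD2 := R.D2
  have hQ2 := R.Q2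
  have hr0 := hroom 0 (by norm_num)
  have hr1 := hroom 1 (by norm_num)
  have hr2 := hroom 2 (by norm_num)
  have hr3 := hroom 3 (by norm_num)
  obtain ⟨⟨⟨a1, a2⟩, a3, a4⟩, ⟨a5, a6⟩, a7, a8⟩ := L₂.all h0 h1 h2 h3
  obtain ⟨⟨⟨b1, b2⟩, b3, b4⟩, ⟨b5, b6⟩, b7, b8⟩ := LW.all h0 h1 h2 h3
  obtain ⟨⟨⟨c1, c2⟩, c3, c4⟩, ⟨c5, c6⟩, c7, c8⟩ := Lb.all h0 h1 h2 h3
  obtain ⟨⟨⟨d1, d2⟩, d3, d4⟩, ⟨d5, d6⟩, d7, d8⟩ := Ld.all h0 h1 h2 h3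
  obtain ⟨⟨⟨f1, f2⟩, f3, f4⟩, ⟨f5, f6⟩, f7, f8⟩ := Lo.all h0 h1 h2 h3
  have m1 : 0 ≤ (κ - 1) * ((o : ℝ) - w) := mul_nonneg (by linarith) (by linarith)
  have m2 : 0 ≤ (κ - 1) * ((W : ℝ) - w) := mul_nonneg (by linarith) (by linarith)
  have m3 : 0 ≤ (κ - 1) * ((b : ℝ) - w) := mul_nonneg (by linarith) (by linarith)
  have m4 : 0 ≤ (κ - 1) * ((a₂ : ℝ) - w) := mul_nonneg (by linarith) (by linarith)
  have m5 : 0 ≤ (κ - 1) * ((b : ℝ) - W) := mul_nonneg (by linarith) (by linarith)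
  have m6 : 0 ≤ (κ - 1) * ((W : ℝ) - o) := mul_nonneg (by linarith) (by linarith)
  have e1 : ∀ l < 3, g₂ l + Q ≤ gb l := fun l hl => by
    have : ((g₂ l + Q : ℕ) : ℝ) ≤ ((gb l : ℕ) : ℝ) := by
      push_cast
      interval_cases l <;> linarith
    exact_mod_cast this
  refine ⟨by exact_mod_cast R.q0, by exact_mod_cast R.Q1, by exact_mod_cast R.Q2, ?_, ?_, ?_, ?_,
    ?_, ?_, e1, ?_, ?_, ?_, ?_, ?_, ?_, hWJ⟩
  · intro l hl hl0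
    have : ((g₂ l + q : ℕ) : ℝ) ≤ ((go l : ℕ) : ℝ) := by
      push_cast
      interval_cases l
      · exact absurd rfl hl0
      · linarith
      · linarith
    exact_mod_cast this
  · have : ((g₂ 3 + sg + q : ℕ) : ℝ) ≤ ((go 3 : ℕ) : ℝ) := by
      push_cast
      linarith
    exact_mod_cast this
  · intro l hl hl0
    have : ((g₂ l + q : ℕ) : ℝ) ≤ ((g l : ℕ) : ℝ) := by
      push_cast
      interval_cases l
      · exact absurd rfl hl0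
      · linarith
      · linarith
    exact_mod_cast this
  · intro l hl hl0
    have : ((g₂ l + q + W : ℕ) : ℝ) ≤ ((g l + w : ℕ) : ℝ) := by
      push_cast
      interval_cases l
      · exact absurd rfl hl0
      · linarith
      · linarith
    exact_mod_cast this
  · have : ((g₂ 3 + sg + q : ℕ) : ℝ) ≤ ((g 3 : ℕ) : ℝ) := by
      push_cast
      linarith
    exact_mod_cast this
  · have : ((g₂ 3 + q + W : ℕ) : ℝ) ≤ ((g 3 + w : ℕ) : ℝ) := by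
      push_cast
      linarith
    exact_mod_cast this
  · intro l hl hl0
    have : ((g₂ l + q + b : ℕ) : ℝ) ≤ ((gb l + w : ℕ) : ℝ) := by
      push_cast
      interval_cases l
      · exact absurd rfl hl0
      · linarith
      · linarith
    exact_mod_cast this
  · intro l hl
    have : ((gd l : ℕ) : ℝ) ≤ ((g₂ l + (q + sg) : ℕ) : ℝ) := by
      push_cast
      interval_cases l <;> linarith
    exact_mod_cast this
  · have : ((g₂ 3 + (q + sg) : ℕ) : ℝ) ≤ ((gd 3 : ℕ) : ℝ) := by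
      push_cast
      linarith
    exact_mod_cast this
  · intro l hl
    have h5 := e1 l hl
    have h6 := hroom l (by omega)
    omega
  · have : ((g₂ 3 + (q + sg) : ℕ) : ℝ) ≤ ((gb 3 : ℕ) : ℝ) := by
      push_cast
      linarith
    have h6 : g₂ 3 + (q + sg) ≤ gb 3 := by exact_mod_cast this
    omega
  · have : (w : ℝ) ≤ W := by linarith
    exact_mod_cast this

/-- **All the numbers of a block**, from the real inequalities (margin `302 x`). -/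
theorem hbm_of (h0 : Sl 0 = 1) (h1 : Sl 1 = κ) (h2 : Sl 2 = κ) (h3 : Sl 3 = κ + 1)
    (hx1 : 1 ≤ x) (hx : 8 * x₀ ≤ x) (hx₀ : 0 ≤ x₀) (hy : 302 * (x : ℝ) ≤ y)
    (L₁ : LvH Sl x₀ Λ w₀ g₁) (L₂ : LvH Sl x₀ Λ w g₂) (Lo : LvH Sl x₀ Λ o go)
    (LW : LvH Sl x₀ Λ W g) (Lb : LvH Sl x₀ Λ b gb) (Ld : LvH Sl x₀ Λ a₂ gd)
    (L' : LvH Sl x₀ Λ a' g')
    (R : HbR κ y ((w : ℝ) - w₀) ((o : ℝ) - w) ((W : ℝ) - w) ((b : ℝ) - w) ((a₂ : ℝ) - w)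
      ((a' : ℝ) - w) s sg q q₀ q₁ Q) (hqA : (q₀ : ℝ) + y ≤ (W : ℝ) - w)
    (hroom : ∀ l ≤ 3, e₀ + gb l + (sg + x + 5) ≤ J) (ha₂ : a₂ ≤ J) (hbJ : b ≤ J) :
    ∃ Mg Mg₀ Mo Ma Mb Md, HbM J x (150 * x) e₀ s sg q q₀ q₁ Q Mg Mg₀ Mo Ma Mb Md w₀ w o W b a₂ a'
      g₁ g₂ go g gb gd g' := by
  have hκ : 1 ≤ κ := R.k1.le
  have hx0 : (1 : ℝ) ≤ x := by exact_mod_cast hx1
  have hsg : (0 : ℝ) ≤ sg := Nat.cast_nonneg sg
  have hq : (0 : ℝ) ≤ q := Nat.cast_nonneg q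
  have hy0 : (302 : ℝ) ≤ y := by linarith
  have hL1 := R.L1
  have hO1 := R.O1
  have hO2 := R.O2
  have hO3 := R.O3
  have hOA := R.OA
  have hqA' := R.qA
  have hqs := R.qs
  have hss := R.ss
  have hq1 := R.q1
  have hs0 := R.s0
  have hQB := R.QB
  have hB1 := R.B1
  have hB2 := R.B2
  have hD0 := R.D0
  have hD1 := R.D1
  have hD2 := R.D2
  have hQ2 := R.Q2
  have hE1 := R.E1
  have hE2 := R.E2
  have R' : HbR κ x ((w : ℝ) - w₀) ((o : ℝ) - w) ((W : ℝ) - w) ((b : ℝ) - w) ((a₂ : ℝ) - w)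
      ((a' : ℝ) - w) s sg q q₀ q₁ Q := ⟨by linarith, by linarith, by linarith, by linarith, hOA,
    R.q0, by linarith, by linarith, by linarith, hq1, R.q01, hD0, by linarith, by linarith,
    by linarith, by linarith, by linarith, R.Q1, hQ2, by linarith, by linarith, hs0, R.k1⟩
  have wo : w ≤ o := by
    have : (w : ℝ) ≤ o := by linarith
    exact_mod_cast this
  have oW : o ≤ W := by
    have : (o : ℝ) ≤ W := by linarith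
    exact_mod_cast this
  have Wb : W + s ≤ b := by
    have : ((W + s : ℕ) : ℝ) ≤ b := by
      push_cast
      linarith
    exact_mod_cast this
  have wa : w ≤ a₂ := by
    have : (w : ℝ) ≤ a₂ := by linarith
    exact_mod_cast this
  have ssg : s ≤ sg := by
    have : (s : ℝ) ≤ sg := by linarith
    exact_mod_cast this
  have qsg : q + sg ≤ q₁ := by exact_mod_cast hq1
  have s1q : s + 1 ≤ q₁ := by
    have : ((s + 1 : ℕ) : ℝ) ≤ q₁ := by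
      push_cast
      linarith
    exact_mod_cast this
  have q0 : q ≤ q₀ := by exact_mod_cast R.q0
  have hQ1 : q₀ ≤ Q := by exact_mod_cast R.Q1
  have q01 : q₀ ≤ q₁ := by exact_mod_cast R.q01
  have hq0R : (q : ℝ) ≤ q₀ := R.q0
  have hWw : (0 : ℝ) ≤ (W : ℝ) - w := by linarith
  have m2 : 0 ≤ (κ - 1) * ((W : ℝ) - w) := mul_nonneg (by linarith) hWw
  have m3 : 0 ≤ (κ - 1) * ((w : ℝ) - w₀) := mul_nonneg (by linarith) (by linarith)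
  have hWJ : W ≤ J := by omega
  have P := p8m_of h0 h1 h2 h3 hκ hx L₂ Lo LW Lb Ld R' hroom hWJ
  obtain ⟨Mg, hp⟩ := hpn_of (s := s) h0 h1 h2 h3 hκ hx₀ hx1 hx L₁ LW Lb L' (by omega)
    (by linarith) (by linarith) (by linarith) (by linarith)
  obtain ⟨Mg₀, hp0⟩ := hpn_of (s := 0) (b := b) h0 h1 h2 h3 hκ hx₀ hx1 hx L₁ L₂ Lb L' (by omega)
    (by
      push_cast
      linarith) (by
      push_cast
      linarith) (by
      push_cast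
      linarith) (by
      push_cast
      linarith)
  have bs := bsn_of (sg := sg) (q := q) (q₁ := q₁) h0 h1 h2 h3 hκ hx1 hx L₁ L₂ (by linarith) qsg
  have bk := bkn_of (s := s) (sg := sg) (q := q) (q₀ := q₀) (q₁ := q₁) h0 h1 h2 h3 hκ hx1 hx L₂ LW
    (wo.trans oW) q0 q01 ssg s1q (by linarith) (by linarith) (by linarith)
  obtain ⟨Mo, mo1, mo2⟩ := lv_mx (S := sg) h0 h1 h2 h3 hκ hx₀ L₂ Lo (by linarith)
  obtain ⟨Ma, ma1, ma2⟩ := lv_mx (S := sg) h0 h1 h2 h3 hκ hx₀ L₂ LW (by linarith)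
  obtain ⟨Mb, mb1, mb2⟩ := lv_mx (S := sg) h0 h1 h2 h3 hκ hx₀ L₂ Lb (by linarith)
  obtain ⟨Md, md1, md2⟩ := lv_mx (S := sg) h0 h1 h2 h3 hκ hx₀ L₂ L' (by linarith)
  have upW := lv_up h0 h1 h2 h3 hκ (x := x) (by linarith) L₂ LW (wo.trans oW)
  have upWb := lv_up h0 h1 h2 h3 hκ (x := x) (by linarith) LW Lb (by omega)
  obtain ⟨⟨⟨a1, a2⟩, a3, a4⟩, ⟨a5, a6⟩, a7, a8⟩ := L₂.all h0 h1 h2 h3
  obtain ⟨⟨⟨b1, b2⟩, b3, b4⟩, ⟨b5, b6⟩, b7, b8⟩ := LW.all h0 h1 h2 h3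
  obtain ⟨⟨⟨c1, c2⟩, c3, c4⟩, ⟨c5, c6⟩, c7, c8⟩ := Lb.all h0 h1 h2 h3
  have hrr : ∀ l ≤ 3, e₀ + g l + (sg + 5) ≤ J := fun l hl => by
    have h5 := hroom l hl
    have h6 := upWb l hl
    omega
  refine ⟨Mg, Mg₀, Mo, Ma, Mb, Md, ⟨⟨hp, bs, bk, ?_, wo, oW, Wb, ?_, ?_, ?_, ?_, wa, ha₂⟩, hp0,
    lv_up h0 h1 h2 h3 hκ (by linarith) L₂ Lo wo, lv_upj h0 h1 h2 h3 hκ (by linarith) L₂ Lo wo,
    upW, lv_upj h0 h1 h2 h3 hκ (by linarith) L₂ LW (wo.trans oW),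
    lv_up h0 h1 h2 h3 hκ (by linarith) L₂ Lb (by omega),
    lv_upj h0 h1 h2 h3 hκ (by linarith) L₂ Lb (by omega),
    lv_up h0 h1 h2 h3 hκ (by linarith) L₂ Ld wa, lv_upj h0 h1 h2 h3 hκ (by linarith) L₂ Ld wa,
    mo1, mo2, ma1, ma2, mb1, mb2, md1, md2, ?_, ?_, le_rfl, by omega⟩⟩
  · refine ⟨P.qq, P.Q1, P.Q2, P.o1, P.o2, ?_, P.a2, P.a3, P.a4, P.b1, P.b2, P.d1, P.d2, P.J1, P.J2,
      P.Wa, P.aJ⟩
    intro l hl
    rcases Nat.eq_zero_or_pos l with rfl | hl0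
    · have : ((g₂ 0 + q₀ : ℕ) : ℝ) ≤ ((g 0 : ℕ) : ℝ) := by
        push_cast
        linarith
      have h6 : g₂ 0 + q₀ ≤ g 0 := by exact_mod_cast this
      simpa [qv] using h6
    · have h6 := P.a1 l hl hl0.ne'
      simpa [qv, hl0.ne'] using h6
  · have : ((g 0 + s : ℕ) : ℝ) ≤ ((gb 0 + x : ℕ) : ℝ) := by
      push_cast
      linarith
    exact_mod_cast this
  · intro l hl
    have h5 := upW l (by omega)
    have : ((s + w + x : ℕ) : ℝ) ≤ ((W : ℕ) : ℝ) := by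
      push_cast
      linarith
    have h6 : s + w + x ≤ W := by exact_mod_cast this
    omega
  · intro j hj
    have := hrr j (by omega)
    omega
  · intro j hj
    have := hroom j (by omega)
    omega
  · intro l hl
    have h5 := P.b1 l hl
    have h6 := hroom l (by omega)
    omega
  · have h5 := P.J2
    have : ((g₂ 3 + (q + sg) : ℕ) : ℝ) ≤ ((gb 3 : ℕ) : ℝ) := by
      push_cast
      have m5 : 0 ≤ (κ - 1) * ((b : ℝ) - W) := mul_nonneg (by linarith) (by linarith)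
      linarith
    have h7 : g₂ 3 + (q + sg) ≤ gb 3 := by exact_mod_cast this
    have h6 := hroom 3 le_rfl
    omega

/-- **The numbers for slopes at most two.** -/
theorem hbn2_of (h0 : Sl 0 = 1) (h1 : Sl 1 = κ) (h2 : Sl 2 = κ) (h3 : Sl 3 = κ + 1) (hκ2 : κ ≤ 2)
    (hx1 : 1 ≤ x) (hx : 8 * x₀ ≤ x) (hy : 302 * (x : ℝ) ≤ y)
    (L₁ : LvH Sl x₀ Λ w₀ g₁) (L₂ : LvH Sl x₀ Λ w g₂) (LW : LvH Sl x₀ Λ W g)
    (R : HbR κ y ((w : ℝ) - w₀) ((o : ℝ) - w) ((W : ℝ) - w) ((b : ℝ) - w) ((a₂ : ℝ) - w)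
      ((a' : ℝ) - w) s sg q q₀ q₁ Q) : HbN2 x s sg w₀ w W g₁ g₂ g := by
  have hκ : 1 ≤ κ := R.k1.le
  have hx0 : (1 : ℝ) ≤ x := by exact_mod_cast hx1
  have hsg : (0 : ℝ) ≤ sg := Nat.cast_nonneg sg
  have hy0 : (302 : ℝ) ≤ y := by linarith
  have hL1 := R.L1
  have hO1 := R.O1
  have hOA := R.OA
  have hss := R.ss
  have hs0 := R.s0
  obtain ⟨⟨⟨f1, f2⟩, f3, f4⟩, ⟨f5, f6⟩, f7, f8⟩ := L₁.all h0 h1 h2 h3
  obtain ⟨⟨⟨a1, a2⟩, a3, a4⟩, ⟨a5, a6⟩, a7, a8⟩ := L₂.all h0 h1 h2 h3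
  obtain ⟨⟨⟨b1, b2⟩, b3, b4⟩, ⟨b5, b6⟩, b7, b8⟩ := LW.all h0 h1 h2 h3
  have m1 : 0 ≤ (2 - κ) * ((w : ℝ) - w₀) := mul_nonneg (by linarith) (by linarith)
  have m2 : 0 ≤ (2 - κ) * ((W : ℝ) - w) := mul_nonneg (by linarith) (by linarith)
  have w0w : w₀ ≤ w := by
    have : (w₀ : ℝ) ≤ w := by linarith
    exact_mod_cast this
  have wW : w ≤ W := by
    have : (w : ℝ) ≤ W := by linarith
    exact_mod_cast this
  have w0W : w₀ ≤ W := w0w.trans wW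
  refine ⟨?_, ?_, ?_, ?_, ?_⟩
  · have : ((g 3 + g₁ 0 : ℕ) : ℝ) ≤ ((g₁ 3 + g 0 + 2 * (W - w₀) + x : ℕ) : ℝ) := by
      push_cast [Nat.cast_sub w0W]
      linarith
    exact_mod_cast this
  · have : ((g 3 + g₁ 0 + (s + 300 * x) : ℕ) : ℝ) ≤ ((g₁ 3 + g 0 + 3 * (W - w₀) : ℕ) : ℝ) := by
      push_cast [Nat.cast_sub w0W]
      linarith
    exact_mod_cast this
  · have : ((g₂ 3 + g₁ 0 + (sg + 300 * x) : ℕ) : ℝ) ≤ ((g₁ 3 + g₂ 0 + 3 * (w - w₀) : ℕ) : ℝ) := by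
      push_cast [Nat.cast_sub w0w]
      linarith
    exact_mod_cast this
  · have : ((g₂ 3 + g₁ 0 : ℕ) : ℝ) ≤ ((g₁ 3 + g₂ 0 + 2 * (w - w₀) + x : ℕ) : ℝ) := by
      push_cast [Nat.cast_sub w0w]
      linarith
    exact_mod_cast this
  · have : ((g 3 + g₂ 0 + s : ℕ) : ℝ) ≤ ((g₂ 3 + g 0 + sg + 2 * (W - w) + x : ℕ) : ℝ) := by
      push_cast [Nat.cast_sub wW]
      linarith
    exact_mod_cast this

end one

/-- **The offsets of the windows `o`**, in units of the digits of the coefficients. -/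
noncomputable def oO (κ : ℝ) : ℕ → ℝ
  | 0 => 2
  | i + 1 => (κ / (κ - 1) + κ) * (oO κ i + 1)

/-- The offsets of the windows of the blocks. -/
noncomputable def oA (κ : ℝ) (i : ℕ) : ℝ := κ / (κ - 1) * oO κ i

/-- The offsets of the windows of stage 1. -/
noncomputable def oD (κ : ℝ) (i : ℕ) : ℝ := oO κ i + 1 / (2 * κ)

/-- The digits of the number. -/
noncomputable def nS (x : ℕ) (M : ℝ) : ℕ := ⌊M⌋₊ - 610 * x

/-- The digits of the rough coordinates. -/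
noncomputable def nQ (κ : ℝ) (x i : ℕ) (M : ℝ) : ℕ := ⌊κ * oO κ i * M⌋₊ - 305 * x

/-- The digits of the first coordinate. -/
noncomputable def nQ₀ (κ : ℝ) (x i : ℕ) (M : ℝ) : ℕ := max (nQ κ x i M) (⌊oA κ i * M⌋₊ - 305 * x)

/-- The last digit of the blocks. -/
noncomputable def nQb (κ : ℝ) (x i : ℕ) (M : ℝ) : ℕ := ⌊oO κ (i + 1) * M⌋₊ - 305 * x

section pl

variable {κ : ℝ}

theorem rat_ge (hκ : 1 < κ) : 1 ≤ κ / (κ - 1) := by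
  rw [le_div_iff₀ (by linarith)]
  linarith

theorem oO_ge (hκ : 1 < κ) : ∀ i, 2 ≤ oO κ i
  | 0 => le_rfl
  | i + 1 => by
    have h1 := oO_ge hκ i
    have h2 := rat_ge hκ
    have : (κ / (κ - 1) + κ) * (oO κ i + 1) ≥ 2 * 3 :=
      mul_le_mul (by linarith) (by linarith) (by norm_num) (by linarith)
    change 2 ≤ (κ / (κ - 1) + κ) * (oO κ i + 1)
    linarith

theorem oO_succ (κ : ℝ) (i : ℕ) : oO κ (i + 1) = (κ / (κ - 1) + κ) * (oO κ i + 1) := rfl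

theorem oO_mono (hκ : 1 < κ) {i j : ℕ} (hij : i ≤ j) : oO κ i ≤ oO κ j := by
  induction j, hij using Nat.le_induction with
  | base => exact le_rfl
  | succ j _ ih =>
    have h1 := oO_ge hκ j
    have h2 := rat_ge hκ
    rw [oO_succ]
    nlinarith

/-- The offsets of the windows of the blocks: the product with `κ - 1`. -/
theorem oA_mul (hκ : 1 < κ) (i : ℕ) : (κ - 1) * oA κ i = κ * oO κ i := by
  have : κ - 1 ≠ 0 := by linarith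
  unfold oA
  field_simp

theorem oA_ge (hκ : 1 < κ) (i : ℕ) : oO κ i ≤ oA κ i := by
  have h1 := oO_ge hκ i
  have h2 := rat_ge hκ
  unfold oA
  nlinarith

/-- The gap between the windows `W` and `b`. -/
theorem oB_ge (hκ : 1 < κ) (i : ℕ) : oA κ i + κ * oO κ i + 2 ≤ oO κ (i + 1) := by
  have h1 := oO_ge hκ i
  have h2 := rat_ge hκ
  rw [oO_succ]
  unfold oA
  nlinarith

theorem oB_mul (hκ : 1 < κ) (i : ℕ) : κ + (κ - 1) * oA κ i ≤ (κ - 1) * oO κ (i + 1) := by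
  have h1 := oO_ge hκ i
  have h3 : κ - 1 ≠ 0 := by linarith
  have h4 : (κ - 1) * oO κ (i + 1) = κ * (oO κ i + 1) + κ * (κ - 1) * (oO κ i + 1) := by
    rw [oO_succ]
    field_simp
  have h5 : 0 ≤ κ * (κ - 1) * (oO κ i + 1) :=
    mul_nonneg (mul_nonneg (by linarith) (by linarith)) (by linarith)
  rw [oA_mul hκ, h4]
  linarith

end pl

/-- Subtraction of naturals, in real numbers. -/
theorem sub_bd {r : ℝ} (hr : 0 ≤ r) {c : ℕ} (h : (c : ℝ) ≤ r) :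
    ((⌊r⌋₊ - c : ℕ) : ℝ) ≤ r - c ∧ r - c - 1 ≤ ((⌊r⌋₊ - c : ℕ) : ℝ) := by
  have h1 : c ≤ ⌊r⌋₊ := Nat.le_floor h
  have h2 := Nat.floor_le hr
  have h3 := Nat.lt_floor_add_one r
  rw [Nat.cast_sub h1]
  constructor <;> linarith

/-- **The real inequalities of the blocks of the plan.** The windows are known up to `ρ`. -/
theorem hbr_plan {κ M Wr ρ : ℝ} (hκ : 1 < κ) {x n i q₁ w₀ w o W b a₂ a' : ℕ} (hi : i < n)
    (hρ : 1 ≤ ρ) (hρx : κ * ρ ≤ x) (hM : 1300 * (x : ℝ) ≤ M) (e0 : (w₀ : ℝ) ≤ Wr - 2 * M + ρ)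
    (e1 : |(w : ℝ) - Wr| ≤ ρ) (e2 : |(o : ℝ) - (Wr + oO κ i * M)| ≤ ρ)
    (e3 : |(W : ℝ) - (Wr + oA κ i * M)| ≤ ρ) (e4 : |(b : ℝ) - (Wr + oO κ (i + 1) * M)| ≤ ρ)
    (e5 : |(a₂ : ℝ) - (Wr + oD κ i * M)| ≤ ρ) (e6 : Wr + oO κ n * M - ρ ≤ a')
    (hq₁ : oO κ n * M ≤ q₁) :
    HbR κ (302 * x) ((w : ℝ) - w₀) ((o : ℝ) - w) ((W : ℝ) - w) ((b : ℝ) - w) ((a₂ : ℝ) - w)
      ((a' : ℝ) - w) (nS x M) (⌊M⌋₊ : ℕ) (nQ κ x i M) (nQ₀ κ x i M) q₁ (nQb κ x i M) ∧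
    (κ ≤ 2 → (nQ₀ κ x i M : ℝ) + 302 * x ≤ (W : ℝ) - w) := by
  have hρκ : ρ ≤ κ * ρ := le_mul_of_one_le_left (by linarith) hκ.le
  have hκρ : κ ≤ κ * ρ := le_mul_of_one_le_right (by linarith) hρ
  have hx1 : (1 : ℝ) ≤ x := by linarith
  have hM0 : 0 < M := by linarith
  have hO := oO_ge hκ i
  have hAO := oA_ge hκ i
  have hOM : 2 * M ≤ oO κ i * M := mul_le_mul_of_nonneg_right hO hM0.le
  have hAM : (κ - 1) * (oA κ i * M) = κ * (oO κ i * M) := by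
    rw [← mul_assoc, oA_mul hκ]
    ring
  have hAO' : oO κ i * M ≤ oA κ i * M := mul_le_mul_of_nonneg_right hAO hM0.le
  have hB1 : oA κ i * M + κ * (oO κ i * M) + 2 * M ≤ oO κ (i + 1) * M := by
    have := mul_le_mul_of_nonneg_right (oB_ge hκ i) hM0.le
    linarith
  have hB2 : κ * M + (κ - 1) * (oA κ i * M) ≤ (κ - 1) * (oO κ (i + 1) * M) := by
    have := mul_le_mul_of_nonneg_right (oB_mul hκ i) hM0.le
    linarith
  have hn : oO κ (i + 1) * M ≤ oO κ n * M :=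
    mul_le_mul_of_nonneg_right (oO_mono hκ hi) hM0.le
  have hD : κ * (oD κ i * M) = κ * (oO κ i * M) + M / 2 := by
    have : κ ≠ 0 := by linarith
    unfold oD
    field_simp
  have hDO : oO κ i * M ≤ oD κ i * M := mul_le_mul_of_nonneg_right (by
    unfold oD
    have : 0 ≤ 1 / (2 * κ) := by positivity
    linarith) hM0.le
  obtain ⟨U, hU⟩ : ∃ U, U = oO κ i * M := ⟨_, rfl⟩
  obtain ⟨V, hV⟩ : ∃ V, V = oA κ i * M := ⟨_, rfl⟩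
  obtain ⟨Z, hZ⟩ : ∃ Z, Z = oO κ (i + 1) * M := ⟨_, rfl⟩
  obtain ⟨T, hT⟩ : ∃ T, T = oD κ i * M := ⟨_, rfl⟩
  obtain ⟨N, hN⟩ : ∃ N, N = oO κ n * M := ⟨_, rfl⟩
  rw [← hU] at e2 hOM hAM hAO' hB1 hD hDO
  rw [← hV] at e3 hAM hAO' hB1 hB2
  rw [← hZ] at e4 hB1 hB2 hn
  rw [← hT] at e5 hD hDO
  rw [← hN] at e6 hn hq₁
  have hU0 : 0 ≤ U := by linarith
  have hκU : U ≤ κ * U := le_mul_of_one_le_left hU0 hκ.le
  have hκU2 : κ * (2 * M) ≤ κ * U := mul_le_mul_of_nonneg_left hOM (by linarith)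
  have hV0 : 0 ≤ V := by linarith
  obtain ⟨s1, s2⟩ : ((nS x M : ℕ) : ℝ) ≤ M - 610 * x ∧ M - 610 * x - 1 ≤ ((nS x M : ℕ) : ℝ) := by
    have := sub_bd (r := M) hM0.le (c := 610 * x) (by
      push_cast
      linarith)
    push_cast at this
    exact this
  have g1 := Nat.floor_le hM0.le
  have g2 := Nat.lt_floor_add_one M
  obtain ⟨q1, q2⟩ : ((nQ κ x i M : ℕ) : ℝ) ≤ κ * U - 305 * x ∧
      κ * U - 305 * x - 1 ≤ ((nQ κ x i M : ℕ) : ℝ) := by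
    have := sub_bd (r := κ * oO κ i * M) (by
      rw [mul_assoc, ← hU]
      linarith) (c := 305 * x) (by
      push_cast
      rw [mul_assoc, ← hU]
      linarith)
    push_cast at this
    rw [mul_assoc, ← hU] at this
    have h5 : nQ κ x i M = ⌊κ * U⌋₊ - 305 * x := by
      rw [nQ, mul_assoc, ← hU]
    rw [h5]
    exact this
  obtain ⟨p1, p2⟩ : ((⌊oA κ i * M⌋₊ - 305 * x : ℕ) : ℝ) ≤ V - 305 * x ∧
      V - 305 * x - 1 ≤ ((⌊oA κ i * M⌋₊ - 305 * x : ℕ) : ℝ) := by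
    rw [← hV]
    have := sub_bd (r := V) hV0 (c := 305 * x) (by
      push_cast
      linarith)
    push_cast at this
    exact this
  obtain ⟨b1, b2⟩ : ((nQb κ x i M : ℕ) : ℝ) ≤ Z - 305 * x ∧
      Z - 305 * x - 1 ≤ ((nQb κ x i M : ℕ) : ℝ) := by
    rw [nQb, ← hZ]
    have := sub_bd (r := Z) (by linarith) (c := 305 * x) (by
      push_cast
      linarith)
    push_cast at this
    exact this
  have r1 : (nQ κ x i M : ℝ) ≤ nQ₀ κ x i M := by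
    have : nQ κ x i M ≤ nQ₀ κ x i M := le_max_left _ _
    exact_mod_cast this
  have r2 : (nQ₀ κ x i M : ℝ) ≤ max (κ * U - 305 * x) (V - 305 * x) := by
    unfold nQ₀
    rw [Nat.cast_max]
    exact max_le_max q1 p1
  have r3 : (nQ₀ κ x i M : ℝ) ≤ V + κ * U - 305 * x :=
    r2.trans (max_le (by linarith) (by linarith))
  have f1 := abs_le.1 e1
  have f2 := abs_le.1 e2
  have f3 := abs_le.1 e3
  have f4 := abs_le.1 e4
  have f5 := abs_le.1 e5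
  have hκ0 : 0 ≤ κ - 1 := by linarith
  have k1 : κ * (U - 2 * ρ) ≤ κ * ((o : ℝ) - w) := mul_le_mul_of_nonneg_left (by linarith)
    (by linarith)
  have k2 : (κ - 1) * (V - 2 * ρ) ≤ (κ - 1) * ((W : ℝ) - w) := mul_le_mul_of_nonneg_left
    (by linarith) hκ0
  have k3 : (κ - 1) * ((W : ℝ) - w) ≤ (κ - 1) * (V + 2 * ρ) := mul_le_mul_of_nonneg_left
    (by linarith) hκ0
  have k4 : κ * ((a₂ : ℝ) - w) ≤ κ * (T + 2 * ρ) := mul_le_mul_of_nonneg_left (by linarith)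
    (by linarith)
  have k5 : κ * (T - 2 * ρ) ≤ κ * ((a₂ : ℝ) - w) := mul_le_mul_of_nonneg_left (by linarith)
    (by linarith)
  have k6 : (κ - 1) * (Z - V - 2 * ρ) ≤ (κ - 1) * ((b : ℝ) - W) :=
    mul_le_mul_of_nonneg_left (by linarith) hκ0
  have k7 : (κ - 1) * (Z - V - 3 * ρ) ≤ (κ - 1) * ((a' : ℝ) - w - ((W : ℝ) - w)) :=
    mul_le_mul_of_nonneg_left (by linarith) hκ0
  have k9 : M ≤ κ * M := le_mul_of_one_le_left hM0.le hκ.le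
  refine ⟨⟨?_, ?_, ?_, ?_, ?_, r1, ?_, ?_, ?_, ?_, ?_, ?_, ?_, ?_, ?_, ?_, ?_, ?_, ?_, ?_, ?_,
    Nat.cast_nonneg _, hκ⟩, ?_⟩
  · linarith
  · linarith
  · linarith
  · linarith
  · -- `O ≤ A`
    have h6 : 4 * ρ * (κ - 1) ≤ (κ - 1) * (V - U) := by
      have h5 : (κ - 1) * (V - U) = U := by linarith
      rw [h5]
      linarith
    have h7 : 4 * ρ ≤ V - U := by
      rw [mul_comm] at h6
      exact le_of_mul_le_mul_left h6 (by linarith)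
    linarith
  · linarith
  · linarith
  · linarith
  · linarith
  · linarith
  · linarith
  · linarith
  · linarith
  · linarith
  · linarith
  · linarith
  · linarith
  · linarith
  · linarith
  · linarith
  · intro h2
    have h6 : κ * U ≤ V := by
      have : κ * U = (κ - 1) * V := hAM.symm
      rw [this]
      have := mul_nonneg (show 0 ≤ 2 - κ by linarith) hV0
      linarith
    have : max (κ * U - 305 * x) (V - 305 * x) = V - 305 * x := max_eq_right (by linarith)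
    rw [this] at r2
    linarith

/-- The unit of the plan: the digits of the coefficients, in units of the length of the grid. -/
noncomputable def uP (κ : ℝ) (n : ℕ) : ℝ := 1 / (2 * oO κ n)

theorem uP_pos {κ : ℝ} (hκ : 1 < κ) (n : ℕ) : 0 < uP κ n := by
  have h0 : 0 < oO κ n := by linarith [oO_ge hκ n]
  unfold uP
  positivity

theorem uP_mul {κ : ℝ} (hκ : 1 < κ) (n : ℕ) : oO κ n * uP κ n = 1 / 2 := by
  have h0 : 0 < oO κ n := by linarith [oO_ge hκ n]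
  unfold uP
  field_simp

/-- The grid point of the offset `r` from the base window, unit `u`. -/
noncomputable def gP (u : ℝ) (n₁ : ℕ) (r : ℝ) : ℕ := ⌊(1 / 4 + r * u) * n₁⌋₊

theorem gP_le {u : ℝ} {n₁ : ℕ} {r : ℝ} (hu : r * u ≤ 1 / 2) : 4 * gP u n₁ r ≤ 3 * n₁ := by
  have h1 : ((gP u n₁ r : ℕ) : ℝ) ≤ 3 / 4 * n₁ := by
    unfold gP
    rcases le_or_gt 0 ((1 / 4 + r * u) * n₁) with h | h
    · refine (Nat.floor_le h).trans (mul_le_mul_of_nonneg_right (by linarith) (Nat.cast_nonneg _))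
    · rw [Nat.floor_of_nonpos h.le]
      push_cast
      positivity
  have h2 : ((4 * gP u n₁ r : ℕ) : ℝ) ≤ ((3 * n₁ : ℕ) : ℝ) := by
    push_cast
    linarith
  exact_mod_cast h2

theorem gP_le1 {u : ℝ} {n₁ : ℕ} {r : ℝ} (hu : r * u ≤ 3 / 4) : gP u n₁ r ≤ n₁ := by
  have h1 : ((gP u n₁ r : ℕ) : ℝ) ≤ n₁ := by
    unfold gP
    rcases le_or_gt 0 ((1 / 4 + r * u) * n₁) with h | h
    · refine (Nat.floor_le h).trans ?_
      have : (1 / 4 + r * u) * n₁ ≤ 1 * n₁ :=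
        mul_le_mul_of_nonneg_right (by linarith) (Nat.cast_nonneg _)
      linarith
    · rw [Nat.floor_of_nonpos h.le]
      push_cast
      positivity
  exact_mod_cast h1

/-- The window of the grid point is near the offset. -/
theorem gP_win {u t q J : ℝ} (hu : 0 ≤ u) {n₁ v : ℕ} {r : ℝ} (hr : 0 ≤ r) (hn₁ : 0 < n₁)
    (hq : 0 ≤ q) (hJ : 0 ≤ J) (hv : |(v : ℝ) - (t + gP u n₁ r / n₁ * q) * J| ≤ 1) :
    |(v : ℝ) - ((t + q / 4) * J + r * (u * q * J))| ≤ q * J / n₁ + 1 := by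
  have hn : (0 : ℝ) < n₁ := by exact_mod_cast hn₁
  have hu : 0 ≤ r * u := mul_nonneg hr hu
  have h1 := Nat.floor_le (a := (1 / 4 + r * u) * n₁) (by positivity)
  have h2 := Nat.lt_floor_add_one ((1 / 4 + r * u) * n₁)
  have h3 : |(gP u n₁ r : ℝ) / n₁ - (1 / 4 + r * u)| ≤ 1 / n₁ := by
    have h4 : (gP u n₁ r : ℝ) / n₁ - (1 / 4 + r * u) =
        ((gP u n₁ r : ℝ) - (1 / 4 + r * u) * n₁) / n₁ := by
      field_simp
    rw [h4, abs_div, abs_of_pos hn]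
    refine div_le_div_of_nonneg_right (abs_le.2 ⟨?_, ?_⟩) hn.le
    · change -1 ≤ ((⌊(1 / 4 + r * u) * n₁⌋₊ : ℕ) : ℝ) - _
      linarith
    · change ((⌊(1 / 4 + r * u) * n₁⌋₊ : ℕ) : ℝ) - _ ≤ 1
      linarith
  have h5 : (v : ℝ) - ((t + q / 4) * J + r * (u * q * J)) =
      ((v : ℝ) - (t + gP u n₁ r / n₁ * q) * J) +
        ((gP u n₁ r : ℝ) / n₁ - (1 / 4 + r * u)) * (q * J) := by
    ring
  rw [h5]
  refine (abs_add_le _ _).trans ?_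
  rw [abs_mul, abs_of_nonneg (mul_nonneg hq hJ)]
  have h6 : |(gP u n₁ r : ℝ) / n₁ - (1 / 4 + r * u)| * (q * J) ≤ 1 / n₁ * (q * J) :=
    mul_le_mul_of_nonneg_right h3 (mul_nonneg hq hJ)
  have h7 : 1 / (n₁ : ℝ) * (q * J) = q * J / n₁ := by ring
  linarith

theorem oD_le {κ : ℝ} (hκ : 1 < κ) (i : ℕ) : oD κ i ≤ oO κ (i + 1) := by
  have h5 := oB_ge hκ i
  have h6 := oA_ge hκ i
  have h7 := oO_ge hκ i
  have h8 : 0 ≤ κ * oO κ i := mul_nonneg (by linarith) (by linarith)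
  have h9 : 1 / (2 * κ) ≤ 1 := by
    rw [div_le_one (by linarith)]
    linarith
  unfold oD
  linarith

theorem oA_le {κ : ℝ} (hκ : 1 < κ) (i : ℕ) : oA κ i ≤ oO κ (i + 1) := by
  have h5 := oB_ge hκ i
  have h7 := oO_ge hκ i
  have h8 : 0 ≤ κ * oO κ i := mul_nonneg (by linarith) (by linarith)
  linarith

/-- The offsets of the blocks, in units of the grid. -/
theorem off_le {κ u : ℝ} (hκ : 1 < κ) (hu0 : 0 ≤ u) {n i : ℕ} (hi : i < n)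
    (hu : oO κ n * u ≤ 1 / 2) : oO κ i * u ≤ 1 / 2 ∧ oA κ i * u ≤ 1 / 2 ∧
      oO κ (i + 1) * u ≤ 1 / 2 ∧ oD κ i * u ≤ 1 / 2 := by
  have hin := oO_mono hκ (show i + 1 ≤ n by omega)
  have hin' := oO_mono hκ hi.le
  have h1 := oA_le hκ i
  have h2 := oD_le hκ i
  refine ⟨?_, ?_, ?_, ?_⟩ <;>
    exact (mul_le_mul_of_nonneg_right (by linarith) hu0).trans hu

/-- **The windows of the blocks on the grid**: the real inequalities. The grid has the windows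
`v k`, `k ≤ n₁`, near `(t + k / n₁ q) J`; the unit is `u`. -/
theorem hbr_grid {κ t q u : ℝ} (hκ : 1 < κ) {J x n n₁ i q₁ : ℕ} {v : ℕ → ℕ} (hu0 : 0 < u)
    (hu : oO κ n * u ≤ 1 / 2) (hi : i < n)
    (hn₁ : 0 < n₁) (hq : 0 ≤ q) (hv : ∀ k ≤ n₁, |(v k : ℝ) - (t + k / n₁ * q) * J| ≤ 1)
    (hρx : κ * (q * J / n₁ + 1) ≤ x) (hM : 1300 * (x : ℝ) ≤ u * q * J) (hq₁ : q * J / 2 ≤ q₁) :
    HbR κ (302 * x) ((v (gP u n₁ 0) : ℝ) - v 0) ((v (gP u n₁ (oO κ i)) : ℝ) - v (gP u n₁ 0))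
      ((v (gP u n₁ (oA κ i)) : ℝ) - v (gP u n₁ 0))
      ((v (gP u n₁ (oO κ (i + 1))) : ℝ) - v (gP u n₁ 0))
      ((v (gP u n₁ (oD κ i)) : ℝ) - v (gP u n₁ 0)) ((v n₁ : ℝ) - v (gP u n₁ 0))
      (nS x (u * q * J)) (⌊u * q * J⌋₊ : ℕ) (nQ κ x i (u * q * J))
      (nQ₀ κ x i (u * q * J)) q₁ (nQb κ x i (u * q * J)) ∧
    (κ ≤ 2 → (nQ₀ κ x i (u * q * J) : ℝ) + 302 * x ≤
      (v (gP u n₁ (oA κ i)) : ℝ) - v (gP u n₁ 0)) := by
  have hJ : (0 : ℝ) ≤ J := Nat.cast_nonneg J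
  have hn : (0 : ℝ) < n₁ := by exact_mod_cast hn₁
  have hOn := oO_ge hκ n
  have hO1 : oO κ 1 ≤ oO κ n := oO_mono hκ (by omega)
  have hO1' : 4 ≤ oO κ 1 := by
    have h2 := rat_ge hκ
    rw [oO_succ]
    change 4 ≤ (κ / (κ - 1) + κ) * (2 + 1)
    linarith
  have hu4 : u ≤ 1 / 8 := by
    have : 4 * u ≤ oO κ n * u := mul_le_mul_of_nonneg_right (by linarith) hu0.le
    linarith
  have hD0 : 0 ≤ oD κ i := by
    have h7 := oO_ge hκ i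
    have : 0 ≤ 1 / (2 * κ) := by positivity
    unfold oD
    linarith
  have hA0 : 0 ≤ oA κ i := by linarith [oO_ge hκ i, oA_ge hκ i]
  obtain ⟨l1, l2, l3, l4⟩ := off_le hκ hu0.le hi hu
  have hw : ∀ r : ℝ, 0 ≤ r → r * u ≤ 1 / 2 →
      |(v (gP u n₁ r) : ℝ) - ((t + q / 4) * J + r * (u * q * J))| ≤ q * J / n₁ + 1 :=
    fun r hr hr' => gP_win hu0.le hr hn₁ hq hJ (hv _ (gP_le1 (by linarith)))
  have hqJ : 0 ≤ q * J := mul_nonneg hq hJ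
  have hρ : 1 ≤ q * J / n₁ + 1 := by
    have : 0 ≤ q * J / n₁ := by positivity
    linarith
  have hv0 := abs_le.1 (hv 0 (Nat.zero_le _))
  have hvn := abs_le.1 (hv n₁ le_rfl)
  have hnn : (n₁ : ℝ) / n₁ = 1 := div_self hn.ne'
  rw [hnn] at hvn
  push_cast at hv0
  have hμ : u * q * J ≤ 1 / 8 * (q * J) := by
    rw [mul_assoc]
    exact mul_le_mul_of_nonneg_right hu4 hqJ
  have hOM : oO κ n * (u * q * J) ≤ q * J / 2 := by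
    have := mul_le_mul_of_nonneg_right hu hqJ
    linarith
  refine hbr_plan (Wr := (t + q / 4) * J) hκ hi hρ hρx hM ?_ ?_ (hw _ (by linarith [oO_ge hκ i])
    l1) (hw _ hA0 l2) (hw _ (by linarith [oO_ge hκ (i + 1)]) l3)
    (hw _ hD0 l4) ?_ (hOM.trans hq₁)
  · have : (0 : ℝ) / n₁ = 0 := zero_div _
    rw [this] at hv0
    linarith
  · have := hw 0 le_rfl (by linarith)
    rw [zero_mul, add_zero] at this
    exact this
  · linarith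

/-- **All the numbers of the blocks of the plan on the grid**, slopes at most two: label window
`v 0`, base window `v (gP u n₁ 0)`, deep window `v n₁`. -/
theorem hbm_grid {Sl : ℕ → ℝ} {κ t q u x₀ : ℝ} {Λ : ℕ → ℝ} (h0 : Sl 0 = 1) (h1 : Sl 1 = κ)
    (h2 : Sl 2 = κ) (h3 : Sl 3 = κ + 1) (hκ : 1 < κ) (hκ2 : κ ≤ 2) {J x n n₁ i q₁ e₀ : ℕ}
    {v : ℕ → ℕ} {g : ℕ → ℕ → ℕ} (hu0 : 0 < u) (hu : oO κ n * u ≤ 1 / 2) (hi : i < n)
    (hn₁ : 0 < n₁) (hq : 0 ≤ q) (hv : ∀ k ≤ n₁, |(v k : ℝ) - (t + k / n₁ * q) * J| ≤ 1)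
    (lv : ∀ k ≤ n₁, LvH Sl x₀ Λ (v k) (g k)) (hx₀ : 0 ≤ x₀) (hx : 8 * x₀ ≤ x)
    (hρx : κ * (q * J / n₁ + 1) ≤ x) (hM : 1300 * (x : ℝ) ≤ u * q * J)
    (hq₁ : q * J / 2 ≤ q₁) (hvJ : ∀ k ≤ n₁, v k ≤ J)
    (hroom : ∀ k ≤ n₁, ∀ l ≤ 3, e₀ + g k l + (⌊u * q * J⌋₊ + x + 5) ≤ J) :
    ∃ Mg Mg₀ Mo Ma Mb Md, HbM J x (150 * x) e₀ (nS x (u * q * J)) ⌊u * q * J⌋₊
      (nQ κ x i (u * q * J)) (nQ₀ κ x i (u * q * J)) q₁ (nQb κ x i (u * q * J))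
      Mg Mg₀ Mo Ma Mb Md (v 0) (v (gP u n₁ 0)) (v (gP u n₁ (oO κ i)))
      (v (gP u n₁ (oA κ i))) (v (gP u n₁ (oO κ (i + 1)))) (v (gP u n₁ (oD κ i))) (v n₁)
      (g 0) (g (gP u n₁ 0)) (g (gP u n₁ (oO κ i))) (g (gP u n₁ (oA κ i)))
      (g (gP u n₁ (oO κ (i + 1)))) (g (gP u n₁ (oD κ i))) (g n₁) ∧
    HbN2 x (nS x (u * q * J)) ⌊u * q * J⌋₊ (v 0) (v (gP u n₁ 0))
      (v (gP u n₁ (oA κ i))) (g 0) (g (gP u n₁ 0)) (g (gP u n₁ (oA κ i))) := by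
  have hJ : (0 : ℝ) ≤ J := Nat.cast_nonneg J
  obtain ⟨R, hqA⟩ := hbr_grid hκ hu0 hu hi hn₁ hq hv hρx hM hq₁
  have hx1 : 1 ≤ x := by
    have h5 : 0 ≤ q * J / n₁ := by positivity
    have : (1 : ℝ) ≤ x := by
      have := le_mul_of_one_le_left (show (0 : ℝ) ≤ q * J / n₁ + 1 by linarith) hκ.le
      linarith
    exact_mod_cast this
  obtain ⟨l1, l2, l3, l4⟩ := off_le hκ hu0.le hi hu
  have k0 : gP u n₁ 0 ≤ n₁ := gP_le1 (by linarith)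
  have k1 : gP u n₁ (oO κ i) ≤ n₁ := gP_le1 (by linarith)
  have k2 : gP u n₁ (oA κ i) ≤ n₁ := gP_le1 (by linarith)
  have k3 : gP u n₁ (oO κ (i + 1)) ≤ n₁ := gP_le1 (by linarith)
  have k4 : gP u n₁ (oD κ i) ≤ n₁ := gP_le1 (by linarith)
  obtain ⟨Mg, Mg₀, Mo, Ma, Mb, Md, H⟩ := hbm_of (e₀ := e₀) h0 h1 h2 h3 hx1 hx hx₀ le_rfl
    (lv 0 (Nat.zero_le _)) (lv _ k0) (lv _ k1) (lv _ k2) (lv _ k3) (lv _ k4) (lv _ le_rfl) R
    (hqA hκ2) (hroom _ k3) (hvJ _ k4) (hvJ _ k3)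
  exact ⟨Mg, Mg₀, Mo, Ma, Mb, Md, H, hbn2_of h0 h1 h2 h3 hκ2 hx1 hx le_rfl (lv 0 (Nat.zero_le _))
    (lv _ k0) (lv _ k2) R⟩

/-- The number of digits: sizes. -/
theorem nS_ge {x : ℕ} {M : ℝ} (hM : 1300 * (x : ℝ) ≤ M) (hx : 1 ≤ x) : M / 2 ≤ nS x M := by
  have hx1 : (1 : ℝ) ≤ x := by exact_mod_cast hx
  have := sub_bd (r := M) (by linarith) (c := 610 * x) (by
    push_cast
    linarith)
  push_cast at this
  have h5 : M - 610 * x - 1 ≤ ((nS x M : ℕ) : ℝ) := this.2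
  linarith

/-- The digits `q + sg`. -/
theorem nQ_bd {κ M : ℝ} (hκ : 1 < κ) {x i : ℕ} (hM : 1300 * (x : ℝ) ≤ M) (hx : 1 ≤ x) :
    κ * oO κ i * M + M - 307 * x ≤ (nQ κ x i M : ℝ) + (⌊M⌋₊ : ℕ) ∧
      (nQ κ x i M : ℝ) + (⌊M⌋₊ : ℕ) ≤ κ * oO κ i * M + M ∧
      κ * oO κ i * M - 306 * x ≤ (nQ κ x i M : ℝ) ∧ (nQ κ x i M : ℝ) ≤ κ * oO κ i * M - 305 * x := by
  have hx1 : (1 : ℝ) ≤ x := by exact_mod_cast hx
  have hM0 : 0 < M := by linarith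
  have hO := oO_ge hκ i
  have h2 : 2 * M ≤ κ * oO κ i * M := mul_le_mul_of_nonneg_right (by nlinarith) hM0.le
  have := sub_bd (r := κ * oO κ i * M) (by linarith) (c := 305 * x) (by
    push_cast
    linarith)
  push_cast at this
  have h5 : κ * oO κ i * M - 305 * x - 1 ≤ ((nQ κ x i M : ℕ) : ℝ) := this.2
  have h6 : ((nQ κ x i M : ℕ) : ℝ) ≤ κ * oO κ i * M - 305 * x := this.1
  have h7 := Nat.floor_le hM0.le
  have h8 := Nat.lt_floor_add_one M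
  refine ⟨?_, ?_, ?_, h6⟩ <;> linarith

/-- The digits of the first coordinate. -/
theorem nQ₀_ge {κ M : ℝ} (hκ : 1 < κ) {x i : ℕ} (hM : 1300 * (x : ℝ) ≤ M) (hx : 1 ≤ x) :
    oA κ i * M - 306 * x ≤ (nQ₀ κ x i M : ℝ) := by
  have hx1 : (1 : ℝ) ≤ x := by exact_mod_cast hx
  have hM0 : 0 < M := by linarith
  have hO := oO_ge hκ i
  have hA := oA_ge hκ i
  have h2 : 2 * M ≤ oA κ i * M := mul_le_mul_of_nonneg_right (by linarith) hM0.le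
  have := sub_bd (r := oA κ i * M) (by linarith) (c := 305 * x) (by
    push_cast
    linarith)
  push_cast at this
  have h5 : oA κ i * M - 305 * x - 1 ≤ ((⌊oA κ i * M⌋₊ - 305 * x : ℕ) : ℝ) := this.2
  have h6 : ((⌊oA κ i * M⌋₊ - 305 * x : ℕ) : ℝ) ≤ nQ₀ κ x i M := by
    have : (⌊oA κ i * M⌋₊ - 305 * x : ℕ) ≤ nQ₀ κ x i M := le_max_right _ _
    exact_mod_cast this
  linarith

/-- **The digit `q` at the window `o`** and **the digit `q₀` at the window of the block** are near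
the levels of these windows. -/
theorem grid_near {Sl : ℕ → ℝ} {κ x₀ Wr ρ M : ℝ} {Λ : ℕ → ℝ} (h0 : Sl 0 = 1) (h1 : Sl 1 = κ)
    (h2 : Sl 2 = κ) (h3 : Sl 3 = κ + 1) (hκ : 1 < κ) {x i w o W : ℕ} {g₂ go g : ℕ → ℕ}
    (hx : 8 * x₀ ≤ x) (hρ : 1 ≤ ρ) (hρx : κ * ρ ≤ x) (hM : 1300 * (x : ℝ) ≤ M)
    (e1 : |(w : ℝ) - Wr| ≤ ρ) (e2 : |(o : ℝ) - (Wr + oO κ i * M)| ≤ ρ)
    (e3 : |(W : ℝ) - (Wr + oA κ i * M)| ≤ ρ) (L₂ : LvH Sl x₀ Λ w g₂) (Lo : LvH Sl x₀ Λ o go)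
    (LW : LvH Sl x₀ Λ W g) : (∀ l, 1 ≤ l → l ≤ 2 → go l ≤ g₂ l + nQ κ x i M + 310 * x) ∧
      g 0 ≤ g₂ 0 + nQ₀ κ x i M + 310 * x := by
  have hρκ : ρ ≤ κ * ρ := le_mul_of_one_le_left (by linarith) hκ.le
  have hx1 : (1 : ℝ) ≤ x := by linarith
  have hx1' : 1 ≤ x := by exact_mod_cast hx1
  have hQ := (nQ_bd hκ (i := i) hM hx1').2.2.1
  have hQ₀ := nQ₀_ge hκ (i := i) hM hx1'
  obtain ⟨⟨⟨a1, a2⟩, a3, a4⟩, ⟨a5, a6⟩, a7, a8⟩ := L₂.all h0 h1 h2 h3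
  obtain ⟨⟨⟨b1, b2⟩, b3, b4⟩, ⟨b5, b6⟩, b7, b8⟩ := LW.all h0 h1 h2 h3
  obtain ⟨⟨⟨f1, f2⟩, f3, f4⟩, ⟨f5, f6⟩, f7, f8⟩ := Lo.all h0 h1 h2 h3
  have c1 := abs_le.1 e1
  have c2 := abs_le.1 e2
  have c3 := abs_le.1 e3
  have k1 : κ * ((o : ℝ) - w) ≤ κ * (oO κ i * M + 2 * ρ) :=
    mul_le_mul_of_nonneg_left (by linarith) (by linarith)
  refine ⟨fun l hl hl2 => ?_, ?_⟩
  · have : ((go l : ℕ) : ℝ) ≤ ((g₂ l + nQ κ x i M + 310 * x : ℕ) : ℝ) := by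
      push_cast
      interval_cases l <;> linarith
    exact_mod_cast this
  · have : ((g 0 : ℕ) : ℝ) ≤ ((g₂ 0 + nQ₀ κ x i M + 310 * x : ℕ) : ℝ) := by
      push_cast
      linarith
    exact_mod_cast this

end Pool.D2F2
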