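import Pool.Agent.H28.D2.Hnum
import Pool.Agent.H31.D2.Gqb
import Pool.Agent.H31.D2.Ry4

/-!
# The numbers of the hop cell, slopes above two

`HbNM`, `HbM2`: as `HbN`, `HbM`, the position of the first coordinate is not known to
`q` digits at the window of the block (`P8M`). `hbm2_of`, `hbm2_grid`. `hpn_grid`: the numbers of
the windows of a block with any deeper window. `hpg_of`, `hps_of`: the numbers of the coefficients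
of order two.
-/

set_option autoImplicit false

namespace Pool.D2F2

open Finset Real MvPolynomial
open Pool.D2N (HpN BsN BkN HbN HbM HbN2)
open Pool.KPO (P8M HpG HpS BkM)

/-- The numbers of a block, slopes above two. -/
structure HbNM (J x K e₀ s sg q q₀ q₁ Q Mg w₀ w o W b a₂ a' : ℕ)
    (g₁ g₂ go g gb gd g' : ℕ → ℕ) : Prop where
  hp : HpN x s Mg w₀ W b a' g₁ g gb g'
  bs : BsN x sg q q₁ w₀ w g₁ g₂
  bk : BkM x s sg q q₀ q₁ w W g₂ g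
  p8 : P8M 3 w o W b J q₀ q sg Q g₂ go g gb gd
  wo : w ≤ o
  oW : o ≤ W
  Wb : W + s ≤ b
  y0 : g 0 + s ≤ gb 0 + x
  sg3 : ∀ l < 3, s ≤ g l
  jg : ∀ j < 4, e₀ + g j + (s + 3) ≤ J
  jb : ∀ j < 3, e₀ + gb j ≤ J
  wa : w ≤ a₂
  aJ : a₂ ≤ J

/-- **The numbers of one block**, all of them, slopes above two. `V` is a window behind all the
blocks (levels `gv`). -/
structure HbM2 (J x K e₀ s sg q q₀ q₁ Q Mg Mg₀ Mo Ma Mb Md w₀ w o W b V a₂ a' : ℕ)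
    (g₁ g₂ go g gb gv gd g' : ℕ → ℕ) : Prop where
  nm : HbNM J x K e₀ s sg q q₀ q₁ Q Mg w₀ w o W b a₂ a' g₁ g₂ go g gb gd g'
  hp0 : HpN x 0 Mg₀ w₀ w b a' g₁ g₂ gb g'
  lo : ∀ l ≤ 3, o + g₂ l ≤ go l + w + x
  lo' : ∀ l ≤ 3, ∀ j < l, go j + g₂ l ≤ go l + g₂ j + x
  lW : ∀ l ≤ 3, W + g₂ l ≤ g l + w + x
  lW' : ∀ l ≤ 3, ∀ j < l, g j + g₂ l ≤ g l + g₂ j + x
  lb : ∀ l ≤ 3, b + g₂ l ≤ gb l + w + x
  lb' : ∀ l ≤ 3, ∀ j < l, gb j + g₂ l ≤ gb l + g₂ j + x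
  ld : ∀ l ≤ 3, a₂ + g₂ l ≤ gd l + w + x
  ld' : ∀ l ≤ 3, ∀ j < l, gd j + g₂ l ≤ gd l + g₂ j + x
  Mo1 : ∀ j < 3, go j ≤ g₂ j + Mo
  Mo2 : g₂ 3 + sg + Mo ≤ go 3
  Ma1 : ∀ j < 3, g j ≤ g₂ j + Ma
  Ma2 : g₂ 3 + sg + Ma ≤ g 3
  Mb1 : ∀ j < 3, gb j ≤ g₂ j + Mb
  Mb2 : g₂ 3 + sg + Mb ≤ gb 3
  Md1 : ∀ j < 3, g' j ≤ g₂ j + Md
  Md2 : g₂ 3 + sg + Md ≤ g' 3
  j1 : ∀ l < 3, e₀ + g₂ l + (Q + 3) ≤ J
  j2 : e₀ + g₂ 3 + (q + sg) ≤ J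
  kx : 150 * x ≤ K
  kx' : 13 * (x + 1) ≤ K
  VJ : V ≤ J
  hgw : HpG x w₀ w a' a' g₁ g₂ g' g'
  hgW : HpG x w₀ W a' a' g₁ g g' g'
  hgV : HpG x w₀ V a' a' g₁ gv g' g'
  hsw : HpS x sg w₀ w V g₁ g₂ gv
  hsW : HpS x sg w₀ W V g₁ g gv

section one

variable {Sl : ℕ → ℝ} {κ x₀ y : ℝ} {Λ : ℕ → ℝ}
    {J x e₀ s sg q q₀ q₁ Q w₀ w o W b V a₂ a' : ℕ} {g₁ g₂ go g gb gv gd g' : ℕ → ℕ}

/-- **The numbers of the relation** at the window `W`. -/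
theorem hpg_of (h0 : Sl 0 = 1) (h1 : Sl 1 = κ) (h2 : Sl 2 = κ) (h3 : Sl 3 = κ + 1) (hκ : 1 ≤ κ)
    (hx1 : 1 ≤ x) (hx : 8 * x₀ ≤ x) (L₁ : LvH Sl x₀ Λ w₀ g₁)
    (LW : LvH Sl x₀ Λ W g) (Lb : LvH Sl x₀ Λ b gb) (L' : LvH Sl x₀ Λ a' g') (wW : w₀ ≤ W)
    (Wb : W ≤ b) (hb : 301 * (x : ℝ) ≤ (κ - 1) * ((b : ℝ) - W))
    (hE : 301 * (x : ℝ) ≤ (κ - 1) * ((a' : ℝ) - W)) : HpG x w₀ W b a' g₁ g gb g' := by
  have hx0 : (0 : ℝ) ≤ x := Nat.cast_nonneg x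
  have up := lv_up h0 h1 h2 h3 hκ (x := x) (by linarith) L₁ LW wW
  have upj := lv_upj h0 h1 h2 h3 hκ (x := x) (by linarith) L₁ LW wW
  have dn := lv_up h0 h1 h2 h3 hκ (x := x) (by linarith) LW Lb Wb
  have dnj := lv_upj h0 h1 h2 h3 hκ (x := x) (by linarith) LW Lb Wb
  obtain ⟨⟨⟨a1, a2⟩, a3, a4⟩, ⟨a5, a6⟩, a7, a8⟩ := L₁.all h0 h1 h2 h3
  obtain ⟨⟨⟨b1, b2⟩, b3, b4⟩, ⟨b5, b6⟩, b7, b8⟩ := LW.all h0 h1 h2 h3
  obtain ⟨⟨⟨c1, c2⟩, c3, c4⟩, ⟨c5, c6⟩, c7, c8⟩ := Lb.all h0 h1 h2 h3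
  obtain ⟨⟨⟨d1, d2⟩, d3, d4⟩, ⟨d5, d6⟩, d7, d8⟩ := L'.all h0 h1 h2 h3
  refine ⟨hx1, wW, fun l hl => up l (by omega), fun l hl => upj l (by omega),
    fun l hl => dn l (by omega), fun l hl => dnj l (by omega), ?_, ?_, ?_⟩
  · have : ((g 3 + a' + g' 0 + 300 * x : ℕ) : ℝ) ≤ ((W + g' 3 + g 0 : ℕ) : ℝ) := by
      push_cast
      linarith
    exact_mod_cast this
  · intro i hi hi2
    have : ((g 3 + a' + g' i + gb 0 + 300 * x : ℕ) : ℝ) ≤ ((W + g' 3 + gb i + g 0 : ℕ) : ℝ) := by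
      push_cast
      interval_cases i <;> linarith
    exact_mod_cast this
  · intro i hi hi2
    have : ((g 3 + g₁ i : ℕ) : ℝ) ≤ ((g₁ 3 + g i + (W - w₀) + x : ℕ) : ℝ) := by
      push_cast [Nat.cast_sub wW]
      interval_cases i <;> linarith
    exact_mod_cast this

/-- **The numbers of the second derivative** at the windows `W`, `V`. -/
theorem hps_of (h0 : Sl 0 = 1) (h1 : Sl 1 = κ) (h2 : Sl 2 = κ) (h3 : Sl 3 = κ + 1) (hκ : 1 ≤ κ)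
    (hx : 8 * x₀ ≤ x) (L₁ : LvH Sl x₀ Λ w₀ g₁) (LW : LvH Sl x₀ Λ W g) (LV : LvH Sl x₀ Λ V gv)
    (wV : W ≤ V) (hL : (s : ℝ) + 601 * x ≤ (W : ℝ) - w₀)
    (hV : (s : ℝ) + 601 * x ≤ (κ - 2) * ((V : ℝ) - W)) : HpS x s w₀ W V g₁ g gv := by
  have hx0 : (0 : ℝ) ≤ x := Nat.cast_nonneg x
  have hs0 : (0 : ℝ) ≤ s := Nat.cast_nonneg s
  have wW : w₀ ≤ W := by
    have : (w₀ : ℝ) ≤ W := by linarith
    exact_mod_cast this
  have up := lv_up h0 h1 h2 h3 hκ (x := x) (by linarith) LW LV wV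
  have upj := lv_upj h0 h1 h2 h3 hκ (x := x) (by linarith) LW LV wV
  obtain ⟨⟨⟨a1, a2⟩, a3, a4⟩, ⟨a5, a6⟩, a7, a8⟩ := L₁.all h0 h1 h2 h3
  obtain ⟨⟨⟨b1, b2⟩, b3, b4⟩, ⟨b5, b6⟩, b7, b8⟩ := LW.all h0 h1 h2 h3
  obtain ⟨⟨⟨c1, c2⟩, c3, c4⟩, ⟨c5, c6⟩, c7, c8⟩ := LV.all h0 h1 h2 h3
  refine ⟨wV, fun l hl => up l (by omega), fun l hl => upj l (by omega), ?_, ?_⟩
  · intro i hi hi2
    have : ((g 3 + g₁ i + (s + 600 * x) : ℕ) : ℝ) ≤ ((g₁ 3 + g i + 2 * (W - w₀) : ℕ) : ℝ) := by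
      push_cast [Nat.cast_sub wW]
      interval_cases i <;> linarith
    exact_mod_cast this
  · have : ((g 3 + gv 0 + 2 * (V - W) + (s + 600 * x) : ℕ) : ℝ) ≤ ((gv 3 + g 0 : ℕ) : ℝ) := by
      push_cast [Nat.cast_sub wV]
      linarith
    exact_mod_cast this

/-- **All the numbers of a block, slopes above two**, from the real inequalities. -/
theorem hbm2_of (h0 : Sl 0 = 1) (h1 : Sl 1 = κ) (h2 : Sl 2 = κ) (h3 : Sl 3 = κ + 1)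
    (hκ2 : 2 < κ) (hx1 : 1 ≤ x) (hx : 8 * x₀ ≤ x) (hx₀ : 0 ≤ x₀) (hy : 302 * (x : ℝ) ≤ y)
    (L₁ : LvH Sl x₀ Λ w₀ g₁) (L₂ : LvH Sl x₀ Λ w g₂) (Lo : LvH Sl x₀ Λ o go)
    (LW : LvH Sl x₀ Λ W g) (Lb : LvH Sl x₀ Λ b gb) (LV : LvH Sl x₀ Λ V gv)
    (Ld : LvH Sl x₀ Λ a₂ gd) (L' : LvH Sl x₀ Λ a' g')
    (R : HbR κ y ((w : ℝ) - w₀) ((o : ℝ) - w) ((W : ℝ) - w) ((b : ℝ) - w) ((a₂ : ℝ) - w)
      ((a' : ℝ) - w) s sg q q₀ q₁ Q) (hL : (sg : ℝ) + 601 * x ≤ (w : ℝ) - w₀)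
    (hV1 : (sg : ℝ) + 601 * x ≤ (κ - 2) * ((V : ℝ) - W)) (hV2 : 301 * (x : ℝ) ≤ (a' : ℝ) - V)
    (hroom : ∀ l ≤ 3, e₀ + gb l + (sg + x + 5) ≤ J) (ha₂ : a₂ ≤ J) (hbJ : b ≤ J) (hVJ : V ≤ J) :
    ∃ Mg Mg₀ Mo Ma Mb Md, HbM2 J x (150 * x) e₀ s sg q q₀ q₁ Q Mg Mg₀ Mo Ma Mb Md w₀ w o W b V a₂
      a' g₁ g₂ go g gb gv gd g' := by
  have hκ : 1 ≤ κ := R.k1.le
  have hx0 : (1 : ℝ) ≤ x := by exact_mod_cast hx1
  have hsg : (0 : ℝ) ≤ sg := Nat.cast_nonneg sg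
  have hq : (0 : ℝ) ≤ q := Nat.cast_nonneg q
  have hy0 : (302 : ℝ) ≤ y := by linarith
  have hL1 := R.L1
  have hO1 := R.O1
  have hO2 := R.O2
  have hO3 := R.O3
  have hOA := R.OA
  have hqA' := R.qA
  have hqs := R.qs
  have hss := R.ss
  have hq1 := R.q1
  have hs0 := R.s0
  have hQB := R.QB
  have hB1 := R.B1
  have hB2 := R.B2
  have hD0 := R.D0
  have hD1 := R.D1
  have hD2 := R.D2
  have hQ2 := R.Q2
  have hE1 := R.E1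
  have hE2 := R.E2
  have R' : HbR κ x ((w : ℝ) - w₀) ((o : ℝ) - w) ((W : ℝ) - w) ((b : ℝ) - w) ((a₂ : ℝ) - w)
      ((a' : ℝ) - w) s sg q q₀ q₁ Q := ⟨by linarith, by linarith, by linarith, by linarith, hOA,
    R.q0, by linarith, by linarith, by linarith, hq1, R.q01, hD0, by linarith, by linarith,
    by linarith, by linarith, by linarith, R.Q1, hQ2, by linarith, by linarith, hs0, R.k1⟩
  have wo : w ≤ o := by
    have : (w : ℝ) ≤ o := by linarith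
    exact_mod_cast this
  have oW : o ≤ W := by
    have : (o : ℝ) ≤ W := by linarith
    exact_mod_cast this
  have Wb : W + s ≤ b := by
    have : ((W + s : ℕ) : ℝ) ≤ b := by
      push_cast
      linarith
    exact_mod_cast this
  have wa : w ≤ a₂ := by
    have : (w : ℝ) ≤ a₂ := by linarith
    exact_mod_cast this
  have ssg : s ≤ sg := by
    have : (s : ℝ) ≤ sg := by linarith
    exact_mod_cast this
  have qsg : q + sg ≤ q₁ := by exact_mod_cast hq1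
  have s1q : s + 1 ≤ q₁ := by
    have : ((s + 1 : ℕ) : ℝ) ≤ q₁ := by
      push_cast
      linarith
    exact_mod_cast this
  have q0 : q ≤ q₀ := by exact_mod_cast R.q0
  have hQ1 : q₀ ≤ Q := by exact_mod_cast R.Q1
  have q01 : q₀ ≤ q₁ := by exact_mod_cast R.q01
  have hq0R : (q : ℝ) ≤ q₀ := R.q0
  have hWw : (0 : ℝ) ≤ (W : ℝ) - w := by linarith
  have m2 : 0 ≤ (κ - 1) * ((W : ℝ) - w) := mul_nonneg (by linarith) hWw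
  have m3 : 0 ≤ (κ - 1) * ((w : ℝ) - w₀) := mul_nonneg (by linarith) (by linarith)
  have hVW : (0 : ℝ) < (V : ℝ) - W := by
    by_contra hc
    have : (κ - 2) * ((V : ℝ) - W) ≤ 0 :=
      mul_nonpos_of_nonneg_of_nonpos (by linarith) (by linarith)
    linarith
  have m6 : (κ - 2) * ((V : ℝ) - W) ≤ (κ - 2) * ((V : ℝ) - w) :=
    mul_le_mul_of_nonneg_left (by linarith) (by linarith)
  have m7 : (κ - 1) * (301 * (x : ℝ)) ≤ (κ - 1) * ((a' : ℝ) - V) :=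
    mul_le_mul_of_nonneg_left hV2 (by linarith)
  have m8 : 301 * (x : ℝ) ≤ (κ - 1) * (301 * (x : ℝ)) :=
    le_mul_of_one_le_left (by positivity) (by linarith)
  have hWJ : W ≤ J := by omega
  have P := p8m_of h0 h1 h2 h3 hκ hx L₂ Lo LW Lb Ld R' hroom hWJ
  obtain ⟨Mg, hp⟩ := hpn_of (s := s) h0 h1 h2 h3 hκ hx₀ hx1 hx L₁ LW Lb L' (by omega)
    (by linarith) (by linarith) (by linarith) (by linarith)
  obtain ⟨Mg₀, hp0⟩ := hpn_of (s := 0) (b := b) h0 h1 h2 h3 hκ hx₀ hx1 hx L₁ L₂ Lb L' (by omega)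
    (by
      push_cast
      linarith) (by
      push_cast
      linarith) (by
      push_cast
      linarith) (by
      push_cast
      linarith)
  have bs := bsn_of (sg := sg) (q := q) (q₁ := q₁) h0 h1 h2 h3 hκ hx1 hx L₁ L₂ (by linarith) qsg
  obtain ⟨Mo, mo1, mo2⟩ := lv_mx (S := sg) h0 h1 h2 h3 hκ hx₀ L₂ Lo (by linarith)
  obtain ⟨Ma, ma1, ma2⟩ := lv_mx (S := sg) h0 h1 h2 h3 hκ hx₀ L₂ LW (by linarith)
  obtain ⟨Mb, mb1, mb2⟩ := lv_mx (S := sg) h0 h1 h2 h3 hκ hx₀ L₂ Lb (by linarith)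
  obtain ⟨Md, md1, md2⟩ := lv_mx (S := sg) h0 h1 h2 h3 hκ hx₀ L₂ L' (by linarith)
  have upW := lv_up h0 h1 h2 h3 hκ (x := x) (by linarith) L₂ LW (wo.trans oW)
  have upWj := lv_upj h0 h1 h2 h3 hκ (x := x) (by linarith) L₂ LW (wo.trans oW)
  have upWb := lv_up h0 h1 h2 h3 hκ (x := x) (by linarith) LW Lb (by omega)
  have hw0 : w₀ ≤ w := bs.wB
  have hwV : W ≤ V := by
    have : (W : ℝ) ≤ V := by linarith
    exact_mod_cast this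
  have hVa : V ≤ a' := by
    have : (V : ℝ) ≤ a' := by linarith
    exact_mod_cast this
  have hgw := hpg_of (b := a') (gb := g') h0 h1 h2 h3 hκ hx1 hx L₁ L₂ L' L' hw0 (by omega)
    (by linarith) (by linarith)
  have hgW := hpg_of (b := a') (gb := g') h0 h1 h2 h3 hκ hx1 hx L₁ LW L' L' (by omega) (by omega)
    (by linarith) (by linarith)
  have hgV := hpg_of (b := a') (gb := g') h0 h1 h2 h3 hκ hx1 hx L₁ LV L' L' (by omega) (by omega)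
    (by linarith) (by linarith)
  have hsw := hps_of (s := sg) h0 h1 h2 h3 hκ hx L₁ L₂ LV (by omega) (by linarith) (by linarith)
  have hsW := hps_of (s := sg) h0 h1 h2 h3 hκ hx L₁ LW LV (by omega) (by linarith) (by linarith)
  obtain ⟨⟨⟨a1, a2⟩, a3, a4⟩, ⟨a5, a6⟩, a7, a8⟩ := L₂.all h0 h1 h2 h3
  obtain ⟨⟨⟨b1, b2⟩, b3, b4⟩, ⟨b5, b6⟩, b7, b8⟩ := LW.all h0 h1 h2 h3
  obtain ⟨⟨⟨c1, c2⟩, c3, c4⟩, ⟨c5, c6⟩, c7, c8⟩ := Lb.all h0 h1 h2 h3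
  have hss' : (s : ℝ) ≤ sg := by linarith
  have hsq' : (s : ℝ) + 1 ≤ q₁ := by linarith
  have hwW : w ≤ W := wo.trans oW
  have bk : BkM x s sg q q₀ q₁ w W g₂ g := by
    refine ⟨hx1, hwW, q0, q01, fun l hl => upW l (by omega), fun l hl => upWj l (by omega), ?_, ?_,
      ?_, ?_, ?_⟩
    · intro i hi hi2
      have : ((g 3 + g₂ i + s : ℕ) : ℝ) ≤ ((g₂ 3 + g i + sg + (W - w) + x : ℕ) : ℝ) := by
        push_cast [Nat.cast_sub hwW]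
        interval_cases i <;> linarith
      exact_mod_cast this
    · have : ((g 0 + w + 1 + s : ℕ) : ℝ) ≤ ((W + g₂ 0 + q₁ + x : ℕ) : ℝ) := by
        push_cast
        linarith
      exact_mod_cast this
    · have : ((s + g 3 + 2 : ℕ) : ℝ) ≤ ((g₂ 3 + q + sg + 2 * (W - w) : ℕ) : ℝ) := by
        push_cast [Nat.cast_sub hwW]
        linarith
      exact_mod_cast this
    · intro i hi hi2
      have : ((g₂ i + q : ℕ) : ℝ) ≤ ((g i : ℕ) : ℝ) := by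
        push_cast
        interval_cases i
        · exact absurd rfl hi2
        · linarith
        · linarith
      exact_mod_cast this
    · intro i hi hi2
      have : ((g₂ i + q + W : ℕ) : ℝ) ≤ ((g i + w : ℕ) : ℝ) := by
        push_cast
        interval_cases i
        · exact absurd rfl hi2
        · linarith
        · linarith
      exact_mod_cast this
  have hrr : ∀ l ≤ 3, e₀ + g l + (sg + 5) ≤ J := fun l hl => by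
    have h5 := hroom l hl
    have h6 := upWb l hl
    omega
  refine ⟨Mg, Mg₀, Mo, Ma, Mb, Md, ⟨⟨hp, bs, bk, P, wo, oW, Wb, ?_, ?_, ?_, ?_, wa, ha₂⟩, hp0,
    lv_up h0 h1 h2 h3 hκ (by linarith) L₂ Lo wo, lv_upj h0 h1 h2 h3 hκ (by linarith) L₂ Lo wo,
    upW, upWj, lv_up h0 h1 h2 h3 hκ (by linarith) L₂ Lb (by omega),
    lv_upj h0 h1 h2 h3 hκ (by linarith) L₂ Lb (by omega),
    lv_up h0 h1 h2 h3 hκ (by linarith) L₂ Ld wa, lv_upj h0 h1 h2 h3 hκ (by linarith) L₂ Ld wa,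
    mo1, mo2, ma1, ma2, mb1, mb2, md1, md2, ?_, ?_, le_rfl, by omega, hVJ, hgw, hgW, hgV, hsw,
    hsW⟩⟩
  · have : ((g 0 + s : ℕ) : ℝ) ≤ ((gb 0 + x : ℕ) : ℝ) := by
      push_cast
      linarith
    exact_mod_cast this
  · intro l hl
    have h5 := upW l (by omega)
    have : ((s + w + x : ℕ) : ℝ) ≤ ((W : ℕ) : ℝ) := by
      push_cast
      linarith
    have h6 : s + w + x ≤ W := by exact_mod_cast this
    omega
  · intro j hj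
    have := hrr j (by omega)
    omega
  · intro j hj
    have := hroom j (by omega)
    omega
  · intro l hl
    have h5 := P.b1 l hl
    have h6 := hroom l (by omega)
    omega
  · have : ((g₂ 3 + (q + sg) : ℕ) : ℝ) ≤ ((gb 3 : ℕ) : ℝ) := by
      push_cast
      have m5 : 0 ≤ (κ - 1) * ((b : ℝ) - W) := mul_nonneg (by linarith) (by linarith)
      linarith
    have h7 : g₂ 3 + (q + sg) ≤ gb 3 := by exact_mod_cast this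
    have h6 := hroom 3 le_rfl
    omega

end one

/-- The grid point behind all the blocks. -/
noncomputable def gV (n₁ : ℕ) : ℕ := ⌊(7 / 8 : ℝ) * n₁⌋₊

theorem gV_le (n₁ : ℕ) : gV n₁ ≤ n₁ := by
  have h1 : ((gV n₁ : ℕ) : ℝ) ≤ n₁ := by
    unfold gV
    refine (Nat.floor_le (by positivity)).trans ?_
    have : (0 : ℝ) ≤ n₁ := Nat.cast_nonneg _
    linarith
  exact_mod_cast h1

theorem gV_win {t q J : ℝ} {n₁ v : ℕ} (hn₁ : 0 < n₁)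
    (hq : 0 ≤ q) (hJ : 0 ≤ J) (hv : |(v : ℝ) - (t + gV n₁ / n₁ * q) * J| ≤ 1) :
    |(v : ℝ) - (t + 7 / 8 * q) * J| ≤ q * J / n₁ + 1 := by
  have hn : (0 : ℝ) < n₁ := by exact_mod_cast hn₁
  have h1 := Nat.floor_le (a := (7 / 8 : ℝ) * n₁) (by positivity)
  have h2 := Nat.lt_floor_add_one ((7 / 8 : ℝ) * n₁)
  have h3 : |(gV n₁ : ℝ) / n₁ - 7 / 8| ≤ 1 / n₁ := by
    have h4 : (gV n₁ : ℝ) / n₁ - 7 / 8 = ((gV n₁ : ℝ) - 7 / 8 * n₁) / n₁ := by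
      field_simp
    rw [h4, abs_div, abs_of_pos hn]
    refine div_le_div_of_nonneg_right (abs_le.2 ⟨?_, ?_⟩) hn.le
    · change -1 ≤ ((⌊(7 / 8 : ℝ) * n₁⌋₊ : ℕ) : ℝ) - _
      linarith
    · change ((⌊(7 / 8 : ℝ) * n₁⌋₊ : ℕ) : ℝ) - _ ≤ 1
      linarith
  have h5 : (v : ℝ) - (t + 7 / 8 * q) * J =
      ((v : ℝ) - (t + gV n₁ / n₁ * q) * J) + ((gV n₁ : ℝ) / n₁ - 7 / 8) * (q * J) := by
    ring
  rw [h5]
  refine (abs_add_le _ _).trans ?_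
  rw [abs_mul, abs_of_nonneg (mul_nonneg hq hJ)]
  have h6 : |(gV n₁ : ℝ) / n₁ - 7 / 8| * (q * J) ≤ 1 / n₁ * (q * J) :=
    mul_le_mul_of_nonneg_right h3 (mul_nonneg hq hJ)
  have h7 : 1 / (n₁ : ℝ) * (q * J) = q * J / n₁ := by ring
  linarith

section grd

variable {Sl : ℕ → ℝ} {κ t q u x₀ : ℝ} {Λ : ℕ → ℝ} {J x n n₁ i q₁ e₀ : ℕ}
    {v : ℕ → ℕ} {g : ℕ → ℕ → ℕ}

/-- **All the numbers of the blocks of the plan on the grid**, slopes above two: label window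
`v 0`, base window `v (gP u n₁ 0)`, window `V` at `gV n₁`, deep window `v n₁`. -/
theorem hbm2_grid (h0 : Sl 0 = 1) (h1 : Sl 1 = κ) (h2 : Sl 2 = κ) (h3 : Sl 3 = κ + 1)
    (hκ2 : 2 < κ) (hu0 : 0 < u) (hu : oO κ n * u ≤ 1 / 2) (huκ : 16 * u ≤ κ - 2) (hi : i < n)
    (hn₁ : 0 < n₁) (hq : 0 ≤ q) (hv : ∀ k ≤ n₁, |(v k : ℝ) - (t + k / n₁ * q) * J| ≤ 1)
    (lv : ∀ k ≤ n₁, LvH Sl x₀ Λ (v k) (g k)) (hx₀ : 0 ≤ x₀) (hx : 8 * x₀ ≤ x)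
    (hρx : κ * (q * J / n₁ + 1) ≤ x) (hM : 1300 * (x : ℝ) ≤ u * q * J)
    (hq₁ : q * J / 2 ≤ q₁) (hvJ : ∀ k ≤ n₁, v k ≤ J)
    (hroom : ∀ k ≤ n₁, ∀ l ≤ 3, e₀ + g k l + (⌊u * q * J⌋₊ + x + 5) ≤ J) :
    ∃ Mg Mg₀ Mo Ma Mb Md, HbM2 J x (150 * x) e₀ (nS x (u * q * J)) ⌊u * q * J⌋₊
      (nQ κ x i (u * q * J)) (nQ₀ κ x i (u * q * J)) q₁ (nQb κ x i (u * q * J))
      Mg Mg₀ Mo Ma Mb Md (v 0) (v (gP u n₁ 0)) (v (gP u n₁ (oO κ i)))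
      (v (gP u n₁ (oA κ i))) (v (gP u n₁ (oO κ (i + 1)))) (v (gV n₁)) (v (gP u n₁ (oD κ i)))
      (v n₁) (g 0) (g (gP u n₁ 0)) (g (gP u n₁ (oO κ i))) (g (gP u n₁ (oA κ i)))
      (g (gP u n₁ (oO κ (i + 1)))) (g (gV n₁)) (g (gP u n₁ (oD κ i))) (g n₁) := by
  have hκ : 1 < κ := by linarith
  have hJ : (0 : ℝ) ≤ J := Nat.cast_nonneg J
  have hqJ : 0 ≤ q * J := mul_nonneg hq hJ
  obtain ⟨R, hqA⟩ := hbr_grid hκ hu0 hu hi hn₁ hq hv hρx hM hq₁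
  have hρ0 : 0 ≤ q * J / n₁ := by positivity
  have hρκ : q * J / n₁ + 1 ≤ κ * (q * J / n₁ + 1) :=
    le_mul_of_one_le_left (by linarith) hκ.le
  have hx1R : (1 : ℝ) ≤ x := by linarith
  have hx1 : 1 ≤ x := by exact_mod_cast hx1R
  obtain ⟨l1, l2, l3, l4⟩ := off_le hκ hu0.le hi hu
  have k0 : gP u n₁ 0 ≤ n₁ := gP_le1 (by linarith)
  have k1 : gP u n₁ (oO κ i) ≤ n₁ := gP_le1 (by linarith)
  have k2 : gP u n₁ (oA κ i) ≤ n₁ := gP_le1 (by linarith)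
  have k3 : gP u n₁ (oO κ (i + 1)) ≤ n₁ := gP_le1 (by linarith)
  have k4 : gP u n₁ (oD κ i) ≤ n₁ := gP_le1 (by linarith)
  have hA0 : 0 ≤ oA κ i := by linarith [oO_ge hκ i, oA_ge hκ i]
  have w0 := gP_win hu0.le le_rfl hn₁ hq hJ (hv _ k0)
  have w2 := gP_win hu0.le hA0 hn₁ hq hJ (hv _ k2)
  have wV := gV_win hn₁ hq hJ (hv _ (gV_le n₁))
  have hv0 := abs_le.1 (hv 0 (Nat.zero_le _))
  have hvn := abs_le.1 (hv n₁ le_rfl)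
  have hn : (0 : ℝ) < n₁ := by exact_mod_cast hn₁
  have hnn : (n₁ : ℝ) / n₁ = 1 := div_self hn.ne'
  rw [hnn] at hvn
  push_cast at hv0
  rw [zero_div] at hv0
  rw [zero_mul, add_zero] at w0
  have a0 := abs_le.1 w0
  have a2 := abs_le.1 w2
  have aV := abs_le.1 wV
  have hM1 : u * q * J ≤ (κ - 2) / 16 * (q * J) := by
    rw [mul_assoc]
    exact mul_le_mul_of_nonneg_right (by linarith) hqJ
  have hu8 : u * q * J ≤ 1 / 8 * (q * J) := by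
    have h4 : 4 ≤ oO κ n := by
      have h5 : oO κ 1 ≤ oO κ n := oO_mono hκ (by omega)
      have h6 := rat_ge hκ
      rw [oO_succ] at h5
      change (κ / (κ - 1) + κ) * (2 + 1) ≤ oO κ n at h5
      linarith
    have h7 : 4 * u ≤ oO κ n * u := mul_le_mul_of_nonneg_right h4 hu0.le
    rw [mul_assoc]
    exact mul_le_mul_of_nonneg_right (by linarith) hqJ
  have hAM : oA κ i * (u * q * J) ≤ 1 / 2 * (q * J) := by
    have := mul_le_mul_of_nonneg_right l2 hqJ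
    linarith
  have hsg := Nat.floor_le (show 0 ≤ u * q * J by positivity)
  obtain ⟨ρ, hρ⟩ : ∃ ρ, ρ = q * J / n₁ + 1 := ⟨_, rfl⟩
  rw [← hρ] at a0 a2 aV hρx hρκ
  have e1 : (κ - 2) * (1 / 8 * (q * J) - 2 * ρ) ≤
      (κ - 2) * ((v (gV n₁) : ℝ) - v (gP u n₁ (oA κ i))) :=
    mul_le_mul_of_nonneg_left (by linarith) (by linarith)
  have e2 : (κ - 2) * ρ ≤ κ * ρ := mul_le_mul_of_nonneg_right (by linarith) (by linarith)
  exact hbm2_of (e₀ := e₀) h0 h1 h2 h3 hκ2 hx1 hx hx₀ le_rfl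
    (lv 0 (Nat.zero_le _)) (lv _ k0) (lv _ k1) (lv _ k2) (lv _ k3) (lv _ (gV_le n₁)) (lv _ k4)
    (lv _ le_rfl) R (by linarith) (by linarith) (by linarith) (hroom _ k3) (hvJ _ k4) (hvJ _ k3)
    (hvJ _ (gV_le n₁))

/-- **The numbers of the windows of a block with any deeper window** on the grid: offset `r` of the
deeper window from the window of the block. -/
theorem hpn_grid (h0 : Sl 0 = 1) (h1 : Sl 1 = κ) (h2 : Sl 2 = κ) (h3 : Sl 3 = κ + 1)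
    (hκ : 1 < κ) (hu0 : 0 < u) {r : ℝ} {s : ℕ} (hr : 0 ≤ r) (hru : (oA κ i + r) * u ≤ 1 / 2)
    (hn₁ : 0 < n₁) (hq : 0 ≤ q) (hv : ∀ k ≤ n₁, |(v k : ℝ) - (t + k / n₁ * q) * J| ≤ 1)
    (lv : ∀ k ≤ n₁, LvH Sl x₀ Λ (v k) (g k)) (hx₀ : 0 ≤ x₀) (hx : 8 * x₀ ≤ x)
    (hρx : κ * (q * J / n₁ + 1) ≤ x)
    (hrs : (s : ℝ) + 310 * x ≤ (κ - 1) * (r * (u * q * J)))
    (hs1 : (s : ℝ) + 310 * x ≤ q * J / 4) (hs2 : (s : ℝ) + 310 * x ≤ (κ - 1) * (q * J / 4)) :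
    gP u n₁ (oA κ i + r) ≤ n₁ ∧
      (v (gP u n₁ (oA κ i)) : ℝ) + r * (u * q * J) ≤ v (gP u n₁ (oA κ i + r)) + 2 * x ∧
      (v (gP u n₁ (oA κ i + r)) : ℝ) ≤ v (gP u n₁ (oA κ i)) + r * (u * q * J) + 2 * x ∧
      ∃ Mg, HpN x s Mg (v 0) (v (gP u n₁ (oA κ i))) (v (gP u n₁ (oA κ i + r))) (v n₁) (g 0)
        (g (gP u n₁ (oA κ i))) (g (gP u n₁ (oA κ i + r))) (g n₁) := by
  have hJ : (0 : ℝ) ≤ J := Nat.cast_nonneg J
  have hqJ : 0 ≤ q * J := mul_nonneg hq hJ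
  have hρ0 : 0 ≤ q * J / n₁ := by positivity
  have hρκ : q * J / n₁ + 1 ≤ κ * (q * J / n₁ + 1) :=
    le_mul_of_one_le_left (by linarith) hκ.le
  have hx1R : (1 : ℝ) ≤ x := by linarith
  have hx1 : 1 ≤ x := by exact_mod_cast hx1R
  have hA0 : 0 ≤ oA κ i := by linarith [oO_ge hκ i, oA_ge hκ i]
  have l2 : oA κ i * u ≤ 1 / 2 := (mul_le_mul_of_nonneg_right (by linarith) hu0.le).trans hru
  have k2 : gP u n₁ (oA κ i) ≤ n₁ := gP_le1 (by linarith)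
  have k3 : gP u n₁ (oA κ i + r) ≤ n₁ := gP_le1 (by linarith)
  have w2 := gP_win hu0.le hA0 hn₁ hq hJ (hv _ k2)
  have w3 := gP_win hu0.le (add_nonneg hA0 hr) hn₁ hq hJ (hv _ k3)
  have hv0 := abs_le.1 (hv 0 (Nat.zero_le _))
  have hvn := abs_le.1 (hv n₁ le_rfl)
  have hn : (0 : ℝ) < n₁ := by exact_mod_cast hn₁
  have hnn : (n₁ : ℝ) / n₁ = 1 := div_self hn.ne'
  rw [hnn] at hvn
  push_cast at hv0
  rw [zero_div] at hv0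
  have a2 := abs_le.1 w2
  have a3 := abs_le.1 w3
  obtain ⟨ρ, hρ⟩ : ∃ ρ, ρ = q * J / n₁ + 1 := ⟨_, rfl⟩
  rw [← hρ] at a2 a3 hρx hρκ
  have hAM : oA κ i * (u * q * J) ≤ 1 / 2 * (q * J) := by
    have := mul_le_mul_of_nonneg_right l2 hqJ
    linarith
  have hAM0 : 0 ≤ oA κ i * (u * q * J) := mul_nonneg hA0 (by positivity)
  have e1 : (κ - 1) * (r * (u * q * J) - 2 * ρ) ≤
      (κ - 1) * ((v (gP u n₁ (oA κ i + r)) : ℝ) - v (gP u n₁ (oA κ i))) :=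
    mul_le_mul_of_nonneg_left (by linarith) (by linarith)
  have e2 : (κ - 1) * (q * J / 4 - 2 * ρ) ≤ (κ - 1) * ((v n₁ : ℝ) - v (gP u n₁ (oA κ i))) :=
    mul_le_mul_of_nonneg_left (by linarith) (by linarith)
  have hk1 := gP_le (u := u) (n₁ := n₁) (r := oA κ i + r) hru
  have hWc : v (gP u n₁ (oA κ i)) ≤ v (gP u n₁ (oA κ i + r)) := by
    have e3 : 0 < (v (gP u n₁ (oA κ i + r)) : ℝ) - v (gP u n₁ (oA κ i)) := by
      by_contra hc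
      have : (κ - 1) * ((v (gP u n₁ (oA κ i + r)) : ℝ) - v (gP u n₁ (oA κ i))) ≤ 0 :=
        mul_nonpos_of_nonneg_of_nonpos (by linarith) (by linarith)
      have hs0 : (0 : ℝ) ≤ s := Nat.cast_nonneg s
      linarith
    have : (v (gP u n₁ (oA κ i)) : ℝ) ≤ v (gP u n₁ (oA κ i + r)) := by linarith
    exact_mod_cast this
  refine ⟨k3, by linarith, by linarith, hpn_of (s := s) h0 h1 h2 h3 hκ.le hx₀ hx1 hx
    (lv 0 (Nat.zero_le _)) (lv _ k2) (lv _ k3) (lv _ le_rfl) hWc (by linarith) (by linarith)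
    (by linarith) (by linarith)⟩

end grd

section tht

variable {Sl : ℕ → ℝ} {κ t q u x₀ : ℝ} {Λ : ℕ → ℝ} {J x n n₁ i q₁ : ℕ}
    {v : ℕ → ℕ} {g : ℕ → ℕ → ℕ}

/-- **The numbers of the two scales** of a block, slopes above two: windows `V₁ = W + th₁`,
`V₂ = W + th₂` before `b`. -/
structure HbT (J x q₀ s s₁ th₁ x₁ th₂ x₂ R Mg₁ Mg₂ w₀ W V₁ V₂ b a' : ℕ) (Sg : ℝ)
    (g₁ g₂ g gv₁ gv₂ gb g' : ℕ → ℕ) : Prop where
  hp1 : HpN x s₁ Mg₁ w₀ W V₁ a' g₁ g gv₁ g'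
  hp2 : HpN x s Mg₂ w₀ W V₂ a' g₁ g gv₂ g'
  v1 : V₁ = W + th₁
  v2 : V₂ = W + th₂
  Vb : V₂ ≤ b
  y0 : g 0 + th₂ ≤ gb 0 + x
  t1 : 1 ≤ th₁
  t12 : th₁ ≤ th₂
  sc1 : th₁ + x₁ + Sg ≤ s₁
  sc2 : th₂ + x₂ + (th₁ + x₁) + Sg ≤ s
  s12 : s₁ ≤ s
  R0 : g₂ 0 + q₀ ≤ g 0 + R
  Rt : th₂ ≤ R
  Rb : W + R ≤ b
  R1 : g 0 + R ≤ gb 0 + x

/-- **The two scales on the grid**: `T₁ < T₂` digits, activity intervals of `X` digits behind them.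
The unit is `(κ - 1) T₂`. -/
theorem hbt_grid (h0 : Sl 0 = 1) (h1 : Sl 1 = κ) (h2 : Sl 2 = κ) (h3 : Sl 3 = κ + 1)
    (hκ2 : 2 < κ) (hu0 : 0 < u) (hu : oO κ n * u ≤ 1 / 2) (hi : i < n)
    (hn₁ : 0 < n₁) (hq : 0 ≤ q) (hv : ∀ k ≤ n₁, |(v k : ℝ) - (t + k / n₁ * q) * J| ≤ 1)
    (lv : ∀ k ≤ n₁, LvH Sl x₀ Λ (v k) (g k)) (hx₀ : 0 ≤ x₀) (hx : 8 * x₀ ≤ x)
    (hM : 1300 * (x : ℝ) ≤ u * q * J) {T₁ T₂ X Sg ρ : ℝ} (hρ : q * J / n₁ + 1 ≤ ρ)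
    (hρx : κ * ρ ≤ x) (hMT : u * q * J = (κ - 1) * T₂) (hX : 0 ≤ X) (hSg : 0 ≤ Sg)
    (hT1 : X + Sg + 400 * x ≤ (κ - 2) * T₁) (hT10 : 10 * (x : ℝ) ≤ T₁)
    (hT2 : T₁ + 2 * X + Sg + 700 * x ≤ (κ - 2) * T₂) (hT12 : T₁ + 310 * x ≤ T₂) :
    gP u n₁ (oA κ i + (T₁ - 4 * ρ) / (u * q * J)) ≤ n₁ ∧
    gP u n₁ (oA κ i + (T₂ - 4 * ρ) / (u * q * J)) ≤ n₁ ∧
    ∃ s₁ th₁ x₁ th₂ x₂ R Mg₁ Mg₂,
      HbT J x (nQ₀ κ x i (u * q * J)) (nS x (u * q * J)) s₁ th₁ x₁ th₂ x₂ R Mg₁ Mg₂ (v 0)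
        (v (gP u n₁ (oA κ i))) (v (gP u n₁ (oA κ i + (T₁ - 4 * ρ) / (u * q * J))))
        (v (gP u n₁ (oA κ i + (T₂ - 4 * ρ) / (u * q * J)))) (v (gP u n₁ (oO κ (i + 1))))
        (v n₁) Sg (g 0) (g (gP u n₁ 0)) (g (gP u n₁ (oA κ i)))
        (g (gP u n₁ (oA κ i + (T₁ - 4 * ρ) / (u * q * J))))
        (g (gP u n₁ (oA κ i + (T₂ - 4 * ρ) / (u * q * J)))) (g (gP u n₁ (oO κ (i + 1))))
        (g n₁) ∧
      (th₁ : ℝ) + ρ ≤ T₁ ∧ T₁ + X + ρ ≤ (th₁ : ℝ) + x₁ ∧ (th₂ : ℝ) + ρ ≤ T₂ ∧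
      T₂ + X + ρ ≤ (th₂ : ℝ) + x₂ ∧ (x₁ : ℝ) ≤ X + 9 * ρ + 1 ∧ (x₂ : ℝ) ≤ X + 9 * ρ + 1 := by
  have hκ : 1 < κ := by linarith
  have hJ : (0 : ℝ) ≤ J := Nat.cast_nonneg J
  have hqJ : 0 ≤ q * J := mul_nonneg hq hJ
  have hρ0 : 0 ≤ q * J / n₁ := by positivity
  have hρ1 : 1 ≤ ρ := by linarith
  have hρκ : ρ ≤ κ * ρ := le_mul_of_one_le_left (by linarith) hκ.le
  have hκρ : κ ≤ κ * ρ := le_mul_of_one_le_right (by linarith) hρ1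
  have hρx' : κ * (q * J / n₁ + 1) ≤ x :=
    (mul_le_mul_of_nonneg_left hρ (by linarith)).trans hρx
  have hx1R : (1 : ℝ) ≤ x := by linarith
  have hx1 : 1 ≤ x := by exact_mod_cast hx1R
  have hM0 : 0 < u * q * J := by linarith
  have hA0 : 0 ≤ oA κ i := by linarith [oO_ge hκ i, oA_ge hκ i]
  have hO2 := oO_ge hκ i
  obtain ⟨l1, l2, l3, l4⟩ := off_le hκ hu0.le hi hu
  have hB1 := oB_ge hκ i
  -- the scales, in units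
  have hκO : κ * 2 ≤ κ * oO κ i := mul_le_mul_of_nonneg_left hO2 (by linarith)
  obtain ⟨M, hMd⟩ : ∃ M, M = u * q * J := ⟨_, rfl⟩
  rw [← hMd] at hM hMT hM0 ⊢
  have hT2M : T₂ ≤ M := by
    have h5 : 0 ≤ (κ - 2) * T₂ := mul_nonneg (by linarith) (by linarith)
    linarith
  obtain ⟨r₁, hr₁⟩ : ∃ r₁, r₁ = (T₁ - 4 * ρ) / M := ⟨_, rfl⟩
  obtain ⟨r₂, hr₂⟩ : ∃ r₂, r₂ = (T₂ - 4 * ρ) / M := ⟨_, rfl⟩
  have e1 : r₁ * M = T₁ - 4 * ρ := by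
    rw [hr₁]
    field_simp
  have e2 : r₂ * M = T₂ - 4 * ρ := by
    rw [hr₂]
    field_simp
  rw [← hr₁, ← hr₂]
  have hr10 : 0 ≤ r₁ := by
    rw [hr₁]
    exact div_nonneg (by linarith) hM0.le
  have hr20 : 0 ≤ r₂ := by
    rw [hr₂]
    exact div_nonneg (by linarith) hM0.le
  have hr11 : r₁ ≤ 1 := by
    rw [hr₁, div_le_one hM0]
    linarith
  have hr21 : r₂ ≤ 1 := by
    rw [hr₂, div_le_one hM0]
    linarith
  have hAr : ∀ r : ℝ, r ≤ 1 → (oA κ i + r) * u ≤ 1 / 2 := fun r hr =>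
    (mul_le_mul_of_nonneg_right (by linarith) hu0.le).trans l3
  have k1 : gP u n₁ (oA κ i + r₁) ≤ n₁ := gP_le1 (by linarith [hAr r₁ hr11])
  have k2 : gP u n₁ (oA κ i + r₂) ≤ n₁ := gP_le1 (by linarith [hAr r₂ hr21])
  have kA : gP u n₁ (oA κ i) ≤ n₁ := gP_le1 (by linarith)
  have kB : gP u n₁ (oO κ (i + 1)) ≤ n₁ := gP_le1 (by linarith)
  have k0 : gP u n₁ 0 ≤ n₁ := gP_le1 (by linarith)
  have w0 := abs_le.1 (gP_win hu0.le le_rfl hn₁ hq hJ (hv _ k0))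
  have wA := abs_le.1 (gP_win hu0.le hA0 hn₁ hq hJ (hv _ kA))
  have w1 := abs_le.1 (gP_win hu0.le (add_nonneg hA0 hr10) hn₁ hq hJ (hv _ k1))
  have w2 := abs_le.1 (gP_win hu0.le (add_nonneg hA0 hr20) hn₁ hq hJ (hv _ k2))
  have wB := abs_le.1 (gP_win hu0.le (show 0 ≤ oO κ (i + 1) by linarith [oO_ge hκ (i + 1)]) hn₁
    hq hJ (hv _ kB))
  rw [← hMd] at w0 wA w1 w2 wB
  have hv0 := abs_le.1 (hv 0 (Nat.zero_le _))
  have hvn := abs_le.1 (hv n₁ le_rfl)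
  have hn : (0 : ℝ) < n₁ := by exact_mod_cast hn₁
  have hnn : (n₁ : ℝ) / n₁ = 1 := div_self hn.ne'
  rw [hnn] at hvn
  push_cast at hv0
  rw [zero_div] at hv0
  have hAM : oA κ i * M ≤ 1 / 2 * (q * J) := by
    have := mul_le_mul_of_nonneg_right l2 hqJ
    rw [hMd]
    linarith
  have hAM0 : 0 ≤ oA κ i * M := mul_nonneg hA0 hM0.le
  have hu8 : M ≤ 1 / 8 * (q * J) := by
    have h4 : 4 ≤ oO κ n := by
      have h5 : oO κ 1 ≤ oO κ n := oO_mono hκ (by omega)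
      have h6 := rat_ge hκ
      rw [oO_succ] at h5
      change (κ / (κ - 1) + κ) * (2 + 1) ≤ oO κ n at h5
      linarith
    have h7 : 4 * u ≤ oO κ n * u := mul_le_mul_of_nonneg_right h4 hu0.le
    rw [hMd, mul_assoc]
    exact mul_le_mul_of_nonneg_right (by linarith) hqJ
  have hOM : oA κ i * M + (κ * oO κ i + 2) * M ≤ oO κ (i + 1) * M := by
    have := mul_le_mul_of_nonneg_right hB1 hM0.le
    linarith
  have hOM2 : 4 * M ≤ (κ * oO κ i + 2) * M := mul_le_mul_of_nonneg_right (by linarith) hM0.le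
  -- the windows
  obtain ⟨W, hW⟩ : ∃ W, W = v (gP u n₁ (oA κ i)) := ⟨_, rfl⟩
  obtain ⟨V₁, hV₁⟩ : ∃ V₁, V₁ = v (gP u n₁ (oA κ i + r₁)) := ⟨_, rfl⟩
  obtain ⟨V₂, hV₂⟩ : ∃ V₂, V₂ = v (gP u n₁ (oA κ i + r₂)) := ⟨_, rfl⟩
  obtain ⟨b, hb⟩ : ∃ b, b = v (gP u n₁ (oO κ (i + 1))) := ⟨_, rfl⟩
  have LW := lv _ kA
  have L1 := lv _ k1
  have L2 := lv _ k2
  have Lb := lv _ kB
  have Lw := lv _ k0
  rw [← hW] at wA LW ⊢
  rw [← hV₁] at w1 L1 ⊢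
  rw [← hV₂] at w2 L2 ⊢
  rw [← hb] at wB Lb ⊢
  have d1 : (V₁ : ℝ) - W ≤ T₁ - 2 * ρ := by linarith
  have d1' : T₁ - 6 * ρ ≤ (V₁ : ℝ) - W := by linarith
  have d2 : (V₂ : ℝ) - W ≤ T₂ - 2 * ρ := by linarith
  have d2' : T₂ - 6 * ρ ≤ (V₂ : ℝ) - W := by linarith
  have dB : (κ * oO κ i + 2) * M - 2 * ρ ≤ (b : ℝ) - W := by linarith
  have WV1 : W ≤ V₁ := by
    have : (W : ℝ) ≤ V₁ := by linarith
    exact_mod_cast this
  have V12 : V₁ ≤ V₂ := by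
    have : (V₁ : ℝ) ≤ V₂ := by linarith
    exact_mod_cast this
  have V2b : V₂ ≤ b := by
    have : (V₂ : ℝ) ≤ b := by linarith
    exact_mod_cast this
  have hth1 : ((V₁ - W : ℕ) : ℝ) = (V₁ : ℝ) - W := Nat.cast_sub WV1
  have hth2 : ((V₂ - W : ℕ) : ℝ) = (V₂ : ℝ) - W := Nat.cast_sub (WV1.trans V12)
  -- the digits
  have hs1 := sub_bd (r := (κ - 1) * (T₁ - 8 * ρ)) (mul_nonneg (by linarith) (by linarith))
    (c := 310 * x) (by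
      push_cast
      have h6 : (κ - 1) * (8 * ρ) ≤ 8 * x := by linarith
      linarith)
  push_cast at hs1
  obtain ⟨s₁, hs₁⟩ : ∃ s₁, s₁ = ⌊(κ - 1) * (T₁ - 8 * ρ)⌋₊ - 310 * x := ⟨_, rfl⟩
  rw [← hs₁] at hs1
  have hs2 := sub_bd (r := M) hM0.le (c := 610 * x) (by
    push_cast
    linarith)
  push_cast at hs2
  have hs2' : ((nS x M : ℕ) : ℝ) ≤ M - 610 * x ∧ M - 610 * x - 1 ≤ ((nS x M : ℕ) : ℝ) := hs2
  have m1 : (κ - 1) * (T₁ - 6 * ρ) ≤ (κ - 1) * ((V₁ : ℝ) - W) :=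
    mul_le_mul_of_nonneg_left d1' (by linarith)
  have m2 : (κ - 1) * (T₂ - 6 * ρ) ≤ (κ - 1) * ((V₂ : ℝ) - W) :=
    mul_le_mul_of_nonneg_left d2' (by linarith)
  have mE : M + x ≤ (κ - 1) * (q * J / 4 - ρ - 1) := by
    have h5 : 2 * M - ρ - 1 ≤ q * J / 4 - ρ - 1 := by linarith
    have h6 : (κ - 1) * (2 * M - ρ - 1) ≤ (κ - 1) * (q * J / 4 - ρ - 1) :=
      mul_le_mul_of_nonneg_left h5 (by linarith)
    have h7 : 0 ≤ (κ - 2) * (2 * M) := mul_nonneg (by linarith) (by linarith)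
    linarith
  have mE' : (κ - 1) * (q * J / 4 - ρ - 1) ≤ (κ - 1) * ((v n₁ : ℝ) - W) :=
    mul_le_mul_of_nonneg_left (by linarith) (by linarith)
  have hκT : (κ - 2) * T₁ + T₁ ≤ (κ - 2) * T₂ + T₂ := by
    have : (κ - 2) * T₁ ≤ (κ - 2) * T₂ := mul_le_mul_of_nonneg_left (by linarith) (by linarith)
    linarith
  have hs1M : (s₁ : ℝ) ≤ M := by
    have h6 : 0 ≤ (κ - 1) * (8 * ρ) := mul_nonneg (by linarith) (by linarith)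
    linarith
  obtain ⟨Mg₁, hp1⟩ := hpn_of (s := s₁) h0 h1 h2 h3 hκ.le hx₀ hx1 hx (lv 0 (Nat.zero_le _)) LW L1
    (lv _ le_rfl) WV1 (by linarith) (by linarith) (by linarith) (by linarith)
  obtain ⟨Mg₂, hp2⟩ := hpn_of (s := nS x M) h0 h1 h2 h3 hκ.le hx₀ hx1 hx (lv 0 (Nat.zero_le _)) LW
    L2 (lv _ le_rfl) (WV1.trans V12) (by linarith) (by linarith) (by linarith) (by linarith)
  -- the position
  have hQ₀ : (nQ₀ κ x i M : ℝ) ≤ κ * oO κ i * M + oA κ i * M := by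
    have a1 : ((nQ κ x i M : ℕ) : ℝ) ≤ κ * oO κ i * M := by
      unfold nQ
      have : 0 ≤ κ * oO κ i * M := mul_nonneg (by linarith) hM0.le
      refine le_trans ?_ (Nat.floor_le this)
      exact_mod_cast Nat.sub_le _ _
    have a2 : ((⌊oA κ i * M⌋₊ - 305 * x : ℕ) : ℝ) ≤ oA κ i * M := by
      refine le_trans ?_ (Nat.floor_le hAM0)
      exact_mod_cast Nat.sub_le _ _
    have a3 : 0 ≤ κ * oO κ i * M := mul_nonneg (by linarith) hM0.le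
    unfold nQ₀
    rw [Nat.cast_max]
    exact max_le (by linarith) (by linarith)
  obtain ⟨⟨⟨b1, b2⟩, -, -⟩, -⟩ := Lw.all h0 h1 h2 h3
  obtain ⟨⟨⟨c1, c2⟩, -, -⟩, -⟩ := LW.all h0 h1 h2 h3
  obtain ⟨⟨⟨f1, f2⟩, -, -⟩, -⟩ := Lb.all h0 h1 h2 h3
  have hR0 : (g (gP u n₁ 0) 0 : ℝ) + nQ₀ κ x i M ≤
      (g (gP u n₁ (oA κ i)) 0 : ℝ) + κ * oO κ i * M + 2 * x₀ + 2 * ρ := by
    rw [zero_mul, add_zero] at w0
    linarith
  obtain ⟨R, hR⟩ : ∃ R : ℕ, R = max (V₂ - W)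
      (g (gP u n₁ 0) 0 + nQ₀ κ x i M - g (gP u n₁ (oA κ i)) 0) := ⟨_, rfl⟩
  have hRu : (R : ℝ) ≤ κ * oO κ i * M + M := by
    rw [hR, Nat.cast_max]
    refine max_le ?_ ?_
    · rw [hth2]
      have : 0 ≤ κ * oO κ i * M := mul_nonneg (by linarith) hM0.le
      linarith
    · rcases le_total (g (gP u n₁ 0) 0 + nQ₀ κ x i M) (g (gP u n₁ (oA κ i)) 0) with h | h
      · rw [Nat.sub_eq_zero_of_le h]
        push_cast
        have : 0 ≤ κ * oO κ i * M := mul_nonneg (by linarith) hM0.le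
        linarith
      · rw [Nat.cast_sub h]
        push_cast
        linarith
  obtain ⟨x₁, hx₁⟩ : ∃ x₁ : ℕ, x₁ = ⌈X + 7 * ρ⌉₊ := ⟨_, rfl⟩
  have hx₁1 : X + 7 * ρ ≤ (x₁ : ℝ) := by
    rw [hx₁]
    exact Nat.le_ceil _
  have hx₁2 : (x₁ : ℝ) ≤ X + 7 * ρ + 1 := by
    rw [hx₁]
    exact (Nat.ceil_lt_add_one (by linarith)).le
  have h6 : (κ - 1) * (8 * ρ) ≤ 8 * x := by linarith
  refine ⟨k1, k2, s₁, V₁ - W, x₁, V₂ - W, x₁, R, Mg₁, Mg₂, ⟨hp1, hp2, by omega, by omega, V2b, ?_,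
    ?_, by omega, ?_, ?_, ?_, ?_, ?_, ?_, ?_⟩, ?_, ?_, ?_, ?_, ?_, ?_⟩
  · have : ((g (gP u n₁ (oA κ i)) 0 + (V₂ - W) : ℕ) : ℝ) ≤
        ((g (gP u n₁ (oO κ (i + 1))) 0 + x : ℕ) : ℝ) := by
      push_cast [hth2]
      linarith
    exact_mod_cast this
  · have : ((1 : ℕ) : ℝ) ≤ ((V₁ - W : ℕ) : ℝ) := by
      rw [hth1]
      push_cast
      linarith
    exact_mod_cast this
  · rw [hth1]
    linarith
  · rw [hth1, hth2]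
    linarith
  · have : (s₁ : ℝ) ≤ nS x M := by
      have h7 : (κ - 1) * T₁ + 310 * x ≤ (κ - 1) * T₂ := by
        have h8 : (κ - 1) * (310 * x) ≤ (κ - 1) * (T₂ - T₁) := mul_le_mul_of_nonneg_left
          (by linarith) (by linarith)
        have h9 : 310 * (x : ℝ) ≤ (κ - 1) * (310 * x) := le_mul_of_one_le_left (by positivity)
          (by linarith)
        linarith
      have h10 : 0 ≤ (κ - 1) * (8 * ρ) := mul_nonneg (by linarith) (by linarith)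
      linarith
    exact_mod_cast this
  · rw [hR]
    have := le_max_right (V₂ - W) (g (gP u n₁ 0) 0 + nQ₀ κ x i M - g (gP u n₁ (oA κ i)) 0)
    omega
  · rw [hR]
    exact le_max_left _ _
  · have : ((W + R : ℕ) : ℝ) ≤ ((b : ℕ) : ℝ) := by
      push_cast
      linarith
    exact_mod_cast this
  · have : ((g (gP u n₁ (oA κ i)) 0 + R : ℕ) : ℝ) ≤
        ((g (gP u n₁ (oO κ (i + 1))) 0 + x : ℕ) : ℝ) := by
      push_cast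
      linarith
    exact_mod_cast this
  · rw [hth1]
    linarith
  · rw [hth1]
    linarith
  · rw [hth2]
    linarith
  · rw [hth2]
    linarith
  · linarith
  · linarith

end tht

end Pool.D2F2
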