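import Pool.Agent.H28.D2.Ctx

/-!
# The hop over the reference line of the context: one law

`HopG`: the geometric data: on the fibres of `Y` the own paths and the gradients of the context are
known, and two samples of one fibre have the same height and velocity over the affine form along
their own line. `hop_law`: if the rows of the own height over the reference line are not full then
the number of the line is few bits given `Y`.
-/

set_option autoImplicit false

namespace Pool.D2H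

open Finset Real MvPolynomial
open Pool.Agent.H49.Ent Pool.Agent.H32.Dense Pool.STK Pool.KA Pool.KSAT Pool.K2S Pool.PB Pool.GEN
open Pool.S6C Pool.LA91
open Pool.OWN68 (opl tw uw CH_pair CH_pis natDegree_opl opl_jet uw_abs tw_abs floor_sub_le
  of_floor_div pj path_law)

variable {m J : ℕ}

/-- Equal floors of multiples. -/
theorem of_floor_mul {a b t : ℝ} (ht : 0 < t) (h : ⌊t * a⌋ = ⌊t * b⌋) : |a - b| ≤ 1 / t := by
  have g1 := Int.floor_le (t * a)
  have g2 := Int.lt_floor_add_one (t * a)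
  have g3 := Int.floor_le (t * b)
  have g4 := Int.lt_floor_add_one (t * b)
  rw [h] at g1 g2
  have e1 : |t * a - t * b| ≤ 1 := by
    rw [abs_le]
    constructor <;> linarith
  rw [← mul_sub, abs_mul, abs_of_pos ht] at e1
  rwa [le_div_iff₀ ht, mul_comm]

/-- The value of a polynomial with small coefficients. -/
theorem eval_small {D : ℕ} {p : Polynomial ℝ} (hp : p.natDegree ≤ D) {u B : ℝ} (hu : |u| ≤ 1)
    (hB : ∀ j ≤ D, |p.coeff j| ≤ B) : |p.eval u| ≤ (D + 1) * B := by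
  rw [Polynomial.eval_eq_sum_range' (show p.natDegree < D + 1 by omega)]
  refine (Finset.abs_sum_le_sum_abs _ _).trans ?_
  have h1 : ∀ j ∈ range (D + 1), |p.coeff j * u ^ j| ≤ B := by
    intro j hj
    rw [Finset.mem_range] at hj
    have h2 := hB j (by omega)
    have hB0 : 0 ≤ B := (abs_nonneg _).trans h2
    rw [abs_mul, abs_pow]
    calc |p.coeff j| * |u| ^ j ≤ B * 1 :=
          mul_le_mul h2 (pow_le_one₀ (abs_nonneg _) hu) (by positivity) hB0
      _ = B := mul_one B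
  refine (Finset.sum_le_sum h1).trans (le_of_eq ?_)
  rw [Finset.sum_const, Finset.card_range, nsmul_eq_mul]
  push_cast
  ring

/-- The derivative of a polynomial with small coefficients. -/
theorem der_small' {D : ℕ} {p : Polynomial ℝ} (hp : p.natDegree ≤ D) {u B : ℝ} (hu : |u| ≤ 1)
    (hB : ∀ j ≤ D, |p.coeff j| ≤ B) : |p.derivative.eval u| ≤ (D + 1) * (D * B) := by
  have hB0 : 0 ≤ B := (abs_nonneg _).trans (hB 0 (Nat.zero_le _))
  have hD0 : (0 : ℝ) ≤ D := Nat.cast_nonneg D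
  refine eval_small (p := p.derivative)
    ((Polynomial.natDegree_derivative_le p).trans (by omega)) hu fun j hj => ?_
  rw [Polynomial.coeff_derivative, abs_mul]
  by_cases hj1 : j + 1 ≤ D
  · have h1 := hB (j + 1) hj1
    have h2 : |(j : ℝ) + 1| ≤ D := by
      rw [abs_of_nonneg (by positivity)]
      exact_mod_cast hj1
    calc |p.coeff (j + 1)| * |(j : ℝ) + 1| ≤ B * D :=
          mul_le_mul h1 h2 (abs_nonneg _) hB0
      _ = D * B := mul_comm _ _
  · rw [Polynomial.coeff_eq_zero_of_natDegree_lt (by omega), abs_zero, zero_mul]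
    positivity

section hop

variable (F : Fam m J) (A : F.Ω → Prop) (W r D : ℕ) (c : ℕ → Fin m)
  (gp : ℕ → LnT F → Polynomial ℝ) (SV SE SG : ℕ → ℝ) (σ : ℝ) (K : ℕ)

/-- **The geometric data of a record**: on the fibres of `Y` the own paths and the gradients of the
context are known, and the heights over the affine form along the own line are the same. -/
structure HopP {γ : Type} (Y : F.Ω → γ) : Prop where
  deg : ∀ l s, (gp l s).natDegree ≤ D
  hW : W ≤ J
  SV0 : ∀ l < r, 0 < SV l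
  SG0 : ∀ l < r, 0 < SG l
  SVE : ∀ l < r, SV l ≤ SE l
  σ0 : 0 ≤ σ
  σG : ∀ l < r, σ ≤ SG l * SV l
  TZ : ∀ ω ω', A ω → A ω' → Y ω = Y ω' → F.T ω = F.T ω' ∧ F.Z ω = F.Z ω'
  pos : ∀ ω ω', A ω → A ω' → Y ω = Y ω' → ∀ l < r,
    SV l * |F.x ω (c l) - F.x ω' (c l)| ≤ K
  vel : ∀ ω ω', A ω → A ω' → Y ω = Y ω' → ∀ l < r,
    SE l * |1 / 2 ^ (W + 1) * F.d ω (c l) - 1 / 2 ^ (W + 1) * F.d ω' (c l)| ≤ K
  grd : ∀ ω ω', A ω → A ω' → Y ω = Y ω' → ∀ l < r, ∀ j ≤ D,
    SG l * |(gp l (slam F W ω)).coeff j - (gp l (slam F W ω')).coeff j| ≤ K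
  hei : ∀ ω ω', A ω → A ω' → Y ω = Y ω' →
    σ * |(F.x ω' (c r) - F.x ω (c r)) - ∑ l ∈ range r,
      (gp l (slam F W ω)).eval (uw F W ω) * (F.x ω' (c l) - F.x ω (c l))| ≤ K

end hop

/-- **The geometric data of the hop**: also the velocities of the heights are the same; the
coefficients of order at least three of the own heights are small; the numbers are known up to
`2 ^ Q`. -/
structure HopG (F : Fam m J) (A : F.Ω → Prop) (W r D Q : ℕ) (c : ℕ → Fin m)
    (gp : ℕ → LnT F → Polynomial ℝ) (SV SE SG : ℕ → ℝ) (σ : ℝ) (K : ℕ) {γ : Type}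
    (Y : F.Ω → γ) : Prop extends HopP F A W r D c gp SV SE SG σ K Y where
  big : ∀ ω, A ω → ∀ l < r, ∀ j, 2 ≤ j → σ * |(gp l (slam F W ω)).coeff (j + 1)| ≤ K * SV l ∧
    σ * |(gp l (slam F W ω)).coeff j| ≤ K * SE l
  nat : ∀ ω₀ ω ω', A ω₀ → A ω → A ω' → Y ω = Y ω' →
    cx F W r D c gp SV SE SG (slam F W ω₀) = cx F W r D c gp SV SE SG (slam F W ω) →
    cx F W r D c gp SV SE SG (slam F W ω) = cx F W r D c gp SV SE SG (slam F W ω') →
    σ * |num r (fun l => vp F W (c l) (slam F W ω')) (fun l => gp l (slam F W ω₀)) -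
      num r (fun l => vp F W (c l) (slam F W ω)) (fun l => gp l (slam F W ω₀))| ≤ K * 2 ^ Q
  hvl : ∀ ω ω', A ω → A ω' → Y ω = Y ω' →
    σ * |1 / 2 ^ (W + 1) * (F.d ω' (c r) - F.d ω (c r)) - ∑ l ∈ range r,
      ((gp l (slam F W ω)).derivative.eval (uw F W ω) * (F.x ω' (c l) - F.x ω (c l)) +
        (gp l (slam F W ω)).eval (uw F W ω) *
          (1 / 2 ^ (W + 1) * (F.d ω' (c l) - F.d ω (c l))))| ≤ K


section pair

variable {F : Fam m J} {A : F.Ω → Prop} {W r D Q : ℕ} {c : ℕ → Fin m}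
  {gp : ℕ → LnT F → Polynomial ℝ} {SV SE SG : ℕ → ℝ} {σ : ℝ} {K : ℕ}

theorem uw_eq {ω ω' : F.Ω} (h : F.T ω = F.T ω') : uw F W ω = uw F W ω' := by
  unfold uw tw
  rw [h]

/-- The coefficients of the own path of a coordinate. -/
theorem vp_zero (hW : W ≤ J) (k : Fin m) (ω : F.Ω) :
    (vp F W k (slam F W ω)).coeff 0 =
      F.x ω k - (vp F W k (slam F W ω)).coeff 1 * uw F W ω := by
  have h := vp_eval F hW k ω
  rw [eval_lin (natDegree_vp F W k _)] at h
  linarith

/-- The difference of two own heights at the common time. -/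
theorem hR_eval (hW : W ≤ J) (ω₀ : F.Ω) {ω ω' : F.Ω} (hT : F.T ω = F.T ω') :
    (hR F W r c gp ω₀ (slam F W ω')).eval (uw F W ω) -
      (hR F W r c gp ω₀ (slam F W ω)).eval (uw F W ω) =
      (F.x ω' (c r) - F.x ω (c r)) - ∑ l ∈ range r,
        (gp l (slam F W ω₀)).eval (uw F W ω) * (F.x ω' (c l) - F.x ω (c l)) := by
  have hu := uw_eq (W := W) hT
  have e := congrArg (Polynomial.eval (uw F W ω)) (hgt_sub r (vp F W (c r) (slam F W ω))
    (vp F W (c r) (slam F W ω')) (vp F W (c r) (slam F W ω₀))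
    (fun l => vp F W (c l) (slam F W ω)) (fun l => vp F W (c l) (slam F W ω'))
    (fun l => vp F W (c l) (slam F W ω₀)) (fun l => gp l (slam F W ω₀)))
  rw [Polynomial.eval_sub, Polynomial.eval_sub, Polynomial.eval_sub,
    Polynomial.eval_finsetSum] at e
  have h1 : ∀ k, (vp F W k (slam F W ω)).eval (uw F W ω) = F.x ω k := fun k => vp_eval F hW k ω
  have h2 : ∀ k, (vp F W k (slam F W ω')).eval (uw F W ω) = F.x ω' k := fun k => by
    rw [hu]
    exact vp_eval F hW k ω'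
  unfold hR
  rw [e, h1, h2]
  congr 1
  refine Finset.sum_congr rfl fun l _ => ?_
  rw [Polynomial.eval_mul, Polynomial.eval_sub, h1, h2]

/-- The difference of the velocities of two own heights at the common time. -/
theorem hR_der (hW : W ≤ J) (ω₀ : F.Ω) {ω ω' : F.Ω} (hT : F.T ω = F.T ω') :
    (hR F W r c gp ω₀ (slam F W ω')).derivative.eval (uw F W ω) -
      (hR F W r c gp ω₀ (slam F W ω)).derivative.eval (uw F W ω) =
      1 / 2 ^ (W + 1) * (F.d ω' (c r) - F.d ω (c r)) - ∑ l ∈ range r,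
        ((gp l (slam F W ω₀)).derivative.eval (uw F W ω) * (F.x ω' (c l) - F.x ω (c l)) +
        (gp l (slam F W ω₀)).eval (uw F W ω) *
          (1 / 2 ^ (W + 1) * (F.d ω' (c l) - F.d ω (c l)))) := by
  have hu := uw_eq (W := W) hT
  have e := congrArg (fun P => (Polynomial.derivative P).eval (uw F W ω)) (hgt_sub r
    (vp F W (c r) (slam F W ω))
    (vp F W (c r) (slam F W ω')) (vp F W (c r) (slam F W ω₀))
    (fun l => vp F W (c l) (slam F W ω)) (fun l => vp F W (c l) (slam F W ω'))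
    (fun l => vp F W (c l) (slam F W ω₀)) (fun l => gp l (slam F W ω₀)))
  simp only [Polynomial.derivative_sub, Polynomial.eval_sub, Polynomial.derivative_sum,
    Polynomial.eval_finsetSum, Polynomial.derivative_mul, Polynomial.eval_add,
    Polynomial.eval_mul] at e
  have h1 : ∀ k, (vp F W k (slam F W ω)).eval (uw F W ω) = F.x ω k := fun k => vp_eval F hW k ω
  have h2 : ∀ k, (vp F W k (slam F W ω')).eval (uw F W ω) = F.x ω' k := fun k => by
    rw [hu]
    exact vp_eval F hW k ω'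
  have h3 : ∀ (k : Fin m) (ν : F.Ω), (vp F W k (slam F W ν)).derivative.eval (uw F W ω) =
      1 / 2 ^ (W + 1) * F.d ν k := fun k ν => by
    rw [← vp_one F k ν]
    obtain ⟨a, b, hab⟩ : ∃ a b, vp F W k (slam F W ν) =
        Polynomial.C b * Polynomial.X + Polynomial.C a := by
      exact ⟨_, _, Polynomial.eq_X_add_C_of_natDegree_le_one (natDegree_vp F W k _)⟩
    rw [hab]
    simp
  simp only [h1, h2, h3] at e
  unfold hR
  rw [e, mul_sub]
  congr 1
  refine Finset.sum_congr rfl fun l _ => ?_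
  ring

end pair

section law

variable {F : Fam m J} {A : F.Ω → Prop} {W r D Q : ℕ} {c : ℕ → Fin m}
  {gp : ℕ → LnT F → Polynomial ℝ} {SV SE SG : ℕ → ℝ} {σ : ℝ} {K : ℕ} {γ : Type} {Y : F.Ω → γ}

/-- The same context: near coefficients. -/
theorem cx_near (H : HopP F A W r D c gp SV SE SG σ K Y) {s s' : LnT F}
    (e : cx F W r D c gp SV SE SG s = cx F W r D c gp SV SE SG s') {l : ℕ} (hl : l < r) :
    |(vp F W (c l) s).coeff 0 - (vp F W (c l) s').coeff 0| ≤ 1 / SV l ∧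
    |(vp F W (c l) s).coeff 1 - (vp F W (c l) s').coeff 1| ≤ 1 / SE l ∧
    ∀ j ≤ D, |(gp l s).coeff j - (gp l s').coeff j| ≤ 1 / SG l := by
  unfold cx at e
  simp only [Prod.mk.injEq] at e
  obtain ⟨-, e1, e2, e3⟩ := e
  have h0 := H.SV0 l hl
  have h1 : 0 < SE l := lt_of_lt_of_le h0 (H.SVE l hl)
  refine ⟨of_floor_mul h0 (congrFun e1 ⟨l, hl⟩), of_floor_mul h1 (congrFun e2 ⟨l, hl⟩),
    fun j hj => of_floor_mul (H.SG0 l hl) (congrFun (congrFun e3 ⟨l, hl⟩) ⟨j, by omega⟩)⟩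

/-- The values of near gradients. -/
theorem gp_near (H : HopP F A W r D c gp SV SE SG σ K Y) {s s' : LnT F}
    (e : cx F W r D c gp SV SE SG s = cx F W r D c gp SV SE SG s') {l : ℕ} (hl : l < r) {u : ℝ}
    (hu : |u| ≤ 1) : |(gp l s).eval u - (gp l s').eval u| ≤ (D + 1) * (1 / SG l) ∧
      |(gp l s).derivative.eval u - (gp l s').derivative.eval u| ≤
        (D + 1) * (D * (1 / SG l)) := by
  have h1 : ((gp l s) - (gp l s')).natDegree ≤ D :=
    (Polynomial.natDegree_sub_le _ _).trans (max_le (H.deg l s) (H.deg l s'))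
  have h2 : ∀ j ≤ D, |((gp l s) - (gp l s')).coeff j| ≤ 1 / SG l := fun j hj => by
    rw [Polynomial.coeff_sub]
    exact (cx_near H e hl).2.2 j hj
  refine ⟨?_, ?_⟩
  · rw [← Polynomial.eval_sub]
    exact eval_small h1 hu h2
  · rw [← Polynomial.eval_sub, ← Polynomial.derivative_sub]
    exact der_small' h1 hu h2

/-- **Two samples of one fibre with the same context** have the same height over the reference
line. -/
theorem HopP.pair (H : HopP F A W r D c gp SV SE SG σ K Y) {ω₀ ω ω' : F.Ω}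
    (hω : A ω) (hω' : A ω') (hY : Y ω = Y ω')
    (e₀ : cx F W r D c gp SV SE SG (slam F W ω₀) = cx F W r D c gp SV SE SG (slam F W ω)) :
    σ * |(hR F W r c gp ω₀ (slam F W ω')).eval (uw F W ω) -
      (hR F W r c gp ω₀ (slam F W ω)).eval (uw F W ω)| ≤ K * (1 + r * (D + 1) ^ 2) := by
  have hT := (H.TZ ω ω' hω hω' hY).1
  have hu := uw_abs F W ω
  have hσ := H.σ0
  have hK0 : (0 : ℝ) ≤ K := Nat.cast_nonneg K
  have hD0 : (0 : ℝ) ≤ D := Nat.cast_nonneg D
  -- the products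
  have hprod : ∀ l < r, ∀ (g d B : ℝ), 0 ≤ B → |g| ≤ B * (1 / SG l) → SV l * |d| ≤ K →
      σ * |g * d| ≤ B * K := by
    intro l hl g d B hB hg hd
    have h1 := H.SV0 l hl
    have h2 := H.SG0 l hl
    have h3 : |d| ≤ K / SV l := by
      rw [le_div_iff₀ h1]
      linarith
    rw [abs_mul]
    calc σ * (|g| * |d|) ≤ (SG l * SV l) * ((B * (1 / SG l)) * (K / SV l)) :=
          mul_le_mul (H.σG l hl) (mul_le_mul hg h3 (abs_nonneg _) (by positivity))
            (by positivity) (by positivity)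
      _ = B * K := by field_simp
  rw [hR_eval H.hW ω₀ hT]
  have h1 := H.hei ω ω' hω hω' hY
  have e1 : (F.x ω' (c r) - F.x ω (c r)) - ∑ l ∈ range r,
      (gp l (slam F W ω₀)).eval (uw F W ω) * (F.x ω' (c l) - F.x ω (c l)) =
      ((F.x ω' (c r) - F.x ω (c r)) - ∑ l ∈ range r,
      (gp l (slam F W ω)).eval (uw F W ω) * (F.x ω' (c l) - F.x ω (c l))) -
      ∑ l ∈ range r, ((gp l (slam F W ω₀)).eval (uw F W ω) -
        (gp l (slam F W ω)).eval (uw F W ω)) * (F.x ω' (c l) - F.x ω (c l)) := by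
    simp only [sub_mul, Finset.sum_sub_distrib]
    ring
  rw [e1]
  have h2 : σ * |∑ l ∈ range r, ((gp l (slam F W ω₀)).eval (uw F W ω) -
      (gp l (slam F W ω)).eval (uw F W ω)) * (F.x ω' (c l) - F.x ω (c l))| ≤
      r * ((D + 1) * K) := by
    refine (mul_le_mul_of_nonneg_left (Finset.abs_sum_le_sum_abs _ _) hσ).trans ?_
    rw [Finset.mul_sum]
    refine (Finset.sum_le_sum (g := fun _ => (D + 1) * (K : ℝ)) fun l hl => ?_).trans
      (le_of_eq ?_)
    · have hl' := Finset.mem_range.1 hl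
      refine hprod l hl' _ _ (D + 1) (by positivity) (gp_near H e₀ hl' hu).1 ?_
      rw [abs_sub_comm]
      exact H.pos ω ω' hω hω' hY l hl'
    · rw [Finset.sum_const, Finset.card_range, nsmul_eq_mul]
  refine (mul_le_mul_of_nonneg_left (abs_sub _ _) hσ).trans ?_
  rw [mul_add]
  have h3 : (r : ℝ) * ((D + 1) * K) ≤ r * (K * (D + 1) ^ 2) := by
    refine mul_le_mul_of_nonneg_left ?_ (Nat.cast_nonneg r)
    have : 0 ≤ (K : ℝ) * (D + 1) * D := by positivity
    linarith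
  have h4 : (K : ℝ) * (1 + r * (D + 1) ^ 2) = K + r * (K * (D + 1) ^ 2) := by ring
  rw [h4]
  linarith

/-- The same for the velocities. -/
theorem HopG.pair (H : HopG F A W r D Q c gp SV SE SG σ K Y) {ω₀ ω ω' : F.Ω}
    (hω : A ω) (hω' : A ω') (hY : Y ω = Y ω')
    (e₀ : cx F W r D c gp SV SE SG (slam F W ω₀) = cx F W r D c gp SV SE SG (slam F W ω)) :
    σ * |(hR F W r c gp ω₀ (slam F W ω')).eval (uw F W ω) -
      (hR F W r c gp ω₀ (slam F W ω)).eval (uw F W ω)| ≤ K * (1 + r * (D + 1) ^ 2) ∧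
    σ * |(hR F W r c gp ω₀ (slam F W ω')).derivative.eval (uw F W ω) -
      (hR F W r c gp ω₀ (slam F W ω)).derivative.eval (uw F W ω)| ≤
        K * (1 + r * (D + 1) ^ 2) := by
  refine ⟨H.toHopP.pair hω hω' hY e₀, ?_⟩
  have hT := (H.TZ ω ω' hω hω' hY).1
  have hu := uw_abs F W ω
  have hσ := H.σ0
  have hK0 : (0 : ℝ) ≤ K := Nat.cast_nonneg K
  have hD0 : (0 : ℝ) ≤ D := Nat.cast_nonneg D
  -- the products
  have hprod : ∀ l < r, ∀ (g d B : ℝ), 0 ≤ B → |g| ≤ B * (1 / SG l) → SV l * |d| ≤ K →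
      σ * |g * d| ≤ B * K := by
    intro l hl g d B hB hg hd
    have h1 := H.SV0 l hl
    have h2 := H.SG0 l hl
    have h3 : |d| ≤ K / SV l := by
      rw [le_div_iff₀ h1]
      linarith
    rw [abs_mul]
    calc σ * (|g| * |d|) ≤ (SG l * SV l) * ((B * (1 / SG l)) * (K / SV l)) :=
          mul_le_mul (H.σG l hl) (mul_le_mul hg h3 (abs_nonneg _) (by positivity))
            (by positivity) (by positivity)
      _ = B * K := by field_simp
  rw [hR_der H.hW ω₀ hT]
  have h1 := H.hvl ω ω' hω hω' hY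
  have e1 : 1 / 2 ^ (W + 1) * (F.d ω' (c r) - F.d ω (c r)) - ∑ l ∈ range r,
      ((gp l (slam F W ω₀)).derivative.eval (uw F W ω) * (F.x ω' (c l) - F.x ω (c l)) +
      (gp l (slam F W ω₀)).eval (uw F W ω) *
        (1 / 2 ^ (W + 1) * (F.d ω' (c l) - F.d ω (c l)))) =
      (1 / 2 ^ (W + 1) * (F.d ω' (c r) - F.d ω (c r)) - ∑ l ∈ range r,
      ((gp l (slam F W ω)).derivative.eval (uw F W ω) * (F.x ω' (c l) - F.x ω (c l)) +
      (gp l (slam F W ω)).eval (uw F W ω) *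
        (1 / 2 ^ (W + 1) * (F.d ω' (c l) - F.d ω (c l))))) -
      ∑ l ∈ range r, (((gp l (slam F W ω₀)).derivative.eval (uw F W ω) -
        (gp l (slam F W ω)).derivative.eval (uw F W ω)) * (F.x ω' (c l) - F.x ω (c l)) +
        ((gp l (slam F W ω₀)).eval (uw F W ω) - (gp l (slam F W ω)).eval (uw F W ω)) *
        (1 / 2 ^ (W + 1) * (F.d ω' (c l) - F.d ω (c l)))) := by
    simp only [sub_mul, Finset.sum_sub_distrib, Finset.sum_add_distrib]
    ring
  rw [e1]
  have h2 : σ * |∑ l ∈ range r, (((gp l (slam F W ω₀)).derivative.eval (uw F W ω) -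
        (gp l (slam F W ω)).derivative.eval (uw F W ω)) * (F.x ω' (c l) - F.x ω (c l)) +
        ((gp l (slam F W ω₀)).eval (uw F W ω) - (gp l (slam F W ω)).eval (uw F W ω)) *
        (1 / 2 ^ (W + 1) * (F.d ω' (c l) - F.d ω (c l))))| ≤
      r * (((D + 1) * D) * K + (D + 1) * K) := by
    refine (mul_le_mul_of_nonneg_left (Finset.abs_sum_le_sum_abs _ _) hσ).trans ?_
    rw [Finset.mul_sum]
    refine (Finset.sum_le_sum (g := fun _ => ((D + 1) * D) * (K : ℝ) + (D + 1) * K)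
      fun l hl => ?_).trans (le_of_eq ?_)
    · have hl' := Finset.mem_range.1 hl
      refine (mul_le_mul_of_nonneg_left (abs_add_le _ _) hσ).trans ?_
      rw [mul_add]
      refine add_le_add ?_ ?_
      · refine hprod l hl' _ _ ((D + 1) * D) (by positivity) ?_ ?_
        · have := (gp_near H.toHopP e₀ hl' hu).2
          rwa [mul_assoc]
        · rw [abs_sub_comm]
          exact H.pos ω ω' hω hω' hY l hl'
      · refine hprod l hl' _ _ (D + 1) (by positivity) (gp_near H.toHopP e₀ hl' hu).1 ?_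
        have h5 := H.vel ω ω' hω hω' hY l hl'
        rw [← mul_sub] at h5
        refine le_trans ?_ h5
        rw [abs_mul, abs_mul, abs_sub_comm (F.d ω' (c l))]
        exact mul_le_mul_of_nonneg_right (H.SVE l hl') (by positivity)
    · rw [Finset.sum_const, Finset.card_range, nsmul_eq_mul]
  refine (mul_le_mul_of_nonneg_left (abs_sub _ _) hσ).trans ?_
  rw [mul_add]
  have h4 : (K : ℝ) * (1 + r * (D + 1) ^ 2) = K + r * (((D + 1) * D) * K + (D + 1) * K) := by
    ring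
  rw [h4]
  linarith

/-- The coefficients of the difference of two own heights of the same context. -/
theorem HopG.coef (H : HopG F A W r D Q c gp SV SE SG σ K Y) {ω₀ : F.Ω} (h₀ : A ω₀)
    {s s' : LnT F}
    (e : cx F W r D c gp SV SE SG s = cx F W r D c gp SV SE SG s') (j : ℕ) (hj : 3 ≤ j) :
    σ * |(hR F W r c gp ω₀ s').coeff j - (hR F W r c gp ω₀ s).coeff j| ≤ r * (2 * K) := by
  have hσ := H.σ0
  have hK0 : (0 : ℝ) ≤ K := Nat.cast_nonneg K
  obtain ⟨i, rfl⟩ : ∃ i, j = i + 2 := ⟨j - 2, by omega⟩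
  have e1 : (hR F W r c gp ω₀ s').coeff (i + 2) - (hR F W r c gp ω₀ s).coeff (i + 2) =
      (hgt r (vp F W (c r) s') (vp F W (c r) s) (fun l => vp F W (c l) s')
        (fun l => vp F W (c l) s) (fun l => gp l (slam F W ω₀))).coeff (i + 2) := by
    have := hgt_sub r (vp F W (c r) s) (vp F W (c r) s') (vp F W (c r) (slam F W ω₀))
      (fun l => vp F W (c l) s) (fun l => vp F W (c l) s')
      (fun l => vp F W (c l) (slam F W ω₀)) (fun l => gp l (slam F W ω₀))
    unfold hR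
    rw [← Polynomial.coeff_sub, this]
    rfl
  rw [e1, hgt_coeff (natDegree_vp F W _ _) (natDegree_vp F W _ _)
    (fun _ => natDegree_vp F W _ _) (fun _ => natDegree_vp F W _ _), abs_neg]
  refine (mul_le_mul_of_nonneg_left (Finset.abs_sum_le_sum_abs _ _) hσ).trans ?_
  rw [Finset.mul_sum]
  refine (Finset.sum_le_sum (g := fun _ => 2 * (K : ℝ)) fun l hl => ?_).trans (le_of_eq ?_)
  · have hl' := Finset.mem_range.1 hl
    obtain ⟨a1, a2, -⟩ := cx_near H.toHopP e hl'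
    have b1 := (H.big ω₀ h₀ l hl' (i + 1) (by omega)).1
    have b2 := (H.big ω₀ h₀ l hl' (i + 1) (by omega)).2
    have h1 := H.SV0 l hl'
    have h2 : 0 < SE l := lt_of_lt_of_le h1 (H.SVE l hl')
    refine (mul_le_mul_of_nonneg_left (abs_add_le _ _) hσ).trans ?_
    rw [mul_add]
    have c1 : σ * |(gp l (slam F W ω₀)).coeff (i + 2) *
        ((vp F W (c l) s').coeff 0 - (vp F W (c l) s).coeff 0)| ≤ K := by
      rw [abs_mul, ← mul_assoc, abs_sub_comm]
      calc σ * |(gp l (slam F W ω₀)).coeff (i + 2)| *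
          |(vp F W (c l) s).coeff 0 - (vp F W (c l) s').coeff 0|
          ≤ (K * SV l) * (1 / SV l) := mul_le_mul b1 a1 (abs_nonneg _) (by positivity)
        _ = K := by field_simp
    have c2 : σ * |(gp l (slam F W ω₀)).coeff (i + 1) *
        ((vp F W (c l) s').coeff 1 - (vp F W (c l) s).coeff 1)| ≤ K := by
      rw [abs_mul, ← mul_assoc, abs_sub_comm]
      calc σ * |(gp l (slam F W ω₀)).coeff (i + 1)| *
          |(vp F W (c l) s).coeff 1 - (vp F W (c l) s').coeff 1|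
          ≤ (K * SE l) * (1 / SE l) := mul_le_mul b2 a2 (abs_nonneg _) (by positivity)
        _ = K := by field_simp
    linarith
  · rw [Finset.sum_const, Finset.card_range, nsmul_eq_mul]

/-- The coefficient of order two of the difference. -/
theorem hR_two (F : Fam m J) (W r : ℕ) (c : ℕ → Fin m) (gp : ℕ → LnT F → Polynomial ℝ)
    (ω₀ : F.Ω) (s s' : LnT F) :
    (hR F W r c gp ω₀ s').coeff 2 - (hR F W r c gp ω₀ s).coeff 2 =
      -(num r (fun l => vp F W (c l) s') (fun l => gp l (slam F W ω₀)) -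
        num r (fun l => vp F W (c l) s) (fun l => gp l (slam F W ω₀))) := by
  unfold hR
  rw [hgt_two (natDegree_vp F W _ _) (natDegree_vp F W _ _)
    (fun _ => natDegree_vp F W _ _) (fun _ => natDegree_vp F W _ _),
    hgt_two (natDegree_vp F W _ _) (natDegree_vp F W _ _)
    (fun _ => natDegree_vp F W _ _) (fun _ => natDegree_vp F W _ _)]
  ring

/-- The context is few bits given `Y`. -/
theorem HopP.ctx (H : HopP F A W r D c gp SV SE SG σ K Y) (hA : 0 < Pe F.p A) :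
    CH (Pool.Agent.H49.Ent.cond F.p A True)
      (fun ω => cx F W r D c gp SV SE SG (slam F W ω)) Y ≤
      (r * (D + 3)) * Real.log (2 * ((2 * K : ℕ) + 1) + 1) := by
  have hp := isLaw_cond F.isLaw hA
  have hA' : ∀ ω, 0 < Pool.Agent.H49.Ent.cond F.p A True ω → A ω := fun ω hω => of_cond_pos hω
  have hK0 : (0 : ℝ) ≤ K := Nat.cast_nonneg K
  have hK2 : (K : ℝ) ≤ ((2 * K : ℕ) : ℝ) := by
    push_cast
    linarith
  have hv : ∀ ω ω', A ω → A ω' → Y ω = Y ω' → ∀ l < r,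
      SE l * |(vp F W (c l) (slam F W ω)).coeff 1 - (vp F W (c l) (slam F W ω')).coeff 1| ≤ K := by
    intro ω ω' hω hω' e l hl
    rw [vp_one, vp_one]
    exact H.vel ω ω' hω hω' e l hl
  refine cx_few hp Y (fun ω ω' hω hω' e => ?_) (fun ω ω' hω hω' e l hl => ?_)
    (fun ω ω' hω hω' e l hl => ?_) (fun ω ω' hω hω' e l hl j hj => ?_)
  · obtain ⟨e1, e2⟩ := H.TZ ω ω' (hA' ω hω) (hA' ω' hω') e
    unfold slam Fam.T1
    simp only [e1, e2]
  · have hT := (H.TZ ω ω' (hA' ω hω) (hA' ω' hω') e).1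
    have h1 := H.SV0 l hl
    have h2 := H.pos ω ω' (hA' ω hω) (hA' ω' hω') e l hl
    have h3 := hv ω ω' (hA' ω hω) (hA' ω' hω') e l hl
    have hu := uw_abs F W ω
    rw [← mul_sub, abs_mul, abs_of_pos h1, vp_zero H.hW, vp_zero H.hW (c l) ω', ← uw_eq hT]
    have e1 : F.x ω (c l) - (vp F W (c l) (slam F W ω)).coeff 1 * uw F W ω -
        (F.x ω' (c l) - (vp F W (c l) (slam F W ω')).coeff 1 * uw F W ω) =
        (F.x ω (c l) - F.x ω' (c l)) - ((vp F W (c l) (slam F W ω)).coeff 1 -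
          (vp F W (c l) (slam F W ω')).coeff 1) * uw F W ω := by ring
    rw [e1]
    refine (mul_le_mul_of_nonneg_left (abs_sub _ _) h1.le).trans ?_
    rw [mul_add, abs_mul]
    have h4 : SV l * (|(vp F W (c l) (slam F W ω)).coeff 1 -
        (vp F W (c l) (slam F W ω')).coeff 1| * |uw F W ω|) ≤ K := by
      refine le_trans ?_ h3
      refine mul_le_mul (H.SVE l hl) ?_ (by positivity) (h1.le.trans (H.SVE l hl))
      exact mul_le_of_le_one_right (abs_nonneg _) hu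
    push_cast
    linarith
  · have h1 : 0 < SE l := lt_of_lt_of_le (H.SV0 l hl) (H.SVE l hl)
    rw [← mul_sub, abs_mul, abs_of_pos h1]
    exact (hv ω ω' (hA' ω hω) (hA' ω' hω') e l hl).trans hK2
  · rw [← mul_sub, abs_mul, abs_of_pos (H.SG0 l hl)]
    exact (H.grd ω ω' (hA' ω hω) (hA' ω' hω') e l hl j hj).trans hK2

/-- A step of the conditions. -/
theorem CH_step {Ω S T U : Type} [Fintype Ω] {p : Ω → ℝ} (h0 : ∀ ω, 0 ≤ p ω) (X : Ω → S)
    (C : Ω → T) (Y : Ω → U) : CH p X Y ≤ CH p C Y + CH p X (fun ω => (C ω, Y ω)) := by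
  have := CH_le_add h0 X C Y
  linarith

/-- **The hop over the reference line: one law.** -/
theorem hop_law {h : ℝ} (hh : 0 < h) (hh1 : h ≤ 1) {ε : ℝ} (hε : 0 < ε) :
    ∃ δ : ℝ, 0 < δ ∧ ∃ c₀ : ℝ, 0 < c₀ ∧ ∃ N₀ : ℕ, 0 < N₀ ∧ ∀ (r D : ℕ), 1 ≤ D →
    ∃ C : ℕ, ∀ {w q : ℝ} (_ : 0 ≤ w) (_ : 0 < q) (_ : w + q ≤ 1),
    ∃ J₀ : ℕ, ∀ J ≥ J₀, ∀ {m : ℕ} (F : Fam m J) (A : F.Ω → Prop) (_ : 0 < Pe F.p A)
      {c : ℕ → Fin m} {gp : ℕ → LnT F → Polynomial ℝ} {SV SE SG : ℕ → ℝ} {σ : ℝ} {K : ℕ}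
      {γ : Type} {Y : F.Ω → γ},
    HopG F A ⌊w * J⌋₊ r D ⌊q * J⌋₊ c gp SV SE SG σ K Y →
    C * Real.log (C * (K + 1)) ≤ δ * q * J →
    (J : ℝ) * Real.log 2 - δ * q * J ≤
      CH (Pool.Agent.H49.Ent.cond F.p A True) F.T (fun ω => (F.l ω, F.Z ω)) →
    (∀ B : F.Ω → Prop, Sub B A → c₀ * Pe F.p A ≤ Pe F.p B → ∀ i ≤ N₀,
      CH (Pool.Agent.H49.Ent.cond F.p B True)
        (fun ω => ⌊σ * (hL F ⌊w * J⌋₊ r D c gp SV SE SG A (slam F ⌊w * J⌋₊ ω)).eval
          (uw F ⌊w * J⌋₊ ω)⌋)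
        (fun ω => (⌊σ * (hL F ⌊w * J⌋₊ r D c gp SV SE SG A (slam F ⌊w * J⌋₊ ω)).eval
          (uw F ⌊w * J⌋₊ ω) / 2 ^ ((q - q * i / N₀) * J)⌋,
          (cx F ⌊w * J⌋₊ r D c gp SV SE SG (slam F ⌊w * J⌋₊ ω), F.W ω))) ≤
        ((1 - h) * (q - q * i / N₀) * Real.log 2 + δ * q) * J) →
    CH (Pool.Agent.H49.Ent.cond F.p A True)
      (fun ω => (cx F ⌊w * J⌋₊ r D c gp SV SE SG (slam F ⌊w * J⌋₊ ω),
        ⌊σ * nb F ⌊w * J⌋₊ r D c gp SV SE SG A (slam F ⌊w * J⌋₊ ω)⌋)) Y ≤ ε * q * J := by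
  obtain ⟨δ, hδ, c₀, hc₀, N₀, hN₀, Hp⟩ := path_law (k := 2) (Or.inr rfl) hh hh1 (half_pos hε)
  refine ⟨δ, hδ, c₀, hc₀, N₀, hN₀, ?_⟩
  intro r D hD
  obtain ⟨C₁, hC₁, Hder⟩ := Pool.OWN68.der_small (D + 1)
  obtain ⟨C₂, hC₂⟩ : ∃ C₂ : ℝ, C₂ = (1 + r * (D + 1) ^ 2) + C₁ * (r * 2 + 1) + 2 :=
    ⟨_, rfl⟩
  have hr0 : (0 : ℝ) ≤ r := Nat.cast_nonneg r
  have hD0 : (0 : ℝ) ≤ D := Nat.cast_nonneg D
  have hC20 : 2 ≤ C₂ := by
    rw [hC₂]
    have : 0 ≤ (r : ℝ) * (D + 1) ^ 2 := by positivity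
    have : 0 ≤ C₁ * ((r : ℝ) * 2 + 1) := by positivity
    linarith
  obtain ⟨C, hC⟩ := exists_nat_ge (max ((D + 3) * ((r : ℝ) * (D + 3) + 1)) (5 * C₂ + 5))
  have hCa : ((D : ℝ) + 3) * ((r : ℝ) * (D + 3) + 1) ≤ C := (le_max_left _ _).trans hC
  have hCb : 5 * C₂ + 5 ≤ C := (le_max_right _ _).trans hC
  refine ⟨C, ?_⟩
  intro w q hw hq hwq
  obtain ⟨J₀, HJ⟩ := Hp (D + 1) (by omega) hw hq hwq
  obtain ⟨J₁, hJ₁⟩ := exists_nat_ge (Real.log 5 / (ε / 2 * q))
  refine ⟨max J₀ J₁, ?_⟩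
  intro J hJ m F A hA c gp SV SE SG σ K γ Y H hK hT hrow
  have hJ0 : J₀ ≤ J := (le_max_left _ _).trans hJ
  have hJ1 : (J₁ : ℝ) ≤ J := by exact_mod_cast (le_max_right _ _).trans hJ
  have hJr : (0 : ℝ) ≤ J := Nat.cast_nonneg J
  have hK0 : (0 : ℝ) ≤ K := Nat.cast_nonneg K
  have hσ := H.σ0
  obtain ⟨W, hW⟩ : ∃ W : ℕ, W = ⌊w * J⌋₊ := ⟨_, rfl⟩
  obtain ⟨Q, hQ⟩ : ∃ Q : ℕ, Q = ⌊q * J⌋₊ := ⟨_, rfl⟩
  rw [← hW, ← hQ] at H
  rw [← hW] at hrow ⊢
  obtain ⟨p, hp⟩ : ∃ p : F.Ω → ℝ, p = Pool.Agent.H49.Ent.cond F.p A True := ⟨_, rfl⟩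
  have hpl : IsLaw p := by
    rw [hp]
    exact isLaw_cond F.isLaw hA
  have h0 := hpl.nonneg
  have hpA : ∀ ω, 0 < p ω → A ω := fun ω hω => by
    rw [hp] at hω
    exact of_cond_pos hω
  have hctx := H.ctx hA
  rw [← hp] at hctx hT ⊢
  -- one number
  obtain ⟨lg, hlg⟩ : ∃ lg : ℝ, lg = Real.log (C * (K + 1)) := ⟨_, rfl⟩
  have hC0 : (0 : ℝ) ≤ C := Nat.cast_nonneg C
  have hC1 : (1 : ℝ) ≤ C := by linarith
  have hlg0 : 0 ≤ lg := by
    rw [hlg]
    refine Real.log_nonneg ?_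
    nlinarith
  have hlg1 : Real.log (2 * ((2 * K : ℕ) + 1) + 1) ≤ lg := by
    rw [hlg]
    refine Real.log_le_log (by positivity) ?_
    push_cast
    nlinarith
  obtain ⟨K₂, hK₂⟩ : ∃ K₂ : ℕ, K₂ = ⌈C₂ * K⌉₊ := ⟨_, rfl⟩
  have hK2a : C₂ * K ≤ K₂ := by
    rw [hK₂]
    exact Nat.le_ceil _
  have hK2b : (K₂ : ℝ) ≤ C₂ * K + 1 := by
    rw [hK₂]
    exact (Nat.ceil_lt_add_one (by positivity)).le
  have hlg2 : Real.log (2 * ((K₂ + 1 : ℕ) : ℝ) + 1) ≤ lg := by
    rw [hlg]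
    refine Real.log_le_log (by positivity) ?_
    push_cast
    nlinarith
  obtain ⟨cs, hcs⟩ : ∃ cs : F.Ω → Cx F r D, cs = fun ω => cx F W r D c gp SV SE SG (slam F W ω) :=
    ⟨_, rfl⟩
  obtain ⟨R, hRe⟩ : ∃ R : LnT F → Polynomial ℝ, R = fun s => Polynomial.C σ *
      hL F W r D c gp SV SE SG A s := ⟨_, rfl⟩
  have hRdeg : ∀ x, (R x).natDegree ≤ D + 1 := fun x => by
    rw [hRe]
    exact (Polynomial.natDegree_C_mul_le _ _).trans (natDegree_hL H.deg A x)
  have hc1 : CH p cs Y ≤ (r * (D + 3)) * lg := by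
    rw [hcs]
    refine hctx.trans (mul_le_mul_of_nonneg_left hlg1 (by positivity))
  -- the pairs
  have hpair : ∀ ω ω', A ω → A ω' → Y ω = Y ω' → cs ω = cs ω' → ∃ f : Polynomial ℝ,
      f = R (slam F W ω') - R (slam F W ω) ∧ f.natDegree ≤ D + 1 ∧
      |f.eval (uw F W ω)| ≤ K * (1 + r * (D + 1) ^ 2) ∧
      |f.derivative.eval (uw F W ω)| ≤ K * (1 + r * (D + 1) ^ 2) ∧
      (∀ j, 3 ≤ j → |f.coeff j| ≤ r * (2 * K)) ∧ |f.coeff 2| ≤ K * 2 ^ Q := by
    intro ω ω' hω hω' hY e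
    obtain ⟨ω₀, g1, g2, g3⟩ := rfo_spec (F := F) (w := W) (r := r) (D := D) (c := c) (gp := gp)
      (SV := SV) (SE := SE) (SG := SG) (A := A) hω
    rw [hcs] at e
    dsimp only at e
    have e1 : R (slam F W ω) = Polynomial.C σ * hR F W r c gp ω₀ (slam F W ω) := by
      rw [hRe]
      dsimp only
      unfold hL
      rw [g1]
      rfl
    have e2 : R (slam F W ω') = Polynomial.C σ * hR F W r c gp ω₀ (slam F W ω') := by
      rw [hRe]
      dsimp only
      unfold hL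
      rw [← e, g1]
      rfl
    refine ⟨_, rfl, (Polynomial.natDegree_sub_le _ _).trans (max_le (hRdeg _) (hRdeg _)), ?_⟩
    obtain ⟨p1, p2⟩ := H.pair hω hω' hY g3
    have p3 := H.coef g2 e
    have p4 := H.nat ω₀ ω ω' g2 hω hω' hY g3 e
    rw [e1, e2, ← mul_sub]
    refine ⟨?_, ?_, fun j hj => ?_, ?_⟩
    · rw [Polynomial.eval_mul, Polynomial.eval_C, Polynomial.eval_sub, abs_mul, abs_of_nonneg hσ]
      exact p1
    · rw [Polynomial.derivative_C_mul, Polynomial.eval_mul, Polynomial.eval_C,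
        Polynomial.derivative_sub, Polynomial.eval_sub, abs_mul, abs_of_nonneg hσ]
      exact p2
    · rw [Polynomial.coeff_C_mul, Polynomial.coeff_sub, abs_mul, abs_of_nonneg hσ]
      exact p3 j hj
    · rw [Polynomial.coeff_C_mul, Polynomial.coeff_sub, abs_mul, abs_of_nonneg hσ, hR_two,
        abs_neg]
      exact p4
  have hCr : (1 + (r : ℝ) * (D + 1) ^ 2) ≤ C₂ := by
    rw [hC₂]
    have : 0 ≤ C₁ * ((r : ℝ) * 2 + 1) := by positivity
    linarith
  have hCd : C₁ * ((r : ℝ) * 2 + 1) ≤ C₂ := by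
    rw [hC₂]
    have : 0 ≤ (r : ℝ) * (D + 1) ^ 2 := by positivity
    linarith
  have hKK : ∀ x : ℝ, x ≤ C₂ * K → x ≤ K₂ := fun x hx => hx.trans hK2a
  -- the jets
  have hjet : ∀ j, j ≠ 2 → CH p (fun ω => ⌊pj F R W j ω⌋) Y ≤ (r * (D + 3) + 1) * lg := by
    intro j hj
    have s1 := CH_step h0 (fun ω => ⌊pj F R W j ω⌋) cs Y
    have s2 : CH p (fun ω => ⌊pj F R W j ω⌋) (fun ω => (cs ω, Y ω)) ≤ lg := by
      refine le_trans (CH_pair hpl _ _ (D := K₂ + 1) fun ω ω' hω hω' e => ?_) hlg2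
      obtain ⟨e1, e2⟩ := Prod.ext_iff.mp e
      dsimp only at e1 e2
      obtain ⟨f, f0, f1, f2, f3, f4, f5⟩ := hpair ω ω' (hpA ω hω) (hpA ω' hω') e2 e1
      refine floor_sub_le ?_
      have hT' := uw_eq (W := W) (H.TZ ω ω' (hpA ω hω) (hpA ω' hω') e2).1
      have e3 : pj F R W j ω - pj F R W j ω' =
          -((Polynomial.derivative^[j] f).eval (uw F W ω)) := by
        unfold pj
        rw [f0, ← hT', Polynomial.iterate_derivative_sub, Polynomial.eval_sub]
        ring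
      rw [e3, abs_neg]
      by_cases hj3 : 3 ≤ j
      · refine (Hder f j _ _ f1 (uw_abs F W ω) fun i hi => f4 i (hj3.trans hi)).trans ?_
        refine hKK _ ?_
        calc C₁ * (r * (2 * K)) = (C₁ * (r * 2)) * K := by ring
          _ ≤ (C₁ * (r * 2 + 1)) * K := by
              refine mul_le_mul_of_nonneg_right ?_ hK0
              exact mul_le_mul_of_nonneg_left (by linarith) (by linarith)
          _ ≤ C₂ * K := mul_le_mul_of_nonneg_right hCd hK0
      · have : j = 0 ∨ j = 1 := by omega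
        rcases this with rfl | rfl
        · rw [Function.iterate_zero, id]
          refine f2.trans (hKK _ ?_)
          rw [mul_comm]
          exact mul_le_mul_of_nonneg_right hCr hK0
        · rw [Function.iterate_one]
          refine f3.trans (hKK _ ?_)
          rw [mul_comm]
          exact mul_le_mul_of_nonneg_right hCr hK0
    nlinarith [s1, s2, hc1]
  have hjk : CH p (fun ω => ⌊pj F R W 2 ω / 2 ^ Q⌋) Y ≤ (r * (D + 3) + 1) * lg := by
    have s1 := CH_step h0 (fun ω => ⌊pj F R W 2 ω / 2 ^ Q⌋) cs Y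
    have s2 : CH p (fun ω => ⌊pj F R W 2 ω / 2 ^ Q⌋) (fun ω => (cs ω, Y ω)) ≤ lg := by
      refine le_trans (CH_pair hpl _ _ (D := K₂ + 1) fun ω ω' hω hω' e => ?_) hlg2
      obtain ⟨e1, e2⟩ := Prod.ext_iff.mp e
      dsimp only at e1 e2
      obtain ⟨f, f0, f1, f2, f3, f4, f5⟩ := hpair ω ω' (hpA ω hω) (hpA ω' hω') e2 e1
      refine floor_sub_le ?_
      have hT' := uw_eq (W := W) (H.TZ ω ω' (hpA ω hω) (hpA ω' hω') e2).1
      have e3 : pj F R W 2 ω / 2 ^ Q - pj F R W 2 ω' / 2 ^ Q =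
          -((Polynomial.derivative^[2] f).eval (uw F W ω)) / 2 ^ Q := by
        unfold pj
        rw [f0, ← hT', Polynomial.iterate_derivative_sub, Polynomial.eval_sub]
        ring
      have h2Q : (0 : ℝ) < 2 ^ Q := by positivity
      rw [e3, abs_div, abs_neg, abs_of_pos h2Q, div_le_iff₀ h2Q]
      have f6 : ∀ i, 2 ≤ i → |f.coeff i| ≤ (r * 2 + 1) * (K * 2 ^ Q) := by
        intro i hi
        have h4 : (K : ℝ) ≤ K * 2 ^ Q :=
          le_mul_of_one_le_right hK0 (one_le_pow₀ (by norm_num))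
        rcases hi.lt_or_eq with h3 | h3
        · refine (f4 i h3).trans ?_
          have h5 : (r : ℝ) * (2 * K) ≤ (r * 2) * (K * 2 ^ Q) := by
            rw [← mul_assoc]
            exact mul_le_mul_of_nonneg_left h4 (by positivity)
          linarith
        · rw [← h3]
          have h5 : 0 ≤ ((r : ℝ) * 2) * (K * 2 ^ Q) := by positivity
          linarith
      refine (Hder f 2 _ _ f1 (uw_abs F W ω) f6).trans ?_
      have h5 : C₁ * ((r * 2 + 1) * (K * 2 ^ Q)) = ((C₁ * (r * 2 + 1)) * K) * 2 ^ Q := by ring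
      rw [h5]
      exact mul_le_mul_of_nonneg_right
        (hKK _ (mul_le_mul_of_nonneg_right hCd hK0)) h2Q.le
    nlinarith [s1, s2, hc1]
  -- the errors
  have hCl : (D + 3) * ((r * (D + 3) + 1) * lg) ≤ δ * q * J := by
    refine le_trans ?_ hK
    rw [← hlg, ← mul_assoc]
    exact mul_le_mul_of_nonneg_right hCa hlg0
  have hrl : 0 ≤ ((r : ℝ) * (D + 3) + 1) * lg := by positivity
  rcases Nat.eq_zero_or_pos J with hJz | hJpos
  · -- no digits
    have hz : C * lg ≤ 0 := by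
      rw [hlg]
      refine hK.trans (le_of_eq ?_)
      rw [hJz]
      simp
    exfalso
    have h5 : 0 < lg := by
      rw [hlg]
      refine Real.log_pos ?_
      nlinarith
    nlinarith
  have hJp : (0 : ℝ) < J := by exact_mod_cast hJpos
  obtain ⟨er, her⟩ : ∃ er : ℕ → ℝ, er = fun _ => ((r * (D + 3) + 1) * lg) / J := ⟨_, rfl⟩
  have her1 : ∀ j, er j * J = (r * (D + 3) + 1) * lg := fun j => by
    rw [her]
    field_simp
  have hsum : ∑ j ∈ range (D + 1 + 1), er j ≤ δ * q := by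
    rw [her, Finset.sum_const, Finset.card_range, nsmul_eq_mul, ← mul_div_assoc,
      div_le_iff₀ hJp]
    refine le_trans ?_ hCl
    refine mul_le_mul_of_nonneg_right ?_ hrl
    push_cast
    linarith
  have hfin := HJ J hJ0 F A hA R (fun s => cx F W r D c gp SV SE SG s) Y er hRdeg
    (by rw [← hp]; exact hT) (fun ω ω' hω hω' e => H.TZ ω ω' hω hω' e)
    (by
      rw [← hp, ← hW]
      have := hc1
      rw [hcs] at this
      refine this.trans (le_trans ?_ hCl)
      nlinarith [hlg0, mul_nonneg (mul_nonneg hr0 hD0) hlg0, mul_nonneg hr0 hlg0,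
        mul_nonneg hD0 hlg0, mul_nonneg (mul_nonneg hD0 (mul_nonneg hr0 hD0)) hlg0]) hsum
    (fun j _ hj2 => by
      rw [← hp, ← hW, her1]
      exact hjet j hj2)
    (by
      rw [← hp, ← hW, ← hQ, her1]
      exact hjk)
    (fun B hB hBc i hi => by
      have h1 := hrow B hB hBc i hi
      have e : ∀ ω, pj F R W 0 ω = σ * (hL F W r D c gp SV SE SG A (slam F W ω)).eval
          (uw F W ω) := fun ω => by
        unfold pj
        rw [hRe, Function.iterate_zero, id]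
        dsimp only
        rw [Polynomial.eval_mul, Polynomial.eval_C]
      rw [← hW]
      simp only [e]
      exact h1)
  rw [← hp, ← hW] at hfin
  -- the number from the coefficient
  obtain ⟨Xf, hXf⟩ : ∃ Xf : F.Ω → Cx F r D × (Fin (D + 1 + 1) → ℤ), Xf = fun ω =>
      (cx F W r D c gp SV SE SG (slam F W ω), fun j : Fin (D + 1 + 1) =>
        ⌊(R (slam F W ω)).coeff j⌋) := ⟨_, rfl⟩
  rw [← hXf] at hfin
  have s1 := CH_step h0 (fun ω => (cx F W r D c gp SV SE SG (slam F W ω),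
        ⌊σ * nb F W r D c gp SV SE SG A (slam F W ω)⌋)) Xf Y
  have s2 : CH p (fun ω => (cx F W r D c gp SV SE SG (slam F W ω),
        ⌊σ * nb F W r D c gp SV SE SG A (slam F W ω)⌋)) (fun ω => (Xf ω, Y ω)) ≤
      Real.log 5 := by
    have t1 : CH p (fun ω => (cx F W r D c gp SV SE SG (slam F W ω),
        ⌊σ * nb F W r D c gp SV SE SG A (slam F W ω)⌋)) (fun ω => (Xf ω, Y ω)) ≤
        CH p (fun ω => ⌊σ * nb F W r D c gp SV SE SG A (slam F W ω)⌋)
          (fun ω => (Xf ω, Y ω)) := by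
      refine CH_mono_left h0 fun ω ω' _ _ e => ?_
      simp only [Prod.mk.injEq] at e ⊢
      refine ⟨?_, e.1⟩
      have := e.2.1
      rw [hXf] at this
      exact (Prod.ext_iff.mp this).1
    refine t1.trans ?_
    have e5 : (5 : ℝ) = 2 * ((2 : ℕ) : ℝ) + 1 := by norm_num
    rw [e5]
    refine CH_pair hpl _ _ fun ω ω' hω hω' e => ?_
    have e1 : Xf ω = Xf ω' := (Prod.ext_iff.mp e).1
    rw [hXf] at e1
    simp only [Prod.mk.injEq] at e1
    obtain ⟨e2, e3⟩ := e1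
    have e4 := congrFun e3 ⟨2, by omega⟩
    dsimp only at e4
    obtain ⟨ω₀, g1, g2, g3⟩ := rfo_spec (F := F) (w := W) (r := r) (D := D) (c := c) (gp := gp)
      (SV := SV) (SE := SE) (SG := SG) (A := A) (hpA ω hω)
    have k1 : ∀ ν : F.Ω, cx F W r D c gp SV SE SG (slam F W ν) =
        cx F W r D c gp SV SE SG (slam F W ω) → (R (slam F W ν)).coeff 2 =
        -(σ * nb F W r D c gp SV SE SG A (slam F W ν)) + σ * num r
          (fun l => vp F W (c l) (slam F W ω₀)) (fun l => gp l (slam F W ω₀)) := by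
      intro ν hν
      rw [hRe]
      dsimp only
      rw [Polynomial.coeff_C_mul]
      unfold hL nb
      rw [hν, g1]
      change σ * (hR F W r c gp ω₀ (slam F W ν)).coeff 2 = -(σ * num r
        (fun l => vp F W (c l) (slam F W ν)) (fun l => gp l (slam F W ω₀))) + _
      unfold hR
      rw [hgt_two (natDegree_vp F W _ _) (natDegree_vp F W _ _)
        (fun _ => natDegree_vp F W _ _) (fun _ => natDegree_vp F W _ _)]
      ring
    have k2 := k1 ω rfl
    have k3 := k1 ω' e2.symm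
    rw [k2, k3] at e4
    have k4 := of_floor_mul (t := 1) (a := -(σ * nb F W r D c gp SV SE SG A (slam F W ω)) +
      σ * num r (fun l => vp F W (c l) (slam F W ω₀)) (fun l => gp l (slam F W ω₀)))
      (b := -(σ * nb F W r D c gp SV SE SG A (slam F W ω')) +
      σ * num r (fun l => vp F W (c l) (slam F W ω₀)) (fun l => gp l (slam F W ω₀)))
      one_pos (by rw [one_mul, one_mul]; exact e4)
    refine floor_sub_le (D := 1) ?_
    rw [abs_le] at k4 ⊢
    push_cast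
    constructor <;> linarith [k4.1, k4.2]
  have hl5 : Real.log 5 ≤ ε / 2 * q * J := by
    have h1 : Real.log 5 / (ε / 2 * q) ≤ J := hJ₁.trans hJ1
    rw [div_le_iff₀ (by positivity)] at h1
    linarith
  linarith [s1, s2, hfin, hl5]

end law

end Pool.D2H
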