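import Pool.Agent.H23.D2.Rad

/-!
# Two points of one natural box

The curve between two points of a natural box which is straight in the natural coordinates. If the
second derivatives of the charts are natural on the box then the first derivatives at the two points
are near (`Sg.dif`), the natural norms at the two points are comparable (`Sg.tr`), and the charts are
affine between the two points up to a natural error (`Sg.pos`).
-/

set_option autoImplicit false

namespace Pool.D2S

open Finset Real MvPolynomial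
open Pool.Agent.H49.Ent Pool.Agent.H32.Dense Pool.STK Pool.KA Pool.KSAT Pool.K2S Pool.PB Pool.S6C
open Pool.GEN Pool.CHT Pool.D2R

variable {m : ℕ}

/-- Mean value. -/
theorem mv_le (f : Polynomial ℝ) {M : ℝ}
    (h : ∀ s ∈ Set.Icc (0 : ℝ) 1, |f.derivative.eval s| ≤ M) {u v : ℝ}
    (hu : u ∈ Set.Icc (0 : ℝ) 1) (hv : v ∈ Set.Icc (0 : ℝ) 1) : |f.eval u - f.eval v| ≤ M := by
  have h1 := (convex_Icc (0 : ℝ) 1).norm_image_sub_le_of_norm_hasDerivWithin_le
    (f := fun s => f.eval s) (f' := fun s => f.derivative.eval s) (C := M)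
    (fun s _ => (f.hasDerivAt s).hasDerivWithinAt) (fun s hs => by
      rw [Real.norm_eq_abs]
      exact h s hs) hv hu
  rw [Real.norm_eq_abs, Real.norm_eq_abs] at h1
  have hM : 0 ≤ M := (abs_nonneg _).trans (h u hu)
  have h2 : |u - v| ≤ 1 := by
    rw [abs_le]
    constructor <;> linarith [hu.1, hu.2, hv.1, hv.2]
  exact h1.trans (mul_le_of_le_one_right hM h2)

/-- The value along a curve depends only on the lower coordinates. -/
theorem aeval_dep {c : ℕ → Fin m} {i : ℕ} {Q : MvPolynomial (Option (Fin m)) ℝ} (h : DepC c i Q)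
    {P P' : Option (Fin m) → Polynomial ℝ} (h0 : P none = P' none)
    (h1 : ∀ l < i, P (some (c l)) = P' (some (c l))) :
    MvPolynomial.aeval P Q = MvPolynomial.aeval P' Q := by
  refine Polynomial.funext fun s => ?_
  rw [Pool.KBX.eval_aeval_poly, Pool.KBX.eval_aeval_poly]
  exact h _ _ (by rw [h0]) fun l hl => by rw [h1 l hl]

/-- **The curve between two points** which is straight in the natural coordinates. -/
theorem crv_ex {c : ℕ → Fin m} (n : ℕ) (hc : Set.InjOn c (Set.Iio n))
    {G : ℕ → MvPolynomial (Option (Fin m)) ℝ} (hdep : ∀ l, DepC c l (G l))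
    (x x' : Option (Fin m) → ℝ) : ∃ P : Option (Fin m) → Polynomial ℝ,
      (∀ o, (P o).eval 0 = x o) ∧ (∀ o, (P o).eval 1 = x' o) ∧
      P none = Polynomial.C (x none) + Polynomial.C (x' none - x none) * Polynomial.X ∧
      ∀ l < n, P (some (c l)) = MvPolynomial.aeval P (G l) +
        Polynomial.C (x (some (c l)) - eval x (G l)) +
        Polynomial.C ((x' (some (c l)) - eval x' (G l)) - (x (some (c l)) - eval x (G l))) *
          Polynomial.X := by
  classical
  induction n with
  | zero =>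
    refine ⟨fun o => Polynomial.C (x o) + Polynomial.C (x' o - x o) * Polynomial.X, fun o => ?_,
      fun o => ?_, rfl, fun l hl => absurd hl (Nat.not_lt_zero l)⟩
    · simp
    · simp
  | succ n ih =>
    obtain ⟨P, h0, h1, h2, h3⟩ := ih (hc.mono (Set.Iio_subset_Iio (Nat.le_succ n)))
    obtain ⟨R, hR⟩ : ∃ R : Polynomial ℝ, R = MvPolynomial.aeval P (G n) +
        Polynomial.C (x (some (c n)) - eval x (G n)) +
        Polynomial.C ((x' (some (c n)) - eval x' (G n)) - (x (some (c n)) - eval x (G n))) *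
          Polynomial.X := ⟨_, rfl⟩
    obtain ⟨P', hP'⟩ : ∃ P' : Option (Fin m) → Polynomial ℝ,
        P' = Function.update P (some (c n)) R := ⟨_, rfl⟩
    have k1 : P' (some (c n)) = R := by
      rw [hP']
      exact Function.update_self _ _ _
    have k2 : ∀ o, o ≠ some (c n) → P' o = P o := fun o ho => by
      rw [hP']
      exact Function.update_of_ne ho _ _
    have hne : ∀ l < n, (some (c l) : Option (Fin m)) ≠ some (c n) := by
      intro l hl e
      have := hc (Set.mem_Iio.2 (by omega)) (Set.mem_Iio.2 (by omega)) (Option.some_injective _ e)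
      omega
    have k0 : P' none = P none := k2 none (by simp)
    have k3 : ∀ l ≤ n, MvPolynomial.aeval P' (G l) = MvPolynomial.aeval P (G l) := fun l hl =>
      aeval_dep (hdep l) k0 fun j hj => k2 _ (hne j (by omega))
    have hx : (fun o => (P o).eval 0) = x := _root_.funext h0
    have hx' : (fun o => (P o).eval 1) = x' := _root_.funext h1
    refine ⟨P', fun o => ?_, fun o => ?_, by rw [k0, h2], fun l hl => ?_⟩
    · by_cases ho : o = some (c n)
      · rw [ho, k1, hR, Polynomial.eval_add, Polynomial.eval_add, Polynomial.eval_mul,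
          Polynomial.eval_C, Polynomial.eval_C, Polynomial.eval_X, Pool.KBX.eval_aeval_poly, hx]
        ring
      · rw [k2 o ho, h0]
    · by_cases ho : o = some (c n)
      · rw [ho, k1, hR, Polynomial.eval_add, Polynomial.eval_add, Polynomial.eval_mul,
          Polynomial.eval_C, Polynomial.eval_C, Polynomial.eval_X, Pool.KBX.eval_aeval_poly, hx']
        ring
      · rw [k2 o ho, h1]
    · rcases Nat.lt_succ_iff_lt_or_eq.1 hl with h | rfl
      · rw [k2 _ (hne l h), k3 l h.le, h3 l h]
      · rw [k1, k3 l le_rfl, hR]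

/-- **The second derivatives of the chart of `c l` are natural on the natural box.** -/
def NtB (c : ℕ → Fin m) (g : ℕ → ℕ) (a : ℕ) (G : ℕ → MvPolynomial (Option (Fin m)) ℝ) (t : ℝ)
    (k l : ℕ) : Prop :=
  ∀ b, NBx c G g a t l b → ∀ V V' : Option (Fin m) → ℝ,
    |hs (G l) b V V'| ≤ 2 ^ k / 2 ^ g l * (nrm c G g a l b V * nrm c G g a l b V')

/-- The natural distance of two points. -/
noncomputable def dst (c : ℕ → Fin m) (g : ℕ → ℕ) (a : ℕ) (G : ℕ → MvPolynomial (Option (Fin m)) ℝ)
    (r : ℕ) (x x' : Option (Fin m) → ℝ) : ℝ :=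
  2 ^ a * |x' none - x none| + ∑ l ∈ range r, 2 ^ g l *
    |(x' (some (c l)) - eval x' (G l)) - (x (some (c l)) - eval x (G l))|

theorem dst_nonneg (c : ℕ → Fin m) (g : ℕ → ℕ) (a : ℕ)
    (G : ℕ → MvPolynomial (Option (Fin m)) ℝ) (r : ℕ) (x x' : Option (Fin m) → ℝ) :
    0 ≤ dst c g a G r x x' :=
  add_nonneg (by positivity) (Finset.sum_nonneg fun _ _ => by positivity)

theorem dst_comm (c : ℕ → Fin m) (g : ℕ → ℕ) (a : ℕ)
    (G : ℕ → MvPolynomial (Option (Fin m)) ℝ) (r : ℕ) (x x' : Option (Fin m) → ℝ) :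
    dst c g a G r x x' = dst c g a G r x' x := by
  unfold dst
  rw [abs_sub_comm]
  congr 1
  exact Finset.sum_congr rfl fun l _ => by rw [abs_sub_comm]

theorem dst_le {c : ℕ → Fin m} {g : ℕ → ℕ} {a : ℕ} {G : ℕ → MvPolynomial (Option (Fin m)) ℝ}
    {r : ℕ} {x x' : Option (Fin m) → ℝ} {U : ℝ} (h0 : x' none = x none)
    (h : ∀ l < r, |x (some (c l)) - eval x (G l)| ≤ U / 2 ^ g l)
    (h' : ∀ l < r, |x' (some (c l)) - eval x' (G l)| ≤ U / 2 ^ g l) :
    dst c g a G r x x' ≤ r * (2 * U) := by
  unfold dst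
  rw [h0, sub_self, abs_zero, mul_zero, zero_add]
  refine (Finset.sum_le_sum (g := fun _ => 2 * U) fun l hl => ?_).trans (le_of_eq ?_)
  · have hl' := Finset.mem_range.1 hl
    have hg : (0 : ℝ) < 2 ^ g l := by positivity
    have h1 := (abs_sub (x' (some (c l)) - eval x' (G l)) (x (some (c l)) - eval x (G l))).trans
      (add_le_add (h' l hl') (h l hl'))
    have h2 := mul_le_mul_of_nonneg_left h1 hg.le
    refine h2.trans (le_of_eq ?_)
    field_simp
    ring
  · rw [Finset.sum_const, Finset.card_range, nsmul_eq_mul]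

/-- **The data of a segment.** -/
structure Sg (c : ℕ → Fin m) (g : ℕ → ℕ) (a k r : ℕ) (G : ℕ → MvPolynomial (Option (Fin m)) ℝ)
    (t : ℝ) (x x' : Option (Fin m) → ℝ) : Prop where
  inj : Set.InjOn c (Set.Iio r)
  dep : ∀ l, DepC c l (G l)
  nat : ∀ l ≤ r, NtB c g a G t k l
  bx : NBx c G g a t r x
  bx' : NBx c G g a t r x'

theorem Sg.symm {c : ℕ → Fin m} {g : ℕ → ℕ} {a k r : ℕ}
    {G : ℕ → MvPolynomial (Option (Fin m)) ℝ} {t : ℝ} {x x' : Option (Fin m) → ℝ}
    (H : Sg c g a k r G t x x') : Sg c g a k r G t x' x :=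
  ⟨H.inj, H.dep, H.nat, H.bx', H.bx⟩

/-- Between two numbers. -/
theorem mid_le {u v s M : ℝ} (hu : |u| ≤ M) (hv : |v| ≤ M) (hs : s ∈ Set.Icc (0 : ℝ) 1) :
    |u + (v - u) * s| ≤ M := by
  rw [abs_le] at hu hv ⊢
  constructor <;> nlinarith [hs.1, hs.2, hu.1, hu.2, hv.1, hv.2]

/-- Transport along the curve. -/
theorem Sg.main {c : ℕ → Fin m} {g : ℕ → ℕ} {a k r : ℕ}
    {G : ℕ → MvPolynomial (Option (Fin m)) ℝ} {t : ℝ} {x x' : Option (Fin m) → ℝ}
    (H : Sg c g a k r G t x x') :
    (∀ l ≤ r, ∀ V : Option (Fin m) → ℝ, |dd (G l) x' V - dd (G l) x V| ≤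
      2 ^ k / 2 ^ g l * dst c g a G r x x' * ((1 + 2 ^ k * dst c g a G r x x') ^ l *
        nrm c G g a l x V)) ∧
    (∀ l ≤ r, ∀ V : Option (Fin m) → ℝ, nrm c G g a l x' V ≤
      (1 + 2 ^ k * dst c g a G r x x') ^ l * nrm c G g a l x V) ∧
    (∀ l ≤ r, |eval x' (G l) - eval x (G l) - dd (G l) x (x' - x)| ≤
      2 ^ k / 2 ^ g l * dst c g a G r x x' * ((1 + 2 ^ k * dst c g a G r x x') ^ l *
        dst c g a G r x x')) := by
  classical
  obtain ⟨P, p0, p1, p2, p3⟩ := crv_ex r H.inj H.dep x x'
  obtain ⟨N, hN⟩ : ∃ N : ℝ, N = dst c g a G r x x' := ⟨_, rfl⟩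
  rw [← hN]
  have hN0 : 0 ≤ N := by
    rw [hN]
    exact dst_nonneg _ _ _ _ _ _ _
  have hk0 : (0 : ℝ) < 2 ^ k := by positivity
  -- the points of the curve
  obtain ⟨B, hB⟩ : ∃ B : ℝ → Option (Fin m) → ℝ, B = fun s o => (P o).eval s := ⟨_, rfl⟩
  obtain ⟨V', hV'⟩ : ∃ V' : ℝ → Option (Fin m) → ℝ,
      V' = fun s o => (Polynomial.derivative (P o)).eval s := ⟨_, rfl⟩
  have b0 : B 0 = x := by
    rw [hB]
    exact _root_.funext p0
  have b1 : B 1 = x' := by
    rw [hB]
    exact _root_.funext p1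
  have hder : ∀ (Q : MvPolynomial (Option (Fin m)) ℝ) (s : ℝ),
      (Polynomial.derivative (MvPolynomial.aeval P Q)).eval s = dd Q (B s) (V' s) := by
    intro Q s
    exact (der_curve P (x := B s) (V := V' s)
      (Z := fun o => (Polynomial.derivative (Polynomial.derivative (P o))).eval s) (s := s)
      (fun o => by rw [hB]) (fun o => by rw [hV']) (fun o => rfl) Q).1
  have hev : ∀ (Q : MvPolynomial (Option (Fin m)) ℝ) (s : ℝ),
      (MvPolynomial.aeval P Q).eval s = eval (B s) Q := by
    intro Q s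
    rw [Pool.KBX.eval_aeval_poly, hB]
  -- the natural coordinates
  have hbx : ∀ s ∈ Set.Icc (0 : ℝ) 1, NBx c G g a t r (B s) := by
    intro s hs
    refine ⟨?_, fun l hl => ?_⟩
    · have e1 : B s none - t = (x none - t) + ((x' none - t) - (x none - t)) * s := by
        rw [hB]
        dsimp only
        rw [p2, Polynomial.eval_add, Polynomial.eval_mul, Polynomial.eval_C, Polynomial.eval_C,
          Polynomial.eval_X]
        ring
      rw [e1]
      exact mid_le H.bx.1 H.bx'.1 hs
    · have e1 : B s (some (c l)) - eval (B s) (G l) = (x (some (c l)) - eval x (G l)) +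
          ((x' (some (c l)) - eval x' (G l)) - (x (some (c l)) - eval x (G l))) * s := by
        have e2 : B s (some (c l)) = (P (some (c l))).eval s := by rw [hB]
        rw [e2, p3 l hl, Polynomial.eval_add, Polynomial.eval_add, Polynomial.eval_mul,
          Polynomial.eval_C, Polynomial.eval_C, Polynomial.eval_X, hev]
        ring
      rw [e1]
      exact mid_le (H.bx.2 l hl) (H.bx'.2 l hl) hs
  have hvel : ∀ s, ∀ l ≤ r, nrm c G g a l (B s) (V' s) ≤ N := by
    intro s l hl
    have e0 : V' s none = x' none - x none := by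
      rw [hV']
      dsimp only
      rw [p2]
      simp
    have e1 : ∀ j < r, V' s (some (c j)) - dd (G j) (B s) (V' s) =
        (x' (some (c j)) - eval x' (G j)) - (x (some (c j)) - eval x (G j)) := by
      intro j hj
      have e2 : V' s (some (c j)) = (Polynomial.derivative (P (some (c j)))).eval s := by rw [hV']
      rw [e2, p3 j hj, Polynomial.derivative_add, Polynomial.derivative_add,
        Polynomial.derivative_C_mul, Polynomial.derivative_C, Polynomial.derivative_X,
        Polynomial.eval_add, Polynomial.eval_add, hder]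
      simp
    rw [hN]
    unfold nrm dst
    rw [e0]
    refine add_le_add le_rfl ?_
    refine (Finset.sum_le_sum_of_subset_of_nonneg (Finset.range_mono hl) fun _ _ _ => by
      positivity).trans (le_of_eq ?_)
    refine Finset.sum_congr rfl fun j hj => ?_
    rw [e1 j (Finset.mem_range.1 hj)]
  -- transport
  have hpow : ∀ l, (1 : ℝ) ≤ (1 + 2 ^ k * N) ^ l := fun l => one_le_pow₀ (by nlinarith)
  have hdd : ∀ l ≤ r, ∀ (V : Option (Fin m) → ℝ) (M : ℝ),
      (∀ s ∈ Set.Icc (0 : ℝ) 1, nrm c G g a l (B s) V ≤ M) →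
      ∀ s ∈ Set.Icc (0 : ℝ) 1, ∀ u ∈ Set.Icc (0 : ℝ) 1,
        |dd (G l) (B s) V - dd (G l) (B u) V| ≤ 2 ^ k / 2 ^ g l * N * M := by
    intro l hl V M hM s hse u hu
    obtain ⟨f, hf⟩ : ∃ f : Polynomial ℝ, f = ∑ o, MvPolynomial.aeval P (pderiv o (G l)) *
        Polynomial.C (V o) := ⟨_, rfl⟩
    have f1 : ∀ s, f.eval s = dd (G l) (B s) V := by
      intro s
      rw [hf, Polynomial.eval_finsetSum]
      unfold dd
      refine Finset.sum_congr rfl fun o _ => ?_
      rw [Polynomial.eval_mul, Polynomial.eval_C, hev]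
    have f2 : ∀ s, f.derivative.eval s = hs (G l) (B s) (V' s) V := by
      intro s
      rw [hf, Polynomial.derivative_sum, Polynomial.eval_finsetSum]
      unfold hs
      refine Finset.sum_congr rfl fun o _ => ?_
      rw [Polynomial.derivative_mul, Polynomial.derivative_C, mul_zero, add_zero,
        Polynomial.eval_mul, Polynomial.eval_C, hder]
    rw [← f1, ← f1]
    refine mv_le f (fun v hv => ?_) hse hu
    rw [f2]
    have h1 := H.nat l hl (B v) ⟨(hbx v hv).1, fun j hj => (hbx v hv).2 j (by omega)⟩ (V' v) V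
    refine h1.trans ?_
    have h2 := hvel v l hl
    have h3 := hM v hv
    have h4 := nrm_nonneg c G g a l (B v) V
    have h5 : (0 : ℝ) ≤ 2 ^ k / 2 ^ g l := by positivity
    rw [mul_assoc]
    exact mul_le_mul_of_nonneg_left (mul_le_mul h2 h3 h4 hN0) h5
  have htr : ∀ l ≤ r, ∀ (V : Option (Fin m) → ℝ), ∀ s ∈ Set.Icc (0 : ℝ) 1,
      ∀ u ∈ Set.Icc (0 : ℝ) 1, nrm c G g a l (B s) V ≤
        (1 + 2 ^ k * N) ^ l * nrm c G g a l (B u) V := by
    intro l
    induction l with
    | zero =>
      intro _ V s _ u _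
      unfold nrm
      simp
    | succ l ih =>
      intro hl V s hs u hu
      have i1 := ih (by omega) V
      have e1 : ∀ s, nrm c G g a (l + 1) (B s) V = nrm c G g a l (B s) V +
          2 ^ g l * |V (some (c l)) - dd (G l) (B s) V| := by
        intro s
        unfold nrm
        rw [Finset.sum_range_succ, add_assoc]
      have h1 := hdd l (by omega) V ((1 + 2 ^ k * N) ^ l * nrm c G g a l (B u) V)
        (fun s hs => i1 s hs u hu) s hs u hu
      have hg : (0 : ℝ) < 2 ^ g l := by positivity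
      have h2 : 2 ^ g l * |V (some (c l)) - dd (G l) (B s) V| ≤
          2 ^ g l * |V (some (c l)) - dd (G l) (B u) V| +
          2 ^ k * N * ((1 + 2 ^ k * N) ^ l * nrm c G g a l (B u) V) := by
        have e2 : V (some (c l)) - dd (G l) (B s) V = (V (some (c l)) - dd (G l) (B u) V) -
            (dd (G l) (B s) V - dd (G l) (B u) V) := by ring
        rw [e2]
        have h3 := mul_le_mul_of_nonneg_left ((abs_sub (V (some (c l)) - dd (G l) (B u) V)
          (dd (G l) (B s) V - dd (G l) (B u) V)).trans (add_le_add le_rfl h1)) hg.le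
        refine h3.trans (le_of_eq ?_)
        field_simp
      rw [e1, e1]
      have h4 := i1 s hs u hu
      have h5 : 2 ^ g l * |V (some (c l)) - dd (G l) (B u) V| ≤
          (1 + 2 ^ k * N) ^ (l + 1) * (2 ^ g l * |V (some (c l)) - dd (G l) (B u) V|) :=
        le_mul_of_one_le_left (by positivity) (hpow _)
      have h6 : (1 + 2 ^ k * N) ^ (l + 1) * nrm c G g a l (B u) V =
          (1 + 2 ^ k * N) ^ l * nrm c G g a l (B u) V +
          2 ^ k * N * ((1 + 2 ^ k * N) ^ l * nrm c G g a l (B u) V) := by ring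
      rw [mul_add, h6]
      linarith
  have m0 : (0 : ℝ) ∈ Set.Icc (0 : ℝ) 1 := ⟨le_rfl, zero_le_one⟩
  have m1 : (1 : ℝ) ∈ Set.Icc (0 : ℝ) 1 := ⟨zero_le_one, le_rfl⟩
  refine ⟨fun l hl V => ?_, fun l hl V => ?_, fun l hl => ?_⟩
  · have h1 := hdd l hl V ((1 + 2 ^ k * N) ^ l * nrm c G g a l x V)
      (fun s hs => by
        have := htr l hl V s hs 0 m0
        rwa [b0] at this) 1 m1 0 m0
    rwa [b0, b1] at h1
  · have := htr l hl V 1 m1 0 m0
    rwa [b0, b1] at this
  · obtain ⟨f, hf⟩ : ∃ f : Polynomial ℝ, f = MvPolynomial.aeval P (G l) -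
        ∑ o, Polynomial.C (eval x (pderiv o (G l))) * P o := ⟨_, rfl⟩
    have f1 : f.eval 1 - f.eval 0 = eval x' (G l) - eval x (G l) - dd (G l) x (x' - x) := by
      rw [hf, Polynomial.eval_sub, Polynomial.eval_sub, hev, hev, b0, b1,
        Polynomial.eval_finsetSum, Polynomial.eval_finsetSum]
      have e1 : dd (G l) x (x' - x) = (∑ o, eval x (pderiv o (G l)) * x' o) -
          ∑ o, eval x (pderiv o (G l)) * x o := by
        unfold dd
        rw [← Finset.sum_sub_distrib]
        exact Finset.sum_congr rfl fun o _ => by rw [Pi.sub_apply]; ring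
      have e2 : ∀ s : ℝ, ∑ o, Polynomial.eval s (Polynomial.C (eval x (pderiv o (G l))) * P o) =
          ∑ o, eval x (pderiv o (G l)) * (P o).eval s := fun s =>
        Finset.sum_congr rfl fun o _ => by rw [Polynomial.eval_mul, Polynomial.eval_C]
      rw [e1, e2, e2]
      simp only [p0, p1]
      ring
    have f2 : ∀ s, f.derivative.eval s = dd (G l) (B s) (V' s) - dd (G l) x (V' s) := by
      intro s
      rw [hf, Polynomial.derivative_sub, Polynomial.eval_sub, hder, Polynomial.derivative_sum,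
        Polynomial.eval_finsetSum]
      congr 1
      unfold dd
      refine Finset.sum_congr rfl fun o _ => ?_
      rw [Polynomial.derivative_C_mul, Polynomial.eval_mul, Polynomial.eval_C, hV']
    rw [← f1]
    refine mv_le f (fun s hs => ?_) m1 m0
    rw [f2, ← b0]
    refine hdd l hl (V' s) _ (fun u hu => ?_) s hs 0 m0
    exact (htr l hl (V' s) u hu s hs).trans
      (mul_le_mul_of_nonneg_left (hvel s l hl) (by positivity))

end Pool.D2S
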