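import Pool.Agent.H28.D2.FrS
import Pool.Agent.H28.D2.Seg
import Pool.Agent.H60.D2.Rnd
import Pool.Agent.H91.LA.Grad
import Pool.Agent.H23.D2.Fam

/-!
# The data of the context in a closed frame

`fv l`: the vector with the natural component `1` in the direction of `c l` and `0` in the others.
`fdat`: the own paths in the frame `ψH (slam)` and the gradients of the label `Ht` (closed on a longer
window) along the line in the directions `fv l`, as data of the context.
-/

set_option autoImplicit false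

namespace Pool.D2F2

open Finset Real MvPolynomial
open Pool.Agent.H49.Ent Pool.Agent.H32.Dense Pool.STK Pool.KA Pool.KSAT Pool.K2S Pool.PB Pool.GEN
open Pool.S6C Pool.LA91 Pool.CHT Pool.CHX
open Pool.OWN68 (opl tw uw mid dirv natDegree_opl opl_jet uw_abs)
open Pool.D2R (dd hs co)
open Pool.D2F (cv CvC eta dvn nc grd cv_grd cv_nc cv_eq cv_congr eta_dvn dvn_none FrOK)
open Pool.D2Z (cvc_grd)
open Pool.D2H (uw_eq)

variable {m J : ℕ}

/-! ### The frame vectors -/

/-- **The frame vector** in the direction of `c l`. -/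
noncomputable def fv (c : ℕ → Fin m) (g : ℕ → ℕ) (W r : ℕ) (ψ : ℕ → Option (Fin m) → ℝ) (l : ℕ) :
    Option (Fin m) → ℝ := fun o => 2 ^ g l * dvn c g W ψ (fun x => if x = l + 1 then 1 else 0) r o

theorem fv_none (c : ℕ → Fin m) (g : ℕ → ℕ) (W r : ℕ) (ψ : ℕ → Option (Fin m) → ℝ) (l : ℕ) :
    fv c g W r ψ l none = 0 := by
  unfold fv
  rw [dvn_none]
  simp

theorem cv_fv (c : ℕ → Fin m) (g : ℕ → ℕ) (W r : ℕ) (ψ : ℕ → Option (Fin m) → ℝ) (l : ℕ)
    (φ : Option (Fin m) → ℝ) : cv φ (fv c g W r ψ l) = 2 ^ g l * nc c g W ψ r φ (l + 1) := by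
  unfold cv nc cv fv
  rw [Finset.mul_sum]
  exact Finset.sum_congr rfl fun o _ => by ring

/-- The natural components of the frame vector. -/
theorem fv_comp {c : ℕ → Fin m} {r : ℕ} (hc : Set.InjOn c (Set.Iio r)) (g : ℕ → ℕ) (W : ℕ)
    {ψ : ℕ → Option (Fin m) → ℝ} (hψ : ∀ l, CvC c l (ψ l)) (l : ℕ) {j : ℕ} (hj : j < r) :
    fv c g W r ψ l (some (c j)) - cv (ψ j) (fv c g W r ψ l) = if j = l then 1 else 0 := by
  have h := eta_dvn hc g W hψ (fun x => if x = l + 1 then 1 else 0) (j := j + 1) (by omega)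
  simp only [eta] at h
  have e1 : fv c g W r ψ l (some (c j)) - cv (ψ j) (fv c g W r ψ l) =
      2 ^ g l * (dvn c g W ψ (fun x => if x = l + 1 then 1 else 0) r (some (c j)) -
        cv (ψ j) (dvn c g W ψ (fun x => if x = l + 1 then 1 else 0) r)) := by
    have e2 : cv (ψ j) (fv c g W r ψ l) =
        2 ^ g l * cv (ψ j) (dvn c g W ψ (fun x => if x = l + 1 then 1 else 0) r) := by
      unfold cv fv
      rw [Finset.mul_sum]
      exact Finset.sum_congr rfl fun o _ => by ring
    rw [e2]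
    unfold fv
    ring
  rw [e1]
  by_cases h1 : j = l
  · subst h1
    rw [if_pos rfl] at h ⊢
    rw [h]
  · rw [if_neg h1]
    rw [if_neg (by omega)] at h
    have h2 : dvn c g W ψ (fun x => if x = l + 1 then 1 else 0) r (some (c j)) -
        cv (ψ j) (dvn c g W ψ (fun x => if x = l + 1 then 1 else 0) r) = 0 := by
      have hg : (2 : ℝ) ^ g j ≠ 0 := by positivity
      exact (mul_eq_zero.1 h).resolve_left hg
    rw [h2, mul_zero]

/-- **The derivative in frame components.** -/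
theorem dd_fv {c : ℕ → Fin m} {r : ℕ} (hc : Set.InjOn c (Set.Iio r)) (g : ℕ → ℕ) (W : ℕ)
    {ψ : ℕ → Option (Fin m) → ℝ} (hψ : ∀ l, CvC c l (ψ l)) {Q : MvPolynomial (Option (Fin m)) ℝ}
    (hQ : DepC c r Q) (x : Option (Fin m) → ℝ) {V : Option (Fin m) → ℝ} (h0 : V none = 0) :
    dd Q x V = ∑ l ∈ range r, dd Q x (fv c g W r ψ l) * (V (some (c l)) - cv (ψ l) V) := by
  rw [← cv_grd, cv_nc hc g W hψ (cvc_grd hQ x), Finset.sum_range_succ']
  have e0 : eta c g W ψ V 0 = 0 := by
    simp only [eta]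
    rw [h0, mul_zero]
  rw [e0, mul_zero, add_zero]
  refine Finset.sum_congr rfl fun l _ => ?_
  rw [← cv_grd, cv_fv]
  simp only [eta]
  ring

/-! ### The polynomials -/

/-- The frame coordinate. -/
noncomputable def fpo (c : ℕ → Fin m) (r : ℕ) (ψ : ℕ → Option (Fin m) → ℝ) (l : ℕ) :
    MvPolynomial (Option (Fin m)) ℝ :=
  X (some (c l)) - if l < r then ∑ o, C (ψ l o) * X o else 0

/-- The gradient in the direction of the frame vector. -/
noncomputable def gpo (c : ℕ → Fin m) (g : ℕ → ℕ) (W r : ℕ) (ψ : ℕ → Option (Fin m) → ℝ)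
    (R : MvPolynomial (Option (Fin m)) ℝ) (l : ℕ) : MvPolynomial (Option (Fin m)) ℝ :=
  ∑ o, C (fv c g W r ψ l o) * pderiv o R

theorem eval_fpo (c : ℕ → Fin m) (r : ℕ) (ψ : ℕ → Option (Fin m) → ℝ) (l : ℕ)
    (b : Option (Fin m) → ℝ) : eval b (fpo c r ψ l) =
      b (some (c l)) - if l < r then cv (ψ l) b else 0 := by
  unfold fpo
  split_ifs
  · rw [map_sub, eval_X, map_sum]
    unfold cv
    congr 1
    exact Finset.sum_congr rfl fun o _ => by rw [map_mul, eval_C, eval_X]
  · rw [map_sub, eval_X, map_zero]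

theorem pd_fpo (c : ℕ → Fin m) (r : ℕ) (ψ : ℕ → Option (Fin m) → ℝ) (l : ℕ)
    (b V : Option (Fin m) → ℝ) : ∑ o, V o * eval b (pderiv o (fpo c r ψ l)) =
      V (some (c l)) - if l < r then cv (ψ l) V else 0 := by
  classical
  have e1 : ∀ (o k : Option (Fin m)), eval b (pderiv o (X k : MvPolynomial (Option (Fin m)) ℝ)) =
      if k = o then 1 else 0 := by
    intro o k
    rw [pderiv_X]
    by_cases h : k = o
    · rw [if_pos h, h, Pi.single_eq_same, map_one]
    · rw [if_neg h, Pi.single_eq_of_ne h, map_zero]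
  have e2 : ∀ k : Option (Fin m), ∑ o, V o * (if k = o then (1 : ℝ) else 0) = V k := by
    intro k
    simp
  unfold fpo
  split_ifs
  · have e3 : ∀ o, V o * eval b (pderiv o (X (some (c l)) -
        ∑ k, C (ψ l k) * X k : MvPolynomial (Option (Fin m)) ℝ)) =
        V o * (if some (c l) = o then 1 else 0) - ∑ k, ψ l k * (V o * (if k = o then 1 else 0)) := by
      intro o
      rw [map_sub, map_sub, e1, map_sum, map_sum, mul_sub, Finset.mul_sum]
      congr 1
      refine Finset.sum_congr rfl fun k _ => ?_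
      rw [pderiv_C_mul, map_mul, eval_C, e1]
      ring
    rw [Finset.sum_congr rfl fun o _ => e3 o, Finset.sum_sub_distrib, e2, Finset.sum_comm]
    unfold cv
    congr 1
    refine Finset.sum_congr rfl fun k _ => ?_
    rw [← Finset.mul_sum, e2]
  · rw [sub_zero, sub_zero]
    rw [Finset.sum_congr rfl fun o _ => by rw [e1], e2]

theorem deg_fpo (c : ℕ → Fin m) (r : ℕ) (ψ : ℕ → Option (Fin m) → ℝ) (l : ℕ) :
    (fpo c r ψ l).totalDegree ≤ 1 := by
  unfold fpo
  split_ifs
  · refine (totalDegree_sub _ _).trans (max_le (totalDegree_X _).le ?_)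
    refine (totalDegree_finsetSum _ _).trans (Finset.sup_le fun o _ => ?_)
    refine (totalDegree_mul _ _).trans ?_
    rw [totalDegree_C, totalDegree_X]
  · rw [sub_zero]
    exact (totalDegree_X _).le

theorem eval_gpo (c : ℕ → Fin m) (g : ℕ → ℕ) (W r : ℕ) (ψ : ℕ → Option (Fin m) → ℝ)
    (R : MvPolynomial (Option (Fin m)) ℝ) (l : ℕ) (b : Option (Fin m) → ℝ) :
    eval b (gpo c g W r ψ R l) = dd R b (fv c g W r ψ l) := by
  unfold gpo dd
  rw [map_sum]
  exact Finset.sum_congr rfl fun o _ => by rw [map_mul, eval_C]; ring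

theorem deg_gpo (c : ℕ → Fin m) (g : ℕ → ℕ) (W r : ℕ) (ψ : ℕ → Option (Fin m) → ℝ)
    {R : MvPolynomial (Option (Fin m)) ℝ} {D : ℕ} (hR : R.totalDegree ≤ D) (l : ℕ) :
    (gpo c g W r ψ R l).totalDegree ≤ D := by
  unfold gpo
  refine (totalDegree_finsetSum _ _).trans (Finset.sup_le fun o _ => ?_)
  refine (totalDegree_mul _ _).trans ?_
  rw [totalDegree_C, zero_add]
  exact totalDegree_pdσ hR o

/-! ### The data -/

/-- **The data of the context** in the closed frame `ψH`, for the label `Ht` closed on the window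
`W - n`. -/
noncomputable def fdat (F : Fam m J) (c : ℕ → Fin m) (g : ℕ → ℕ) (W n r D : ℕ)
    (ψH : LnT F → ℕ → Option (Fin m) → ℝ) (Ht : LnT F → MvPolynomial (Option (Fin m)) ℝ)
    (hD : ∀ s, (Ht s).totalDegree ≤ D) (SV SE SG : ℕ → ℝ) :
    Dat F (ℕ → Option (Fin m) → ℝ) r D where
  fc := ψH
  P := fun l s => opl F W (fpo c r (ψH s) l) s
  gp := fun l s => opl F W (gpo c g W r (ψH s) (Ht (co n s)) l) s
  SV := SV
  SE := SE
  SG := SG
  P1 := fun l s => natDegree_opl F W (deg_fpo c r (ψH s) l) s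
  gD := fun l s => natDegree_opl F W (deg_gpo c g W r (ψH s) (hD _) l) s

section fdat

variable {F : Fam m J} {c : ℕ → Fin m} {g : ℕ → ℕ} {W n r D : ℕ}
  {ψH : LnT F → ℕ → Option (Fin m) → ℝ} {Ht : LnT F → MvPolynomial (Option (Fin m)) ℝ}
  {hD : ∀ s, (Ht s).totalDegree ≤ D} {SV SE SG : ℕ → ℝ}

theorem jet_zero' (H : MvPolynomial (Option (Fin m)) ℝ) (b v : Option (Fin m) → ℝ) :
    jet 0 H b v = eval b H := by
  unfold jet
  rw [Function.iterate_zero, id, Pool.LA91.eval_alp]
  congr 2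
  funext o
  ring

/-- The position in the frame. -/
theorem fdat_v (hW : W ≤ J) (l : ℕ) (ω : F.Ω) :
    (fdat F c g W n r D ψH Ht hD SV SE SG).v W l ω = bt F ω (some (c l)) -
      if l < r then cv (ψH (slam F W ω) l) (bt F ω) else 0 := by
  have h := opl_jet F hW (fpo c r (ψH (slam F W ω)) l) ω 0
  rw [Function.iterate_zero, id, pow_zero, one_mul, jet_zero', eval_fpo] at h
  exact h

/-- The first derivative. -/
theorem coeff_one {P : Polynomial ℝ} (h : P.natDegree ≤ 1) (u : ℝ) :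
    P.coeff 1 = P.derivative.eval u := by
  rw [Polynomial.eq_X_add_C_of_natDegree_le_one h]
  simp

/-- The velocity in the frame. -/
theorem fdat_e (hW : W ≤ J) (l : ℕ) (ω : F.Ω) :
    (fdat F c g W n r D ψH Ht hD SV SE SG).e W l ω = 1 / 2 ^ (W + 1) * (bd F ω (some (c l)) -
      if l < r then cv (ψH (slam F W ω) l) (bd F ω) else 0) := by
  have h := opl_jet F hW (fpo c r (ψH (slam F W ω)) l) ω 1
  rw [Function.iterate_one, pow_one, jet_one, pd_fpo] at h
  rw [← h]
  exact coeff_one ((fdat F c g W n r D ψH Ht hD SV SE SG).P1 l (slam F W ω)) (uw F W ω)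

/-- The gradient at the own time. -/
theorem fdat_g (hW : W ≤ J) (l : ℕ) (ω : F.Ω) :
    ((fdat F c g W n r D ψH Ht hD SV SE SG).gp l (slam F W ω)).eval (uw F W ω) =
      dd (Ht (co n (slam F W ω))) (bt F ω) (fv c g W r (ψH (slam F W ω)) l) := by
  have h := opl_jet F hW (gpo c g W r (ψH (slam F W ω)) (Ht (co n (slam F W ω))) l) ω 0
  rw [Function.iterate_zero, id, pow_zero, one_mul, jet_zero', eval_gpo] at h
  exact h

/-- The gradient at the other times of the window. -/
theorem fdat_gu (l : ℕ) (s : LnT F) (u : ℝ) :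
    ((fdat F c g W n r D ψH Ht hD SV SE SG).gp l s).eval u =
      dd (Ht (co n s)) (fun o => mid F W s o + u / 2 ^ (W + 1) * dirv F s o)
        (fv c g W r (ψH s) l) := by
  change (opl F W (gpo c g W r (ψH s) (Ht (co n s)) l) s).eval u = _
  unfold opl
  rw [Polynomial.eval_comp, Polynomial.eval_mul, Polynomial.eval_C, Polynomial.eval_X,
    Pool.LA91.eval_alp, eval_gpo]
  congr 1
  funext o
  ring

/-- **The own paths are coordinates in a frame.** -/
theorem fdat_frd {A : F.Ω → Prop} {E₀ : ℕ} (hW : W ≤ J) (hc : Set.InjOn c (Set.Iio r))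
    (hψ : ∀ s l, CvC c l (ψH s l))
    (hlip : ∀ ω, A ω → ∀ l < r, ∀ j < l, |ψH (slam F W ω) l (some (c j))| ≤ E₀) :
    FrD (fdat F c g W n r D ψH Ht hD SV SE SG) A W c E₀ := by
  refine ⟨fun ω ω' hω hω' hT hfc l hl => ?_⟩
  change ψH (slam F W ω) = ψH (slam F W ω') at hfc
  have ht : bt F ω none = bt F ω' none := by
    change F.t ω = F.t ω'
    unfold Fam.t
    rw [hT]
  rw [fdat_v hW, fdat_v hW, ← hfc]
  have e1 : ∀ (ν : F.Ω) (k : Fin m), bt F ν (some k) = F.x ν k := by
    intro ν k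
    rfl
  by_cases h : l < r
  · refine ⟨fun j => ψH (slam F W ω) l (some (c j)), fun j hj => hlip ω hω l h j hj, ?_⟩
    rw [if_pos h, if_pos h, cv_eq (hc.mono (Set.Iio_subset_Iio hl)) (hψ _ l) (bt F ω),
      cv_eq (hc.mono (Set.Iio_subset_Iio hl)) (hψ _ l) (bt F ω'), ← ht]
    simp only [e1, mul_sub, Finset.sum_sub_distrib]
    ring
  · refine ⟨fun _ => 0, fun _ _ => by simp, ?_⟩
    rw [if_neg h, if_neg h]
    simp only [e1, zero_mul, Finset.sum_const_zero]
    ring

end fdat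

end Pool.D2F2
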