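import Pool.Agent.H28.D2.Geo2

/-!
# Two lines of one ball, at different times

`Pt2`: two points of one natural box, the times differ by at most the radius. `Gb.lines`: the own
paths in the frame of two lines with the same charts of a ball: the coefficients are near.
-/

set_option autoImplicit false

namespace Pool.D2F2

open Finset Real MvPolynomial
open Pool.Agent.H49.Ent Pool.Agent.H32.Dense Pool.STK Pool.KA Pool.KSAT Pool.K2S Pool.PB Pool.GEN
open Pool.S6C Pool.LA91 Pool.CHT Pool.CHX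
open Pool.OWN68 (opl tw uw mid dirv natDegree_opl opl_jet uw_abs t_mid)
open Pool.D2R (dd hs co nrm dd_sub nrm_nonneg)
open Pool.D2F (cv CvC eta cv_sub cv_smul)
open Pool.D2Z (en en_succ en_zero en_nonneg en_mono en_eq)
open Pool.D2S (Pr Sg NtB yk en_rec dst_nonneg dst_comm)
open Pool.F5 (NatH)

variable {m : ℕ}

/-- **Two points of one ball, in a frame**, the times differ by at most the radius. -/
structure Pt2 (c : ℕ → Fin m) (g ga : ℕ → ℕ) (W a k r : ℕ)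
    (G : ℕ → MvPolynomial (Option (Fin m)) ℝ) (t : ℝ) (ψ : ℕ → Option (Fin m) → ℝ)
    (x x' : Option (Fin m) → ℝ) : Prop where
  sg : Sg c ga a k r G t x x'
  t1 : 2 ^ a * |x' none - x none| ≤ 1
  px : ∀ l ≤ r, |x (some (c l)) - eval x (G l)| ≤ 1 / 2 ^ ga l
  px' : ∀ l ≤ r, |x' (some (c l)) - eval x' (G l)| ≤ 1 / 2 ^ ga l
  frm : ∀ l < r, ∀ V : Option (Fin m) → ℝ,
    |cv (ψ l) V - dd (G l) x V| ≤ 2 ^ k / 2 ^ g l * en c g W ψ l V

section

variable {c : ℕ → Fin m} {g ga : ℕ → ℕ} {W a k r : ℕ}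
  {G : ℕ → MvPolynomial (Option (Fin m)) ℝ} {t : ℝ} {ψ : ℕ → Option (Fin m) → ℝ}
  {x x' : Option (Fin m) → ℝ} {Y : ℝ}

/-- The distance is natural. -/
theorem Pt2.dst (H : Pt2 c g ga W a k r G t ψ x x') :
    D2S.dst c ga a G r x x' ≤ 2 * r + 1 := by
  unfold D2S.dst
  have h1 : ∑ l ∈ range r, (2 : ℝ) ^ ga l *
      |(x' (some (c l)) - eval x' (G l)) - (x (some (c l)) - eval x (G l))| ≤ 2 * r := by
    refine (Finset.sum_le_sum (g := fun _ => (2 : ℝ)) fun l hl => ?_).trans (le_of_eq ?_)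
    · have hl' := Finset.mem_range.1 hl
      have hg : (0 : ℝ) < 2 ^ ga l := by positivity
      have h1 := (abs_sub (x' (some (c l)) - eval x' (G l)) (x (some (c l)) -
        eval x (G l))).trans (add_le_add (H.px' l hl'.le) (H.px l hl'.le))
      refine (mul_le_mul_of_nonneg_left h1 hg.le).trans (le_of_eq ?_)
      field_simp
      ring
    · rw [Finset.sum_const, Finset.card_range, nsmul_eq_mul]
      ring
  linarith [H.t1]

/-- The bounds of the distance. -/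
theorem Pt2.dY (H : Pt2 c g ga W a k r G t ψ x x') (hY : (2 * r + 2) * 2 ^ k ≤ Y) :
    D2S.dst c ga a G r x x' ≤ Y ∧ 1 + 2 ^ k * D2S.dst c ga a G r x x' ≤ Y := by
  have hd := H.dst
  have h1 : (1 : ℝ) ≤ 2 ^ k := one_le_pow₀ (by norm_num)
  have hr : (0 : ℝ) ≤ r := Nat.cast_nonneg r
  constructor
  · nlinarith
  · have := mul_le_mul_of_nonneg_left hd (by linarith : (0 : ℝ) ≤ 2 ^ k)
    nlinarith

/-- Transport. -/
theorem Pt2.tr (H : Pt2 c g ga W a k r G t ψ x x') (hY : (2 * r + 2) * 2 ^ k ≤ Y) {l : ℕ}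
    (hl : l ≤ r) (V : Option (Fin m) → ℝ) :
    |dd (G l) x' V - dd (G l) x V| ≤ Y ^ (r + 2) / 2 ^ ga l * nrm c G ga a l x' V := by
  obtain ⟨y2, yk1, yr, -, -, -, -⟩ := yk hY
  obtain ⟨hd, h1⟩ := H.dY hY
  have hd0 := dst_nonneg c ga a G r x x'
  have hk0 : (0 : ℝ) < 2 ^ k := by positivity
  have hg : (0 : ℝ) < 2 ^ ga l := by positivity
  have h10 : 0 ≤ 1 + 2 ^ k * D2S.dst c ga a G r x x' := by positivity
  have h2 : (1 + 2 ^ k * D2S.dst c ga a G r x x') ^ l ≤ Y ^ r :=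
    (pow_le_pow_left₀ h10 h1 l).trans (pow_le_pow_right₀ (by linarith) hl)
  have key : ∀ n : ℝ, 0 ≤ n → 2 ^ k / 2 ^ ga l * D2S.dst c ga a G r x x' *
      ((1 + 2 ^ k * D2S.dst c ga a G r x x') ^ l * n) ≤ Y ^ (r + 2) / 2 ^ ga l * n := by
    intro n hn
    have e1 : Y ^ (r + 2) / 2 ^ ga l * n = Y / 2 ^ ga l * Y * (Y ^ r * n) := by
      rw [pow_add]
      ring
    rw [e1]
    have h3 : (2 : ℝ) ^ k / 2 ^ ga l ≤ Y / 2 ^ ga l := div_le_div_of_nonneg_right yk1 hg.le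
    refine mul_le_mul (mul_le_mul h3 hd hd0 (by positivity))
      (mul_le_mul_of_nonneg_right h2 hn) (by positivity) (by positivity)
  have h4 := H.sg.symm.main.1 l hl V
  rw [← dst_comm, abs_sub_comm] at h4
  exact h4.trans (key _ (nrm_nonneg _ _ _ _ _ _ _))

/-- **The chart between the two points.** -/
theorem Pt2.lin (H : Pt2 c g ga W a k r G t ψ x x') (hY : (2 * r + 2) * 2 ^ k ≤ Y) {l : ℕ}
    (hl : l ≤ r) : |(x' - x) (some (c l)) - dd (G l) x (x' - x)| ≤ Y ^ (r + 4) / 2 ^ ga l := by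
  obtain ⟨y2, yk1, yr, -, -, -, -⟩ := yk hY
  obtain ⟨hd, h1⟩ := H.dY hY
  have hd0 := dst_nonneg c ga a G r x x'
  have hk0 : (0 : ℝ) < 2 ^ k := by positivity
  have hg : (0 : ℝ) < 2 ^ ga l := by positivity
  have h10 : 0 ≤ 1 + 2 ^ k * D2S.dst c ga a G r x x' := by positivity
  have h2 : (1 + 2 ^ k * D2S.dst c ga a G r x x') ^ l ≤ Y ^ r :=
    (pow_le_pow_left₀ h10 h1 l).trans (pow_le_pow_right₀ (by linarith) hl)
  have h3 := H.sg.main.2.2 l hl
  have h4 : 2 ^ k / 2 ^ ga l * D2S.dst c ga a G r x x' *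
      ((1 + 2 ^ k * D2S.dst c ga a G r x x') ^ l * D2S.dst c ga a G r x x') ≤
      Y ^ (r + 3) / 2 ^ ga l := by
    have e1 : Y ^ (r + 3) / 2 ^ ga l = Y / 2 ^ ga l * Y * (Y ^ r * Y) := by
      rw [pow_add]
      ring
    rw [e1]
    have h5 : (2 : ℝ) ^ k / 2 ^ ga l ≤ Y / 2 ^ ga l := div_le_div_of_nonneg_right yk1 hg.le
    refine mul_le_mul (mul_le_mul h5 hd hd0 (by positivity)) (mul_le_mul h2 hd hd0 (by positivity))
      (by positivity) (by positivity)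
  have h5 := H.px l hl
  have h6 := H.px' l hl
  have e2 : (x' - x) (some (c l)) - dd (G l) x (x' - x) =
      (eval x' (G l) - eval x (G l) - dd (G l) x (x' - x)) + ((x' (some (c l)) - eval x' (G l)) -
        (x (some (c l)) - eval x (G l))) := by
    rw [Pi.sub_apply]
    ring
  rw [e2]
  refine (abs_add_le _ _).trans ?_
  have h7 := (abs_sub (x' (some (c l)) - eval x' (G l)) (x (some (c l)) - eval x (G l))).trans
    (add_le_add h6 h5)
  have h8 : Y ^ (r + 3) / 2 ^ ga l + (1 / 2 ^ ga l + 1 / 2 ^ ga l) ≤ Y ^ (r + 4) / 2 ^ ga l := by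
    rw [← add_div, ← add_div]
    refine div_le_div_of_nonneg_right ?_ hg.le
    have h9 : (1 : ℝ) ≤ Y ^ (r + 2) := one_le_pow₀ (by linarith)
    have e3 : Y ^ (r + 4) = Y * Y ^ (r + 3) := by ring
    have e4 : Y ^ (r + 3) = Y * Y ^ (r + 2) := by ring
    have h10 : 2 ≤ Y ^ (r + 3) := by
      rw [e4]
      nlinarith
    rw [e3]
    nlinarith
  linarith

/-- A direction at the other point. -/
theorem Pt2.dir1 (H : Pt2 c g ga W a k r G t ψ x x') (hY : (2 * r + 2) * 2 ^ k ≤ Y)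
    {V' : Option (Fin m) → ℝ} (h0' : V' none = 1)
    (h' : ∀ l ≤ r, |V' (some (c l)) - dd (G l) x' V'| ≤ 2 ^ (k + a) / 2 ^ ga l) {l : ℕ}
    (hl : l ≤ r) : |V' (some (c l)) - dd (G l) x V'| ≤
      (2 ^ k + Y ^ (r + 3)) * (2 ^ a / 2 ^ ga l) := by
  obtain ⟨y2, yk1, yr, yr2, yk2, yk3, yk4⟩ := yk hY
  have hY0 : 0 ≤ Y := by linarith
  have h1 := H.tr hY hl V'
  have h2 := Pool.D2S.nrm_dir h0' h' hl
  have h3 : |dd (G l) x' V' - dd (G l) x V'| ≤ Y ^ (r + 3) * (2 ^ a / 2 ^ ga l) := by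
    refine h1.trans ((mul_le_mul_of_nonneg_left h2 (by positivity)).trans ?_)
    have e1 : Y ^ (r + 3) * (2 ^ a / 2 ^ ga l) = Y ^ (r + 2) / 2 ^ ga l * (2 ^ a * Y) := by
      rw [pow_succ Y (r + 2)]
      ring
    rw [e1]
    exact mul_le_mul_of_nonneg_left (mul_le_mul_of_nonneg_left yk4 (by positivity)) (by positivity)
  have h5 := h' l hl
  have e3 : (2 : ℝ) ^ (k + a) / 2 ^ ga l = 2 ^ k * (2 ^ a / 2 ^ ga l) := by
    rw [pow_add]
    ring
  rw [e3] at h5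
  have e2 : V' (some (c l)) - dd (G l) x V' = (V' (some (c l)) - dd (G l) x' V') +
      (dd (G l) x' V' - dd (G l) x V') := by ring
  rw [e2, add_mul]
  exact (abs_add_le _ _).trans (add_le_add h5 h3)

/-- The powers. -/
theorem pw4 {k r : ℕ} {Y : ℝ} (hY : (2 * r + 2) * 2 ^ k ≤ Y) :
    2 * 2 ^ k + Y ^ (r + 3) ≤ Y ^ (r + 4) := by
  obtain ⟨y2, yk1, -, -, -, -, -⟩ := yk hY
  have hY0 : 0 ≤ Y := by linarith
  have e4 : Y ^ (r + 4) = Y * Y ^ (r + 3) := by ring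
  have e5 : Y ^ (r + 3) = Y * Y * Y ^ (r + 1) := by ring
  have h8 : (1 : ℝ) ≤ Y ^ (r + 1) := one_le_pow₀ (by linarith)
  have h9 : Y * Y ≤ Y ^ (r + 3) := by
    rw [e5]
    exact le_mul_of_one_le_right (by positivity) h8
  have h10 : 2 * 2 ^ k ≤ Y * Y := mul_le_mul y2 yk1 (by positivity) hY0
  rw [e4]
  nlinarith

/-- **The difference of two directions.** -/
theorem Pt2.dir (H : Pt2 c g ga W a k r G t ψ x x') (hY : (2 * r + 2) * 2 ^ k ≤ Y)
    {V V' : Option (Fin m) → ℝ} (h0' : V' none = 1)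
    (h : ∀ l ≤ r, |V (some (c l)) - dd (G l) x V| ≤ 2 ^ (k + a) / 2 ^ ga l)
    (h' : ∀ l ≤ r, |V' (some (c l)) - dd (G l) x' V'| ≤ 2 ^ (k + a) / 2 ^ ga l) {l : ℕ}
    (hl : l ≤ r) : |(V' - V) (some (c l)) - dd (G l) x (V' - V)| ≤
      Y ^ (r + 4) * (2 ^ a / 2 ^ ga l) := by
  have h3 := H.dir1 hY h0' h' hl
  have h4 := h l hl
  have e2 : (V' - V) (some (c l)) - dd (G l) x (V' - V) =
      (V' (some (c l)) - dd (G l) x V') - (V (some (c l)) - dd (G l) x V) := by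
    have : dd (G l) x (V' - V) = dd (G l) x V' - dd (G l) x V := by
      unfold dd
      rw [← Finset.sum_sub_distrib]
      exact Finset.sum_congr rfl fun o _ => by rw [Pi.sub_apply]; ring
    rw [this, Pi.sub_apply]
    ring
  rw [e2]
  refine (abs_sub _ _).trans ((add_le_add h3 h4).trans ?_)
  have e3 : (2 : ℝ) ^ (k + a) / 2 ^ ga l = 2 ^ k * (2 ^ a / 2 ^ ga l) := by
    rw [pow_add]
    ring
  rw [e3, ← add_mul]
  refine mul_le_mul_of_nonneg_right ?_ (by positivity)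
  linarith [pw4 hY]

/-- **The velocities.** -/
theorem Pt2.vel (H : Pt2 c g ga W a k r G t ψ x x') (hY : (2 * r + 2) * 2 ^ k ≤ Y)
    {V V' : Option (Fin m) → ℝ} (h0 : V none = 1) (h0' : V' none = 1)
    (h : ∀ l ≤ r, |V (some (c l)) - dd (G l) x V| ≤ 2 ^ (k + a) / 2 ^ ga l)
    (h' : ∀ l ≤ r, |V' (some (c l)) - dd (G l) x' V'| ≤ 2 ^ (k + a) / 2 ^ ga l) {q : ℕ} {K : ℝ}
    (hK : 0 ≤ K) (hq : ∀ l < r, 2 ^ g l * |(V' - V) (some (c l)) - cv (ψ l) (V' - V)| ≤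
        K * (2 ^ W / 2 ^ q) ∨ g l + q + a ≤ ga l + W) {l : ℕ} (hl : l ≤ r) :
    en c g W ψ l (V' - V) ≤ Y ^ (2 * r + 5) * ((K + 1) * (2 ^ W / 2 ^ q)) := by
  obtain ⟨y2, -, -, -, -, -, -⟩ := yk hY
  have hY0 : 0 ≤ Y := by linarith
  have e0 : (V' - V) none = 0 := by
    rw [Pi.sub_apply, h0, h0', sub_self]
  have h1 := en_rec (M := Y ^ (r + 4) * ((K + 1) * (2 ^ W / 2 ^ q))) hY H.frm e0 (by positivity)
    (fun l hl => ?_) hl
  · refine h1.trans (le_of_eq ?_)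
    rw [← mul_assoc, ← pow_add]
    congr 2
    ring
  · have hz : (0 : ℝ) ≤ 2 ^ W / 2 ^ q := by positivity
    have hy : (1 : ℝ) ≤ Y ^ (r + 4) := one_le_pow₀ (by linarith)
    rcases hq l hl with h2 | h2
    · left
      refine h2.trans ?_
      have h3 : K * (2 ^ W / 2 ^ q) ≤ (K + 1) * (2 ^ W / 2 ^ q) :=
        mul_le_mul_of_nonneg_right (by linarith) hz
      exact h3.trans (le_mul_of_one_le_left (by positivity) hy)
    · right
      have h3 := H.dir hY h0' h h' hl.le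
      have hg : (0 : ℝ) < 2 ^ g l := by positivity
      refine (mul_le_mul_of_nonneg_left h3 hg.le).trans ?_
      have h4 : (2 : ℝ) ^ g l * (2 ^ a / 2 ^ ga l) ≤ 2 ^ W / 2 ^ q := by
        rw [mul_div_assoc', div_le_div_iff₀ (by positivity) (by positivity), ← pow_add,
          ← pow_add, ← pow_add]
        exact pow_le_pow_right₀ (by norm_num) (by omega)
      have h5 : (2 : ℝ) ^ W / 2 ^ q ≤ (K + 1) * (2 ^ W / 2 ^ q) :=
        le_mul_of_one_le_left hz (by linarith)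
      calc 2 ^ g l * (Y ^ (r + 4) * (2 ^ a / 2 ^ ga l)) =
          Y ^ (r + 4) * (2 ^ g l * (2 ^ a / 2 ^ ga l)) := by ring
        _ ≤ Y ^ (r + 4) * ((K + 1) * (2 ^ W / 2 ^ q)) :=
          mul_le_mul_of_nonneg_left (h4.trans h5) (by positivity)

/-- **The positions at the same time.** -/
theorem Pt2.pos (H : Pt2 c g ga W a k r G t ψ x x') (hY : (2 * r + 2) * 2 ^ k ≤ Y)
    {V' : Option (Fin m) → ℝ} (h0' : V' none = 1)
    (h' : ∀ l ≤ r, |V' (some (c l)) - dd (G l) x' V'| ≤ 2 ^ (k + a) / 2 ^ ga l) {q : ℕ}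
    (hq : ∀ l < r, g l + q ≤ ga l) {l : ℕ} (hl : l ≤ r) :
    en c g W ψ l ((x' - x) - (x' none - x none) • V') ≤ Y ^ (2 * r + 5) * (2 / 2 ^ q) := by
  obtain ⟨y2, -, -, -, -, -, -⟩ := yk hY
  have hY0 : 0 ≤ Y := by linarith
  obtain ⟨τ, hτ⟩ : ∃ τ : ℝ, τ = x' none - x none := ⟨_, rfl⟩
  have ht := H.t1
  rw [← hτ] at ht ⊢
  have e0 : ((x' - x) - τ • V') none = 0 := by
    rw [Pi.sub_apply, Pi.sub_apply, Pi.smul_apply, h0', smul_eq_mul, mul_one, hτ, sub_self]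
  have h1 := en_rec (M := Y ^ (r + 4) * (2 / 2 ^ q)) hY H.frm e0 (by positivity)
    (fun l hl => Or.inr ?_) hl
  · refine h1.trans (le_of_eq ?_)
    rw [← mul_assoc, ← pow_add]
    congr 2
    ring
  · have h2 := H.lin hY hl.le
    have h3 := H.dir1 hY h0' h' hl.le
    have hg : (0 : ℝ) < 2 ^ g l := by positivity
    have e1 : ((x' - x) - τ • V') (some (c l)) - dd (G l) x ((x' - x) - τ • V') =
        ((x' - x) (some (c l)) - dd (G l) x (x' - x)) -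
          τ * (V' (some (c l)) - dd (G l) x V') := by
      have : dd (G l) x ((x' - x) - τ • V') = dd (G l) x (x' - x) - τ * dd (G l) x V' := by
        unfold dd
        rw [Finset.mul_sum, ← Finset.sum_sub_distrib]
        refine Finset.sum_congr rfl fun o _ => ?_
        rw [Pi.sub_apply (x' - x), Pi.smul_apply, smul_eq_mul]
        ring
      rw [this, Pi.sub_apply (x' - x), Pi.smul_apply, smul_eq_mul]
      ring
    rw [e1]
    have h4 : |τ * (V' (some (c l)) - dd (G l) x V')| ≤ Y ^ (r + 4) * (1 / 2 ^ ga l) := by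
      rw [abs_mul]
      refine (mul_le_mul_of_nonneg_left h3 (abs_nonneg _)).trans ?_
      have e2 : |τ| * ((2 ^ k + Y ^ (r + 3)) * (2 ^ a / 2 ^ ga l)) =
          (2 ^ a * |τ|) * ((2 ^ k + Y ^ (r + 3)) * (1 / 2 ^ ga l)) := by ring
      rw [e2]
      refine (mul_le_of_le_one_left (by positivity) ht).trans ?_
      refine mul_le_mul_of_nonneg_right ?_ (by positivity)
      have := pw4 hY
      have : (0 : ℝ) < 2 ^ k := by positivity
      linarith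
    have h5 : |(x' - x) (some (c l)) - dd (G l) x (x' - x) -
        τ * (V' (some (c l)) - dd (G l) x V')| ≤ Y ^ (r + 4) * (2 / 2 ^ ga l) := by
      refine (abs_sub _ _).trans ((add_le_add h2 h4).trans (le_of_eq ?_))
      ring
    refine (mul_le_mul_of_nonneg_left h5 hg.le).trans ?_
    have h6 : (2 : ℝ) ^ g l * (2 / 2 ^ ga l) ≤ 2 / 2 ^ q := by
      rw [mul_div_assoc', div_le_div_iff₀ (by positivity) (by positivity)]
      have : (2 : ℝ) ^ g l * 2 ^ q ≤ 2 ^ ga l := by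
        rw [← pow_add]
        exact pow_le_pow_right₀ (by norm_num) (hq l hl)
      linarith
    calc 2 ^ g l * (Y ^ (r + 4) * (2 / 2 ^ ga l)) =
        Y ^ (r + 4) * (2 ^ g l * (2 / 2 ^ ga l)) := by ring
      _ ≤ Y ^ (r + 4) * (2 / 2 ^ q) := mul_le_mul_of_nonneg_left h6 (by positivity)

end

section lines

variable {J : ℕ} {F : Fam m J} {c : ℕ → Fin m} {g ga : ℕ → ℕ} {W n a k r D sg M q₀ q : ℕ}
    {ψH : LnT F → ℕ → Option (Fin m) → ℝ} {Ht : LnT F → MvPolynomial (Option (Fin m)) ℝ}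
    {G : PtT F → ℕ → MvPolynomial (Option (Fin m)) ℝ} {B : F.Ω → Prop}
    {hD : ∀ s, (Ht s).totalDegree ≤ D}

/-- The time in a window. -/
theorem uw_sub (hW : W ≤ J) {ω ω' : F.Ω} (h : F.T1 W ω = F.T1 W ω') :
    uw F W ω' - uw F W ω = 2 ^ (W + 1) * (F.t ω' - F.t ω) := by
  have h1 := t_mid F hW ω
  have h2 := t_mid F hW ω'
  have e1 : mid F W (slam F W ω) none = mid F W (slam F W ω') none := by
    change (((F.T1 W ω : ℕ) : ℝ) + 1 / 2) / 2 ^ W = (((F.T1 W ω' : ℕ) : ℝ) + 1 / 2) / 2 ^ W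
    rw [h]
  rw [h1, h2, e1]
  field_simp
  ring

/-- The time in a longer window. -/
theorem T1_le (hWa : W ≤ a) (haJ : a ≤ J) {ω ω' : F.Ω} (h : F.T1 a ω = F.T1 a ω') :
    F.T1 W ω = F.T1 W ω' := by
  have e1 : ∀ ν : F.Ω, F.T1 W ν = F.T1 a ν / 2 ^ (a - W) := by
    intro ν
    unfold Fam.T1
    rw [Nat.div_div_eq_div_mul, ← pow_add]
    congr 2
    omega
  rw [e1, e1, h]

/-- The times in a window are near. -/
theorem t_near (haJ : a ≤ J) {ω ω' : F.Ω} (h : F.T1 a ω = F.T1 a ω') :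
    2 ^ a * |F.t ω' - F.t ω| ≤ 1 := by
  have h1 : ∀ ν : F.Ω, (F.T ν : ℝ) = 2 ^ (J - a) * (F.T1 a ν : ℝ) +
      ((F.T ν % 2 ^ (J - a) : ℕ) : ℝ) := by
    intro ν
    have := Nat.div_add_mod (F.T ν) (2 ^ (J - a))
    unfold Fam.T1
    exact_mod_cast this.symm
  have h2 : (2 : ℝ) ^ J = 2 ^ a * 2 ^ (J - a) := by
    rw [← pow_add]
    congr 1
    omega
  have h3 : ∀ ν : F.Ω, ((F.T ν % 2 ^ (J - a) : ℕ) : ℝ) < 2 ^ (J - a) := by
    intro ν
    have : F.T ν % 2 ^ (J - a) < 2 ^ (J - a) := Nat.mod_lt _ (by positivity)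
    exact_mod_cast this
  have h4 : ∀ ν : F.Ω, (0 : ℝ) ≤ ((F.T ν % 2 ^ (J - a) : ℕ) : ℝ) := fun ν => Nat.cast_nonneg _
  unfold Fam.t
  rw [h1 ω, h1 ω', h, h2]
  have e1 : (2 ^ (J - a) * (F.T1 a ω' : ℝ) + ((F.T ω' % 2 ^ (J - a) : ℕ) : ℝ)) /
      (2 ^ a * 2 ^ (J - a)) - (2 ^ (J - a) * (F.T1 a ω' : ℝ) +
        ((F.T ω % 2 ^ (J - a) : ℕ) : ℝ)) / (2 ^ a * 2 ^ (J - a)) =
      (((F.T ω' % 2 ^ (J - a) : ℕ) : ℝ) - ((F.T ω % 2 ^ (J - a) : ℕ) : ℝ)) /
        (2 ^ a * 2 ^ (J - a)) := by ring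
  rw [e1, abs_div, abs_of_pos (by positivity : (0 : ℝ) < 2 ^ a * 2 ^ (J - a)), mul_div_assoc',
    div_le_one (by positivity)]
  refine mul_le_mul_of_nonneg_left ?_ (by positivity)
  rw [abs_le]
  constructor <;> linarith [h3 ω, h3 ω', h4 ω, h4 ω']

/-- The two points of one ball. -/
theorem Gb.pt2 (H : Gb F c g ga W n a k r D sg M ψH Ht G B) {ω ω' : F.Ω} (hω : B ω)
    (hω' : B ω') (ht : 2 ^ a * |F.t ω' - F.t ω| ≤ 1)
    (hG : ∀ l ≤ r, G (ptr F J ω) l = G (ptr F J ω') l) :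
    Pt2 c g ga W a k r (G (ptr F J ω)) (F.t ω) (ψH (slam F W ω)) (bt F ω) (bt F ω') := by
  have e0 : ∀ ν : F.Ω, bt F ν none = F.t ν := fun _ => rfl
  have hx : ∀ l ≤ r, |bt F ω (some (c l)) - eval (bt F ω) (G (ptr F J ω) l)| ≤ 1 / 2 ^ ga l :=
    fun l hl => H.pos ω hω l hl
  have hx' : ∀ l ≤ r, |bt F ω' (some (c l)) - eval (bt F ω') (G (ptr F J ω) l)| ≤
      1 / 2 ^ ga l := fun l hl => by
    rw [hG l hl]
    exact H.pos ω' hω' l hl
  refine ⟨⟨H.inj, H.depG _, fun l hl => ?_, ⟨?_, fun l hl => hx l hl.le⟩,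
    ⟨?_, fun l hl => hx' l hl.le⟩⟩, ?_, hx, hx', H.frm ω hω⟩
  · exact H.nat l hl ω hω
  · rw [e0, sub_self, abs_zero]
    positivity
  · rw [e0, le_div_iff₀ (by positivity), mul_comm]
    exact ht
  · rw [e0, e0]
    exact ht

/-- The value of a polynomial of degree one. -/
theorem eval_one {P : Polynomial ℝ} (hP : P.natDegree ≤ 1) (u : ℝ) :
    P.eval u = P.coeff 0 + P.coeff 1 * u := by
  have h := Polynomial.eq_X_add_C_of_natDegree_le_one hP
  conv_lhs => rw [h]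
  rw [Polynomial.eval_add, Polynomial.eval_mul, Polynomial.eval_C, Polynomial.eval_C,
    Polynomial.eval_X]
  ring

/-- **The own paths of two lines of one ball.** -/
theorem Gb.lines (H : Gb F c g ga W n a k r D sg M ψH Ht G B) (hWa : W ≤ a) (haJ : a ≤ J)
    {K₀ : ℕ} {ω ω' : F.Ω} (hω : B ω) (hω' : B ω') (hT : F.T1 a ω = F.T1 a ω')
    (hψ : ψH (slam F W ω) = ψH (slam F W ω'))
    (hG : ∀ l ≤ r, G (ptr F J ω) l = G (ptr F J ω') l)
    (hv : (2 : ℝ) ^ (g 0 + q) * |(hdt F c g W n r D q sg ψH Ht hD).e W 0 ω -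
      (hdt F c g W n r D q sg ψH Ht hD).e W 0 ω'| ≤ K₀)
    (la : ∀ l < r, g l + q ≤ ga l) (la' : ∀ l < r, l ≠ 0 → g l + q + a ≤ ga l + W) :
    ∀ l < r, ∀ j < 2, (2 : ℝ) ^ (g l + q) *
      |((hdt F c g W n r D q sg ψH Ht hD).P l (slam F W ω) -
        (hdt F c g W n r D q sg ψH Ht hD).P l (slam F W ω')).coeff j| ≤
        ((2 * ((2 * r + 2) * 2 ^ k) ^ (2 * r + 5) * (K₀ + 2) : ℕ) : ℝ) := by
  obtain ⟨Y, hY⟩ : ∃ Y : ℝ, Y = (2 * r + 2) * 2 ^ k := ⟨_, rfl⟩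
  obtain ⟨d, hd⟩ : ∃ d : Dat F (ℕ → Option (Fin m) → ℝ) r D,
    d = hdt F c g W n r D q sg ψH Ht hD := ⟨_, rfl⟩
  rw [← hd] at hv ⊢
  have hYl : (2 * r + 2) * 2 ^ k ≤ Y := hY.ge
  obtain ⟨y2, -, -, -, -, -, -⟩ := yk hYl
  have hY0 : 0 ≤ Y := by linarith
  have hK0 : (0 : ℝ) ≤ K₀ := Nat.cast_nonneg _
  have hp := H.pt2 hω hω' (t_near haJ hT) hG
  have h2 : ∀ ν : F.Ω, bd F ν none = 1 := fun _ => rfl
  have hV' : ∀ l ≤ r, |bd F ω' (some (c l)) - dd (G (ptr F J ω) l) (bt F ω') (bd F ω')| ≤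
      2 ^ (k + a) / 2 ^ ga l := fun l hl => by
    rw [hG l hl]
    exact H.vel ω' hω' l hl
  have ev : ∀ l < r, ∀ ν ν' : F.Ω, ψH (slam F W ν) = ψH (slam F W ν') →
      d.v W l ν' - d.v W l ν = (bt F ν' - bt F ν) (some (c l)) -
        cv (ψH (slam F W ν) l) (bt F ν' - bt F ν) := by
    intro l hl ν ν' h
    rw [hd, hdt_dv H.hW l h, if_pos hl]
  have ee : ∀ l < r, ∀ ν ν' : F.Ω, ψH (slam F W ν) = ψH (slam F W ν') →
      d.e W l ν' - d.e W l ν = 1 / 2 ^ (W + 1) * ((bd F ν' - bd F ν) (some (c l)) -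
        cv (ψH (slam F W ν) l) (bd F ν' - bd F ν)) := by
    intro l hl ν ν' h
    rw [hd, hdt_de H.hW l h, if_pos hl]
  have ee1 : ∀ l < r, ∀ ν : F.Ω, d.e W l ν = 1 / 2 ^ (W + 1) * (bd F ν (some (c l)) -
        cv (ψH (slam F W ν) l) (bd F ν)) := by
    intro l hl ν
    have h1 : (hdt F c g W n r D q sg ψH Ht hD).e W l ν = _ := fdat_e H.hW l ν
    rw [hd, h1, if_pos hl]
  -- the velocities
  have hvel : ∀ l ≤ r, en c g W (ψH (slam F W ω)) l (bd F ω' - bd F ω) ≤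
      Y ^ (2 * r + 5) * ((2 * K₀ + 1) * (2 ^ W / 2 ^ q)) := by
    intro l hl
    refine Pt2.vel hp hYl (h2 ω) (h2 ω') (H.vel ω hω) hV' (K := 2 * K₀) (by positivity)
      (fun j hj => ?_) hl
    rcases Nat.eq_zero_or_pos j with h | h
    · left
      rw [h] at hj ⊢
      have h1 := hv
      rw [abs_sub_comm, ee 0 hj ω ω' hψ, abs_mul,
        abs_of_pos (by positivity : (0 : ℝ) < 1 / 2 ^ (W + 1))] at h1
      obtain ⟨z, hz⟩ : ∃ z : ℝ, z = |(bd F ω' - bd F ω) (some (c 0)) -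
        cv (ψH (slam F W ω) 0) (bd F ω' - bd F ω)| := ⟨_, rfl⟩
      rw [← hz] at h1 ⊢
      have h3 : (2 : ℝ) ^ (g 0 + q) * (1 / 2 ^ (W + 1) * z) =
          (2 ^ g 0 * z) * (2 ^ q / 2 ^ (W + 1)) := by
        rw [pow_add]
        ring
      rw [h3] at h1
      have h4 : (2 : ℝ) ^ g 0 * z = (2 ^ g 0 * z) * (2 ^ q / 2 ^ (W + 1)) *
          (2 ^ (W + 1) / 2 ^ q) := by
        field_simp
      rw [h4]
      refine (mul_le_mul_of_nonneg_right h1 (by positivity)).trans (le_of_eq ?_)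
      rw [pow_succ]
      ring
    · exact Or.inr (la' j hj h.ne')
  have hc1 : ∀ l < r, (2 : ℝ) ^ (g l + q) * |d.e W l ω' - d.e W l ω| ≤
      Y ^ (2 * r + 5) * (K₀ + 1) := by
    intro l hl
    have h1 := hvel (l + 1) hl
    rw [en_succ] at h1
    have h3 := en_nonneg c g W (ψH (slam F W ω)) l (bd F ω' - bd F ω)
    have h4 : 2 ^ g l * |(bd F ω' - bd F ω) (some (c l)) -
        cv (ψH (slam F W ω) l) (bd F ω' - bd F ω)| ≤
        Y ^ (2 * r + 5) * ((2 * K₀ + 1) * (2 ^ W / 2 ^ q)) := by linarith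
    rw [ee l hl ω ω' hψ, abs_mul, abs_of_pos (by positivity : (0 : ℝ) < 1 / 2 ^ (W + 1))]
    have h6 : ∀ z : ℝ, (2 : ℝ) ^ (g l + q) * (1 / 2 ^ (W + 1) * z) =
        (2 ^ q / 2 ^ (W + 1)) * (2 ^ g l * z) := fun z => by
      rw [pow_add]
      ring
    rw [h6]
    refine (mul_le_mul_of_nonneg_left h4 (by positivity)).trans ?_
    have h5 : (2 : ℝ) ^ q / 2 ^ (W + 1) *
        (Y ^ (2 * r + 5) * ((2 * K₀ + 1) * (2 ^ W / 2 ^ q))) =
        Y ^ (2 * r + 5) * ((2 * K₀ + 1) / 2) := by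
      rw [pow_succ]
      field_simp
    rw [h5]
    refine mul_le_mul_of_nonneg_left ?_ (by positivity)
    linarith
  -- the positions at the same time
  have hc0 : ∀ l < r, (2 : ℝ) ^ (g l + q) * |d.v W l ω' - d.v W l ω -
      d.e W l ω' * (uw F W ω' - uw F W ω)| ≤ Y ^ (2 * r + 5) * 2 := by
    intro l hl
    have h1 := Pt2.pos hp hYl (h2 ω') hV' la (show l + 1 ≤ r by omega)
    rw [en_succ] at h1
    obtain ⟨δ, hδ⟩ : ∃ δ : Option (Fin m) → ℝ, δ = (bt F ω' - bt F ω) -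
      (bt F ω' none - bt F ω none) • bd F ω' := ⟨_, rfl⟩
    rw [← hδ] at h1
    have h3 := en_nonneg c g W (ψH (slam F W ω)) l δ
    have h4 : 2 ^ g l * |δ (some (c l)) - cv (ψH (slam F W ω) l) δ| ≤
        Y ^ (2 * r + 5) * (2 / 2 ^ q) := by linarith
    have e1 : d.v W l ω' - d.v W l ω - d.e W l ω' * (uw F W ω' - uw F W ω) =
        δ (some (c l)) - cv (ψH (slam F W ω) l) δ := by
      obtain ⟨x, hx⟩ : ∃ x : Option (Fin m) → ℝ, x = bt F ω' - bt F ω := ⟨_, rfl⟩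
      have e0 : bt F ω' none - bt F ω none = F.t ω' - F.t ω := rfl
      rw [ev l hl ω ω' hψ, ee1 l hl ω', ← hψ, uw_sub H.hW (T1_le hWa haJ hT), hδ, e0, ← hx,
        cv_sub, cv_smul, Pi.sub_apply, Pi.smul_apply, smul_eq_mul]
      field_simp
      ring
    rw [e1, pow_add, mul_comm ((2 : ℝ) ^ g l), mul_assoc]
    refine (mul_le_mul_of_nonneg_left h4 (by positivity)).trans (le_of_eq ?_)
    field_simp
  intro l hl j hj
  have hcast : ((2 * ((2 * r + 2) * 2 ^ k) ^ (2 * r + 5) * (K₀ + 2) : ℕ) : ℝ) =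
      2 * Y ^ (2 * r + 5) * (K₀ + 2) := by
    rw [hY]
    push_cast
    ring
  rw [hcast]
  have hYp : (0 : ℝ) ≤ Y ^ (2 * r + 5) := by positivity
  have hyk : (0 : ℝ) ≤ Y ^ (2 * r + 5) * K₀ := mul_nonneg hYp hK0
  have b1 := hc1 l hl
  have b0 := hc0 l hl
  rw [abs_sub_comm] at b1
  interval_cases j
  · -- the coefficient of order zero
    have p1 := eval_one (d.P1 l (slam F W ω)) (uw F W ω)
    have p2 := eval_one (d.P1 l (slam F W ω')) (uw F W ω')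
    have e1 : d.v W l ω = (d.P l (slam F W ω)).coeff 0 + d.e W l ω * uw F W ω := p1
    have e2 : d.v W l ω' = (d.P l (slam F W ω')).coeff 0 + d.e W l ω' * uw F W ω' := p2
    have e3 : (d.P l (slam F W ω) - d.P l (slam F W ω')).coeff 0 =
        -(d.v W l ω' - d.v W l ω - d.e W l ω' * (uw F W ω' - uw F W ω)) -
        (d.e W l ω - d.e W l ω') * uw F W ω := by
      rw [Polynomial.coeff_sub, e1, e2]
      ring
    rw [e3]
    have b2 : (2 : ℝ) ^ (g l + q) * |(d.e W l ω - d.e W l ω') * uw F W ω| ≤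
        Y ^ (2 * r + 5) * (K₀ + 1) := by
      rw [abs_mul, ← mul_assoc]
      exact (mul_le_of_le_one_right (by positivity) (uw_abs F W ω)).trans b1
    have b3 := mul_le_mul_of_nonneg_left (abs_sub
      (-(d.v W l ω' - d.v W l ω - d.e W l ω' * (uw F W ω' - uw F W ω)))
      ((d.e W l ω - d.e W l ω') * uw F W ω)) (by positivity : (0 : ℝ) ≤ 2 ^ (g l + q))
    rw [mul_add, abs_neg] at b3
    linarith
  · have e3 : (d.P l (slam F W ω) - d.P l (slam F W ω')).coeff 1 =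
        d.e W l ω - d.e W l ω' := by
      rw [Polynomial.coeff_sub]
      rfl
    rw [e3]
    linarith

end lines

end Pool.D2F2
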