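import Mathlib

/-!
# The numbers of the number of the hop

`Mc`: one natural number for all constants. `lg_a`, ..: the logarithms of the constants.
-/

set_option autoImplicit false

namespace Pool.D2F2

/-- One number for all constants. -/
def Mc (r D C k E₀ : ℕ) : ℕ := 8 * (r + 1) * (D + 3) ^ 2 * (C + 1) * 2 ^ k * (E₀ + 1)

theorem lg_le {M N X : ℕ} (h : 2 * X + 1 ≤ M ^ N) :
    Real.log (2 * (X : ℕ) + 1) ≤ N * Real.log M := by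
  have h1 : ((2 * X + 1 : ℕ) : ℝ) ≤ ((M ^ N : ℕ) : ℝ) := by exact_mod_cast h
  have h2 := Real.log_le_log (by positivity) h1
  push_cast at h2
  rwa [Real.log_pow] at h2

theorem pw {P M i j N s : ℕ} (hM : 1 ≤ M) (hP : P ≤ M) (hs : s ≤ M ^ j) (h : i + j ≤ N) :
    s * P ^ i ≤ M ^ N :=
  calc s * P ^ i ≤ M ^ j * M ^ i := Nat.mul_le_mul hs (Nat.pow_le_pow_left hP i)
    _ = M ^ (i + j) := by rw [← pow_add, add_comm]
    _ ≤ M ^ N := Nat.pow_le_pow_right hM h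

section

variable {r D C k E₀ : ℕ}

theorem Mc_a : 8 * (r + 1) * (D + 3) ^ 2 * 2 ^ k ≤ Mc r D C k E₀ := by
  have e : Mc r D C k E₀ = (8 * (r + 1) * (D + 3) ^ 2 * 2 ^ k) * ((C + 1) * (E₀ + 1)) := by
    unfold Mc
    ring
  rw [e]
  exact Nat.le_mul_of_pos_right _ (by positivity)

theorem Mc_b : 8 * (r + 1) * (E₀ + 1) ≤ Mc r D C k E₀ := by
  have e : Mc r D C k E₀ = (8 * (r + 1) * (E₀ + 1)) * ((D + 3) ^ 2 * 2 ^ k * (C + 1)) := by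
    unfold Mc
    ring
  rw [e]
  exact Nat.le_mul_of_pos_right _ (by positivity)

theorem Mc_c : C + 1 ≤ Mc r D C k E₀ := by
  have e : Mc r D C k E₀ = (C + 1) * (8 * (r + 1) * (D + 3) ^ 2 * 2 ^ k * (E₀ + 1)) := by
    unfold Mc
    ring
  rw [e]
  exact Nat.le_mul_of_pos_right _ (by positivity)

theorem Mc_d : 8 * ((r + 1) * (D + 3) ^ 2) ≤ Mc r D C k E₀ := by
  refine le_trans ?_ Mc_a
  have h1 : 1 ≤ 2 ^ k := Nat.one_le_two_pow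
  calc 8 * ((r + 1) * (D + 3) ^ 2) = 8 * (r + 1) * (D + 3) ^ 2 * 1 := by ring
    _ ≤ _ := Nat.mul_le_mul_left _ h1

theorem Mc_72 : 72 ≤ Mc r D C k E₀ := by
  refine le_trans ?_ Mc_d
  have h1 : 9 ≤ (D + 3) ^ 2 := by
    calc 9 = 3 ^ 2 := by norm_num
      _ ≤ (D + 3) ^ 2 := Nat.pow_le_pow_left (by omega) 2
  calc 72 = 8 * (1 * 9) := by norm_num
    _ ≤ 8 * ((r + 1) * (D + 3) ^ 2) :=
      Nat.mul_le_mul_left _ (Nat.mul_le_mul (by omega) h1)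

theorem Mc_P : (2 * r + 2) * 2 ^ k ≤ Mc r D C k E₀ := by
  refine le_trans ?_ Mc_a
  have h1 : 1 ≤ (D + 3) ^ 2 := Nat.one_le_pow _ _ (by omega)
  calc (2 * r + 2) * 2 ^ k ≤ (8 * (r + 1) * 1) * 2 ^ k := Nat.mul_le_mul_right _ (by omega)
    _ ≤ (8 * (r + 1) * (D + 3) ^ 2) * 2 ^ k :=
      Nat.mul_le_mul_right _ (Nat.mul_le_mul_left _ h1)

theorem Mc_D : 8 * (D + 1) ^ 2 ≤ Mc r D C k E₀ := by
  refine le_trans ?_ Mc_d
  refine Nat.mul_le_mul_left _ ?_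
  calc (D + 1) ^ 2 ≤ (D + 3) ^ 2 := Nat.pow_le_pow_left (by omega) 2
    _ ≤ (r + 1) * (D + 3) ^ 2 := Nat.le_mul_of_pos_left _ (by omega)

theorem Mc_rD : 1 + r * (D + 1) ^ 2 ≤ Mc r D C k E₀ := by
  refine le_trans ?_ Mc_d
  have h1 : (D + 1) ^ 2 ≤ (D + 3) ^ 2 := Nat.pow_le_pow_left (by omega) 2
  have h2 : 1 ≤ (D + 3) ^ 2 := Nat.one_le_pow _ _ (by omega)
  have h3 : r * (D + 1) ^ 2 ≤ r * (D + 3) ^ 2 := Nat.mul_le_mul_left _ h1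
  have h4 : (r + 1) * (D + 3) ^ 2 = r * (D + 3) ^ 2 + (D + 3) ^ 2 := by ring
  omega

theorem Mc_r : 42 * (1 + 2 * r) ≤ Mc r D C k E₀ ^ 2 := by
  have h1 : 1 + 2 * r ≤ Mc r D C k E₀ := by
    refine le_trans ?_ Mc_d
    have h2 : 1 ≤ (D + 3) ^ 2 := Nat.one_le_pow _ _ (by omega)
    calc 1 + 2 * r ≤ 8 * ((r + 1) * 1) := by omega
      _ ≤ _ := Nat.mul_le_mul_left _ (Nat.mul_le_mul_left _ h2)
  rw [sq]
  exact Nat.mul_le_mul (le_trans (by norm_num) Mc_72) h1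

/-- The power of the constants of a ball. -/
theorem lg_a : Real.log (2 * (2 * ((2 * r + 2) * 2 ^ k) ^ (r + 4) + 1 : ℕ) + 1) ≤
    (2 * r + 12 : ℕ) * Real.log (Mc r D C k E₀) := by
  refine lg_le ?_
  obtain ⟨M, hM⟩ : ∃ M, M = Mc r D C k E₀ := ⟨_, rfl⟩
  have h72 : 72 ≤ M := hM ▸ Mc_72
  have hP : (2 * r + 2) * 2 ^ k ≤ M := hM ▸ Mc_P
  have h1 : 1 ≤ ((2 * r + 2) * 2 ^ k) ^ (r + 4) := Nat.one_le_pow _ _ (by positivity)
  rw [← hM]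
  refine le_trans ?_ (pw (s := 7) (i := r + 4) (j := 1) (by omega) hP
    (by rw [pow_one]; omega) (by omega))
  omega

theorem lg_b : Real.log (2 * (2 + r * E₀ : ℕ) + 1) ≤
    (2 * r + 12 : ℕ) * Real.log (Mc r D C k E₀) := by
  refine lg_le ?_
  have h1 : 2 * (2 + r * E₀) + 1 ≤ Mc r D C k E₀ := by
    refine le_trans ?_ Mc_b
    have : 8 * (r + 1) * (E₀ + 1) = 8 * (r * E₀) + 8 * r + 8 * E₀ + 8 := by ring
    omega
  exact h1.trans (Nat.le_self_pow (by omega) _)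

theorem lg_c : Real.log (2 * (3 : ℕ) + 1) ≤
    (2 * r + 12 : ℕ) * Real.log (Mc r D C k E₀) := by
  refine lg_le ?_
  have h1 : 2 * 3 + 1 ≤ Mc r D C k E₀ := le_trans (by norm_num) Mc_72
  exact h1.trans (Nat.le_self_pow (by omega) _)

theorem lg_d : Real.log (2 * (r * ((D + 1) * ((D + 2) * 2 ^ k)) + 2 : ℕ) + 1) ≤
    (2 * r + 12 : ℕ) * Real.log (Mc r D C k E₀) := by
  refine lg_le ?_
  have h1 : 2 * (r * ((D + 1) * ((D + 2) * 2 ^ k)) + 2) + 1 ≤ Mc r D C k E₀ := by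
    refine le_trans ?_ Mc_a
    have h1 : (D + 1) * (D + 2) ≤ (D + 3) ^ 2 := by nlinarith
    have h2 : 1 ≤ 2 ^ k := Nat.one_le_two_pow
    have h3 : 1 ≤ (D + 3) ^ 2 := Nat.one_le_pow _ _ (by omega)
    have h4 : r * ((D + 1) * ((D + 2) * 2 ^ k)) ≤ r * (D + 3) ^ 2 * 2 ^ k := by
      calc r * ((D + 1) * ((D + 2) * 2 ^ k)) = r * ((D + 1) * (D + 2)) * 2 ^ k := by ring
        _ ≤ _ := Nat.mul_le_mul_right _ (Nat.mul_le_mul_left _ h1)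
    have h5 : 1 ≤ (D + 3) ^ 2 * 2 ^ k := Nat.one_le_iff_ne_zero.2 (by positivity)
    have h6 : 8 * (r + 1) * (D + 3) ^ 2 * 2 ^ k =
        8 * (r * (D + 3) ^ 2 * 2 ^ k) + 8 * ((D + 3) ^ 2 * 2 ^ k) := by ring
    omega
  exact h1.trans (Nat.le_self_pow (by omega) _)

theorem lg_e : Real.log (2 * ((2 * (((2 * r + 2) * 2 ^ k) ^ (2 * r + 7) * (1 + 1) *
    (D + 1) ^ 2) : ℕ) + 1) + 1) ≤ (2 * r + 12 : ℕ) * Real.log (Mc r D C k E₀) := by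
  obtain ⟨M, hM⟩ : ∃ M, M = Mc r D C k E₀ := ⟨_, rfl⟩
  have h72 : 72 ≤ M := hM ▸ Mc_72
  have hP : (2 * r + 2) * 2 ^ k ≤ M := hM ▸ Mc_P
  have hDD : 8 * (D + 1) ^ 2 ≤ M := hM ▸ Mc_D
  rw [← hM]
  have h := lg_le (M := M) (N := 2 * r + 12) (X := 2 * (((2 * r + 2) * 2 ^ k) ^ (2 * r + 7) *
    (1 + 1) * (D + 1) ^ 2) + 1) ?_
  · refine le_trans (le_of_eq ?_) h
    push_cast
    ring_nf
  · obtain ⟨X, hX⟩ : ∃ X, X = ((2 * r + 2) * 2 ^ k) ^ (2 * r + 7) := ⟨_, rfl⟩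
    have h1 : 1 ≤ X := by
      rw [hX]
      exact Nat.one_le_pow _ _ (by positivity)
    have h2 : 1 ≤ (D + 1) ^ 2 := Nat.one_le_pow _ _ (by omega)
    have h3 : 1 ≤ X * (D + 1) ^ 2 := Nat.one_le_iff_ne_zero.2 (by positivity)
    have h4 : 14 * (D + 1) ^ 2 ≤ M ^ 2 := by
      rw [sq M]
      calc 14 * (D + 1) ^ 2 ≤ 2 * (8 * (D + 1) ^ 2) := by omega
        _ ≤ M * M := Nat.mul_le_mul (by omega) hDD
    refine le_trans ?_ (pw (i := 2 * r + 7) (j := 2) (by omega) hP h4 (by omega))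
    rw [← hX]
    have h5 : X * (1 + 1) * (D + 1) ^ 2 = 2 * (X * (D + 1) ^ 2) := by ring
    have h6 : 14 * (D + 1) ^ 2 * X = 14 * (X * (D + 1) ^ 2) := by ring
    rw [h5, h6]
    omega

theorem lg_f : Real.log (2 * (((2 * r + 2) * 2 ^ k) ^ (2 * r + 7) * (1 + 1) *
    (D + 1) ^ 2 * (1 + r * (D + 1) ^ 2) + 1 : ℕ) + 1) ≤
    (2 * r + 12 : ℕ) * Real.log (Mc r D C k E₀) := by
  refine lg_le ?_
  obtain ⟨M, hM⟩ : ∃ M, M = Mc r D C k E₀ := ⟨_, rfl⟩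
  have h72 : 72 ≤ M := hM ▸ Mc_72
  have hP : (2 * r + 2) * 2 ^ k ≤ M := hM ▸ Mc_P
  have hDD : 8 * (D + 1) ^ 2 ≤ M := hM ▸ Mc_D
  have hrD : 1 + r * (D + 1) ^ 2 ≤ M := hM ▸ Mc_rD
  rw [← hM]
  obtain ⟨X, hX⟩ : ∃ X, X = ((2 * r + 2) * 2 ^ k) ^ (2 * r + 7) := ⟨_, rfl⟩
  obtain ⟨Z, hZ⟩ : ∃ Z, Z = 1 + r * (D + 1) ^ 2 := ⟨_, rfl⟩
  have h1 : 1 ≤ X := by
    rw [hX]
    exact Nat.one_le_pow _ _ (by positivity)
  have h2 : 1 ≤ (D + 1) ^ 2 := Nat.one_le_pow _ _ (by omega)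
  have h3 : 1 ≤ X * (D + 1) ^ 2 * Z := by
    have : 0 < Z := by omega
    exact Nat.one_le_iff_ne_zero.2 (by positivity)
  have h4 : 10 * (D + 1) ^ 2 * Z ≤ M ^ 3 := by
    have h5 : M ^ 3 = (M * M) * M := by ring
    rw [h5]
    refine Nat.mul_le_mul ?_ (by omega)
    calc 10 * (D + 1) ^ 2 ≤ 2 * (8 * (D + 1) ^ 2) := by omega
      _ ≤ M * M := Nat.mul_le_mul (by omega) hDD
  refine le_trans ?_ (pw (i := 2 * r + 7) (j := 3) (by omega) hP h4 (by omega))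
  rw [← hX, ← hZ]
  have h5 : X * (1 + 1) * (D + 1) ^ 2 * Z = 2 * (X * (D + 1) ^ 2 * Z) := by ring
  have h6 : 10 * (D + 1) ^ 2 * Z * X = 10 * (X * (D + 1) ^ 2 * Z) := by ring
  rw [h5, h6]
  omega

theorem lg_g : Real.log (2 * (((2 * r + 2) * 2 ^ k) ^ (2 * r + 5) * (1 + 1) + 1 : ℕ) + 1) ≤
    (2 * r + 12 : ℕ) * Real.log (Mc r D C k E₀) := by
  refine lg_le ?_
  obtain ⟨M, hM⟩ : ∃ M, M = Mc r D C k E₀ := ⟨_, rfl⟩
  have h72 : 72 ≤ M := hM ▸ Mc_72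
  have hP : (2 * r + 2) * 2 ^ k ≤ M := hM ▸ Mc_P
  have h1 : 1 ≤ ((2 * r + 2) * 2 ^ k) ^ (2 * r + 5) := Nat.one_le_pow _ _ (by positivity)
  rw [← hM]
  refine le_trans ?_ (pw (s := 7) (i := 2 * r + 5) (j := 1) (by omega) hP
    (by rw [pow_one]; omega) (by omega))
  omega

theorem lg_h : Real.log (C * ((((2 * r + 2) * 2 ^ k) ^ (2 * r + 7) * (1 + 1) *
    (D + 1) ^ 2 : ℕ) + 1)) ≤ (2 * r + 12 : ℕ) * Real.log (Mc r D C k E₀) := by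
  obtain ⟨M, hM⟩ : ∃ M, M = Mc r D C k E₀ := ⟨_, rfl⟩
  have h72 : 72 ≤ M := hM ▸ Mc_72
  have hP : (2 * r + 2) * 2 ^ k ≤ M := hM ▸ Mc_P
  have hDD : 8 * (D + 1) ^ 2 ≤ M := hM ▸ Mc_D
  have hC : C + 1 ≤ M := hM ▸ Mc_c
  rw [← hM]
  obtain ⟨X, hX⟩ : ∃ X, X = ((2 * r + 2) * 2 ^ k) ^ (2 * r + 7) := ⟨_, rfl⟩
  have h1 : 1 ≤ X := by
    rw [hX]
    exact Nat.one_le_pow _ _ (by positivity)
  have h2 : 1 ≤ (D + 1) ^ 2 := Nat.one_le_pow _ _ (by omega)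
  have h3 : C * (X * (1 + 1) * (D + 1) ^ 2 + 1) ≤ M ^ (2 * r + 12) := by
    have h4 : (C + 1) * (4 * (D + 1) ^ 2) ≤ M ^ 2 := by
      rw [sq M]
      exact Nat.mul_le_mul hC (by omega)
    refine le_trans ?_ (pw (i := 2 * r + 7) (j := 2) (by omega) hP h4 (by omega))
    rw [← hX]
    have h5 : 1 ≤ X * (D + 1) ^ 2 := Nat.one_le_iff_ne_zero.2 (by positivity)
    calc C * (X * (1 + 1) * (D + 1) ^ 2 + 1) = C * (2 * (X * (D + 1) ^ 2) + 1) := by ring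
      _ ≤ (C + 1) * (4 * (X * (D + 1) ^ 2)) := Nat.mul_le_mul (by omega) (by omega)
      _ = _ := by ring
  rw [← hX]
  rcases Nat.eq_zero_or_pos C with h0 | h0
  · rw [h0, Nat.cast_zero, zero_mul, Real.log_zero]
    have : 0 ≤ Real.log M := Real.log_natCast_nonneg M
    positivity
  · have h4 : (((C * (X * (1 + 1) * (D + 1) ^ 2 + 1) : ℕ)) : ℝ) ≤ ((M ^ (2 * r + 12) : ℕ) : ℝ) := by
      exact_mod_cast h3
    have h5 := Real.log_le_log (by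
      have : 0 < C * (X * (1 + 1) * (D + 1) ^ 2 + 1) := by positivity
      exact_mod_cast this) h4
    push_cast at h5 ⊢
    rw [Real.log_pow] at h5
    push_cast at h5
    exact h5

/-- The constant of the cell. -/
def Kf (r k : ℕ) : ℕ := 2 * ((2 * ((2 * r + 2) * 2 ^ k) ^ (2 * r + 5) * (1 + 2)) +
  2 * r * (2 * ((2 * r + 2) * 2 ^ k) ^ (2 * r + 5) * (1 + 2))) + 1

theorem lg_i : Real.log (2 * (Kf r k : ℕ) + 1) ≤
    (2 * r + 12 : ℕ) * Real.log (Mc r D C k E₀) := by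
  refine lg_le ?_
  obtain ⟨M, hM⟩ : ∃ M, M = Mc r D C k E₀ := ⟨_, rfl⟩
  have h72 : 72 ≤ M := hM ▸ Mc_72
  have hP : (2 * r + 2) * 2 ^ k ≤ M := hM ▸ Mc_P
  have hr : 42 * (1 + 2 * r) ≤ M ^ 2 := hM ▸ Mc_r
  rw [← hM]
  refine le_trans ?_ (pw (i := 2 * r + 5) (j := 2) (by omega) hP hr (by omega))
  unfold Kf
  obtain ⟨X, hX⟩ : ∃ X, X = ((2 * r + 2) * 2 ^ k) ^ (2 * r + 5) := ⟨_, rfl⟩
  have h1 : 1 ≤ X := by
    rw [hX]
    exact Nat.one_le_pow _ _ (by positivity)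
  rw [← hX]
  have h2 : 42 * (1 + 2 * r) * X = 42 * X + 84 * (r * X) := by ring
  have h3 : 2 * r * (2 * X * (1 + 2)) = 12 * (r * X) := by ring
  rw [h2, h3]
  omega

/-- The size of the logarithm. -/
theorem lg_M {x : ℝ} (h1 : (k : ℝ) ≤ x) (h2 : (E₀ : ℝ) ≤ 2 ^ x) (hx : 0 ≤ x) :
    Real.log (Mc r D C k E₀) ≤
      Real.log ((8 * (r + 1) * (D + 3) ^ 2 * (C + 1) : ℕ) : ℝ) + 1 + 2 * x := by
  have hl2 : 0 < Real.log 2 := Real.log_pos (by norm_num)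
  have hl21 : Real.log 2 ≤ 1 := by
    have := Real.log_two_lt_d9
    linarith
  have e : ((Mc r D C k E₀ : ℕ) : ℝ) =
      ((8 * (r + 1) * (D + 3) ^ 2 * (C + 1) : ℕ) : ℝ) * 2 ^ k * (E₀ + 1) := by
    unfold Mc
    push_cast
    ring
  rw [e, Real.log_mul (by positivity) (by positivity), Real.log_mul (by positivity)
    (by positivity), Real.log_pow]
  have h3 : (k : ℝ) * Real.log 2 ≤ x :=
    (mul_le_of_le_one_right (Nat.cast_nonneg k) hl21).trans h1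
  have h4 : Real.log ((E₀ : ℝ) + 1) ≤ 1 + x := by
    have h5 : (E₀ : ℝ) + 1 ≤ 2 ^ (x + 1) := by
      rw [Real.rpow_add (by norm_num), Real.rpow_one]
      have h6 : (1 : ℝ) ≤ 2 ^ x := Real.one_le_rpow (by norm_num) hx
      linarith
    have h7 := Real.log_le_log (by positivity) h5
    rw [Real.log_rpow (by norm_num)] at h7
    have h8 : (x + 1) * Real.log 2 ≤ x + 1 := mul_le_of_le_one_right (by linarith) hl21
    linarith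
  linarith

end

end Pool.D2F2
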