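import Pool.Agent.H28.D2.P8b
import Pool.Agent.H28.D2.P8n

/-!
# The number of the hop is few given the own data

`p8_cls`: the class theorem.
-/

set_option autoImplicit false

namespace Pool.D2F2

open Finset Real MvPolynomial
open Pool.Agent.H49.Ent Pool.Agent.H32.Dense Pool.STK Pool.KA Pool.KSAT Pool.K2S Pool.PB Pool.GEN
open Pool.S6C Pool.LA91 Pool.CHT Pool.CHX Pool.M3F
open Pool.ALL (RateOf)
open Pool.ISO (Clsd)
open Pool.D2R (dd hs co co_slam)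
open Pool.D2F (cv CvC)
open Pool.D2Z (en)
open Pool.D2N (rfv rfv_spec)
open Pool.X31 (nw few_floor)

/-- **The number is few given the own data**, class form. -/
theorem p8_cls {m : ℕ} {c : ℕ → Fin m} {r : ℕ} (hr0 : 0 < r)
    (hcr : ∀ l < r, c l ≠ c r) (hcc : ∀ j, j ≠ c r → ∃ l < r, c l = j)
    {D : ℕ} (hD2 : 2 ≤ D) {h ε : ℝ} (hh : 0 < h) (hh1 : h ≤ 1) (hε : 0 < ε) :
    ∃ η₀ : ℝ, 0 < η₀ ∧ ∃ c₀ : ℝ, 0 < c₀ ∧ ∀ {S : PCl m}, TmH S → ∀ {w μ η : ℝ}, 0 ≤ w →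
    0 < μ → w + μ ≤ 1 → 0 < η → η ≤ η₀ * μ → ∀ {rt : ℝ → ℝ}, RateOf S (c r) rt → ∀ {α β : ℝ},
    (∀ y₁ y₃ : ℝ, α ≤ y₁ → y₁ ≤ y₃ → y₃ ≤ β → rt y₃ - rt y₁ ≤ (1 - h) * (y₃ - y₁) + η) →
    ∀ {a a₂ : ℝ} {I : Finset (Fin m)}, (∀ i ∈ I, ∃ l < r, c l = i) → ∀ {xV cy : ℝ},
    ExvY S a₂ (fun J F ω (i : {x // x ∈ I}) => F.X J ω i) xV →
    ExvY S a (fun J F ω => F.X J ω (c 0)) cy → ∀ {c₁ : ℝ}, 0 < c₁ →
    Bas S (fun J F A => ∀ A₁ : F.Ω → Prop, Sub A₁ A → c₁ * Pe F.p A ≤ Pe F.p A₁ →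
      ∀ (n o b k q₀ q sg Q Mo Ma Mb E₀ : ℕ) (g go ga gb gd : ℕ → ℕ)
        (ψH : LnT F → ℕ → Option (Fin m) → ℝ) (zψ : PtT F → ℕ → Option (Fin m) → ℝ)
        (Ht : LnT F → MvPolynomial (Option (Fin m)) ℝ) (hD : ∀ s, (Ht s).totalDegree ≤ D)
        (Go Ga G₁ G₂ : PtT F → ℕ → MvPolynomial (Option (Fin m)) ℝ)
        (H₂ : LnT F → ℕ → MvPolynomial (Option (Fin m)) ℝ)
        (Vo Va Vb : Type) (zo : F.Ω → Vo) (za : PtT F → Va) (zaH : LnT F → Va) (zb : F.Ω → Vb),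
      P8G F c r D ⌊w * J⌋₊ n o ⌊a * J⌋₊ b ⌊a₂ * J⌋₊ k q₀ q sg Mo Ma Mb E₀ g go ga gb gd ψH zψ
        Ht hD Go Ga G₁ G₂ H₂ A₁ →
      P8L r ⌊w * J⌋₊ o ⌊a * J⌋₊ b J q₀ q sg Q g go ga gb gd →
      ⌊w * J⌋₊ ≤ ⌊a₂ * J⌋₊ → ⌊a₂ * J⌋₊ ≤ J →
      (k : ℝ) ≤ η * J → (E₀ : ℝ) ≤ 2 ^ (η * J) →
      (sg : ℝ) ≤ μ * J → μ * J ≤ g r + (q + sg) → α * J ≤ g r + (q + sg) - (μ * J + 1) →
      g r + (q + sg) ≤ β * J →
      ∑ l ∈ range r, ((J - gd l : ℕ) : ℝ) * Real.log 2 ≤ xV * Real.log 2 * J + η * J →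
      ((J - (g 0 + q₀) : ℕ) : ℝ) * Real.log 2 ≤ cy * Real.log 2 * J + η * J →
      KeyZ F ⌊w * J⌋₊ r ψH Go A₁ zo → KeyZ F ⌊w * J⌋₊ r ψH Ga A₁ (fun ω => za (ptr F J ω)) →
      KeyZ F ⌊w * J⌋₊ r ψH G₁ A₁ zb →
      (∀ ω, A₁ ω → za (ptr F J ω) = zaH (slam F ⌊a * J⌋₊ ω)) →
      (∀ ω ω', A₁ ω → A₁ ω' → za (ptr F J ω) = za (ptr F J ω') →
        F.Z ω = F.Z ω' ∧ F.T1 ⌊a * J⌋₊ ω = F.T1 ⌊a * J⌋₊ ω') →
      CH (cond F.p A₁ True) zo (fun ω => za (ptr F J ω)) ≤ η * J →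
      CH (cond F.p A₁ True) zo zb ≤ η * J →
      CH (cond F.p A₁ True) (fun ω => za (ptr F J ω)) zb ≤ η * J →
      CH (cond F.p A₁ True) (er (hdt2 F c g ⌊w * J⌋₊ n r D q₀ q sg ψH Ht hD) ⌊w * J⌋₊)
          (fun ω => (za (ptr F J ω), F.W ω)) ≤
        CH (cond F.p A₁ True) (er (hdt2 F c g ⌊w * J⌋₊ n r D q₀ q sg ψH Ht hD) ⌊w * J⌋₊)
          (fun ω => (zb ω, F.W ω)) + η * J →
      CH (cond F.p A₁ True) (er (hdt2 F c g ⌊w * J⌋₊ n r D q₀ q sg ψH Ht hD) ⌊w * J⌋₊)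
          (fun ω => (zo ω, F.W ω)) ≤
        CH (cond F.p A₁ True) (er (hdt2 F c g ⌊w * J⌋₊ n r D q₀ q sg ψH Ht hD) ⌊w * J⌋₊)
          (fun ω => (zb ω, F.W ω)) + η * J →
      (∀ B : F.Ω → Prop, Sub B A₁ → c₀ * Pe F.p A₁ ≤ Pe F.p B →
        ∑ l ∈ Finset.Ico 1 r, ((uu g q₀ q sg l - (g l + qv q₀ q l) : ℕ) : ℝ) * Real.log 2 -
            η * J ≤
          CH (cond F.p B True) (fun ω (l : Fin (r - 1)) =>
              Nfd (hdt2 F c g ⌊w * J⌋₊ n r D q₀ q sg ψH Ht hD) ⌊w * J⌋₊ (uu g q₀ q sg)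
                (fun l => g l + qv q₀ q l) (1 + l) ω)
            (fun ω => (zo ω, (F.W ω, (F.X J ω (c 0),
              cE (hdt2 F c g ⌊w * J⌋₊ n r D q₀ q sg ψH Ht hD) ⌊w * J⌋₊ ω))))) →
      CH (cond F.p A₁ True) (fun ω => ⌊(2 : ℝ) ^ (g r + q + sg) *
        nw (hdt2 F c g ⌊w * J⌋₊ n r D q₀ q sg ψH Ht hD) ⌊w * J⌋₊
          (rfv (cond F.p A₁ True) (fun ω => za (ptr F J ω))
            (er (hdt2 F c g ⌊w * J⌋₊ n r D q₀ q sg ψH Ht hD) ⌊w * J⌋₊)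
            (fun ω l => (hdt2 F c g ⌊w * J⌋₊ n r D q₀ q sg ψH Ht hD).P l (slam F ⌊w * J⌋₊ ω))
            (za (ptr F J ω)) (er (hdt2 F c g ⌊w * J⌋₊ n r D q₀ q sg ψH Ht hD) ⌊w * J⌋₊ ω)) ω⌋)
        (fun ω => (er (hdt2 F c g ⌊w * J⌋₊ n r D q₀ q sg ψH Ht hD) ⌊w * J⌋₊ ω,
          za (ptr F J ω))) ≤
      ε * μ * J) := by
  obtain ⟨δ₁, hδ₁, c₀, hc₀, N₀, hN₀, Hp⟩ := hop_nat D (by omega) hh hh1 (ε := ε / 4)
    (by positivity)
  obtain ⟨C, Hp⟩ := Hp r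
  have hl2 : 0 < Real.log 2 := Real.log_pos (by norm_num)
  -- the rate
  obtain ⟨T, hT⟩ : ∃ T : ℝ, T = ((r : ℝ) + 1) * (D + 5) * (C + 1) * (2 * r + 12 : ℕ) := ⟨_, rfl⟩
  obtain ⟨κ, hκ⟩ : ∃ κ : ℝ, κ = min δ₁ (min ε (c₀ * δ₁)) := ⟨_, rfl⟩
  have hκ0 : 0 < κ := by
    rw [hκ]
    exact lt_min hδ₁ (lt_min hε (by positivity))
  have hκ1 : κ ≤ δ₁ := by
    rw [hκ]
    exact min_le_left _ _
  have hκ2 : κ ≤ ε := by
    rw [hκ]
    exact (min_le_right _ _).trans (min_le_left _ _)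
  have hκ3 : κ ≤ c₀ * δ₁ := by
    rw [hκ]
    exact (min_le_right _ _).trans (min_le_right _ _)
  have hr' : (0 : ℝ) ≤ r := Nat.cast_nonneg r
  have hD' : (0 : ℝ) ≤ D := Nat.cast_nonneg D
  have hC' : (0 : ℝ) ≤ C := Nat.cast_nonneg C
  have hN1 : (1 : ℝ) ≤ (2 * r + 12 : ℕ) := by
    push_cast
    linarith
  have hT1 : 1 ≤ T := by
    rw [hT]
    have a1 : (1 : ℝ) ≤ (r : ℝ) + 1 := by linarith
    have a2 : (1 : ℝ) ≤ (D : ℝ) + 5 := by linarith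
    have a3 : (1 : ℝ) ≤ (C : ℝ) + 1 := by linarith
    exact one_le_mul_of_one_le_of_one_le (one_le_mul_of_one_le_of_one_le
      (one_le_mul_of_one_le_of_one_le a1 a2) a3) hN1
  refine ⟨κ / (10000 * T), by positivity, c₀, hc₀, ?_⟩
  intro S hTm w μ η hw hμ hwμ hη hηκ rt hrt α β hrow a a₂ I hI xV cy hex hey c₁ hc₁
  obtain ⟨J₀, HJ⟩ := Hp hw hμ hwμ
  have hTη : 10000 * (T * η) ≤ κ * μ := by
    have h1 : 10000 * T * (κ / (10000 * T) * μ) = κ * μ := by field_simp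
    have h2 := mul_le_mul_of_nonneg_left hηκ (by positivity : 0 ≤ 10000 * T)
    rw [h1] at h2
    linarith
  have hηT : η ≤ T * η := le_mul_of_one_le_left hη.le hT1
  have k1 : κ * μ ≤ δ₁ * μ := mul_le_mul_of_nonneg_right hκ1 hμ.le
  have k2 : κ * μ ≤ ε * μ := mul_le_mul_of_nonneg_right hκ2 hμ.le
  have k3 : κ * μ ≤ c₀ * δ₁ * μ := mul_le_mul_of_nonneg_right hκ3 hμ.le
  have hδμ : 0 < δ₁ * μ := mul_pos hδ₁ hμ
  obtain ⟨e', he'⟩ : ∃ e' : ℝ, e' = δ₁ * μ := ⟨_, rfl⟩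
  obtain ⟨e, he⟩ : ∃ e : ℝ, e = e' / 16 := ⟨_, rfl⟩
  have he0 : 0 < e := by
    rw [he, he']
    positivity
  have hηe : η < e := by
    rw [he, he']
    linarith
  have hpos : Bas S (fun _ F A => 0 < Pe F.p A) :=
    ⟨1, one_pos, 0, fun J _ F A h => hTm.1 _ _ _ _ h⟩
  have b1 := nfg_cls2_w hrt hpos hηe hη.le hrow hcr hcc hI hex hc₀ hc₁ hh.le hh1
  have b2 := Pool.LBK.Bas.ev hey (mul_pos hc₀ hc₁)
  have b3 := tm_cls hTm (δ := min (δ₁ * μ) (ε / 4 * μ)) hc₁ (lt_min hδμ (by positivity))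
  -- the threshold
  obtain ⟨c₃, hc₃⟩ : ∃ c₃ : ℝ,
    c₃ = Real.log ((8 * (r + 1) * (D + 3) ^ 2 * (C + 1) : ℕ) : ℝ) + 1 := ⟨_, rfl⟩
  obtain ⟨J₁, hJ₁⟩ := exists_nat_ge (max (c₃ / η) (max (2 * Real.log 2 / (e' / 4))
    (18 * Real.log 2 / c₀ / (e / 4))))
  refine (((b1.and b2).and b3).and hpos).mono (max J₀ J₁) ?_
  rintro J hJ F A ⟨⟨⟨g1, g2⟩, g3⟩, hA⟩ A₁ hA₁ hPA n o b k q₀ q sg Q Mo Ma Mb E₀ g go ga gb gd ψH zψ
    Ht hD Go Ga G₁ G₂ H₂ Vo Va Vb zo za zaH zb HG HL hWa₂ ha₂J hk hE hsg hμn hαn hβn hsum hcy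
    ko ka kb hza hzT hoa hob hab hfa hfo hnv
  have hJ0 : J₀ ≤ J := (le_max_left _ _).trans hJ
  have hJ1 : (J₁ : ℝ) ≤ J := by exact_mod_cast (le_max_right _ _).trans hJ
  have hJr : (0 : ℝ) ≤ J := Nat.cast_nonneg J
  have j1 : c₃ ≤ η * J := by
    have h1 := ((le_max_left _ _).trans hJ₁).trans hJ1
    rw [div_le_iff₀ hη] at h1
    linarith
  have j2 : 2 * Real.log 2 ≤ e' / 4 * J := by
    have h1 := (((le_max_left _ _).trans (le_max_right _ _)).trans hJ₁).trans hJ1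
    rw [div_le_iff₀ (by rw [he']; positivity)] at h1
    linarith
  have j3 : 18 * Real.log 2 / c₀ ≤ e / 4 * J := by
    have h1 := (((le_max_right _ _).trans (le_max_right _ _)).trans hJ₁).trans hJ1
    rw [div_le_iff₀ (by positivity)] at h1
    linarith
  have hA₁0 : 0 < Pe F.p A₁ := lt_of_lt_of_le (mul_pos hc₁ hA) hPA
  obtain ⟨x, hx⟩ : ∃ x : ℝ, x = η * J := ⟨_, rfl⟩
  have hx0 : 0 ≤ x := by
    rw [hx]
    positivity
  -- the logarithms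
  obtain ⟨L, hL⟩ : ∃ L : ℝ, L = (2 * r + 12 : ℕ) * Real.log (Mc r D C k E₀) := ⟨_, rfl⟩
  have hL0 : 0 ≤ L := by
    rw [hL]
    exact mul_nonneg (Nat.cast_nonneg _) (Real.log_natCast_nonneg _)
  have hLx : L ≤ (2 * r + 12 : ℕ) * (3 * x) := by
    rw [hL]
    refine mul_le_mul_of_nonneg_left ?_ (Nat.cast_nonneg _)
    have h1 := lg_M (r := r) (D := D) (C := C) (k := k) (E₀ := E₀) (x := x) (by rw [hx]; exact hk)
      (by rw [hx]; exact hE) hx0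
    rw [← hx] at j1
    linarith
  obtain ⟨y, hy⟩ : ∃ y : ℝ, y = ((r : ℝ) + 1) * (D + 5) * (C + 1) * L := ⟨_, rfl⟩
  have hyx : y ≤ 3 * (T * x) := by
    rw [hy, hT]
    have h1 := mul_le_mul_of_nonneg_left hLx
      (by positivity : 0 ≤ ((r : ℝ) + 1) * (D + 5) * (C + 1))
    refine h1.trans (le_of_eq ?_)
    ring
  have p1 : 0 ≤ r * L := mul_nonneg hr' hL0
  have p2 : 0 ≤ D * L := mul_nonneg hD' hL0
  have p3 : 0 ≤ C * L := mul_nonneg hC' hL0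
  have p4 : 0 ≤ r * D * L := mul_nonneg (mul_nonneg hr' hD') hL0
  have p5 : 0 ≤ r * C * L := mul_nonneg (mul_nonneg hr' hC') hL0
  have p6 : 0 ≤ D * C * L := mul_nonneg (mul_nonneg hD' hC') hL0
  have p7 : 0 ≤ r * D * C * L := mul_nonneg (mul_nonneg (mul_nonneg hr' hD') hC') hL0
  have hye : y = r * D * C * L + r * D * L + 5 * (r * C * L) + 5 * (r * L) + D * C * L +
      D * L + 5 * (C * L) + 5 * L := by
    rw [hy]
    ring
  have y1 : L ≤ y := by linarith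
  have y2 : r * L ≤ y := by linarith
  have y3 : C * L ≤ y := by linarith
  have y4 : (3 * r + 7 + r * (D + 3)) * L ≤ 7 * y := by
    have e1 : (3 * r + 7 + r * (D + 3)) * L = 6 * (r * L) + 7 * L + r * D * L := by ring
    rw [e1]
    linarith
  have hTx : 10000 * (T * x) ≤ κ * μ * J := by
    rw [hx]
    have := mul_le_mul_of_nonneg_right hTη hJr
    linarith
  have hxT : x ≤ T * x := le_mul_of_one_le_left hx0 hT1
  have k1' : κ * μ * J ≤ δ₁ * μ * J := mul_le_mul_of_nonneg_right k1 hJr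
  have k2' : κ * μ * J ≤ ε * μ * J := mul_le_mul_of_nonneg_right k2 hJr
  have k3' : κ * μ * J ≤ c₀ * δ₁ * μ * J := mul_le_mul_of_nonneg_right k3 hJr
  have hlast : 3 * (T * x) ≤ e / 4 * J := by
    rw [he, he']
    have : 0 ≤ T * x := hx0.trans hxT
    nlinarith
  -- the logarithms of the constants
  have la : Real.log (2 * (2 * ((2 * r + 2) * 2 ^ k) ^ (r + 4) + 1 : ℕ) + 1) ≤ L := by
    rw [hL]
    exact lg_a
  have lb : Real.log (2 * (2 + r * E₀ : ℕ) + 1) ≤ L := by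
    rw [hL]
    exact lg_b
  have lc : Real.log (2 * (3 : ℕ) + 1) ≤ L := by
    rw [hL]
    exact lg_c
  have ld : Real.log (2 * (r * ((D + 1) * ((D + 2) * 2 ^ k)) + 2 : ℕ) + 1) ≤ L := by
    rw [hL]
    exact lg_d
  have le : Real.log (2 * ((2 * (((2 * r + 2) * 2 ^ k) ^ (2 * r + 7) * (1 + 1) *
      (D + 1) ^ 2) : ℕ) + 1) + 1) ≤ L := by
    rw [hL]
    exact lg_e
  have lf : Real.log (2 * (((2 * r + 2) * 2 ^ k) ^ (2 * r + 7) * (1 + 1) *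
      (D + 1) ^ 2 * (1 + r * (D + 1) ^ 2) + 1 : ℕ) + 1) ≤ L := by
    rw [hL]
    exact lg_f
  have lg : Real.log (2 * (Yk r k 1 + 1 : ℕ) + 1) ≤ L := by
    rw [hL]
    exact lg_g
  have lh : Real.log (C * ((((2 * r + 2) * 2 ^ k) ^ (2 * r + 7) * (1 + 1) *
      (D + 1) ^ 2 : ℕ) + 1)) ≤ L := by
    rw [hL]
    exact lg_h
  have li : Real.log (2 * (Kf r k : ℕ) + 1) ≤ L := by
    rw [hL]
    exact lg_i
  -- the time
  have tm := g3 A₁ hA₁ hPA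
  have tm1 : (J : ℝ) * Real.log 2 - δ₁ * μ * J ≤
      CH (cond F.p A₁ True) F.T (fun ω => (F.l ω, F.Z ω)) := by
    refine le_trans ?_ tm
    have := mul_le_mul_of_nonneg_right (min_le_left (δ₁ * μ) (ε / 4 * μ)) hJr
    linarith
  have tm2 : (J : ℝ) * Real.log 2 - ε / 4 * μ * J ≤
      CH (cond F.p A₁ True) F.T (fun ω => (F.l ω, F.Z ω)) := by
    refine le_trans ?_ tm
    have := mul_le_mul_of_nonneg_right (min_le_right (δ₁ * μ) (ε / 4 * μ)) hJr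
    linarith
  -- the rows
  have row := g1 A₁ hA₁ hPA g gd ⌊w * J⌋₊ k D (q + sg) (g r + q + sg) E₀ N₀
    (((2 * r + 2) * 2 ^ k) ^ (2 * r + 7) * (1 + 1) * (D + 1) ^ 2) ((D + 2) * 2 ^ k) ψH
    (hds2 F c g ⌊w * J⌋₊ n r D q₀ q sg ψH Ht hD) G₂ H₂ zψ gd (uu g q₀ q sg)
    (fun l => g l + qv q₀ q l) (wts r g q₀ q sg) μ e' HG.hd
    (hds2_fdv HG.ho.hW HG.ho.inj HG.ho.cvH)
    ((hds2_fdv HG.ho.hW HG.ho.inj HG.ho.cvH).frw HG.ho.inj HG.ho.cvH HG.lip)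
    hWa₂ ha₂J HG.zψ HG.cl (fun ω hω l hl j hj => by
      have h1 := hds2_lip HG.ha HG.row HG.siz (fun l _ => le_uu' (g := g) (q₀ := q₀) (q := q)
        (sg := sg) l) ω hω l hl j hj
      rw [← add_assoc] at h1
      exact h1)
    (fun l _ => le_rfl) HL.d1 (fun l _ => le_uu' l) (fun l hl => HL.uuJ hl)
    (fun l hl => by
      unfold wts
      rw [if_pos hl]) (fun l _ => le_uu l) (fun l _ => rfl)
    (by have := HL.J2; omega)
    (by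
      unfold wts
      rw [if_neg (lt_irrefl r)]
      omega)
    (by have := HL.d2; omega) (by omega) hμ.le (by push_cast; linarith) hN₀
    (by push_cast; linarith) (by push_cast; linarith) ?_ ?_ ?_ ?_
  · -- the end
    have few := HJ J hJ0 F A₁ hA₁0 (hds2 F c g ⌊w * J⌋₊ n r D q₀ q sg ψH Ht hD)
      ((HG.recA HL ka).shr _) hsg ?_ tm1 (by
        rw [he'] at row
        exact row)
    · have key := HG.few HL hD2 hA₁0 ka hza hzT (K := Kf r k) (by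
        unfold Kf
        push_cast
        exact le_of_eq (by ring)) few tm2
      refine key.trans ?_
      have : 0 ≤ ε * μ * J := by positivity
      linarith
    · refine (mul_le_mul_of_nonneg_left lh hC').trans ?_
      have : 0 ≤ δ₁ * μ * J := by positivity
      linarith
  · -- the sum of stage 1
    have : x ≤ e * J := by
      have h1 := mul_le_mul_of_nonneg_right hηe.le hJr
      rw [hx]
      exact h1
    linarith
  · refine (mul_le_mul_of_nonneg_left la hr').trans ?_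
    have : 0 ≤ e * J := by positivity
    linarith
  · have m1 := mul_le_mul_of_nonneg_left lb (by positivity : (0 : ℝ) ≤ 2 * r + 2)
    have m2 := mul_le_mul_of_nonneg_left lc hr'
    have m3 := mul_le_mul_of_nonneg_left le (by positivity : (0 : ℝ) ≤ r * (D + 3))
    have m4 : 4 * (e * J) = e' / 4 * J := by
      rw [he]
      ring
    have m5 : e / 4 * J = e' / 64 * J := by
      rw [he]
      ring
    have m6 : 0 ≤ e' * J := by
      rw [he']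
      positivity
    have m7 : (3 * r + 7 + r * (D + 3)) * L = (2 * r + 2) * L + L + (r * L + 2 * L +
      ((r * (D + 3)) * L + 2 * L)) := by ring
    linarith
  · intro B hBA hBc
    refine ⟨_, _, ((HG.recO HL ko).shr _).mono hBA, ?_⟩
    have hBA' : Sub B A := fun ω hω => hA₁ ω (hBA ω hω)
    have hBc' : c₀ * c₁ * Pe F.p A ≤ Pe F.p B := by
      refine le_trans ?_ hBc
      rw [mul_assoc]
      exact mul_le_mul_of_nonneg_left hPA hc₀.le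
    have hB0 : 0 < Pe F.p B := lt_of_lt_of_le (mul_pos hc₀ hA₁0) hBc
    have hB1 := g2 B hBA' hBc' Va za zaH fun ω hω => hza ω (hBA ω hω)
    have hB2 : cy * Real.log 2 * J ≤ CH (cond F.p B True) (fun ω => F.X J ω (c 0))
        (fun ω => (za (ptr F J ω), F.W ω)) := by
      refine hB1.trans (CH_mono_cond (isLaw_cond F.isLaw hB0).nonneg fun ω ω' hω hω' e => ?_)
      simp only [Prod.mk.injEq] at e ⊢
      rw [hza ω (hBA ω (of_cond_pos hω)), hza ω' (hBA ω' (of_cond_pos hω'))]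
      exact e
    have key := HG.vfd HL hr0 hA₁0 hBA hc₀ hBc ko ka kb (η := x) hx0
      (by rw [hx]; exact hoa) (by rw [hx]; exact hob) (by rw [hx]; exact hab)
      (by rw [hx]; exact hfa) (by rw [hx]; exact hfo) (by linarith)
      (by rw [hx]; exact hnv B hBA hBc)
    refine le_trans ?_ key
    have n1 := mul_le_mul_of_nonneg_left (add_le_add lb lg) hr'
    have n2 : (2 * x + Real.log 2) / c₀ = 2 * x / c₀ + Real.log 2 / c₀ := add_div _ _ _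
    have n3 : 2 * x / c₀ ≤ 2 / 10000 * (δ₁ * μ * J) := by
      rw [div_le_iff₀ hc₀]
      linarith
    have n4 : 18 * Real.log 2 / c₀ = 18 * (Real.log 2 / c₀) := by ring
    have n5 : e * J = δ₁ * μ * J / 16 := by
      rw [he, he']
      ring
    have n6 : e / 4 * J = δ₁ * μ * J / 64 := by
      rw [he, he']
      ring
    have n7 : r * (L + L) = 2 * (r * L) := by ring
    have n8 : 0 ≤ δ₁ * μ * J := by positivity
    rw [n2]
    rw [n4] at j3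
    linarith

end Pool.D2F2
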