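import Pool.Agent.H28.D2.Geo2
import Pool.Agent.H28.D2.Evb
import Pool.Agent.H4.D2.Vnv

/-!
# The near digits given the record of an earlier ball

`Gb.posn`, `Gb.veln`: positions and velocities of two samples of one ball. `vfd_rec`: the near
digits of all coordinates are full given the record of the ball of the window `o`.
-/

set_option autoImplicit false

namespace Pool.D2F2

open Finset Real MvPolynomial
open Pool.Agent.H49.Ent Pool.Agent.H32.Dense Pool.STK Pool.KA Pool.KSAT Pool.K2S Pool.PB Pool.GEN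
open Pool.S6C Pool.LA91 Pool.CHT Pool.CHX
open Pool.OWN68 (opl tw uw mid dirv natDegree_opl opl_jet uw_abs CH_pair floor_sub_le CH_le_Hu)
open Pool.D2R (dd hs co nrm dd_sub)
open Pool.D2F (cv CvC eta FrOK cv_sub)
open Pool.D2Z (en en_succ en_zero en_nonneg en_mono en_eq)
open Pool.D2H (uw_eq eval_small of_floor_mul CH_step CH_pi_le)
open Pool.D2S (Pr Sg NtB yk en_rec)

variable {m J : ℕ}

section pairs

variable {F : Fam m J} {c : ℕ → Fin m} {g ga : ℕ → ℕ} {W n a k r D sg M q₀ q : ℕ}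
    {ψH : LnT F → ℕ → Option (Fin m) → ℝ} {Ht : LnT F → MvPolynomial (Option (Fin m)) ℝ}
    {G : PtT F → ℕ → MvPolynomial (Option (Fin m)) ℝ} {B : F.Ω → Prop}
    {hD : ∀ s, (Ht s).totalDegree ≤ D}

/-- **The positions** of two samples of one ball, in natural units. -/
theorem Gb.posn (H : Gb F c g ga W n a k r D sg M ψH Ht G B) {K₀ : ℕ} {Q : ℕ} {ω ω' : F.Ω}
    (hω : B ω) (hω' : B ω') (hT : F.T ω = F.T ω')
    (hψ : ψH (slam F W ω) = ψH (slam F W ω'))
    (hG : ∀ l ≤ r, G (ptr F J ω) l = G (ptr F J ω') l)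
    (hp : ∀ l < r, (2 : ℝ) ^ (g l + Q) * |(hdt F c g W n r D q sg ψH Ht hD).v W l ω -
      (hdt F c g W n r D q sg ψH Ht hD).v W l ω'| ≤ K₀ ∨ g l + Q ≤ ga l) :
    ∀ l < r, (2 : ℝ) ^ (g l + Q) * |(hdt F c g W n r D q sg ψH Ht hD).v W l ω -
      (hdt F c g W n r D q sg ψH Ht hD).v W l ω'| ≤
        ((((2 * r + 2) * 2 ^ k) ^ (2 * r + 5) * (K₀ + 1) : ℕ) : ℝ) := by
  intro l hl
  have hp' := H.pr hω hω' hT hG
  have h1 := pos' hp' (Y := (2 * r + 2) * 2 ^ k) le_rfl (q := Q) (Nat.cast_nonneg K₀)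
    (fun j hj => ?_) (show l + 1 ≤ r by omega)
  · rw [en_succ] at h1
    have h3 := en_nonneg c g W (ψH (slam F W ω)) l (bt F ω' - bt F ω)
    have h4 : 2 ^ g l * |(bt F ω' - bt F ω) (some (c l)) -
        cv (ψH (slam F W ω) l) (bt F ω' - bt F ω)| ≤
        ((2 * r + 2) * 2 ^ k) ^ (2 * r + 5) * ((K₀ + 1) / 2 ^ Q) := by linarith
    rw [abs_sub_comm, hdt_dv H.hW l hψ, if_pos hl, pow_add, mul_comm ((2 : ℝ) ^ g l), mul_assoc]
    refine (mul_le_mul_of_nonneg_left h4 (by positivity)).trans (le_of_eq ?_)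
    push_cast
    field_simp
  · rcases hp j hj with h2 | h2
    · left
      rw [abs_sub_comm, hdt_dv H.hW j hψ, if_pos hj, pow_add] at h2
      rw [le_div_iff₀ (by positivity)]
      linarith
    · exact Or.inr h2

/-- **The velocities** of two samples of one ball, in natural units. -/
theorem Gb.veln (H : Gb F c g ga W n a k r D sg M ψH Ht G B) {K₀ : ℕ} {ω ω' : F.Ω}
    (hω : B ω) (hω' : B ω') (hT : F.T ω = F.T ω')
    (hψ : ψH (slam F W ω) = ψH (slam F W ω'))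
    (hG : ∀ l ≤ r, G (ptr F J ω) l = G (ptr F J ω') l)
    (hv : ∀ l < r, (2 : ℝ) ^ (g l + q) * |(hdt F c g W n r D q sg ψH Ht hD).e W l ω -
      (hdt F c g W n r D q sg ψH Ht hD).e W l ω'| ≤ K₀ ∨ g l + q + a ≤ ga l + W) :
    ∀ l < r, (2 : ℝ) ^ (g l + q) * |(hdt F c g W n r D q sg ψH Ht hD).e W l ω -
      (hdt F c g W n r D q sg ψH Ht hD).e W l ω'| ≤
        ((((2 * r + 2) * 2 ^ k) ^ (2 * r + 5) * (K₀ + 1) : ℕ) : ℝ) := by
  intro l hl
  have hp := H.pr hω hω' hT hG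
  have h2 : ∀ ν : F.Ω, bd F ν none = 1 := fun _ => rfl
  have h1 := Pr.vel hp (Y := (2 * r + 2) * 2 ^ k) le_rfl (h2 ω) (h2 ω') (H.vel ω hω)
    (fun l hl => by
      rw [hG l hl]
      exact H.vel ω' hω' l hl) (K := 2 * K₀) (q := q) (by positivity) (fun j hj => ?_)
    (show l + 1 ≤ r by omega)
  · rw [en_succ] at h1
    have h3 := en_nonneg c g W (ψH (slam F W ω)) l (bd F ω' - bd F ω)
    have h4 : 2 ^ g l * |(bd F ω' - bd F ω) (some (c l)) -
        cv (ψH (slam F W ω) l) (bd F ω' - bd F ω)| ≤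
        ((2 * r + 2) * 2 ^ k) ^ (2 * r + 5) * ((2 * K₀ + 1) * (2 ^ W / 2 ^ q)) := by linarith
    rw [abs_sub_comm, hdt_de H.hW l hψ, if_pos hl, abs_mul,
      abs_of_pos (by positivity : (0 : ℝ) < 1 / 2 ^ (W + 1))]
    have h6 : ∀ z : ℝ, (2 : ℝ) ^ (g l + q) * (1 / 2 ^ (W + 1) * z) =
        (2 ^ q / 2 ^ (W + 1)) * (2 ^ g l * z) := fun z => by
      rw [pow_add]
      ring
    rw [h6]
    refine (mul_le_mul_of_nonneg_left h4 (by positivity)).trans ?_
    have h5 : (2 : ℝ) ^ q / 2 ^ (W + 1) *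
        (((2 * r + 2) * 2 ^ k) ^ (2 * r + 5) * ((2 * K₀ + 1) * (2 ^ W / 2 ^ q))) =
        ((2 * r + 2) * 2 ^ k) ^ (2 * r + 5) * ((2 * K₀ + 1) / 2) := by
      rw [pow_succ]
      field_simp
    rw [h5]
    push_cast
    refine mul_le_mul_of_nonneg_left ?_ (by positivity)
    have : (0 : ℝ) ≤ K₀ := Nat.cast_nonneg _
    linarith
  · rcases hv j hj with h1 | h1
    · left
      rw [abs_sub_comm, hdt_de H.hW j hψ, if_pos hj, abs_mul,
        abs_of_pos (by positivity : (0 : ℝ) < 1 / 2 ^ (W + 1))] at h1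
      obtain ⟨z, hz⟩ : ∃ z : ℝ, z = |(bd F ω' - bd F ω) (some (c j)) -
        cv (ψH (slam F W ω) j) (bd F ω' - bd F ω)| := ⟨_, rfl⟩
      rw [← hz] at h1 ⊢
      have h3 : (2 : ℝ) ^ (g j + q) * (1 / 2 ^ (W + 1) * z) =
          (2 ^ g j * z) * (2 ^ q / 2 ^ (W + 1)) := by
        rw [pow_add]
        ring
      rw [h3] at h1
      have h4 : (2 : ℝ) ^ g j * z = (2 ^ g j * z) * (2 ^ q / 2 ^ (W + 1)) *
          (2 ^ (W + 1) / 2 ^ q) := by
        field_simp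
      rw [h4]
      refine (mul_le_mul_of_nonneg_right h1 (by positivity)).trans (le_of_eq ?_)
      rw [pow_succ]
      ring
    · exact Or.inr h1

/-- The constant of the positions and velocities. -/
def Yk (r k K₀ : ℕ) : ℕ := ((2 * r + 2) * 2 ^ k) ^ (2 * r + 5) * (K₀ + 1)

theorem le_Yk (r k K₀ : ℕ) : 2 ≤ Yk r k K₀ ∧ K₀ ≤ Yk r k K₀ := by
  have h1 : 2 ≤ (2 * r + 2) * 2 ^ k := by
    have : 1 ≤ 2 ^ k := Nat.one_le_two_pow
    nlinarith
  have h2 : (2 * r + 2) * 2 ^ k ≤ ((2 * r + 2) * 2 ^ k) ^ (2 * r + 5) :=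
    Nat.le_self_pow (by omega) _
  unfold Yk
  obtain ⟨X, hX⟩ : ∃ X, X = ((2 * r + 2) * 2 ^ k) ^ (2 * r + 5) := ⟨_, rfl⟩
  rw [← hX] at h2 ⊢
  constructor
  · exact (h1.trans h2).trans (Nat.le_mul_of_pos_right _ (by omega))
  · calc K₀ ≤ 1 * (K₀ + 1) := by omega
      _ ≤ X * (K₀ + 1) := Nat.mul_le_mul_right _ (by omega)

/-- The positions at the two precisions. -/
theorem Gb.posq (H : Gb F c g ga W n a k r D sg M ψH Ht G B) (hq : q ≤ q₀) {K₀ : ℕ} {ω ω' : F.Ω}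
    (hω : B ω) (hω' : B ω') (hT : F.T ω = F.T ω')
    (hψ : ψH (slam F W ω) = ψH (slam F W ω'))
    (hG : ∀ l ≤ r, G (ptr F J ω) l = G (ptr F J ω') l)
    (hp : ∀ l < r, (2 : ℝ) ^ (g l + qv q₀ q l) *
      |(hdt2 F c g W n r D q₀ q sg ψH Ht hD).v W l ω -
        (hdt2 F c g W n r D q₀ q sg ψH Ht hD).v W l ω'| ≤ K₀ ∨ g l + qv q₀ q l ≤ ga l) :
    ∀ l < r, (2 : ℝ) ^ (g l + qv q₀ q l) * |(hdt2 F c g W n r D q₀ q sg ψH Ht hD).v W l ω -
      (hdt2 F c g W n r D q₀ q sg ψH Ht hD).v W l ω'| ≤ Yk r k K₀ := by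
  intro l hl
  obtain ⟨y1, y2⟩ := le_Yk r k K₀
  have y1R : (2 : ℝ) ≤ Yk r k K₀ := by exact_mod_cast y1
  have y2R : (K₀ : ℝ) ≤ Yk r k K₀ := by exact_mod_cast y2
  rcases Nat.eq_zero_or_pos l with rfl | h
  · rcases hp 0 hl with h3 | h3
    · exact h3.trans y2R
    · have h4 := H.zero (q := q) (sg := sg) (hD := hD) hl hω hω' hT hψ hG
      refine (mul_le_mul_of_nonneg_left h4 (by positivity)).trans ?_
      rw [mul_div_assoc', div_le_iff₀ (by positivity)]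
      have h5 : (2 : ℝ) ^ (g 0 + qv q₀ q 0) ≤ 2 ^ ga 0 := pow_le_pow_right₀ (by norm_num) h3
      have h6 : (0 : ℝ) < 2 ^ ga 0 := by positivity
      nlinarith
  · rw [qv_pos h.ne']
    refine H.posn (q := q) (sg := sg) (hD := hD) (Q := q) hω hω' hT hψ hG (fun j hj => ?_) l hl
    rcases hp j hj with h | h
    · left
      refine le_trans (mul_le_mul_of_nonneg_right ?_ (abs_nonneg _)) h
      exact pow_le_pow_right₀ (by norm_num) (Nat.add_le_add_left (le_qv hq j) _)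
    · right
      exact (Nat.add_le_add_left (le_qv hq j) _).trans h

/-- The velocities at the two precisions. -/
theorem Gb.velq (H : Gb F c g ga W n a k r D sg M ψH Ht G B) (hq : q ≤ q₀) {K₀ : ℕ} {ω ω' : F.Ω}
    (hω : B ω) (hω' : B ω') (hT : F.T ω = F.T ω')
    (hψ : ψH (slam F W ω) = ψH (slam F W ω'))
    (hG : ∀ l ≤ r, G (ptr F J ω) l = G (ptr F J ω') l)
    (h0 : (2 : ℝ) ^ (g 0 + q₀) *
      |(hdt2 F c g W n r D q₀ q sg ψH Ht hD).e W 0 ω -
        (hdt2 F c g W n r D q₀ q sg ψH Ht hD).e W 0 ω'| ≤ K₀)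
    (hv : ∀ l < r, l ≠ 0 → g l + q + a ≤ ga l + W) :
    ∀ l < r, (2 : ℝ) ^ (g l + qv q₀ q l) * |(hdt2 F c g W n r D q₀ q sg ψH Ht hD).e W l ω -
      (hdt2 F c g W n r D q₀ q sg ψH Ht hD).e W l ω'| ≤ Yk r k K₀ := by
  intro l hl
  obtain ⟨y1, y2⟩ := le_Yk r k K₀
  have y2R : (K₀ : ℝ) ≤ Yk r k K₀ := by exact_mod_cast y2
  rcases Nat.eq_zero_or_pos l with rfl | h
  · exact h0.trans y2R
  · rw [qv_pos h.ne']
    refine H.veln (q := q) (sg := sg) (hD := hD) hω hω' hT hψ hG (fun j hj => ?_) l hl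
    rcases Nat.eq_zero_or_pos j with rfl | hj0
    · left
      refine le_trans (mul_le_mul_of_nonneg_right ?_ (abs_nonneg _)) h0
      exact pow_le_pow_right₀ (by norm_num) (by omega)
    · exact Or.inr (hv j hj hj0.ne')

end pairs

/-! ### The cells -/

/-- Cells of finitely many numbers. -/
theorem CH_cells {Ω T : Type} [Fintype Ω] {p : Ω → ℝ} (hp : IsLaw p) {n K : ℕ}
    (X : Ω → Fin n → ℝ) (Z : Ω → T)
    (h : ∀ ω ω', 0 < p ω → 0 < p ω' → Z ω = Z ω' → ∀ l, |X ω l - X ω' l| ≤ K) :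
    CH p (fun ω (l : Fin n) => ⌊X ω l⌋) Z ≤ n * Real.log (2 * (K + 1 : ℕ) + 1) := by
  have h1 := CH_pi_le hp.nonneg (fun ω (l : Fin n) => ⌊X ω l⌋) Z
    (B := Real.log (2 * (K + 1 : ℕ) + 1)) fun l => by
      refine CH_pair hp _ Z fun ω ω' hω hω' e => ?_
      have := floor_sub_le (h ω ω' hω hω' e l)
      push_cast at this ⊢
      exact this
  rwa [Fintype.card_fin] at h1

section cells

variable {F : Fam m J} {κ : Type} {r D : ℕ}

/-- The cells of the positions. -/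
noncomputable def cP (d : Dat F κ r D) (W : ℕ) (ω : F.Ω) : Fin r → ℤ :=
  fun l => ⌊d.SV l * d.v W l ω⌋

/-- The cells of the velocities. -/
noncomputable def cE (d : Dat F κ r D) (W : ℕ) (ω : F.Ω) : Fin r → ℤ :=
  fun l => ⌊d.SE l * d.e W l ω⌋

/-- The cell of the velocity of the first coordinate. -/
noncomputable def cV (d : Dat F κ r D) (W : ℕ) (ω : F.Ω) : ℤ := ⌊d.SE 0 * d.e W 0 ω⌋

/-- The cells of the coefficients of positive order of the gradients. -/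
noncomputable def cG (d : Dat F κ r D) (W : ℕ) (ω : F.Ω) : Fin r → Fin D → ℤ :=
  fun l j => ⌊d.SG l * (d.gp l (slam F W ω)).coeff (j + 1)⌋

theorem fl_one {s x y : ℝ} (hs : 0 ≤ s) (h : ⌊s * x⌋ = ⌊s * y⌋) : s * |x - y| ≤ 1 := by
  have h1 := Int.abs_sub_lt_one_of_floor_eq_floor h
  rw [← mul_sub, abs_mul, abs_of_nonneg hs] at h1
  exact h1.le

end cells

/-- **The key of a record**: it knows the frame and the charts. -/
def KeyZ (F : Fam m J) (W r : ℕ) (ψH : LnT F → ℕ → Option (Fin m) → ℝ)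
    (G : PtT F → ℕ → MvPolynomial (Option (Fin m)) ℝ) (A : F.Ω → Prop) {V : Type}
    (z : F.Ω → V) : Prop :=
  ∀ ω ω', A ω → A ω' → z ω = z ω' → ψH (slam F W ω) = ψH (slam F W ω') ∧
    ∀ l ≤ r, G (ptr F J ω) l = G (ptr F J ω') l

/-- Given a condition which knows it, nothing is left. -/
theorem CH_det {Ω S T : Type} [Fintype Ω] {p : Ω → ℝ} (h0 : ∀ ω, 0 ≤ p ω) (X : Ω → S)
    (Z : Ω → T) (h : ∀ ω ω', 0 < p ω → 0 < p ω' → Z ω = Z ω' → X ω = X ω') :
    CH p X Z ≤ 0 := (CH_eq_zero h0 fun ω ω' a b e => h ω ω' a b e).le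

/-- A free pair: the second variable is free given the first one. -/
theorem free_snd {Ω S T Z Z' : Type} [Fintype Ω] {p : Ω → ℝ} (h0 : ∀ ω, 0 ≤ p ω)
    (V : Ω → S) (G : Ω → T) (z : Ω → Z) (z' : Ω → Z') {η η' : ℝ}
    (h : CH p (fun ω => (V ω, G ω)) z ≤ CH p (fun ω => (V ω, G ω)) z' + η)
    (hz : CH p z z' ≤ η') :
    CH p G (fun ω => (V ω, z ω)) ≤ CH p G (fun ω => (V ω, z' ω)) + (η + η') := by
  have key : ∀ {κ : Type} (c : Ω → κ), CH p (fun ω => (V ω, G ω)) c =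
      CH p V c + CH p G (fun ω => (V ω, c ω)) := by
    intro κ c
    have h1 := CH_chain h0 G V c
    have h2 : CH p (fun ω => (V ω, G ω)) c = CH p (fun ω => (G ω, V ω)) c := by
      refine CH_congr h0 ?_ ?_ (fun _ _ _ _ h => h) (fun _ _ _ _ h => h) <;>
      · intro ω ω' _ _ hh
        simp only [Prod.mk.injEq] at hh ⊢
        tauto
    linarith
  rw [key z, key z'] at h
  have h1 := CH_le_add h0 V z z'
  have h2 : CH p V (fun ω => (z ω, z' ω)) ≤ CH p V z :=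
    CH_mono_cond h0 fun ω ω' _ _ hh => (Prod.ext_iff.mp hh).1
  linarith

/-- **The near digits of all coordinates are full given the record of the earlier ball.** -/
theorem vfd_rec {F : Fam m J} {c : ℕ → Fin m} {g go ga gb : ℕ → ℕ}
    {W n o a b k r D sg Mo Ma Mb q₀ q E₀ : ℕ}
    {ψH : LnT F → ℕ → Option (Fin m) → ℝ} {Ht : LnT F → MvPolynomial (Option (Fin m)) ℝ}
    {Go Ga G₁ : PtT F → ℕ → MvPolynomial (Option (Fin m)) ℝ} {A B : F.Ω → Prop}
    {hD : ∀ s, (Ht s).totalDegree ≤ D} (hr : 0 < r) (hq : q ≤ q₀)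
    (Ho : Gb F c g go W n o k r D sg Mo ψH Ht Go A)
    (Ha : Gb F c g ga W n a k r D sg Ma ψH Ht Ga A)
    (Hb : Gb F c g gb W n b k r D sg Mb ψH Ht G₁ A)
    {wt : ℕ → ℕ} (hF : FrW (hdt2 F c g W n r D q₀ q sg ψH Ht hD) A W c wt E₀)
    (hBA : Sub B A) (hB : 0 < Pe F.p B)
    {u v : ℕ → ℕ} (hv : ∀ l < r, v l = g l + qv q₀ q l) (hvu : ∀ l < r, v l ≤ u l)
    (huJ : u 0 ≤ J) (huw : u 0 ≤ wt 0) {Q : ℕ} (huQ : ∀ l < r, u l ≤ g l + Q)
    (lo : ∀ l < r, l ≠ 0 → g l + q ≤ go l)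
    (la : ∀ l < r, g l + qv q₀ q l ≤ ga l) (la' : ∀ l < r, l ≠ 0 → g l + q + a ≤ ga l + W)
    (lb : ∀ l < r, g l + Q ≤ gb l) (lb' : ∀ l < r, l ≠ 0 → g l + q + b ≤ gb l + W)
    {Vo Va Vb : Type} {zo : F.Ω → Vo} {za : F.Ω → Va} {zb : F.Ω → Vb}
    (ko : KeyZ F W r ψH Go A zo) (ka : KeyZ F W r ψH Ga A za) (kb : KeyZ F W r ψH G₁ A zb)
    {η : ℝ} (hη : 0 ≤ η)
    (hoa : CH (Pool.Agent.H49.Ent.cond F.p B True) zo za ≤ η)
    (hob : CH (Pool.Agent.H49.Ent.cond F.p B True) zo zb ≤ η)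
    (hab : CH (Pool.Agent.H49.Ent.cond F.p B True) za zb ≤ η)
    (hfa : CH (Pool.Agent.H49.Ent.cond F.p B True)
        (fun ω => (cV (hdt2 F c g W n r D q₀ q sg ψH Ht hD) W ω,
          cG (hdt2 F c g W n r D q₀ q sg ψH Ht hD) W ω)) (fun ω => (za ω, F.W ω)) ≤
      CH (Pool.Agent.H49.Ent.cond F.p B True)
        (fun ω => (cV (hdt2 F c g W n r D q₀ q sg ψH Ht hD) W ω,
          cG (hdt2 F c g W n r D q₀ q sg ψH Ht hD) W ω)) (fun ω => (zb ω, F.W ω)) + η)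
    (hfo : CH (Pool.Agent.H49.Ent.cond F.p B True)
        (fun ω => (cV (hdt2 F c g W n r D q₀ q sg ψH Ht hD) W ω,
          cG (hdt2 F c g W n r D q₀ q sg ψH Ht hD) W ω)) (fun ω => (zo ω, F.W ω)) ≤
      CH (Pool.Agent.H49.Ent.cond F.p B True)
        (fun ω => (cV (hdt2 F c g W n r D q₀ q sg ψH Ht hD) W ω,
          cG (hdt2 F c g W n r D q₀ q sg ψH Ht hD) W ω)) (fun ω => (zb ω, F.W ω)) + η)
    (hex : ((J - v 0 : ℕ) : ℝ) * Real.log 2 - η ≤
      CH (Pool.Agent.H49.Ent.cond F.p B True) (fun ω => F.X J ω (c 0))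
        (fun ω => (za ω, F.W ω)))
    (hnv : ∑ l ∈ Finset.Ico 1 r, ((u l - v l : ℕ) : ℝ) * Real.log 2 - η ≤
      CH (Pool.Agent.H49.Ent.cond F.p B True)
        (fun ω (l : Fin (r - 1)) => Nfd (hdt2 F c g W n r D q₀ q sg ψH Ht hD) W u v (1 + l) ω)
        (fun ω => (zo ω, (F.W ω, (F.X J ω (c 0),
          cE (hdt2 F c g W n r D q₀ q sg ψH Ht hD) W ω))))) :
    ∑ l ∈ range r, ((u l - v l : ℕ) : ℝ) * Real.log 2 -
      (18 * η + 22 * (r * (Real.log (2 * (2 + r * E₀ : ℕ) + 1) +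
        Real.log (2 * (Yk r k 1 + 1 : ℕ) + 1)))) ≤
      CH (Pool.Agent.H49.Ent.cond F.p B True)
        (Vfd (hdt2 F c g W n r D q₀ q sg ψH Ht hD) W u v)
        (fun ω => (cG (hdt2 F c g W n r D q₀ q sg ψH Ht hD) W ω, (zo ω, (F.W ω,
          (cP (hdt2 F c g W n r D q₀ q sg ψH Ht hD) W ω,
            cE (hdt2 F c g W n r D q₀ q sg ψH Ht hD) W ω))))) := by
  have hp := isLaw_cond F.isLaw hB
  have h0 := hp.nonneg
  have hBp : ∀ ω, 0 < Pool.Agent.H49.Ent.cond F.p B True ω → A ω := fun ω hω =>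
    hBA ω (of_cond_pos hω)
  obtain ⟨d, hd⟩ : ∃ d : Dat F (ℕ → Option (Fin m) → ℝ) r D,
    d = hdt2 F c g W n r D q₀ q sg ψH Ht hD := ⟨_, rfl⟩
  obtain ⟨L₁, hL₁⟩ : ∃ L₁ : ℝ, L₁ = Real.log (2 * (2 + r * E₀ : ℕ) + 1) := ⟨_, rfl⟩
  obtain ⟨L₂, hL₂⟩ : ∃ L₂ : ℝ, L₂ = Real.log (2 * (Yk r k 1 + 1 : ℕ) + 1) := ⟨_, rfl⟩
  have hL₁0 : 0 ≤ L₁ := by
    rw [hL₁]
    refine Real.log_nonneg ?_
    have : (0 : ℝ) ≤ ((2 + r * E₀ : ℕ) : ℝ) := Nat.cast_nonneg _
    linarith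
  have hL₂0 : 0 ≤ L₂ := by
    rw [hL₂]
    refine Real.log_nonneg ?_
    have : (0 : ℝ) ≤ ((Yk r k 1 + 1 : ℕ) : ℝ) := Nat.cast_nonneg _
    linarith
  have hr0 : (0 : ℝ) ≤ r := Nat.cast_nonneg r
  have hrL : 0 ≤ r * L₂ := mul_nonneg hr0 hL₂0
  have hSV : ∀ l, d.SV l = 2 ^ (g l + qv q₀ q l) := fun l => by rw [hd]; rfl
  have hSE : ∀ l, d.SE l = 2 ^ (g l + qv q₀ q l) := fun l => by rw [hd]; rfl
  have hTW : ∀ {ω ω' : F.Ω}, F.W ω = F.W ω' → F.T ω = F.T ω' := fun h => (Prod.ext_iff.1 h).1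
  rw [← hd, ← hL₁, ← hL₂]
  rw [← hd] at hF hfa hfo hnv
  -- the positions
  have pA : ∀ ω ω', A ω → A ω' → za ω = za ω' → F.W ω = F.W ω' → ∀ l < r,
      (2 : ℝ) ^ (g l + qv q₀ q l) * |d.v W l ω - d.v W l ω'| ≤ Yk r k 1 := by
    intro ω ω' hω hω' e1 e2
    obtain ⟨k1, k2⟩ := ka ω ω' hω hω' e1
    rw [hd]
    exact Ha.posq hq (K₀ := 1) hω hω' (hTW e2) k1 k2 fun l hl => Or.inr (la l hl)
  have pO : ∀ ω ω', A ω → A ω' → zo ω = zo ω' → F.W ω = F.W ω' →
      (2 : ℝ) ^ (g 0 + qv q₀ q 0) * |d.v W 0 ω - d.v W 0 ω'| ≤ 1 → ∀ l < r,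
      (2 : ℝ) ^ (g l + qv q₀ q l) * |d.v W l ω - d.v W l ω'| ≤ Yk r k 1 := by
    intro ω ω' hω hω' e1 e2 e3
    obtain ⟨k1, k2⟩ := ko ω ω' hω hω' e1
    rw [hd] at e3 ⊢
    refine Ho.posq hq (K₀ := 1) hω hω' (hTW e2) k1 k2 fun l hl => ?_
    rcases Nat.eq_zero_or_pos l with rfl | h
    · left
      rw [Nat.cast_one]
      exact e3
    · right
      rw [qv_pos h.ne']
      exact lo l hl h.ne'
  have pB : ∀ ω ω', A ω → A ω' → zb ω = zb ω' → F.W ω = F.W ω' → ∀ l < r,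
      (2 : ℝ) ^ (g l + Q) * |d.v W l ω - d.v W l ω'| ≤ Yk r k 1 := by
    intro ω ω' hω hω' e1 e2
    obtain ⟨k1, k2⟩ := kb ω ω' hω hω' e1
    rw [hd]
    exact Hb.posn (q := q) (sg := sg) (hD := hD) (K₀ := 1) (Q := Q) hω hω' (hTW e2) k1 k2
      fun l hl => Or.inr (lb l hl)
  have pu : ∀ l < r, ∀ x : ℝ, 0 ≤ x → (2 : ℝ) ^ (g l + Q) * x ≤ Yk r k 1 →
      (2 : ℝ) ^ (u l) * x ≤ Yk r k 1 := fun l hl x hx h =>
    (mul_le_mul_of_nonneg_right (pow_le_pow_right₀ (by norm_num) (huQ l hl)) hx).trans h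
  have pq : ∀ l < r, ∀ x : ℝ, 0 ≤ x → (2 : ℝ) ^ (g l + Q) * x ≤ Yk r k 1 →
      (2 : ℝ) ^ (g l + qv q₀ q l) * x ≤ Yk r k 1 := fun l hl x hx h => by
    refine (mul_le_mul_of_nonneg_right (pow_le_pow_right₀ (by norm_num) ?_) hx).trans h
    rw [← hv l hl]
    exact (hvu l hl).trans (huQ l hl)
  -- the velocities
  have vA : ∀ ω ω', A ω → A ω' → za ω = za ω' → F.W ω = F.W ω' → cV d W ω = cV d W ω' →
      ∀ l < r, (2 : ℝ) ^ (g l + qv q₀ q l) * |d.e W l ω - d.e W l ω'| ≤ Yk r k 1 := by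
    intro ω ω' hω hω' e1 e2 e3
    obtain ⟨k1, k2⟩ := ka ω ω' hω hω' e1
    have e4 := fl_one (by rw [hSE]; positivity) e3
    rw [hSE, qv_zero] at e4
    rw [hd] at e4 ⊢
    exact Ha.velq hq (K₀ := 1) hω hω' (hTW e2) k1 k2 (by rw [Nat.cast_one]; exact e4) la'
  have vB : ∀ ω ω', A ω → A ω' → zb ω = zb ω' → F.W ω = F.W ω' → cV d W ω = cV d W ω' →
      ∀ l < r, (2 : ℝ) ^ (g l + qv q₀ q l) * |d.e W l ω - d.e W l ω'| ≤ Yk r k 1 := by
    intro ω ω' hω hω' e1 e2 e3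
    obtain ⟨k1, k2⟩ := kb ω ω' hω hω' e1
    have e4 := fl_one (by rw [hSE]; positivity) e3
    rw [hSE, qv_zero] at e4
    rw [hd] at e4 ⊢
    exact Hb.velq hq (K₀ := 1) hω hω' (hTW e2) k1 k2 (by rw [Nat.cast_one]; exact e4) lb'
  -- the cells
  have cellP : ∀ {T : Type} (Z : F.Ω → T), (∀ ω ω', A ω → A ω' → Z ω = Z ω' → ∀ l < r,
      (2 : ℝ) ^ (g l + qv q₀ q l) * |d.v W l ω - d.v W l ω'| ≤ Yk r k 1) →
      CH (Pool.Agent.H49.Ent.cond F.p B True) (cP d W) Z ≤ r * L₂ := by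
    intro T Z h
    rw [hL₂]
    refine CH_cells hp (fun ω (l : Fin r) => d.SV l * d.v W l ω) Z fun ω ω' a b e l => ?_
    rw [← mul_sub, abs_mul, hSV, abs_of_pos (by positivity)]
    exact h ω ω' (hBp ω a) (hBp ω' b) e l l.2
  have cellE : ∀ {T : Type} (Z : F.Ω → T), (∀ ω ω', A ω → A ω' → Z ω = Z ω' → ∀ l < r,
      (2 : ℝ) ^ (g l + qv q₀ q l) * |d.e W l ω - d.e W l ω'| ≤ Yk r k 1) →
      CH (Pool.Agent.H49.Ent.cond F.p B True) (cE d W) Z ≤ r * L₂ := by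
    intro T Z h
    rw [hL₂]
    refine CH_cells hp (fun ω (l : Fin r) => d.SE l * d.e W l ω) Z fun ω ω' a b e l => ?_
    rw [← mul_sub, abs_mul, hSE, abs_of_pos (by positivity)]
    exact h ω ω' (hBp ω a) (hBp ω' b) e l l.2
  have four : ∀ {T S : Type} (Z : F.Ω → T) (X : F.Ω → S),
      CH (Pool.Agent.H49.Ent.cond F.p B True) (fun ω => (zo ω, (F.W ω, (X ω)))) Z ≤
      CH (Pool.Agent.H49.Ent.cond F.p B True) zo Z +
        (CH (Pool.Agent.H49.Ent.cond F.p B True) F.W Z +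
        CH (Pool.Agent.H49.Ent.cond F.p B True) X Z) := by
    intro T S Z X
    have a1 := CH_subadd h0 zo (fun ω => (F.W ω, X ω)) Z
    have a2 := CH_subadd h0 F.W X Z
    linarith
  have hGm : ∀ {T : Type} (Z : F.Ω → T),
      CH (Pool.Agent.H49.Ent.cond F.p B True)
        (fun ω => (zo ω, (F.W ω, (cP d W ω, cE d W ω)))) Z ≤
      CH (Pool.Agent.H49.Ent.cond F.p B True) zo Z +
        (CH (Pool.Agent.H49.Ent.cond F.p B True) F.W Z +
        (CH (Pool.Agent.H49.Ent.cond F.p B True) (cP d W) Z +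
          CH (Pool.Agent.H49.Ent.cond F.p B True) (cE d W) Z)) := by
    intro T Z
    have a1 := four Z (fun ω => (cP d W ω, cE d W ω))
    have a2 := CH_subadd h0 (cP d W) (cE d W) Z
    linarith
  have hmono : ∀ {S T T' : Type} (X : F.Ω → S) (Z : F.Ω → T) (Z' : F.Ω → T'),
      (∀ ω ω', Z' ω = Z' ω' → Z ω = Z ω') →
      CH (Pool.Agent.H49.Ent.cond F.p B True) X Z' ≤
        CH (Pool.Agent.H49.Ent.cond F.p B True) X Z := fun X Z Z' h =>
    CH_mono_cond h0 fun ω ω' _ _ e => h ω ω' e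
  obtain ⟨η', hη'⟩ : ∃ η' : ℝ, η' = 2 * η + 2 * (r * L₂) := ⟨_, rfl⟩
  have hηη : η ≤ η' := by rw [hη']; linarith
  have key := vfd_blk_w (k₀ := 1) (u := u) (v := v) hF hBA hB (by omega)
    (fun l hl => by
      obtain rfl : l = 0 := by omega
      exact huJ) (fun l hl => by
      obtain rfl : l = 0 := by omega
      exact huw) (fun l hl => hvu l (by omega))
    (fun ω => (cG d W ω, (zo ω, (F.W ω, (cP d W ω, cE d W ω)))))
    (fun ω => (cV d W ω, cG d W ω)) (fun ω => (za ω, F.W ω)) (fun ω => (zb ω, F.W ω))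
    (cG d W) (fun ω => (cV d W ω, (zo ω, F.W ω))) (fun ω => (cV d W ω, (zb ω, F.W ω)))
    (fun ω => (zo ω, (F.W ω, (cP d W ω, cE d W ω))))
    (fun ω => (zo ω, (F.W ω, (F.X J ω (c 0), cE d W ω))))
    (Yv := fun ω => F.X J ω (c 0)) (K := Yk r k 1) (η := η')
    (fun ω ω' hω hω' e => by
      obtain ⟨e1, e2⟩ := Prod.ext_iff.1 e
      dsimp only at e1 e2
      refine ⟨hTW e2, ?_, fun l hl => ?_⟩
      · rw [hd]
        exact (ka ω ω' (hBA ω hω) (hBA ω' hω') e1).1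
      · rw [← mul_sub, abs_mul, abs_of_pos (by positivity), hv l (by omega)]
        exact pA ω ω' (hBA ω hω) (hBA ω' hω') e1 e2 l (by omega))
    (fun ω ω' _ _ h => h 0 (by norm_num))
    (fun ω ω' hω hω' e l hl => by
      obtain ⟨e1, e2⟩ := Prod.ext_iff.1 e
      dsimp only at e1 e2
      rw [← mul_sub, abs_mul, abs_of_pos (by positivity)]
      exact pu l (by omega) _ (abs_nonneg _)
        (pB ω ω' (hBA ω hω) (hBA ω' hω') e1 e2 l (by omega)))
    (fun ω ω' hω hω' e => by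
      simp only [Prod.mk.injEq] at e
      obtain ⟨e1, e2, e3, e4⟩ := e
      refine ⟨hTW e2, ?_, fun i hi => ?_⟩
      · rw [hd]
        exact (ko ω ω' (hBA ω hω) (hBA ω' hω') e1).1
      · obtain rfl : i = 0 := by omega
        exact e3)
    (fun ω ω' hω hω' e l hl => by
      simp only [Prod.mk.injEq] at e
      obtain ⟨-, e1, e2⟩ := e
      rw [← mul_sub, abs_mul, abs_of_pos (by positivity)]
      exact pu l hl _ (abs_nonneg _) (pB ω ω' (hBA ω hω) (hBA ω' hω') e1 e2 l hl))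
    (fun ω ω' _ _ e => by
      simp only [Prod.mk.injEq] at e ⊢
      obtain ⟨e1, e2, -, e4⟩ := e
      exact ⟨congrFun e4 ⟨0, hr⟩, e1, e2⟩)
    (by
      rw [Finset.sum_range_one]
      linarith)
    (by linarith)
    (by
      have a1 := CH_subadd h0 za F.W (fun ω => (zb ω, F.W ω))
      have a2 := hmono za zb (fun ω => (zb ω, F.W ω)) fun ω ω' e => (Prod.ext_iff.1 e).1
      have a3 := CH_det h0 F.W (fun ω => (zb ω, F.W ω)) fun ω ω' _ _ e => (Prod.ext_iff.1 e).2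
      linarith)
    (by
      have a0 := CH_subadd h0 (cG d W) (fun ω => (zo ω, (F.W ω, (cP d W ω, cE d W ω))))
        (fun ω => ((cV d W ω, cG d W ω), (za ω, F.W ω)))
      have a1 := CH_det h0 (cG d W) (fun ω => ((cV d W ω, cG d W ω), (za ω, F.W ω)))
        fun ω ω' _ _ e => by
          simp only [Prod.mk.injEq] at e
          exact e.1.2
      have a2 := hGm (fun ω => ((cV d W ω, cG d W ω), (za ω, F.W ω)))
      have a3 := hmono zo za (fun ω => ((cV d W ω, cG d W ω), (za ω, F.W ω)))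
        fun ω ω' e => by
          simp only [Prod.mk.injEq] at e
          exact e.2.1
      have a4 := CH_det h0 F.W (fun ω => ((cV d W ω, cG d W ω), (za ω, F.W ω)))
        fun ω ω' _ _ e => by
          simp only [Prod.mk.injEq] at e
          exact e.2.2
      have a5 := cellP (fun ω => ((cV d W ω, cG d W ω), (za ω, F.W ω)))
        fun ω ω' hω hω' e => by
          simp only [Prod.mk.injEq] at e
          exact pA ω ω' hω hω' e.2.1 e.2.2
      have a6 := cellE (fun ω => ((cV d W ω, cG d W ω), (za ω, F.W ω)))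
        fun ω ω' hω hω' e => by
          simp only [Prod.mk.injEq] at e
          exact vA ω ω' hω hω' e.2.1 e.2.2 e.1.1
      linarith)
    (by linarith)
    (by
      have a2 := hGm (fun ω => (zo ω, (F.W ω, (F.X J ω (c 0), cE d W ω))))
      have a3 := CH_det h0 zo (fun ω => (zo ω, (F.W ω, (F.X J ω (c 0), cE d W ω))))
        fun ω ω' _ _ e => by
          simp only [Prod.mk.injEq] at e
          exact e.1
      have a4 := CH_det h0 F.W (fun ω => (zo ω, (F.W ω, (F.X J ω (c 0), cE d W ω))))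
        fun ω ω' _ _ e => by
          simp only [Prod.mk.injEq] at e
          exact e.2.1
      have a5 := cellP (fun ω => (zo ω, (F.W ω, (F.X J ω (c 0), cE d W ω))))
        fun ω ω' hω hω' e => by
          simp only [Prod.mk.injEq] at e
          refine pO ω ω' hω hω' e.1 e.2.1 ?_
          -- the exact first coordinate
          have hψ := (ko ω ω' hω hω' e.1).1
          have b0 : (bt F ω' - bt F ω) none = 0 := by
            rw [Pi.sub_apply]
            change F.t ω' - F.t ω = 0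
            unfold Fam.t
            rw [hTW e.2.1, sub_self]
          have b1 : cv (ψH (slam F W ω) 0) (bt F ω' - bt F ω) = 0 := by
            have h1 := Pool.D2F.cv_congr (Ho.cvH (slam F W ω) 0) (W := bt F ω' - bt F ω)
              (W' := 0) (by rw [b0]; rfl) (fun l hl => absurd hl (by omega))
            rw [h1]
            unfold cv
            simp
          have b2 : d.v W 0 ω' - d.v W 0 ω = F.x ω' (c 0) - F.x ω (c 0) := by
            rw [hd]
            have b4 : (hdt F c g W n r D q sg ψH Ht hD).v W 0 ω' -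
                (hdt F c g W n r D q sg ψH Ht hD).v W 0 ω = _ := hdt_dv Ho.hW 0 hψ
            rw [if_pos hr, b1, sub_zero, Pi.sub_apply] at b4
            exact b4
          rw [abs_sub_comm, b2]
          have b3 : |F.x ω' (c 0) - F.x ω (c 0)| ≤ 1 / 2 ^ J := by
            refine Pool.D2H.of_floor_mul (by positivity) ?_
            exact e.2.2.1.symm
          refine (mul_le_mul_of_nonneg_left b3 (by positivity)).trans ?_
          rw [mul_one_div, div_le_one (by positivity)]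
          refine pow_le_pow_right₀ (by norm_num) ?_
          rw [← hv 0 hr]
          exact (hvu 0 hr).trans huJ
      have a6 := CH_det h0 (cE d W) (fun ω => (zo ω, (F.W ω, (F.X J ω (c 0), cE d W ω))))
        fun ω ω' _ _ e => by
          simp only [Prod.mk.injEq] at e
          exact e.2.2.2
      linarith)
    (by
      have a1 : CH (Pool.Agent.H49.Ent.cond F.p B True) (fun ω => (zo ω, F.W ω))
          (fun ω => (zb ω, F.W ω)) ≤ η := by
        have b1 := CH_subadd h0 zo F.W (fun ω => (zb ω, F.W ω))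
        have b2 := hmono zo zb (fun ω => (zb ω, F.W ω)) fun ω ω' e => (Prod.ext_iff.1 e).1
        have b3 := CH_det h0 F.W (fun ω => (zb ω, F.W ω)) fun ω ω' _ _ e =>
          (Prod.ext_iff.1 e).2
        linarith
      have a2 := free_snd h0 (cV d W) (cG d W) (fun ω => (zo ω, F.W ω))
        (fun ω => (zb ω, F.W ω)) hfo a1
      linarith)
    (by
      have a2 := hGm (fun ω => (cV d W ω, (zb ω, F.W ω)))
      have a3 := hmono zo zb (fun ω => (cV d W ω, (zb ω, F.W ω)))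
        fun ω ω' e => by
          simp only [Prod.mk.injEq] at e
          exact e.2.1
      have a4 := CH_det h0 F.W (fun ω => (cV d W ω, (zb ω, F.W ω)))
        fun ω ω' _ _ e => by
          simp only [Prod.mk.injEq] at e
          exact e.2.2
      have a5 := cellP (fun ω => (cV d W ω, (zb ω, F.W ω)))
        fun ω ω' hω hω' e l hl => by
          simp only [Prod.mk.injEq] at e
          exact pq l hl _ (abs_nonneg _) (pB ω ω' hω hω' e.2.1 e.2.2 l hl)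
      have a6 := cellE (fun ω => (cV d W ω, (zb ω, F.W ω)))
        fun ω ω' hω hω' e => by
          simp only [Prod.mk.injEq] at e
          exact vB ω ω' hω hω' e.2.1 e.2.2 e.1
      linarith)
    (by
      refine (CH_det h0 _ _ fun ω ω' _ _ e => e).trans ?_
      rw [hη']
      linarith)
  rw [← hL₁, ← hL₂] at key
  refine le_trans ?_ key
  have hrr : 0 ≤ r * L₁ := mul_nonneg hr0 hL₁0
  rw [hη']
  have e1 : (r : ℝ) * (L₁ + L₂) = r * L₁ + r * L₂ := by ring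
  rw [e1]
  linarith

end Pool.D2F2
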