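import Pool.Agent.H28.D2.Lns
import Pool.Agent.H28.D2.Vrec
import Pool.Agent.H4.D2.Nf2
import Pool.Agent.H90.D2.Ins
import Pool.Agent.H31.D2.Drp

/-!
# The number of the hop, given the own data of the line

`tm_cls`: the time is full given the line. `up_W`, `full_W`: the time given the record of the
window. `few_line`: from the record with the time to the own data.
-/

set_option autoImplicit false

namespace Pool.D2F2

open Finset Real MvPolynomial
open Pool.Agent.H49.Ent Pool.Agent.H32.Dense Pool.STK Pool.KA Pool.KSAT Pool.K2S Pool.PB Pool.GEN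
open Pool.S6C Pool.LA91 Pool.CHT Pool.CHX
open Pool.OWN68 (opl tw uw CH_pair floor_sub_le)
open Pool.D2R (dd hs co)
open Pool.D2F (cv CvC)
open Pool.D2Z (en)
open Pool.D2N (rfv rfv_spec)
open Pool.X31 (nw few_floor)

variable {m J : ℕ}

/-- **The time is full given the line**, for the large events of a class. -/
theorem tm_cls {S : PCl m} (hT : TmH S) {c₁ δ : ℝ} (hc₁ : 0 < c₁) (hδ : 0 < δ) :
    Bas S (fun J F A => ∀ B : F.Ω → Prop, Sub B A → c₁ * Pe F.p A ≤ Pe F.p B →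
      (J : ℝ) * Real.log 2 - δ * J ≤
        CH (Pool.Agent.H49.Ent.cond F.p B True) F.T (fun ω => (F.l ω, F.Z ω))) := by
  have hpos : Bas S (fun _ F A => 0 < Pe F.p A) :=
    ⟨1, one_pos, 0, fun J _ F A h => hT.1 _ _ _ _ h⟩
  refine ((Pool.LBK.Bas.ev (hT.2 δ hδ) hc₁).and hpos).mono 0 ?_
  rintro J - F A ⟨h1, hA⟩ B hB hBc
  have hB0 : 0 < Pe F.p B := lt_of_lt_of_le (mul_pos hc₁ hA) hBc
  have h2 := h1 B hB hBc hB0
  have h3 : CH (Pool.FLF.Fam.sub F B hB0).p (Pool.FLF.Fam.sub F B hB0).T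
      (fun ω => ((Pool.FLF.Fam.sub F B hB0).l ω, (Pool.FLF.Fam.sub F B hB0).Z ω)) =
      CH (Pool.Agent.H49.Ent.cond F.p B True) F.T (fun ω => (F.l ω, F.Z ω)) :=
    Pool.FLF.sub_CH F.T (fun ω => (F.l ω, F.Z ω))
  rw [← h3]
  exact h2

section law

variable {F : Fam m J} {p : F.Ω → ℝ} {a : ℕ}

/-- The time given the record of a window. -/
theorem up_W (hp : IsLaw p) {T : Type} (Y : F.Ω → T)
    (hY : ∀ ω ω', 0 < p ω → 0 < p ω' → Y ω = Y ω' → F.Z ω = F.Z ω' ∧ F.T1 a ω = F.T1 a ω') :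
    CH p F.W Y ≤ ((J - a : ℕ) : ℝ) * Real.log 2 := by
  have h0 := hp.nonneg
  have a1 := CH_le_add h0 F.W (fun ω => F.T ω % 2 ^ (J - a)) Y
  have a2 : CH p F.W (fun ω => (F.T ω % 2 ^ (J - a), Y ω)) = 0 := by
    refine CH_eq_zero h0 ?_
    intro ω ω' hω hω' h
    obtain ⟨h1, h2⟩ := Prod.ext_iff.1 h
    dsimp only at h1 h2
    obtain ⟨h3, h4⟩ := hY ω ω' hω hω' h2
    refine Prod.ext ?_ h3
    have e1 : ∀ ν : F.Ω, F.T ν = 2 ^ (J - a) * F.T1 a ν + F.T ν % 2 ^ (J - a) := by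
      intro ν
      unfold Fam.T1
      exact (Nat.div_add_mod (F.T ν) (2 ^ (J - a))).symm
    change F.T ω = F.T ω'
    rw [e1 ω, e1 ω', h4, h1]
  have a3 := CH_le_card h0 hp.sum_one (fun ω => F.T ω % 2 ^ (J - a)) Y
    (fun _ => Finset.range (2 ^ (J - a))) (fun ω _ => by
      rw [Finset.mem_range]
      exact Nat.mod_lt _ (by positivity))
  rw [Ex_const hp.sum_one, Finset.card_range] at a3
  have e2 : Real.log ((2 ^ (J - a) : ℕ) : ℝ) = ((J - a : ℕ) : ℝ) * Real.log 2 := by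
    push_cast
    rw [Real.log_pow]
  rw [e2] at a3
  linarith

/-- The time is full given everything which is known to the line. -/
theorem full_W (hp : IsLaw p) (ha : a ≤ J) {e : ℝ}
    (hT : (J : ℝ) * Real.log 2 - e ≤ CH p F.T (fun ω => (F.l ω, F.Z ω))) {T : Type} (Y : F.Ω → T)
    (hY : ∀ ω ω', 0 < p ω → 0 < p ω' → slam F a ω = slam F a ω' → Y ω = Y ω') :
    ((J - a : ℕ) : ℝ) * Real.log 2 - e ≤ CH p F.W Y := by
  have h0 := hp.nonneg
  have a1 := CH_le_add h0 F.T (F.T1 a) (fun ω => (F.l ω, F.Z ω))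
  have a2 : CH p (F.T1 a) (fun ω => (F.l ω, F.Z ω)) ≤ (a : ℝ) * Real.log 2 := by
    have b1 := CH_le_card h0 hp.sum_one (F.T1 a) (fun ω => (F.l ω, F.Z ω))
      (fun _ => Finset.range (2 ^ a)) (fun ω _ => by
        rw [Finset.mem_range]
        show F.T ω / 2 ^ (J - a) < 2 ^ a
        rw [Nat.div_lt_iff_lt_mul (by positivity), ← pow_add]
        have e1 : a + (J - a) = J := by omega
        rw [e1]
        exact F.tim ω)
    rw [Ex_const hp.sum_one, Finset.card_range] at b1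
    have e2 : Real.log ((2 ^ a : ℕ) : ℝ) = (a : ℝ) * Real.log 2 := by
      push_cast
      rw [Real.log_pow]
    rw [e2] at b1
    exact b1
  have a3 : CH p F.T (fun ω => (F.T1 a ω, (F.l ω, F.Z ω))) ≤ CH p F.T Y := by
    refine CH_mono_cond h0 fun ω ω' hω hω' h => ?_
    simp only [Prod.mk.injEq] at h
    refine hY ω ω' hω hω' ?_
    unfold slam
    rw [h.1, h.2.1, h.2.2]
  have a4 : CH p F.T Y ≤ CH p F.W Y := by
    refine CH_mono_left h0 fun ω ω' _ _ h => ?_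
    have h1 : (F.W ω, Y ω) = (F.W ω', Y ω') := h
    have h2 := Prod.ext_iff.1 h1
    exact (Prod.ext_iff.1 h2.1).1
  rw [Nat.cast_sub ha]
  linarith

end law

end Pool.D2F2
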